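import Pool.Agent.RHU.Leg

/-!
# RHU-AlgG: the weights are algebraic

PLAN. `exp(iπ m/D)` is a root of unity, so `sin`, `cos` of rational multiples of `π` are algebraic
(`sin x = (e^{ix} - e^{-ix})/(2i)`; `IsAlgebraic` for real numbers from complex: `isAlgebraic_algebraMap_iff`).
-/

set_option autoImplicit false

namespace Pool.Agent.RHU

open Complex Finset

private theorem algG_sin (q : ℚ) : IsAlgebraic ℚ (Real.sin ((q : ℝ) * Real.pi)) :=
  (Real.isAlgebraic_sin_rat_mul_pi q).extendScalars (RingHom.injective_int (algebraMap ℤ ℚ))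

theorem isAlgebraic_sin {D : ℕ} (hD : 0 < D) (m : ℤ) :
    IsAlgebraic ℚ (Real.sin (Real.pi * m / D)) := by
  have h := algG_sin ((m : ℚ) / D)
  have e : (((m : ℚ) / D : ℚ) : ℝ) * Real.pi = Real.pi * m / D := by
    push_cast
    ring
  rwa [e] at h

theorem isAlgebraic_ga {D b t : ℕ} (hD : 0 < D) : IsAlgebraic ℚ (ga D b t) := by
  have hD' : (D : ℝ) ≠ 0 := by exact_mod_cast hD.ne'
  have h1 := isAlgebraic_sin hD ((t : ℤ) + (rr D b t : ℤ) - (D : ℤ))
  have h2 := isAlgebraic_sin hD (t : ℤ)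
  have h3 := isAlgebraic_sin hD (rr D b t : ℤ)
  have e1 : Real.pi * (((t : ℤ) + (rr D b t : ℤ) - (D : ℤ) : ℤ) : ℝ) / D
      = Real.pi * ((t : ℝ) / D + (rr D b t : ℝ) / D - 1) := by
    push_cast
    field_simp
  have e2 : Real.pi * (((t : ℤ) : ℤ) : ℝ) / D = Real.pi * (t : ℝ) / D := by
    push_cast
    ring
  have e3 : Real.pi * (((rr D b t : ℤ) : ℤ) : ℝ) / D = Real.pi * (rr D b t : ℝ) / D := by
    push_cast
    ring
  rw [e1] at h1
  rw [e2] at h2
  rw [e3] at h3
  unfold ga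
  rw [div_eq_mul_inv]
  exact h1.mul ((((isAlgebraic_nat D).mul h2).mul h3).inv)

end Pool.Agent.RHU
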