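import Pool.Agent.RHU.Defs

/-!
# RHU-Leg: positivity and the Legendre relation (Gamma function)

PLAN. For `t ∈ Ph D b`: `0 < t < D`, `0 < rr < D` (`rr = rr D b t`; if `rr = 0` then `t + rr < D`),
`1 < s < 2` with `s = t/D + rr/D`. `rr D b (D - t) = D - rr D b t` (`(D-t) b = - t b mod D`).
`Bt > 0`: `Real.Gamma_pos_of_pos`. `ga > 0`: `sin > 0` on `(0,π)`.
`leg`: with `α = t/D`, `β = rr/D`: `Bt t * Bt (D-t) = Γ(1-α)Γ(α)Γ(1-β)Γ(β)/(Γ(2-s)Γ(s))`,
`Real.Gamma_mul_Gamma_one_sub`, `Γ(s) = (s-1) Γ(s-1)`, `Γ(2-s)Γ(s-1) = π/sin π(s-1)`; so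
`Bt t * Bt (D-t) = π sin π(s-1)/((s-1) sin πα sin πβ)` and `π ga = (s-1)/D * Bt t * Bt (D-t)`.
-/

set_option autoImplicit false

namespace Pool.Agent.RHU

open Complex Finset

theorem mem_Ph {D b t : ℕ} : t ∈ Ph D b ↔ t < D ∧ D < t + rr D b t := by
  simp [Ph]

theorem Ph_pos {D b t : ℕ} (ht : t ∈ Ph D b) : 0 < t ∧ t < D ∧ 0 < rr D b t ∧ rr D b t < D := by
  obtain ⟨h1, h2⟩ := mem_Ph.1 ht
  have hD : 0 < D := by omega
  have h4 : rr D b t < D := Nat.mod_lt _ hD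
  have h3 : 0 < rr D b t := by omega
  have h5 : 0 < t := by
    rcases Nat.eq_zero_or_pos t with h | h
    · subst h
      simp [rr] at h2
    · exact h
  exact ⟨h5, h1, h3, h4⟩

theorem rr_sub {D b t : ℕ} (ht : t ∈ Ph D b) : rr D b (D - t) = D - rr D b t := by
  obtain ⟨h1, h2, h3, h4⟩ := Ph_pos ht
  have hD : 0 < D := by omega
  have h5 : (D - t) * b + t * b = D * b := by
    rw [← Nat.add_mul, Nat.sub_add_cancel h2.le]
  have h6 : rr D b (D - t) < D := Nat.mod_lt _ hD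
  have h7 : (rr D b (D - t) + rr D b t) % D = 0 := by
    unfold rr
    rw [← Nat.add_mod, h5, Nat.mul_mod_right]
  obtain ⟨k, hk⟩ := Nat.dvd_of_mod_eq_zero h7
  have hk1 : k = 1 := by
    rcases Nat.lt_or_ge k 1 with h | h
    · have : k = 0 := by omega
      subst this
      omega
    · rcases Nat.lt_or_ge k 2 with h' | h'
      · omega
      · have : D * 2 ≤ D * k := Nat.mul_le_mul_left D h'
        omega
  subst hk1
  omega

private theorem leg_facts {D b t : ℕ} (ht : t ∈ Ph D b) :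
    (0 : ℝ) < D ∧ 0 < (t : ℝ) / D ∧ (t : ℝ) / D < 1 ∧ 0 < (rr D b t : ℝ) / D ∧ (rr D b t : ℝ) / D < 1 ∧
      1 < (t : ℝ) / D + (rr D b t : ℝ) / D := by
  obtain ⟨h1, h2, h3, h4⟩ := Ph_pos ht
  have h5 := (mem_Ph.1 ht).2
  have hD : (0 : ℝ) < D := by
    have : 0 < D := by omega
    exact_mod_cast this
  refine ⟨hD, ?_, ?_, ?_, ?_, ?_⟩
  · have : (0 : ℝ) < t := by exact_mod_cast h1
    positivity
  · rw [div_lt_one hD]
    exact_mod_cast h2
  · have : (0 : ℝ) < rr D b t := by exact_mod_cast h3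
    positivity
  · rw [div_lt_one hD]
    exact_mod_cast h4
  · rw [← add_div, lt_div_iff₀ hD, one_mul]
    exact_mod_cast h5

private theorem leg_sub {D b t : ℕ} (ht : t ∈ Ph D b) :
    ((D - t : ℕ) : ℝ) / D = 1 - (t : ℝ) / D ∧ (rr D b (D - t) : ℝ) / D = 1 - (rr D b t : ℝ) / D := by
  obtain ⟨h1, h2, h3, h4⟩ := Ph_pos ht
  have hD := (leg_facts ht).1
  constructor
  · rw [Nat.cast_sub h2.le, sub_div, div_self hD.ne']
  · rw [rr_sub ht, Nat.cast_sub h4.le, sub_div, div_self hD.ne']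

private theorem leg_sin {D b t : ℕ} (ht : t ∈ Ph D b) :
    0 < Real.sin (Real.pi * ((t : ℝ) / D + (rr D b t : ℝ) / D - 1)) ∧
      0 < Real.sin (Real.pi * (t : ℝ) / D) ∧ 0 < Real.sin (Real.pi * (rr D b t : ℝ) / D) := by
  obtain ⟨hD, h1, h2, h3, h4, h5⟩ := leg_facts ht
  have hπ := Real.pi_pos
  refine ⟨Real.sin_pos_of_pos_of_lt_pi ?_ ?_, Real.sin_pos_of_pos_of_lt_pi ?_ ?_,
    Real.sin_pos_of_pos_of_lt_pi ?_ ?_⟩
  · exact mul_pos hπ (by linarith)
  · nlinarith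
  · rw [mul_div_assoc]
    exact mul_pos hπ h1
  · rw [mul_div_assoc]
    nlinarith
  · rw [mul_div_assoc]
    exact mul_pos hπ h3
  · rw [mul_div_assoc]
    nlinarith

theorem kk_eq {D b t : ℕ} (ht : t ∈ Ph D b) : kk D b t = D - rr D b t := by
  obtain ⟨h1, h2, h3, h4⟩ := Ph_pos ht
  unfold kk
  change (D - rr D b t) % D = D - rr D b t
  exact Nat.mod_eq_of_lt (by omega)

theorem Bt_pos {D b t : ℕ} (ht : t ∈ Ph D b) : 0 < Bt D b t := by
  obtain ⟨hD, h1, h2, h3, h4, h5⟩ := leg_facts ht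
  unfold Bt
  have g1 : 0 < Real.Gamma (1 - (t : ℝ) / D) := Real.Gamma_pos_of_pos (by linarith)
  have g2 : 0 < Real.Gamma (1 - (rr D b t : ℝ) / D) := Real.Gamma_pos_of_pos (by linarith)
  have g3 : 0 < Real.Gamma (2 - (t : ℝ) / D - (rr D b t : ℝ) / D) := Real.Gamma_pos_of_pos (by linarith)
  positivity

theorem Bt_sub_pos {D b t : ℕ} (ht : t ∈ Ph D b) : 0 < Bt D b (D - t) := by
  obtain ⟨hD, h1, h2, h3, h4, h5⟩ := leg_facts ht
  obtain ⟨e1, e2⟩ := leg_sub ht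
  unfold Bt
  rw [e1, e2]
  have g1 : 0 < Real.Gamma (1 - (1 - (t : ℝ) / D)) := Real.Gamma_pos_of_pos (by linarith)
  have g2 : 0 < Real.Gamma (1 - (1 - (rr D b t : ℝ) / D)) := Real.Gamma_pos_of_pos (by linarith)
  have g3 : 0 < Real.Gamma (2 - (1 - (t : ℝ) / D) - (1 - (rr D b t : ℝ) / D)) :=
    Real.Gamma_pos_of_pos (by linarith)
  positivity

theorem ga_pos {D b t : ℕ} (ht : t ∈ Ph D b) : 0 < ga D b t := by
  obtain ⟨hD, h1, h2, h3, h4, h5⟩ := leg_facts ht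
  obtain ⟨s1, s2, s3⟩ := leg_sin ht
  unfold ga
  positivity

theorem ct_pos {D b t : ℕ} (ht : t ∈ Ph D b) : 0 < ct D b t := by
  have h1 := ga_pos ht
  have h2 := Bt_pos ht
  unfold ct
  positivity

/-- Legendre relation -/
theorem leg {D b t : ℕ} (ht : t ∈ Ph D b) :
    Real.pi * (ga D b t / Bt D b t) =
      ((t : ℝ) / D + (rr D b t : ℝ) / D - 1) / D * Bt D b (D - t) := by
  obtain ⟨hD, h1, h2, h3, h4, h5⟩ := leg_facts ht
  obtain ⟨e1, e2⟩ := leg_sub ht
  obtain ⟨s1, s2, s3⟩ := leg_sin ht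
  have hB := Bt_pos ht
  have hS : 0 < (t : ℝ) / D + (rr D b t : ℝ) / D - 1 := by linarith
  have key : Bt D b t * Bt D b (D - t) =
      Real.pi * Real.sin (Real.pi * ((t : ℝ) / D + (rr D b t : ℝ) / D - 1)) /
        (((t : ℝ) / D + (rr D b t : ℝ) / D - 1) * Real.sin (Real.pi * (t : ℝ) / D) *
          Real.sin (Real.pi * (rr D b t : ℝ) / D)) := by
    unfold Bt
    rw [e1, e2]
    set α : ℝ := (t : ℝ) / D with hα
    set β : ℝ := (rr D b t : ℝ) / D with hβ
    have eα : Real.pi * (t : ℝ) / D = Real.pi * α := by rw [hα]; ring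
    have eβ : Real.pi * (rr D b t : ℝ) / D = Real.pi * β := by rw [hβ]; ring
    rw [eα] at s2 ⊢
    rw [eβ] at s3 ⊢
    have r1 := Real.Gamma_mul_Gamma_one_sub α
    have r2 := Real.Gamma_mul_Gamma_one_sub β
    have r3 := Real.Gamma_mul_Gamma_one_sub (α + β - 1)
    have r4 := Real.Gamma_add_one (s := α + β - 1) hS.ne'
    have q1 : (1 : ℝ) - (1 - α) = α := by ring
    have q2 : (1 : ℝ) - (1 - β) = β := by ring
    have q3 : (2 : ℝ) - (1 - α) - (1 - β) = α + β - 1 + 1 := by ring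
    have q4 : (1 : ℝ) - (α + β - 1) = 2 - α - β := by ring
    rw [q4] at r3
    rw [q1, q2, q3, r4]
    have g1 : 0 < Real.Gamma (α + β - 1) := Real.Gamma_pos_of_pos hS
    have g2 : 0 < Real.Gamma (2 - α - β) := Real.Gamma_pos_of_pos (by linarith)
    have hπ := Real.pi_pos
    have r1' : Real.Gamma α * Real.Gamma (1 - α) * Real.sin (Real.pi * α) = Real.pi := by
      rw [r1]; field_simp
    have r2' : Real.Gamma β * Real.Gamma (1 - β) * Real.sin (Real.pi * β) = Real.pi := by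
      rw [r2]; field_simp
    have r3' : Real.Gamma (α + β - 1) * Real.Gamma (2 - α - β) *
        Real.sin (Real.pi * (α + β - 1)) = Real.pi := by
      rw [r3]; field_simp
    rw [div_mul_div_comm, div_eq_div_iff (by positivity) (by positivity)]
    calc Real.Gamma (1 - α) * Real.Gamma (1 - β) * (Real.Gamma α * Real.Gamma β) *
          ((α + β - 1) * Real.sin (Real.pi * α) * Real.sin (Real.pi * β))
        = (α + β - 1) * (Real.Gamma α * Real.Gamma (1 - α) * Real.sin (Real.pi * α)) *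
          (Real.Gamma β * Real.Gamma (1 - β) * Real.sin (Real.pi * β)) := by ring
      _ = (α + β - 1) * Real.pi * Real.pi := by rw [r1', r2']
      _ = Real.pi * (α + β - 1) * (Real.Gamma (α + β - 1) * Real.Gamma (2 - α - β) *
          Real.sin (Real.pi * (α + β - 1))) := by rw [r3']; ring
      _ = _ := by ring
  rw [← mul_div_assoc, div_eq_iff hB.ne', mul_assoc, mul_comm (Bt D b (D - t)) (Bt D b t), key]
  unfold ga
  clear key hB e1 e2 h1 h2 h3 h4 h5
  generalize (t : ℝ) / D + (rr D b t : ℝ) / D - 1 = σ at *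
  generalize Real.sin (Real.pi * σ) = A at *
  generalize Real.sin (Real.pi * (t : ℝ) / D) = B at *
  generalize Real.sin (Real.pi * (rr D b t : ℝ) / D) = B' at *
  field_simp

end Pool.Agent.RHU
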