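import Pool.Agent.RHU.Defs

/-!
# RHU-OmB: the domain and the function `η`

PLAN. Elementary. `slitPlane` is open, `z ↦ 1 - z^D` continuous. `star`: if `(r z)^D = r^D z^D` is a real number
`≥ 1` then `r ≠ 0` and `z^D` is a real number `≥ 1`. `eta_pow`: `Complex.cpow_nat_inv_pow`. `arg_eta`:
`arg (w ^ (D⁻¹)) = arg w / D` (`Complex.log_cpow_eq_mul_log...` or `exp` form). `hasDerivAt_eta`: from
`HasDerivAt.cpow_const`, simplify with `eta ^ D = 1 - z^D`.
-/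

set_option autoImplicit false

namespace Pool.Agent.RHU

open Complex Finset Filter Topology

theorem mem_Om {D : ℕ} {z : ℂ} : z ∈ Om D ↔ 1 - z ^ D ∈ slitPlane := Iff.rfl

theorem isOpen_Om (D : ℕ) : IsOpen (Om D) := by
  have h : Continuous fun z : ℂ => 1 - z ^ D := by fun_prop
  exact Complex.isOpen_slitPlane.preimage h

theorem star_Om {D : ℕ} (hD : 0 < D) (z : ℂ) (hz : z ∈ Om D) (r : ℝ) (h0 : 0 ≤ r) (h1 : r ≤ 1) :
    (r : ℂ) * z ∈ Om D := by
  rw [mem_Om, Complex.mem_slitPlane_iff] at hz ⊢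
  have e : ((r : ℂ) * z) ^ D = ((r ^ D : ℝ) : ℂ) * z ^ D := by
    rw [mul_pow]; push_cast; rfl
  have hr1 : r ^ D ≤ 1 := pow_le_one₀ h0 h1
  have hr0 : 0 ≤ r ^ D := pow_nonneg h0 D
  rw [e]
  simp only [Complex.sub_re, Complex.one_re, Complex.sub_im, Complex.one_im, zero_sub,
    Complex.re_ofReal_mul, Complex.im_ofReal_mul] at hz ⊢
  rcases eq_or_lt_of_le hr0 with hr | hr
  · left
    rw [← hr]; simp
  · rcases hz with hz | hz
    · left
      rcases le_or_gt (z ^ D).re 0 with h | h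
      · have : r ^ D * (z ^ D).re ≤ 0 := mul_nonpos_of_nonneg_of_nonpos hr0 h
        linarith
      · have : r ^ D * (z ^ D).re ≤ 1 * (z ^ D).re := mul_le_mul_of_nonneg_right hr1 h.le
        linarith
    · right
      have hz' : (z ^ D).im ≠ 0 := fun h => hz (by rw [h]; simp)
      exact neg_ne_zero.2 (mul_ne_zero hr.ne' hz')

theorem zero_mem_Om {D : ℕ} (hD : 0 < D) : (0 : ℂ) ∈ Om D := by
  rw [mem_Om, zero_pow hD.ne', sub_zero]
  exact Complex.one_mem_slitPlane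

theorem mem_Om_of_norm {D : ℕ} (hD : 0 < D) {z : ℂ} (h : ‖z‖ < 1) : z ∈ Om D := by
  rw [mem_Om, Complex.mem_slitPlane_iff]
  left
  have h1 : ‖z ^ D‖ < 1 := by
    rw [norm_pow]
    exact pow_lt_one₀ (norm_nonneg _) h hD.ne'
  have h2 := Complex.re_le_norm (z ^ D)
  simp only [Complex.sub_re, Complex.one_re]
  linarith

theorem mem_Om_of_im {D : ℕ} {z : ℂ} (h : (z ^ D).im ≠ 0) : z ∈ Om D := by
  rw [mem_Om, Complex.mem_slitPlane_iff]
  right
  simpa using h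

theorem om_pow (D : ℕ) (hD : 0 < D) : om D ^ D = 1 := by
  unfold om
  rw [← Complex.exp_nat_mul]
  have hD' : (D : ℂ) ≠ 0 := Nat.cast_ne_zero.2 hD.ne'
  have e : (D : ℂ) * -(2 * Real.pi * I / D) = -(2 * Real.pi * I) := by
    field_simp
  rw [e, Complex.exp_neg, Complex.exp_two_pi_mul_I, inv_one]

theorem ze_pow (D : ℕ) (hD : 0 < D) : ze D ^ D = 1 := by
  unfold ze
  rw [← Complex.exp_nat_mul]
  have hD' : (D : ℂ) ≠ 0 := Nat.cast_ne_zero.2 hD.ne'
  have e : (D : ℂ) * (2 * Real.pi * I / D) = 2 * Real.pi * I := by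
    field_simp
  rw [e, Complex.exp_two_pi_mul_I]

theorem om_mul_ze (D : ℕ) : om D * ze D = 1 := by
  unfold om ze
  rw [← Complex.exp_add, neg_add_cancel, Complex.exp_zero]

private theorem omB_form (D : ℕ) : (2 * Real.pi * I / D : ℂ) = ((2 * Real.pi / D : ℝ) : ℂ) * I := by
  push_cast; ring

theorem norm_ze (D : ℕ) : ‖ze D‖ = 1 := by
  unfold ze
  rw [omB_form, Complex.norm_exp_ofReal_mul_I]

theorem norm_om (D : ℕ) : ‖om D‖ = 1 := by
  have h := congrArg norm (om_mul_ze D)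
  rwa [norm_mul, norm_ze, mul_one, norm_one] at h

theorem conj_om (D : ℕ) : (starRingEnd ℂ) (om D) = ze D := by
  unfold om ze
  rw [← Complex.exp_conj, omB_form, map_neg, map_mul, Complex.conj_ofReal, Complex.conj_I]
  congr 1
  ring

theorem rot_Om {D : ℕ} {z c : ℂ} (hc : c ^ D = 1) : c * z ∈ Om D ↔ z ∈ Om D := by
  rw [mem_Om, mem_Om, mul_pow, hc, one_mul]

theorem eta_pow {D : ℕ} (hD : 0 < D) (z : ℂ) : eta D z ^ D = 1 - z ^ D := by
  unfold eta
  exact Complex.cpow_nat_inv_pow _ hD.ne'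

theorem eta_ne {D : ℕ} {z : ℂ} (hz : z ∈ Om D) : eta D z ≠ 0 := by
  unfold eta
  rw [Ne, Complex.cpow_eq_zero_iff]
  intro h
  exact Complex.slitPlane_ne_zero hz h.1

theorem eta_rot {D : ℕ} {c : ℂ} (hc : c ^ D = 1) (z : ℂ) : eta D (c * z) = eta D z := by
  unfold eta
  rw [mul_pow, hc, one_mul]

theorem eta_zero {D : ℕ} (hD : 0 < D) : eta D 0 = 1 := by
  unfold eta
  rw [zero_pow hD.ne', sub_zero, Complex.one_cpow]

theorem norm_eta {D : ℕ} (hD : 0 < D) (z : ℂ) : ‖eta D z‖ = ‖1 - z ^ D‖ ^ ((D : ℝ)⁻¹) := by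
  unfold eta
  rw [← Complex.norm_cpow_real]
  push_cast
  rfl

theorem arg_eta {D : ℕ} (hD : 0 < D) {z : ℂ} (hz : z ∈ Om D) : |arg (eta D z)| < Real.pi / D := by
  have hD1 : (1 : ℝ) ≤ D := by exact_mod_cast hD
  have hD0 : (0 : ℝ) < D := by linarith
  have hne : 1 - z ^ D ≠ 0 := Complex.slitPlane_ne_zero hz
  have hslit := Complex.mem_slitPlane_iff_arg.1 hz
  have hlt : |arg (1 - z ^ D)| < Real.pi := by
    rw [abs_lt]
    exact ⟨Complex.neg_pi_lt_arg _, lt_of_le_of_ne (Complex.arg_le_pi _) hslit.1⟩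
  have h1 : |arg (1 - z ^ D) / D| < Real.pi / D := by
    rw [abs_div, abs_of_pos hD0]
    exact div_lt_div_of_pos_right hlt hD0
  have h2 : Real.pi / D ≤ Real.pi := div_le_self Real.pi_pos.le hD1
  have h3 := abs_lt.1 h1
  have him : (Complex.log (1 - z ^ D) * (D : ℂ)⁻¹).im = arg (1 - z ^ D) / D := by
    have : (D : ℂ)⁻¹ = (((D : ℝ)⁻¹ : ℝ) : ℂ) := by push_cast; rfl
    rw [this, mul_comm, Complex.im_ofReal_mul, Complex.log_im]
    ring
  have harg : arg (eta D z) = arg (1 - z ^ D) / D := by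
    unfold eta
    rw [Complex.cpow_def_of_ne_zero hne, Complex.arg_exp, him, toIocMod_eq_self]
    exact ⟨by linarith [h3.1], by linarith [h3.2]⟩
  rw [harg]
  exact h1

theorem hasDerivAt_eta {D : ℕ} (hD : 0 < D) {z : ℂ} (hz : z ∈ Om D) :
    HasDerivAt (eta D) (-z ^ (D - 1) / eta D z ^ (D - 1)) z := by
  have hD' : (D : ℂ) ≠ 0 := Nat.cast_ne_zero.2 hD.ne'
  have hne : 1 - z ^ D ≠ 0 := Complex.slitPlane_ne_zero hz
  have h1 : HasDerivAt (fun w : ℂ => 1 - w ^ D) (-((D : ℂ) * z ^ (D - 1))) z :=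
    (hasDerivAt_pow D z).const_sub 1
  have h2 := h1.cpow_const (c := (D : ℂ)⁻¹) hz
  have hη : eta D z ≠ 0 := eta_ne hz
  have e : (1 - z ^ D) ^ ((D : ℂ)⁻¹ - 1) = eta D z / eta D z ^ D := by
    rw [eta_pow hD, Complex.cpow_sub _ _ hne, Complex.cpow_one]
    rfl
  have e2 : eta D z ^ D = eta D z * eta D z ^ (D - 1) := by
    rw [← pow_succ', Nat.sub_add_cancel hD]
  have e3 : (D : ℂ)⁻¹ * (1 - z ^ D) ^ ((D : ℂ)⁻¹ - 1) * -((D : ℂ) * z ^ (D - 1)) =
      -z ^ (D - 1) / eta D z ^ (D - 1) := by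
    rw [e, e2]
    have hp : eta D z ^ (D - 1) ≠ 0 := pow_ne_zero _ hη
    field_simp
  rw [e3] at h2
  exact h2

theorem differentiableOn_eta {D : ℕ} (hD : 0 < D) : DifferentiableOn ℂ (eta D) (Om D) :=
  fun _ hz => (hasDerivAt_eta hD hz).differentiableAt.differentiableWithinAt

/-- lower bound for `|1 - z^D|` -/
theorem abs_one_sub_le (D : ℕ) (z : ℂ) : |1 - ‖z‖ ^ D| ≤ ‖1 - z ^ D‖ := by
  have h := abs_norm_sub_norm_le (1 : ℂ) (z ^ D)
  rwa [norm_one, norm_pow] at h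

end Pool.Agent.RHU
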