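import Pool.Agent.RHU.Star
import Pool.Agent.RHU.OmB
import Pool.Agent.RHU.Leg

/-!
# RHU-CFa: elementary properties of the functions `F_t`, `C_t`
-/

set_option autoImplicit false

namespace Pool.Agent.RHU

open Complex Finset Filter Topology

theorem differentiableOn_Ft {D b t : ℕ} (hD : 0 < D) : DifferentiableOn ℂ (Ft D b t) (Om D) := by
  unfold Ft Fe
  refine DifferentiableOn.div ?_ ?_ ?_
  · exact ((differentiable_id.pow _).const_mul _).differentiableOn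
  · exact (differentiableOn_eta hD).fun_pow _
  · intro z hz
    exact pow_ne_zero _ (eta_ne hz)

theorem hasDerivAt_Cc {D b t : ℕ} (hD : 0 < D) {z : ℂ} (hz : z ∈ Om D) :
    HasDerivAt (Cc D b t) (Ft D b t z) z :=
  hasDerivAt_prim (isOpen_Om D) (star_Om hD) (differentiableOn_Ft hD) hz

theorem Ft_rot {D b t : ℕ} (ht : t < D) {c : ℂ} (hc : c ^ D = 1) (z : ℂ) :
    Ft D b t (c * z) * c = c ^ (D - t) * Ft D b t z := by
  have h1 : D - t = (D - 1 - t) + 1 := by omega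
  rw [h1, Ft, Ft, Fe, Fe, eta_rot hc, mul_pow, pow_succ]
  ring

theorem Cc_rot {D b t : ℕ} (ht : t < D) {c : ℂ} (hc : c ^ D = 1) (z : ℂ) :
    Cc D b t (c * z) = c ^ (D - t) * Cc D b t z :=
  prim_rot _ _ c _ (Ft_rot ht hc) z

theorem Cc_rot_ze {D b t : ℕ} (hD : 0 < D) (ht : t < D) (j : ℕ) (z : ℂ) :
    Cc D b t (ze D ^ j * z) = om D ^ (t * j) * Cc D b t z := by
  have h1 : (ze D ^ j) ^ D = 1 := by
    rw [← pow_mul, mul_comm, pow_mul, ze_pow D hD, one_pow]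
  rw [Cc_rot ht h1]
  congr 1
  have h2 : (ze D ^ j) ^ (D - t) * ze D ^ (t * j) = 1 := by
    rw [mul_comm t j, pow_mul (ze D) j t, ← pow_add, Nat.sub_add_cancel ht.le, h1]
  have h3 : om D ^ (t * j) * ze D ^ (t * j) = 1 := by
    rw [← mul_pow, om_mul_ze, one_pow]
  have h4 : ze D ^ (t * j) ≠ 0 := by
    intro h
    rw [h, mul_zero] at h3
    exact zero_ne_one h3
  exact mul_right_cancel₀ h4 (h2.trans h3.symm)

private theorem cfa_abs_pos {D : ℕ} (hD : 0 < D) {r : ℝ} (h0 : 0 ≤ r) (h1 : r ≠ 1) :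
    0 < |1 - r ^ D| := by
  rw [abs_pos, sub_ne_zero]
  intro h
  exact h1 ((pow_eq_one_iff_of_nonneg h0 hD.ne').1 h.symm)

/-- `F_t` is bounded by `|1 - |z|^D|^(-rr/D)` on bounded sets -/
theorem norm_Ft {D b t : ℕ} (hD : 0 < D) (z : ℂ) (hz : ‖z‖ ≠ 1) :
    ‖Ft D b t z‖ ≤ D * ‖z‖ ^ (D - 1 - t) * |1 - ‖z‖ ^ D| ^ (-((rr D b t : ℝ) / D)) := by
  have h0 := cfa_abs_pos hD (norm_nonneg z) hz
  have h1 : ‖eta D z ^ rr D b t‖ = ‖1 - z ^ D‖ ^ ((rr D b t : ℝ) / D) := by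
    rw [norm_pow, norm_eta hD, ← Real.rpow_mul_natCast (norm_nonneg _)]
    congr 1
    rw [div_eq_inv_mul]
  rw [Ft, Fe, norm_div, h1, norm_mul, norm_pow, Complex.norm_natCast, div_eq_mul_inv,
    Real.rpow_neg h0.le]
  refine mul_le_mul_of_nonneg_left ?_ (by positivity)
  refine inv_anti₀ (Real.rpow_pos_of_pos h0 _) ?_
  exact Real.rpow_le_rpow h0.le (abs_one_sub_le D z) (by positivity)

theorem norm_Ft_loc {D b t : ℕ} (hD : 0 < D) (R : ℝ) : ∃ M : ℝ, ∀ z : ℂ, ‖z‖ ≤ R → ‖z‖ ≠ 1 →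
    ‖Ft D b t z‖ ≤ M * |1 - ‖z‖ ^ D| ^ (-((rr D b t : ℝ) / D)) := by
  refine ⟨D * R ^ (D - 1 - t), fun z hz h1 => (norm_Ft hD z h1).trans ?_⟩
  refine mul_le_mul_of_nonneg_right ?_ (Real.rpow_nonneg (abs_nonneg _) _)
  exact mul_le_mul_of_nonneg_left (pow_le_pow_left₀ (norm_nonneg _) hz _) (Nat.cast_nonneg _)

/-- decay at infinity of order `D (t/D + rr/D - 1) + 1 = t + rr - D + 1` -/
theorem norm_Ft_inf {D b t : ℕ} (hD : 0 < D) (ht : t < D) : ∃ M : ℝ, ∀ z : ℂ, 2 ≤ ‖z‖ →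
    ‖Ft D b t z‖ ≤ M * ‖z‖ ^ (-1 - ((t : ℝ) + rr D b t - D)) := by
  refine ⟨D * 2 ^ ((rr D b t : ℝ) / D), fun z hz => ?_⟩
  have hz0 : 0 < ‖z‖ := by linarith
  have hz1 : ‖z‖ ≠ 1 := by linarith
  refine (norm_Ft hD z hz1).trans ?_
  have h1 : ‖z‖ ^ D / 2 ≤ |1 - ‖z‖ ^ D| := by
    have h2 : (2 : ℝ) ≤ ‖z‖ ^ D := by
      calc (2 : ℝ) ≤ ‖z‖ := hz
        _ = ‖z‖ ^ 1 := (pow_one _).symm
        _ ≤ ‖z‖ ^ D := pow_le_pow_right₀ (by linarith) hD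
    rw [abs_sub_comm, abs_of_nonneg (by linarith)]
    linarith
  have h3 : 0 < ‖z‖ ^ D / 2 := by positivity
  have h4 : |1 - ‖z‖ ^ D| ^ (-((rr D b t : ℝ) / D)) ≤
      (‖z‖ ^ D / 2) ^ (-((rr D b t : ℝ) / D)) := by
    refine Real.rpow_le_rpow_of_nonpos h3 h1 ?_
    rw [neg_nonpos]
    positivity
  have hDr : (D : ℝ) ≠ 0 := by exact_mod_cast hD.ne'
  have h5 : (‖z‖ ^ D / 2) ^ (-((rr D b t : ℝ) / D)) =
      ‖z‖ ^ (-(rr D b t : ℝ)) * 2 ^ ((rr D b t : ℝ) / D) := by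
    rw [Real.div_rpow (by positivity) (by norm_num), Real.rpow_neg (by norm_num : (0 : ℝ) ≤ 2),
      div_inv_eq_mul, ← Real.rpow_natCast, ← Real.rpow_mul hz0.le]
    congr 2
    field_simp
  have h6 : ‖z‖ ^ (-1 - ((t : ℝ) + rr D b t - D)) =
      ‖z‖ ^ (D - 1 - t) * ‖z‖ ^ (-(rr D b t : ℝ)) := by
    rw [← Real.rpow_natCast, ← Real.rpow_add hz0]
    congr 1
    have h7 : ((D - 1 - t : ℕ) : ℝ) = (D : ℝ) - 1 - t := by
      have h8 : (D - 1 - t) + 1 + t = D := by omega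
      have h9 : (((D - 1 - t) + 1 + t : ℕ) : ℝ) = D := by rw [h8]
      push_cast at h9
      linarith
    rw [h7]
    ring
  calc (D : ℝ) * ‖z‖ ^ (D - 1 - t) * |1 - ‖z‖ ^ D| ^ (-((rr D b t : ℝ) / D))
      ≤ D * ‖z‖ ^ (D - 1 - t) * (‖z‖ ^ (-(rr D b t : ℝ)) * 2 ^ ((rr D b t : ℝ) / D)) := by
        rw [← h5]
        exact mul_le_mul_of_nonneg_left h4 (by positivity)
    _ = D * 2 ^ ((rr D b t : ℝ) / D) * ‖z‖ ^ (-1 - ((t : ℝ) + rr D b t - D)) := by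
        rw [h6]
        ring

theorem Ft_mul {D b t : ℕ} (ht : t ∈ Ph D b) {z : ℂ} (hz : z ∈ Om D) :
    Ft D b (D - t) z * Ft D b t z = D ^ 2 * z ^ (D - 2) / (1 - z ^ D) := by
  obtain ⟨h0, h1, h2, h3⟩ := Ph_pos ht
  have hD : 0 < D := by omega
  rw [Ft, Ft, Fe, Fe, rr_sub ht, ← eta_pow hD z, div_mul_div_comm]
  have h4 : z ^ (D - 2) = z ^ (D - 1 - (D - t)) * z ^ (D - 1 - t) := by
    rw [← pow_add]
    congr 1
    omega
  have h5 : eta D z ^ D = eta D z ^ (D - rr D b t) * eta D z ^ rr D b t := by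
    rw [← pow_add, Nat.sub_add_cancel h3.le]
  rw [h4, h5]
  ring

end Pool.Agent.RHU
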