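import Pool.Agent.RHU.Leg

/-!
# RHU-CVal: the value of `C_t` at `1` is the Beta value

Substitution `x = r^D` and the complex Beta integral.
-/

set_option autoImplicit false

namespace Pool.Agent.RHU

open Complex Finset Filter Topology

/-- the integrand of the Beta integral -/
private noncomputable def cval_G (p q : ℝ) (x : ℝ) : ℂ :=
  (x : ℂ) ^ ((p : ℂ) - 1) * (1 - (x : ℂ)) ^ ((q : ℂ) - 1)

private lemma cval_sub (p q : ℝ) {D : ℕ} (hD : 0 < D) :
    ∫ r in Set.Ioo (0 : ℝ) 1, (|(D : ℝ)| * r ^ ((D : ℝ) - 1)) • cval_G p q (r ^ (D : ℝ)) =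
      Complex.betaIntegral p q := by
  have hD' : (D : ℝ) ≠ 0 := Nat.cast_ne_zero.2 hD.ne'
  have hD0 : (0 : ℝ) < D := Nat.cast_pos.2 hD
  have h1 := MeasureTheory.integral_comp_rpow_Ioi ((Set.Ioo (0 : ℝ) 1).indicator (cval_G p q)) hD'
  have h2 : ∫ r in Set.Ioo (0 : ℝ) 1, (|(D : ℝ)| * r ^ ((D : ℝ) - 1)) • cval_G p q (r ^ (D : ℝ)) =
      ∫ r in Set.Ioi (0 : ℝ), (|(D : ℝ)| * r ^ ((D : ℝ) - 1)) •
        (Set.Ioo (0 : ℝ) 1).indicator (cval_G p q) (r ^ (D : ℝ)) := by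
    rw [← MeasureTheory.integral_indicator measurableSet_Ioo,
      ← MeasureTheory.integral_indicator measurableSet_Ioi]
    refine congrArg (fun f : ℝ → ℂ => ∫ r, f r) (funext fun r => ?_)
    by_cases hr0 : 0 < r
    · rw [Set.indicator_of_mem (show r ∈ Set.Ioi (0 : ℝ) from hr0)]
      by_cases hr1 : r < 1
      · rw [Set.indicator_of_mem (show r ∈ Set.Ioo (0 : ℝ) 1 from ⟨hr0, hr1⟩),
          Set.indicator_of_mem]
        exact ⟨Real.rpow_pos_of_pos hr0 _, Real.rpow_lt_one hr0.le hr1 hD0⟩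
      · rw [Set.indicator_of_notMem (fun h => hr1 h.2), Set.indicator_of_notMem, smul_zero]
        intro h
        exact absurd h.2 (not_lt.2 (Real.one_le_rpow (not_lt.1 hr1) hD0.le))
    · rw [Set.indicator_of_notMem (fun h => hr0 h.1),
        Set.indicator_of_notMem (show r ∉ Set.Ioi (0 : ℝ) from hr0)]
  rw [h2, h1, MeasureTheory.setIntegral_indicator measurableSet_Ioo]
  have h3 : Set.Ioi (0 : ℝ) ∩ Set.Ioo 0 1 = Set.Ioo 0 1 :=
    Set.inter_eq_right.2 fun x hx => hx.1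
  rw [h3, ← MeasureTheory.integral_Ioc_eq_integral_Ioo, ← intervalIntegral.integral_of_le zero_le_one]
  rfl

private lemma cval_Ft {D b t : ℕ} (hD : 0 < D) (ht : t < D) {r : ℝ} (h0 : 0 < r) (h1 : r < 1) :
    Ft D b t ((r : ℂ) * 1) * 1 = (|(D : ℝ)| * r ^ ((D : ℝ) - 1)) •
      cval_G (1 - (t : ℝ) / D) (1 - (rr D b t : ℝ) / D) (r ^ (D : ℝ)) := by
  have hD' : (D : ℝ) ≠ 0 := Nat.cast_ne_zero.2 hD.ne'
  have hx0 : 0 < r ^ D := pow_pos h0 D
  have hx1 : r ^ D < 1 := pow_lt_one₀ h0.le h1 hD.ne'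
  have hy : 0 < 1 - r ^ D := by linarith
  have e1 : r ^ (D : ℝ) = r ^ D := Real.rpow_natCast r D
  have e2 : r ^ ((D : ℝ) - 1) = r ^ (D - 1) := by
    rw [← Real.rpow_natCast r (D - 1), Nat.cast_pred hD]
  have e3 : eta D (r : ℂ) = (((1 - r ^ D) ^ ((D : ℝ)⁻¹) : ℝ) : ℂ) := by
    unfold eta
    rw [Complex.ofReal_cpow hy.le]
    push_cast
    rfl
  have e4 : cval_G (1 - (t : ℝ) / D) (1 - (rr D b t : ℝ) / D) (r ^ D) =
      (((r ^ D) ^ (-((t : ℝ) / D)) * (1 - r ^ D) ^ (-((rr D b t : ℝ) / D)) : ℝ) : ℂ) := by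
    unfold cval_G
    rw [Complex.ofReal_mul, Complex.ofReal_cpow hx0.le, Complex.ofReal_cpow hy.le]
    congr 1
    · congr 1
      push_cast
      ring
    · congr 1
      · push_cast
        rfl
      · push_cast
        ring
  have e5 : (r ^ D) ^ (-((t : ℝ) / D)) = (r ^ t)⁻¹ := by
    rw [← Real.rpow_natCast r D, ← Real.rpow_mul h0.le, ← Real.rpow_natCast r t,
      ← Real.rpow_neg h0.le]
    congr 1
    field_simp
  have e6 : (1 - r ^ D) ^ (-((rr D b t : ℝ) / D)) = (((1 - r ^ D) ^ ((D : ℝ)⁻¹)) ^ rr D b t)⁻¹ := by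
    rw [← Real.rpow_natCast _ (rr D b t), ← Real.rpow_mul hy.le, ← Real.rpow_neg hy.le]
    congr 1
    field_simp
  have e7 : r ^ (D - 1) = r ^ (D - 1 - t) * r ^ t := by
    rw [← pow_add]
    congr 1
    omega
  rw [e1, e4, e2, Nat.abs_cast, mul_one, mul_one, e5, e6, e7]
  unfold Ft Fe
  rw [e3, Complex.real_smul]
  push_cast
  have h2 : (r : ℂ) ^ t ≠ 0 := pow_ne_zero _ (by exact_mod_cast h0.ne')
  field_simp

theorem Cc_one {D b t : ℕ} (hD : 0 < D) (h0 : 0 < t) (ht : t < D) :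
    Cc D b t 1 = (Bt D b t : ℂ) := by
  have hDR : (0 : ℝ) < D := Nat.cast_pos.2 hD
  have hp : 0 < 1 - (t : ℝ) / D := by
    have h1 : (t : ℝ) / D < 1 := by
      rw [div_lt_one hDR]
      exact_mod_cast ht
    linarith
  have hq : 0 < 1 - (rr D b t : ℝ) / D := by
    have h1 : (rr D b t : ℝ) / D < 1 := by
      rw [div_lt_one hDR]
      exact_mod_cast Nat.mod_lt _ hD
    linarith
  have h1 : Cc D b t 1 = Complex.betaIntegral ((1 - (t : ℝ) / D : ℝ) : ℂ)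
      ((1 - (rr D b t : ℝ) / D : ℝ) : ℂ) := by
    unfold Cc Prim
    rw [intervalIntegral.integral_of_le zero_le_one, MeasureTheory.integral_Ioc_eq_integral_Ioo,
      ← cval_sub _ _ hD]
    exact MeasureTheory.setIntegral_congr_fun measurableSet_Ioo fun r hr => cval_Ft hD ht hr.1 hr.2
  have h2 := Complex.Gamma_mul_Gamma_eq_betaIntegral (s := ((1 - (t : ℝ) / D : ℝ) : ℂ))
    (t := ((1 - (rr D b t : ℝ) / D : ℝ) : ℂ)) (by rw [Complex.ofReal_re]; exact hp)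
    (by rw [Complex.ofReal_re]; exact hq)
  rw [← Complex.ofReal_add, Complex.Gamma_ofReal, Complex.Gamma_ofReal, Complex.Gamma_ofReal] at h2
  have h3 : (1 - (t : ℝ) / D) + (1 - (rr D b t : ℝ) / D) = 2 - (t : ℝ) / D - (rr D b t : ℝ) / D := by
    ring
  rw [h3] at h2
  have h4 : Real.Gamma (2 - (t : ℝ) / D - (rr D b t : ℝ) / D) ≠ 0 := by
    rw [← h3]
    exact (Real.Gamma_pos_of_pos (add_pos hp hq)).ne'
  have h5 : (Real.Gamma (2 - (t : ℝ) / D - (rr D b t : ℝ) / D) : ℂ) ≠ 0 := by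
    exact_mod_cast h4
  rw [h1]
  unfold Bt
  rw [Complex.ofReal_div, Complex.ofReal_mul, h2, mul_div_cancel_left₀ _ h5]

end Pool.Agent.RHU
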