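import Pool.Agent.RHU.RadLim

/-!
# RHU-RadBd: bounds for radial primitives

PLAN. `prim_ray` with `z = |z| e`, `|e| = 1`: `‖Prim φ z‖ ≤ ∫_0^{|z|} ‖φ(s e)‖ ds`; for `z ∈ Om D` the segment stays
in `Om D`. Split at `2`. `∫_2^∞ s^(-1-ε) ds = 2^(-ε)/ε`. `prim_sub`: for `|z| ≥ 2` the difference
`Prim φ z - Prim φ (2 z/|z|) = ∫_2^{|z|} φ(s e) e ds`.
-/

set_option autoImplicit false

namespace Pool.Agent.RHU

open Complex Finset Filter Topology MeasureTheory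

private theorem radBd_dir {z : ℂ} (hz : z ≠ 0) :
    ‖z / (‖z‖ : ℂ)‖ = 1 ∧ ((‖z‖ : ℝ) : ℂ) * (z / (‖z‖ : ℂ)) = z := by
  have h : ‖z‖ ≠ 0 := norm_ne_zero_iff.2 hz
  have h' : (‖z‖ : ℂ) ≠ 0 := by exact_mod_cast h
  refine ⟨?_, ?_⟩
  · rw [norm_div, Complex.norm_real, norm_norm, div_self h]
  · field_simp

private theorem radBd_mem {D : ℕ} (hD : 0 < D) {ρ : ℝ} {e : ℂ} (hρ : 0 < ρ)
    (hz : (ρ : ℂ) * e ∈ Om D) {s : ℝ} (h0 : 0 ≤ s) (h1 : s ≤ ρ) : (s : ℂ) * e ∈ Om D := by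
  have h := star_Om hD _ hz (s / ρ) (div_nonneg h0 hρ.le) ((div_le_one hρ).2 h1)
  have hρ' : (ρ : ℂ) ≠ 0 := by exact_mod_cast hρ.ne'
  have e1 : ((s / ρ : ℝ) : ℂ) * ((ρ : ℂ) * e) = (s : ℂ) * e := by
    push_cast
    field_simp
  rwa [e1] at h

private theorem radBd_cont {D : ℕ} (hD : 0 < D) {φ : ℂ → ℂ} (hc : ContinuousOn φ (Om D)) {ρ : ℝ}
    {e : ℂ} (hρ : 0 < ρ) (hz : (ρ : ℂ) * e ∈ Om D) :
    ContinuousOn (fun s : ℝ => φ (s * e) * e) (Set.Icc 0 ρ) := by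
  refine ContinuousOn.mul (hc.comp (by fun_prop) ?_) continuousOn_const
  intro s hs
  exact radBd_mem hD hρ hz hs.1 hs.2

private theorem radBd_norm {s : ℝ} {e : ℂ} (he : ‖e‖ = 1) (hs : 0 ≤ s) : ‖(s : ℂ) * e‖ = s := by
  rw [norm_mul, he, mul_one, Complex.norm_real, Real.norm_of_nonneg hs]

/-- splitting at `2` -/
private theorem radBd_split {D : ℕ} (hD : 0 < D) {φ : ℂ → ℂ} (hc : ContinuousOn φ (Om D)) {ρ : ℝ}
    {e : ℂ} (hρ : 2 ≤ ρ) (hz : (ρ : ℂ) * e ∈ Om D) :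
    Prim φ (ρ * e) = Prim φ ((2 : ℝ) * e) + ∫ s in (2 : ℝ)..ρ, φ (s * e) * e := by
  have hρ0 : 0 < ρ := by linarith
  rw [prim_ray φ ρ hρ0 e, prim_ray φ 2 (by norm_num) e]
  have hc' := radBd_cont hD hc hρ0 hz
  refine (intervalIntegral.integral_add_adjacent_intervals ?_ ?_).symm
  · refine ContinuousOn.intervalIntegrable ?_
    rw [Set.uIcc_of_le (by norm_num)]
    exact hc'.mono (Set.Icc_subset_Icc_right hρ)
  · refine ContinuousOn.intervalIntegrable ?_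
    rw [Set.uIcc_of_le hρ]
    exact hc'.mono (Set.Icc_subset_Icc_left (by norm_num))

/-- the tail is bounded -/
private theorem radBd_tail {M ε ρ : ℝ} {f : ℝ → ℂ} (hε : 0 < ε) (hρ : 2 ≤ ρ)
    (hf : ∀ s : ℝ, 2 ≤ s → s ≤ ρ → ‖f s‖ ≤ M * s ^ (-1 - ε)) :
    ‖∫ s in (2 : ℝ)..ρ, f s‖ ≤ |M| / ε := by
  have hint : IntervalIntegrable (fun s : ℝ => |M| * s ^ (-1 - ε)) volume 2 ρ := by
    refine (intervalIntegral.intervalIntegrable_rpow (Or.inr ?_)).const_mul _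
    rw [Set.uIcc_of_le hρ]
    intro h
    linarith [h.1]
  have h1 : ‖∫ s in (2 : ℝ)..ρ, f s‖ ≤ ∫ s in (2 : ℝ)..ρ, |M| * s ^ (-1 - ε) := by
    refine intervalIntegral.norm_integral_le_of_norm_le hρ ?_ hint
    refine Filter.Eventually.of_forall (fun s hs => ?_)
    refine (hf s hs.1.le hs.2).trans ?_
    refine mul_le_mul_of_nonneg_right (le_abs_self M) (Real.rpow_nonneg ?_ _)
    linarith [hs.1]
  refine h1.trans ?_
  rw [intervalIntegral.integral_const_mul, integral_rpow]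
  · have e1 : (-1 - ε + 1 : ℝ) = -ε := by ring
    rw [e1]
    have h2 : 0 ≤ ρ ^ (-ε) := Real.rpow_nonneg (by linarith) _
    have h3 : (2 : ℝ) ^ (-ε) ≤ 1 := Real.rpow_le_one_of_one_le_of_nonpos (by norm_num) (by linarith)
    have h4 : (ρ ^ (-ε) - 2 ^ (-ε)) / -ε = (2 ^ (-ε) - ρ ^ (-ε)) / ε := by
      rw [div_neg, ← neg_div]; ring_nf
    rw [h4, div_eq_mul_inv |M|]
    refine mul_le_mul_of_nonneg_left ?_ (abs_nonneg M)
    rw [div_eq_mul_inv]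
    have h5 : 0 < ε⁻¹ := inv_pos.2 hε
    nlinarith
  · right
    refine ⟨by linarith, ?_⟩
    rw [Set.uIcc_of_le hρ]
    intro h
    linarith [h.1]

theorem prim_bdd_loc {D : ℕ} (hD : 0 < D) {φ : ℂ → ℂ} {β M R : ℝ} (hβ0 : 0 ≤ β) (hβ : β < 1)
    (hc : ContinuousOn φ (Om D))
    (hM : ∀ z ∈ Om D, ‖z‖ ≤ R → ‖z‖ ≠ 1 → ‖φ z‖ ≤ M * |1 - ‖z‖ ^ D| ^ (-β)) :
    ∃ M' : ℝ, ∀ z ∈ Om D, ‖z‖ ≤ R → ‖Prim φ z‖ ≤ M' := by
  have hnn : ∀ s : ℝ, 0 ≤ |M| * |1 - s ^ D| ^ (-β) := fun s =>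
    mul_nonneg (abs_nonneg _) (Real.rpow_nonneg (abs_nonneg _) _)
  have hint : ∀ a b : ℝ, 0 ≤ a → 0 ≤ b →
      IntervalIntegrable (fun s : ℝ => |M| * |1 - s ^ D| ^ (-β)) volume a b := fun a b ha hb =>
    (intervalIntegrable_mod hD hβ0 hβ a b ha hb).const_mul _
  refine ⟨∫ s in (0 : ℝ)..(max R 0), |M| * |1 - s ^ D| ^ (-β), fun z hz hzR => ?_⟩
  rcases eq_or_ne z 0 with rfl | hz0
  · rw [prim_zero, norm_zero]
    exact intervalIntegral.integral_nonneg (le_max_right _ _) (fun s _ => hnn s)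
  obtain ⟨he, hez⟩ := radBd_dir hz0
  have hρ : 0 < ‖z‖ := norm_pos_iff.2 hz0
  set e : ℂ := z / (‖z‖ : ℂ) with hedef
  have hz' : ((‖z‖ : ℝ) : ℂ) * e ∈ Om D := by rw [hez]; exact hz
  have h1 : Prim φ z = ∫ s in (0 : ℝ)..‖z‖, φ (s * e) * e := by
    rw [← prim_ray φ ‖z‖ hρ e, hez]
  have h2 : ‖∫ s in (0 : ℝ)..‖z‖, φ (s * e) * e‖ ≤ ∫ s in (0 : ℝ)..‖z‖, |M| * |1 - s ^ D| ^ (-β) := by
    refine intervalIntegral.norm_integral_le_of_norm_le hρ.le ?_ (hint 0 ‖z‖ le_rfl hρ.le)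
    have hae : ∀ᵐ s : ℝ ∂volume, s ≠ 1 := by
      have : (volume : Measure ℝ) {(1 : ℝ)} = 0 := by simp
      filter_upwards [compl_mem_ae_iff.2 this] with s hs
      simpa using hs
    filter_upwards [hae] with s hs1 hs
    have hn : ‖(s : ℂ) * e‖ = s := radBd_norm he hs.1.le
    have h3 := hM ((s : ℂ) * e) (radBd_mem hD hρ hz' hs.1.le hs.2) (by rw [hn]; exact hs.2.trans hzR)
      (by rw [hn]; exact hs1)
    rw [hn] at h3
    rw [norm_mul, he, mul_one]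
    refine h3.trans (mul_le_mul_of_nonneg_right (le_abs_self M) ?_)
    exact Real.rpow_nonneg (abs_nonneg _) _
  rw [h1]
  refine h2.trans ?_
  have hle : ‖z‖ ≤ max R 0 := hzR.trans (le_max_left _ _)
  refine intervalIntegral.integral_mono_interval le_rfl hρ.le hle ?_ (hint 0 _ le_rfl (le_max_right _ _))
  exact Filter.Eventually.of_forall (fun s => hnn s)

theorem prim_bdd {D : ℕ} (hD : 0 < D) {φ : ℂ → ℂ} {β M ε : ℝ} (hβ0 : 0 ≤ β) (hβ : β < 1)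
    (hε : 0 < ε) (hc : ContinuousOn φ (Om D))
    (hM : ∀ z ∈ Om D, ‖z‖ ≤ 2 → ‖z‖ ≠ 1 → ‖φ z‖ ≤ M * |1 - ‖z‖ ^ D| ^ (-β))
    (hM2 : ∀ z ∈ Om D, 2 ≤ ‖z‖ → ‖φ z‖ ≤ M * ‖z‖ ^ (-1 - ε)) :
    ∃ M' : ℝ, ∀ z ∈ Om D, ‖Prim φ z‖ ≤ M' := by
  obtain ⟨M1, h1⟩ := prim_bdd_loc hD hβ0 hβ hc hM
  have hb : 0 ≤ |M| / ε := div_nonneg (abs_nonneg _) hε.le
  refine ⟨M1 + |M| / ε, fun z hz => ?_⟩
  rcases le_or_gt ‖z‖ 2 with h | h
  · linarith [h1 z hz h]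
  have hz0 : z ≠ 0 := by
    rintro rfl
    rw [norm_zero] at h
    linarith
  obtain ⟨he, hez⟩ := radBd_dir hz0
  have hρ : 0 < ‖z‖ := norm_pos_iff.2 hz0
  set e : ℂ := z / (‖z‖ : ℂ) with hedef
  have hz' : ((‖z‖ : ℝ) : ℂ) * e ∈ Om D := by rw [hez]; exact hz
  have hs := radBd_split hD hc h.le hz'
  rw [hez] at hs
  have h2 : ‖Prim φ ((2 : ℝ) * e)‖ ≤ M1 := by
    refine h1 _ (radBd_mem hD hρ hz' (by norm_num) h.le) ?_
    rw [radBd_norm he (by norm_num)]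
  have h3 : ‖∫ s in (2 : ℝ)..‖z‖, φ (s * e) * e‖ ≤ |M| / ε := by
    refine radBd_tail hε h.le (fun s hs1 hs2 => ?_)
    have hn : ‖(s : ℂ) * e‖ = s := radBd_norm he (by linarith)
    have h4 := hM2 ((s : ℂ) * e) (radBd_mem hD hρ hz' (by linarith) hs2) (by rw [hn]; exact hs1)
    rw [hn] at h4
    rwa [norm_mul, he, mul_one]
  rw [hs]
  exact (norm_add_le _ _).trans (add_le_add h2 h3)

/-- the real part of a primitive of a function close to `-g/z` -/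
theorem prim_log {D : ℕ} (hD : 0 < D) {φ : ℂ → ℂ} {β M ε g : ℝ} (hβ0 : 0 ≤ β) (hβ : β < 1)
    (hε : 0 < ε) (hc : ContinuousOn φ (Om D))
    (hM : ∀ z ∈ Om D, ‖z‖ ≤ 2 → ‖z‖ ≠ 1 → ‖φ z‖ ≤ M * |1 - ‖z‖ ^ D| ^ (-β))
    (hM2 : ∀ z ∈ Om D, 2 ≤ ‖z‖ → ‖φ z + g / z‖ ≤ M * ‖z‖ ^ (-1 - ε)) :
    ∃ M' : ℝ, (∀ z ∈ Om D, ‖z‖ ≤ 2 → ‖Prim φ z‖ ≤ M') ∧
      ∀ z ∈ Om D, 2 ≤ ‖z‖ → |(Prim φ z).re + g * Real.log ‖z‖| ≤ M' := by
  obtain ⟨M1, h1⟩ := prim_bdd_loc hD hβ0 hβ hc hM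
  have hb : 0 ≤ |M| / ε := div_nonneg (abs_nonneg _) hε.le
  have hl2 : 0 ≤ Real.log 2 := Real.log_nonneg (by norm_num)
  refine ⟨M1 + |M| / ε + |g| * Real.log 2, fun z hz hz2 => ?_, fun z hz h => ?_⟩
  · have := mul_nonneg (abs_nonneg g) hl2
    linarith [h1 z hz hz2]
  have hz0 : z ≠ 0 := by
    rintro rfl
    rw [norm_zero] at h
    linarith
  obtain ⟨he, hez⟩ := radBd_dir hz0
  have he0 : z / (‖z‖ : ℂ) ≠ 0 := by
    intro h0
    rw [h0, norm_zero] at he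
    exact zero_ne_one he
  have hρ : 0 < ‖z‖ := norm_pos_iff.2 hz0
  set e : ℂ := z / (‖z‖ : ℂ) with hedef
  have hz' : ((‖z‖ : ℝ) : ℂ) * e ∈ Om D := by rw [hez]; exact hz
  have hs := radBd_split hD hc h hz'
  rw [hez] at hs
  have h2 : ‖Prim φ ((2 : ℝ) * e)‖ ≤ M1 := by
    refine h1 _ (radBd_mem hD hρ hz' (by norm_num) h) ?_
    rw [radBd_norm he (by norm_num)]
  have hcont := (radBd_cont hD hc hρ hz').mono (Set.Icc_subset_Icc_left (by norm_num : (0 : ℝ) ≤ 2))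
  have hi1 : IntervalIntegrable (fun s : ℝ => φ (s * e) * e) volume 2 ‖z‖ := by
    refine ContinuousOn.intervalIntegrable ?_
    rw [Set.uIcc_of_le h]
    exact hcont
  have hi2 : IntervalIntegrable (fun s : ℝ => ((g / s : ℝ) : ℂ)) volume 2 ‖z‖ := by
    refine ContinuousOn.intervalIntegrable ?_
    rw [Set.uIcc_of_le h]
    refine Complex.continuous_ofReal.comp_continuousOn ?_
    refine ContinuousOn.div continuousOn_const continuousOn_id (fun s hs => ?_)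
    have := hs.1
    intro h0
    linarith
  have h3 : ‖∫ s in (2 : ℝ)..‖z‖, (φ (s * e) * e + ((g / s : ℝ) : ℂ))‖ ≤ |M| / ε := by
    refine radBd_tail hε h (fun s hs1 hs2 => ?_)
    have hn : ‖(s : ℂ) * e‖ = s := radBd_norm he (by linarith)
    have h4 := hM2 ((s : ℂ) * e) (radBd_mem hD hρ hz' (by linarith) hs2) (by rw [hn]; exact hs1)
    rw [hn] at h4
    have hs0 : (s : ℂ) ≠ 0 := by
      have : s ≠ 0 := by intro h0; linarith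
      exact_mod_cast this
    have e2 : φ (s * e) * e + ((g / s : ℝ) : ℂ) = (φ (s * e) + g / (s * e)) * e := by
      push_cast
      field_simp
    rw [e2, norm_mul, he, mul_one]
    exact h4
  have h5 : (∫ s in (2 : ℝ)..‖z‖, ((g / s : ℝ) : ℂ)) = ((g * (Real.log ‖z‖ - Real.log 2) : ℝ) : ℂ) := by
    rw [intervalIntegral.integral_ofReal]
    congr 1
    have e3 : (fun s : ℝ => g / s) = fun s : ℝ => g * s⁻¹ := by
      funext s; rw [div_eq_mul_inv]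
    rw [e3, intervalIntegral.integral_const_mul, integral_inv_of_pos (by norm_num) hρ,
      Real.log_div hρ.ne' (by norm_num)]
  rw [intervalIntegral.integral_add hi1 hi2, h5] at h3
  have h6 : (Prim φ z).re + g * Real.log ‖z‖ = (Prim φ ((2 : ℝ) * e)).re +
      ((∫ s in (2 : ℝ)..‖z‖, φ (s * e) * e) + ((g * (Real.log ‖z‖ - Real.log 2) : ℝ) : ℂ)).re +
      g * Real.log 2 := by
    rw [hs, Complex.add_re, Complex.add_re, Complex.ofReal_re]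
    ring
  rw [h6]
  have h7 := (Complex.abs_re_le_norm (Prim φ ((2 : ℝ) * e))).trans h2
  have h8 := (Complex.abs_re_le_norm
    ((∫ s in (2 : ℝ)..‖z‖, φ (s * e) * e) + ((g * (Real.log ‖z‖ - Real.log 2) : ℝ) : ℂ))).trans h3
  have h9 : |g * Real.log 2| = |g| * Real.log 2 := by rw [abs_mul, abs_of_nonneg hl2]
  refine (abs_add_three _ _ _).trans ?_
  rw [h9]
  linarith

end Pool.Agent.RHU
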