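import Pool.Agent.RHU.CFa
import Pool.Agent.RHU.CVal
import Pool.Agent.RHU.RadBd

/-!
# RHU-CLim: boundary values and bounds of `C_t`

PLAN. `FB_lim`: `eta_lim`, continuity. `FB_one`: `etaB D 1 ρ = om * etaB D (-1) ρ` gives the factor
`om^(-rr) = ze^rr = ze^(tb)`. `Cc_lim`: `rad_lim` with `β = rr/D`, `ψ = FB` (for `0 < ρ < 1` too:
`FB = Ft ρ`). `CB_rel`: `CB σ r = Bt + ∫_1^r FB σ` (`Cc_one`, `prim_one`, `FB σ ρ = Ft ρ` for `ρ < 1`), then
`FB_one`. `Cc_bdd`: `prim_bdd` with `ε = t + rr - D ≥ 1`.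
-/

set_option autoImplicit false

namespace Pool.Agent.RHU

open Complex Finset Filter Topology MeasureTheory

private theorem cLim_beta_nonneg (D b t : ℕ) : 0 ≤ (rr D b t : ℝ) / D :=
  div_nonneg (Nat.cast_nonneg _) (Nat.cast_nonneg _)

private theorem cLim_beta_lt {D : ℕ} (b t : ℕ) (hD : 0 < D) : (rr D b t : ℝ) / D < 1 := by
  rw [div_lt_one (Nat.cast_pos.2 hD)]
  exact_mod_cast Nat.mod_lt _ hD

theorem FB_lim {D b t : ℕ} (hD : 0 < D) {σ ρ : ℝ} (hσ : σ = 1 ∨ σ = -1) (hρ : 0 < ρ)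
    (h1 : ρ ≠ 1) : Tendsto (Ft D b t) (𝓝[hp σ] (ρ : ℂ)) (𝓝 (FB D b t σ ρ)) := by
  have h2 := eta_lim hD hσ hρ h1
  have h3 : Tendsto (fun z : ℂ => z) (𝓝[hp σ] (ρ : ℂ)) (𝓝 (ρ : ℂ)) :=
    tendsto_id.mono_left nhdsWithin_le_nhds
  exact (tendsto_const_nhds.mul (h3.pow _)).div (h2.pow _) (pow_ne_zero _ (etaB_ne hD hρ h1))

theorem FB_one {D b t : ℕ} (hD : 0 < D) {ρ : ℝ} (h1 : 1 < ρ) :
    FB D b t 1 ρ = ze D ^ (t * b) * FB D b t (-1) ρ := by
  have h2 : ze D ^ (t * b) = ze D ^ rr D b t := pow_eq_pow_mod _ (ze_pow D hD)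
  have h3 : om D ^ rr D b t * ze D ^ rr D b t = 1 := by
    rw [← mul_pow, om_mul_ze, one_pow]
  have h4 : om D ^ rr D b t ≠ 0 := by
    intro h
    rw [h, zero_mul] at h3
    exact zero_ne_one h3
  have h5 : etaB D (-1) ρ ^ rr D b t ≠ 0 :=
    pow_ne_zero _ (etaB_ne hD (by linarith) (ne_of_gt h1))
  have h6 : ze D ^ rr D b t = (om D ^ rr D b t)⁻¹ := eq_inv_of_mul_eq_one_right h3
  unfold FB Fe
  rw [h2, etaB_one_neg_one h1, mul_pow, h6]
  field_simp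

theorem intervalIntegrable_FB {D b t : ℕ} (hD : 0 < D) {σ : ℝ} (hσ : σ = 1 ∨ σ = -1) (r s : ℝ)
    (hr : 0 ≤ r) (hs : 0 ≤ s) : IntervalIntegrable (FB D b t σ) volume r s := by
  have key : ∀ r : ℝ, 0 ≤ r → IntervalIntegrable (FB D b t σ) volume 0 r := by
    intro r hr
    rcases hr.eq_or_lt with h | h
    · subst h
      exact IntervalIntegrable.refl
    · obtain ⟨M, hM⟩ := norm_Ft_loc (D := D) (b := b) (t := t) hD (r + 1)
      exact rad_int hD hσ (cLim_beta_nonneg D b t) (cLim_beta_lt b t hD)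
        (differentiableOn_Ft hD).continuousOn (fun z _ h1 h2 => hM z h1 h2)
        (fun ρ h1 _ h3 => FB_lim hD hσ h1 h3) h (lt_add_one r)
  exact (key r hr).symm.trans (key s hs)

theorem Cc_lim {D b t : ℕ} (hD : 0 < D) {σ r : ℝ} (hσ : σ = 1 ∨ σ = -1) (hr : 0 < r) :
    Tendsto (Cc D b t) (𝓝[hp σ] (r : ℂ)) (𝓝 (CB D b t σ r)) := by
  obtain ⟨M, hM⟩ := norm_Ft_loc (D := D) (b := b) (t := t) hD (r + 1)
  exact rad_lim hD hσ (cLim_beta_nonneg D b t) (cLim_beta_lt b t hD)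
    (differentiableOn_Ft hD).continuousOn (fun z _ h1 h2 => hM z h1 h2)
    (fun ρ h1 _ h3 => FB_lim hD hσ h1 h3) hr (lt_add_one r)

private theorem cLim_FB_of_le {D b t : ℕ} {σ ρ : ℝ} (h : ρ ≤ 1) : FB D b t σ ρ = Ft D b t ρ := by
  unfold FB Ft
  rw [etaB_of_le h]

theorem CB_eq {D b t : ℕ} (hD : 0 < D) (h0 : 0 < t) (ht : t < D) {σ r : ℝ}
    (hσ : σ = 1 ∨ σ = -1) (hr : 0 ≤ r) :
    CB D b t σ r = Bt D b t + ∫ ρ in (1 : ℝ)..r, FB D b t σ ρ := by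
  have h1 : ∫ ρ in (0 : ℝ)..1, FB D b t σ ρ = Bt D b t := by
    rw [← Cc_one hD h0 ht]
    show _ = Prim (Ft D b t) 1
    rw [prim_one]
    refine intervalIntegral.integral_congr fun s hs => ?_
    rw [Set.uIcc_of_le zero_le_one] at hs
    exact cLim_FB_of_le hs.2
  unfold CB
  rw [← intervalIntegral.integral_add_adjacent_intervals
    (intervalIntegrable_FB hD hσ 0 1 le_rfl zero_le_one)
    (intervalIntegrable_FB hD hσ 1 r zero_le_one hr), h1]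

theorem CB_rel {D b t : ℕ} (hD : 0 < D) (h0 : 0 < t) (ht : t < D) {r : ℝ} (hr : 1 ≤ r) :
    CB D b t 1 r - Bt D b t = ze D ^ (t * b) * (CB D b t (-1) r - Bt D b t) := by
  rw [CB_eq hD h0 ht (Or.inl rfl) (zero_le_one.trans hr),
    CB_eq hD h0 ht (Or.inr rfl) (zero_le_one.trans hr), add_sub_cancel_left, add_sub_cancel_left,
    ← intervalIntegral.integral_const_mul]
  refine intervalIntegral.integral_congr_ae (Eventually.of_forall fun x hx => ?_)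
  rw [Set.uIoc_of_le hr] at hx
  exact FB_one hD hx.1

theorem Cc_bdd {D b t : ℕ} (ht : t ∈ Ph D b) : ∃ M : ℝ, ∀ z ∈ Om D, ‖Cc D b t z‖ ≤ M := by
  have htD : t < D := (Ph_pos ht).2.1
  have hD : 0 < D := lt_of_le_of_lt (Nat.zero_le _) htD
  obtain ⟨M1, hM1⟩ := norm_Ft_loc (D := D) (b := b) (t := t) hD 2
  obtain ⟨M2, hM2⟩ := norm_Ft_inf (D := D) (b := b) (t := t) hD htD
  have hε : 0 < (t : ℝ) + rr D b t - D := by
    have h1 : (D : ℝ) < (t : ℝ) + rr D b t := by exact_mod_cast (mem_Ph.1 ht).2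
    linarith
  refine prim_bdd (D := D) (M := max M1 M2) (ε := (t : ℝ) + rr D b t - D) hD
    (cLim_beta_nonneg D b t) (cLim_beta_lt b t hD) hε (differentiableOn_Ft hD).continuousOn ?_ ?_
  · intro z _ h1 h2
    exact (hM1 z h1 h2).trans
      (mul_le_mul_of_nonneg_right (le_max_left _ _) (Real.rpow_nonneg (abs_nonneg _) _))
  · intro z _ h1
    exact (hM2 z h1).trans
      (mul_le_mul_of_nonneg_right (le_max_right _ _) (Real.rpow_nonneg (norm_nonneg _) _))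

theorem Cc_bdd_loc {D b t : ℕ} (hD : 0 < D) (ht : t < D) (R : ℝ) :
    ∃ M : ℝ, ∀ z ∈ Om D, ‖z‖ ≤ R → ‖Cc D b t z‖ ≤ M := by
  obtain ⟨M, hM⟩ := norm_Ft_loc (D := D) (b := b) (t := t) hD R
  exact prim_bdd_loc hD (cLim_beta_nonneg D b t) (cLim_beta_lt b t hD)
    (differentiableOn_Ft hD).continuousOn (fun z _ h1 h2 => hM z h1 h2)

/-- `C_t` is continuous at `1` along the real axis and in the star -/
theorem Cc_tendsto_one {D b t : ℕ} (hD : 0 < D) (ht : t < D) :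
    Tendsto (fun r : ℝ => Cc D b t r) (𝓝[<] 1) (𝓝 (Cc D b t 1)) := by
  have key : ∀ r : ℝ, 0 < r → r ≤ 1 → Cc D b t r = ∫ s in (0 : ℝ)..r, FB D b t 1 s := by
    intro r h0 h1
    have h2 := prim_ray (Ft D b t) r h0 1
    rw [mul_one] at h2
    show Prim (Ft D b t) r = _
    rw [h2]
    refine intervalIntegral.integral_congr fun s hs => ?_
    rw [Set.uIcc_of_le h0.le] at hs
    show Ft D b t (s * 1) * 1 = FB D b t 1 s
    rw [mul_one, mul_one, cLim_FB_of_le (hs.2.trans h1)]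
  have h1 : Cc D b t 1 = ∫ s in (0 : ℝ)..1, FB D b t 1 s := by
    have h2 := key 1 zero_lt_one le_rfl
    rw [ofReal_one] at h2
    exact h2
  have h2 : ContinuousOn (fun r : ℝ => ∫ s in (0 : ℝ)..r, FB D b t 1 s) (Set.uIcc 0 2) :=
    intervalIntegral.continuousOn_primitive_interval'
      (intervalIntegrable_FB hD (Or.inl rfl) 0 2 le_rfl zero_le_two) Set.left_mem_uIcc
  have h3 : ContinuousAt (fun r : ℝ => ∫ s in (0 : ℝ)..r, FB D b t 1 s) 1 := by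
    refine h2.continuousAt ?_
    rw [Set.uIcc_of_le zero_le_two]
    exact Icc_mem_nhds zero_lt_one one_lt_two
  have h4 : Tendsto (fun r : ℝ => ∫ s in (0 : ℝ)..r, FB D b t 1 s) (𝓝[<] 1)
      (𝓝 (Cc D b t 1)) := by
    rw [h1]
    exact h3.tendsto.mono_left nhdsWithin_le_nhds
  refine h4.congr' ?_
  have h5 : ∀ᶠ r : ℝ in 𝓝[<] 1, r ∈ Set.Ioo (0 : ℝ) 1 :=
    Ioo_mem_nhdsLT zero_lt_one
  filter_upwards [h5] with r hr
  exact (key r hr.1 hr.2.le).symm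

end Pool.Agent.RHU
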