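import Pool.Agent.RHU.ESum

/-!
# RHU-Chi: the semicharacter

PLAN. `N(k) = Nr D b k`, `B(p,q) = ∑_{i,j} N(i-j) p_i q_j` (bilinear). `chi_add`: `B(p+q,p+q)` and
`(-1)^(B(p,q)+B(q,p)) = (-1)^(B(p,q)-B(q,p))`.
`chi_single`: `N(0) = 0` as `b < D`.
`chi_ker`: `d = gcd b D`, `e = gcd (b+1) D`, `q_d = D/d`, `q_e = D/e`, `P = S_d u + S_e v`
(`(S_d u)_i = ∑_{k<D/d} u(i + kd)`). For every `k`: `∑_{m<D/d} N(k + md) = b/d` (number of `r ∈ [1,b]`
with `r = k mod d`), `∑_{m<D/e} N(k+me) = (b+1)/e - [e ∣ k]`. Hence for every `q`: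
`B(S_d u, q) = B(q, S_d u) = (b/d) (∑u)(∑q)`, so `B(P,P) = B(S_d u, S_d u) + B(S_e v,S_e v) mod 2`,
`B(S_d u,S_d u) = (b/d) (D/d) (∑u)²`,
`B(S_e v, S_e v) = (D/e) (((b+1)/e) (∑v)² - ∑_{classes mod e} (∑_{class} v)²) = (D/e)((b+1)/e - 1) ∑v mod 2`.
`∑P = (D/d) ∑u + (D/e) ∑v`. So `chi P = X_d^(∑u) X_e^(∑v)`, `X_d = chi0^(D/d) (-1)^((D/d)(b/d))`,
`X_e = chi0^(D/e) (-1)^((D/e)((b+1)/e - 1))`. `chi0^(D/d) = exp(πi((b+1)D/d - b(d+e)/d - 1))`, all integers:
parity `(b+1)(D/d) - (b/d)(d+e) - 1 + (D/d)(b/d) = (b+1)(D/d + 1) + (b/d)(e + D/d) mod 2`; `X_e`: parity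
`b(D/e + 1) + ((b+1)/e)(d + D/e)`. Both are even: `D` odd: `D/d, D/e, d, e` odd. `D` even, `b` odd: `d` odd,
`D/d` even, `b/d` odd, `e` even; and `(D/e + 1)((b+1)/e + 1)` is even (if `D/e` is even then `(b+1)/e` is odd,
coprime). `D` even, `b` even: symmetric.
-/

set_option autoImplicit false

namespace Pool.Agent.RHU

open Complex Finset

noncomputable section

/-- the semicharacter on `ℤ[ZMod D]` -/
def chi (D b : ℕ) [NeZero D] (p : ZMod D → ℤ) : ℂ :=
  chi0 D b ^ (∑ j, p j) * (-1) ^ (∑ i, ∑ j, Nr D b (i - j) * (p i * p j))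

/-- the bilinear form -/
private def chiB (D b : ℕ) [NeZero D] (p q : ZMod D → ℤ) : ℤ :=
  ∑ i, ∑ j, Nr D b (i - j) * (p i * q j)

private theorem chi_eq (D b : ℕ) [NeZero D] (p : ZMod D → ℤ) :
    chi D b p = chi0 D b ^ (∑ j, p j) * (-1) ^ (chiB D b p p) := rfl

private theorem chiB_add_left (D b : ℕ) [NeZero D] (p q r : ZMod D → ℤ) :
    chiB D b (p + q) r = chiB D b p r + chiB D b q r := by
  unfold chiB
  rw [← Finset.sum_add_distrib]
  refine Finset.sum_congr rfl fun i _ => ?_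
  rw [← Finset.sum_add_distrib]
  refine Finset.sum_congr rfl fun j _ => ?_
  rw [Pi.add_apply]
  ring

private theorem chiB_add_right (D b : ℕ) [NeZero D] (p q r : ZMod D → ℤ) :
    chiB D b r (p + q) = chiB D b r p + chiB D b r q := by
  unfold chiB
  rw [← Finset.sum_add_distrib]
  refine Finset.sum_congr rfl fun i _ => ?_
  rw [← Finset.sum_add_distrib]
  refine Finset.sum_congr rfl fun j _ => ?_
  rw [Pi.add_apply]
  ring

private theorem chi0_ne (D b : ℕ) : chi0 D b ≠ 0 := Complex.exp_ne_zero _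

private theorem chi0_norm (D b : ℕ) : ‖chi0 D b‖ = 1 := by
  have h : chi0 D b = cexp (((Real.pi * ((((b : ℝ) + 1) * D -
      b * ((Nat.gcd b D : ℝ) + Nat.gcd (b + 1) D) - Nat.gcd b D) / D) : ℝ) : ℂ) * I) := by
    unfold chi0
    congr 1
    push_cast
    ring
  rw [h]
  exact Complex.norm_exp_ofReal_mul_I _

theorem norm_chi {D b : ℕ} [NeZero D] (p : ZMod D → ℤ) : ‖chi D b p‖ = 1 := by
  rw [chi_eq, norm_mul, norm_zpow, norm_zpow, chi0_norm, norm_neg, norm_one, one_zpow, one_zpow,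
    mul_one]

theorem chi_add {D b : ℕ} [NeZero D] (p q : ZMod D → ℤ) :
    chi D b (p + q) = chi D b p * chi D b q *
      (-1) ^ (∑ i, ∑ j, (Nr D b (i - j) - Nr D b (j - i)) * (p i * q j)) := by
  have h1 : (∑ i, ∑ j, (Nr D b (i - j) - Nr D b (j - i)) * (p i * q j)) =
      chiB D b p q - chiB D b q p := by
    have h2 : chiB D b q p = ∑ i, ∑ j, Nr D b (j - i) * (p i * q j) := by
      unfold chiB
      rw [Finset.sum_comm]
      refine Finset.sum_congr rfl fun i _ => Finset.sum_congr rfl fun j _ => ?_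
      ring
    rw [h2]
    unfold chiB
    rw [← Finset.sum_sub_distrib]
    refine Finset.sum_congr rfl fun i _ => ?_
    rw [← Finset.sum_sub_distrib]
    refine Finset.sum_congr rfl fun j _ => ?_
    ring
  rw [h1, chi_eq, chi_eq, chi_eq, chiB_add_left, chiB_add_right, chiB_add_right]
  have h3 : ∑ j, (p + q) j = ∑ j, p j + ∑ j, q j := by
    rw [← Finset.sum_add_distrib]
    rfl
  rw [h3, zpow_add₀ (chi0_ne D b)]
  have hm : (-1 : ℂ) ≠ 0 := by norm_num
  have h4 : chiB D b p p + chiB D b p q + (chiB D b q p + chiB D b q q) =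
      chiB D b p p + chiB D b q q + (chiB D b p q - chiB D b q p) + (chiB D b q p + chiB D b q p) := by
    ring
  have h5 : (-1 : ℂ) ^ (chiB D b q p + chiB D b q p) = 1 :=
    Even.neg_one_zpow ⟨_, rfl⟩
  rw [h4, zpow_add₀ hm, zpow_add₀ hm, zpow_add₀ hm, h5]
  ring

theorem chi_single {D b : ℕ} [NeZero D] (hD : 3 ≤ D) (hb : 0 < b) (hb2 : b + 1 < D) (j : ZMod D) :
    chi D b (Pi.single j 1) = chi0 D b := by
  have h0 : Nr D b 0 = 0 := by
    unfold Nr
    rw [Nat.cast_eq_zero, Finset.card_eq_zero, Finset.filter_eq_empty_iff]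
    intro r hr h
    rw [Finset.mem_Icc] at hr
    rw [ZMod.natCast_eq_zero_iff] at h
    have := Nat.le_of_dvd (by omega) h
    omega
  have h1 : ∑ i, (Pi.single j 1 : ZMod D → ℤ) i = 1 := by
    rw [Finset.sum_pi_single']
    simp
  have h2 : chiB D b (Pi.single j 1) (Pi.single j 1) = 0 := by
    unfold chiB
    refine Finset.sum_eq_zero fun i _ => Finset.sum_eq_zero fun k _ => ?_
    by_cases hi : i = j
    · by_cases hk : k = j
      · subst hi
        subst hk
        rw [sub_self, h0, zero_mul]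
      · rw [Pi.single_eq_of_ne hk, mul_zero, mul_zero]
    · rw [Pi.single_eq_of_ne hi, zero_mul, mul_zero]
  rw [chi_eq, h1, h2, zpow_one, zpow_zero, mul_one]

/-! ### `chi_ker` -/

private theorem chi_parity (d e x y β γ : ℕ) (h1 : Even (d * x) ↔ Even (e * y))
    (h2 : Even (d * β) ↔ ¬ Even (e * γ)) (h3 : ¬ (Even x ∧ Even β)) (h4 : ¬ (Even y ∧ Even γ)) :
    Even ((d * β + 1) * (x + 1) + β * (e + x)) ∧ Even (d * β * (y + 1) + γ * (d + y)) := by
  rw [Nat.even_mul, Nat.even_mul] at h1 h2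
  simp only [Nat.even_add, Nat.even_mul, Nat.not_even_one]
  generalize Even d = pd at *
  generalize Even e = pe at *
  generalize Even x = px at *
  generalize Even y = py at *
  generalize Even β = pβ at *
  generalize Even γ = pγ at *
  by_cases hd : pd <;> by_cases he : pe <;> by_cases hx : px <;>
    by_cases hy : py <;> by_cases hβ : pβ <;> by_cases hγ : pγ <;>
    simp_all

private def chiS (D n : ℕ) (u : ZMod D → ℤ) (i : ZMod D) : ℤ :=
  ∑ k ∈ range (D / n), u (i + (k * n : ℕ))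

private theorem chi_ind {D n : ℕ} [NeZero D] (h : n ∣ D) (w : ZMod D) :
    ∑ k ∈ range (D / n), (if w = ((k * n : ℕ) : ZMod D) then (1 : ℤ) else 0) =
      if ZMod.castHom h (ZMod n) w = 0 then 1 else 0 := by
  have hD : 0 < D := Nat.pos_of_ne_zero (NeZero.ne D)
  have hn : 0 < n := Nat.pos_of_dvd_of_pos h hD
  have hcast : ∀ m : ℕ, ZMod.castHom h (ZMod n) ((m : ℕ) : ZMod D) = (m : ZMod n) := fun m =>
    map_natCast _ m
  by_cases hw : ZMod.castHom h (ZMod n) w = 0
  · rw [if_pos hw]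
    have h1 : w = ((w.val : ℕ) : ZMod D) := (ZMod.natCast_zmod_val w).symm
    rw [h1, hcast, ZMod.natCast_eq_zero_iff] at hw
    obtain ⟨c, hc⟩ := hw
    have hlt : w.val < D := ZMod.val_lt w
    obtain ⟨q, hq⟩ := h
    have hDn : D / n = q := by
      rw [hq]
      exact Nat.mul_div_cancel_left _ hn
    have hcq : c < q := by
      rw [hc, hq] at hlt
      exact Nat.lt_of_mul_lt_mul_left hlt
    rw [hDn, Finset.sum_eq_single c]
    · rw [if_pos]
      rw [h1, hc, mul_comm]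
    · intro k hk hkc
      rw [if_neg]
      intro hwk
      apply hkc
      have h2 : w.val = k * n := by
        rw [hwk]
        apply ZMod.val_cast_of_lt
        rw [hq, mul_comm n q]
        exact Nat.mul_lt_mul_of_pos_right (Finset.mem_range.1 hk) hn
      rw [hc, mul_comm] at h2
      exact (Nat.eq_of_mul_eq_mul_right hn h2).symm
    · intro hc'
      exact absurd (Finset.mem_range.2 hcq) hc'
  · rw [if_neg hw]
    refine Finset.sum_eq_zero fun k _ => ?_
    rw [if_neg]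
    intro hwk
    apply hw
    rw [hwk, hcast, ZMod.natCast_eq_zero_iff]
    exact Dvd.intro_left _ rfl

/-- the number of `r ∈ [1,b]` in a class mod `n` -/
private def chiM (n b : ℕ) (z : ZMod n) : ℤ := ∑ r ∈ Icc 1 b, if (r : ZMod n) = z then 1 else 0

private theorem chi_Nr (D b : ℕ) (k : ZMod D) :
    Nr D b k = ∑ r ∈ Icc 1 b, if (r : ZMod D) = k then 1 else 0 := by
  unfold Nr
  rw [Finset.sum_boole]

private theorem chi_Gp {D n b : ℕ} [NeZero D] (h : n ∣ D) (z : ZMod D) :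
    ∑ k ∈ range (D / n), Nr D b (z + ((k * n : ℕ) : ZMod D)) =
      chiM n b (ZMod.castHom h (ZMod n) z) := by
  unfold chiM
  simp only [chi_Nr]
  rw [Finset.sum_comm]
  refine Finset.sum_congr rfl fun r _ => ?_
  have h1 := chi_ind h ((r : ZMod D) - z)
  rw [map_sub, map_natCast] at h1
  simp only [sub_eq_iff_eq_add, zero_add] at h1
  simp only [add_comm z]
  exact h1

private theorem chi_Gm {D n b : ℕ} [NeZero D] (h : n ∣ D) (z : ZMod D) :
    ∑ k ∈ range (D / n), Nr D b (z - ((k * n : ℕ) : ZMod D)) =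
      chiM n b (ZMod.castHom h (ZMod n) z) := by
  unfold chiM
  simp only [chi_Nr]
  rw [Finset.sum_comm]
  refine Finset.sum_congr rfl fun r _ => ?_
  have h1 := chi_ind h (z - (r : ZMod D))
  rw [map_sub, map_natCast] at h1
  have h2 : ∀ k : ℕ, (z - (r : ZMod D) = ((k * n : ℕ) : ZMod D)) ↔
      ((r : ZMod D) = z - ((k * n : ℕ) : ZMod D)) := by
    intro k
    constructor
    · intro hh
      rw [← hh]
      ring
    · intro hh
      rw [hh]
      ring
  have h3 : (ZMod.castHom h (ZMod n) z - (r : ZMod n) = 0) ↔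
      ((r : ZMod n) = ZMod.castHom h (ZMod n) z) := by
    rw [sub_eq_zero]
    exact eq_comm
  simp only [h2, h3] at h1
  exact h1

private theorem chi_cnt {n m : ℕ} (hn : 0 < n) (h : n ∣ m) (z : ZMod n) :
    (∑ r ∈ range m, if (r : ZMod n) = z then (1 : ℤ) else 0) = (m / n : ℕ) := by
  have : NeZero n := ⟨hn.ne'⟩
  rw [Finset.sum_boole]
  congr 1
  have h1 : (range m).filter (fun r : ℕ => (r : ZMod n) = z) =
      (range m).filter (fun r : ℕ => r ≡ z.val [MOD n]) := by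
    refine Finset.filter_congr fun r _ => ?_
    rw [← ZMod.natCast_eq_natCast_iff, ZMod.natCast_zmod_val]
  rw [h1, ← Nat.count_eq_card_filter_range, Nat.count_modEq_card _ hn,
    Nat.mod_eq_zero_of_dvd h]
  simp

private theorem chi_M_range (n b : ℕ) (z : ZMod n) :
    chiM n b z + (if (0 : ZMod n) = z then 1 else 0) =
      ∑ r ∈ range (b + 1), if (r : ZMod n) = z then (1 : ℤ) else 0 := by
  unfold chiM
  rw [Finset.sum_range_succ']
  rw [Nat.cast_zero]
  congr 1
  have h1 : Icc 1 b = Finset.Ico 1 (b + 1) := by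
    ext r
    rw [Finset.mem_Icc, Finset.mem_Ico]
    omega
  rw [h1, Finset.sum_Ico_eq_sum_range, Nat.add_sub_cancel]
  refine Finset.sum_congr rfl fun k _ => ?_
  rw [add_comm 1 k]

private theorem chi_M_d {n b : ℕ} (hn : 0 < n) (h : n ∣ b) (z : ZMod n) :
    chiM n b z = (b / n : ℕ) := by
  have h1 := chi_M_range n b z
  rw [Finset.sum_range_succ, chi_cnt hn h] at h1
  have h2 : ((b : ℕ) : ZMod n) = 0 := (ZMod.natCast_eq_zero_iff _ _).2 h
  rw [h2] at h1
  linarith

private theorem chi_M_e {n b : ℕ} (hn : 0 < n) (h : n ∣ b + 1) (z : ZMod n) :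
    chiM n b z = ((b + 1) / n : ℕ) - (if z = 0 then 1 else 0) := by
  have h1 := chi_M_range n b z
  rw [chi_cnt hn h] at h1
  have h2 : ((0 : ZMod n) = z) ↔ (z = 0) := eq_comm
  simp only [h2] at h1
  linarith

private theorem chi_shift {D : ℕ} [NeZero D] (f : ZMod D → ℤ) (a : ZMod D) :
    ∑ i, f (i + a) = ∑ i, f i :=
  Fintype.sum_equiv (Equiv.addRight a) _ _ fun _ => rfl

private theorem chiS_sum {D n : ℕ} [NeZero D] (u : ZMod D → ℤ) :
    ∑ i, chiS D n u i = (D / n : ℕ) * ∑ i, u i := by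
  unfold chiS
  rw [Finset.sum_comm]
  simp only [chi_shift]
  rw [Finset.sum_const, Finset.card_range, nsmul_eq_mul]

private theorem chiB_left {D n b : ℕ} [NeZero D] (h : n ∣ D) (u q : ZMod D → ℤ) :
    chiB D b (chiS D n u) q =
      ∑ j, ∑ i, chiM n b (ZMod.castHom h (ZMod n) (i - j)) * (u i * q j) := by
  unfold chiB
  rw [Finset.sum_comm]
  refine Finset.sum_congr rfl fun j _ => ?_
  have h1 : ∀ i : ZMod D, Nr D b (i - j) * (chiS D n u i * q j) =
      ∑ k ∈ range (D / n), (Nr D b (i + ((k * n : ℕ) : ZMod D) - j - ((k * n : ℕ) : ZMod D)) *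
        (u (i + ((k * n : ℕ) : ZMod D)) * q j)) := by
    intro i
    unfold chiS
    rw [Finset.sum_mul, Finset.mul_sum]
    refine Finset.sum_congr rfl fun k _ => ?_
    congr 2
    ring
  simp only [h1]
  rw [Finset.sum_comm]
  have h2 : ∀ k : ℕ, ∑ i : ZMod D, (Nr D b (i + ((k * n : ℕ) : ZMod D) - j - ((k * n : ℕ) : ZMod D)) *
        (u (i + ((k * n : ℕ) : ZMod D)) * q j)) =
      ∑ i : ZMod D, Nr D b (i - j - ((k * n : ℕ) : ZMod D)) * (u i * q j) := fun k =>
    chi_shift (fun i => Nr D b (i - j - ((k * n : ℕ) : ZMod D)) * (u i * q j)) _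
  simp only [h2]
  rw [Finset.sum_comm]
  refine Finset.sum_congr rfl fun i _ => ?_
  rw [← Finset.sum_mul, chi_Gm h]

private theorem chiB_right {D n b : ℕ} [NeZero D] (h : n ∣ D) (u q : ZMod D → ℤ) :
    chiB D b q (chiS D n u) =
      ∑ i, ∑ j, chiM n b (ZMod.castHom h (ZMod n) (i - j)) * (q i * u j) := by
  unfold chiB
  refine Finset.sum_congr rfl fun i _ => ?_
  have h1 : ∀ j : ZMod D, Nr D b (i - j) * (q i * chiS D n u j) =
      ∑ k ∈ range (D / n), (Nr D b (i - (j + ((k * n : ℕ) : ZMod D)) + ((k * n : ℕ) : ZMod D)) *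
        (q i * u (j + ((k * n : ℕ) : ZMod D)))) := by
    intro j
    unfold chiS
    rw [Finset.mul_sum, Finset.mul_sum]
    refine Finset.sum_congr rfl fun k _ => ?_
    congr 2
    ring
  simp only [h1]
  rw [Finset.sum_comm]
  have h2 : ∀ k : ℕ, ∑ j : ZMod D, (Nr D b (i - (j + ((k * n : ℕ) : ZMod D)) + ((k * n : ℕ) : ZMod D)) *
        (q i * u (j + ((k * n : ℕ) : ZMod D)))) =
      ∑ j : ZMod D, Nr D b (i - j + ((k * n : ℕ) : ZMod D)) * (q i * u j) := fun k =>
    chi_shift (fun j => Nr D b (i - j + ((k * n : ℕ) : ZMod D)) * (q i * u j)) _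
  simp only [h2]
  rw [Finset.sum_comm]
  refine Finset.sum_congr rfl fun j _ => ?_
  rw [← Finset.sum_mul, chi_Gp h]

private theorem chiS_ind {D n : ℕ} [NeZero D] (h : n ∣ D) (v : ZMod D → ℤ) (j : ZMod D) :
    chiS D n v j = ∑ i, (if ZMod.castHom h (ZMod n) (i - j) = 0 then 1 else 0) * v i := by
  have h1 : ∀ i : ZMod D, (if ZMod.castHom h (ZMod n) (i - j) = 0 then (1 : ℤ) else 0) * v i =
      ∑ k ∈ range (D / n), (if i = j + ((k * n : ℕ) : ZMod D) then v i else 0) := by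
    intro i
    rw [← chi_ind h, Finset.sum_mul]
    refine Finset.sum_congr rfl fun k _ => ?_
    have h2 : (i - j = ((k * n : ℕ) : ZMod D)) ↔ (i = j + ((k * n : ℕ) : ZMod D)) := by
      rw [sub_eq_iff_eq_add, add_comm]
    simp only [h2]
    split_ifs
    · rw [one_mul]
    · rw [zero_mul]
  simp only [h1]
  rw [Finset.sum_comm]
  unfold chiS
  refine Finset.sum_congr rfl fun k _ => ?_
  rw [Finset.sum_ite_eq']
  simp

private theorem chi_pow {D b : ℕ} (n M : ℤ) (x : ℕ) (hD : (D : ℂ) ≠ 0)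
    (h : (x : ℂ) * (((b : ℂ) + 1) * D - b * ((Nat.gcd b D : ℂ) + Nat.gcd (b + 1) D) -
      Nat.gcd b D) = M * D) : chi0 D b ^ ((x : ℤ) * n) = (-1) ^ (M * n) := by
  have h1 : chi0 D b ^ (x : ℤ) = (-1) ^ M := by
    rw [zpow_natCast]
    unfold chi0
    rw [← Complex.exp_nat_mul, ← Complex.exp_pi_mul_I, ← Complex.exp_int_mul]
    congr 1
    have h2 : (x : ℂ) * (Real.pi * I *
        (((b : ℂ) + 1) * D - b * ((Nat.gcd b D : ℂ) + Nat.gcd (b + 1) D) - Nat.gcd b D) / D) =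
      Real.pi * I * ((x : ℂ) * (((b : ℂ) + 1) * D - b * ((Nat.gcd b D : ℂ) +
        Nat.gcd (b + 1) D) - Nat.gcd b D)) / D := by ring
    rw [h2, h]
    field_simp
  rw [zpow_mul, h1, ← zpow_mul]

private theorem chi_sq_sub (a : ℤ) : Even (a ^ 2 - a) := by
  have := Int.even_mul_pred_self a
  have e : a ^ 2 - a = a * (a - 1) := by ring
  rw [e]
  exact this

theorem chi_ker {D b : ℕ} [NeZero D] (hD : 3 ≤ D) (hb : 0 < b) (hb2 : b + 1 < D)
    (p u v : ZMod D → ℤ) (h : ∀ i : ZMod D,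
      p i = ∑ k ∈ range (D / Nat.gcd b D), u (i + (k * Nat.gcd b D : ℕ)) +
        ∑ k ∈ range (D / Nat.gcd (b + 1) D), v (i + (k * Nat.gcd (b + 1) D : ℕ))) :
    chi D b p = 1 := by
  have hD0 : 0 < D := by omega
  have hDC : (D : ℂ) ≠ 0 := by exact_mod_cast hD0.ne'
  set d := Nat.gcd b D with hd
  set e := Nat.gcd (b + 1) D with he
  have hd0 : 0 < d := Nat.gcd_pos_of_pos_right _ hD0
  have he0 : 0 < e := Nat.gcd_pos_of_pos_right _ hD0
  have hdD : d ∣ D := Nat.gcd_dvd_right _ _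
  have heD : e ∣ D := Nat.gcd_dvd_right _ _
  have hdb : d ∣ b := Nat.gcd_dvd_left _ _
  have heb : e ∣ b + 1 := Nat.gcd_dvd_left _ _
  set x := D / d with hx
  set y := D / e with hy
  set β := b / d with hβ
  set γ := (b + 1) / e with hγ
  have hDx : d * x = D := Nat.mul_div_cancel' hdD
  have hDy : e * y = D := Nat.mul_div_cancel' heD
  have hbβ : d * β = b := Nat.mul_div_cancel' hdb
  have hbγ : e * γ = b + 1 := Nat.mul_div_cancel' heb
  have hcop1 : Nat.Coprime β x := Nat.coprime_div_gcd_div_gcd hd0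
  have hcop2 : Nat.Coprime γ y := Nat.coprime_div_gcd_div_gcd he0
  have hpar := chi_parity d e x y β γ (by rw [hDx, hDy]) (by
      rw [hbβ, hbγ, Nat.even_add_one, not_not]) (by
      rintro ⟨h1, h2⟩
      have := Nat.dvd_gcd h2.two_dvd h1.two_dvd
      rw [hcop1] at this
      omega) (by
      rintro ⟨h1, h2⟩
      have := Nat.dvd_gcd h2.two_dvd h1.two_dvd
      rw [hcop2] at this
      omega)
  rw [hbβ] at hpar
  have hp : p = chiS D d u + chiS D e v := by
    funext i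
    rw [h i]
    rfl
  set U := ∑ i, u i with hU
  set V := ∑ i, v i with hV
  have hsum : ∑ j, p j = (x : ℤ) * U + (y : ℤ) * V := by
    rw [hp]
    simp only [Pi.add_apply]
    rw [Finset.sum_add_distrib, chiS_sum, chiS_sum]
  have hBd : ∀ q : ZMod D → ℤ, chiB D b (chiS D d u) q = (β : ℤ) * (U * ∑ j, q j) := by
    intro q
    rw [chiB_left hdD]
    simp only [chi_M_d hd0 hdb]
    rw [hU, Finset.sum_mul_sum, Finset.mul_sum, Finset.sum_comm]
    refine Finset.sum_congr rfl fun i _ => ?_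
    rw [Finset.mul_sum]
  have hBd' : ∀ q : ZMod D → ℤ, chiB D b q (chiS D d u) = (β : ℤ) * (U * ∑ j, q j) := by
    intro q
    rw [chiB_right hdD]
    simp only [chi_M_d hd0 hdb]
    rw [mul_comm U, hU, Finset.sum_mul_sum, Finset.mul_sum]
    refine Finset.sum_congr rfl fun i _ => ?_
    rw [Finset.mul_sum]
  have hBe : ∀ q : ZMod D → ℤ, chiB D b (chiS D e v) q =
      (γ : ℤ) * (V * ∑ j, q j) - ∑ j, chiS D e v j * q j := by
    intro q
    rw [chiB_left heD]
    simp only [chi_M_e he0 heb, sub_mul]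
    simp only [Finset.sum_sub_distrib]
    congr 1
    · rw [hV, Finset.sum_mul_sum, Finset.mul_sum, Finset.sum_comm]
      refine Finset.sum_congr rfl fun i _ => ?_
      rw [Finset.mul_sum]
    · refine Finset.sum_congr rfl fun j _ => ?_
      rw [chiS_ind heD, Finset.sum_mul]
      refine Finset.sum_congr rfl fun i _ => ?_
      ring
  have hBpp : chiB D b p p = (β : ℤ) * (x * U ^ 2) + ((β : ℤ) * (U * (y * V)) + (β : ℤ) * (U * (y * V))) +
      ((γ : ℤ) * (y * V ^ 2) - ∑ j, chiS D e v j ^ 2) := by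
    rw [hp, chiB_add_left, chiB_add_right, chiB_add_right, hBd, hBd, hBd', hBe, chiS_sum, chiS_sum]
    have h1 : ∑ j, chiS D e v j * chiS D e v j = ∑ j, chiS D e v j ^ 2 :=
      Finset.sum_congr rfl fun j _ => by ring
    rw [h1]
    ring
  have hsq : Even (∑ j, (chiS D e v j ^ 2 - chiS D e v j)) :=
    Finset.sum_induction _ Even (fun _ _ => Even.add) Even.zero fun j _ => chi_sq_sub _
  rw [Finset.sum_sub_distrib, chiS_sum] at hsq
  set M1 : ℤ := ((b : ℤ) + 1) * x - β * (d + e) - 1 with hM1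
  set M2 : ℤ := ((b : ℤ) + 1) * y - γ * d - b with hM2
  have hDx' : (D : ℂ) = d * x := by rw [← hDx]; push_cast; ring
  have hDy' : (D : ℂ) = e * y := by rw [← hDy]; push_cast; ring
  have hbβ' : (b : ℂ) = d * β := by rw [← hbβ]; push_cast; ring
  have hbγ' : (b : ℂ) + 1 = e * γ := by
    have : ((b + 1 : ℕ) : ℂ) = ((e * γ : ℕ) : ℂ) := by rw [hbγ]
    push_cast at this
    exact this
  have hP1 : chi0 D b ^ ((x : ℤ) * U) = (-1) ^ (M1 * U) := by
    refine chi_pow U M1 x hDC ?_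
    rw [← hd, ← he, hM1]
    push_cast
    rw [hDx']
    linear_combination (-(x : ℂ) * ((d : ℂ) + e)) * hbβ'
  have hP2 : chi0 D b ^ ((y : ℤ) * V) = (-1) ^ (M2 * V) := by
    refine chi_pow V M2 y hDC ?_
    rw [← hd, ← he, hM2]
    push_cast
    rw [hDy']
    linear_combination (-(y : ℂ) * (d : ℂ)) * hbγ'
  rw [chi_eq, hsum, zpow_add₀ (chi0_ne D b), hP1, hP2, ← zpow_add₀ (by norm_num), ← zpow_add₀ (by norm_num)]
  apply Even.neg_one_zpow
  obtain ⟨hpar1, hpar2⟩ := hpar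
  obtain ⟨s1, hs1⟩ := hpar1
  obtain ⟨s2, hs2⟩ := hpar2
  obtain ⟨s3, hs3⟩ := hsq
  obtain ⟨s4, hs4⟩ := chi_sq_sub U
  obtain ⟨s5, hs5⟩ := chi_sq_sub V
  have hs1' : ((b : ℤ) + 1) * (x + 1) + β * (e + x) = s1 + s1 := by exact_mod_cast hs1
  have hs2' : (b : ℤ) * (y + 1) + γ * (d + y) = s2 + s2 := by exact_mod_cast hs2
  have hbβZ : (b : ℤ) = d * β := by rw [← hbβ]; push_cast; ring
  rw [hBpp]
  refine ⟨(s1 - b - 1 - β * e) * U + β * x * s4 + β * (U * (y * V)) + (s2 - b - γ * d) * V +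
    γ * y * s5 - s3, ?_⟩
  rw [hM1, hM2]
  linear_combination U * hs1' + (β : ℤ) * x * hs4 + V * hs2' + (γ : ℤ) * y * hs5 - hs3 + U * hbβZ

end

end Pool.Agent.RHU
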