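import Pool.Agent.RHU.Leg

/-!
# RHU-Cnt: counting

PLAN. `J = {t : 0 < t < D, ¬ D ∣ t b, ¬ D ∣ t (b+1)}`. The number of `t < D` with `D ∣ t b` is
`gcd b D`, with `D ∣ t (b+1)` is `gcd (b+1) D` (both contain `t = 0`; no other common element since
`t = t(b+1) - t b`): `card J = D + 1 - gcd b D - gcd (b+1) D`. For `t ∈ J`: `t + rr t ≠ D`
(else `D ∣ t (b+1)`), `rr (D-t) = D - rr t`, so exactly one of `t`, `D-t` is in `Ph`; `Ph ⊆ J`.
`card_Val`: `m ≥ D` is always in `Val` (`kk < D`); the `m < D` not in `Val` are those with `m < kk m`,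
i.e. `rr m ≠ 0` and `m + rr m < D`, these are `m = D - t`, `t ∈ Ph`.
-/

set_option autoImplicit false

namespace Pool.Agent.RHU

open Complex Finset

/-- the admissible indices -/
private def JJ (D b : ℕ) : Finset ℕ :=
  (Ico 1 D).filter (fun t => ¬ D ∣ t * b ∧ ¬ D ∣ t * (b + 1))

private theorem mem_JJ {D b t : ℕ} :
    t ∈ JJ D b ↔ (1 ≤ t ∧ t < D) ∧ ¬ D ∣ t * b ∧ ¬ D ∣ t * (b + 1) := by
  rw [JJ, mem_filter, mem_Ico]

private theorem rr_lt {D b t : ℕ} (hD : 0 < D) : rr D b t < D := Nat.mod_lt _ hD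

private theorem dvd_iff_rr {D b t : ℕ} : D ∣ t * b ↔ rr D b t = 0 := Nat.dvd_iff_mod_eq_zero

private theorem dvd_succ_iff {D b t : ℕ} : D ∣ t * (b + 1) ↔ D ∣ t + rr D b t := by
  have h1 : t * (b + 1) = D * (t * b / D) + (t + rr D b t) := by
    have := Nat.div_add_mod (t * b) D
    unfold rr
    rw [Nat.mul_add, Nat.mul_one]
    omega
  rw [h1, Nat.dvd_add_right (Dvd.intro _ rfl)]

private theorem rr_sub_of {D b t : ℕ} (hD : 0 < D) (ht : t < D) (h : ¬ D ∣ t * b) :
    rr D b (D - t) = D - rr D b t := by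
  have h0 : rr D b t < D := rr_lt hD
  have h1 : rr D b t ≠ 0 := fun h2 => h (dvd_iff_rr.2 h2)
  have h2 : (rr D b (D - t) + rr D b t) % D = 0 := by
    unfold rr
    rw [← Nat.add_mod, ← Nat.add_mul, Nat.sub_add_cancel ht.le, Nat.mul_mod_right]
  have h3 : rr D b (D - t) < D := rr_lt hD
  obtain ⟨c, hc⟩ := Nat.dvd_of_mod_eq_zero h2
  have h4 : c = 1 := by
    rcases Nat.lt_or_ge c 1 with h5 | h5
    · have : c = 0 := by omega
      subst this
      omega
    · rcases Nat.lt_or_ge 1 c with h6 | h6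
      · have : D * 2 ≤ D * c := Nat.mul_le_mul_left D h6
        omega
      · omega
  subst h4
  omega

private theorem JJ_sub {D b t : ℕ} (ht : t ∈ JJ D b) : D - t ∈ JJ D b := by
  obtain ⟨⟨h1, h2⟩, h3, h4⟩ := mem_JJ.1 ht
  refine mem_JJ.2 ⟨⟨by omega, by omega⟩, fun h => h3 ?_, fun h => h4 ?_⟩
  · have h5 : t * b + (D - t) * b = D * b := by
      rw [← Nat.add_mul]
      congr 1
      omega
    exact (Nat.dvd_add_iff_left h).2 (h5 ▸ Dvd.intro _ rfl)
  · have h5 : t * (b + 1) + (D - t) * (b + 1) = D * (b + 1) := by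
      rw [← Nat.add_mul]
      congr 1
      omega
    exact (Nat.dvd_add_iff_left h).2 (h5 ▸ Dvd.intro _ rfl)

private theorem Ph_sub_JJ {D b t : ℕ} (ht : t ∈ Ph D b) : t ∈ JJ D b := by
  obtain ⟨h1, h2⟩ := mem_Ph.1 ht
  have hD : 0 < D := by omega
  have h3 : rr D b t < D := rr_lt hD
  have h0 : t ≠ 0 := by
    rintro rfl
    have : rr D b 0 = 0 := by simp [rr]
    omega
  refine mem_JJ.2 ⟨⟨by omega, h1⟩, fun h => ?_, fun h => ?_⟩
  · have := dvd_iff_rr.1 h
    omega
  · obtain ⟨c, hc⟩ := dvd_succ_iff.1 h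
    rcases Nat.lt_or_ge c 2 with h5 | h5
    · have : D * c ≤ D * 1 := Nat.mul_le_mul_left D (by omega)
      omega
    · have : D * 2 ≤ D * c := Nat.mul_le_mul_left D h5
      omega

private theorem JJ_cases {D b t : ℕ} (ht : t ∈ JJ D b) : t ∉ Ph D b ↔ D - t ∈ Ph D b := by
  obtain ⟨⟨h1, h2⟩, h3, h4⟩ := mem_JJ.1 ht
  have hD : 0 < D := by omega
  have h5 : rr D b t < D := rr_lt hD
  have h6 := rr_sub_of hD h2 h3
  have h7 : t + rr D b t ≠ D := fun h => h4 (dvd_succ_iff.2 ⟨1, by omega⟩)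
  have h8 : rr D b t ≠ 0 := fun h => h3 (dvd_iff_rr.2 h)
  rw [mem_Ph, mem_Ph, h6]
  omega

private theorem sum_gen {D b : ℕ} {α : Type*} [AddCommMonoid α] (F : ℕ → α) :
    ∑ t ∈ Ph D b, (F t + F (D - t)) = ∑ t ∈ JJ D b, F t := by
  classical
  rw [Finset.sum_add_distrib, ← Finset.sum_filter_add_sum_filter_not (JJ D b) (fun t => t ∈ Ph D b)]
  congr 1
  · refine Finset.sum_congr ?_ fun _ _ => rfl
    ext t
    rw [mem_filter]
    exact ⟨fun h => ⟨Ph_sub_JJ h, h⟩, fun h => h.2⟩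
  · refine Finset.sum_bij' (fun t _ => D - t) (fun t _ => D - t) ?_ ?_ ?_ ?_ ?_
    · intro t ht
      have h1 := Ph_sub_JJ ht
      have h2 := JJ_sub h1
      have h3 := (mem_JJ.1 h1).1
      refine mem_filter.2 ⟨h2, (JJ_cases h2).2 ?_⟩
      have h4 : D - (D - t) = t := by omega
      rw [h4]
      exact ht
    · intro t ht
      obtain ⟨h1, h2⟩ := mem_filter.1 ht
      exact (JJ_cases h1).1 h2
    · intro t ht
      have h3 := (mem_JJ.1 (Ph_sub_JJ ht)).1
      show D - (D - t) = t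
      omega
    · intro t ht
      have h3 := (mem_JJ.1 (mem_filter.1 ht).1).1
      show D - (D - t) = t
      omega
    · intro t _
      rfl

private theorem card_mult {D c : ℕ} (hD : 0 < D) :
    ((Ico 1 D).filter (fun t => D ∣ t * c)).card + 1 = Nat.gcd c D := by
  have hg : 0 < Nat.gcd c D := Nat.gcd_pos_of_pos_right _ hD
  obtain ⟨m, hm⟩ := Nat.gcd_dvd_right c D
  obtain ⟨k, hk⟩ := Nat.gcd_dvd_left c D
  set g := Nat.gcd c D with hgdef
  have hm0 : 0 < m := by
    rcases Nat.eq_zero_or_pos m with h | h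
    · rw [h, Nat.mul_zero] at hm
      omega
    · exact h
  have hcop : Nat.Coprime m k := by
    have h1 : Nat.gcd (g * k) (g * m) = g := by rw [← hk, ← hm]
    rw [Nat.gcd_mul_left] at h1
    have h2 : Nat.gcd k m = 1 := Nat.eq_of_mul_eq_mul_left hg (by rw [h1, Nat.mul_one])
    exact (Nat.coprime_comm).1 h2
  have hdvd : ∀ t, D ∣ t * c ↔ m ∣ t := by
    intro t
    have h3 : t * c = g * (t * k) := by
      rw [hk]
      ring
    rw [h3]
    conv_lhs => rw [hm]
    rw [Nat.mul_dvd_mul_iff_left hg]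
    exact ⟨fun h => hcop.dvd_of_dvd_mul_right h, fun h => Dvd.dvd.mul_right h k⟩
  have h4 : (Ico 1 D).filter (fun t => D ∣ t * c) = (Ico 1 g).image (fun i => m * i) := by
    ext t
    rw [mem_filter, mem_image, mem_Ico]
    constructor
    · rintro ⟨⟨h1, h2⟩, h3⟩
      obtain ⟨i, hi⟩ := (hdvd t).1 h3
      refine ⟨i, mem_Ico.2 ⟨?_, ?_⟩, hi.symm⟩
      · rcases Nat.eq_zero_or_pos i with h | h
        · rw [h, Nat.mul_zero] at hi
          omega
        · exact h
      · by_contra h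
        have : m * g ≤ m * i := Nat.mul_le_mul_left m (not_lt.1 h)
        rw [← hi, Nat.mul_comm m g, ← hm] at this
        omega
    · rintro ⟨i, hi, rfl⟩
      obtain ⟨h1, h2⟩ := mem_Ico.1 hi
      refine ⟨⟨Nat.mul_pos hm0 h1, ?_⟩, (hdvd _).2 (Dvd.intro _ rfl)⟩
      calc m * i < m * g := (Nat.mul_lt_mul_left hm0).2 h2
        _ = D := by rw [Nat.mul_comm, ← hm]
  rw [h4, Finset.card_image_of_injective _ fun i j h => Nat.eq_of_mul_eq_mul_left hm0 h,
    Nat.card_Ico]
  omega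

private theorem card_JJ {D b : ℕ} (hD : 0 < D) :
    (JJ D b).card + Nat.gcd b D + Nat.gcd (b + 1) D = D + 1 := by
  classical
  have h1 := card_mult (c := b) hD
  have h2 := card_mult (c := b + 1) hD
  have h3 : Disjoint ((Ico 1 D).filter (fun t => D ∣ t * b))
      ((Ico 1 D).filter (fun t => D ∣ t * (b + 1))) := by
    rw [Finset.disjoint_left]
    intro t h4 h5
    obtain ⟨h6, h7⟩ := mem_filter.1 h4
    obtain ⟨_, h8⟩ := mem_filter.1 h5
    obtain ⟨h9, h10⟩ := mem_Ico.1 h6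
    rw [Nat.mul_add, Nat.mul_one] at h8
    have h11 := (Nat.dvd_add_right h7).1 h8
    exact absurd (Nat.le_of_dvd h9 h11) (by omega)
  have h4 : JJ D b = (Ico 1 D) \ ((Ico 1 D).filter (fun t => D ∣ t * b) ∪
      (Ico 1 D).filter (fun t => D ∣ t * (b + 1))) := by
    ext t
    rw [JJ, mem_filter, mem_sdiff, mem_union, mem_filter, mem_filter]
    tauto
  have h5 : (Ico 1 D).filter (fun t => D ∣ t * b) ∪
      (Ico 1 D).filter (fun t => D ∣ t * (b + 1)) ⊆ Ico 1 D :=
    Finset.union_subset (filter_subset _ _) (filter_subset _ _)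
  have h6 := Finset.card_sdiff_add_card_eq_card h5
  rw [← h4, Finset.card_union_of_disjoint h3, Nat.card_Ico] at h6
  omega

theorem two_mul_gg {D b : ℕ} (hD : 3 ≤ D) (hb : 0 < b) (hb2 : b + 1 < D) :
    2 * gg D b + Nat.gcd b D + Nat.gcd (b + 1) D = D + 1 := by
  have h1 := card_JJ (D := D) (b := b) (by omega)
  have h2 := sum_gen (D := D) (b := b) (fun _ => (1 : ℕ))
  rw [Finset.sum_const, Finset.sum_const, smul_eq_mul, smul_eq_mul] at h2
  have h3 : gg D b = (Ph D b).card := rfl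
  omega

theorem card_Val {D b K : ℕ} (hD : 3 ≤ D) (hb : 0 < b) (hb2 : b + 1 < D) (hK : D ≤ K) :
    (Val D b K).card + gg D b = K + 1 := by
  classical
  have h1 := Finset.card_filter_add_card_filter_not (s := range (K + 1)) (fun m => kk D b m ≤ m)
  rw [card_range] at h1
  have h2 : ((range (K + 1)).filter (fun m => ¬ kk D b m ≤ m)).card = gg D b := by
    rw [gg]
    have hD0 : 0 < D := by omega
    refine Finset.card_bij' (fun m _ => D - m) (fun t _ => D - t) ?_ ?_ ?_ ?_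
    · intro m hm
      obtain ⟨h3, h4⟩ := mem_filter.1 hm
      have hr : rr D b m < D := rr_lt hD0
      have hk : kk D b m < D := Nat.mod_lt _ hD0
      have hk2 : kk D b m = (D - rr D b m) % D := rfl
      have h5 : rr D b m ≠ 0 := by
        intro h
        rw [h, Nat.sub_zero, Nat.mod_self] at hk2
        omega
      rw [Nat.mod_eq_of_lt (by omega)] at hk2
      have h6 := rr_sub_of hD0 (by omega : m < D) (fun h => h5 (dvd_iff_rr.1 h))
      refine mem_Ph.2 ⟨?_, ?_⟩
      · have : m ≠ 0 := by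
          rintro rfl
          exact h5 (by simp [rr])
        omega
      · rw [h6]
        omega
    · intro t ht
      have h3 := mem_Ph.1 ht
      have h4 := mem_JJ.1 (Ph_sub_JJ ht)
      have hr : rr D b t < D := rr_lt hD0
      have h6 := rr_sub_of hD0 h3.1 h4.2.1
      have hk2 : kk D b (D - t) = (D - rr D b (D - t)) % D := rfl
      rw [h6] at hk2
      have h7 : D - (D - rr D b t) = rr D b t := by omega
      rw [h7, Nat.mod_eq_of_lt hr] at hk2
      refine mem_filter.2 ⟨mem_range.2 (by omega), ?_⟩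
      rw [hk2]
      omega
    · intro m hm
      obtain ⟨h3, h4⟩ := mem_filter.1 hm
      have hk : kk D b m < D := Nat.mod_lt _ hD0
      show D - (D - m) = m
      omega
    · intro t ht
      have h3 := mem_Ph.1 ht
      show D - (D - t) = t
      omega
  have h3 : (Val D b K).card = ((range (K + 1)).filter (fun m => kk D b m ≤ m)).card := rfl
  omega

/-- sums over the type and its opposite -/
theorem sum_Ph {D b : ℕ} (hD : 3 ≤ D) (hb : 0 < b) (hb2 : b + 1 < D) (F : ℕ → ℂ) :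
    ∑ t ∈ Ph D b, (F t + F (D - t)) =
      ∑ t ∈ (Ico 1 D).filter (fun t => ¬ D ∣ t * b ∧ ¬ D ∣ t * (b + 1)), F t :=
  sum_gen F

theorem sum_Ph_real {D b : ℕ} (hD : 3 ≤ D) (hb : 0 < b) (hb2 : b + 1 < D) (F : ℕ → ℝ) :
    ∑ t ∈ Ph D b, (F t + F (D - t)) =
      ∑ t ∈ (Ico 1 D).filter (fun t => ¬ D ∣ t * b ∧ ¬ D ∣ t * (b + 1)), F t :=
  sum_gen F

/-- for `t ∈ Ph`, `D - t` is not in `Ph` -/
theorem sub_not_mem_Ph {D b t : ℕ} (ht : t ∈ Ph D b) : D - t ∉ Ph D b := by
  have h1 := JJ_sub (Ph_sub_JJ ht)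
  have h2 := (mem_JJ.1 (Ph_sub_JJ ht)).1
  refine (JJ_cases h1).2 ?_
  have h4 : D - (D - t) = t := by omega
  rw [h4]
  exact ht

/-- two disjoint copies of `Ph` in the index set of the points -/
theorem exists_emb {D b : ℕ} (hD : 3 ≤ D) (hb : 0 < b) (hb2 : b + 1 < D) :
    ∃ e₁ e₂ : ↥(Ph D b) → Pt D b, Function.Injective e₁ ∧ Function.Injective e₂ ∧
      ∀ i j, e₁ i ≠ e₂ j := by
  have h1 := card_Val (K := KK D b) hD hb hb2 (by unfold KK; omega)
  have h2 : Fintype.card (↥(Ph D b) ⊕ ↥(Ph D b)) ≤ Fintype.card (Pt D b) := by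
    rw [Fintype.card_sum, Fintype.card_coe, Fintype.card_coe]
    have h3 : gg D b = (Ph D b).card := rfl
    have h4 : KK D b = 3 * gg D b + D := rfl
    omega
  obtain ⟨e⟩ := Function.Embedding.nonempty_of_card_le h2
  refine ⟨fun i => e (Sum.inl i), fun j => e (Sum.inr j), fun i j h => ?_, fun i j h => ?_,
    fun i j h => ?_⟩
  · exact Sum.inl_injective (e.injective h)
  · exact Sum.inr_injective (e.injective h)
  · exact absurd (e.injective h) Sum.inl_ne_inr

end Pool.Agent.RHU
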