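import Mathlib

/-!
# Project RHU (MP_c2409d_nt, ROHK block III, multiplicative version): definitions

Everything happens in ONE star-shaped domain `Om D = {z : z^D ∉ [1,∞)}` of the plane. `x = z^D` is the
coordinate of the line, `η = (1-x)^(1/D)` (principal root) a nowhere vanishing holomorphic function on
`Om D` with `z^D + η^D = 1`: the D rotations of `Om D` are glued to the Fermat type curve
`y^D = x (1-x)^b` (the point over `x = 0` is `z = 0`). When `z` crosses the cut at `r > 1`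
(from the lower side `σ = -1` to the upper side `σ = 1`) the point `(ζ^j r, η)` continues as
`(ζ^(j+b) r, ζ^(-1) η)`; `z^m η^l` is unchanged iff `b m = l mod D`.

`Ph D b` is the type `{t : t/D + {tb/D} > 1}`, `Ft` the differentials `z^(D-1-t) η^(-(tb mod D)) dz`,
`Cc = ∫_0^z Ft` (all integrals are radial from 0: `Prim`), `Bt = Cc(1)` the Beta values.
-/

set_option autoImplicit false

namespace Pool.Agent.RHU

open Complex ComplexConjugate Finset Filter Topology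

noncomputable section

/-- `ζ = exp(2πi/D)` -/
def ze (D : ℕ) : ℂ := cexp (2 * Real.pi * I / D)

/-- `ω = ζ⁻¹` -/
def om (D : ℕ) : ℂ := cexp (-(2 * Real.pi * I / D))

/-- `t b mod D` -/
def rr (D b t : ℕ) : ℕ := (t * b) % D

/-- `- t b mod D` -/
def kk (D b t : ℕ) : ℕ := (D - (t * b) % D) % D

/-- the type: `t/D + {tb/D} > 1` -/
def Ph (D b : ℕ) : Finset ℕ := (range D).filter (fun t => D < t + rr D b t)

/-- the dimension -/
def gg (D b : ℕ) : ℕ := (Ph D b).card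

/-- the Beta value `B(1 - t/D, 1 - {tb/D})` -/
def Bt (D b t : ℕ) : ℝ :=
  Real.Gamma (1 - (t : ℝ) / D) * Real.Gamma (1 - (rr D b t : ℝ) / D) /
    Real.Gamma (2 - (t : ℝ) / D - (rr D b t : ℝ) / D)

/-- the weights in normalised coordinates -/
def ga (D b t : ℕ) : ℝ :=
  Real.sin (Real.pi * ((t : ℝ) / D + (rr D b t : ℝ) / D - 1)) /
    (D * Real.sin (Real.pi * (t : ℝ) / D) * Real.sin (Real.pi * (rr D b t : ℝ) / D))

/-- the weights of the hermitian form -/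
def ct (D b t : ℕ) : ℝ := ga D b t / Bt D b t ^ 2

/-- the coordinates of the lattice vectors -/
def la (D b j t : ℕ) : ℂ := Bt D b t * (om D ^ (t * j) * (om D ^ (t * b) - 1))

/-- the lattice vectors -/
def lav (D b j : ℕ) : ↥(Ph D b) → ℂ := fun t => la D b j t

/-- `H(u,v) = ∑ c_t u_t conj v_t` -/
def Hh {ι : Type} [Fintype ι] (c : ι → ℝ) (u v : ι → ℂ) : ℂ := ∑ t, (c t : ℂ) * (u t * conj (v t))

/-- the weights as a function on `Ph` -/
def cv (D b : ℕ) : ↥(Ph D b) → ℝ := fun t => ct D b t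

/-- the value of the semicharacter on all generators -/
def chi0 (D b : ℕ) : ℂ :=
  cexp (Real.pi * I *
    (((b : ℂ) + 1) * D - b * ((Nat.gcd b D : ℂ) + Nat.gcd (b + 1) D) - Nat.gcd b D) / D)

/-- `Om D = {z : z^D ∉ [1,∞)}` -/
def Om (D : ℕ) : Set ℂ := {z | 1 - z ^ D ∈ slitPlane}

/-- the two sides of the real axis, `σ = 1` or `σ = -1` -/
def hp (σ : ℝ) : Set ℂ := {z | 0 < σ * z.im}

/-- `η = (1 - z^D)^(1/D)` -/
def eta (D : ℕ) (z : ℂ) : ℂ := (1 - z ^ D) ^ ((D : ℂ)⁻¹)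

/-- the boundary value of `η` at `ρ > 1` on the side `σ`; for `ρ ≤ 1` the value at `ρ` -/
def etaB (D : ℕ) (σ ρ : ℝ) : ℂ :=
  if 1 < ρ then (((ρ ^ D - 1) ^ ((D : ℝ)⁻¹) : ℝ) : ℂ) * cexp (-(σ * Real.pi * I / D))
  else eta D ρ

/-- the differential as a rational function of `(z, η)` -/
def Fe (D b t : ℕ) (z η : ℂ) : ℂ := (D : ℂ) * z ^ (D - 1 - t) / η ^ rr D b t

/-- the differential on `Om D` -/
def Ft (D b t : ℕ) (z : ℂ) : ℂ := Fe D b t z (eta D z)

/-- its boundary value -/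
def FB (D b t : ℕ) (σ ρ : ℝ) : ℂ := Fe D b t ρ (etaB D σ ρ)

/-- the radial primitive -/
def Prim (φ : ℂ → ℂ) (z : ℂ) : ℂ := ∫ r in (0 : ℝ)..1, φ (r * z) * z

/-- `C_t(z) = ∫_0^z F_t` -/
def Cc (D b t : ℕ) (z : ℂ) : ℂ := Prim (Ft D b t) z

/-- the boundary value of `C_t` -/
def CB (D b t : ℕ) (σ r : ℝ) : ℂ := ∫ ρ in (0 : ℝ)..r, FB D b t σ ρ

/-- `∑_{i<k} θ^i η^(k-1-i) = (θ^k - η^k)/(θ - η)` -/
def Nm (k : ℕ) (θ η : ℂ) : ℂ := ∑ i ∈ range k, θ ^ i * η ^ (k - 1 - i)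

/-- the algebraic part of the third kind kernel -/
def Qa (D b : ℕ) (w θ z η : ℂ) : ℂ :=
  ∑ t ∈ Finset.Ico 1 D, z ^ (t - 1) * w ^ (D - t) * Nm (kk D b t) θ η /
    (η ^ kk D b t * Nm D θ η)

/-- the kernel as a function of `(z, η)` -/
def Qe (D b : ℕ) (w z η : ℂ) : ℂ :=
  Qa D b w (eta D w) z η +
    ∑ t ∈ Ph D b, ((1 - (t : ℂ) / D - (rr D b t : ℂ) / D) / D) * Cc D b (D - t) w * Fe D b t z η

/-- the kernel on `Om D` -/
def Qz (D b : ℕ) (w z : ℂ) : ℂ := Qe D b w z (eta D z)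

/-- its boundary value -/
def QB (D b : ℕ) (w : ℂ) (σ ρ : ℝ) : ℂ := Qe D b w ρ (etaB D σ ρ)

/-- the function `E_w` : a zero at `w`, a pole at `0` -/
def Ee (D b : ℕ) (w z : ℂ) : ℂ := (z - w) / z * cexp (Prim (Qz D b w) z)

/-- the boundary value of `E_w` -/
def EB (D b : ℕ) (w : ℂ) (σ r : ℝ) : ℂ :=
  (r - w) / r * cexp (∫ ρ in (0 : ℝ)..r, QB D b w σ ρ)

/-- the derivative of `W` -/
def wd (D b : ℕ) (z : ℂ) : ℂ :=
  ∑ t ∈ Ph D b, (((t : ℂ) / D + (rr D b t : ℂ) / D - 1) / D) * Cc D b (D - t) z * Ft D b t z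

/-- its boundary value -/
def wdB (D b : ℕ) (σ ρ : ℝ) : ℂ :=
  ∑ t ∈ Ph D b, (((t : ℂ) / D + (rr D b t : ℂ) / D - 1) / D) * CB D b (D - t) σ ρ * FB D b t σ ρ

/-- `W = ∫_0^z wd` -/
def Ww (D b : ℕ) (z : ℂ) : ℂ := Prim (wd D b) z

/-- the boundary value of `W` -/
def WB (D b : ℕ) (σ r : ℝ) : ℂ := ∫ ρ in (0 : ℝ)..r, wdB D b σ ρ

/-- the functions on the curve with the only pole over `x = 0` -/
def psi (D b m : ℕ) (z : ℂ) : ℂ := eta D z ^ kk D b m / z ^ m

/-- the admissible exponents `≤ K` -/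
def Val (D b K : ℕ) : Finset ℕ := (range (K + 1)).filter (fun m => kk D b m ≤ m)

/-- the pole order which is used -/
def KK (D b : ℕ) : ℕ := 3 * gg D b + D

/-- the index set of the points (and of the functions) -/
abbrev Pt (D b : ℕ) : Type := ↥(Val D b (KK D b))

/-- the determinant of the functions `psi` at the points `w` -/
def Del (D b : ℕ) (w : Pt D b → ℂ) : ℂ := Matrix.det (Matrix.of (fun i m : Pt D b => psi D b m (w i)))

/-- the sum of the points under the map `C` -/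
def Sc (D b : ℕ) (w : Pt D b → ℂ) : ↥(Ph D b) → ℂ := fun t => ∑ k, Cc D b t (w k)

/-- the function on the curve: the point `i` is replaced by `z` -/
def fw (D b : ℕ) (T : (↥(Ph D b) → ℂ) → ℂ) (w : Pt D b → ℂ) (i : Pt D b) (z : ℂ) : ℂ :=
  T (fun t => Cc D b t z + ∑ k ∈ univ.erase i, Cc D b t (w k)) *
    (∏ k ∈ univ.erase i, Ee D b (w k) z) / (z ^ gg D b * cexp (Ww D b z))

/-- `T` is the theta function of the curve -/
def IsT (D b : ℕ) (T : (↥(Ph D b) → ℂ) → ℂ) : Prop :=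
  Differentiable ℂ T ∧ (∃ u, T u ≠ 0) ∧ ∀ (j : ℕ) (u : ↥(Ph D b) → ℂ),
    T (u + lav D b j) = chi0 D b *
      cexp (Real.pi * Hh (cv D b) u (lav D b j) +
        Real.pi / 2 * Hh (cv D b) (lav D b j) (lav D b j)) * T u

end

end Pool.Agent.RHU
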