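import Mathlib

/-!
# RHU-Pain: removing a real line (Mathlib only)

PLAN. On a small ball `ball c r ⊆ U`: `IsConservativeOn h (ball c r)` (rectangles: split the rectangle along the
real axis if it meets it; each part is continuous on the closed rectangle and differentiable inside:
`Complex.integral_boundary_rect_eq_zero_of_continuousOn_of_differentiableOn`; if the real axis passes
through the interior add the two boundary integrals), then `IsConservativeOn.isExactOn_ball` (Morera,
`Mathlib/Analysis/Complex/HasPrimitives.lean`): `h` has a holomorphic primitive, so it is holomorphic.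
-/

set_option autoImplicit false

namespace Pool.Agent.RHU

open Complex Filter Topology

private theorem pain_half {h : ℂ → ℂ} {a c b d : ℝ}
    (Hc : ContinuousOn h (Set.uIcc a c ×ℂ Set.uIcc b d))
    (Hd : ∀ x ∈ Set.uIcc a c ×ℂ Set.uIcc b d, x.im ≠ 0 → DifferentiableAt ℂ h x)
    (h0 : (0 : ℝ) ∉ Set.Ioo (min b d) (max b d)) :
    (∫ x : ℝ in a..c, h (x + b * I)) - (∫ x : ℝ in a..c, h (x + d * I)) +
      I • (∫ y : ℝ in b..d, h (c + y * I)) - I • (∫ y : ℝ in b..d, h (a + y * I)) = 0 := by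
  have key := integral_boundary_rect_eq_zero_of_differentiable_on_off_countable h ⟨a, b⟩ ⟨c, d⟩ ∅
    Set.countable_empty Hc ?_
  · exact key
  · intro x hx
    have hx1 := hx.1
    refine Hd x ?_ ?_
    · have h1 : x.re ∈ Set.Ioo (min a c) (max a c) := hx1.1
      have h2 : x.im ∈ Set.Ioo (min b d) (max b d) := hx1.2
      exact ⟨Set.Ioo_subset_Icc_self h1, Set.Ioo_subset_Icc_self h2⟩
    · intro h1
      have h2 : x.im ∈ Set.Ioo (min b d) (max b d) := hx1.2
      rw [h1] at h2
      exact h0 h2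

private theorem pain_vert {h : ℂ → ℂ} {a c b d e b1 d1 : ℝ}
    (Hc : ContinuousOn h (Set.uIcc a c ×ℂ Set.uIcc b d)) (he : e ∈ Set.uIcc a c)
    (h1 : Set.uIcc b1 d1 ⊆ Set.uIcc b d) :
    IntervalIntegrable (fun y : ℝ => h (e + y * I)) MeasureTheory.volume b1 d1 := by
  refine ContinuousOn.intervalIntegrable ?_
  refine Hc.comp (by fun_prop) ?_
  intro y hy
  refine ⟨?_, ?_⟩
  · show ((e : ℂ) + y * I).re ∈ Set.uIcc a c
    simpa using he
  · show ((e : ℂ) + y * I).im ∈ Set.uIcc b d
    simpa using h1 hy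

theorem painleve {U : Set ℂ} (hU : IsOpen U) {h : ℂ → ℂ} (hc : ContinuousOn h U)
    (hd : ∀ z ∈ U, z.im ≠ 0 → DifferentiableAt ℂ h z) : DifferentiableOn ℂ h U := by
  refine (isConservativeOn_and_continuousOn_iff_isDifferentiableOn hU).1 ⟨?_, hc⟩
  rintro z w hzw
  rw [← add_eq_zero_iff_eq_neg, wedgeIntegral_add_wedgeIntegral_eq]
  have Hc : ContinuousOn h (Set.uIcc z.re w.re ×ℂ Set.uIcc z.im w.im) := hc.mono hzw
  have Hd : ∀ x ∈ Set.uIcc z.re w.re ×ℂ Set.uIcc z.im w.im, x.im ≠ 0 → DifferentiableAt ℂ h x :=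
    fun x hx => hd x (hzw hx)
  by_cases h0 : (0 : ℝ) ∈ Set.Ioo (min z.im w.im) (max z.im w.im)
  · have h0' : (0 : ℝ) ∈ Set.uIcc z.im w.im := Set.Ioo_subset_Icc_self h0
    have s1 : Set.uIcc z.im 0 ⊆ Set.uIcc z.im w.im := Set.uIcc_subset_uIcc Set.left_mem_uIcc h0'
    have s2 : Set.uIcc 0 w.im ⊆ Set.uIcc z.im w.im := Set.uIcc_subset_uIcc h0' Set.right_mem_uIcc
    have m1 : Set.uIcc z.re w.re ×ℂ Set.uIcc z.im 0 ⊆ Set.uIcc z.re w.re ×ℂ Set.uIcc z.im w.im :=
      fun x hx => ⟨hx.1, s1 hx.2⟩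
    have m2 : Set.uIcc z.re w.re ×ℂ Set.uIcc 0 w.im ⊆ Set.uIcc z.re w.re ×ℂ Set.uIcc z.im w.im :=
      fun x hx => ⟨hx.1, s2 hx.2⟩
    have e1 := pain_half (Hc.mono m1) (fun x hx => Hd x (m1 hx)) (by
      intro hh
      rcases le_total z.im 0 with h' | h'
      · rw [max_eq_right h'] at hh
        exact lt_irrefl _ hh.2
      · rw [min_eq_right h'] at hh
        exact lt_irrefl _ hh.1)
    have e2 := pain_half (Hc.mono m2) (fun x hx => Hd x (m2 hx)) (by
      intro hh
      rcases le_total w.im 0 with h' | h'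
      · rw [max_eq_left h'] at hh
        exact lt_irrefl _ hh.2
      · rw [min_eq_left h'] at hh
        exact lt_irrefl _ hh.1)
    have i1 := intervalIntegral.integral_add_adjacent_intervals
      (pain_vert (e := w.re) Hc Set.right_mem_uIcc s1) (pain_vert (e := w.re) Hc Set.right_mem_uIcc s2)
    have i2 := intervalIntegral.integral_add_adjacent_intervals
      (pain_vert (e := z.re) Hc Set.left_mem_uIcc s1) (pain_vert (e := z.re) Hc Set.left_mem_uIcc s2)
    rw [← i1, ← i2]
    have e3 := congrArg₂ (· + ·) e1 e2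
    simp only [add_zero] at e3
    rw [← e3]
    simp only [smul_eq_mul]
    ring
  · exact pain_half Hc Hd h0

end Pool.Agent.RHU
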