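import Pool.Agent.RHU.EtaLim
import Pool.Agent.RHU.Pain

/-!
# RHU-Desc: descent to the x-plane and extension across the cut

PLAN. `descend`: `k x = Ψ (x ^ (1/D))` (principal root; it lies in `Om D` if `1 - x ∈ slitPlane`); near `x0 ≠ 0`:
`z0 = x0^(1/D)`, `g(x) = z0 (x/x0)^(1/D)` is holomorphic near `x0`, `g(x)^D = x`, so `g(x)` and `x^(1/D)` differ by a
`D`-th root of unity and `k = Ψ ∘ g` near `x0`.
`extend`: define `k1 = k` off the real half line `[1,∞)`, `k1 = kB` on `(1,∞)`. Continuous on `ℂ - {0, 1}`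
(at `x0 > 1`: the limits from both sides inside `hp σ`, and `kB` itself is continuous because it is the
limit: for `x1 > 1` near `x0`, `kB x1` is a limit of values `k x`, `x ∈ hp 1` near `x1`). `painleve` gives
holomorphic on `ℂ - {0,1}`. At `1`: `(x - 1) k1(x) → 0`
(`Complex.differentiableOn_update_limUnder_of_isLittleO` or
`differentiableOn_update_limUnder_of_bddAbove`-type theorem; the bound `h1` extends to the real points
`x > 1` by continuity).
-/

set_option autoImplicit false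

namespace Pool.Agent.RHU

open Complex Filter Topology

private theorem isOpen_Om' (D : ℕ) : IsOpen (Om D) := by
  have : Om D = (fun z : ℂ => 1 - z ^ D) ⁻¹' slitPlane := rfl
  rw [this]
  exact isOpen_slitPlane.preimage (by fun_prop)

private theorem root_pow {D : ℕ} (hD : 0 < D) (x : ℂ) : (x ^ ((D : ℂ)⁻¹)) ^ D = x :=
  cpow_nat_inv_pow x hD.ne'

theorem descend {D : ℕ} (hD : 0 < D) {Ψ : ℂ → ℂ} (hd : DifferentiableOn ℂ Ψ (Om D \ {0}))
    (hr : ∀ c z : ℂ, c ^ D = 1 → z ∈ Om D → Ψ (c * z) = Ψ z) :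
    ∃ k : ℂ → ℂ, DifferentiableOn ℂ k {x | 1 - x ∈ slitPlane ∧ x ≠ 0} ∧
      ∀ z ∈ Om D, z ≠ 0 → k (z ^ D) = Ψ z := by
  have key : ∀ z w : ℂ, z ∈ Om D → z ≠ 0 → w ^ D = z ^ D → Ψ w = Ψ z := by
    intro z w hz hz0 hw
    have h1 : (w / z) ^ D = 1 := by
      rw [div_pow, hw, div_self (pow_ne_zero _ hz0)]
    have h2 := hr (w / z) z h1 hz
    rwa [div_mul_cancel₀ _ hz0] at h2
  refine ⟨fun x => Ψ (x ^ ((D : ℂ)⁻¹)), ?_, ?_⟩
  · rintro x0 ⟨hx0, hx0'⟩
    apply DifferentiableAt.differentiableWithinAt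
    set z0 : ℂ := x0 ^ ((D : ℂ)⁻¹) with hz0
    have hz0D : z0 ^ D = x0 := root_pow hD x0
    have hz00 : z0 ≠ 0 := by
      intro h
      rw [h, zero_pow hD.ne'] at hz0D
      exact hx0' hz0D.symm
    set g : ℂ → ℂ := fun x => z0 * (x / x0) ^ ((D : ℂ)⁻¹) with hg
    have hgD : ∀ x, (g x) ^ D = x := by
      intro x
      simp only [hg]
      rw [mul_pow, hz0D, root_pow hD]
      field_simp
    have hg0 : g x0 = z0 := by
      simp only [hg]
      rw [div_self hx0', one_cpow, mul_one]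
    have hgd : DifferentiableAt ℂ g x0 := by
      simp only [hg]
      apply DifferentiableAt.const_mul
      apply DifferentiableAt.cpow
      · exact differentiableAt_id.div_const x0
      · exact differentiableAt_const _
      · simp [div_self hx0']
    have hzOm : z0 ∈ Om D := by
      show 1 - z0 ^ D ∈ slitPlane
      rw [hz0D]; exact hx0
    have hΨ : DifferentiableAt ℂ Ψ (g x0) := by
      rw [hg0]
      have hopen : IsOpen (Om D \ {0}) := (isOpen_Om' D).sdiff isClosed_singleton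
      exact (hd z0 ⟨hzOm, hz00⟩).differentiableAt (hopen.mem_nhds ⟨hzOm, hz00⟩)
    have hcomp : DifferentiableAt ℂ (fun x => Ψ (g x)) x0 := hΨ.comp x0 hgd
    refine hcomp.congr_of_eventuallyEq ?_
    have hopen2 : IsOpen {x : ℂ | 1 - x ∈ slitPlane ∧ x ≠ 0} := by
      apply IsOpen.inter
      · exact isOpen_slitPlane.preimage (by fun_prop : Continuous fun x : ℂ => 1 - x)
      · exact isOpen_ne
    filter_upwards [hopen2.mem_nhds ⟨hx0, hx0'⟩] with x hx
    obtain ⟨hx1, hx2⟩ := hx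
    apply key
    · show 1 - (g x) ^ D ∈ slitPlane
      rw [hgD]; exact hx1
    · intro h
      have := hgD x
      rw [h, zero_pow hD.ne'] at this
      exact hx2 this.symm
    · rw [hgD, root_pow hD]
  · intro z hz hz0
    exact key z _ hz hz0 (root_pow hD _)

theorem extend {k : ℂ → ℂ} (hk : DifferentiableOn ℂ k {x | 1 - x ∈ slitPlane ∧ x ≠ 0})
    (kB : ℝ → ℂ)
    (hl : ∀ σ : ℝ, (σ = 1 ∨ σ = -1) → ∀ x : ℝ, 1 < x → Tendsto k (𝓝[hp σ] (x : ℂ)) (𝓝 (kB x)))
    {M δ : ℝ} (hδ : δ < 1)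
    (h1 : ∀ x : ℂ, 1 - x ∈ slitPlane → ‖x - 1‖ ≤ 1 / 2 → ‖k x‖ ≤ M * ‖1 - x‖ ^ (-δ)) :
    ∃ k' : ℂ → ℂ, DifferentiableOn ℂ k' {0}ᶜ ∧ ∀ x : ℂ, 1 - x ∈ slitPlane → x ≠ 0 → k' x = k x := by
  classical
  have hopen2 : IsOpen {x : ℂ | 1 - x ∈ slitPlane ∧ x ≠ 0} := by
    apply IsOpen.inter
    · exact isOpen_slitPlane.preimage (by fun_prop : Continuous fun x : ℂ => 1 - x)
    · exact isOpen_ne
  -- real points beyond 1
  have hreal : ∀ x : ℂ, 1 - x ∉ slitPlane → x ≠ 1 → x.im = 0 ∧ 1 < x.re := by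
    intro x hx hx1
    rw [mem_slitPlane_iff] at hx
    push Not at hx
    simp only [sub_re, one_re, sub_im, one_im, zero_sub, neg_eq_zero] at hx
    refine ⟨hx.2, ?_⟩
    rcases lt_or_eq_of_le hx.1 with h | h
    · linarith
    · exfalso
      apply hx1
      apply Complex.ext
      · simp; linarith
      · simp [hx.2]
  have him : ∀ x : ℂ, x.im ≠ 0 → 1 - x ∈ slitPlane := by
    intro x hx
    rw [mem_slitPlane_iff]
    right
    simpa using hx
  have him0 : ∀ x : ℂ, x.im ≠ 0 → x ≠ 0 := by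
    intro x hx h
    rw [h] at hx
    simp at hx
  set k1 : ℂ → ℂ := fun x => if 1 - x ∈ slitPlane then k x else kB x.re with hk1
  have hk1k : ∀ x : ℂ, 1 - x ∈ slitPlane → k1 x = k x := by
    intro x hx
    simp only [hk1]
    rw [if_pos hx]
  have hev : ∀ x : ℂ, 1 - x ∈ slitPlane → x ≠ 0 → k1 =ᶠ[𝓝 x] k := by
    intro x hx hx0
    filter_upwards [hopen2.mem_nhds ⟨hx, hx0⟩] with y hy
    exact hk1k y hy.1
  have hdiff : ∀ x : ℂ, 1 - x ∈ slitPlane → x ≠ 0 → DifferentiableAt ℂ k1 x := by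
    intro x hx hx0
    have h : DifferentiableAt ℂ k x := (hk x ⟨hx, hx0⟩).differentiableAt (hopen2.mem_nhds ⟨hx, hx0⟩)
    exact h.congr_of_eventuallyEq (hev x hx hx0)
  -- values on the real half line are limits
  have hcont : ContinuousOn k1 ({0, 1}ᶜ : Set ℂ) := by
    intro x0 hx0
    simp only [Set.mem_compl_iff, Set.mem_insert_iff, Set.mem_singleton_iff, not_or] at hx0
    obtain ⟨hx00, hx01⟩ := hx0
    apply ContinuousAt.continuousWithinAt
    by_cases hs : 1 - x0 ∈ slitPlane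
    · exact (hdiff x0 hs hx00).continuousAt
    · obtain ⟨hi, hre⟩ := hreal x0 hs hx01
      set r : ℝ := x0.re with hr
      have hx0r : x0 = (r : ℂ) := by
        apply Complex.ext
        · simp [hr]
        · simp [hi]
      have hval : k1 x0 = kB r := by
        simp only [hk1]
        rw [if_neg hs]
      rw [Metric.continuousAt_iff]
      intro ε hε
      have hA := hl 1 (Or.inl rfl) r hre
      have hB := hl (-1) (Or.inr rfl) r hre
      rw [Metric.tendsto_nhdsWithin_nhds] at hA hB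
      obtain ⟨δ1, hδ1, hA⟩ := hA (ε / 2) (by linarith)
      obtain ⟨δ2, hδ2, hB⟩ := hB (ε / 2) (by linarith)
      refine ⟨min (min δ1 δ2) (r - 1), lt_min (lt_min hδ1 hδ2) (by linarith), ?_⟩
      intro x hx
      rw [hval]
      have hxa : dist x x0 < δ1 := lt_of_lt_of_le hx ((min_le_left _ _).trans (min_le_left _ _))
      have hxb : dist x x0 < δ2 := lt_of_lt_of_le hx ((min_le_left _ _).trans (min_le_right _ _))
      have hxc : dist x x0 < r - 1 := lt_of_lt_of_le hx (min_le_right _ _)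
      rw [hx0r] at hxa hxb hxc
      rcases lt_trichotomy x.im 0 with him' | him' | him'
      · rw [hk1k x (him x him'.ne)]
        have := @hB x (by simpa [hp] using him') hxb
        linarith
      · -- real point
        have hxre : |x.re - r| < r - 1 := by
          have h := Complex.abs_re_le_norm (x - (r : ℂ))
          rw [sub_re, ofReal_re] at h
          rw [dist_eq_norm] at hxc
          linarith
        have hx1 : 1 < x.re := by
          have := (abs_lt.mp hxre).1
          linarith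
        have hxs : 1 - x ∉ slitPlane := by
          rw [mem_slitPlane_iff]
          push Not
          refine ⟨by simp; linarith, by simp [him']⟩
        have hxe : x = ((x.re : ℝ) : ℂ) := by
          apply Complex.ext
          · simp
          · simp [him']
        have hv : k1 x = kB x.re := by
          simp only [hk1]
          rw [if_neg hxs]
        rw [hv]
        have hlim := hl 1 (Or.inl rfl) x.re hx1
        have := neBot_hp (σ := 1) (ρ := x.re) (Or.inl rfl)
        have hle : dist (kB x.re) (kB r) ≤ ε / 2 := by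
          have ht : Tendsto (fun y => dist (k y) (kB r)) (𝓝[hp 1] ((x.re : ℝ) : ℂ))
              (𝓝 (dist (kB x.re) (kB r))) := hlim.dist tendsto_const_nhds
          refine le_of_tendsto ht ?_
          have hnear : ∀ᶠ y in 𝓝[hp 1] ((x.re : ℝ) : ℂ), dist y (r : ℂ) < δ1 := by
            have hc : Tendsto (fun y : ℂ => dist y (r : ℂ)) (𝓝[hp 1] ((x.re : ℝ) : ℂ))
                (𝓝 (dist ((x.re : ℝ) : ℂ) (r : ℂ))) := by
              have : ContinuousAt (fun y : ℂ => dist y (r : ℂ)) ((x.re : ℝ) : ℂ) := by fun_prop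
              exact this.tendsto.mono_left nhdsWithin_le_nhds
            rw [hxe] at hxa
            exact hc.eventually (gt_mem_nhds hxa)
          filter_upwards [hnear, self_mem_nhdsWithin] with y hy hy'
          exact (hA hy' hy).le
        linarith
      · rw [hk1k x (him x him'.ne')]
        have := @hA x (by simpa [hp] using him') hxa
        linarith
  have hopen3 : IsOpen ({0, 1}ᶜ : Set ℂ) := by
    have : ({0, 1} : Set ℂ).Finite := by simp
    exact this.isClosed.isOpen_compl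
  have hP : DifferentiableOn ℂ k1 ({0, 1}ᶜ : Set ℂ) := by
    apply painleve hopen3 hcont
    intro z hz hzi
    exact hdiff z (him z hzi) (him0 z hzi)
  -- the bound at all points near 1
  have hbd : ∀ x : ℂ, x ≠ 1 → ‖x - 1‖ < 1 / 2 → ‖k1 x‖ ≤ M * ‖1 - x‖ ^ (-δ) := by
    intro x hx1 hx
    by_cases hs : 1 - x ∈ slitPlane
    · rw [hk1k x hs]
      exact h1 x hs hx.le
    · obtain ⟨hi, hre⟩ := hreal x hs hx1
      have hxe : x = ((x.re : ℝ) : ℂ) := by
        apply Complex.ext
        · simp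
        · simp [hi]
      have hv : k1 x = kB x.re := by
        simp only [hk1]
        rw [if_neg hs]
      rw [hv]
      have hlim := hl 1 (Or.inl rfl) x.re hre
      have := neBot_hp (σ := 1) (ρ := x.re) (Or.inl rfl)
      have hn : Tendsto (fun y => ‖k y‖) (𝓝[hp 1] ((x.re : ℝ) : ℂ)) (𝓝 ‖kB x.re‖) := hlim.norm
      have hne : ‖1 - ((x.re : ℝ) : ℂ)‖ ≠ 0 := by
        rw [← hxe]
        intro h
        rw [norm_eq_zero, sub_eq_zero] at h
        exact hx1 h.symm
      have hm : Tendsto (fun y : ℂ => M * ‖1 - y‖ ^ (-δ)) (𝓝[hp 1] ((x.re : ℝ) : ℂ))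
          (𝓝 (M * ‖1 - ((x.re : ℝ) : ℂ)‖ ^ (-δ))) := by
        have : ContinuousAt (fun y : ℂ => M * ‖1 - y‖ ^ (-δ)) ((x.re : ℝ) : ℂ) := by
          apply ContinuousAt.mul continuousAt_const
          apply ContinuousAt.rpow_const
          · fun_prop
          · left; exact hne
        exact this.tendsto.mono_left nhdsWithin_le_nhds
      have hfin : ‖kB x.re‖ ≤ M * ‖1 - ((x.re : ℝ) : ℂ)‖ ^ (-δ) := by
        refine le_of_tendsto_of_tendsto hn hm ?_
        have hnear : ∀ᶠ y in 𝓝[hp 1] ((x.re : ℝ) : ℂ), ‖y - 1‖ < 1 / 2 := by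
          have hc : Tendsto (fun y : ℂ => ‖y - 1‖) (𝓝[hp 1] ((x.re : ℝ) : ℂ))
              (𝓝 ‖((x.re : ℝ) : ℂ) - 1‖) := by
            have : ContinuousAt (fun y : ℂ => ‖y - 1‖) ((x.re : ℝ) : ℂ) := by fun_prop
            exact this.tendsto.mono_left nhdsWithin_le_nhds
          rw [hxe] at hx
          exact hc.eventually (gt_mem_nhds hx)
        filter_upwards [hnear, self_mem_nhdsWithin] with y hy hy'
        refine h1 y (him y ?_) hy.le
        have : 0 < y.im := by simpa [hp] using hy'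
        exact this.ne'
      rw [← hxe] at hfin
      exact hfin
  have ho : (fun z => k1 z - k1 1) =o[𝓝[≠] (1 : ℂ)] fun z => (z - 1)⁻¹ := by
    rw [Asymptotics.isLittleO_iff]
    intro c hc
    have hT : Tendsto (fun z : ℂ => |M| * ‖z - 1‖ ^ (1 - δ) + ‖k1 1‖ * ‖z - 1‖) (𝓝[≠] (1 : ℂ)) (𝓝 0) := by
      have hcz : Tendsto (fun z : ℂ => ‖z - 1‖) (𝓝[≠] (1 : ℂ)) (𝓝 0) := by
        have : ContinuousAt (fun z : ℂ => ‖z - 1‖) (1 : ℂ) := by fun_prop
        have h := this.tendsto.mono_left (nhdsWithin_le_nhds (s := {(1 : ℂ)}ᶜ))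
        simpa using h
      have hpw : Tendsto (fun z : ℂ => ‖z - 1‖ ^ (1 - δ)) (𝓝[≠] (1 : ℂ)) (𝓝 0) := by
        have h := hcz.rpow_const (p := 1 - δ) (Or.inr (by linarith))
        rwa [Real.zero_rpow (by linarith)] at h
      have h := (hpw.const_mul |M|).add (hcz.const_mul ‖k1 1‖)
      simpa using h
    have hsm : ∀ᶠ z in 𝓝[≠] (1 : ℂ), |M| * ‖z - 1‖ ^ (1 - δ) + ‖k1 1‖ * ‖z - 1‖ < c :=
      hT.eventually (gt_mem_nhds hc)
    have hball : ∀ᶠ z in 𝓝[≠] (1 : ℂ), ‖z - 1‖ < 1 / 2 := by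
      apply nhdsWithin_le_nhds
      have : Metric.ball (1 : ℂ) (1 / 2) ∈ 𝓝 (1 : ℂ) := Metric.ball_mem_nhds _ (by norm_num)
      filter_upwards [this] with z hz
      rwa [Metric.mem_ball, dist_eq_norm] at hz
    filter_upwards [hsm, hball, self_mem_nhdsWithin] with z h2 h3 h4
    have hz1 : z ≠ 1 := h4
    have hpos : 0 < ‖z - 1‖ := norm_pos_iff.mpr (sub_ne_zero.mpr hz1)
    have hb := hbd z hz1 h3
    rw [norm_sub_rev 1 z] at hb
    have hb' : ‖k1 z‖ ≤ |M| * ‖z - 1‖ ^ (-δ) :=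
      hb.trans (mul_le_mul_of_nonneg_right (le_abs_self M) (Real.rpow_nonneg hpos.le _))
    have hpw : ‖z - 1‖ ^ (-δ) * ‖z - 1‖ = ‖z - 1‖ ^ (1 - δ) := by
      rw [← Real.rpow_add_one hpos.ne']
      congr 1
      ring
    have hsum : ‖k1 z - k1 1‖ * ‖z - 1‖ ≤ c := by
      calc ‖k1 z - k1 1‖ * ‖z - 1‖ ≤ (‖k1 z‖ + ‖k1 1‖) * ‖z - 1‖ :=
            mul_le_mul_of_nonneg_right (norm_sub_le _ _) hpos.le
        _ ≤ (|M| * ‖z - 1‖ ^ (-δ) + ‖k1 1‖) * ‖z - 1‖ := by
            apply mul_le_mul_of_nonneg_right _ hpos.le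
            linarith
        _ = |M| * ‖z - 1‖ ^ (1 - δ) + ‖k1 1‖ * ‖z - 1‖ := by
            rw [add_mul, mul_assoc, hpw]
        _ ≤ c := h2.le
    rw [norm_inv, ← div_eq_mul_inv, le_div_iff₀ hpos]
    exact hsum
  refine ⟨Function.update k1 1 (limUnder (𝓝[≠] (1 : ℂ)) k1), ?_, ?_⟩
  · apply Complex.differentiableOn_update_limUnder_of_isLittleO (isOpen_compl_singleton.mem_nhds (by simp))
    · have : ({0}ᶜ : Set ℂ) \ {1} = ({0, 1}ᶜ : Set ℂ) := by
        ext x
        simp only [Set.mem_sdiff, Set.mem_compl_iff, Set.mem_singleton_iff, Set.mem_insert_iff, not_or]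
      rw [this]
      exact hP
    · exact ho
  · intro x hx hx0
    have hx1 : x ≠ 1 := by
      intro h
      rw [h] at hx
      simp at hx
    rw [Function.update_of_ne hx1]
    exact hk1k x hx

end Pool.Agent.RHU
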