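import Pool.Agent.RHU.SinSum

/-!
# RHU-ESum: integrality of the imaginary part of the hermitian form

PLAN. `im_Hh_lav`: `Im H(λ_i, λ_j) = ∑ ga |ω^(tb)-1|² Im ω^(t(i-j))`, `|ω^(tb)-1|² = 2 - 2 cos(2πtb/D)`,
`Im = - sin(2πt(i-j)/D)`: `= (1/D) ∑_Ph (cot α + cot β)(2 - 2cos 2β) sin(2πtk/D)`, `k = i-j`, even under
`t ↦ D-t`, so `(1/2D) ∑_J`. `cot β (2 - 2cos 2β) = 2 sin 2β`. All terms with `t ∉ J`, `0<t<D` vanish:
`= (1/D) ∑_{0<t<D} [cot(πt/D)(1 - cos(2πtb/D)) + sin(2πtb/D)] sin(2πtk/D)`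
`= (1/D)[S(k) - S(k+b)/2 - S(k-b)/2] + ([D ∣ k-b] - [D ∣ k+b])/2`, `S(m) = ∑ cot(πt/D) sin(2πtm/D)`, which is
`D - 2 m'`, `m' = m mod D`, if `D ∤ m`, and `0` if `D ∣ m`. Compare with the number of `r ∈ [1,b]`,
`r = k mod D`, minus the number with `r = -k mod D` (take `k` in `[0,D)`; cases).
-/

set_option autoImplicit false

namespace Pool.Agent.RHU

open Complex ComplexConjugate Finset

noncomputable section

/-- the number of `r ∈ [1,b]` with `r = k` mod `D` -/
def Nr (D b : ℕ) (k : ZMod D) : ℤ := ((Icc 1 b).filter (fun r : ℕ => ((r : ℕ) : ZMod D) = k)).card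

theorem Nr_int {D b : ℕ} (hb2 : b + 1 < D) (k : ℤ) :
    Nr D b ((k : ℤ) : ZMod D) = if 1 ≤ k % D ∧ k % D ≤ b then 1 else 0 := by
  unfold Nr
  have hD : (0 : ℤ) < D := by omega
  have h0 := Int.emod_nonneg k hD.ne'
  have h1 := Int.emod_lt_of_pos k hD
  have key : ∀ r ∈ Icc 1 b, (((r : ℕ) : ZMod D) = ((k : ℤ) : ZMod D) ↔ (r : ℤ) = k % D) := by
    intro r hr
    rw [mem_Icc] at hr
    have h := ZMod.intCast_eq_intCast_iff (r : ℤ) k D
    rw [Int.cast_natCast] at h
    rw [h]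
    unfold Int.ModEq
    rw [Int.emod_eq_of_lt (by omega) (by omega : (r : ℤ) < D)]
  split_ifs with h
  · have h2 : (Icc 1 b).filter (fun r : ℕ => ((r : ℕ) : ZMod D) = ((k : ℤ) : ZMod D)) =
        {(k % D).toNat} := by
      ext r
      rw [mem_filter, mem_singleton]
      constructor
      · rintro ⟨hr, he⟩
        have := (key r hr).1 he
        omega
      · intro he
        have hr : r ∈ Icc 1 b := by rw [mem_Icc]; omega
        exact ⟨hr, (key r hr).2 (by omega)⟩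
    rw [h2]; simp
  · have h2 : (Icc 1 b).filter (fun r : ℕ => ((r : ℕ) : ZMod D) = ((k : ℤ) : ZMod D)) = ∅ := by
      rw [filter_eq_empty_iff]
      intro r hr he
      have := (key r hr).1 he
      rw [mem_Icc] at hr
      omega
    rw [h2]; simp

theorem es_om_pow (D n : ℕ) : om D ^ n =
    (Real.cos (2 * Real.pi * n / D) : ℂ) - (Real.sin (2 * Real.pi * n / D) : ℂ) * I := by
  have h : om D ^ n = cexp (-((2 * Real.pi * n / D : ℝ) : ℂ) * I) := by
    unfold om
    rw [← Complex.exp_nat_mul]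
    congr 1
    push_cast
    ring
  rw [h, Complex.exp_mul_I, Complex.cos_neg, Complex.sin_neg]
  push_cast
  ring

theorem es_term_im {D b t : ℕ} (i j : ℕ) (ht : t ∈ Ph D b) :
    ((ct D b t : ℂ) * (la D b i t * conj (la D b j t))).im =
      -(ga D b t * ((2 - 2 * Real.cos (2 * Real.pi * (t * b : ℕ) / D)) *
        Real.sin (2 * Real.pi * t * ((i : ℤ) - j : ℤ) / D))) := by
  have hB := (Bt_pos ht).ne'
  have hs : Real.sin (2 * Real.pi * t * ((i : ℤ) - j : ℤ) / D) =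
      Real.sin (2 * Real.pi * (t * i : ℕ) / D) * Real.cos (2 * Real.pi * (t * j : ℕ) / D) -
      Real.cos (2 * Real.pi * (t * i : ℕ) / D) * Real.sin (2 * Real.pi * (t * j : ℕ) / D) := by
    rw [← Real.sin_sub]
    congr 1
    push_cast
    ring
  rw [hs]
  unfold la ct
  rw [es_om_pow, es_om_pow, es_om_pow]
  set ci := Real.cos (2 * Real.pi * (t * i : ℕ) / D)
  set si := Real.sin (2 * Real.pi * (t * i : ℕ) / D)
  set cj := Real.cos (2 * Real.pi * (t * j : ℕ) / D)
  set sj := Real.sin (2 * Real.pi * (t * j : ℕ) / D)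
  have h1 : Real.sin (2 * Real.pi * (t * b : ℕ) / D) ^ 2 =
    1 - Real.cos (2 * Real.pi * (t * b : ℕ) / D) ^ 2 := Real.sin_sq _
  set cb := Real.cos (2 * Real.pi * (t * b : ℕ) / D)
  set sb := Real.sin (2 * Real.pi * (t * b : ℕ) / D)
  have h2 : ((ga D b t / Bt D b t ^ 2 : ℝ) : ℂ) * ((Bt D b t : ℂ) * (((ci : ℂ) - (si : ℂ) * I) *
      (((cb : ℂ) - (sb : ℂ) * I) - 1)) * conj ((Bt D b t : ℂ) * (((cj : ℂ) - (sj : ℂ) * I) *
      (((cb : ℂ) - (sb : ℂ) * I) - 1)))) =
      ((ga D b t * ((cb - 1) ^ 2 + sb ^ 2) * (ci * cj + si * sj) : ℝ) : ℂ) +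
      ((ga D b t * ((cb - 1) ^ 2 + sb ^ 2) * (ci * sj - si * cj) : ℝ) : ℂ) * I := by
    have h3 : ((ga D b t / Bt D b t ^ 2 : ℝ) : ℂ) * ((Bt D b t : ℂ) * (Bt D b t : ℂ)) =
        (ga D b t : ℂ) := by
      rw [← Complex.ofReal_mul, ← Complex.ofReal_mul]
      congr 1
      field_simp
    have h4 : ∀ x y : ℂ, ((ga D b t / Bt D b t ^ 2 : ℝ) : ℂ) * ((Bt D b t : ℂ) * x *
        ((Bt D b t : ℂ) * y)) = (ga D b t : ℂ) * (x * y) := by
      intro x y
      rw [← h3]; ring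
    rw [map_mul, Complex.conj_ofReal, h4]
    simp only [map_mul, map_sub, Complex.conj_ofReal, Complex.conj_I, map_one]
    push_cast
    have hI : I ^ 2 = -1 := Complex.I_sq
    have hI3 : I ^ 3 = -I := by rw [pow_succ, hI]; ring
    have hI4 : I ^ 4 = 1 := Complex.I_pow_four
    ring_nf
    rw [hI, hI3, hI4]
    ring
  rw [h2, Complex.add_im, Complex.ofReal_im, Complex.mul_im, Complex.ofReal_im, Complex.ofReal_re,
    Complex.I_im, Complex.I_re, show (cb - 1) ^ 2 + sb ^ 2 = 2 - 2 * cb by rw [h1]; ring]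
  ring

theorem es_cot_sum {D : ℕ} (hD : 3 ≤ D) (m : ℤ) :
    ∑ t ∈ Ico 1 D, Real.cos (Real.pi * t / D) / Real.sin (Real.pi * t / D) *
      Real.sin (2 * Real.pi * t * m / D) =
      (D : ℝ) - 2 * (m % D : ℤ) - D * (if (D : ℤ) ∣ m then 1 else 0) := by
  have hD0 : (0 : ℤ) < D := by omega
  have hDr : (D : ℝ) ≠ 0 := by
    have : 0 < D := by omega
    positivity
  have h0 := Int.emod_nonneg m hD0.ne'
  have h1 := Int.emod_lt_of_pos m hD0
  have h2 : ∀ t : ℕ, Real.sin (2 * Real.pi * t * m / D) =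
      Real.sin (2 * Real.pi * t * ((m % D).toNat : ℕ) / D) := by
    intro t
    have h3 : (m : ℝ) = ((m % D).toNat : ℕ) + D * (m / D : ℤ) := by
      have h4 : m = ((m % D).toNat : ℤ) + D * (m / D) := by
        rw [Int.toNat_of_nonneg h0]
        exact (Int.emod_add_mul_ediv m D).symm
      exact_mod_cast h4
    rw [h3]
    have h5 : 2 * Real.pi * t * (((m % D).toNat : ℕ) + D * (m / D : ℤ)) / D =
        2 * Real.pi * t * ((m % D).toNat : ℕ) / D + ((t : ℤ) * (m / D) : ℤ) * (2 * Real.pi) := by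
      push_cast
      field_simp
    rw [h5, Real.sin_add_int_mul_two_pi]
  simp_rw [h2]
  by_cases hm : m % D = 0
  · have hd : (D : ℤ) ∣ m := Int.dvd_of_emod_eq_zero hm
    rw [if_pos hd, hm]
    simp
  · have hd : ¬ (D : ℤ) ∣ m := fun h => hm (Int.emod_eq_zero_of_dvd h)
    rw [if_neg hd, sum_cot_sin (by omega) (by omega)]
    have h6 : (((m % D).toNat : ℕ) : ℝ) = ((m % D : ℤ) : ℝ) := by
      have h7 : (((m % D).toNat : ℕ) : ℤ) = m % D := Int.toNat_of_nonneg h0
      exact_mod_cast h7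
    rw [h6]
    ring

/-- the summand after the replacement of `rr` -/
def es_G (D b : ℕ) (k : ℤ) (t : ℕ) : ℝ :=
  (Real.cos (Real.pi * t / D) / Real.sin (Real.pi * t / D) *
    (2 - 2 * Real.cos (2 * Real.pi * (t * b : ℕ) / D)) +
    2 * Real.sin (2 * Real.pi * (t * b : ℕ) / D)) * Real.sin (2 * Real.pi * t * k / D)

theorem es_cos_rr {D : ℕ} (hD : 3 ≤ D) (b t : ℕ) : Real.cos (2 * Real.pi * (t * b : ℕ) / D) =
    Real.cos (2 * (Real.pi * rr D b t / D)) ∧ Real.sin (2 * Real.pi * (t * b : ℕ) / D) =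
    Real.sin (2 * (Real.pi * rr D b t / D)) := by
  have hDr : (D : ℝ) ≠ 0 := by
    have : 0 < D := by omega
    positivity
  have h : ((t * b : ℕ) : ℝ) = (rr D b t : ℝ) + D * ((t * b / D : ℕ) : ℝ) := by
    have h1 : t * b = rr D b t + D * (t * b / D) := (Nat.mod_add_div (t * b) D).symm
    exact_mod_cast h1
  have h5 : 2 * Real.pi * (t * b : ℕ) / D =
      2 * (Real.pi * rr D b t / D) + ((t * b / D : ℕ) : ℝ) * (2 * Real.pi) := by
    rw [h]
    field_simp
  rw [h5]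
  exact ⟨Real.cos_add_nat_mul_two_pi _ _, Real.sin_add_nat_mul_two_pi _ _⟩

theorem es_cot_two (x : ℝ) : Real.cos x / Real.sin x * (2 - 2 * Real.cos (2 * x)) =
    2 * Real.sin (2 * x) := by
  rw [Real.cos_two_mul, Real.sin_two_mul]
  by_cases h : Real.sin x = 0
  · rw [h]; simp
  · have h1 : Real.cos x ^ 2 = 1 - Real.sin x ^ 2 := Real.cos_sq' x
    rw [h1]
    field_simp
    ring

theorem es_ga_term {D b t : ℕ} (hD : 3 ≤ D) (k : ℤ) (ht : t ∈ Ph D b) :
    -(ga D b t * ((2 - 2 * Real.cos (2 * Real.pi * (t * b : ℕ) / D)) *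
        Real.sin (2 * Real.pi * t * k / D))) = es_G D b k t / D := by
  rw [ga_eq ht]
  unfold es_G
  obtain ⟨h1, h2⟩ := es_cos_rr hD b t
  have h3 := es_cot_two (Real.pi * rr D b t / D)
  rw [h1, h2, ← h3]
  ring

theorem es_symm {D b t : ℕ} (hD : 3 ≤ D) (k : ℤ) (ht : t ≤ D) : es_G D b k (D - t) = es_G D b k t := by
  have hDr : (D : ℝ) ≠ 0 := by
    have : 0 < D := by omega
    positivity
  unfold es_G
  have hc : ((D - t : ℕ) : ℝ) = D - t := by rw [Nat.cast_sub ht]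
  have h1 : Real.pi * (D - t : ℕ) / D = Real.pi - Real.pi * t / D := by
    rw [hc]; field_simp
  have h2 : 2 * Real.pi * ((D - t) * b : ℕ) / D = (b : ℝ) * (2 * Real.pi) -
      2 * Real.pi * (t * b : ℕ) / D := by
    rw [Nat.cast_mul, hc]; push_cast; field_simp
  have h3 : 2 * Real.pi * (D - t : ℕ) * k / D = (k : ℝ) * (2 * Real.pi) -
      2 * Real.pi * t * k / D := by
    rw [hc]; field_simp
  rw [h1, h2, h3, Real.cos_pi_sub, Real.sin_pi_sub, Real.cos_nat_mul_two_pi_sub,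
    Real.sin_nat_mul_two_pi_sub, Real.sin_int_mul_two_pi_sub]
  ring

theorem es_zero {D b t : ℕ} (hD : 3 ≤ D) (k : ℤ) (h : D ∣ t * b ∨ D ∣ t * (b + 1)) :
    es_G D b k t = 0 := by
  have hDr : (D : ℝ) ≠ 0 := by
    have : 0 < D := by omega
    positivity
  unfold es_G
  rcases h with h | h
  · obtain ⟨q, hq⟩ := h
    have h1 : 2 * Real.pi * (t * b : ℕ) / D = 0 + (q : ℝ) * (2 * Real.pi) := by
      rw [hq]; push_cast; field_simp; ring
    rw [h1, Real.cos_add_nat_mul_two_pi, Real.sin_add_nat_mul_two_pi]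
    simp
  · obtain ⟨q, hq⟩ := h
    have hq' : ((t * b : ℕ) : ℝ) = D * q - t := by
      have : ((t * (b + 1) : ℕ) : ℝ) = ((D * q : ℕ) : ℝ) := by rw [hq]
      push_cast at this ⊢
      linarith
    have h1 : 2 * Real.pi * (t * b : ℕ) / D = (q : ℝ) * (2 * Real.pi) - 2 * (Real.pi * t / D) := by
      rw [hq']; field_simp
    rw [h1, Real.cos_nat_mul_two_pi_sub, Real.sin_nat_mul_two_pi_sub]
    have h3 := es_cot_two (Real.pi * t / D)
    rw [h3]
    ring

theorem es_sum {D b : ℕ} (hD : 3 ≤ D) (hb : 0 < b) (hb2 : b + 1 < D) (k : ℤ) :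
    2 * ∑ t ∈ Ph D b, es_G D b k t = ∑ t ∈ Ico 1 D, es_G D b k t := by
  have h1 := sum_Ph_real hD hb hb2 (es_G D b k)
  have h2 : ∑ t ∈ Ph D b, (es_G D b k t + es_G D b k (D - t)) = 2 * ∑ t ∈ Ph D b, es_G D b k t := by
    rw [mul_sum]
    apply sum_congr rfl
    intro t ht
    rw [es_symm hD k (Ph_pos ht).2.1.le]
    ring
  rw [← h2, h1]
  apply sum_subset (filter_subset _ _)
  intro t ht hn
  apply es_zero hD
  rw [mem_filter] at hn
  by_contra hc
  push Not at hc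
  exact hn ⟨ht, hc⟩

theorem es_sum_val {D b : ℕ} (hD : 3 ≤ D) (hb : 0 < b) (hb2 : b + 1 < D) (k : ℤ) :
    ∑ t ∈ Ico 1 D, es_G D b k t = 2 * D * ((Nr D b ((k : ℤ) : ZMod D) -
      Nr D b (((-k : ℤ)) : ZMod D) : ℤ) : ℝ) := by
  have hDr : (D : ℝ) ≠ 0 := by
    have : 0 < D := by omega
    positivity
  have hD0 : (0 : ℤ) < D := by omega
  have h1 : ∀ t ∈ Ico 1 D, es_G D b k t =
      2 * (Real.cos (Real.pi * t / D) / Real.sin (Real.pi * t / D) *
        Real.sin (2 * Real.pi * t * k / D)) -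
      Real.cos (Real.pi * t / D) / Real.sin (Real.pi * t / D) *
        Real.sin (2 * Real.pi * t * ((k + b : ℤ) : ℝ) / D) -
      Real.cos (Real.pi * t / D) / Real.sin (Real.pi * t / D) *
        Real.sin (2 * Real.pi * t * ((k - b : ℤ) : ℝ) / D) +
      2 * (Real.sin (2 * Real.pi * t * ((b : ℤ) : ℝ) / D) *
        Real.sin (2 * Real.pi * t * k / D)) := by
    intro t _
    unfold es_G
    have ha : 2 * Real.pi * t * ((k + b : ℤ) : ℝ) / D =
        2 * Real.pi * t * k / D + 2 * Real.pi * (t * b : ℕ) / D := by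
      push_cast; ring
    have hb' : 2 * Real.pi * t * ((k - b : ℤ) : ℝ) / D =
        2 * Real.pi * t * k / D - 2 * Real.pi * (t * b : ℕ) / D := by
      push_cast; ring
    have hc : 2 * Real.pi * t * ((b : ℤ) : ℝ) / D = 2 * Real.pi * (t * b : ℕ) / D := by
      push_cast; ring
    rw [ha, hb', hc, Real.sin_add, Real.sin_sub]
    ring
  rw [sum_congr rfl h1, sum_add_distrib, sum_sub_distrib, sum_sub_distrib, ← mul_sum, ← mul_sum,
    es_cot_sum hD, es_cot_sum hD, es_cot_sum hD]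
  have h2 : ∑ t ∈ Ico 1 D, Real.sin (2 * Real.pi * t * ((b : ℤ) : ℝ) / D) *
        Real.sin (2 * Real.pi * t * k / D) =
      ∑ t ∈ range D, Real.sin (2 * Real.pi * t * ((b : ℤ) : ℝ) / D) *
        Real.sin (2 * Real.pi * t * k / D) := by
    rw [range_eq_Ico, sum_eq_sum_Ico_succ_bot (by omega : 0 < D)]
    simp
  rw [h2, sum_sin_sin (by omega), Nr_int hb2, Nr_int hb2]
  have e0 := Int.emod_nonneg k hD0.ne'
  have e1 := Int.emod_lt_of_pos k hD0
  have e2 := Int.emod_add_mul_ediv k D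
  have f0 := Int.emod_nonneg (-k) hD0.ne'
  have f1 := Int.emod_lt_of_pos (-k) hD0
  set κ := k % D with hκ
  have hadd : (k + b) % D = if κ + b < D then κ + b else κ + b - D := by
    rw [← Int.emod_add_emod, ← hκ]
    split_ifs with h
    · exact Int.emod_eq_of_lt (by omega) h
    · rw [← Int.sub_emod_right, Int.emod_eq_of_lt (by omega) (by omega)]
  have hsub : (k - b) % D = if κ < b then κ - b + D else κ - b := by
    rw [← Int.emod_sub_emod, ← hκ]
    split_ifs with h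
    · rw [← Int.add_emod_right, Int.emod_eq_of_lt (by omega) (by omega)]
    · exact Int.emod_eq_of_lt (by omega) (by omega)
  have hneg : (-k) % D = if κ = 0 then 0 else D - κ := by
    split_ifs with h
    · have : (D : ℤ) ∣ k := Int.dvd_of_emod_eq_zero h
      exact Int.emod_eq_zero_of_dvd ((dvd_neg).2 this)
    · have : -k = (D - κ) + D * (-(k / D) - 1) := by
        linarith [e2]
      rw [this, Int.add_mul_emod_self_left, Int.emod_eq_of_lt (by omega) (by omega)]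
  have d1 : ((D : ℤ) ∣ k) ↔ κ = 0 := by
    rw [hκ]; exact Int.dvd_iff_emod_eq_zero
  have d2 : ((D : ℤ) ∣ k + b) ↔ κ + b = D := by
    rw [Int.dvd_iff_emod_eq_zero, hadd]
    split_ifs with h
    · omega
    · omega
  have d3 : ((D : ℤ) ∣ k - b) ↔ κ = b := by
    rw [Int.dvd_iff_emod_eq_zero, hsub]
    split_ifs with h
    · omega
    · omega
  have d4 : ((D : ℤ) ∣ (b : ℤ) - k) ↔ κ = b := by
    rw [← d3, ← dvd_neg, neg_sub]
  have d5 : ((D : ℤ) ∣ (b : ℤ) + k) ↔ κ + b = D := by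
    rw [← d2, add_comm]
  rw [hneg, hadd, hsub]
  simp only [d1, d2, d3, d4, d5]
  have hbi : (0 : ℤ) < b := by omega
  have hbD : (b : ℤ) + 1 < D := by omega
  by_cases c0 : κ = 0
  · have t1 : ¬ (κ + b = D) := by omega
    have t2 : ¬ (κ = b) := by omega
    have t3 : κ + b < D := by omega
    have t4 : κ < b := by omega
    rw [if_pos c0, if_neg t1, if_neg t2, if_pos t3, if_pos t4, if_pos c0, c0]
    push_cast
    simp
    ring
  · rw [if_neg c0, if_neg c0]
    rcases lt_trichotomy κ b with c1 | c1 | c1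
    · have t2 : ¬ (κ = b) := by omega
      rw [if_neg t2, if_pos c1, if_pos (⟨by omega, by omega⟩ : 1 ≤ κ ∧ κ ≤ b)]
      rcases lt_trichotomy (κ + b) D with c2 | c2 | c2
      · rw [if_neg (by omega : ¬ (κ + b = D)), if_pos c2,
          if_neg (by omega : ¬ (1 ≤ (D : ℤ) - κ ∧ (D : ℤ) - κ ≤ b))]
        push_cast
        ring
      · rw [if_pos c2, if_neg (by omega : ¬ (κ + b < D)),
          if_pos (⟨by omega, by omega⟩ : 1 ≤ (D : ℤ) - κ ∧ (D : ℤ) - κ ≤ b)]
        have c3 : (κ : ℝ) = D - b := by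
          have : κ = D - b := by omega
          rw [this]; push_cast; ring
        push_cast
        rw [c3]
        ring
      · rw [if_neg (by omega : ¬ (κ + b = D)), if_neg (by omega : ¬ (κ + b < D)),
          if_pos (⟨by omega, by omega⟩ : 1 ≤ (D : ℤ) - κ ∧ (D : ℤ) - κ ≤ b)]
        push_cast
        ring
    · rw [if_pos c1, if_neg (by omega : ¬ (κ < b)), if_pos (⟨by omega, by omega⟩ : 1 ≤ κ ∧ κ ≤ b)]
      rcases lt_trichotomy (κ + b) D with c2 | c2 | c2
      · rw [if_neg (by omega : ¬ (κ + b = D)), if_pos c2,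
          if_neg (by omega : ¬ (1 ≤ (D : ℤ) - κ ∧ (D : ℤ) - κ ≤ b))]
        push_cast
        ring
      · rw [if_pos c2, if_neg (by omega : ¬ (κ + b < D)),
          if_pos (⟨by omega, by omega⟩ : 1 ≤ (D : ℤ) - κ ∧ (D : ℤ) - κ ≤ b)]
        have c3 : (κ : ℝ) = D - b := by
          have : κ = D - b := by omega
          rw [this]; push_cast; ring
        push_cast
        rw [c3]
        ring
      · rw [if_neg (by omega : ¬ (κ + b = D)), if_neg (by omega : ¬ (κ + b < D)),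
          if_pos (⟨by omega, by omega⟩ : 1 ≤ (D : ℤ) - κ ∧ (D : ℤ) - κ ≤ b)]
        push_cast
        ring
    · rw [if_neg (by omega : ¬ (κ = b)), if_neg (by omega : ¬ (κ < b)),
        if_neg (by omega : ¬ (1 ≤ κ ∧ κ ≤ b))]
      rcases lt_trichotomy (κ + b) D with c2 | c2 | c2
      · rw [if_neg (by omega : ¬ (κ + b = D)), if_pos c2,
          if_neg (by omega : ¬ (1 ≤ (D : ℤ) - κ ∧ (D : ℤ) - κ ≤ b))]
        push_cast
        ring
      · rw [if_pos c2, if_neg (by omega : ¬ (κ + b < D)),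
          if_pos (⟨by omega, by omega⟩ : 1 ≤ (D : ℤ) - κ ∧ (D : ℤ) - κ ≤ b)]
        have c3 : (κ : ℝ) = D - b := by
          have : κ = D - b := by omega
          rw [this]; push_cast; ring
        push_cast
        rw [c3]
        ring
      · rw [if_neg (by omega : ¬ (κ + b = D)), if_neg (by omega : ¬ (κ + b < D)),
          if_pos (⟨by omega, by omega⟩ : 1 ≤ (D : ℤ) - κ ∧ (D : ℤ) - κ ≤ b)]
        push_cast
        ring

theorem im_Hh_lav {D b : ℕ} (hD : 3 ≤ D) (hb : 0 < b) (hb2 : b + 1 < D) (i j : ℕ) :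
    (Hh (cv D b) (lav D b i) (lav D b j)).im =
      ((Nr D b ((i : ZMod D) - j) - Nr D b ((j : ZMod D) - i) : ℤ) : ℝ) := by
  have hDr : (D : ℝ) ≠ 0 := by
    have : 0 < D := by omega
    positivity
  have h1 : (Hh (cv D b) (lav D b i) (lav D b j)).im = ∑ t ∈ Ph D b, es_G D b ((i : ℤ) - j) t / D := by
    unfold Hh cv lav
    rw [Complex.im_sum]
    have h2 := Finset.sum_coe_sort (Ph D b)
      (fun t => ((ct D b t : ℂ) * (la D b i t * conj (la D b j t))).im)
    rw [h2]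
    apply sum_congr rfl
    intro t ht
    rw [es_term_im i j ht, es_ga_term hD _ ht]
  rw [h1, ← sum_div]
  have h2 := es_sum hD hb hb2 ((i : ℤ) - j)
  rw [es_sum_val hD hb hb2] at h2
  have h3 : ((((i : ℤ) - j : ℤ)) : ZMod D) = (i : ZMod D) - j := by push_cast; ring
  have h4 : (((-((i : ℤ) - j) : ℤ)) : ZMod D) = (j : ZMod D) - i := by push_cast; ring
  rw [h3, h4] at h2
  rw [div_eq_iff hDr]
  linarith

end

end Pool.Agent.RHU
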