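import Pool.Agent.RHU.Emu2

/-!
# RHU-Elim: boundary values of `E_w`

PLAN. `Ee_lim`: `rad_lim` for `Qz D b w` (`norm_Qq_loc`, `QB_lim`), continuity of `exp` and of `(z-w)/z`.
`EB_rel`: for `r ≥ 1` let `R(r) = EB(om^b w) 1 r / EB(w) (-1) r`. At `r = 1` both are `Ee _ 1`
(`QB D b w σ ρ = Qz D b w ρ` for `ρ < 1`), so `R(1)` is given by `Ee_mul`. For `r > 1`,
`R'/R = 1/(r - om^b w) + QB(om^b w) 1 r - 1/(r-w) - QB w (-1) r = 0` by `Qe_cross` and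
`etaB_one_neg_one` (`QB` is continuous on `(1,∞)` and integrable near `1`); continuous at `1`. (Avoid the
derivative: `(r-w)/(r(1-w)) = exp ∫_1^r (1/(ρ-w) - 1/ρ) dρ` for non-real `w`, then the integrands are equal.)
`Ee_rot`: `prim_rot`, `Qq_rot`. `norm_Ee`: `prim_Qq_bdd`.
-/

set_option autoImplicit false

namespace Pool.Agent.RHU

open Complex Finset Filter Topology MeasureTheory

private theorem elim_loc {D b : ℕ} (hD : 0 < D) {w : ℂ} (hw : w ∈ Om D) {σ r : ℝ}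
    (hσ : σ = 1 ∨ σ = -1) (hr : 0 < r) :
    Tendsto (Prim (Qz D b w)) (𝓝[hp σ] (r : ℂ)) (𝓝 (∫ ρ in (0 : ℝ)..r, QB D b w σ ρ)) ∧
      IntervalIntegrable (QB D b w σ) volume 0 r := by
  obtain ⟨M, β, hβ0, hβ, hM⟩ := norm_Qq_loc (b := b) hD hw (r + 1)
  have hc : ContinuousOn (Qz D b w) (Om D) := (differentiableOn_Qq hD hw).continuousOn
  have hl : ∀ ρ : ℝ, 0 < ρ → ρ < r + 1 → ρ ≠ 1 →
      Tendsto (Qz D b w) (𝓝[hp σ] (ρ : ℂ)) (𝓝 (QB D b w σ ρ)) := fun ρ h0 _ h1 =>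
    QB_lim hD hw hσ h0 h1
  exact ⟨rad_lim hD hσ hβ0 hβ hc hM hl hr (by linarith),
    rad_int hD hσ hβ0 hβ hc hM hl hr (by linarith)⟩

theorem Ee_lim {D b : ℕ} (hD : 3 ≤ D) {w : ℂ} (hw : w ∈ Om D) {σ r : ℝ} (hσ : σ = 1 ∨ σ = -1)
    (hr : 0 < r) : Tendsto (Ee D b w) (𝓝[hp σ] (r : ℂ)) (𝓝 (EB D b w σ r)) := by
  have h1 := (elim_loc (b := b) (by omega) hw hσ hr).1
  have hr0 : (r : ℂ) ≠ 0 := by exact_mod_cast hr.ne'
  have h2 : Tendsto (fun z : ℂ => (z - w) / z) (𝓝[hp σ] (r : ℂ)) (𝓝 (((r : ℂ) - w) / r)) := by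
    have h3 : ContinuousAt (fun z : ℂ => (z - w) / z) (r : ℂ) :=
      (continuousAt_id.sub continuousAt_const).div continuousAt_id hr0
    exact h3.tendsto.mono_left nhdsWithin_le_nhds
  exact h2.mul ((Complex.continuous_exp.tendsto _).comp h1)

private theorem elim_im {D : ℕ} {w : ℂ} (hw : (w ^ D).im ≠ 0) : w.im ≠ 0 := by
  intro h
  apply hw
  have h1 : w = ((w.re : ℝ) : ℂ) := by
    apply Complex.ext
    · rw [Complex.ofReal_re]
    · rw [Complex.ofReal_im, h]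
  rw [h1, ← Complex.ofReal_pow, Complex.ofReal_im]

private theorem elim_log {w : ℂ} {r : ℝ} (hr : 1 ≤ r)
    (h : ∀ ρ : ℝ, 1 ≤ ρ → (ρ : ℂ) - w ∈ slitPlane) :
    IntervalIntegrable (fun ρ : ℝ => 1 / ((ρ : ℂ) - w)) volume 1 r ∧
    cexp (∫ ρ in (1 : ℝ)..r, 1 / ((ρ : ℂ) - w)) = ((r : ℂ) - w) / (1 - w) := by
  have hI : IntervalIntegrable (fun ρ : ℝ => 1 / ((ρ : ℂ) - w)) volume 1 r := by
    apply ContinuousOn.intervalIntegrable
    refine continuousOn_const.div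
      ((Complex.continuous_ofReal.sub continuous_const).continuousOn) ?_
    intro ρ hρ
    rw [Set.uIcc_of_le hr] at hρ
    exact Complex.slitPlane_ne_zero (h ρ hρ.1)
  refine ⟨hI, ?_⟩
  have hd : ∀ ρ ∈ Set.uIcc (1 : ℝ) r,
      HasDerivAt (fun s : ℝ => Complex.log ((s : ℂ) - w)) (1 / ((ρ : ℂ) - w)) ρ := by
    intro ρ hρ
    rw [Set.uIcc_of_le hr] at hρ
    have h1 : HasDerivAt (fun s : ℝ => (s : ℂ) - w) 1 ρ := by
      have := (Complex.ofRealCLM.hasDerivAt (x := ρ)).sub_const w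
      simpa using this
    exact h1.clog_real (h ρ hρ.1)
  have h2 := intervalIntegral.integral_eq_sub_of_hasDerivAt hd hI
  have n1 : (r : ℂ) - w ≠ 0 := Complex.slitPlane_ne_zero (h r hr)
  have n2 : (1 : ℂ) - w ≠ 0 := by
    have := Complex.slitPlane_ne_zero (h 1 le_rfl)
    rwa [Complex.ofReal_one] at this
  rw [h2, Complex.exp_sub, Complex.exp_log n1, Complex.ofReal_one, Complex.exp_log n2]

private theorem elim_EB {D b : ℕ} (hD : 0 < D) {w : ℂ} (hw : (w ^ D).im ≠ 0) {σ r : ℝ}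
    (hσ : σ = 1 ∨ σ = -1) (hr : 1 ≤ r) :
    EB D b w σ r = Ee D b w 1 *
      cexp (∫ ρ in (1 : ℝ)..r, (QB D b w σ ρ + 1 / ((ρ : ℂ) - w) - 1 / ((ρ : ℂ) - 0))) := by
  have hwO : w ∈ Om D := mem_Om_of_im hw
  have him := elim_im hw
  obtain ⟨i1, e1⟩ := elim_log (w := w) hr (by
    intro ρ _
    rw [Complex.mem_slitPlane_iff]
    right
    rw [Complex.sub_im, Complex.ofReal_im, zero_sub]
    exact neg_ne_zero.2 him)
  obtain ⟨i0, e0⟩ := elim_log (w := 0) hr (by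
    intro ρ hρ
    rw [Complex.mem_slitPlane_iff, sub_zero]
    left
    rw [Complex.ofReal_re]
    linarith)
  have q1 := (elim_loc (b := b) hD hwO hσ one_pos).2
  have qr := (elim_loc (b := b) hD hwO hσ (lt_of_lt_of_le one_pos hr)).2
  have q2 : IntervalIntegrable (QB D b w σ) volume 1 r := q1.symm.trans qr
  have hsplit : (∫ ρ in (0 : ℝ)..r, QB D b w σ ρ) =
      Prim (Qz D b w) 1 + ∫ ρ in (1 : ℝ)..r, QB D b w σ ρ := by
    rw [← intervalIntegral.integral_add_adjacent_intervals q1 q2]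
    congr 1
    rw [prim_one]
    refine intervalIntegral.integral_congr fun ρ hρ => ?_
    rw [Set.uIcc_of_le zero_le_one] at hρ
    change Qe D b w ρ (etaB D σ ρ) = Qe D b w ρ (eta D ρ)
    rw [etaB_of_le hρ.2]
  have hint : (∫ ρ in (1 : ℝ)..r, (QB D b w σ ρ + 1 / ((ρ : ℂ) - w) - 1 / ((ρ : ℂ) - 0))) =
      (∫ ρ in (1 : ℝ)..r, QB D b w σ ρ) + (∫ ρ in (1 : ℝ)..r, 1 / ((ρ : ℂ) - w)) -
        ∫ ρ in (1 : ℝ)..r, 1 / ((ρ : ℂ) - 0) := by
    rw [intervalIntegral.integral_sub (q2.add i1) i0, intervalIntegral.integral_add q2 i1]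
  have n1 : (1 : ℂ) - w ≠ 0 := by
    intro h
    apply him
    have : w = 1 := (sub_eq_zero.1 h).symm
    rw [this, Complex.one_im]
  have hr0 : (r : ℂ) ≠ 0 := by
    have : (0 : ℝ) < r := by linarith
    exact_mod_cast this.ne'
  unfold EB Ee
  rw [hsplit, hint, Complex.exp_sub, Complex.exp_add, Complex.exp_add, e1, e0]
  field_simp
  ring

theorem EB_rel {D b : ℕ} (hD : 3 ≤ D) (hb : 0 < b) (hb2 : b + 1 < D) {w : ℂ}
    (hw : (w ^ D).im ≠ 0) {r : ℝ} (hr : 1 ≤ r) :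
    EB D b (om D ^ b * w) 1 r = EB D b w (-1) r *
      cexp (-(Real.pi * ∑ t ∈ Ph D b, ((ga D b t / Bt D b t : ℝ) : ℂ) * Cc D b t w *
        (ze D ^ (t * b) - 1))) := by
  have hD0 : 0 < D := by omega
  have hcD : (om D ^ b) ^ D = 1 := by
    rw [← pow_mul, mul_comm b D, pow_mul, om_pow D hD0, one_pow]
  have hw' : ((om D ^ b * w) ^ D).im ≠ 0 := by
    rw [mul_pow, hcD, one_mul]
    exact hw
  have hwO : w ∈ Om D := mem_Om_of_im hw
  rw [elim_EB hD0 hw' (Or.inl rfl) hr, elim_EB hD0 hw (Or.inr rfl) hr, Ee_mul hD hb hb2 hw]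
  have hI : (∫ ρ in (1 : ℝ)..r, (QB D b (om D ^ b * w) 1 ρ + 1 / ((ρ : ℂ) - om D ^ b * w) -
        1 / ((ρ : ℂ) - 0))) =
      ∫ ρ in (1 : ℝ)..r, (QB D b w (-1) ρ + 1 / ((ρ : ℂ) - w) - 1 / ((ρ : ℂ) - 0)) := by
    rw [intervalIntegral.integral_of_le hr, intervalIntegral.integral_of_le hr]
    refine setIntegral_congr_fun measurableSet_Ioc fun ρ hρ => ?_
    have hρ1 : 1 < ρ := hρ.1
    have hρ0 : (0 : ℝ) < ρ := by linarith
    have hρC : (ρ : ℂ) ≠ 0 := by exact_mod_cast hρ0.ne'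
    congr 1
    change Qe D b (om D ^ b * w) ρ (etaB D 1 ρ) + _ = Qe D b w ρ (etaB D (-1) ρ) + _
    rw [etaB_one_neg_one hρ1]
    refine Qe_cross hD0 hwO hρC (etaB_ne hD0 hρ0 hρ1.ne') (etaB_pow hD0 (Or.inr rfl)) ?_
    intro h
    apply hw
    rw [h, ← Complex.ofReal_pow, Complex.ofReal_im]
  rw [hI]
  ring

theorem Ee_rot {D b : ℕ} (hD : 0 < D) {c : ℂ} (hc : c ^ D = 1) (w z : ℂ) :
    Ee D b (c * w) (c * z) = Ee D b w z := by
  have hc0 : c ≠ 0 := by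
    intro h
    rw [h, zero_pow hD.ne'] at hc
    exact zero_ne_one hc
  have h1 : Prim (Qz D b (c * w)) (c * z) = Prim (Qz D b w) z := by
    have := prim_rot (Qz D b (c * w)) (Qz D b w) c 1 (fun z => by
      rw [one_mul]
      exact Qq_rot hD hc w z) z
    rw [this, one_mul]
  unfold Ee
  rw [h1, ← mul_sub, mul_div_mul_left _ _ hc0]

theorem Ee_self (D b : ℕ) (w : ℂ) : Ee D b w w = 0 := by
  simp [Ee]

theorem Ee_ne {D b : ℕ} {w z : ℂ} (hz : z ≠ 0) (hne : z ≠ w) : Ee D b w z ≠ 0 :=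
  mul_ne_zero (div_ne_zero (sub_ne_zero.2 hne) hz) (Complex.exp_ne_zero _)

private theorem elim_prim {D b : ℕ} (hD : 0 < D) {w : ℂ} (hw : w ∈ Om D) {z : ℂ}
    (hz : z ∈ Om D) : HasDerivAt (Prim (Qz D b w)) (Qz D b w z) z :=
  hasDerivAt_prim (isOpen_Om D) (star_Om hD) (differentiableOn_Qq hD hw) hz

theorem differentiableOn_Ee {D b : ℕ} (hD : 0 < D) {w : ℂ} (hw : w ∈ Om D) :
    DifferentiableOn ℂ (Ee D b w) (Om D \ {0}) := by
  intro z hz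
  have hz0 : z ≠ 0 := hz.2
  have h1 : DifferentiableAt ℂ (Prim (Qz D b w)) z := (elim_prim hD hw hz.1).differentiableAt
  have h2 : DifferentiableAt ℂ (fun z : ℂ => (z - w) / z) z :=
    (differentiableAt_id.sub_const w).div differentiableAt_id hz0
  exact (h2.mul h1.cexp).differentiableWithinAt

/-- logarithmic derivative -/
theorem hasDerivAt_Ee {D b : ℕ} (hD : 0 < D) {w z : ℂ} (hw : w ∈ Om D) (hz : z ∈ Om D)
    (hz0 : z ≠ 0) (hne : z ≠ w) :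
    HasDerivAt (Ee D b w) (Ee D b w z * (Qz D b w z + 1 / (z - w) - 1 / z)) z := by
  have h1 := (elim_prim (b := b) hD hw hz).cexp
  have h2 : HasDerivAt (fun z : ℂ => (z - w) / z) ((1 * z - (z - w) * 1) / z ^ 2) z :=
    ((hasDerivAt_id z).sub_const w).div (hasDerivAt_id z) hz0
  have h3 := h2.mul h1
  refine h3.congr_deriv ?_
  have hzw : z - w ≠ 0 := sub_ne_zero.2 hne
  unfold Ee
  field_simp
  ring

theorem norm_Ee {D b : ℕ} (hD : 3 ≤ D) {w : ℂ} (hw : w ∈ Om D) : ∃ M : ℝ, 0 < M ∧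
    (∀ z ∈ Om D, 1 / 2 ≤ ‖z‖ → ‖Ee D b w z‖ ≤ M) ∧
    ∀ z ∈ Om D, 0 < ‖z‖ → ‖z‖ ≤ 1 / 2 → ‖Ee D b w z‖ ≤ M / ‖z‖ := by
  obtain ⟨M, hM⟩ := prim_Qq_bdd (b := b) hD hw
  have hE : ∀ z ∈ Om D, ‖Ee D b w z‖ ≤ (‖z‖ + ‖w‖) / ‖z‖ * Real.exp M := by
    intro z hz
    unfold Ee
    rw [norm_mul, norm_div, Complex.norm_exp]
    have h1 : ‖z - w‖ ≤ ‖z‖ + ‖w‖ := norm_sub_le _ _
    have h2 : Real.exp (Prim (Qz D b w) z).re ≤ Real.exp M :=
      Real.exp_le_exp.2 ((Complex.re_le_norm _).trans (hM z hz))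
    exact mul_le_mul (div_le_div_of_nonneg_right h1 (norm_nonneg _)) h2 (Real.exp_pos _).le
      (by positivity)
  have hw0 : 0 ≤ ‖w‖ := norm_nonneg _
  refine ⟨(1 + 2 * ‖w‖) * Real.exp M, by positivity, ?_, ?_⟩
  · intro z hz hz2
    refine (hE z hz).trans (mul_le_mul_of_nonneg_right ?_ (Real.exp_pos _).le)
    rw [div_le_iff₀ (by linarith)]
    nlinarith
  · intro z hz hz0 hz2
    refine (hE z hz).trans ?_
    rw [div_mul_eq_mul_div]
    refine div_le_div_of_nonneg_right (mul_le_mul_of_nonneg_right ?_ (Real.exp_pos _).le) hz0.le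
    linarith

end Pool.Agent.RHU
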