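import Pool.Agent.RHU.Qan
import Pool.Agent.RHU.Cnt

/-!
# RHU-Qsym: the exchange law

`Qd D b w z` is the derivative of `Q(w,z)` in `w`; it is symmetric.

PLAN. `X = w^D`, `Y = z^D`, `θ = eta D w`, `η = eta D z`, `r_t = rr D b t`. Near `w` (as `w^D ≠ z^D` persists)
`Qa = ∑_{1≤t<D} z^(t-1) w^(D-t) (1 - θ^k/η^k)/(X-Y)` (see the plan of `Qan`), `θ' = -w^(D-1)/θ^(D-1)`,
`(w^(D-t) θ^k)' = w^(D-t-1) θ^k ((D-t) - k X/(1-X))`. This is the definition of `Qd`.
SYMMETRY: the terms `1/(w-z) - z^(D-1)/(X-Y)` have the derivative `-1/(w-z)² + D w^(D-1) z^(D-1)/(X-Y)²`,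
symmetric. With `m_t(w,z) = z^(t-1) η^(-k_t) w^(D-t-1) θ^(k_t)` the rest is
`-∑ m_t ([(D-t) - k_t X/(1-X)]/(X-Y) - D X/(X-Y)²)`. If `k_t ≠ 0` then `k_{D-t} = D - k_t` and
`m_{D-t}(z,w) = m_t(w,z) (1-Y)/(1-X)`; the `t`-th term at `(w,z)` minus the `(D-t)`-th term at `(z,w)` is
`m_t(w,z) (k_t - t)/(1-X)` (multiply by `(1-X)(X-Y)²/m_t`: polynomial identity
`-[(D-t)(1-X) - kX](X-Y) + DX(1-X) - [t(1-Y) - (D-k)Y](X-Y) - DY(1-Y) = (k-t)(X-Y)²`), which is
`((1 - s_t)/D) F_{D-t}(z) F_t(w)` (as `F_{D-t}(z) = D z^(t-1) η^(-k_t)`,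
`F_t(w) = D w^(D-1-t) θ^(k_t - D)`, `k_t - t = D (1 - s_t)`). If `k_t = 0` the difference is `0`.
The sum over all `t` with `k_t ≠ 0` of `((1-s_t)/D) F_{D-t}(z) F_t(w)`: terms with `s_t = 1` vanish, the others are
`t ∈ Ph` or `D - t ∈ Ph`, `s_{D-t} = 2 - s_t`: it is
`∑_{Ph} ((1-s_t)/D) (F_{D-t}(z) F_t(w) - F_t(z) F_{D-t}(w))`, which cancels against the difference of the last sums.
-/

set_option autoImplicit false

namespace Pool.Agent.RHU

open Complex Finset Filter Topology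

noncomputable section

/-- the derivative of `Q(w,z)` in `w` (for `w^D ≠ z^D`) -/
def Qd (D b : ℕ) (w z : ℂ) : ℂ :=
  -1 / (w - z) ^ 2 + D * w ^ (D - 1) * z ^ (D - 1) / (w ^ D - z ^ D) ^ 2 -
    ∑ t ∈ Finset.Ico 1 D, z ^ (t - 1) * w ^ (D - t - 1) * eta D w ^ kk D b t / eta D z ^ kk D b t *
      ((((D : ℂ) - t) - kk D b t * w ^ D / (1 - w ^ D)) / (w ^ D - z ^ D) -
        D * w ^ D / (w ^ D - z ^ D) ^ 2) +
    ∑ t ∈ Ph D b, ((1 - (t : ℂ) / D - (rr D b t : ℂ) / D) / D) * Ft D b (D - t) w * Ft D b t z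

private theorem qs_Nm {D k : ℕ} {θ η : ℂ} (hη : η ≠ 0) (h : θ ^ D ≠ η ^ D) :
    Nm k θ η / (η ^ k * Nm D θ η) = (θ ^ k / η ^ k - 1) / (θ ^ D - η ^ D) := by
  have h1 := nm_mul k θ η
  have h2 := nm_mul D θ η
  have h3 : θ ^ D - η ^ D ≠ 0 := sub_ne_zero.2 h
  have h4 : θ - η ≠ 0 := by
    intro h5
    rw [← h2, h5, zero_mul] at h3
    exact h3 rfl
  have h5 : Nm D θ η ≠ 0 := by
    intro h6
    rw [← h2, h6, mul_zero] at h3
    exact h3 rfl
  have h6 : η ^ k ≠ 0 := pow_ne_zero _ hη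
  rw [← h2, eq_div_iff (mul_ne_zero h4 h5), div_mul_eq_mul_div, div_eq_iff (mul_ne_zero h6 h5)]
  have h7 : (θ ^ k / η ^ k - 1) * (η ^ k * Nm D θ η) = (θ ^ k - η ^ k) * Nm D θ η := by
    field_simp
  rw [h7, ← h1]
  ring

private theorem qs_geo {D : ℕ} (hD : 0 < D) {w z : ℂ} (h : w ≠ z) :
    ∑ t ∈ Finset.Ico 1 D, z ^ (t - 1) * w ^ (D - t) = (w ^ D - z ^ D) / (w - z) - z ^ (D - 1) := by
  obtain ⟨n, rfl⟩ : ∃ n, D = n + 1 := ⟨D - 1, by omega⟩
  have h1 : w - z ≠ 0 := sub_ne_zero.2 h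
  have h2 := nm_mul (n + 1) z w
  have h3 : Nm (n + 1) z w = ∑ t ∈ Finset.Ico 1 (n + 1), z ^ (t - 1) * w ^ (n + 1 - t) +
      z ^ n := by
    unfold Nm
    rw [Finset.sum_range_succ, Finset.sum_Ico_eq_sum_range]
    congr 1
    · rw [Nat.add_sub_cancel]
      refine Finset.sum_congr rfl fun i hi => ?_
      rw [Nat.add_sub_cancel_left]
      congr 2
      omega
    · rw [Nat.add_sub_cancel, Nat.sub_self, pow_zero, mul_one]
  rw [h3] at h2
  rw [Nat.add_sub_cancel, eq_sub_iff_add_eq, eq_div_iff h1]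
  linear_combination (-1 : ℂ) * h2

/-- the closed form of the kernel -/
private def qsQ (D b : ℕ) (w z : ℂ) : ℂ :=
  1 / (w - z) - z ^ (D - 1) / (w ^ D - z ^ D) -
    ∑ t ∈ Finset.Ico 1 D, z ^ (t - 1) / eta D z ^ kk D b t *
      ((w ^ (D - t) * eta D w ^ kk D b t) / (w ^ D - z ^ D)) +
    ∑ t ∈ Ph D b, ((1 - (t : ℂ) / D - (rr D b t : ℂ) / D) / D) * Cc D b (D - t) w * Ft D b t z

private theorem qs_closed {D b : ℕ} (hD : 0 < D) {w z : ℂ} (hz : z ∈ Om D)
    (hne : w ^ D ≠ z ^ D) : Qz D b w z = qsQ D b w z := by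
  have hwz : w ≠ z := fun h => hne (by rw [h])
  have h1 : w - z ≠ 0 := sub_ne_zero.2 hwz
  have h2 : w ^ D - z ^ D ≠ 0 := sub_ne_zero.2 hne
  have hη : eta D z ≠ 0 := eta_ne hz
  have hθ : eta D w ^ D - eta D z ^ D = -(w ^ D - z ^ D) := by
    rw [eta_pow hD, eta_pow hD]
    ring
  have hne2 : eta D w ^ D ≠ eta D z ^ D := by
    intro h
    rw [h, sub_self, eq_comm, neg_eq_zero] at hθ
    exact h2 hθ
  unfold Qz Qe qsQ Ft
  congr 1
  unfold Qa
  have h3 : ∀ t ∈ Finset.Ico 1 D, z ^ (t - 1) * w ^ (D - t) * Nm (kk D b t) (eta D w) (eta D z) /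
      (eta D z ^ kk D b t * Nm D (eta D w) (eta D z)) =
      z ^ (t - 1) * w ^ (D - t) / (w ^ D - z ^ D) - z ^ (t - 1) / eta D z ^ kk D b t *
      ((w ^ (D - t) * eta D w ^ kk D b t) / (w ^ D - z ^ D)) := by
    intro t _
    rw [mul_div_assoc, qs_Nm hη hne2, hθ]
    have h4 : eta D z ^ kk D b t ≠ 0 := pow_ne_zero _ hη
    field_simp
    ring
  rw [Finset.sum_congr rfl h3, Finset.sum_sub_distrib, ← Finset.sum_div, qs_geo hD hwz]
  congr 1
  field_simp

private theorem qs_term {D k t : ℕ} (hD : 0 < D) (ht : t < D) {w : ℂ} (hw : w ∈ Om D) :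
    HasDerivAt (fun w' => w' ^ (D - t) * eta D w' ^ k)
      (w ^ (D - t - 1) * eta D w ^ k * (((D : ℂ) - t) - k * w ^ D / (1 - w ^ D))) w := by
  have hθ : eta D w ≠ 0 := eta_ne hw
  have h1 := (hasDerivAt_pow (D - t) w).mul ((hasDerivAt_eta hD hw).pow k)
  have e : ((D - t : ℕ) : ℂ) * w ^ (D - t - 1) * eta D w ^ k +
      w ^ (D - t) * (k * eta D w ^ (k - 1) * (-w ^ (D - 1) / eta D w ^ (D - 1))) =
      w ^ (D - t - 1) * eta D w ^ k * (((D : ℂ) - t) - k * w ^ D / (1 - w ^ D)) := by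
    have e1 : (k : ℂ) * eta D w ^ (k - 1) = k * eta D w ^ k / eta D w := by
      rcases Nat.eq_zero_or_pos k with h | h
      · rw [h]
        simp
      · rw [mul_div_assoc]
        congr 1
        rw [eq_div_iff hθ, ← pow_succ]
        congr 1
        omega
    have e2 : w ^ (D - t) * w ^ (D - 1) = w ^ (D - t - 1) * w ^ D := by
      rw [← pow_add, ← pow_add]
      congr 1
      omega
    have e3 : eta D w ^ (D - 1) * eta D w = 1 - w ^ D := by
      rw [← pow_succ, Nat.sub_add_cancel hD, eta_pow hD]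
    have e4 : eta D w ^ (D - 1) ≠ 0 := pow_ne_zero _ hθ
    rw [e1, ← e3, Nat.cast_sub ht.le]
    field_simp
    linear_combination (-(k : ℂ)) * e2
  rw [← e]
  exact h1

theorem hasDerivAt_Qq_left {D b : ℕ} (hD : 0 < D) {w z : ℂ} (hw : w ∈ Om D) (hz : z ∈ Om D)
    (hne : w ^ D ≠ z ^ D) : HasDerivAt (fun w' => Qz D b w' z) (Qd D b w z) w := by
  have hwz : w ≠ z := fun h => hne (by rw [h])
  have h1 : w - z ≠ 0 := sub_ne_zero.2 hwz
  have h2 : w ^ D - z ^ D ≠ 0 := sub_ne_zero.2 hne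
  have hev : (fun w' => Qz D b w' z) =ᶠ[𝓝 w] fun w' => qsQ D b w' z := by
    have h3 : ∀ᶠ w' in 𝓝 w, w' ^ D ≠ z ^ D :=
      (continuous_pow D).continuousAt.eventually_ne hne
    filter_upwards [h3] with w' hw'
    exact qs_closed hD hz hw'
  refine HasDerivAt.congr_of_eventuallyEq ?_ hev
  have hX : HasDerivAt (fun w' : ℂ => w' ^ D - z ^ D) (D * w ^ (D - 1)) w :=
    (hasDerivAt_pow D w).sub_const _
  have hA : HasDerivAt (fun w' : ℂ => 1 / (w' - z)) (-1 / (w - z) ^ 2) w := by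
    have h3 : HasDerivAt (fun w' : ℂ => (w' - z)⁻¹) (-1 / (w - z) ^ 2) w :=
      ((hasDerivAt_id w).sub_const z).inv h1
    simpa only [one_div] using h3
  have hB : HasDerivAt (fun w' : ℂ => z ^ (D - 1) / (w' ^ D - z ^ D))
      (-(D * w ^ (D - 1) * z ^ (D - 1) / (w ^ D - z ^ D) ^ 2)) w := by
    have h3 := (hX.inv h2).const_mul (z ^ (D - 1))
    have e : z ^ (D - 1) * (-(D * w ^ (D - 1)) / (w ^ D - z ^ D) ^ 2) =
        -(D * w ^ (D - 1) * z ^ (D - 1) / (w ^ D - z ^ D) ^ 2) := by ring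
    rw [e] at h3
    have h4 : HasDerivAt (fun w' : ℂ => z ^ (D - 1) * (w' ^ D - z ^ D)⁻¹)
      (-(D * w ^ (D - 1) * z ^ (D - 1) / (w ^ D - z ^ D) ^ 2)) w := h3
    simpa only [div_eq_mul_inv] using h4
  have hC : HasDerivAt (fun w' : ℂ => ∑ t ∈ Finset.Ico 1 D, z ^ (t - 1) / eta D z ^ kk D b t *
      ((w' ^ (D - t) * eta D w' ^ kk D b t) / (w' ^ D - z ^ D)))
      (∑ t ∈ Finset.Ico 1 D, z ^ (t - 1) * w ^ (D - t - 1) * eta D w ^ kk D b t /
        eta D z ^ kk D b t * ((((D : ℂ) - t) - kk D b t * w ^ D / (1 - w ^ D)) /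
          (w ^ D - z ^ D) - D * w ^ D / (w ^ D - z ^ D) ^ 2)) w := by
    refine HasDerivAt.fun_sum fun t ht => ?_
    rw [Finset.mem_Ico] at ht
    have h3 := ((qs_term (k := kk D b t) hD ht.2 hw).div hX h2).const_mul
      (z ^ (t - 1) / eta D z ^ kk D b t)
    have e2 : w ^ (D - t) * w ^ (D - 1) = w ^ (D - t - 1) * w ^ D := by
      rw [← pow_add, ← pow_add]
      congr 1
      omega
    have e : z ^ (t - 1) / eta D z ^ kk D b t *
        ((w ^ (D - t - 1) * eta D w ^ kk D b t *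
          (((D : ℂ) - t) - kk D b t * w ^ D / (1 - w ^ D)) * (w ^ D - z ^ D) -
          w ^ (D - t) * eta D w ^ kk D b t * (D * w ^ (D - 1))) / (w ^ D - z ^ D) ^ 2) =
        z ^ (t - 1) * w ^ (D - t - 1) * eta D w ^ kk D b t /
        eta D z ^ kk D b t * ((((D : ℂ) - t) - kk D b t * w ^ D / (1 - w ^ D)) /
          (w ^ D - z ^ D) - D * w ^ D / (w ^ D - z ^ D) ^ 2) := by
      have h4 : w ^ (D - t) * eta D w ^ kk D b t * (D * w ^ (D - 1)) =
          w ^ (D - t - 1) * eta D w ^ kk D b t * (D * w ^ D) := by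
        linear_combination (eta D w ^ kk D b t * D) * e2
      rw [h4]
      generalize (((D : ℂ) - t) - kk D b t * w ^ D / (1 - w ^ D)) = A
      have h5 : A / (w ^ D - z ^ D) = A * (w ^ D - z ^ D) / (w ^ D - z ^ D) ^ 2 := by
        field_simp
      rw [h5]
      ring
    rw [← e]
    exact h3
  have hE : HasDerivAt (fun w' : ℂ => ∑ t ∈ Ph D b,
      ((1 - (t : ℂ) / D - (rr D b t : ℂ) / D) / D) * Cc D b (D - t) w' * Ft D b t z)
      (∑ t ∈ Ph D b,
        ((1 - (t : ℂ) / D - (rr D b t : ℂ) / D) / D) * Ft D b (D - t) w * Ft D b t z) w :=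
    HasDerivAt.fun_sum fun t _ => ((hasDerivAt_Cc hD hw).const_mul _).mul_const _
  have h6 := ((hA.sub hB).sub hC).add hE
  rw [sub_neg_eq_add] at h6
  exact h6

private theorem qs_rr {D b t : ℕ} (h0 : 0 < t) (ht : t < D) :
    (D ∣ t * b → rr D b t = 0 ∧ rr D b (D - t) = 0 ∧ kk D b t = 0 ∧ kk D b (D - t) = 0) ∧
    (¬ D ∣ t * b → 0 < rr D b t ∧ rr D b t < D ∧ kk D b t = D - rr D b t ∧
      rr D b (D - t) = D - rr D b t ∧ kk D b (D - t) = rr D b t) := by
  have hD : 0 < D := by omega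
  have h1 : rr D b t < D := Nat.mod_lt _ hD
  have h2 : rr D b (D - t) < D := Nat.mod_lt _ hD
  have h3 : (rr D b (D - t) + rr D b t) % D = 0 := by
    unfold rr
    rw [← Nat.add_mod, ← Nat.add_mul, Nat.sub_add_cancel ht.le]
    exact Nat.mul_mod_right _ _
  have hk1 : kk D b t = (D - rr D b t) % D := rfl
  have hk2 : kk D b (D - t) = (D - rr D b (D - t)) % D := rfl
  constructor
  · intro h
    have h4 : rr D b t = 0 := Nat.mod_eq_zero_of_dvd h
    have h5 : rr D b (D - t) = 0 := by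
      rw [h4, add_zero, Nat.mod_eq_of_lt h2] at h3
      exact h3
    refine ⟨h4, h5, ?_, ?_⟩
    · rw [hk1, h4, Nat.sub_zero, Nat.mod_self]
    · rw [hk2, h5, Nat.sub_zero, Nat.mod_self]
  · intro h
    have h4 : rr D b t ≠ 0 := fun h5 => h (Nat.dvd_of_mod_eq_zero h5)
    have h5 : rr D b (D - t) = D - rr D b t := by
      obtain ⟨c, hc⟩ := Nat.dvd_of_mod_eq_zero h3
      have hc1 : c = 1 := by
        rcases Nat.lt_or_ge c 1 with h6 | h6
        · have : c = 0 := by omega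
          rw [this, mul_zero] at hc
          omega
        · rcases Nat.lt_or_ge c 2 with h7 | h7
          · omega
          · have : D * 2 ≤ D * c := Nat.mul_le_mul_left _ h7
            omega
      rw [hc1, mul_one] at hc
      omega
    refine ⟨by omega, h1, ?_, h5, ?_⟩
    · rw [hk1, Nat.mod_eq_of_lt (by omega)]
    · rw [hk2, h5, Nat.mod_eq_of_lt (by omega)]
      omega

/-- the terms of the first sum in `Qd` -/
private def qsE (D b t : ℕ) (w z : ℂ) : ℂ :=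
  z ^ (t - 1) * w ^ (D - t - 1) * eta D w ^ kk D b t / eta D z ^ kk D b t *
    ((((D : ℂ) - t) - kk D b t * w ^ D / (1 - w ^ D)) / (w ^ D - z ^ D) -
      D * w ^ D / (w ^ D - z ^ D) ^ 2)

private theorem qs_diff {D b t : ℕ} (h0 : 0 < t) (ht : t < D) {w z : ℂ} (hw : w ∈ Om D)
    (hz : z ∈ Om D) (hne : w ^ D ≠ z ^ D) :
    qsE D b t w z - qsE D b (D - t) z w = if D ∣ t * b then 0 else
      -(((1 - (t : ℂ) / D - (rr D b t : ℂ) / D) / D) * Ft D b (D - t) z * Ft D b t w) := by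
  have hD : 0 < D := by omega
  have hDC : (D : ℂ) ≠ 0 := Nat.cast_ne_zero.2 hD.ne'
  have hθ : eta D w ≠ 0 := eta_ne hw
  have hη : eta D z ≠ 0 := eta_ne hz
  have hθD := eta_pow hD w
  have hηD := eta_pow hD z
  have hX1 : 1 - w ^ D ≠ 0 := by
    rw [← hθD]
    exact pow_ne_zero _ hθ
  have hY1 : 1 - z ^ D ≠ 0 := by
    rw [← hηD]
    exact pow_ne_zero _ hη
  have hXY : w ^ D - z ^ D ≠ 0 := sub_ne_zero.2 hne
  have hYX : z ^ D - w ^ D ≠ 0 := sub_ne_zero.2 (Ne.symm hne)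
  have e1 : D - (D - t) - 1 = t - 1 := by omega
  have e2 : D - t - 1 = D - 1 - t := by omega
  have hc : ((D - t : ℕ) : ℂ) = D - t := by rw [Nat.cast_sub ht.le]
  obtain ⟨hr1, hr2⟩ := qs_rr (b := b) h0 ht
  obtain ⟨X, hX⟩ : ∃ X, X = w ^ D := ⟨_, rfl⟩
  obtain ⟨Y, hY⟩ : ∃ Y, Y = z ^ D := ⟨_, rfl⟩
  unfold qsE
  rw [e1, hc]
  rw [← hX] at hθD hX1 hXY hYX ⊢
  rw [← hY] at hηD hY1 hXY hYX ⊢
  split_ifs with h
  · obtain ⟨_, _, h3, h4⟩ := hr1 h
    rw [h3, h4]
    simp only [Nat.cast_zero, zero_mul, zero_div, sub_zero, pow_zero, mul_one, div_one]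
    generalize z ^ (t - 1) = A
    generalize w ^ (D - t - 1) = B
    field_simp
    ring
  · obtain ⟨h3, h4, h5, h6, h7⟩ := hr2 h
    have hkc : (kk D b t : ℂ) = D - rr D b t := by rw [h5, Nat.cast_sub h4.le]
    have hF1 : Ft D b (D - t) z = D * z ^ (t - 1) / eta D z ^ kk D b t := by
      unfold Ft Fe
      rw [h6, h5]
      congr 3
      omega
    have hF2 : Ft D b t w = D * w ^ (D - t - 1) / eta D w ^ rr D b t := by
      unfold Ft Fe
      rw [e2]
    rw [hF1, hF2, h7, hkc, h5]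
    have p1 : eta D w ^ (D - rr D b t) * eta D w ^ rr D b t = 1 - X := by
      rw [← pow_add, Nat.sub_add_cancel h4.le, hθD]
    have p2 : eta D z ^ (D - rr D b t) * eta D z ^ rr D b t = 1 - Y := by
      rw [← pow_add, Nat.sub_add_cancel h4.le, hηD]
    have n1 : eta D w ^ (D - rr D b t) ≠ 0 := pow_ne_zero _ hθ
    have n2 : eta D w ^ rr D b t ≠ 0 := pow_ne_zero _ hθ
    have n3 : eta D z ^ (D - rr D b t) ≠ 0 := pow_ne_zero _ hη
    have n4 : eta D z ^ rr D b t ≠ 0 := pow_ne_zero _ hη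
    generalize eta D w ^ (D - rr D b t) = a at *
    generalize eta D w ^ rr D b t = a' at *
    generalize eta D z ^ (D - rr D b t) = c at *
    generalize eta D z ^ rr D b t = c' at *
    generalize z ^ (t - 1) = A
    generalize w ^ (D - t - 1) = B
    generalize (rr D b t : ℂ) = r
    have q1 : X = 1 - a * a' := by rw [p1]; ring
    have q2 : Y = 1 - c * c' := by rw [p2]; ring
    have q3 : 1 - X = a * a' := p1.symm
    have q4 : 1 - Y = c * c' := p2.symm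
    have q5 : Y - X = -(X - Y) := by ring
    rw [q3, q4, q5]
    have q6 : (D : ℂ) - (D - t) = t := by ring
    rw [q6]
    obtain ⟨Z, hZ⟩ : ∃ Z, Z = X - Y := ⟨_, rfl⟩
    have hZ1 : Z = c * c' - a * a' := by rw [hZ, q1, q2]; ring
    rw [← hZ] at hXY ⊢
    rw [q1, q2]
    field_simp
    rw [hZ1]
    ring

theorem Qd_symm {D b : ℕ} (hD : 3 ≤ D) (hb : 0 < b) (hb2 : b + 1 < D) {w z : ℂ} (hw : w ∈ Om D)
    (hz : z ∈ Om D) (hw0 : w ≠ 0) (hz0 : z ≠ 0) (hne : w ^ D ≠ z ^ D) :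
    Qd D b w z = Qd D b z w := by
  have hD0 : 0 < D := by omega
  have hDC : (D : ℂ) ≠ 0 := Nat.cast_ne_zero.2 hD0.ne'
  obtain ⟨cf, hcf⟩ : ∃ cf : ℕ → ℂ, ∀ t, cf t = (1 - (t : ℂ) / D - (rr D b t : ℂ) / D) / D :=
    ⟨_, fun _ => rfl⟩
  have hQ : ∀ w z : ℂ, Qd D b w z = -1 / (w - z) ^ 2 +
      D * w ^ (D - 1) * z ^ (D - 1) / (w ^ D - z ^ D) ^ 2 - ∑ t ∈ Finset.Ico 1 D, qsE D b t w z +
      ∑ t ∈ Ph D b, cf t * Ft D b (D - t) w * Ft D b t z := by
    intro w z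
    simp only [hcf]
    rfl
  have href : ∑ t ∈ Finset.Ico 1 D, qsE D b t z w = ∑ t ∈ Finset.Ico 1 D, qsE D b (D - t) z w := by
    have h1 := Finset.sum_Ico_reflect (fun t => qsE D b t z w) 1 (m := D) (n := D) (by omega)
    rw [Nat.add_sub_cancel_left, Nat.add_sub_cancel] at h1
    exact h1.symm
  have hdiff : ∑ t ∈ Finset.Ico 1 D, qsE D b t w z - ∑ t ∈ Finset.Ico 1 D, qsE D b t z w =
      -∑ t ∈ Ph D b, (cf t * Ft D b (D - t) z * Ft D b t w -
        cf t * Ft D b t z * Ft D b (D - t) w) := by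
    rw [href, ← Finset.sum_sub_distrib]
    have h2 : ∀ t ∈ Finset.Ico 1 D, qsE D b t w z - qsE D b (D - t) z w =
        -(if ¬ D ∣ t * b ∧ ¬ D ∣ t * (b + 1) then cf t * Ft D b (D - t) z * Ft D b t w else 0) := by
      intro t ht
      rw [Finset.mem_Ico] at ht
      rw [qs_diff ht.1 ht.2 hw hz hne, ← hcf]
      by_cases h3 : D ∣ t * b
      · rw [if_pos h3, if_neg (fun h => h.1 h3), neg_zero]
      · rw [if_neg h3]
        by_cases h4 : D ∣ t * (b + 1)
        · rw [if_neg (fun h => h.2 h4)]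
          have h5 : t + rr D b t = D := by
            obtain ⟨h6, h7, _⟩ := (qs_rr (b := b) ht.1 ht.2).2 h3
            have h8 : (t + rr D b t) % D = 0 := by
              unfold rr
              rw [Nat.add_mod_mod]
              have h9 : t + t * b = t * (b + 1) := by ring
              rw [h9]
              exact Nat.mod_eq_zero_of_dvd h4
            obtain ⟨c, hc⟩ := Nat.dvd_of_mod_eq_zero h8
            have hc1 : c = 1 := by
              rcases Nat.lt_or_ge c 1 with h9 | h9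
              · have : c = 0 := by omega
                rw [this, mul_zero] at hc
                omega
              · rcases Nat.lt_or_ge c 2 with h10 | h10
                · omega
                · have : D * 2 ≤ D * c := Nat.mul_le_mul_left _ h10
                  omega
            rw [hc1, mul_one] at hc
            exact hc
          have h6 : cf t = 0 := by
            have h7 : (t : ℂ) + rr D b t = D := by exact_mod_cast h5
            rw [hcf]
            have h8 : (1 : ℂ) - t / D - rr D b t / D = 0 := by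
              field_simp
              linear_combination (-1 : ℂ) * h7
            rw [h8, zero_div]
          rw [h6]
          simp
        · rw [if_pos ⟨h3, h4⟩]
    rw [Finset.sum_congr rfl h2, Finset.sum_neg_distrib, ← Finset.sum_filter,
      ← sum_Ph hD hb hb2 (fun t => cf t * Ft D b (D - t) z * Ft D b t w)]
    congr 1
    refine Finset.sum_congr rfl fun t ht => ?_
    have ht1 := Ph_pos ht
    have h3 : D - (D - t) = t := by omega
    have h4 : cf (D - t) = -cf t := by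
      rw [hcf, hcf, rr_sub ht, Nat.cast_sub ht1.2.1.le, Nat.cast_sub ht1.2.2.2.le]
      field_simp
      ring
    rw [h3, h4]
    ring
  have hfirst : (-1 : ℂ) / (w - z) ^ 2 = -1 / (z - w) ^ 2 := by
    congr 1
    ring
  have hsec : (D : ℂ) * w ^ (D - 1) * z ^ (D - 1) / (w ^ D - z ^ D) ^ 2 =
      D * z ^ (D - 1) * w ^ (D - 1) / (z ^ D - w ^ D) ^ 2 := by
    have h1 : (w ^ D - z ^ D) ^ 2 = (z ^ D - w ^ D) ^ 2 := by ring
    rw [h1]
    ring
  rw [Finset.sum_sub_distrib] at hdiff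
  rw [hQ w z, hQ z w, hfirst, hsec]
  have h7 : ∑ t ∈ Ph D b, cf t * Ft D b (D - t) w * Ft D b t z =
      ∑ t ∈ Ph D b, cf t * Ft D b t z * Ft D b (D - t) w :=
    Finset.sum_congr rfl fun t _ => by ring
  rw [h7]
  linear_combination (-1 : ℂ) * hdiff

end

end Pool.Agent.RHU
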