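import Pool.Agent.RHU.Qbd
import Pool.Agent.RHU.Qsym

/-!
# RHU-Emu: the multiplier of `E_w`
-/

set_option autoImplicit false

namespace Pool.Agent.RHU

open Complex Finset Filter Topology MeasureTheory

private lemma emu_nonneg {D : ℕ} {r : ℝ} (h0 : 0 ≤ r) (h1 : r ≤ 1) : 0 ≤ 1 - r ^ D := by
  have := pow_le_one₀ h0 h1 (n := D)
  linarith

private lemma emu_pos {D : ℕ} (hD : 0 < D) {r : ℝ} (h0 : 0 < r) (h1 : r < 1) :
    0 < 1 - r ^ D ∧ 1 - r ^ D < 1 := by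
  have h2 := pow_lt_one₀ h0.le h1 hD.ne'
  have h3 : 0 < r ^ D := by positivity
  constructor <;> linarith

private lemma emu_eta {D : ℕ} {r : ℝ} (h0 : 0 ≤ r) (h1 : r ≤ 1) :
    eta D (r : ℂ) = (((1 - r ^ D) ^ ((D : ℝ)⁻¹) : ℝ) : ℂ) := by
  unfold eta
  rw [Complex.ofReal_cpow (emu_nonneg h0 h1)]
  push_cast
  rfl

/-- compactness -/
private lemma emu_cpt {g : ℂ × ℝ → ℂ} {U : Set ℂ} (hU : IsOpen U)
    (hg : ContinuousOn g (U ×ˢ Set.Icc (0 : ℝ) 1)) {w : ℂ} (hw : w ∈ U) :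
    ∃ M : ℝ, 0 ≤ M ∧ ∀ᶠ w' in 𝓝 w, ∀ r : ℝ, 0 ≤ r → r ≤ 1 → ‖g (w', r)‖ ≤ M := by
  obtain ⟨ε, hε, hb⟩ := Metric.nhds_basis_closedBall.mem_iff.1 (hU.mem_nhds hw)
  have hK : IsCompact (Metric.closedBall w ε ×ˢ Set.Icc (0 : ℝ) 1) :=
    (isCompact_closedBall w ε).prod isCompact_Icc
  obtain ⟨M, hM⟩ := hK.exists_bound_of_continuousOn (hg.mono (Set.prod_mono hb subset_rfl))
  refine ⟨max M 0, le_max_right _ _, ?_⟩
  filter_upwards [Metric.closedBall_mem_nhds w hε] with w' hw' r h0 h1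
  exact (hM (w', r) ⟨hw', h0, h1⟩).trans (le_max_left _ _)

/-- bounded by the weight -/
private def EW (D : ℕ) (w : ℂ) (f : ℂ → ℝ → ℂ) : Prop :=
  ∃ M : ℝ, 0 ≤ M ∧ ∀ᶠ w' in 𝓝 w, ∀ r : ℝ, 0 < r → r < 1 →
    ‖f w' r‖ ≤ M * |1 - r ^ D| ^ (-(((D : ℝ) - 1) / D))

private lemma EW.congr {D : ℕ} {w : ℂ} {f g : ℂ → ℝ → ℂ} (h : EW D w f)
    (hfg : ∀ w' r, 0 < r → r < 1 → g w' r = f w' r) : EW D w g := by
  obtain ⟨M, h0, h1⟩ := h
  refine ⟨M, h0, ?_⟩
  filter_upwards [h1] with w' h2 r hr0 hr1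
  rw [hfg w' r hr0 hr1]
  exact h2 r hr0 hr1

private lemma EW.add {D : ℕ} {w : ℂ} {f g : ℂ → ℝ → ℂ} (h : EW D w f) (h' : EW D w g) :
    EW D w (fun w' r => f w' r + g w' r) := by
  obtain ⟨M, h0, h1⟩ := h
  obtain ⟨M', h0', h1'⟩ := h'
  refine ⟨M + M', add_nonneg h0 h0', ?_⟩
  filter_upwards [h1, h1'] with w' h2 h3 r hr0 hr1
  rw [add_mul]
  exact (norm_add_le _ _).trans (add_le_add (h2 r hr0 hr1) (h3 r hr0 hr1))

private lemma EW.neg {D : ℕ} {w : ℂ} {f : ℂ → ℝ → ℂ} (h : EW D w f) :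
    EW D w (fun w' r => -f w' r) := by
  obtain ⟨M, h0, h1⟩ := h
  refine ⟨M, h0, ?_⟩
  filter_upwards [h1] with w' h2 r hr0 hr1
  rw [norm_neg]
  exact h2 r hr0 hr1

private lemma EW.zero {D : ℕ} {w : ℂ} : EW D w (fun _ _ => 0) := by
  refine ⟨0, le_rfl, Eventually.of_forall fun w' r _ _ => ?_⟩
  rw [norm_zero, zero_mul]

private lemma EW.sum {D : ℕ} {w : ℂ} {f : ℕ → ℂ → ℝ → ℂ} (s : Finset ℕ)
    (h : ∀ t ∈ s, EW D w (f t)) : EW D w (fun w' r => ∑ t ∈ s, f t w' r) := by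
  classical
  induction s using Finset.induction_on with
  | empty => simpa using EW.zero
  | insert a s ha ih =>
    simp only [Finset.sum_insert ha]
    exact (h a (Finset.mem_insert_self a s)).add (ih fun t ht => h t (Finset.mem_insert_of_mem ht))

/-- comparison of the weights -/
private lemma emu_weight {D k : ℕ} (hD : 0 < D) (hk : k < D) {r : ℝ} (h0 : 0 < r) (h1 : r < 1) :
    |1 - r ^ D| ^ (-((k : ℝ) / D)) ≤ |1 - r ^ D| ^ (-(((D : ℝ) - 1) / D)) := by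
  obtain ⟨h2, h3⟩ := emu_pos hD h0 h1
  rw [abs_of_pos h2]
  refine Real.rpow_le_rpow_of_exponent_ge h2 h3.le ?_
  have h4 : (k : ℝ) ≤ (D : ℝ) - 1 := by
    have : ((k + 1 : ℕ) : ℝ) ≤ (D : ℝ) := Nat.cast_le.2 hk
    push_cast at this
    linarith
  have h5 : (0 : ℝ) < D := Nat.cast_pos.2 hD
  rw [neg_le_neg_iff]
  exact div_le_div_of_nonneg_right h4 h5.le

private lemma EW.of_div {D k : ℕ} (hD : 0 < D) (hk : k < D) {w : ℂ} {U : Set ℂ} (hU : IsOpen U)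
    (hw : w ∈ U) {g : ℂ × ℝ → ℂ} (hg : ContinuousOn g (U ×ˢ Set.Icc (0 : ℝ) 1)) :
    EW D w (fun w' r => g (w', r) / eta D r ^ k) := by
  obtain ⟨M, h0, h1⟩ := emu_cpt hU hg hw
  refine ⟨M, h0, ?_⟩
  filter_upwards [h1] with w' h2 r hr0 hr1
  have h3 := h2 r hr0.le hr1.le
  obtain ⟨h4, h5⟩ := emu_pos hD hr0 hr1
  rw [norm_div, norm_pow, emu_eta hr0.le hr1.le, Complex.norm_real, Real.norm_eq_abs,
    abs_of_nonneg (Real.rpow_nonneg h4.le _), ← Real.rpow_natCast, ← Real.rpow_mul h4.le]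
  have h6 : (1 - r ^ D) ^ ((D : ℝ)⁻¹ * (k : ℝ)) = (|1 - r ^ D| ^ (-((k : ℝ) / D)))⁻¹ := by
    rw [abs_of_pos h4, Real.rpow_neg h4.le, inv_inv]
    congr 1
    ring
  rw [h6, div_inv_eq_mul]
  exact mul_le_mul h3 (emu_weight hD hk hr0 hr1) (by positivity) h0

private lemma EW.of_bdd {D : ℕ} (hD : 0 < D) {w : ℂ} {U : Set ℂ} (hU : IsOpen U)
    (hw : w ∈ U) {g : ℂ × ℝ → ℂ} (hg : ContinuousOn g (U ×ˢ Set.Icc (0 : ℝ) 1)) :
    EW D w (fun w' r => g (w', r)) :=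
  (EW.of_div hD hD hU hw hg).congr fun w' r _ _ => by rw [pow_zero, div_one]

private lemma EW.of_Ft {D b t : ℕ} (hD : 0 < D) {w : ℂ} {h : ℂ → ℂ} (hh : ContinuousAt h w) :
    EW D w (fun w' r => h w' * Ft D b t r) := by
  have h1 : ∀ᶠ w' in 𝓝 w, ‖h w'‖ < ‖h w‖ + 1 :=
    hh.norm.eventually (gt_mem_nhds (lt_add_one _))
  refine ⟨(‖h w‖ + 1) * D, by positivity, ?_⟩
  filter_upwards [h1] with w' h2 r hr0 hr1
  have hn : ‖(r : ℂ)‖ = r := by rw [Complex.norm_real, Real.norm_eq_abs, abs_of_pos hr0]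
  have h3 := norm_Ft (b := b) (t := t) hD (r : ℂ) (by rw [hn]; exact hr1.ne)
  rw [hn] at h3
  have hrr : rr D b t < D := Nat.mod_lt _ hD
  have h4 := emu_weight hD hrr hr0 hr1
  have h5 : (D : ℝ) * r ^ (D - 1 - t) * |1 - r ^ D| ^ (-((rr D b t : ℝ) / D)) ≤
      D * |1 - r ^ D| ^ (-(((D : ℝ) - 1) / D)) := by
    have h6 : r ^ (D - 1 - t) ≤ 1 := pow_le_one₀ hr0.le hr1.le
    have h7 : (D : ℝ) * r ^ (D - 1 - t) ≤ D := by
      have : (0 : ℝ) ≤ D := Nat.cast_nonneg D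
      nlinarith
    exact mul_le_mul h7 h4 (by positivity) (by positivity)
  rw [norm_mul, mul_assoc]
  exact mul_le_mul h2.le (h3.trans h5) (norm_nonneg _) (by positivity)

private lemma emu_beta {D : ℕ} (hD : 0 < D) : 0 ≤ ((D : ℝ) - 1) / D ∧ ((D : ℝ) - 1) / D < 1 := by
  have h1 : (1 : ℝ) ≤ D := by exact_mod_cast hD
  have h2 : (0 : ℝ) < D := by linarith
  constructor
  · exact div_nonneg (by linarith) h2.le
  · rw [div_lt_one h2]
    linarith

private lemma emu_openU (D : ℕ) : IsOpen {w : ℂ | (w ^ D).im ≠ 0} :=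
  isOpen_ne_fun (Complex.continuous_im.comp (continuous_pow D)) continuous_const

private lemma emu_ne {D : ℕ} {w : ℂ} (hw : (w ^ D).im ≠ 0) (r : ℝ) : w ^ D ≠ (r : ℂ) ^ D := by
  intro h
  rw [h, ← Complex.ofReal_pow, Complex.ofReal_im] at hw
  exact hw rfl

private lemma emu_ne' {D : ℕ} {w : ℂ} (hw : (w ^ D).im ≠ 0) (r : ℝ) : w ≠ (r : ℂ) := by
  intro h
  exact emu_ne hw r (by rw [h])

theorem norm_Qd_le {D b : ℕ} (hD : 3 ≤ D) {w : ℂ} (hw : (w ^ D).im ≠ 0) :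
    ∃ M β : ℝ, 0 ≤ β ∧ β < 1 ∧ ∀ᶠ w' in 𝓝 w, ∀ r : ℝ, 0 < r → r < 1 →
      ‖Qd D b w' r‖ ≤ M * |1 - r ^ D| ^ (-β) := by
  have hD0 : 0 < D := by omega
  have hwO : w ∈ Om D := mem_Om_of_im hw
  have c1 : ContinuousOn (fun p : ℂ × ℝ => p.1) ({w : ℂ | (w ^ D).im ≠ 0} ×ˢ Set.Icc (0 : ℝ) 1) :=
    continuous_fst.continuousOn
  have c2 : ContinuousOn (fun p : ℂ × ℝ => (p.2 : ℂ))
      ({w : ℂ | (w ^ D).im ≠ 0} ×ˢ Set.Icc (0 : ℝ) 1) :=
    (Complex.continuous_ofReal.comp continuous_snd).continuousOn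
  have ce : ContinuousOn (fun p : ℂ × ℝ => eta D p.1)
      ({w : ℂ | (w ^ D).im ≠ 0} ×ˢ Set.Icc (0 : ℝ) 1) :=
    (differentiableOn_eta hD0).continuousOn.comp c1 fun p hp => mem_Om_of_im hp.1
  have n1 : ∀ p ∈ ({w : ℂ | (w ^ D).im ≠ 0} ×ˢ Set.Icc (0 : ℝ) 1), p.1 ^ D - (p.2 : ℂ) ^ D ≠ 0 :=
    fun p hp => sub_ne_zero.2 (emu_ne hp.1 p.2)
  have n2 : ∀ p ∈ ({w : ℂ | (w ^ D).im ≠ 0} ×ˢ Set.Icc (0 : ℝ) 1), p.1 - (p.2 : ℂ) ≠ 0 :=
    fun p hp => sub_ne_zero.2 (emu_ne' hp.1 p.2)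
  have n3 : ∀ p ∈ ({w : ℂ | (w ^ D).im ≠ 0} ×ˢ Set.Icc (0 : ℝ) 1), 1 - p.1 ^ D ≠ 0 := by
    intro p hp h
    have := emu_ne hp.1 1
    rw [Complex.ofReal_one, one_pow] at this
    exact this (sub_eq_zero.1 h).symm
  -- the first two terms
  have e0 : EW D w (fun w' r => -1 / (w' - (r : ℂ)) ^ 2 +
      D * w' ^ (D - 1) * (r : ℂ) ^ (D - 1) / (w' ^ D - (r : ℂ) ^ D) ^ 2) := by
    refine EW.of_bdd hD0 (emu_openU D) hw (g := fun p => -1 / (p.1 - (p.2 : ℂ)) ^ 2 +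
      D * p.1 ^ (D - 1) * (p.2 : ℂ) ^ (D - 1) / (p.1 ^ D - (p.2 : ℂ) ^ D) ^ 2) ?_
    refine ContinuousOn.add (ContinuousOn.div continuousOn_const ((c1.sub c2).pow 2)
      fun p hp => pow_ne_zero 2 (n2 p hp)) (ContinuousOn.div ((continuousOn_const.mul
        (c1.pow _)).mul (c2.pow _)) (((c1.pow D).sub (c2.pow D)).pow 2)
      fun p hp => pow_ne_zero 2 (n1 p hp))
  have e1 : ∀ t ∈ Finset.Ico 1 D, EW D w (fun w' r => -((r : ℂ) ^ (t - 1) * w' ^ (D - t - 1) *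
      eta D w' ^ kk D b t / eta D r ^ kk D b t *
      ((((D : ℂ) - t) - kk D b t * w' ^ D / (1 - w' ^ D)) / (w' ^ D - (r : ℂ) ^ D) -
        D * w' ^ D / (w' ^ D - (r : ℂ) ^ D) ^ 2))) := by
    intro t _
    have hk : kk D b t < D := Nat.mod_lt _ hD0
    refine EW.neg ?_
    refine (EW.of_div hD0 hk (emu_openU D) hw (g := fun p => (p.2 : ℂ) ^ (t - 1) *
      p.1 ^ (D - t - 1) * eta D p.1 ^ kk D b t *
      ((((D : ℂ) - t) - kk D b t * p.1 ^ D / (1 - p.1 ^ D)) / (p.1 ^ D - (p.2 : ℂ) ^ D) -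
        D * p.1 ^ D / (p.1 ^ D - (p.2 : ℂ) ^ D) ^ 2)) ?_).congr ?_
    · refine (((c2.pow _).mul (c1.pow _)).mul (ce.pow _)).mul (ContinuousOn.sub
        (ContinuousOn.div (continuousOn_const.sub (ContinuousOn.div
          (continuousOn_const.mul (c1.pow D)) (continuousOn_const.sub (c1.pow D)) n3))
          ((c1.pow D).sub (c2.pow D)) n1)
        (ContinuousOn.div (continuousOn_const.mul (c1.pow D)) (((c1.pow D).sub (c2.pow D)).pow 2)
          fun p hp => pow_ne_zero 2 (n1 p hp)))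
    · intro w' r _ _
      exact div_mul_eq_mul_div _ _ _
  have e2 : ∀ t ∈ Ph D b, EW D w (fun w' r => ((1 - (t : ℂ) / D - (rr D b t : ℂ) / D) / D) *
      Ft D b (D - t) w' * Ft D b t r) := by
    intro t _
    exact EW.of_Ft hD0 (continuousAt_const.mul
      (((differentiableOn_Ft hD0).differentiableAt ((isOpen_Om D).mem_nhds hwO)).continuousAt))
  obtain ⟨M, -, hM⟩ := (e0.add (EW.sum _ e1)).add (EW.sum _ e2)
  refine ⟨M, ((D : ℝ) - 1) / D, (emu_beta hD0).1, (emu_beta hD0).2, ?_⟩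
  filter_upwards [hM] with w' h2 r hr0 hr1
  have h3 := h2 r hr0 hr1
  rw [Finset.sum_neg_distrib] at h3
  exact h3

private lemma emu_nm_cont (k : ℕ) : Continuous (fun p : ℂ × ℂ => Nm k p.1 p.2) := by
  unfold Nm
  exact continuous_finsetSum _ fun i _ => (continuous_fst.pow _).mul (continuous_snd.pow _)

/-- the real function `η` -/
private noncomputable def ee (D : ℕ) (r : ℝ) : ℂ := (((1 - r ^ D) ^ ((D : ℝ)⁻¹) : ℝ) : ℂ)

private lemma ee_cont {D : ℕ} : Continuous (ee D) := by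
  unfold ee
  refine Complex.continuous_ofReal.comp ?_
  exact (continuous_const.sub (continuous_pow D)).rpow_const fun x => Or.inr (by positivity)

private lemma ee_one {D : ℕ} (hD : 0 < D) : ee D 1 = 0 := by
  unfold ee
  have h : ((D : ℝ)⁻¹) ≠ 0 := inv_ne_zero (Nat.cast_ne_zero.2 hD.ne')
  rw [one_pow, sub_self, Real.zero_rpow h, Complex.ofReal_zero]

private lemma ee_arg {D : ℕ} {r : ℝ} (h0 : 0 ≤ r) (h1 : r ≤ 1) : |arg (ee D r)| ≤ Real.pi / D := by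
  unfold ee
  rw [Complex.arg_ofReal_of_nonneg (Real.rpow_nonneg (emu_nonneg h0 h1) _), abs_zero]
  exact div_nonneg Real.pi_pos.le (Nat.cast_nonneg D)

private lemma emu_theta {D : ℕ} (hD : 0 < D) :
    Tendsto (fun r : ℝ => eta D (r : ℂ)) (𝓝[<] 1) (𝓝 0) := by
  have h1 : Tendsto (ee D) (𝓝[<] 1) (𝓝 0) := by
    have h2 := (ee_cont (D := D)).tendsto 1
    rw [ee_one hD] at h2
    exact h2.mono_left nhdsWithin_le_nhds
  refine h1.congr' ?_
  filter_upwards [Ioo_mem_nhdsLT (zero_lt_one' ℝ)] with r hr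
  exact (emu_eta hr.1.le hr.2.le).symm

theorem Qq_tendsto_one {D b : ℕ} (hD : 3 ≤ D) {w : ℂ} (hw : (w ^ D).im ≠ 0) :
    Tendsto (fun r : ℝ => Qz D b r w) (𝓝[<] 1)
      (𝓝 (∑ t ∈ (Finset.Ico 1 D).filter (fun t => kk D b t ≠ 0), w ^ (t - 1) / (1 - w ^ D) +
        ∑ t ∈ Ph D b, ((1 - (t : ℂ) / D - (rr D b t : ℂ) / D) / D) * Bt D b (D - t) *
          Ft D b t w)) := by
  have hD0 : 0 < D := by omega
  have hwO : w ∈ Om D := mem_Om_of_im hw
  have hη := eta_ne hwO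
  have hηD := eta_pow hD0 w
  have hr1 : Tendsto (fun r : ℝ => (r : ℂ)) (𝓝[<] 1) (𝓝 1) := by
    have h := (Complex.continuous_ofReal.tendsto 1).mono_left
      (nhdsWithin_le_nhds (s := Set.Iio (1 : ℝ)))
    rw [Complex.ofReal_one] at h
    exact h
  have hN : ∀ k, Tendsto (fun r : ℝ => Nm k (eta D (r : ℂ)) (eta D w)) (𝓝[<] 1)
      (𝓝 (Nm k 0 (eta D w))) := by
    intro k
    have h1 : Continuous (fun x : ℂ => Nm k x (eta D w)) :=
      (emu_nm_cont k).comp (continuous_id.prodMk continuous_const)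
    exact (h1.tendsto 0).comp (emu_theta hD0)
  have hND : Nm D 0 (eta D w) = eta D w ^ (D - 1) := nm_zero_left hD0 _
  have hNDne : ∀ k, eta D w ^ k * Nm D 0 (eta D w) ≠ 0 := fun k => by
    rw [hND]
    exact mul_ne_zero (pow_ne_zero _ hη) (pow_ne_zero _ hη)
  have hfirst : Tendsto (fun r : ℝ => Qa D b r (eta D r) w (eta D w)) (𝓝[<] 1)
      (𝓝 (∑ t ∈ (Finset.Ico 1 D).filter (fun t => kk D b t ≠ 0), w ^ (t - 1) / (1 - w ^ D))) := by
    have hval : ∑ t ∈ (Finset.Ico 1 D).filter (fun t => kk D b t ≠ 0),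
        w ^ (t - 1) / (1 - w ^ D) = ∑ t ∈ Finset.Ico 1 D, w ^ (t - 1) * 1 ^ (D - t) *
          Nm (kk D b t) 0 (eta D w) / (eta D w ^ kk D b t * Nm D 0 (eta D w)) := by
      rw [Finset.sum_filter]
      refine Finset.sum_congr rfl fun t _ => ?_
      split_ifs with hk
      · rw [nm_zero_left (Nat.pos_of_ne_zero hk), hND, one_pow, mul_one, ← hηD]
        have e1 : eta D w ^ kk D b t = eta D w ^ (kk D b t - 1) * eta D w := by
          rw [← pow_succ, Nat.sub_add_cancel (Nat.pos_of_ne_zero hk)]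
        have e2 : eta D w ^ D = eta D w ^ (D - 1) * eta D w := by
          rw [← pow_succ, Nat.sub_add_cancel hD0]
        rw [e1, e2]
        field_simp
      · rw [not_not] at hk
        rw [hk]
        simp [Nm]
    rw [hval]
    unfold Qa
    refine tendsto_finsetSum _ fun t _ => ?_
    exact ((tendsto_const_nhds.mul (hr1.pow _)).mul (hN _)).div
      (tendsto_const_nhds.mul (hN D)) (hNDne _)
  have hsecond : Tendsto (fun r : ℝ => ∑ t ∈ Ph D b, ((1 - (t : ℂ) / D - (rr D b t : ℂ) / D) / D) *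
      Cc D b (D - t) r * Fe D b t w (eta D w)) (𝓝[<] 1)
      (𝓝 (∑ t ∈ Ph D b, ((1 - (t : ℂ) / D - (rr D b t : ℂ) / D) / D) * Bt D b (D - t) *
          Ft D b t w)) := by
    refine tendsto_finsetSum _ fun t ht => ?_
    obtain ⟨h1, h2, -, -⟩ := Ph_pos ht
    have h3 := Cc_tendsto_one (b := b) (t := D - t) hD0 (by omega)
    rw [Cc_one hD0 (by omega) (by omega)] at h3
    exact (tendsto_const_nhds.mul h3).mul tendsto_const_nhds
  exact hfirst.add hsecond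

private lemma emu_Qq_zero {D b : ℕ} (z : ℂ) : Qz D b 0 z = 0 := by
  unfold Qz Qe Qa
  rw [Finset.sum_eq_zero, Finset.sum_eq_zero, add_zero]
  · intro t _
    unfold Cc
    rw [prim_zero, mul_zero, zero_mul]
  · intro t ht
    rw [Finset.mem_Ico] at ht
    have h : D - t ≠ 0 := by omega
    rw [zero_pow h, mul_zero, zero_mul, zero_div]

private lemma emu_real_Om {D : ℕ} (hD : 0 < D) {r : ℝ} (h0 : 0 ≤ r) (h1 : r < 1) :
    (r : ℂ) ∈ Om D := by
  refine mem_Om_of_norm hD ?_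
  rw [Complex.norm_real, Real.norm_eq_abs, abs_of_nonneg h0]
  exact h1

private lemma emu_meas {f : ℝ → ℂ} (hf : ContinuousOn f (Set.Ioo (0 : ℝ) 1)) :
    AEStronglyMeasurable f (volume.restrict (Set.uIoc (0 : ℝ) 1)) := by
  rw [Set.uIoc_of_le zero_le_one, ← MeasureTheory.restrict_Ioo_eq_restrict_Ioc]
  exact hf.aestronglyMeasurable measurableSet_Ioo

private lemma emu_ae : ∀ᵐ r : ℝ ∂volume, r ∈ Set.uIoc (0 : ℝ) 1 → 0 < r ∧ r < 1 := by
  have h : ∀ᵐ r : ℝ ∂volume, r ≠ 1 := by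
    rw [MeasureTheory.ae_iff]
    simp
  filter_upwards [h] with r hr hr2
  rw [Set.uIoc_of_le zero_le_one] at hr2
  exact ⟨hr2.1, lt_of_le_of_ne hr2.2 hr⟩

private lemma emu_int {D : ℕ} (hD : 0 < D) {β M : ℝ} (hβ0 : 0 ≤ β) (hβ : β < 1) {f : ℝ → ℂ}
    (hf : ContinuousOn f (Set.Ioo (0 : ℝ) 1))
    (hb : ∀ r : ℝ, 0 < r → r < 1 → ‖f r‖ ≤ M * |1 - r ^ D| ^ (-β)) :
    IntervalIntegrable f volume 0 1 := by
  refine ((intervalIntegrable_mod hD hβ0 hβ 0 1 le_rfl zero_le_one).const_mul M).mono_fun'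
    (emu_meas hf) ?_
  refine (ae_restrict_iff' measurableSet_uIoc).2 ?_
  filter_upwards [emu_ae] with r hr hr2
  exact hb r (hr hr2).1 (hr hr2).2

private lemma emu_Qq_cont {D b : ℕ} (hD : 0 < D) {w : ℂ} (hw : w ∈ Om D) :
    ContinuousOn (fun r : ℝ => Qz D b w r) (Set.Ioo (0 : ℝ) 1) :=
  (differentiableOn_Qq hD hw).continuousOn.comp Complex.continuous_ofReal.continuousOn
    fun _ hr => emu_real_Om hD hr.1.le hr.2

private lemma emu_Qd_cont {D b : ℕ} (hD : 0 < D) {w : ℂ} (hw : (w ^ D).im ≠ 0) :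
    ContinuousOn (fun r : ℝ => Qd D b w r) (Set.Ioo (0 : ℝ) 1) := by
  have c2 : ContinuousOn (fun r : ℝ => (r : ℂ)) (Set.Ioo (0 : ℝ) 1) :=
    Complex.continuous_ofReal.continuousOn
  have hm : Set.MapsTo (fun r : ℝ => (r : ℂ)) (Set.Ioo (0 : ℝ) 1) (Om D) :=
    fun _ hr => emu_real_Om hD hr.1.le hr.2
  have ce : ContinuousOn (fun r : ℝ => eta D (r : ℂ)) (Set.Ioo (0 : ℝ) 1) :=
    (differentiableOn_eta hD).continuousOn.comp c2 hm
  have cF : ∀ t, ContinuousOn (fun r : ℝ => Ft D b t (r : ℂ)) (Set.Ioo (0 : ℝ) 1) := fun t =>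
    (differentiableOn_Ft hD).continuousOn.comp c2 hm
  have n1 : ∀ r ∈ Set.Ioo (0 : ℝ) 1, w ^ D - (r : ℂ) ^ D ≠ 0 :=
    fun r _ => sub_ne_zero.2 (emu_ne hw r)
  have n2 : ∀ r ∈ Set.Ioo (0 : ℝ) 1, w - (r : ℂ) ≠ 0 := fun r _ => sub_ne_zero.2 (emu_ne' hw r)
  unfold Qd
  refine ContinuousOn.add (ContinuousOn.sub (ContinuousOn.add (ContinuousOn.div continuousOn_const
    ((continuousOn_const.sub c2).pow 2) fun r hr => pow_ne_zero 2 (n2 r hr))
    (ContinuousOn.div (continuousOn_const.mul (c2.pow _))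
      ((continuousOn_const.sub (c2.pow D)).pow 2) fun r hr => pow_ne_zero 2 (n1 r hr)))
    (continuousOn_finsetSum _ fun t _ => ?_)) (continuousOn_finsetSum _ fun t _ => ?_)
  · refine ContinuousOn.mul (ContinuousOn.div (((c2.pow _).mul continuousOn_const).mul
      continuousOn_const) (ce.pow _) fun r hr => pow_ne_zero _ (eta_ne (hm hr))) ?_
    exact ContinuousOn.sub (ContinuousOn.div continuousOn_const
      (continuousOn_const.sub (c2.pow D)) n1) (ContinuousOn.div continuousOn_const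
      ((continuousOn_const.sub (c2.pow D)).pow 2) fun r hr => pow_ne_zero 2 (n1 r hr))
  · exact continuousOn_const.mul (cF t)

/-- the kernel is bounded by the weight, uniformly in `w` near a point of `Om D` -/
private lemma emu_Qq_EW {D b : ℕ} (hD : 0 < D) {w : ℂ} (hw : w ∈ Om D) :
    EW D w (fun w' r => Qz D b w' r) := by
  have c1 : ContinuousOn (fun p : ℂ × ℝ => p.1) (Om D ×ˢ Set.Icc (0 : ℝ) 1) :=
    continuous_fst.continuousOn
  have c2 : ContinuousOn (fun p : ℂ × ℝ => (p.2 : ℂ)) (Om D ×ˢ Set.Icc (0 : ℝ) 1) :=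
    (Complex.continuous_ofReal.comp continuous_snd).continuousOn
  have ce : ContinuousOn (fun p : ℂ × ℝ => eta D p.1) (Om D ×ˢ Set.Icc (0 : ℝ) 1) :=
    (differentiableOn_eta hD).continuousOn.comp c1 fun p hp => hp.1
  have c3 : ContinuousOn (fun p : ℂ × ℝ => ee D p.2) (Om D ×ˢ Set.Icc (0 : ℝ) 1) :=
    (ee_cont.comp continuous_snd).continuousOn
  have cN : ∀ k, ContinuousOn (fun p : ℂ × ℝ => Nm k (eta D p.1) (ee D p.2))
      (Om D ×ˢ Set.Icc (0 : ℝ) 1) := by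
    intro k
    unfold Nm
    exact continuousOn_finsetSum _ fun i _ => (ce.pow _).mul (c3.pow _)
  have e1 : ∀ t ∈ Finset.Ico 1 D, EW D w (fun w' r => (r : ℂ) ^ (t - 1) * w' ^ (D - t) *
      Nm (kk D b t) (eta D w') (eta D r) / (eta D r ^ kk D b t * Nm D (eta D w') (eta D r))) := by
    intro t _
    have hk : kk D b t < D := Nat.mod_lt _ hD
    refine (EW.of_div hD hk (isOpen_Om D) hw (g := fun p => (p.2 : ℂ) ^ (t - 1) * p.1 ^ (D - t) *
      Nm (kk D b t) (eta D p.1) (ee D p.2) / Nm D (eta D p.1) (ee D p.2)) ?_).congr ?_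
    · exact ((((c2.pow _).mul (c1.pow _)).mul (cN _)).div (cN D)
        fun p hp => nm_ne hD (eta_ne hp.1) (arg_eta hD hp.1) (ee_arg hp.2.1 hp.2.2))
    · intro w' r h0 h1
      have h2 : ee D r = eta D r := (emu_eta h0.le h1.le).symm
      simp only [h2]
      exact div_mul_eq_div_div_swap _ _ _
  have e2 : ∀ t ∈ Ph D b, EW D w (fun w' r => ((1 - (t : ℂ) / D - (rr D b t : ℂ) / D) / D) *
      Cc D b (D - t) w' * Ft D b t r) := by
    intro t _
    exact EW.of_Ft hD (continuousAt_const.mul (hasDerivAt_Cc hD hw).continuousAt)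
  exact (EW.sum _ e1).add (EW.sum _ e2)

theorem deriv_L {D b : ℕ} (hD : 3 ≤ D) (hb : 0 < b) (hb2 : b + 1 < D) {w : ℂ}
    (hw : (w ^ D).im ≠ 0) :
    HasDerivAt (fun w' => Prim (Qz D b w') 1)
      (∑ t ∈ (Finset.Ico 1 D).filter (fun t => kk D b t ≠ 0), w ^ (t - 1) / (1 - w ^ D) +
        ∑ t ∈ Ph D b, ((1 - (t : ℂ) / D - (rr D b t : ℂ) / D) / D) * Bt D b (D - t) *
          Ft D b t w) w := by
  have hD0 : 0 < D := by omega
  have hwO : w ∈ Om D := mem_Om_of_im hw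
  have hw0 : w ≠ 0 := by
    intro h
    rw [h, zero_pow hD0.ne'] at hw
    exact hw rfl
  obtain ⟨M, β, hβ0, hβ1, hM⟩ := norm_Qd_le (b := b) hD hw
  have hU : ∀ᶠ w' in 𝓝 w, (w' ^ D).im ≠ 0 := (emu_openU D).mem_nhds hw
  obtain ⟨s, hs, hs2⟩ : ∃ s ∈ 𝓝 w, ∀ w' ∈ s, (w' ^ D).im ≠ 0 ∧ ∀ r : ℝ, 0 < r → r < 1 →
      ‖Qd D b w' r‖ ≤ M * |1 - r ^ D| ^ (-β) := ⟨_, hU.and hM, fun w' h => h⟩
  obtain ⟨M2, -, hM2⟩ := emu_Qq_EW (b := b) hD0 hwO
  have hM2w := hM2.self_of_nhds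
  have key := intervalIntegral.hasDerivAt_integral_of_dominated_loc_of_deriv_le (μ := volume)
    (a := 0) (b := 1) (F := fun w' r => Qz D b w' r) (F' := fun w' r => Qd D b w' r) (x₀ := w)
    (bound := fun r => M * |1 - r ^ D| ^ (-β)) hs
    (by
      filter_upwards [(isOpen_Om D).mem_nhds hwO] with w' hw'
      exact emu_meas (emu_Qq_cont hD0 hw'))
    (emu_int hD0 (emu_beta hD0).1 (emu_beta hD0).2 (emu_Qq_cont hD0 hwO) hM2w)
    (emu_meas (emu_Qd_cont hD0 hw))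
    (by
      filter_upwards [emu_ae] with r hr hr2 w' hw'
      exact (hs2 w' hw').2 r (hr hr2).1 (hr hr2).2)
    ((intervalIntegrable_mod hD0 hβ0 hβ1 0 1 le_rfl zero_le_one).const_mul M)
    (by
      filter_upwards [emu_ae] with r hr hr2 w' hw'
      obtain ⟨h0, h1⟩ := hr hr2
      exact hasDerivAt_Qq_left hD0 (mem_Om_of_im (hs2 w' hw').1) (emu_real_Om hD0 h0.le h1)
        (emu_ne (hs2 w' hw').1 r))
  obtain ⟨hint, hder⟩ := key
  -- the value of the derivative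
  have hsym : ∀ r : ℝ, 0 < r → r < 1 → Qd D b w r = Qd D b r w := fun r h0 h1 =>
    Qd_symm hD hb hb2 hwO (emu_real_Om hD0 h0.le h1) hw0 (Complex.ofReal_ne_zero.2 h0.ne')
      (emu_ne hw r)
  have hint2 : IntervalIntegrable (fun r : ℝ => Qd D b r w) volume 0 1 := by
    refine hint.congr_ae ?_
    refine (ae_restrict_iff' measurableSet_uIoc).2 ?_
    filter_upwards [emu_ae] with r hr hr2
    exact hsym r (hr hr2).1 (hr hr2).2
  have hftc := intervalIntegral.integral_eq_sub_of_hasDerivAt_of_tendsto (zero_lt_one' ℝ)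
    (f := fun r : ℝ => Qz D b r w) (f' := fun r : ℝ => Qd D b r w)
    (fun r hr => (hasDerivAt_Qq_left hD0 (emu_real_Om hD0 hr.1.le hr.2) hwO
      (emu_ne hw r).symm).comp_ofReal) hint2 (fa := 0)
    (by
      have h1 : ContinuousAt (fun w' => Qz D b w' w) 0 :=
        (hasDerivAt_Qq_left hD0 (zero_mem_Om hD0) hwO (by
          rw [zero_pow hD0.ne']
          exact (pow_ne_zero D hw0).symm)).continuousAt
      have h2 : Tendsto (fun r : ℝ => (r : ℂ)) (𝓝[>] 0) (𝓝 0) := by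
        have h := (Complex.continuous_ofReal.tendsto 0).mono_left
          (nhdsWithin_le_nhds (s := Set.Ioi (0 : ℝ)))
        rw [Complex.ofReal_zero] at h
        exact h
      have h3 := h1.tendsto.comp h2
      rw [emu_Qq_zero] at h3
      exact h3) (Qq_tendsto_one hD hw)
  rw [sub_zero] at hftc
  rw [← hftc]
  have heq : ∫ r in (0 : ℝ)..1, Qd D b r w = ∫ r in (0 : ℝ)..1, Qd D b w r := by
    refine intervalIntegral.integral_congr_ae ?_
    filter_upwards [emu_ae] with r hr hr2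
    exact (hsym r (hr hr2).1 (hr hr2).2).symm
  rw [heq]
  refine hder.congr_of_eventuallyEq (Eventually.of_forall fun w' => ?_)
  exact prim_one _

theorem L_zero {D b : ℕ} (hD : 3 ≤ D) {w : ℂ} (hw : (w ^ D).im ≠ 0) :
    Tendsto (fun τ : ℝ => Prim (Qz D b (τ * w)) 1) (𝓝[>] 0) (𝓝 0) := by
  have hD0 : 0 < D := by omega
  have hO := zero_mem_Om hD0
  obtain ⟨M, -, hM⟩ := emu_Qq_EW (b := b) hD0 hO
  have hc : ContinuousAt (fun w' : ℂ => ∫ r in (0 : ℝ)..1, Qz D b w' r) 0 := by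
    refine intervalIntegral.continuousAt_of_dominated_interval (μ := volume)
      (bound := fun r => M * |1 - r ^ D| ^ (-(((D : ℝ) - 1) / D))) ?_ ?_ ?_ ?_
    · filter_upwards [(isOpen_Om D).mem_nhds hO] with w' hw'
      exact emu_meas (emu_Qq_cont hD0 hw')
    · filter_upwards [hM] with w' hw'
      filter_upwards [emu_ae] with r hr hr2
      exact hw' r (hr hr2).1 (hr hr2).2
    · exact (intervalIntegrable_mod hD0 (emu_beta hD0).1 (emu_beta hD0).2 0 1 le_rfl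
        zero_le_one).const_mul M
    · filter_upwards [emu_ae] with r hr hr2
      obtain ⟨h0, h1⟩ := hr hr2
      exact (hasDerivAt_Qq_left hD0 hO (emu_real_Om hD0 h0.le h1) (by
        rw [zero_pow hD0.ne']
        exact (pow_ne_zero D (Complex.ofReal_ne_zero.2 h0.ne')).symm)).continuousAt
  have h0 : ∫ r in (0 : ℝ)..1, Qz D b 0 r = 0 := by
    have : (fun r : ℝ => Qz D b 0 r) = fun _ => 0 := funext fun r => emu_Qq_zero _
    rw [this, intervalIntegral.integral_zero]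
  have h2 : Tendsto (fun τ : ℝ => (τ : ℂ) * w) (𝓝[>] 0) (𝓝 0) := by
    have h : Tendsto (fun τ : ℝ => (τ : ℂ) * w) (𝓝 0) (𝓝 (((0 : ℝ) : ℂ) * w)) :=
      (Complex.continuous_ofReal.mul continuous_const).tendsto 0
    rw [Complex.ofReal_zero, zero_mul] at h
    exact h.mono_left nhdsWithin_le_nhds
  have h3 := hc.tendsto.comp h2
  simp only [h0] at h3
  refine h3.congr fun τ => ?_
  exact (prim_one _).symm

end Pool.Agent.RHU
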