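import Pool.Agent.RHU.Emu

/-!
# RHU-Emu2: the multiplier of `E_w`, conclusion

PLAN. See the second half of the plan of `Emu`.
-/

set_option autoImplicit false

namespace Pool.Agent.RHU

open Complex Finset Filter Topology MeasureTheory

noncomputable section

/-- the value of the derivative of `L` -/
def Ldv (D b : ℕ) (w : ℂ) : ℂ :=
  ∑ t ∈ (Finset.Ico 1 D).filter (fun t => kk D b t ≠ 0), w ^ (t - 1) / (1 - w ^ D) +
        ∑ t ∈ Ph D b, ((1 - (t : ℂ) / D - (rr D b t : ℂ) / D) / D) * Bt D b (D - t) *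
          Ft D b t w

/-- the sum of the exponent -/
def Smu (D b : ℕ) (z : ℂ) : ℂ :=
  Real.pi * ∑ t ∈ Ph D b, ((ga D b t / Bt D b t : ℝ) : ℂ) * Cc D b t z * (ze D ^ (t * b) - 1)

/-- its derivative -/
def Sdv (D b : ℕ) (z : ℂ) : ℂ :=
  Real.pi * ∑ t ∈ Ph D b, ((ga D b t / Bt D b t : ℝ) : ℂ) * Ft D b t z * (ze D ^ (t * b) - 1)

theorem hasDerivAt_Smu {D b : ℕ} (hD : 0 < D) {z : ℂ} (hz : z ∈ Om D) :
    HasDerivAt (Smu D b) (Sdv D b z) z := by
  unfold Smu Sdv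
  apply HasDerivAt.const_mul
  apply HasDerivAt.fun_sum
  intro t ht
  exact ((hasDerivAt_Cc hD hz).const_mul _).mul_const _

theorem om_pow_kk {D b t : ℕ} (hD : 0 < D) (h : kk D b t = 0) : om D ^ (b * t) = 1 := by
  have h1 : (t * b) % D = 0 := by
    unfold kk at h
    have h2 : (t * b) % D < D := Nat.mod_lt _ hD
    by_contra h3
    have h4 : D - (t * b) % D < D := by omega
    rw [Nat.mod_eq_of_lt h4] at h
    omega
  obtain ⟨q, hq⟩ := Nat.dvd_of_mod_eq_zero h1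
  rw [mul_comm b t, hq, pow_mul, om_pow D hD, one_pow]

theorem om_pow_sub {D b t : ℕ} (hD : 0 < D) (ht : t ≤ D) :
    (om D ^ b) ^ (D - t) = ze D ^ (t * b) := by
  have h1 : (om D ^ b) ^ (D - t) * (om D ^ b) ^ t = 1 := by
    rw [← pow_add, Nat.sub_add_cancel ht, ← pow_mul, mul_comm b D, pow_mul, om_pow D hD, one_pow]
  have h2 : ze D ^ (t * b) * (om D ^ b) ^ t = 1 := by
    rw [← pow_mul, mul_comm b t, ← mul_pow, mul_comm (ze D), om_mul_ze, one_pow]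
  have h3 : (om D ^ b) ^ t ≠ 0 := by
    intro h
    rw [h, mul_zero] at h1
    exact zero_ne_one h1
  exact mul_right_cancel₀ h3 (h1.trans h2.symm)

theorem geo_div {D : ℕ} {v : ℂ} (h1 : 1 - v ≠ 0) (hD : 1 - v ^ D ≠ 0) :
    v / (1 - v) = ∑ t ∈ Finset.Ico 1 (D + 1), v ^ t / (1 - v ^ D) := by
  have h2 : (∑ t ∈ range D, v ^ t) * (1 - v) = 1 - v ^ D := by
    have h3 := geom_sum_mul_neg v D
    exact h3
  have h4 : ∑ t ∈ Finset.Ico 1 (D + 1), v ^ t = v * ∑ t ∈ range D, v ^ t := by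
    rw [Finset.sum_Ico_eq_sum_range, Nat.add_sub_cancel, Finset.mul_sum]
    apply Finset.sum_congr rfl
    intro t _
    rw [add_comm, pow_succ, mul_comm]
  rw [← Finset.sum_div, h4, div_eq_div_iff h1 hD, ← h2]
  ring

theorem key_geo {D b : ℕ} (hD : 3 ≤ D) {v c : ℂ} (hc : c = om D ^ b) (h1 : 1 - v ≠ 0)
    (h2 : 1 - c * v ≠ 0) (h3 : 1 - v ^ D ≠ 0) :
    v / (1 - v) - (c * v) / (1 - c * v) +
      (∑ t ∈ (Finset.Ico 1 D).filter (fun t => kk D b t ≠ 0), (c * v) ^ t / (1 - v ^ D) -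
      ∑ t ∈ (Finset.Ico 1 D).filter (fun t => kk D b t ≠ 0), v ^ t / (1 - v ^ D)) = 0 := by
  have hD0 : 0 < D := by omega
  have hcD : c ^ D = 1 := by
    rw [hc, ← pow_mul, mul_comm b D, pow_mul, om_pow D hD0, one_pow]
  have hcv : (c * v) ^ D = v ^ D := by
    rw [mul_pow, hcD, one_mul]
  have h4 : 1 - (c * v) ^ D ≠ 0 := by rw [hcv]; exact h3
  rw [geo_div h1 h3, geo_div h2 h4, hcv, ← Finset.sum_sub_distrib, ← Finset.sum_sub_distrib,
    Finset.sum_filter, Finset.sum_Ico_succ_top (by omega)]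
  rw [add_right_comm, ← Finset.sum_add_distrib]
  have h5 : v ^ D / (1 - v ^ D) - (c * v) ^ D / (1 - v ^ D) = 0 := by
    rw [hcv]; ring
  rw [h5, add_zero]
  apply Finset.sum_eq_zero
  intro t ht
  by_cases hk : kk D b t = 0
  · rw [if_neg (by simpa using hk), add_zero, mul_pow, hc, ← pow_mul, om_pow_kk hD0 hk, one_mul,
      sub_self]
  · rw [if_pos hk]
    ring

theorem key_id {D b : ℕ} (hD : 3 ≤ D) {v c : ℂ} (hc : c = om D ^ b) (h1 : 1 - v ≠ 0)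
    (h2 : 1 - c * v ≠ 0) (h3 : 1 - v ^ D ≠ 0) :
    v / (1 - v) - (c * v) / (1 - c * v) + ((c * v) * Ldv D b (c * v) - v * Ldv D b v) +
      v * Sdv D b v = 0 := by
  have hD0 : 0 < D := by omega
  have hcD : c ^ D = 1 := by
    rw [hc, ← pow_mul, mul_comm b D, pow_mul, om_pow D hD0, one_pow]
  have hcv : (c * v) ^ D = v ^ D := by
    rw [mul_pow, hcD, one_mul]
  have hg := key_geo (b := b) hD hc h1 h2 h3
  have hA : ∀ u : ℂ, u * ∑ t ∈ (Finset.Ico 1 D).filter (fun t => kk D b t ≠ 0),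
      u ^ (t - 1) / (1 - v ^ D) =
      ∑ t ∈ (Finset.Ico 1 D).filter (fun t => kk D b t ≠ 0), u ^ t / (1 - v ^ D) := by
    intro u
    rw [Finset.mul_sum]
    apply Finset.sum_congr rfl
    intro t ht
    have ht1 : 1 ≤ t := (Finset.mem_Ico.mp (Finset.mem_filter.mp ht).1).1
    obtain ⟨s, rfl⟩ : ∃ s, t = s + 1 := ⟨t - 1, by omega⟩
    rw [Nat.add_sub_cancel, pow_succ]
    ring
  have hB : (c * v) * ∑ t ∈ Ph D b, ((1 - (t : ℂ) / D - (rr D b t : ℂ) / D) / D) *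
      Bt D b (D - t) * Ft D b t (c * v) -
      v * ∑ t ∈ Ph D b, ((1 - (t : ℂ) / D - (rr D b t : ℂ) / D) / D) *
      Bt D b (D - t) * Ft D b t v + v * Sdv D b v = 0 := by
    unfold Sdv
    rw [Finset.mul_sum, Finset.mul_sum, Finset.mul_sum, Finset.mul_sum, ← Finset.sum_sub_distrib,
      ← Finset.sum_add_distrib]
    apply Finset.sum_eq_zero
    intro t ht
    have htD : t < D := (mem_Ph.mp ht).1
    have hr := Ft_rot (b := b) htD hcD v
    have hz : c ^ (D - t) = ze D ^ (t * b) := by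
      rw [hc]; exact om_pow_sub hD0 htD.le
    rw [hz] at hr
    have hl : (Real.pi : ℂ) * ((ga D b t / Bt D b t : ℝ) : ℂ) =
        ((t : ℂ) / D + (rr D b t : ℂ) / D - 1) / D * (Bt D b (D - t) : ℂ) := by
      have := leg ht
      have h2 := congrArg (fun x : ℝ => (x : ℂ)) this
      push_cast at h2
      push_cast
      exact h2
    have e1 : c * v * ((1 - (t : ℂ) / D - (rr D b t : ℂ) / D) / D *
        Bt D b (D - t) * Ft D b t (c * v)) =
        (1 - (t : ℂ) / D - (rr D b t : ℂ) / D) / D * Bt D b (D - t) * v *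
          (Ft D b t (c * v) * c) := by ring
    rw [e1, hr]
    have e2 : v * (↑Real.pi * (((ga D b t / Bt D b t : ℝ) : ℂ) * Ft D b t v *
        (ze D ^ (t * b) - 1))) =
        (↑Real.pi * ((ga D b t / Bt D b t : ℝ) : ℂ)) * v * Ft D b t v *
        (ze D ^ (t * b) - 1) := by ring
    rw [e2, hl]
    ring
  have hL1 : (c * v) * Ldv D b (c * v) =
      ∑ t ∈ (Finset.Ico 1 D).filter (fun t => kk D b t ≠ 0), (c * v) ^ t / (1 - v ^ D) +
      (c * v) * ∑ t ∈ Ph D b, ((1 - (t : ℂ) / D - (rr D b t : ℂ) / D) / D) *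
      Bt D b (D - t) * Ft D b t (c * v) := by
    unfold Ldv
    rw [mul_add, hcv, hA]
  have hL2 : v * Ldv D b v =
      ∑ t ∈ (Finset.Ico 1 D).filter (fun t => kk D b t ≠ 0), v ^ t / (1 - v ^ D) +
      v * ∑ t ∈ Ph D b, ((1 - (t : ℂ) / D - (rr D b t : ℂ) / D) / D) *
      Bt D b (D - t) * Ft D b t v := by
    unfold Ldv
    rw [mul_add, hA]
  rw [hL1, hL2]
  linear_combination hg + hB

/-- the quotient function -/
def Gmu (D b : ℕ) (c w : ℂ) (τ : ℝ) : ℂ :=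
  (1 - τ * (c * w)) / (1 - τ * w) *
    cexp (Prim (Qz D b (τ * (c * w))) 1 - Prim (Qz D b (τ * w)) 1 + Smu D b (τ * w))

theorem im_scale {D : ℕ} {w : ℂ} (hw : (w ^ D).im ≠ 0) {τ : ℝ} (hτ : 0 < τ) :
    (((τ : ℂ) * w) ^ D).im ≠ 0 := by
  have h1 : ((τ : ℂ) * w) ^ D = ((τ ^ D : ℝ) : ℂ) * w ^ D := by
    rw [mul_pow]; push_cast; ring
  rw [h1, Complex.im_ofReal_mul]
  exact mul_ne_zero (pow_pos hτ D).ne' hw

theorem one_sub_ne {D : ℕ} {v : ℂ} (hv : (v ^ D).im ≠ 0) : 1 - v ≠ 0 := by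
  intro h
  apply hv
  have : v = 1 := (sub_eq_zero.mp h).symm
  rw [this, one_pow, Complex.one_im]

theorem one_sub_pow_ne {D : ℕ} {v : ℂ} (hv : (v ^ D).im ≠ 0) : 1 - v ^ D ≠ 0 := by
  intro h
  apply hv
  have : v ^ D = 1 := (sub_eq_zero.mp h).symm
  rw [this, Complex.one_im]

theorem alg_quot (t w c l1 l2 s : ℂ) (n1 : 1 - t * w ≠ 0) (n2 : 1 - t * (c * w) ≠ 0) :
    t * (((-(c * w) * (1 - t * w) - (1 - t * (c * w)) * (-w)) / (1 - t * w) ^ 2) +
      (1 - t * (c * w)) / (1 - t * w) * (l1 * (c * w) - l2 * w + s * w)) =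
    (1 - t * (c * w)) / (1 - t * w) * (t * w / (1 - t * w) - t * (c * w) / (1 - t * (c * w)) +
      (t * (c * w) * l1 - t * w * l2) + t * w * s) := by
  generalize hA : 1 - t * w = A at *
  generalize hB : 1 - t * (c * w) = B at *
  field_simp
  ring

theorem hasDerivAt_Gmu {D b : ℕ} (hD : 3 ≤ D) (hb : 0 < b) (hb2 : b + 1 < D) {w c : ℂ}
    (hc : c = om D ^ b) (hw : (w ^ D).im ≠ 0) {τ : ℝ} (hτ : 0 < τ) :
    HasDerivAt (Gmu D b c w) 0 τ := by
  have hD0 : 0 < D := by omega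
  have hcD : c ^ D = 1 := by
    rw [hc, ← pow_mul, mul_comm b D, pow_mul, om_pow D hD0, one_pow]
  have hcw : ((c * w) ^ D).im ≠ 0 := by
    rw [mul_pow, hcD, one_mul]; exact hw
  have hv : (((τ : ℂ) * w) ^ D).im ≠ 0 := im_scale hw hτ
  have hv2 : (((τ : ℂ) * (c * w)) ^ D).im ≠ 0 := im_scale hcw hτ
  have hτ0 : (τ : ℂ) ≠ 0 := by exact_mod_cast hτ.ne'
  have lin : ∀ u : ℂ, HasDerivAt (fun s : ℝ => (s : ℂ) * u) u τ := by
    intro u
    have := (Complex.ofRealCLM.hasDerivAt (x := τ)).mul_const u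
    simpa using this
  have dL1 : HasDerivAt (fun s : ℝ => Prim (Qz D b ((s : ℂ) * (c * w))) 1)
      (Ldv D b ((τ : ℂ) * (c * w)) * (c * w)) τ :=
    HasDerivAt.comp (h₂ := fun w' : ℂ => Prim (Qz D b w') 1) τ
      (deriv_L (b := b) hD hb hb2 hv2) (lin (c * w))
  have dL2 : HasDerivAt (fun s : ℝ => Prim (Qz D b ((s : ℂ) * w)) 1)
      (Ldv D b ((τ : ℂ) * w) * w) τ :=
    HasDerivAt.comp (h₂ := fun w' : ℂ => Prim (Qz D b w') 1) τ
      (deriv_L (b := b) hD hb hb2 hv) (lin w)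
  have dS : HasDerivAt (fun s : ℝ => Smu D b ((s : ℂ) * w)) (Sdv D b ((τ : ℂ) * w) * w) τ :=
    HasDerivAt.comp (h₂ := Smu D b) τ (hasDerivAt_Smu hD0 (mem_Om_of_im hv)) (lin w)
  have n1 : 1 - (τ : ℂ) * w ≠ 0 := one_sub_ne hv
  have n2 : 1 - (τ : ℂ) * (c * w) ≠ 0 := one_sub_ne hv2
  have dq : HasDerivAt (fun s : ℝ => (1 - (s : ℂ) * (c * w)) / (1 - (s : ℂ) * w))
      ((-(c * w) * (1 - (τ : ℂ) * w) - (1 - (τ : ℂ) * (c * w)) * (-w)) /
        (1 - (τ : ℂ) * w) ^ 2) τ := by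
    have a1 : HasDerivAt (fun s : ℝ => 1 - (s : ℂ) * (c * w)) (-(c * w)) τ := by
      simpa using (lin (c * w)).const_sub 1
    have a2 : HasDerivAt (fun s : ℝ => 1 - (s : ℂ) * w) (-w) τ := by
      simpa using (lin w).const_sub 1
    exact a1.div a2 n1
  have de := ((dL1.sub dL2).add dS).cexp
  have hG := dq.mul de
  have hid := key_id (D := D) (b := b) hD (v := (τ : ℂ) * w) hc n1
    (by rw [← mul_assoc, mul_comm c, mul_assoc] at *; exact n2) (one_sub_pow_ne hv)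
  have hcv : c * ((τ : ℂ) * w) = (τ : ℂ) * (c * w) := by ring
  rw [hcv] at hid
  refine hG.congr_deriv ?_
  set A := cexp (Prim (Qz D b ((τ : ℂ) * (c * w))) 1 - Prim (Qz D b ((τ : ℂ) * w)) 1 +
    Smu D b ((τ : ℂ) * w)) with hA
  have hkey : ((-(c * w) * (1 - (τ : ℂ) * w) - (1 - (τ : ℂ) * (c * w)) * (-w)) /
        (1 - (τ : ℂ) * w) ^ 2) + (1 - (τ : ℂ) * (c * w)) / (1 - (τ : ℂ) * w) *
        (Ldv D b ((τ : ℂ) * (c * w)) * (c * w) - Ldv D b ((τ : ℂ) * w) * w +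
          Sdv D b ((τ : ℂ) * w) * w) = 0 := by
    have e : (τ : ℂ) * (((-(c * w) * (1 - (τ : ℂ) * w) - (1 - (τ : ℂ) * (c * w)) * (-w)) /
        (1 - (τ : ℂ) * w) ^ 2) + (1 - (τ : ℂ) * (c * w)) / (1 - (τ : ℂ) * w) *
        (Ldv D b ((τ : ℂ) * (c * w)) * (c * w) - Ldv D b ((τ : ℂ) * w) * w +
          Sdv D b ((τ : ℂ) * w) * w)) = (1 - (τ : ℂ) * (c * w)) / (1 - (τ : ℂ) * w) *
          ((τ : ℂ) * w / (1 - (τ : ℂ) * w) - (τ : ℂ) * (c * w) / (1 - (τ : ℂ) * (c * w)) +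
          ((τ : ℂ) * (c * w) * Ldv D b ((τ : ℂ) * (c * w)) -
            (τ : ℂ) * w * Ldv D b ((τ : ℂ) * w)) + (τ : ℂ) * w * Sdv D b ((τ : ℂ) * w)) := by
      exact alg_quot _ _ _ _ _ _ n1 n2
    rw [hid, mul_zero] at e
    exact (mul_eq_zero.mp e).resolve_left hτ0
  linear_combination A * hkey

theorem Gmu_lim {D b : ℕ} (hD : 3 ≤ D) {w c : ℂ}
    (hc : c = om D ^ b) (hw : (w ^ D).im ≠ 0) :
    Tendsto (Gmu D b c w) (𝓝[>] 0) (𝓝 1) := by
  have hD0 : 0 < D := by omega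
  have hcD : c ^ D = 1 := by
    rw [hc, ← pow_mul, mul_comm b D, pow_mul, om_pow D hD0, one_pow]
  have hcw : ((c * w) ^ D).im ≠ 0 := by
    rw [mul_pow, hcD, one_mul]; exact hw
  have l1 := L_zero (b := b) hD hcw
  have l2 := L_zero (b := b) hD hw
  have lin : ∀ u : ℂ, Tendsto (fun s : ℝ => (s : ℂ) * u) (𝓝[>] 0) (𝓝 0) := by
    intro u
    have h : Tendsto (fun s : ℝ => (s : ℂ) * u) (𝓝 0) (𝓝 (((0 : ℝ) : ℂ) * u)) :=
      (Complex.continuous_ofReal.mul continuous_const).tendsto 0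
    rw [Complex.ofReal_zero, zero_mul] at h
    exact h.mono_left nhdsWithin_le_nhds
  have l3 : Tendsto (fun s : ℝ => Smu D b ((s : ℂ) * w)) (𝓝[>] 0) (𝓝 (Smu D b 0)) :=
    ((hasDerivAt_Smu hD0 (zero_mem_Om hD0)).continuousAt.tendsto).comp (lin w)
  have hS0 : Smu D b 0 = 0 := by
    unfold Smu
    rw [Finset.sum_eq_zero, mul_zero]
    intro t ht
    have : Cc D b t 0 = 0 := prim_zero _
    rw [this]; ring
  rw [hS0] at l3
  have l4 : Tendsto (fun s : ℝ => (1 - (s : ℂ) * (c * w)) / (1 - (s : ℂ) * w)) (𝓝[>] 0)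
      (𝓝 ((1 - 0) / (1 - 0))) :=
    Tendsto.div (tendsto_const_nhds.sub (lin (c * w))) (tendsto_const_nhds.sub (lin w))
      (by norm_num)
  have l5 := l4.mul ((Complex.continuous_exp.tendsto _).comp ((l1.sub l2).add l3))
  have e : (1 - 0) / (1 - 0) * cexp (0 - 0 + 0) = (1 : ℂ) := by norm_num
  rw [e] at l5
  exact l5

theorem Gmu_one {D b : ℕ} (hD : 3 ≤ D) (hb : 0 < b) (hb2 : b + 1 < D) {w c : ℂ}
    (hc : c = om D ^ b) (hw : (w ^ D).im ≠ 0) : Gmu D b c w 1 = 1 := by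
  have hconst : ∀ τ ∈ Set.Ioi (0 : ℝ), Gmu D b c w τ = Gmu D b c w 1 := by
    intro τ hτ
    apply IsOpen.is_const_of_deriv_eq_zero isOpen_Ioi (convex_Ioi (0 : ℝ)).isPreconnected
      (f := Gmu D b c w)
    · intro x hx
      exact (hasDerivAt_Gmu hD hb hb2 hc hw hx).differentiableAt.differentiableWithinAt
    · intro x hx
      exact (hasDerivAt_Gmu hD hb hb2 hc hw hx).deriv
    · exact hτ
    · exact Set.mem_Ioi.mpr one_pos
  have h1 : Tendsto (Gmu D b c w) (𝓝[>] 0) (𝓝 (Gmu D b c w 1)) := by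
    apply Tendsto.congr' _ tendsto_const_nhds
    filter_upwards [self_mem_nhdsWithin] with τ hτ
    exact (hconst τ hτ).symm
  exact tendsto_nhds_unique h1 (Gmu_lim hD hc hw)

theorem Ee_mul {D b : ℕ} (hD : 3 ≤ D) (hb : 0 < b) (hb2 : b + 1 < D) {w : ℂ}
    (hw : (w ^ D).im ≠ 0) :
    Ee D b (om D ^ b * w) 1 = Ee D b w 1 *
      cexp (-(Real.pi * ∑ t ∈ Ph D b, ((ga D b t / Bt D b t : ℝ) : ℂ) * Cc D b t w *
        (ze D ^ (t * b) - 1))) := by
  have h := Gmu_one hD hb hb2 (c := om D ^ b) rfl hw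
  unfold Gmu at h
  rw [Complex.ofReal_one, one_mul, one_mul] at h
  have n1 : 1 - w ≠ 0 := one_sub_ne hw
  change (1 - om D ^ b * w) / 1 * cexp (Prim (Qz D b (om D ^ b * w)) 1) =
    (1 - w) / 1 * cexp (Prim (Qz D b w) 1) * cexp (-(Smu D b w))
  rw [div_one, div_one]
  rw [Complex.exp_add, Complex.exp_sub] at h
  have hE1 : cexp (Prim (Qz D b w) 1) ≠ 0 := Complex.exp_ne_zero _
  have hE2 : cexp (Smu D b w) ≠ 0 := Complex.exp_ne_zero _
  rw [Complex.exp_neg]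
  field_simp at h ⊢
  linear_combination h

end

end Pool.Agent.RHU
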