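import Pool.Agent.RHU.OmB

/-!
# RHU-EtaLim: the boundary values of `η` on the cut

PLAN. Near a real `ρ > 0` the points `z` of `hp σ` have `σ Im z^D > 0` (`arg z^D = D arg z`, small; or
`z^D = ρ^D + D ρ^(D-1)(z-ρ) + ...`: write `z = |z| e^{iθ}`, `0 < σ θ < π/D`), so they lie in `Om D`.
`1 - z^D` has imaginary part of sign `-σ` and tends to `1 - ρ^D < 0`: the argument tends to `-σ π`
(`Complex.tendsto_arg_nhdsWithin_im_neg_of_re_neg_of_im_zero`, and continuity from `im ≥ 0`), the logarithm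
to `log(ρ^D - 1) - σ π i`. `etaB_one_neg_one`: `exp(-2πi/D)`.
-/

set_option autoImplicit false

namespace Pool.Agent.RHU

open Complex Finset Filter Topology

theorem eventually_im {D : ℕ} (hD : 0 < D) {σ ρ : ℝ} (hσ : σ = 1 ∨ σ = -1) (hρ : 0 < ρ) :
    ∀ᶠ z in 𝓝[hp σ] (ρ : ℂ), 0 < σ * (z ^ D).im := by
  have hcont : Continuous fun z : ℂ =>
      (∑ i ∈ range D, z ^ i * ((starRingEnd ℂ) z) ^ (D - 1 - i)).re := by
    refine Complex.continuous_re.comp (continuous_finset_sum _ fun i _ => ?_)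
    exact (continuous_pow i).mul (Complex.continuous_conj.pow _)
  have hval : 0 < (∑ i ∈ range D, (ρ : ℂ) ^ i * ((starRingEnd ℂ) (ρ : ℂ)) ^ (D - 1 - i)).re := by
    have e : (∑ i ∈ range D, (ρ : ℂ) ^ i * ((starRingEnd ℂ) (ρ : ℂ)) ^ (D - 1 - i)) =
        (((D : ℝ) * ρ ^ (D - 1) : ℝ) : ℂ) := by
      rw [Complex.conj_ofReal]
      have h : ∀ i ∈ range D, (ρ : ℂ) ^ i * (ρ : ℂ) ^ (D - 1 - i) = (ρ : ℂ) ^ (D - 1) := by
        intro i hi
        rw [← pow_add]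
        congr 1
        have := mem_range.1 hi
        omega
      rw [sum_congr rfl h, sum_const, card_range, nsmul_eq_mul]
      push_cast
      ring
    rw [e, Complex.ofReal_re]
    have : (0 : ℝ) < D := by exact_mod_cast hD
    positivity
  have hev : ∀ᶠ z in 𝓝 (ρ : ℂ),
      0 < (∑ i ∈ range D, z ^ i * ((starRingEnd ℂ) z) ^ (D - 1 - i)).re :=
    hcont.continuousAt.eventually (lt_mem_nhds hval)
  filter_upwards [nhdsWithin_le_nhds hev, self_mem_nhdsWithin] with z hz hzs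
  have h1 : (∑ i ∈ range D, z ^ i * ((starRingEnd ℂ) z) ^ (D - 1 - i)) * (z - (starRingEnd ℂ) z) =
      z ^ D - ((starRingEnd ℂ) z) ^ D := (Commute.all z ((starRingEnd ℂ) z)).geom_sum₂_mul D
  rw [← map_pow, Complex.sub_conj, Complex.sub_conj, ← mul_assoc] at h1
  have h2 := mul_right_cancel₀ Complex.I_ne_zero h1
  have h3 := congrArg Complex.re h2
  rw [Complex.re_mul_ofReal, Complex.ofReal_re] at h3
  have hzs' : 0 < σ * z.im := hzs
  have h4 : σ * (z ^ D).im = (σ * z.im) *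
      (∑ i ∈ range D, z ^ i * ((starRingEnd ℂ) z) ^ (D - 1 - i)).re := by
    linear_combination (-σ / 2) * h3
  rw [h4]
  exact mul_pos hzs' hz

theorem eventually_Om {D : ℕ} (hD : 0 < D) {σ ρ : ℝ} (hσ : σ = 1 ∨ σ = -1) (hρ : 0 < ρ) :
    ∀ᶠ z in 𝓝[hp σ] (ρ : ℂ), z ∈ Om D := by
  filter_upwards [eventually_im hD hσ hρ] with z hz
  refine mem_Om_of_im fun h => ?_
  rw [h, mul_zero] at hz
  exact lt_irrefl _ hz

theorem neBot_hp {σ ρ : ℝ} (hσ : σ = 1 ∨ σ = -1) : (𝓝[hp σ] (ρ : ℂ)).NeBot := by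
  rw [← mem_closure_iff_nhdsWithin_neBot, Metric.mem_closure_iff]
  intro ε hε
  have h2 : σ * σ = 1 := by
    rcases hσ with h | h <;> rw [h] <;> norm_num
  have h3 : |σ| = 1 := by
    rcases hσ with h | h <;> rw [h] <;> simp
  refine ⟨(ρ : ℂ) + ((σ * (ε / 2) : ℝ) : ℂ) * I, ?_, ?_⟩
  · change 0 < σ * ((ρ : ℂ) + ((σ * (ε / 2) : ℝ) : ℂ) * I).im
    have e : ((ρ : ℂ) + ((σ * (ε / 2) : ℝ) : ℂ) * I).im = σ * (ε / 2) := by
      simp
    rw [e, ← mul_assoc, h2, one_mul]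
    linarith
  · rw [dist_comm, dist_eq_norm, add_sub_cancel_left, norm_mul, Complex.norm_I, mul_one,
      Complex.norm_real, Real.norm_eq_abs, abs_mul, h3, one_mul, abs_of_pos (by linarith)]
    linarith

theorem eta_lim {D : ℕ} (hD : 0 < D) {σ ρ : ℝ} (hσ : σ = 1 ∨ σ = -1) (hρ : 0 < ρ) (h1 : ρ ≠ 1) :
    Tendsto (eta D) (𝓝[hp σ] (ρ : ℂ)) (𝓝 (etaB D σ ρ)) := by
  rcases lt_or_gt_of_ne h1 with h | h
  · rw [etaB, if_neg (not_lt.2 h.le)]
    have hm : (ρ : ℂ) ∈ Om D := by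
      refine mem_Om_of_norm hD ?_
      rw [Complex.norm_real, Real.norm_eq_abs, abs_of_pos hρ]
      exact h
    exact (hasDerivAt_eta hD hm).continuousAt.tendsto.mono_left nhdsWithin_le_nhds
  · have hpow : 1 < ρ ^ D := one_lt_pow₀ h hD.ne'
    have hre : (1 - (ρ : ℂ) ^ D).re < 0 := by
      have e : (1 - (ρ : ℂ) ^ D) = ((1 - ρ ^ D : ℝ) : ℂ) := by push_cast; rfl
      rw [e, Complex.ofReal_re]
      linarith
    have him : (1 - (ρ : ℂ) ^ D).im = 0 := by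
      have e : (1 - (ρ : ℂ) ^ D) = ((1 - ρ ^ D : ℝ) : ℂ) := by push_cast; rfl
      rw [e, Complex.ofReal_im]
    have hnorm : ‖1 - (ρ : ℂ) ^ D‖ = ρ ^ D - 1 := by
      have e : (1 - (ρ : ℂ) ^ D) = ((1 - ρ ^ D : ℝ) : ℂ) := by push_cast; rfl
      rw [e, Complex.norm_real, Real.norm_eq_abs, abs_of_neg (by linarith)]
      ring
    have hc : Tendsto (fun z : ℂ => 1 - z ^ D) (𝓝[hp σ] (ρ : ℂ)) (𝓝 (1 - (ρ : ℂ) ^ D)) := by
      have hcc : Continuous fun z : ℂ => 1 - z ^ D := by fun_prop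
      exact (hcc.tendsto (ρ : ℂ)).mono_left nhdsWithin_le_nhds
    have hlog : Tendsto (fun z : ℂ => Complex.log (1 - z ^ D)) (𝓝[hp σ] (ρ : ℂ))
        (𝓝 ((Real.log (ρ ^ D - 1) : ℂ) - σ * Real.pi * I)) := by
      rcases hσ with hs | hs
      · subst hs
        have hc' : Tendsto (fun z : ℂ => 1 - z ^ D) (𝓝[hp 1] (ρ : ℂ))
            (𝓝[{z : ℂ | z.im < 0}] (1 - (ρ : ℂ) ^ D)) := by
          refine tendsto_nhdsWithin_iff.2 ⟨hc, ?_⟩
          filter_upwards [eventually_im hD (Or.inl rfl) hρ] with z hz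
          simp only [one_mul] at hz
          simp only [Set.mem_setOf_eq, Complex.sub_im, Complex.one_im]
          linarith
        have ht := (Complex.tendsto_log_nhdsWithin_im_neg_of_re_neg_of_im_zero hre him).comp hc'
        rw [hnorm] at ht
        simp only [Complex.ofReal_one, one_mul]
        exact ht
      · subst hs
        have hc' : Tendsto (fun z : ℂ => 1 - z ^ D) (𝓝[hp (-1)] (ρ : ℂ))
            (𝓝[{z : ℂ | 0 ≤ z.im}] (1 - (ρ : ℂ) ^ D)) := by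
          refine tendsto_nhdsWithin_iff.2 ⟨hc, ?_⟩
          filter_upwards [eventually_im hD (Or.inr rfl) hρ] with z hz
          simp only [neg_mul, one_mul] at hz
          simp only [Set.mem_setOf_eq, Complex.sub_im, Complex.one_im]
          linarith
        have ht := (Complex.tendsto_log_nhdsWithin_im_nonneg_of_re_neg_of_im_zero hre him).comp hc'
        rw [hnorm] at ht
        have e : (Real.log (ρ ^ D - 1) : ℂ) - ((-1 : ℝ) : ℂ) * Real.pi * I =
            (Real.log (ρ ^ D - 1) : ℂ) + Real.pi * I := by push_cast; ring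
        rw [e]
        exact ht
    have hexp : Tendsto (fun z : ℂ => cexp (Complex.log (1 - z ^ D) * (D : ℂ)⁻¹))
        (𝓝[hp σ] (ρ : ℂ)) (𝓝 (cexp (((Real.log (ρ ^ D - 1) : ℂ) - σ * Real.pi * I) * (D : ℂ)⁻¹))) :=
      (Complex.continuous_exp.tendsto _).comp (hlog.mul_const _)
    have hval : cexp (((Real.log (ρ ^ D - 1) : ℂ) - σ * Real.pi * I) * (D : ℂ)⁻¹) = etaB D σ ρ := by
      rw [etaB, if_pos h, Real.rpow_def_of_pos (by linarith), Complex.ofReal_exp, ← Complex.exp_add]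
      congr 1
      push_cast
      ring
    rw [hval] at hexp
    refine hexp.congr' ?_
    filter_upwards [eventually_Om hD hσ hρ] with z hz
    rw [eta, Complex.cpow_def_of_ne_zero (Complex.slitPlane_ne_zero hz)]

theorem etaB_ne {D : ℕ} (hD : 0 < D) {σ ρ : ℝ} (hρ : 0 < ρ) (h1 : ρ ≠ 1) : etaB D σ ρ ≠ 0 := by
  rcases lt_or_gt_of_ne h1 with h | h
  · rw [etaB, if_neg (not_lt.2 h.le)]
    refine eta_ne (mem_Om_of_norm hD ?_)
    rw [Complex.norm_real, Real.norm_eq_abs, abs_of_pos hρ]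
    exact h
  · have hpow : 1 < ρ ^ D := one_lt_pow₀ h hD.ne'
    rw [etaB, if_pos h]
    refine mul_ne_zero ?_ (Complex.exp_ne_zero _)
    exact Complex.ofReal_ne_zero.2 (Real.rpow_pos_of_pos (by linarith) _).ne'

theorem etaB_pow {D : ℕ} (hD : 0 < D) {σ ρ : ℝ} (hσ : σ = 1 ∨ σ = -1) :
    etaB D σ ρ ^ D = 1 - (ρ : ℂ) ^ D := by
  rw [etaB]
  split_ifs with h
  · have hpow : 1 < ρ ^ D := one_lt_pow₀ h hD.ne'
    have hD' : (D : ℂ) ≠ 0 := Nat.cast_ne_zero.2 hD.ne'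
    have e1 : (((ρ ^ D - 1) ^ ((D : ℝ)⁻¹) : ℝ) : ℂ) ^ D = ((ρ ^ D - 1 : ℝ) : ℂ) := by
      rw [← Complex.ofReal_pow, Real.rpow_inv_natCast_pow (by linarith) hD.ne']
    have e2 : cexp (-(σ * Real.pi * I / D)) ^ D = -1 := by
      rw [← Complex.exp_nat_mul]
      have e3 : (D : ℂ) * -(σ * Real.pi * I / D) = -(σ * Real.pi * I) := by
        field_simp
      rw [e3]
      rcases hσ with hs | hs
      · rw [hs, Complex.ofReal_one, one_mul, Complex.exp_neg, Complex.exp_pi_mul_I]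
        norm_num
      · rw [hs, Complex.ofReal_neg, Complex.ofReal_one, neg_mul, neg_mul, neg_neg, one_mul,
          Complex.exp_pi_mul_I]
    rw [mul_pow, e1, e2]
    push_cast
    ring
  · exact eta_pow hD _

theorem etaB_of_le {D : ℕ} {σ ρ : ℝ} (h1 : ρ ≤ 1) : etaB D σ ρ = eta D ρ := by
  simp [etaB, not_lt.mpr h1]

theorem etaB_one_neg_one {D : ℕ} {ρ : ℝ} (h1 : 1 < ρ) : etaB D 1 ρ = om D * etaB D (-1) ρ := by
  rw [etaB, if_pos h1, etaB, if_pos h1, om, mul_left_comm, ← Complex.exp_add]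
  congr 2
  push_cast
  ring

theorem norm_etaB {D : ℕ} (hD : 0 < D) {σ ρ : ℝ} (hρ : 0 ≤ ρ) :
    ‖etaB D σ ρ‖ = |1 - ρ ^ D| ^ ((D : ℝ)⁻¹) := by
  rw [etaB]
  split_ifs with h
  · have hpow : 1 < ρ ^ D := one_lt_pow₀ h hD.ne'
    have e : (-(σ * Real.pi * I / D) : ℂ) = ((-(σ * Real.pi / D) : ℝ) : ℂ) * I := by
      push_cast
      ring
    rw [norm_mul, e, Complex.norm_exp_ofReal_mul_I, mul_one, Complex.norm_real, Real.norm_eq_abs,
      abs_of_pos (Real.rpow_pos_of_pos (by linarith) _), abs_of_neg (by linarith)]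
    congr 1
    ring
  · have e : (1 - (ρ : ℂ) ^ D) = ((1 - ρ ^ D : ℝ) : ℂ) := by push_cast; rfl
    rw [norm_eta hD, e, Complex.norm_real, Real.norm_eq_abs]

/-- `η^σ` is continuous on `[1,∞)` and on `[0,1]` -/
theorem continuousOn_etaB {D : ℕ} (hD : 0 < D) (σ : ℝ) : ContinuousOn (etaB D σ) (Set.Ioi 1) := by
  have hc : ContinuousOn (fun ρ : ℝ => (((ρ ^ D - 1) ^ ((D : ℝ)⁻¹) : ℝ) : ℂ) *
      cexp (-(σ * Real.pi * I / D))) (Set.Ioi 1) := by
    refine ContinuousOn.mul ?_ continuousOn_const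
    refine Complex.continuous_ofReal.comp_continuousOn ?_
    refine ContinuousOn.rpow_const (by fun_prop) fun x hx => Or.inl ?_
    have : 1 < x ^ D := one_lt_pow₀ hx hD.ne'
    linarith
  refine hc.congr fun ρ hρ => ?_
  have hρ1 : 1 < ρ := hρ
  rw [etaB, if_pos hρ1]

end Pool.Agent.RHU
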