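import Mathlib

/-!
# RHU-Trig: finite trigonometric sums (Mathlib only)

PLAN. `sum_cos`: geometric sum of `exp(2πi k t/D)`, real part (`Finset.geom_sum_eq`, or
`IsPrimitiveRoot.geom_sum_eq_zero`). `cot_mul_sin`: induction on `m`:
`sin(2(m+1)θ) - sin(2mθ) = 2 sin θ cos((2m+1)θ)` and `2 cos θ cos((2m+1)θ) = cos(2mθ) + cos((2m+2)θ)`.
`sum_cot_sin`: sum of `cot_mul_sin`. `sum_sin_sin`: `2 sin x sin y = cos(x-y) - cos(x+y)` and the sum of
cosines over all `t < D` (`= D` if `D ∣ k`, else `0`).
-/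

set_option autoImplicit false

namespace Pool.Agent.RHU

open Finset

private theorem csum {D : ℕ} (hD : 0 < D) (k : ℤ) :
    ∑ t ∈ range D, Complex.exp (((2 * Real.pi * t * k / D : ℝ) : ℂ) * Complex.I) =
      if (D : ℤ) ∣ k then (D : ℂ) else 0 := by
  have hD' : (D : ℂ) ≠ 0 := by exact_mod_cast hD.ne'
  have h1 : ∀ t ∈ range D, Complex.exp (((2 * Real.pi * t * k / D : ℝ) : ℂ) * Complex.I) =
      (Complex.exp (2 * Real.pi * k / D * Complex.I)) ^ t := by
    intro t _
    rw [← Complex.exp_nat_mul]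
    congr 1
    push_cast
    ring
  rw [Finset.sum_congr rfl h1]
  have hpow : (Complex.exp (2 * Real.pi * k / D * Complex.I)) ^ D = 1 := by
    rw [← Complex.exp_nat_mul, Complex.exp_eq_one_iff]
    refine ⟨k, ?_⟩
    field_simp
  split_ifs with h
  · obtain ⟨c, rfl⟩ := h
    have : Complex.exp (2 * Real.pi * ((D : ℤ) * c : ℤ) / D * Complex.I) = 1 := by
      rw [Complex.exp_eq_one_iff]
      refine ⟨c, ?_⟩
      push_cast
      field_simp
    rw [this]
    simp
  · have hne : Complex.exp (2 * Real.pi * k / D * Complex.I) ≠ 1 := by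
      intro he
      rw [Complex.exp_eq_one_iff] at he
      obtain ⟨c, hc⟩ := he
      apply h
      refine ⟨c, ?_⟩
      have hpi : (2 * Real.pi * Complex.I : ℂ) ≠ 0 := Complex.two_pi_I_ne_zero
      have h2 : (k : ℂ) = D * c := by
        have h3 : (2 * Real.pi * Complex.I : ℂ) * k = (2 * Real.pi * Complex.I : ℂ) * (D * c) := by
          have h4 : (2 * Real.pi * k / D * Complex.I : ℂ) * D = (c * (2 * Real.pi * Complex.I)) * D := by
            rw [hc]
          have h5 : (2 * Real.pi * k / D * Complex.I : ℂ) * D = 2 * Real.pi * Complex.I * k := by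
            field_simp
          rw [← h5, h4]
          ring
        exact mul_left_cancel₀ hpi h3
      exact_mod_cast h2
    rw [geom_sum_eq hne, hpow, sub_self, zero_div]

theorem sum_cos {D : ℕ} (hD : 0 < D) (k : ℤ) : ∑ t ∈ range D, Real.cos (2 * Real.pi * t * k / D) =
    if (D : ℤ) ∣ k then (D : ℝ) else 0 := by
  have h := congrArg Complex.re (csum hD k)
  rw [Complex.re_sum] at h
  simp only [Complex.exp_ofReal_mul_I_re] at h
  rw [h]
  split_ifs <;> simp

theorem sum_sin {D : ℕ} (hD : 0 < D) (k : ℤ) :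
    ∑ t ∈ range D, Real.sin (2 * Real.pi * t * k / D) = 0 := by
  have h := congrArg Complex.im (csum hD k)
  rw [Complex.im_sum] at h
  simp only [Complex.exp_ofReal_mul_I_im] at h
  rw [h]
  split_ifs <;> simp

theorem cot_mul_sin (m : ℕ) (x : ℝ) (hx : Real.sin x ≠ 0) :
    Real.cos x / Real.sin x * Real.sin (2 * (m + 1) * x) =
      1 + 2 * ∑ k ∈ range m, Real.cos (2 * (k + 1) * x) + Real.cos (2 * (m + 1) * x) := by
  induction m with
  | zero =>
    simp only [Nat.cast_zero, zero_add, mul_one, Finset.range_zero, Finset.sum_empty, mul_zero,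
      add_zero]
    rw [Real.sin_two_mul, Real.cos_two_mul]
    field_simp
    ring
  | succ m ih =>
    rw [Finset.sum_range_succ]
    set a : ℝ := 2 * (m + 1) * x with ha
    have e : 2 * (((m + 1 : ℕ) : ℝ) + 1) * x = a + 2 * x := by
      rw [ha]
      push_cast
      ring
    rw [e]
    have h1 : Real.cos x / Real.sin x * Real.sin (a + 2 * x) = Real.cos x / Real.sin x * Real.sin a +
        (Real.cos a + Real.cos (a + 2 * x)) := by
      rw [Real.sin_add, Real.cos_add, Real.sin_two_mul, Real.cos_two_mul]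
      have h2 : Real.sin x ^ 2 = 1 - Real.cos x ^ 2 := by
        have := Real.sin_sq_add_cos_sq x
        linarith
      field_simp
      linear_combination (2 * Real.sin a * Real.cos x) * h2
    rw [h1, ih]
    ring

theorem sum_cot_sin {D m : ℕ} (hm : 0 < m) (hmD : m < D) :
    ∑ t ∈ Ico 1 D, Real.cos (Real.pi * t / D) / Real.sin (Real.pi * t / D) *
      Real.sin (2 * Real.pi * t * m / D) = (D : ℝ) - 2 * m := by
  obtain ⟨m, rfl⟩ : ∃ l, m = l + 1 := ⟨m - 1, by omega⟩
  have hD : 0 < D := by omega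
  have hDR : (0 : ℝ) < D := by exact_mod_cast hD
  have h1 : ∀ t ∈ Ico 1 D, Real.cos (Real.pi * t / D) / Real.sin (Real.pi * t / D) *
      Real.sin (2 * Real.pi * t * ((m + 1 : ℕ) : ℝ) / D) =
      1 + 2 * ∑ k ∈ range m, Real.cos (2 * Real.pi * t * ((k + 1 : ℤ) : ℝ) / D) +
        Real.cos (2 * Real.pi * t * ((m + 1 : ℤ) : ℝ) / D) := by
    intro t ht
    rw [Finset.mem_Ico] at ht
    have ht1 : (0 : ℝ) < t := by exact_mod_cast (by omega : 0 < t)
    have ht2 : (t : ℝ) < D := by exact_mod_cast ht.2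
    have hs : Real.sin (Real.pi * t / D) ≠ 0 := by
      apply ne_of_gt
      apply Real.sin_pos_of_pos_of_lt_pi
      · have := Real.pi_pos
        positivity
      · rw [div_lt_iff₀ hDR]
        exact mul_lt_mul_of_pos_left ht2 Real.pi_pos
    have h2 := cot_mul_sin m (Real.pi * t / D) hs
    have e1 : 2 * Real.pi * t * ((m + 1 : ℕ) : ℝ) / D = 2 * (m + 1) * (Real.pi * t / D) := by
      push_cast
      ring
    have e2 : 2 * Real.pi * t * ((m + 1 : ℤ) : ℝ) / D = 2 * (m + 1) * (Real.pi * t / D) := by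
      push_cast
      ring
    rw [e1, e2, h2]
    congr 3
    refine Finset.sum_congr rfl fun k _ => ?_
    congr 1
    push_cast
    ring
  rw [Finset.sum_congr rfl h1]
  have h3 : ∀ k : ℕ, k + 1 < D →
      ∑ t ∈ Ico 1 D, Real.cos (2 * Real.pi * t * ((k + 1 : ℤ) : ℝ) / D) = -1 := by
    intro k hk
    have h4 := sum_cos hD (k + 1)
    rw [if_neg] at h4
    · rw [Finset.range_eq_Ico, Finset.sum_eq_sum_Ico_succ_bot hD] at h4
      simp only [Nat.cast_zero, mul_zero, zero_mul, zero_div, Real.cos_zero, zero_add] at h4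
      linarith
    · intro h5
      have h6 := Int.le_of_dvd (by positivity) h5
      omega
  rw [Finset.sum_add_distrib, Finset.sum_add_distrib, ← Finset.mul_sum, Finset.sum_comm, h3 m hmD]
  rw [Finset.sum_congr rfl fun k hk => h3 k (by rw [Finset.mem_range] at hk; omega)]
  simp only [Finset.sum_const, Nat.card_Ico, Finset.card_range, nsmul_eq_mul, mul_one]
  rw [Nat.cast_sub (by omega)]
  push_cast
  ring

theorem sum_sin_sin {D : ℕ} (hD : 0 < D) (k l : ℤ) :
    ∑ t ∈ range D, Real.sin (2 * Real.pi * t * k / D) * Real.sin (2 * Real.pi * t * l / D) =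
      (D : ℝ) / 2 * ((if (D : ℤ) ∣ k - l then 1 else 0) - (if (D : ℤ) ∣ k + l then 1 else 0)) := by
  have h1 : ∀ t ∈ range D, Real.sin (2 * Real.pi * t * k / D) * Real.sin (2 * Real.pi * t * l / D) =
      1 / 2 * Real.cos (2 * Real.pi * t * ((k - l : ℤ) : ℝ) / D) -
        1 / 2 * Real.cos (2 * Real.pi * t * ((k + l : ℤ) : ℝ) / D) := by
    intro t _
    have e1 : 2 * Real.pi * t * ((k - l : ℤ) : ℝ) / D =
        2 * Real.pi * t * k / D - 2 * Real.pi * t * l / D := by
      push_cast
      ring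
    have e2 : 2 * Real.pi * t * ((k + l : ℤ) : ℝ) / D =
        2 * Real.pi * t * k / D + 2 * Real.pi * t * l / D := by
      push_cast
      ring
    rw [e1, e2, Real.cos_sub, Real.cos_add]
    ring
  rw [Finset.sum_congr rfl h1, Finset.sum_sub_distrib, ← Finset.mul_sum, ← Finset.mul_sum,
    sum_cos hD, sum_cos hD]
  split_ifs <;> ring

end Pool.Agent.RHU
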