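import Pool.Agent.RHU.Leg
import Pool.Agent.RHU.Trig
import Pool.Agent.RHU.Cnt

/-!
# RHU-SinSum: the sine sum over the type
-/

set_option autoImplicit false

namespace Pool.Agent.RHU

open Complex ComplexConjugate Finset

private lemma sinS_ne {D t : ℕ} (h0 : 0 < t) (h1 : t < D) : Real.sin (Real.pi * t / D) ≠ 0 := by
  have hD : (0 : ℝ) < D := by exact_mod_cast (lt_trans h0 h1)
  have ht0 : (0 : ℝ) < t := by exact_mod_cast h0
  have ht1 : (t : ℝ) < D := by exact_mod_cast h1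
  apply ne_of_gt
  apply Real.sin_pos_of_pos_of_lt_pi
  · have := Real.pi_pos
    positivity
  · rw [div_lt_iff₀ hD]
    exact mul_lt_mul_of_pos_left ht1 Real.pi_pos

theorem ga_eq {D b t : ℕ} (ht : t ∈ Ph D b) :
    ga D b t = -(Real.cos (Real.pi * t / D) / Real.sin (Real.pi * t / D) +
      Real.cos (Real.pi * rr D b t / D) / Real.sin (Real.pi * rr D b t / D)) / D := by
  obtain ⟨h0, h1, h2, h3⟩ := Ph_pos ht
  have hD : (D : ℝ) ≠ 0 := by
    have : D ≠ 0 := by omega
    exact_mod_cast this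
  have hs1 := sinS_ne h0 h1
  have hs2 := sinS_ne h2 h3
  have e : Real.pi * ((t : ℝ) / D + (rr D b t : ℝ) / D - 1) =
      (Real.pi * t / D + Real.pi * rr D b t / D) - Real.pi := by
    field_simp
  unfold ga
  rw [e, Real.sin_sub_pi, Real.sin_add]
  field_simp
  ring


private lemma cotS_sub {D t : ℕ} (h0 : 0 < t) (h1 : t < D) :
    Real.cos (Real.pi * (D - t : ℕ) / D) / Real.sin (Real.pi * (D - t : ℕ) / D) =
      -(Real.cos (Real.pi * t / D) / Real.sin (Real.pi * t / D)) := by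
  have hD : (D : ℝ) ≠ 0 := by
    have : D ≠ 0 := by omega
    exact_mod_cast this
  have e : Real.pi * (D - t : ℕ) / D = Real.pi - Real.pi * t / D := by
    rw [Nat.cast_sub h1.le]
    field_simp
  rw [e, Real.cos_pi_sub, Real.sin_pi_sub, neg_div]

private lemma sinS_mod {D : ℕ} (hD : 0 < D) (m : ℕ) :
    Real.sin (2 * Real.pi * (m : ℕ) / D) = Real.sin (2 * (Real.pi * (m % D : ℕ) / D)) := by
  have hD' : (D : ℝ) ≠ 0 := by
    have : D ≠ 0 := by omega
    exact_mod_cast this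
  have e : (m : ℝ) = D * (m / D : ℕ) + (m % D : ℕ) := by
    exact_mod_cast (Nat.div_add_mod m D).symm
  have e2 : 2 * Real.pi * (m : ℕ) / D = 2 * (Real.pi * (m % D : ℕ) / D) +
      (m / D : ℕ) * (2 * Real.pi) := by
    rw [e]
    field_simp
    ring
  rw [e2, Real.sin_add_nat_mul_two_pi]

private lemma cosS_mod {D : ℕ} (hD : 0 < D) (m : ℕ) :
    Real.cos (2 * Real.pi * (m : ℕ) / D) = Real.cos (2 * (Real.pi * (m % D : ℕ) / D)) := by
  have hD' : (D : ℝ) ≠ 0 := by
    have : D ≠ 0 := by omega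
    exact_mod_cast this
  have e : (m : ℝ) = D * (m / D : ℕ) + (m % D : ℕ) := by
    exact_mod_cast (Nat.div_add_mod m D).symm
  have e2 : 2 * Real.pi * (m : ℕ) / D = 2 * (Real.pi * (m % D : ℕ) / D) +
      (m / D : ℕ) * (2 * Real.pi) := by
    rw [e]
    field_simp
    ring
  rw [e2, Real.cos_add_nat_mul_two_pi]

/-- the auxiliary function -/
private noncomputable def GS (D b t : ℕ) : ℝ :=
  Real.cos (Real.pi * t / D) / Real.sin (Real.pi * t / D) *
    Real.sin (2 * Real.pi * (t * b : ℕ) / D) + 1 + Real.cos (2 * Real.pi * (t * b : ℕ) / D)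

/-- the summand -/
private noncomputable def FS (D b t : ℕ) : ℝ :=
  (-(Real.cos (Real.pi * t / D) / Real.sin (Real.pi * t / D) +
      Real.cos (Real.pi * rr D b t / D) / Real.sin (Real.pi * rr D b t / D)) / D) *
    Real.sin (2 * Real.pi * (t * b : ℕ) / D)

private lemma FS_sub {D b t : ℕ} (ht : t ∈ Ph D b) : FS D b (D - t) = FS D b t := by
  obtain ⟨h0, h1, h2, h3⟩ := Ph_pos ht
  have hD : (D : ℝ) ≠ 0 := by
    have : D ≠ 0 := by omega
    exact_mod_cast this
  have e : Real.sin (2 * Real.pi * ((D - t) * b : ℕ) / D) =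
      -Real.sin (2 * Real.pi * (t * b : ℕ) / D) := by
    have e1 : 2 * Real.pi * ((D - t) * b : ℕ) / D =
        (b : ℕ) * (2 * Real.pi) - 2 * Real.pi * (t * b : ℕ) / D := by
      push_cast
      rw [Nat.cast_sub h1.le]
      field_simp
    rw [e1, Real.sin_nat_mul_two_pi_sub]
  unfold FS
  rw [rr_sub ht, cotS_sub h0 h1, cotS_sub h2 h3, e]
  ring

private lemma GS_eq {D b t : ℕ} (h1 : t < D) (hnd : ¬ D ∣ t * b) :
    FS D b t = -(GS D b t) / D := by
  have hD0 : 0 < D := by omega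
  have hD : (D : ℝ) ≠ 0 := by
    have : D ≠ 0 := by omega
    exact_mod_cast this
  have hr0 : 0 < rr D b t := by
    unfold rr
    exact Nat.pos_of_ne_zero (fun h => hnd (Nat.dvd_of_mod_eq_zero h))
  have hr1 : rr D b t < D := Nat.mod_lt _ hD0
  have hs := sinS_ne hr0 hr1
  have e1 : Real.sin (2 * Real.pi * (t * b : ℕ) / D) =
      Real.sin (2 * (Real.pi * rr D b t / D)) := sinS_mod hD0 (t * b)
  have e2 : Real.cos (2 * Real.pi * (t * b : ℕ) / D) =
      Real.cos (2 * (Real.pi * rr D b t / D)) := cosS_mod hD0 (t * b)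
  unfold FS GS
  rw [e1, e2, Real.sin_two_mul, Real.cos_two_mul]
  field_simp
  ring

private lemma GS_zero {D b t : ℕ} (h0 : 0 < t) (h1 : t < D) (hnd : ¬ D ∣ t * b)
    (hd : D ∣ t * (b + 1)) : GS D b t = 0 := by
  have hD0 : 0 < D := by omega
  have hD : (D : ℝ) ≠ 0 := by
    have : D ≠ 0 := by omega
    exact_mod_cast this
  have hr : rr D b t = D - t := by
    have hr0 : 0 < rr D b t := by
      unfold rr
      exact Nat.pos_of_ne_zero (fun h => hnd (Nat.dvd_of_mod_eq_zero h))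
    have hr1 : rr D b t < D := Nat.mod_lt _ hD0
    have h2 : D ∣ t + rr D b t := by
      have e : t * (b + 1) = D * (t * b / D) + (t + rr D b t) := by
        have := Nat.div_add_mod (t * b) D
        unfold rr
        rw [mul_add, mul_one]
        omega
      rw [e] at hd
      exact (Nat.dvd_add_right (dvd_mul_right D _)).1 hd
    obtain ⟨c, hc⟩ := h2
    have hc1 : c = 1 := by
      have hc0 : c ≠ 0 := by
        rintro rfl
        omega
      have hc2 : c < 2 := by
        by_contra hcon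
        push Not at hcon
        have : D * 2 ≤ D * c := Nat.mul_le_mul_left D hcon
        omega
      omega
    rw [hc1, mul_one] at hc
    omega
  have hF : FS D b t = 0 := by
    unfold FS
    rw [hr, cotS_sub h0 h1]
    simp
  have := GS_eq h1 hnd
  rw [hF] at this
  have h3 : -(GS D b t) / D * D = 0 := by rw [← this, zero_mul]
  rw [div_mul_cancel₀ _ hD] at h3
  linarith

private lemma GS_two {D b t : ℕ} (hD0 : 0 < D) (hd : D ∣ t * b) : GS D b t = 2 := by
  have e0 : t * b % D = 0 := Nat.mod_eq_zero_of_dvd hd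
  unfold GS
  rw [sinS_mod hD0 (t * b), cosS_mod hD0 (t * b), e0]
  simp
  norm_num

private lemma cardS_dvd {D b : ℕ} (hD0 : 0 < D) :
    ((Ico 1 D).filter (fun t => D ∣ t * b)).card + 1 = Nat.gcd b D := by
  obtain ⟨b', hb'⟩ := Nat.gcd_dvd_left b D
  obtain ⟨D', hD'⟩ := Nat.gcd_dvd_right b D
  have hg : 0 < Nat.gcd b D := Nat.gcd_pos_of_pos_right b hD0
  have hD'0 : 0 < D' := by
    rcases Nat.eq_zero_or_pos D' with h | h
    · rw [h, mul_zero] at hD'
      omega
    · exact h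
  have hcop : Nat.Coprime D' b' := by
    have h1 := Nat.coprime_div_gcd_div_gcd (m := b) (n := D) hg
    have e1 : b / Nat.gcd b D = b' := Nat.div_eq_of_eq_mul_right hg hb'
    have e2 : D / Nat.gcd b D = D' := Nat.div_eq_of_eq_mul_right hg hD'
    rw [e1, e2] at h1
    exact h1.symm
  have hiff : ∀ t, D ∣ t * b ↔ D' ∣ t := by
    intro t
    have : D ∣ t * b ↔ Nat.gcd b D * D' ∣ Nat.gcd b D * (t * b') := by
      rw [← hD']
      have e : Nat.gcd b D * (t * b') = t * b := by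
        conv_rhs => rw [hb']
        ring
      rw [e]
    rw [this, Nat.mul_dvd_mul_iff_left hg]
    constructor
    · intro h
      exact hcop.dvd_of_dvd_mul_right h
    · intro h
      exact Dvd.dvd.mul_right h b'
  have himg : (Ico 1 D).filter (fun t => D ∣ t * b) =
      (Ico 1 (Nat.gcd b D)).image (fun s => D' * s) := by
    ext t
    simp only [mem_filter, mem_Ico, mem_image, hiff]
    constructor
    · rintro ⟨⟨h1, h2⟩, c, hc⟩
      refine ⟨c, ⟨?_, ?_⟩, hc.symm⟩
      · rcases Nat.eq_zero_or_pos c with h | h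
        · rw [h, mul_zero] at hc
          omega
        · exact h
      · by_contra hcon
        push Not at hcon
        have h3 : D' * Nat.gcd b D ≤ D' * c := Nat.mul_le_mul_left D' hcon
        rw [mul_comm D' (Nat.gcd b D), ← hD', ← hc] at h3
        omega
    · rintro ⟨s, ⟨h1, h2⟩, rfl⟩
      refine ⟨⟨Nat.mul_pos hD'0 h1, ?_⟩, dvd_mul_right D' s⟩
      calc D' * s < D' * Nat.gcd b D := Nat.mul_lt_mul_of_pos_left h2 hD'0
        _ = D := by rw [mul_comm]; exact hD'.symm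
  rw [himg, card_image_of_injective, Nat.card_Ico]
  · omega
  · intro x y hxy
    exact Nat.eq_of_mul_eq_mul_left hD'0 hxy

private lemma sumGS_all {D b : ℕ} (hD : 3 ≤ D) (hb : 0 < b) (hb2 : b + 1 < D) :
    ∑ t ∈ Ico 1 D, GS D b t = 2 * (D : ℝ) - 2 * b - 2 := by
  have hD0 : 0 < D := by omega
  have h1 := sum_cot_sin (D := D) (m := b) hb (by omega)
  have h2 := sum_cos (D := D) hD0 (b : ℤ)
  have hnd : ¬ (D : ℤ) ∣ (b : ℤ) := by
    intro h
    have h3 : D ∣ b := by exact_mod_cast h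
    have := Nat.le_of_dvd hb h3
    omega
  rw [if_neg hnd, Finset.range_eq_Ico, Finset.sum_eq_sum_Ico_succ_bot hD0] at h2
  simp only [Nat.cast_zero, mul_zero, zero_mul, zero_div, Real.cos_zero, zero_add] at h2
  have e : ∀ t ∈ Ico 1 D, GS D b t = Real.cos (Real.pi * t / D) / Real.sin (Real.pi * t / D) *
      Real.sin (2 * Real.pi * t * b / D) + (1 + Real.cos (2 * Real.pi * t * (b : ℤ) / D)) := by
    intro t _
    unfold GS
    have e1 : 2 * Real.pi * (t * b : ℕ) / D = 2 * Real.pi * t * b / D := by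
      push_cast
      ring
    have e2 : 2 * Real.pi * t * ((b : ℤ) : ℝ) / D = 2 * Real.pi * t * b / D := by
      push_cast
      ring
    rw [e1, e2]
    ring
  rw [sum_congr rfl e, sum_add_distrib, h1, sum_add_distrib]
  have h4 : ∑ t ∈ Ico 1 D, (1 : ℝ) = (D : ℝ) - 1 := by
    rw [sum_const, Nat.card_Ico, nsmul_eq_mul, mul_one, Nat.cast_sub (by omega : 1 ≤ D)]
    simp
  rw [h4]
  linarith

private lemma sumGS {D b : ℕ} (hD : 3 ≤ D) (hb : 0 < b) (hb2 : b + 1 < D) :
    ∑ t ∈ (Ico 1 D).filter (fun t => ¬ D ∣ t * b), GS D b t =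
      2 * ((D : ℝ) - b - Nat.gcd b D) := by
  have hD0 : 0 < D := by omega
  have h1 := sumGS_all hD hb hb2
  rw [← sum_filter_add_sum_filter_not (Ico 1 D) (fun t => D ∣ t * b)] at h1
  have h2 : ∑ t ∈ (Ico 1 D).filter (fun t => D ∣ t * b), GS D b t =
      2 * ((Nat.gcd b D : ℝ) - 1) := by
    rw [sum_congr rfl (fun t ht => GS_two hD0 (mem_filter.1 ht).2), sum_const, nsmul_eq_mul]
    have h3 := cardS_dvd (b := b) hD0
    have h4 : (((Ico 1 D).filter (fun t => D ∣ t * b)).card : ℝ) + 1 = Nat.gcd b D := by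
      exact_mod_cast h3
    linarith
  linarith

private lemma sumGS_J {D b : ℕ} (hD : 3 ≤ D) (hb : 0 < b) (hb2 : b + 1 < D) :
    ∑ t ∈ (Ico 1 D).filter (fun t => ¬ D ∣ t * b ∧ ¬ D ∣ t * (b + 1)), GS D b t =
      2 * ((D : ℝ) - b - Nat.gcd b D) := by
  rw [← sumGS hD hb hb2]
  apply sum_subset
  · intro t ht
    rw [mem_filter] at ht ⊢
    exact ⟨ht.1, ht.2.1⟩
  · intro t ht ht'
    rw [mem_filter, mem_Ico] at ht
    rw [mem_filter, mem_Ico] at ht'
    apply GS_zero ht.1.1 ht.1.2 ht.2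
    by_contra hcon
    exact ht' ⟨ht.1, ht.2, hcon⟩

theorem sum_ga_sin {D b : ℕ} (hD : 3 ≤ D) (hb : 0 < b) (hb2 : b + 1 < D) :
    ∑ t ∈ Ph D b, ga D b t * Real.sin (2 * Real.pi * (t * b : ℕ) / D) =
      -(((D : ℝ) - b - Nat.gcd b D) / D) := by
  have hD0 : 0 < D := by omega
  have hD' : (D : ℝ) ≠ 0 := by
    have : D ≠ 0 := by omega
    exact_mod_cast this
  have h1 : ∑ t ∈ Ph D b, ga D b t * Real.sin (2 * Real.pi * (t * b : ℕ) / D) =
      ∑ t ∈ Ph D b, FS D b t := by
    apply sum_congr rfl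
    intro t ht
    rw [ga_eq ht]
    rfl
  have h2 := sum_Ph_real hD hb hb2 (FS D b)
  have h3 : ∑ t ∈ Ph D b, (FS D b t + FS D b (D - t)) = 2 * ∑ t ∈ Ph D b, FS D b t := by
    rw [mul_sum]
    apply sum_congr rfl
    intro t ht
    rw [FS_sub ht]
    ring
  have h4 : ∑ t ∈ (Ico 1 D).filter (fun t => ¬ D ∣ t * b ∧ ¬ D ∣ t * (b + 1)), FS D b t =
      -(2 * ((D : ℝ) - b - Nat.gcd b D)) / D := by
    rw [← sumGS_J hD hb hb2, ← sum_neg_distrib, sum_div]
    apply sum_congr rfl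
    intro t ht
    rw [mem_filter, mem_Ico] at ht
    exact GS_eq ht.1.2 ht.2.1
  rw [h1]
  rw [h3, h4] at h2
  have h5 : ∑ t ∈ Ph D b, FS D b t = -(2 * ((D : ℝ) - b - Nat.gcd b D)) / D / 2 := by
    linarith
  rw [h5]
  field_simp

end Pool.Agent.RHU
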