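import Pool.Agent.RHU.Wa
import Pool.Agent.RHU.Elim
import Pool.Agent.RHU.SinSum

/-!
# RHU-Fgl: the function `fw` continues across the cut

PLAN. `fw_lim`: `Cc (ze^j z) = om^(tj) Cc z` (`Cc_rot_ze`), `Ee w (ze^j z) = Ee (om^j w) z` (`Ee_rot` with `c = ze^j`,
`ze om = 1`), `Ww (ze^j z) = Ww z`; limits `Cc_lim`, `Ee_lim`, `Ww_lim`, continuity of `T`, `exp`.
`fB_rel` (`r > 1`): with `X_t = CB t (-1) r`:
`om^(t(j+b)) CB t 1 r = om^(tj) X_t + la j t` (`CB_rel`, `om ze = 1`), so the argument of `T` on the left is the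
argument on the right plus `lav D b j`: `IsT`. `EB (om^(j+b) w) 1 r = EB (om^j w) (-1) r *
exp(-π ∑ (ga/Bt) Cc t (om^j w)(ze^(tb) - 1))` (`EB_rel` with `om^j w`), `Cc t (om^j w) = ze^(tj) Cc t w`
(`Cc_rot` with `c = om^j`, `c^(D-t) = ze^(tj)`), and `(ga/Bt) ze^(tj)(ze^(tb)-1) = ct * conj (la j t)`.
So the product of these factors is `exp(-π H(u', λ_j))`, `u' = ∑_{k≠i} C(w_k)`. `(ze^(j+b) r)^g = (ze^j r)^g ze^(bg)`.
`WB_rel`. Collect: `π H(u,λ) + (π/2) H(λ,λ) - π H(u',λ) - (WB 1 - WB (-1))` with `u = (om^(tj) X_t)_t + u'` equals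
`π ∑ ga (1 - cos 2πtb/D) + π ∑ ga (ze^(tb) - 1) = π i ∑ ga sin(2πtb/D) = -π i (D - b - gcd b D)/D`
(`sum_ga_sin`; `|om^(tb) - 1|² = 2 - 2 cos`), and `chi0 ze^(-bg) exp(-π i (D - b - gcd b D)/D) = 1` by
`two_mul_gg` (`2 g = D + 1 - gcd b D - gcd (b+1) D`).
-/

set_option autoImplicit false

namespace Pool.Agent.RHU

open Complex ComplexConjugate Filter Topology Finset

noncomputable section

/-- the boundary values of `fw` on the ray `j` -/
def fB (D b : ℕ) (T : (↥(Ph D b) → ℂ) → ℂ) (w : Pt D b → ℂ) (i : Pt D b) (j : ℕ) (σ r : ℝ) : ℂ :=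
  T (fun t => om D ^ ((t : ℕ) * j) * CB D b t σ r + ∑ k ∈ univ.erase i, Cc D b t (w k)) *
    (∏ k ∈ univ.erase i, EB D b (om D ^ j * w k) σ r) /
      ((ze D ^ j * r) ^ gg D b * cexp (WB D b σ r))

variable {D b : ℕ}

private theorem fgl_ze_ne (D : ℕ) : ze D ≠ 0 := by
  intro h
  have := om_mul_ze D
  rw [h, mul_zero] at this
  exact zero_ne_one this

private theorem fgl_ze_pow (hD : 0 < D) (j : ℕ) : (ze D ^ j) ^ D = 1 := by
  rw [← pow_mul, mul_comm, pow_mul, ze_pow D hD, one_pow]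

private theorem fgl_om_pow (hD : 0 < D) (j : ℕ) : (om D ^ j) ^ D = 1 := by
  rw [← pow_mul, mul_comm, pow_mul, om_pow D hD, one_pow]

private theorem fgl_om_ze (D j : ℕ) : om D ^ j * ze D ^ j = 1 := by
  rw [← mul_pow, om_mul_ze, one_pow]

private theorem fgl_fw (hD : 0 < D) (T : (↥(Ph D b) → ℂ) → ℂ) (w : Pt D b → ℂ) (i : Pt D b)
    (j : ℕ) (z : ℂ) : fw D b T w i (ze D ^ j * z) =
      T (fun t => om D ^ ((t : ℕ) * j) * Cc D b t z + ∑ k ∈ univ.erase i, Cc D b t (w k)) *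
        (∏ k ∈ univ.erase i, Ee D b (om D ^ j * w k) z) /
          ((ze D ^ j * z) ^ gg D b * cexp (Ww D b z)) := by
  unfold fw
  have h1 : ∀ t : ↥(Ph D b), Cc D b t (ze D ^ j * z) = om D ^ ((t : ℕ) * j) * Cc D b t z :=
    fun t => Cc_rot_ze hD (Ph_pos t.2).2.1 j z
  have h2 : ∀ k, Ee D b (w k) (ze D ^ j * z) = Ee D b (om D ^ j * w k) z := by
    intro k
    have e := Ee_rot (b := b) hD (fgl_ze_pow hD j) (om D ^ j * w k) z
    have e2 : ze D ^ j * (om D ^ j * w k) = w k := by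
      rw [← mul_assoc, mul_comm (ze D ^ j), fgl_om_ze, one_mul]
    rwa [e2] at e
  have h3 : Ww D b (ze D ^ j * z) = Ww D b z := Ww_rot hD (fgl_ze_pow hD j) z
  rw [h3]
  simp only [h1, h2]

theorem fw_lim (hD : 3 ≤ D) {T : (↥(Ph D b) → ℂ) → ℂ} (hT : Continuous T) {w : Pt D b → ℂ}
    (hw : ∀ k, w k ∈ Om D) (i : Pt D b) (j : ℕ) {σ r : ℝ} (hσ : σ = 1 ∨ σ = -1) (hr : 1 < r) :
    Tendsto (fun z => fw D b T w i (ze D ^ j * z)) (𝓝[hp σ] (r : ℂ)) (𝓝 (fB D b T w i j σ r)) := by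
  have hD0 : 0 < D := by omega
  have hr0 : 0 < r := by linarith
  have hrC : (r : ℂ) ≠ 0 := by exact_mod_cast hr0.ne'
  simp only [fgl_fw hD0]
  unfold fB
  have hid : Tendsto (fun z : ℂ => z) (𝓝[hp σ] (r : ℂ)) (𝓝 (r : ℂ)) :=
    tendsto_id.mono_left nhdsWithin_le_nhds
  refine Tendsto.div (Tendsto.mul ?_ ?_) (Tendsto.mul ?_ ?_) ?_
  · refine (hT.tendsto _).comp ?_
    rw [tendsto_pi_nhds]
    intro t
    exact ((Cc_lim hD0 hσ hr0).const_mul _).add_const _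
  · refine tendsto_finsetProd _ fun k _ => ?_
    exact Ee_lim hD ((rot_Om (fgl_om_pow hD0 j)).2 (hw k)) hσ hr0
  · exact (hid.const_mul _).pow _
  · exact (Complex.continuous_exp.tendsto _).comp (Ww_lim hD0 hσ hr0)
  · exact mul_ne_zero (pow_ne_zero _ (mul_ne_zero (pow_ne_zero _ (fgl_ze_ne D)) hrC))
      (Complex.exp_ne_zero _)

private theorem fgl_sum_Ph (F : ℕ → ℂ) : ∑ t : ↥(Ph D b), F t = ∑ t ∈ Ph D b, F t :=
  Finset.sum_coe_sort (Ph D b) F

/-- `c_t conj(la)` -/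
private theorem fgl_cla (j : ℕ) {t : ℕ} (ht : t ∈ Ph D b) :
    (ct D b t : ℂ) * conj (la D b j t) =
      ((ga D b t / Bt D b t : ℝ) : ℂ) * (ze D ^ (t * j) * (ze D ^ (t * b) - 1)) := by
  have hB : (Bt D b t : ℂ) ≠ 0 := by exact_mod_cast (Bt_pos ht).ne'
  unfold la ct
  rw [map_mul, map_mul, map_sub, map_one, map_pow, map_pow, conj_om, Complex.conj_ofReal]
  push_cast
  field_simp

private theorem fgl_Hadd (u v l : ↥(Ph D b) → ℂ) :
    Hh (cv D b) (fun t => u t + v t) l = Hh (cv D b) u l + Hh (cv D b) v l := by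
  unfold Hh
  rw [← Finset.sum_add_distrib]
  exact Finset.sum_congr rfl fun t _ => by ring

private theorem fgl_H (j : ℕ) (F : ℕ → ℂ) :
    Hh (cv D b) (fun t : ↥(Ph D b) => F t) (lav D b j) =
      ∑ t ∈ Ph D b, ((ga D b t / Bt D b t : ℝ) : ℂ) * (ze D ^ (t * j) * (ze D ^ (t * b) - 1)) *
        F t := by
  rw [← fgl_sum_Ph]
  unfold Hh
  refine Finset.sum_congr rfl fun t _ => ?_
  rw [← fgl_cla j t.2]
  show (ct D b t : ℂ) * (F t * conj (la D b j t)) = _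
  ring

private theorem fgl_HX (j : ℕ) (X : ℕ → ℂ) :
    Hh (cv D b) (fun t : ↥(Ph D b) => om D ^ ((t : ℕ) * j) * X t) (lav D b j) =
      ∑ t ∈ Ph D b, ((ga D b t / Bt D b t : ℝ) : ℂ) * (ze D ^ (t * b) - 1) * X t := by
  rw [fgl_H j (fun t => om D ^ (t * j) * X t)]
  refine Finset.sum_congr rfl fun t _ => ?_
  have h := fgl_om_ze D (t * j)
  calc ((ga D b t / Bt D b t : ℝ) : ℂ) * (ze D ^ (t * j) * (ze D ^ (t * b) - 1)) *
        (om D ^ (t * j) * X t)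
      = (om D ^ (t * j) * ze D ^ (t * j)) *
        (((ga D b t / Bt D b t : ℝ) : ℂ) * (ze D ^ (t * b) - 1) * X t) := by ring
    _ = _ := by rw [h, one_mul]

private theorem fgl_Hl (j : ℕ) :
    Hh (cv D b) (lav D b j) (lav D b j) =
      ∑ t ∈ Ph D b, (ga D b t : ℂ) * (2 - om D ^ (t * b) - ze D ^ (t * b)) := by
  have h := fgl_H (D := D) (b := b) j (la D b j)
  have e : (fun t : ↥(Ph D b) => la D b j t) = lav D b j := rfl
  rw [e] at h
  rw [h]
  refine Finset.sum_congr rfl fun t ht => ?_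
  have hB : (Bt D b t : ℂ) ≠ 0 := by exact_mod_cast (Bt_pos ht).ne'
  have h1 := fgl_om_ze D (t * j)
  have h2 := fgl_om_ze D (t * b)
  unfold la
  push_cast
  calc (ga D b t : ℂ) / Bt D b t * (ze D ^ (t * j) * (ze D ^ (t * b) - 1)) *
        (Bt D b t * (om D ^ (t * j) * (om D ^ (t * b) - 1)))
      = (ga D b t : ℂ) * (Bt D b t / Bt D b t) * (om D ^ (t * j) * ze D ^ (t * j)) *
        (om D ^ (t * b) * ze D ^ (t * b) - om D ^ (t * b) - ze D ^ (t * b) + 1) := by ring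
    _ = _ := by
      rw [h1, h2, div_self hB]
      ring

private theorem fgl_sin (t : ℕ) :
    (ze D ^ (t * b) - om D ^ (t * b)) / 2 =
      I * ((Real.sin (2 * Real.pi * (t * b : ℕ) / D) : ℝ) : ℂ) := by
  have e1 : ze D ^ (t * b) = cexp (((2 * Real.pi * (t * b : ℕ) / D : ℝ) : ℂ) * I) := by
    unfold ze
    rw [← Complex.exp_nat_mul]
    congr 1
    push_cast
    ring
  have e2 : om D ^ (t * b) = cexp (-((2 * Real.pi * (t * b : ℕ) / D : ℝ) : ℂ) * I) := by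
    unfold om
    rw [← Complex.exp_nat_mul]
    congr 1
    push_cast
    ring
  rw [e1, e2, Complex.ofReal_sin, Complex.sin]
  have hI : I * I = -1 := Complex.I_mul_I
  linear_combination (-(cexp (-((2 * Real.pi * (t * b : ℕ) / D : ℝ) : ℂ) * I) -
    cexp (((2 * Real.pi * (t * b : ℕ) / D : ℝ) : ℂ) * I)) / 2) * hI

private theorem fgl_exp (hD : 3 ≤ D) (hb : 0 < b) (hb2 : b + 1 < D) (X : ℕ → ℂ)
    {W : ℂ} (hW : W = Real.pi * ∑ t ∈ Ph D b, ((ga D b t / Bt D b t : ℝ) : ℂ) *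
      (ze D ^ (t * b) - 1) * (X t - Bt D b t)) (j : ℕ) :
    Real.pi * Hh (cv D b) (fun t : ↥(Ph D b) => om D ^ ((t : ℕ) * j) * X t) (lav D b j) +
      Real.pi / 2 * Hh (cv D b) (lav D b j) (lav D b j) - W =
      -(Real.pi * I * (((D : ℂ) - b - Nat.gcd b D) / D)) := by
  have hs := congrArg (fun x : ℝ => (x : ℂ)) (sum_ga_sin hD hb hb2)
  simp only [Complex.ofReal_sum, Complex.ofReal_mul, Complex.ofReal_neg, Complex.ofReal_div,
    Complex.ofReal_sub, Complex.ofReal_natCast] at hs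
  have hW2 : W = Real.pi * ∑ t ∈ Ph D b, ((ga D b t / Bt D b t : ℝ) : ℂ) *
      (ze D ^ (t * b) - 1) * X t - Real.pi * ∑ t ∈ Ph D b, (ga D b t : ℂ) *
      (ze D ^ (t * b) - 1) := by
    rw [hW, ← mul_sub, ← Finset.sum_sub_distrib]
    congr 1
    refine Finset.sum_congr rfl fun t ht => ?_
    have hB : (Bt D b t : ℂ) ≠ 0 := by exact_mod_cast (Bt_pos ht).ne'
    push_cast
    field_simp
  rw [hW2, fgl_HX, fgl_Hl]
  have e : (Real.pi : ℂ) * I * ∑ t ∈ Ph D b, (ga D b t : ℂ) *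
      ((Real.sin (2 * Real.pi * (t * b : ℕ) / D) : ℝ) : ℂ) =
      Real.pi / 2 * (∑ t ∈ Ph D b, (ga D b t : ℂ) * (2 - om D ^ (t * b) - ze D ^ (t * b))) +
      Real.pi * ∑ t ∈ Ph D b, (ga D b t : ℂ) * (ze D ^ (t * b) - 1) := by
    rw [Finset.mul_sum, Finset.mul_sum, Finset.mul_sum, ← Finset.sum_add_distrib]
    refine Finset.sum_congr rfl fun t _ => ?_
    have h := fgl_sin (D := D) (b := b) t
    linear_combination (-(Real.pi * (ga D b t : ℂ))) * h
  linear_combination (-1 : ℂ) * e + (Real.pi * I) * hs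

private theorem fgl_const (hD : 3 ≤ D) (hb : 0 < b) (hb2 : b + 1 < D) :
    chi0 D b * cexp (-(Real.pi * I * (((D : ℂ) - b - Nat.gcd b D) / D))) =
      (ze D ^ b) ^ gg D b := by
  have h2 := congrArg (fun n : ℕ => (n : ℂ)) (two_mul_gg hD hb hb2)
  push_cast at h2
  have hD' : (D : ℂ) ≠ 0 := by
    have : D ≠ 0 := by omega
    exact_mod_cast this
  unfold chi0 ze
  rw [← Complex.exp_add, ← Complex.exp_nat_mul, ← Complex.exp_nat_mul]
  congr 1
  field_simp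
  linear_combination (-(b : ℂ)) * h2

theorem fB_rel (hD : 3 ≤ D) (hb : 0 < b) (hb2 : b + 1 < D) {T : (↥(Ph D b) → ℂ) → ℂ}
    (hT : IsT D b T) {w : Pt D b → ℂ} (hw : ∀ k, ((w k) ^ D).im ≠ 0) (i : Pt D b) (j : ℕ) {r : ℝ}
    (hr : 1 < r) : fB D b T w i (j + b) 1 r = fB D b T w i j (-1) r := by
  have hD0 : 0 < D := by omega
  obtain ⟨X, hX⟩ : ∃ X : ℕ → ℂ, X = fun t => CB D b t (-1) r := ⟨_, rfl⟩
  obtain ⟨U, hU⟩ : ∃ U : ℕ → ℂ, U = fun t => ∑ k ∈ univ.erase i, Cc D b t (w k) := ⟨_, rfl⟩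
  -- the argument of `T`
  have h1 : (fun t : ↥(Ph D b) => om D ^ ((t : ℕ) * (j + b)) * CB D b t 1 r +
      ∑ k ∈ univ.erase i, Cc D b t (w k)) =
      (fun t : ↥(Ph D b) => om D ^ ((t : ℕ) * j) * X t + U t) + lav D b j := by
    funext t
    have hp := Ph_pos t.2
    have e1 := CB_rel (b := b) (t := t) hD0 hp.1 hp.2.1 hr.le
    have e2 : CB D b t 1 r = Bt D b t + ze D ^ ((t : ℕ) * b) * (X t - Bt D b t) := by
      rw [hX, ← e1]
      ring
    show om D ^ ((t : ℕ) * (j + b)) * CB D b t 1 r + ∑ k ∈ univ.erase i, Cc D b t (w k) =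
      om D ^ ((t : ℕ) * j) * X t + U t + la D b j t
    have e3 := fgl_om_ze D ((t : ℕ) * b)
    rw [e2, mul_add (t : ℕ) j b, pow_add, hU]
    unfold la
    linear_combination (om D ^ ((t : ℕ) * j) * (X t - Bt D b t)) * e3
  -- the product
  have h2 : ∏ k ∈ univ.erase i, EB D b (om D ^ (j + b) * w k) 1 r =
      (∏ k ∈ univ.erase i, EB D b (om D ^ j * w k) (-1) r) *
        cexp (-(Real.pi * Hh (cv D b) (fun t : ↥(Ph D b) => U t) (lav D b j))) := by
    have e1 : ∀ k, EB D b (om D ^ (j + b) * w k) 1 r = EB D b (om D ^ j * w k) (-1) r *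
        cexp (-(Real.pi * ∑ t ∈ Ph D b, ((ga D b t / Bt D b t : ℝ) : ℂ) *
          (ze D ^ (t * j) * (ze D ^ (t * b) - 1)) * Cc D b t (w k))) := by
      intro k
      have hwk : ((om D ^ j * w k) ^ D).im ≠ 0 := by
        rw [mul_pow, fgl_om_pow hD0, one_mul]
        exact hw k
      have e2 : om D ^ (j + b) * w k = om D ^ b * (om D ^ j * w k) := by
        rw [pow_add]
        ring
      rw [e2, EB_rel hD hb hb2 hwk hr.le]
      congr 4
      refine Finset.sum_congr rfl fun t ht => ?_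
      have hp := Ph_pos ht
      have e3 : Cc D b t (om D ^ j * w k) = ze D ^ (t * j) * Cc D b t (w k) := by
        rw [Cc_rot hp.2.1 (fgl_om_pow hD0 j)]
        congr 1
        have h4 : (om D ^ j) ^ (D - t) * om D ^ (t * j) = 1 := by
          rw [mul_comm t j, pow_mul (om D) j t, ← pow_add, Nat.sub_add_cancel hp.2.1.le,
            fgl_om_pow hD0]
        have h5 := fgl_om_ze D (t * j)
        have h6 : om D ^ (t * j) ≠ 0 := by
          intro h
          rw [h, zero_mul] at h5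
          exact zero_ne_one h5
        apply mul_right_cancel₀ h6
        rw [h4, mul_comm, h5]
      rw [e3]
      ring
    rw [Finset.prod_congr rfl fun k _ => e1 k, Finset.prod_mul_distrib, ← Complex.exp_sum]
    congr 2
    rw [fgl_H j U, Finset.sum_neg_distrib, ← Finset.mul_sum, Finset.sum_comm]
    congr 2
    refine Finset.sum_congr rfl fun t _ => ?_
    rw [hU, Finset.mul_sum]
  have h3 : ((ze D ^ (j + b) * (r : ℂ)) ^ gg D b : ℂ) =
      (ze D ^ b) ^ gg D b * (ze D ^ j * (r : ℂ)) ^ gg D b := by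
    rw [← mul_pow]
    congr 1
    rw [pow_add]
    ring
  obtain ⟨W, hW⟩ : ∃ W : ℂ, W = WB D b 1 r - WB D b (-1) r := ⟨_, rfl⟩
  have hW2 : W = Real.pi * ∑ t ∈ Ph D b, ((ga D b t / Bt D b t : ℝ) : ℂ) *
      (ze D ^ (t * b) - 1) * (X t - Bt D b t) := by
    rw [hW, WB_rel hD0 hr.le, hX]
  have h4 : cexp (WB D b 1 r) = cexp W * cexp (WB D b (-1) r) := by
    rw [← Complex.exp_add, hW, sub_add_cancel]
  have h5 := fgl_exp hD hb hb2 X hW2 j
  have h6 := fgl_const hD hb hb2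
  have h7 : Hh (cv D b) (fun t : ↥(Ph D b) => om D ^ ((t : ℕ) * j) * X t + U t) (lav D b j) =
      Hh (cv D b) (fun t : ↥(Ph D b) => om D ^ ((t : ℕ) * j) * X t) (lav D b j) +
      Hh (cv D b) (fun t : ↥(Ph D b) => U t) (lav D b j) := fgl_Hadd _ _ _
  have hrC : (r : ℂ) ≠ 0 := by
    have : (r : ℝ) ≠ 0 := by linarith
    exact_mod_cast this
  have n1 : (ze D ^ b) ^ gg D b ≠ 0 := pow_ne_zero _ (pow_ne_zero _ (fgl_ze_ne D))
  have n2 : (ze D ^ j * (r : ℂ)) ^ gg D b ≠ 0 :=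
    pow_ne_zero _ (mul_ne_zero (pow_ne_zero _ (fgl_ze_ne D)) hrC)
  have n3 := Complex.exp_ne_zero W
  have n4 := Complex.exp_ne_zero (WB D b (-1) r)
  obtain ⟨P, hP⟩ : ∃ P : ℂ, P = ∏ k ∈ univ.erase i, EB D b (om D ^ j * w k) (-1) r := ⟨_, rfl⟩
  obtain ⟨V, hV⟩ : ∃ V : ↥(Ph D b) → ℂ,
    V = fun t : ↥(Ph D b) => om D ^ ((t : ℕ) * j) * X t + U t := ⟨_, rfl⟩
  have hR : fB D b T w i j (-1) r = T V * P / ((ze D ^ j * (r : ℂ)) ^ gg D b *
      cexp (WB D b (-1) r)) := by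
    unfold fB
    rw [hP, hV, hX, hU]
  have hL : fB D b T w i (j + b) 1 r = (chi0 D b * cexp (Real.pi * Hh (cv D b) V (lav D b j) +
      Real.pi / 2 * Hh (cv D b) (lav D b j) (lav D b j)) * T V) * (P *
        cexp (-(Real.pi * Hh (cv D b) (fun t : ↥(Ph D b) => U t) (lav D b j)))) /
      ((ze D ^ b) ^ gg D b * (ze D ^ j * (r : ℂ)) ^ gg D b * (cexp W * cexp (WB D b (-1) r))) := by
    unfold fB
    rw [h1, h2, h3, h4, hT.2.2 j, hP, hV]
  have h8 : cexp (Real.pi * Hh (cv D b) V (lav D b j) +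
      Real.pi / 2 * Hh (cv D b) (lav D b j) (lav D b j)) *
      cexp (-(Real.pi * Hh (cv D b) (fun t : ↥(Ph D b) => U t) (lav D b j))) =
      cexp W * cexp (-(Real.pi * I * (((D : ℂ) - b - Nat.gcd b D) / D))) := by
    rw [← Complex.exp_add, ← Complex.exp_add, hV, h7, ← h5]
    congr 1
    ring
  rw [hL, hR, div_eq_div_iff (mul_ne_zero (mul_ne_zero n1 n2) (mul_ne_zero n3 n4))
    (mul_ne_zero n2 n4)]
  calc chi0 D b * cexp (Real.pi * Hh (cv D b) V (lav D b j) +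
      Real.pi / 2 * Hh (cv D b) (lav D b j) (lav D b j)) * T V * (P *
        cexp (-(Real.pi * Hh (cv D b) (fun t : ↥(Ph D b) => U t) (lav D b j)))) *
        ((ze D ^ j * (r : ℂ)) ^ gg D b * cexp (WB D b (-1) r))
      = (chi0 D b * (cexp (Real.pi * Hh (cv D b) V (lav D b j) +
      Real.pi / 2 * Hh (cv D b) (lav D b j) (lav D b j)) *
        cexp (-(Real.pi * Hh (cv D b) (fun t : ↥(Ph D b) => U t) (lav D b j))))) *
        (T V * P * ((ze D ^ j * (r : ℂ)) ^ gg D b * cexp (WB D b (-1) r))) := by ring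
    _ = ((ze D ^ b) ^ gg D b * cexp W) *
        (T V * P * ((ze D ^ j * (r : ℂ)) ^ gg D b * cexp (WB D b (-1) r))) := by
      rw [h8, ← h6]
      ring
    _ = _ := by ring

end

end Pool.Agent.RHU
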