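import Mathlib

/-!
# RHU-Liou: Laurent polynomials (Mathlib only)

PLAN. The bounds extend from the dense set `1 - x ∈ slitPlane` to all `x ≠ 0` by continuity of `k`. Let
`K(y) = k(1/y)`, `y ≠ 0`: near `0`, `‖K y‖ ≤ M ‖y‖^(-σ)`, `σ < 1`: removable singularity; so `K` extends to an entire
function with `‖K y‖ ≤ M ‖y‖^κ` for `‖y‖ ≥ 1/c`: polynomial of degree `≤ κ` (Cauchy estimates for the
Taylor coefficients, `Complex.hasSum_taylorSeries_of_entire`...). If `σ < 0` then `K(0) = 0`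
(`‖K y‖ ≤ M ‖y‖^(-σ) → 0`), so all exponents `m` with nonzero coefficient satisfy `m ≥ 1 > -σ` when
`-1 < σ < 0`; if `0 ≤ σ` then `m ≥ 0 ≥ -σ`.
-/

set_option autoImplicit false

namespace Pool.Agent.RHU

open Complex Filter Topology Finset

private theorem liou_bd {k : ℂ → ℂ} (hk : DifferentiableOn ℂ k {0}ᶜ) {B : ℝ} {x : ℂ}
    (hx : x ≠ 0) (h : ∀ y : ℂ, 1 - y ∈ slitPlane → ‖y‖ = ‖x‖ → ‖k y‖ ≤ B) : ‖k x‖ ≤ B := by
  by_cases hs : 1 - x ∈ slitPlane
  · exact h x hs rfl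
  · have hs' : (1 - x).re ≤ 0 ∧ (1 - x).im = 0 := by
      rw [mem_slitPlane_iff, not_or, not_lt, not_not] at hs
      exact hs
    have him : x.im = 0 := by
      have := hs'.2
      simp only [sub_im, one_im, zero_sub, neg_eq_zero] at this
      exact this
    have hre : 1 ≤ x.re := by
      have := hs'.1
      simp only [sub_re, one_re] at this
      linarith
    have hcont : ContinuousAt k x :=
      (hk.differentiableAt (isOpen_compl_singleton.mem_nhds hx)).continuousAt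
    have hx1 : Tendsto (fun n : ℕ => x * exp (((1 / ((n : ℝ) + 1) : ℝ) : ℂ) * I)) atTop (𝓝 x) := by
      have h1 : Tendsto (fun n : ℕ => (1 / ((n : ℝ) + 1) : ℝ)) atTop (𝓝 0) :=
        tendsto_one_div_add_atTop_nhds_zero_nat
      have h2 : Continuous (fun t : ℝ => x * exp ((t : ℂ) * I)) := by fun_prop
      have h3 := (h2.tendsto 0).comp h1
      simpa [Function.comp_def] using h3
    have ht := (hcont.tendsto.comp hx1).norm
    refine le_of_tendsto' ht fun n => ?_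
    have ht0 : (0 : ℝ) < 1 / ((n : ℝ) + 1) := by positivity
    have ht1 : 1 / ((n : ℝ) + 1) ≤ 1 := by
      rw [div_le_one (by positivity)]
      have : (0 : ℝ) ≤ n := Nat.cast_nonneg n
      linarith
    refine h _ ?_ ?_
    · rw [mem_slitPlane_iff]
      right
      have hsin : 0 < Real.sin (1 / ((n : ℝ) + 1)) :=
        Real.sin_pos_of_pos_of_lt_pi ht0 (lt_of_le_of_lt ht1 (by linarith [Real.pi_gt_three]))
      have : (1 - x * exp (((1 / ((n : ℝ) + 1) : ℝ) : ℂ) * I)).im =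
          -(x.re * Real.sin (1 / ((n : ℝ) + 1))) := by
        rw [sub_im, mul_im, exp_ofReal_mul_I_re, exp_ofReal_mul_I_im, him, one_im]
        ring
      rw [this]
      have : 0 < x.re * Real.sin (1 / ((n : ℝ) + 1)) := by positivity
      linarith
    · rw [norm_mul, norm_exp_ofReal_mul_I, mul_one]

private theorem liou_poly {K : ℂ → ℂ} (hK : Differentiable ℂ K) {M κ c : ℝ} (hc : 0 < c)
    (hκ : 0 ≤ κ) (h : ∀ y : ℂ, 1 / c ≤ ‖y‖ → ‖K y‖ ≤ M * ‖y‖ ^ κ) (m : ℕ) (hm : κ < m) :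
    iteratedDeriv m K 0 = 0 := by
  rw [← norm_le_zero_iff]
  have hlim : Tendsto (fun R : ℝ => (m.factorial : ℝ) * M * R ^ (-((m : ℝ) - κ))) atTop
      (𝓝 ((m.factorial : ℝ) * M * 0)) :=
    (tendsto_rpow_neg_atTop (by linarith : (0 : ℝ) < (m : ℝ) - κ)).const_mul _
  rw [mul_zero] at hlim
  refine ge_of_tendsto hlim ?_
  filter_upwards [eventually_ge_atTop (1 / c), eventually_gt_atTop 0] with R hR hR0
  have h1 : ‖iteratedDeriv m K 0‖ ≤ m.factorial * (M * R ^ κ) / R ^ m := by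
    refine norm_iteratedDeriv_le_of_forall_mem_sphere_norm_le m hR0 hK.diffContOnCl
      fun z hz => ?_
    have hz' : ‖z‖ = R := by simpa using hz
    have := h z (by rw [hz']; exact hR)
    rwa [hz'] at this
  refine h1.trans (le_of_eq ?_)
  rw [Real.rpow_neg hR0.le, Real.rpow_sub hR0, Real.rpow_natCast]
  have hp : R ^ κ ≠ 0 := (Real.rpow_pos_of_pos hR0 κ).ne'
  field_simp

theorem laurent_poly {k : ℂ → ℂ} (hk : DifferentiableOn ℂ k {0}ᶜ) {M κ σ c : ℝ} (hc : 0 < c)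
    (hκ : 0 ≤ κ) (hσ : -1 < σ) (hσ1 : σ < 1)
    (h0 : ∀ x : ℂ, 1 - x ∈ slitPlane → 0 < ‖x‖ → ‖x‖ ≤ c → ‖k x‖ ≤ M * ‖x‖ ^ (-κ))
    (hi : ∀ x : ℂ, 1 - x ∈ slitPlane → 2 ≤ ‖x‖ → ‖k x‖ ≤ M * ‖x‖ ^ σ) :
    ∃ a : ℕ → ℂ, (∀ m : ℕ, a m ≠ 0 → (m : ℝ) ≤ κ ∧ -σ ≤ m) ∧
      ∀ x : ℂ, x ≠ 0 → k x = ∑ m ∈ range (⌊κ⌋₊ + 1), a m / x ^ m := by
  -- the bounds everywhere
  have h0' : ∀ x : ℂ, x ≠ 0 → ‖x‖ ≤ c → ‖k x‖ ≤ M * ‖x‖ ^ (-κ) := fun x hx hxc =>
    liou_bd hk hx fun y hy hyx => by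
      have := h0 y hy (by rw [hyx]; exact norm_pos_iff.2 hx) (by rw [hyx]; exact hxc)
      rwa [hyx] at this
  have hi' : ∀ x : ℂ, x ≠ 0 → 2 ≤ ‖x‖ → ‖k x‖ ≤ M * ‖x‖ ^ σ := fun x hx hxc =>
    liou_bd hk hx fun y hy hyx => by
      have := hi y hy (by rw [hyx]; exact hxc)
      rwa [hyx] at this
  set K0 : ℂ → ℂ := fun y => k y⁻¹ with hK0
  have hK0b : ∀ y : ℂ, y ≠ 0 → ‖y‖ ≤ 1 / 2 → ‖K0 y‖ ≤ M * ‖y‖ ^ (-σ) := by
    intro y hy hy2
    have hpos : 0 < ‖y‖ := norm_pos_iff.2 hy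
    have := hi' y⁻¹ (inv_ne_zero hy) (by
      rw [norm_inv, le_inv_comm₀ (by norm_num) hpos]
      linarith)
    rwa [norm_inv, Real.inv_rpow hpos.le, ← Real.rpow_neg hpos.le] at this
  have hK0g : ∀ y : ℂ, y ≠ 0 → 1 / c ≤ ‖y‖ → ‖K0 y‖ ≤ M * ‖y‖ ^ κ := by
    intro y hy hy2
    have hpos : 0 < ‖y‖ := norm_pos_iff.2 hy
    have := h0' y⁻¹ (inv_ne_zero hy) (by
      rw [norm_inv, inv_le_comm₀ hpos hc]
      rwa [one_div] at hy2)
    rwa [norm_inv, Real.inv_rpow hpos.le, ← Real.rpow_neg hpos.le, neg_neg] at this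
  have hd0 : DifferentiableOn ℂ K0 (Set.univ \ {0}) := by
    intro y hy
    have hy0 : y ≠ 0 := by simpa using hy.2
    have h1 : DifferentiableAt ℂ k y⁻¹ :=
      hk.differentiableAt (isOpen_compl_singleton.mem_nhds (inv_ne_zero hy0))
    exact (h1.comp y (differentiableAt_inv hy0)).differentiableWithinAt
  have hno : Tendsto (fun z : ℂ => ‖z‖) (𝓝[≠] 0) (𝓝 0) := by
    have : Tendsto (fun z : ℂ => ‖z‖) (𝓝 0) (𝓝 ‖(0 : ℂ)‖) := continuous_norm.tendsto 0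
    rw [norm_zero] at this
    exact this.mono_left nhdsWithin_le_nhds
  have hsmall : ∀ᶠ z : ℂ in 𝓝[≠] 0, z ≠ 0 ∧ ‖z‖ ≤ 1 / 2 := by
    refine (eventually_mem_nhdsWithin).and ?_
    exact (hno.eventually (ge_mem_nhds (by norm_num : (0 : ℝ) < 1 / 2)))
  have hlo : (fun z => K0 z - K0 0) =o[𝓝[≠] 0] fun z => (z - 0)⁻¹ := by
    rw [Asymptotics.isLittleO_iff_tendsto' ?_]
    · have hb : Tendsto (fun z : ℂ => M * ‖z‖ ^ (1 - σ) + ‖K0 0‖ * ‖z‖) (𝓝[≠] 0)
          (𝓝 (M * 0 ^ (1 - σ) + ‖K0 0‖ * 0)) :=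
        ((hno.rpow_const (Or.inr (by linarith))).const_mul M).add (hno.const_mul _)
      rw [Real.zero_rpow (by linarith : (1 : ℝ) - σ ≠ 0), mul_zero, mul_zero, add_zero] at hb
      refine squeeze_zero_norm' ?_ hb
      filter_upwards [hsmall] with z hz
      have hpos : 0 < ‖z‖ := norm_pos_iff.2 hz.1
      rw [sub_zero, div_inv_eq_mul, norm_mul]
      have h1 : ‖K0 z - K0 0‖ ≤ M * ‖z‖ ^ (-σ) + ‖K0 0‖ :=
        (norm_sub_le _ _).trans (add_le_add (hK0b z hz.1 hz.2) le_rfl)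
      calc ‖K0 z - K0 0‖ * ‖z‖ ≤ (M * ‖z‖ ^ (-σ) + ‖K0 0‖) * ‖z‖ :=
            mul_le_mul_of_nonneg_right h1 hpos.le
        _ = M * (‖z‖ ^ (-σ) * ‖z‖) + ‖K0 0‖ * ‖z‖ := by ring
        _ = M * ‖z‖ ^ (1 - σ) + ‖K0 0‖ * ‖z‖ := by
            rw [← Real.rpow_add_one hpos.ne', show -σ + 1 = 1 - σ by ring]
    · filter_upwards [hsmall] with z hz h
      rw [sub_zero] at h
      exact absurd h (inv_ne_zero hz.1)
  set K : ℂ → ℂ := Function.update K0 0 (limUnder (𝓝[≠] 0) K0) with hKd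
  have hK : Differentiable ℂ K :=
    differentiableOn_univ.1 (differentiableOn_update_limUnder_of_isLittleO univ_mem hd0 hlo)
  have hKe : ∀ y : ℂ, y ≠ 0 → K y = K0 y := fun y hy => Function.update_of_ne hy _ _
  have hKg : ∀ y : ℂ, 1 / c ≤ ‖y‖ → ‖K y‖ ≤ M * ‖y‖ ^ κ := by
    intro y hy
    have hy0 : y ≠ 0 := by
      intro h
      rw [h, norm_zero] at hy
      have : 0 < 1 / c := by positivity
      linarith
    rw [hKe y hy0]
    exact hK0g y hy0 hy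
  have hz := liou_poly hK hc hκ hKg
  have hK00 : σ < 0 → K 0 = 0 := by
    intro hσ0
    have h1 : Tendsto K (𝓝[≠] 0) (𝓝 (K 0)) :=
      (hK.continuous.tendsto 0).mono_left nhdsWithin_le_nhds
    have h2 : Tendsto K (𝓝[≠] 0) (𝓝 0) := by
      have hb : Tendsto (fun z : ℂ => M * ‖z‖ ^ (-σ)) (𝓝[≠] 0) (𝓝 (M * 0 ^ (-σ))) :=
        (hno.rpow_const (Or.inr (by linarith))).const_mul M
      rw [Real.zero_rpow (by linarith : -σ ≠ 0), mul_zero] at hb
      refine squeeze_zero_norm' ?_ hb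
      filter_upwards [hsmall] with z hz
      rw [hKe z hz.1]
      exact hK0b z hz.1 hz.2
    exact tendsto_nhds_unique h1 h2
  refine ⟨fun m => ((m.factorial : ℂ))⁻¹ * iteratedDeriv m K 0, fun m hm => ?_, fun x hx => ?_⟩
  · constructor
    · by_contra hcon
      exact hm (by simp only [hz m (not_le.1 hcon), mul_zero])
    · rcases Nat.eq_zero_or_pos m with rfl | hm1
      · by_contra hcon
        have hσ0 : σ < 0 := by
          have := not_le.1 hcon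
          simp only [Nat.cast_zero] at this
          linarith
        refine hm ?_
        simp [hK00 hσ0]
      · have : (1 : ℝ) ≤ m := by exact_mod_cast hm1
        linarith
  · have hx1 : k x = K x⁻¹ := by
      rw [hKe _ (inv_ne_zero hx), hK0]
      simp only [inv_inv]
    rw [hx1, ← taylorSeries_eq_of_entire' 0 x⁻¹ hK]
    rw [tsum_eq_sum (s := range (⌊κ⌋₊ + 1))]
    · refine sum_congr rfl fun m _ => ?_
      rw [sub_zero, inv_pow, div_eq_mul_inv]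
    · intro m hm
      have hm' : ⌊κ⌋₊ < m := by
        rw [mem_range, not_lt] at hm
        omega
      have : κ < m := (Nat.floor_lt hκ).1 hm'
      rw [hz m this]
      simp

end Pool.Agent.RHU
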