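import Pool.Agent.RHU.Desc
import Pool.Agent.RHU.Liou

/-!
# RHU-Lpl: functions on the curve with the only pole over `x = 0`

PLAN. For `t < D` let `Ψ_t(z) = (1/D) ∑_{j<D} ze^(jt) z^t f(ze^j z) / eta(z)^(kk t)` on `Om D - {0}`: invariant
under `z → c z`, `c^D = 1` (`c = ze^i`; reindex the sum modulo `D`), `descend` gives `k_t`. `extend`: at `x > 1`,
`r = x^(1/D)`; for `x' → x` inside `hp σ`, `z = x'^(1/D) → r` inside `hp σ` (near `r`, `σ Im z > 0`), so the limit is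
`(1/D) ∑_j ze^(jt) r^t fB j σ r / (etaB σ r)^(kk t)`. EQUAL for both sides: `etaB 1 = om etaB (-1)` gives the
factor `ze^(kk t) = ze^(-tb)`; `∑_j ze^(jt) fB j 1 r = ∑_j ze^((j+b)t) fB (j+b) 1 r` (periodic in `j`: `fB (j+D) = fB j`
by uniqueness of limits, `neBot_hp`) `= ze^(bt) ∑_j ze^(jt) fB j (-1) r`. Near `x = 1` `f` is bounded,
`‖eta‖^kk = ‖1-x‖^(kk/D)`, `δ = kk t/D < 1`. `laurent_poly` with `κ = (K - t)/D`, `σ = t/D - kk t/D ∈ (-1,1)`,
`c = 2^(-D)` (`‖z‖ ≤ 1/2`, `‖1-z^D‖ ≥ 1/2`), for `‖x‖ ≥ 2`: `‖1-x‖ ≥ ‖x‖/2`. So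
`k_t(x) = ∑_i a_{t,i} x^(-i)`, `D i + t ≤ K`, `D i + t ≥ kk t`. Fourier inversion
`f(z) = ∑_{t<D} z^(-t) eta^(kk t) k_t(z^D)`, `kk (D i + t) = kk t`: the coefficient of `psi m`, `m = D i + t`, is
`a_{t,i}` (`m % D = t`, `m / D = i`), and only `m ∈ Val D b K` occur.
-/

set_option autoImplicit false

namespace Pool.Agent.RHU

open Complex Filter Topology Finset

private theorem lpl_shift (D : ℕ) (g : ℕ → ℂ) (hg : ∀ j, g (j + D) = g j) (b : ℕ) :
    ∑ j ∈ range D, g (j + b) = ∑ j ∈ range D, g j := by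
  induction b with
  | zero => rfl
  | succ b ih =>
    rw [← ih]
    have h1 := Finset.sum_range_succ (fun j => g (j + b)) D
    have h2 := Finset.sum_range_succ' (fun j => g (j + b)) D
    have h3 : g (D + b) = g (0 + b) := by
      rw [add_comm D b, hg, zero_add]
    have h4 : ∀ j, g (j + (b + 1)) = g (j + 1 + b) := fun j => by
      congr 1
      omega
    simp only [h4]
    rw [h1, h3] at h2
    exact (add_right_cancel h2).symm

private theorem lpl_prim {D : ℕ} (hD : 0 < D) : IsPrimitiveRoot (ze D) D := by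
  have h := Complex.isPrimitiveRoot_exp D hD.ne'
  exact h

private noncomputable def lplP (D b t : ℕ) (f : ℂ → ℂ) (z : ℂ) : ℂ :=
  (1 / (D : ℂ)) * (z ^ t / eta D z ^ kk D b t * ∑ j ∈ range D, ze D ^ (j * t) * f (ze D ^ j * z))

private theorem lplP_rot {D b t : ℕ} (hD : 0 < D) (f : ℂ → ℂ) {c z : ℂ} (hc : c ^ D = 1) :
    lplP D b t f (c * z) = lplP D b t f z := by
  have : NeZero D := ⟨hD.ne'⟩
  obtain ⟨i, _, hi⟩ := (lpl_prim hD).eq_pow_of_pow_eq_one hc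
  unfold lplP
  rw [eta_rot hc, mul_pow]
  have h1 : ∑ j ∈ range D, ze D ^ ((j + i) * t) * f (ze D ^ (j + i) * z) =
      ∑ j ∈ range D, ze D ^ (j * t) * f (ze D ^ j * z) := by
    refine lpl_shift D (fun j => ze D ^ (j * t) * f (ze D ^ j * z)) (fun j => ?_) i
    have e1 : ze D ^ ((j + D) * t) = ze D ^ (j * t) := by
      rw [add_mul, pow_add, pow_mul (ze D) D t, ze_pow D hD, one_pow, mul_one]
    have e2 : ze D ^ (j + D) = ze D ^ j := by
      rw [pow_add, ze_pow D hD, mul_one]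
    rw [e1, e2]
  have h2 : ∀ j, ze D ^ ((j + i) * t) * f (ze D ^ (j + i) * z) =
      c ^ t * (ze D ^ (j * t) * f (ze D ^ j * (c * z))) := by
    intro j
    have e1 : ze D ^ (j + i) * z = ze D ^ j * (c * z) := by
      rw [pow_add, ← hi]
      ring
    rw [e1, add_mul, pow_add, pow_mul (ze D) i t, hi]
    ring
  simp only [h2] at h1
  rw [← Finset.mul_sum] at h1
  rw [← h1]
  ring

private theorem lplP_diff {D b t : ℕ} (hD : 0 < D) {f : ℂ → ℂ}
    (hf : DifferentiableOn ℂ f (Om D \ {0})) :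
    DifferentiableOn ℂ (lplP D b t f) (Om D \ {0}) := by
  have hze : ze D ≠ 0 := Complex.exp_ne_zero _
  unfold lplP
  refine DifferentiableOn.const_mul (DifferentiableOn.mul (DifferentiableOn.div ?_ ?_ ?_) ?_) _
  · exact (differentiable_id.pow t).differentiableOn
  · exact ((differentiableOn_eta hD).mono Set.sdiff_subset).fun_pow _
  · intro z hz
    exact pow_ne_zero _ (eta_ne hz.1)
  · refine DifferentiableOn.fun_sum fun j _ => DifferentiableOn.const_mul ?_ _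
    refine hf.comp ((differentiable_id.const_mul (ze D ^ j)).differentiableOn) ?_
    intro z hz
    refine ⟨(rot_Om ?_).2 hz.1, ?_⟩
    · rw [← pow_mul, mul_comm j D, pow_mul, ze_pow D hD, one_pow]
    · intro h
      rcases mul_eq_zero.1 h with h | h
      · exact pow_ne_zero _ hze h
      · exact hz.2 h

private theorem lpl_inv {D b : ℕ} (hD : 0 < D) (f : ℂ → ℂ) {z : ℂ} (hz : z ∈ Om D) (hz0 : z ≠ 0) :
    f z = ∑ t ∈ range D, eta D z ^ kk D b t / z ^ t * lplP D b t f z := by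
  have hη : eta D z ≠ 0 := eta_ne hz
  have hDC : (D : ℂ) ≠ 0 := Nat.cast_ne_zero.2 hD.ne'
  have h1 : ∀ t, eta D z ^ kk D b t / z ^ t * lplP D b t f z =
      (1 / (D : ℂ)) * ∑ j ∈ range D, ze D ^ (j * t) * f (ze D ^ j * z) := by
    intro t
    unfold lplP
    have e1 : eta D z ^ kk D b t ≠ 0 := pow_ne_zero _ hη
    have e2 : z ^ t ≠ 0 := pow_ne_zero _ hz0
    generalize ∑ j ∈ range D, ze D ^ (j * t) * f (ze D ^ j * z) = S
    field_simp
  simp only [h1]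
  rw [← Finset.mul_sum, Finset.sum_comm]
  have h2 : ∀ j ∈ range D, ∑ t ∈ range D, ze D ^ (j * t) * f (ze D ^ j * z) =
      if j = 0 then (D : ℂ) * f z else 0 := by
    intro j hj
    rw [← Finset.sum_mul]
    by_cases hj0 : j = 0
    · subst hj0
      rw [if_pos rfl]
      simp
    · rw [if_neg hj0]
      have hne : ze D ^ j ≠ 1 :=
        (lpl_prim hD).pow_ne_one_of_pos_of_lt hj0 (Finset.mem_range.1 hj)
      have hs : (∑ t ∈ range D, (ze D ^ j) ^ t) * (ze D ^ j - 1) = 0 := by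
        rw [geom_sum_mul, ← pow_mul, mul_comm j D, pow_mul, ze_pow D hD, one_pow, sub_self]
      have hs2 := (mul_eq_zero.1 hs).resolve_right (sub_ne_zero.2 hne)
      simp only [← pow_mul] at hs2
      rw [hs2, zero_mul]
  rw [Finset.sum_congr rfl h2, Finset.sum_ite_eq' , if_pos (Finset.mem_range.2 hD)]
  field_simp

private theorem lplP_bound {D b t : ℕ} (hD : 0 < D) (f : ℂ → ℂ) {z : ℂ} {B : ℝ}
    (hB : ∀ j, ‖f (ze D ^ j * z)‖ ≤ B) :
    ‖lplP D b t f z‖ ≤ ‖z‖ ^ t / ‖eta D z‖ ^ kk D b t * B := by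
  have hDR : (0 : ℝ) < D := Nat.cast_pos.2 hD
  unfold lplP
  rw [norm_mul, norm_mul, norm_div, norm_div, norm_pow, norm_pow, norm_one, Complex.norm_natCast]
  have h1 : ‖∑ j ∈ range D, ze D ^ (j * t) * f (ze D ^ j * z)‖ ≤ D * B := by
    refine (norm_sum_le _ _).trans ?_
    calc ∑ j ∈ range D, ‖ze D ^ (j * t) * f (ze D ^ j * z)‖ ≤ ∑ j ∈ range D, B := by
          refine Finset.sum_le_sum fun j _ => ?_
          rw [norm_mul, norm_pow, norm_ze, one_pow, one_mul]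
          exact hB j
      _ = D * B := by rw [Finset.sum_const, Finset.card_range, nsmul_eq_mul]
  have h2 : 0 ≤ ‖z‖ ^ t / ‖eta D z‖ ^ kk D b t := by positivity
  calc 1 / (D : ℝ) * (‖z‖ ^ t / ‖eta D z‖ ^ kk D b t *
        ‖∑ j ∈ range D, ze D ^ (j * t) * f (ze D ^ j * z)‖) ≤
      1 / (D : ℝ) * (‖z‖ ^ t / ‖eta D z‖ ^ kk D b t * (D * B)) :=
        mul_le_mul_of_nonneg_left (mul_le_mul_of_nonneg_left h1 h2) (by positivity)
    _ = _ := by
      field_simp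

/-! ### the `D`-th root -/

private theorem rt_pow {D : ℕ} (hD : 0 < D) (x : ℂ) : (x ^ ((D : ℂ)⁻¹)) ^ D = x :=
  Complex.cpow_nat_inv_pow _ hD.ne'

private theorem rt_norm {D : ℕ} (x : ℂ) : ‖x ^ ((D : ℂ)⁻¹)‖ = ‖x‖ ^ ((D : ℝ)⁻¹) := by
  rw [← Complex.norm_cpow_real]
  push_cast
  rfl

private theorem rt_im {D : ℕ} (hD : 0 < D) {σ : ℝ} (hσ : σ = 1 ∨ σ = -1) {x : ℂ}
    (hx : x ∈ hp σ) : x ^ ((D : ℂ)⁻¹) ∈ hp σ := by
  have hDR : (0 : ℝ) < D := Nat.cast_pos.2 hD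
  have hD1 : (1 : ℝ) ≤ D := by exact_mod_cast hD
  have hx' : 0 < σ * x.im := hx
  have hx0 : x ≠ 0 := by
    intro h
    rw [h, Complex.zero_im, mul_zero] at hx'
    exact lt_irrefl _ hx'
  have h1 : (x ^ ((D : ℂ)⁻¹)).im = ‖x‖ ^ ((D : ℝ)⁻¹) * Real.sin (arg x / D) := by
    rw [Complex.cpow_def_of_ne_zero hx0, Complex.exp_im]
    have e1 : (Complex.log x * (D : ℂ)⁻¹).re = Real.log ‖x‖ * (D : ℝ)⁻¹ := by
      have : (Complex.log x * (D : ℂ)⁻¹) = Complex.log x * (((D : ℝ)⁻¹ : ℝ) : ℂ) := by push_cast; rfl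
      rw [this, Complex.re_mul_ofReal, Complex.log_re]
    have e2 : (Complex.log x * (D : ℂ)⁻¹).im = arg x / D := by
      have : (Complex.log x * (D : ℂ)⁻¹) = Complex.log x * (((D : ℝ)⁻¹ : ℝ) : ℂ) := by push_cast; rfl
      rw [this, Complex.im_mul_ofReal, Complex.log_im]
      rfl
    rw [e1, e2, Real.rpow_def_of_pos (norm_pos_iff.2 hx0)]
  change 0 < σ * (x ^ ((D : ℂ)⁻¹)).im
  rw [h1]
  have hpos : 0 < ‖x‖ ^ ((D : ℝ)⁻¹) := Real.rpow_pos_of_pos (norm_pos_iff.2 hx0) _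
  rcases hσ with hσ | hσ
  · rw [hσ, one_mul] at hx' ⊢
    refine mul_pos hpos (Real.sin_pos_of_pos_of_lt_pi ?_ ?_)
    · have : 0 < arg x := by
        rcases (Complex.arg_nonneg_iff.2 hx'.le).lt_or_eq with h | h
        · exact h
        · exfalso
          have := (Complex.arg_eq_zero_iff.1 h.symm).2
          rw [this] at hx'
          exact lt_irrefl _ hx'
      positivity
    · rw [div_lt_iff₀ hDR]
      have h2 : arg x < Real.pi := by
        rcases (Complex.arg_le_pi x).lt_or_eq with h | h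
        · exact h
        · exfalso
          have := (Complex.arg_eq_pi_iff.1 h).2
          rw [this] at hx'
          exact lt_irrefl _ hx'
      have := Real.pi_pos
      nlinarith
  · rw [hσ] at hx' ⊢
    have hneg : x.im < 0 := by linarith
    have ha : arg x < 0 := Complex.arg_neg_iff.2 hneg
    have hs : Real.sin (arg x / D) < 0 := by
      apply Real.sin_neg_of_neg_of_neg_pi_lt
      · exact div_neg_of_neg_of_pos ha hDR
      · rw [lt_div_iff₀ hDR]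
        have := Complex.neg_pi_lt_arg x
        have := Real.pi_pos
        nlinarith
    nlinarith

private theorem rt_lim {D : ℕ} (hD : 0 < D) {σ x : ℝ} (hσ : σ = 1 ∨ σ = -1) (hx : 0 < x) :
    Tendsto (fun y : ℂ => y ^ ((D : ℂ)⁻¹)) (𝓝[hp σ] (x : ℂ))
      (𝓝[hp σ] (((x ^ ((D : ℝ)⁻¹) : ℝ)) : ℂ)) := by
  refine tendsto_nhdsWithin_iff.2 ⟨?_, ?_⟩
  · have h1 : ContinuousAt (fun y : ℂ => y ^ ((D : ℂ)⁻¹)) (x : ℂ) := by
      refine ContinuousAt.cpow continuousAt_id continuousAt_const ?_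
      rw [Complex.mem_slitPlane_iff]
      left
      exact hx
    have h2 : ((x ^ ((D : ℝ)⁻¹) : ℝ) : ℂ) = (x : ℂ) ^ ((D : ℂ)⁻¹) := by
      rw [Complex.ofReal_cpow hx.le]
      push_cast
      rfl
    rw [h2]
    exact h1.tendsto.mono_left nhdsWithin_le_nhds
  · filter_upwards [self_mem_nhdsWithin] with y hy
    exact rt_im hD hσ hy

private theorem lpl_sum (D N : ℕ) (G : ℕ → ℂ) :
    ∑ m ∈ range (D * N), G m = ∑ i ∈ range N, ∑ t ∈ range D, G (D * i + t) := by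
  induction N with
  | zero => simp
  | succ N ih =>
    rw [Nat.mul_succ, Finset.sum_range_add, ih, Finset.sum_range_succ]

private theorem kk_lt {D b t : ℕ} (hD : 0 < D) : kk D b t < D := Nat.mod_lt _ hD

private theorem kk_mod {D b m : ℕ} : kk D b m = kk D b (m % D) := by
  unfold kk
  rw [Nat.mul_mod m b D, Nat.mul_mod (m % D) b D, Nat.mod_mod]

private theorem ze_kk {D b t : ℕ} (hD : 0 < D) : ze D ^ kk D b t * ze D ^ (t * b) = 1 := by
  have h1 : ∀ n, ze D ^ n = ze D ^ (n % D) := by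
    intro n
    conv_lhs => rw [← Nat.div_add_mod n D]
    rw [pow_add, pow_mul, ze_pow D hD, one_pow, one_mul]
  rw [← pow_add, h1]
  have h2 : (kk D b t + t * b) % D = 0 := by
    unfold kk
    have h3 : (t * b) % D < D := Nat.mod_lt _ hD
    rw [Nat.add_mod, Nat.mod_mod]
    rcases Nat.eq_zero_or_pos ((t * b) % D) with h | h
    · rw [h]
      simp
    · rw [Nat.mod_eq_of_lt (show D - (t * b) % D < D by omega),
        Nat.sub_add_cancel h3.le, Nat.mod_self]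
  rw [h2, pow_zero]

/-- one Laurent polynomial -/
private theorem lpl_one {D b K t : ℕ} (hD : 3 ≤ D) (ht : t < D) (hK : D ≤ K) {f : ℂ → ℂ}
    (hf : DifferentiableOn ℂ f (Om D \ {0})) (fB : ℕ → ℝ → ℝ → ℂ)
    (hl : ∀ (j : ℕ) (σ : ℝ), (σ = 1 ∨ σ = -1) → ∀ r : ℝ, 1 < r →
      Tendsto (fun z => f (ze D ^ j * z)) (𝓝[hp σ] (r : ℂ)) (𝓝 (fB j σ r)))
    (hg : ∀ (j : ℕ) (r : ℝ), 1 < r → fB (j + b) 1 r = fB j (-1) r) {M : ℝ} (hM : 0 ≤ M)
    (h1 : ∀ z ∈ Om D, 1 / 2 ≤ ‖z‖ → ‖f z‖ ≤ M)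
    (h2 : ∀ z ∈ Om D, 0 < ‖z‖ → ‖z‖ ≤ 1 / 2 → ‖f z‖ ≤ M / ‖z‖ ^ K) :
    ∃ a : ℕ → ℂ, (∀ i : ℕ, a i ≠ 0 → D * i + t ≤ K ∧ kk D b t ≤ D * i + t) ∧
      ∀ z ∈ Om D, z ≠ 0 → lplP D b t f z = ∑ i ∈ range (K + 1), a i / (z ^ D) ^ i := by
  have hD0 : 0 < D := by omega
  have hDR : (0 : ℝ) < D := Nat.cast_pos.2 hD0
  obtain ⟨k, hk, hkz⟩ := descend hD0 (lplP_diff (b := b) (t := t) hD0 hf)
    (fun c z hc _ => lplP_rot hD0 f hc)
  -- values of `k`
  have hrO : ∀ x : ℂ, 1 - x ∈ slitPlane → x ^ ((D : ℂ)⁻¹) ∈ Om D := by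
    intro x hx
    rw [mem_Om, rt_pow hD0]
    exact hx
  have hr0 : ∀ x : ℂ, x ≠ 0 → x ^ ((D : ℂ)⁻¹) ≠ 0 := by
    intro x hx h
    apply hx
    rw [← rt_pow hD0 x, h, zero_pow hD0.ne']
  have hkx : ∀ x : ℂ, 1 - x ∈ slitPlane → x ≠ 0 → k x = lplP D b t f (x ^ ((D : ℂ)⁻¹)) := by
    intro x hx hx0
    rw [← hkz _ (hrO x hx) (hr0 x hx0), rt_pow hD0]
  -- norm of `eta`
  have hηn : ∀ x : ℂ, ‖eta D (x ^ ((D : ℂ)⁻¹))‖ ^ kk D b t =
      ‖1 - x‖ ^ ((kk D b t : ℝ) / D) := by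
    intro x
    rw [norm_eta hD0, rt_pow hD0, ← Real.rpow_natCast, ← Real.rpow_mul (norm_nonneg _)]
    congr 1
    field_simp
  have hzn : ∀ x : ℂ, ∀ s : ℕ, ‖x ^ ((D : ℂ)⁻¹)‖ ^ s = ‖x‖ ^ ((s : ℝ) / D) := by
    intro x s
    rw [rt_norm, ← Real.rpow_natCast, ← Real.rpow_mul (norm_nonneg _)]
    congr 1
    field_simp
  have hrot : ∀ (j : ℕ) (z : ℂ), z ∈ Om D → ze D ^ j * z ∈ Om D := by
    intro j z hz
    refine (rot_Om ?_).2 hz
    rw [← pow_mul, mul_comm j D, pow_mul, ze_pow D hD0, one_pow]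
  have hrn : ∀ (j : ℕ) (z : ℂ), ‖ze D ^ j * z‖ = ‖z‖ := by
    intro j z
    rw [norm_mul, norm_pow, norm_ze, one_pow, one_mul]
  have hκ0 : (0 : ℝ) ≤ (kk D b t : ℝ) / D := by positivity
  have hκ1 : (kk D b t : ℝ) / D < 1 := by
    rw [div_lt_one hDR]
    exact_mod_cast kk_lt hD0
  have htD : (t : ℝ) / D < 1 := by
    rw [div_lt_one hDR]
    exact_mod_cast ht
  have ht0 : (0 : ℝ) ≤ (t : ℝ) / D := by positivity
  -- the bound for `‖x‖ ≥ 2 ^ (-D)`
  have hbd1 : ∀ x : ℂ, 1 - x ∈ slitPlane → x ≠ 0 → (2 : ℝ)⁻¹ ^ D ≤ ‖x‖ →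
      ‖k x‖ ≤ M * ‖x‖ ^ ((t : ℝ) / D) * ‖1 - x‖ ^ (-((kk D b t : ℝ) / D)) := by
    intro x hx hx0 hxn
    rw [hkx x hx hx0]
    have hz2 : 1 / 2 ≤ ‖x ^ ((D : ℂ)⁻¹)‖ := by
      by_contra hcon
      push Not at hcon
      have h3 : ‖x ^ ((D : ℂ)⁻¹)‖ ^ D < (1 / 2) ^ D :=
        pow_lt_pow_left₀ hcon (norm_nonneg _) hD0.ne'
      rw [← norm_pow, rt_pow hD0] at h3
      have h4 : ((1 : ℝ) / 2) ^ D = (2 : ℝ)⁻¹ ^ D := by rw [one_div]
      rw [h4] at h3
      linarith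
    have h3 := lplP_bound (b := b) (t := t) hD0 f (z := x ^ ((D : ℂ)⁻¹)) (B := M) fun j =>
      h1 _ (hrot j _ (hrO x hx)) (by rw [hrn]; exact hz2)
    rw [hηn, hzn] at h3
    refine h3.trans (le_of_eq ?_)
    rw [Real.rpow_neg (norm_nonneg _)]
    ring
  -- the boundary values
  have hper : ∀ (j : ℕ) (σ : ℝ), (σ = 1 ∨ σ = -1) → ∀ r : ℝ, 1 < r → fB (j + D) σ r = fB j σ r := by
    intro j σ hσ r hr
    have := neBot_hp (σ := σ) (ρ := r) hσ
    refine tendsto_nhds_unique (hl (j + D) σ hσ r hr) ?_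
    have e : ze D ^ (j + D) = ze D ^ j := by rw [pow_add, ze_pow D hD0, mul_one]
    rw [e]
    exact hl j σ hσ r hr
  set V : ℝ → ℝ → ℂ := fun σ r => (1 / (D : ℂ)) * ((r : ℂ) ^ t / etaB D σ r ^ kk D b t *
    ∑ j ∈ range D, ze D ^ (j * t) * fB j σ r) with hV
  have hVl : ∀ σ : ℝ, (σ = 1 ∨ σ = -1) → ∀ r : ℝ, 1 < r →
      Tendsto (lplP D b t f) (𝓝[hp σ] (r : ℂ)) (𝓝 (V σ r)) := by
    intro σ hσ r hr
    unfold lplP
    rw [hV]
    refine Tendsto.const_mul _ (Tendsto.mul (Tendsto.div ?_ ?_ ?_) ?_)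
    · have h3 : ContinuousAt (fun z : ℂ => z ^ t) (r : ℂ) := (continuous_pow t).continuousAt
      exact h3.tendsto.mono_left nhdsWithin_le_nhds
    · exact (eta_lim hD0 hσ (by linarith) hr.ne').pow _
    · exact pow_ne_zero _ (etaB_ne hD0 (by linarith) hr.ne')
    · exact tendsto_finsetSum _ fun j _ => (hl j σ hσ r hr).const_mul _
  have hVe : ∀ r : ℝ, 1 < r → V 1 r = V (-1) r := by
    intro r hr
    have h3 : ∑ j ∈ range D, ze D ^ (j * t) * fB j 1 r =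
        ze D ^ (t * b) * ∑ j ∈ range D, ze D ^ (j * t) * fB j (-1) r := by
      rw [← lpl_shift D (fun j => ze D ^ (j * t) * fB j 1 r) (fun j => by
        rw [hper j 1 (Or.inl rfl) r hr, add_mul, pow_add, pow_mul (ze D) D t, ze_pow D hD0, one_pow,
          mul_one]) b, Finset.mul_sum]
      refine Finset.sum_congr rfl fun j _ => ?_
      rw [hg j r hr, add_mul, pow_add, mul_comm b t]
      ring
    rw [hV]
    simp only
    rw [h3, etaB_one_neg_one hr, mul_pow]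
    have h4 : ze D ^ kk D b t * ze D ^ (t * b) = 1 := ze_kk hD0
    have h5 : om D ^ kk D b t * ze D ^ kk D b t = 1 := by
      rw [← mul_pow, om_mul_ze, one_pow]
    have h6 : om D ^ kk D b t ≠ 0 := left_ne_zero_of_mul_eq_one h5
    have h7 : ze D ^ (t * b) = om D ^ kk D b t := by
      have h8 : ze D ^ kk D b t ≠ 0 := left_ne_zero_of_mul_eq_one h4
      apply mul_left_cancel₀ h8
      rw [h4, mul_comm, h5]
    have h9 : etaB D (-1) r ^ kk D b t ≠ 0 :=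
      pow_ne_zero _ (etaB_ne hD0 (by linarith) hr.ne')
    rw [h7]
    field_simp
  have hxpos : ∀ x : ℝ, 1 < x → 1 < x ^ ((D : ℝ)⁻¹) := fun x hx =>
    Real.one_lt_rpow hx (by positivity)
  have hkl : ∀ σ : ℝ, (σ = 1 ∨ σ = -1) → ∀ x : ℝ, 1 < x →
      Tendsto k (𝓝[hp σ] (x : ℂ)) (𝓝 (V 1 (x ^ ((D : ℝ)⁻¹)))) := by
    intro σ hσ x hx
    have h3 : V 1 (x ^ ((D : ℝ)⁻¹)) = V σ (x ^ ((D : ℝ)⁻¹)) := by
      rcases hσ with h | h
      · rw [h]
      · rw [h]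
        exact hVe _ (hxpos x hx)
    rw [h3]
    have h4 := (hVl σ hσ _ (hxpos x hx)).comp (rt_lim hD0 hσ (show 0 < x by linarith))
    refine h4.congr' ?_
    filter_upwards [self_mem_nhdsWithin] with y hy
    have hy' : 0 < σ * y.im := hy
    have hyim : y.im ≠ 0 := by
      intro h
      rw [h, mul_zero] at hy'
      exact lt_irrefl _ hy'
    rw [hkx y]
    · rfl
    · rw [Complex.mem_slitPlane_iff]
      right
      rw [Complex.sub_im, Complex.one_im, zero_sub]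
      exact neg_ne_zero.2 hyim
    · intro h
      rw [h, Complex.zero_im] at hyim
      exact hyim rfl
  obtain ⟨k', hk', hkk⟩ := extend hk (fun x => V 1 (x ^ ((D : ℝ)⁻¹))) hkl (M := M * 2)
    (δ := (kk D b t : ℝ) / D) hκ1 (by
      intro x hx hx1
      have hxn : ‖x‖ ≤ 3 / 2 := by
        have : ‖x‖ ≤ ‖x - 1‖ + ‖(1 : ℂ)‖ := by
          have := norm_add_le (x - 1) 1
          rwa [sub_add_cancel] at this
        rw [norm_one] at this
        linarith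
      have hxn2 : 1 / 2 ≤ ‖x‖ := by
        have : ‖(1 : ℂ)‖ ≤ ‖x‖ + ‖x - 1‖ := by
          have := norm_sub_le x (x - 1)
          rwa [sub_sub_cancel] at this
        rw [norm_one] at this
        linarith
      have hx0 : x ≠ 0 := by
        intro h
        rw [h, norm_zero] at hxn2
        linarith
      refine (hbd1 x hx hx0 ?_).trans ?_
      · refine le_trans ?_ hxn2
        rw [one_div]
        exact pow_le_of_le_one (by norm_num) (by norm_num) hD0.ne'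
      · refine mul_le_mul_of_nonneg_right (mul_le_mul_of_nonneg_left ?_ hM)
          (Real.rpow_nonneg (norm_nonneg _) _)
        calc ‖x‖ ^ ((t : ℝ) / D) ≤ 2 ^ ((t : ℝ) / D) :=
              Real.rpow_le_rpow (norm_nonneg _) (by linarith) ht0
          _ ≤ 2 ^ (1 : ℝ) := Real.rpow_le_rpow_of_exponent_le (by norm_num) htD.le
          _ = 2 := Real.rpow_one 2)
  have htK : (t : ℝ) ≤ K := by exact_mod_cast (ht.le.trans hK)
  obtain ⟨a, ha, hka⟩ := laurent_poly hk' (M := M * 2) (κ := ((K : ℝ) - t) / D)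
    (σ := (t : ℝ) / D - (kk D b t : ℝ) / D) (c := (2 : ℝ)⁻¹ ^ D) (by positivity)
    (div_nonneg (by linarith) hDR.le) (by linarith) (by linarith) (by
      intro x hx hx0 hxc
      have hxne : x ≠ 0 := norm_pos_iff.1 hx0
      rw [hkk x hx hxne, hkx x hx hxne]
      have hz2 : ‖x ^ ((D : ℂ)⁻¹)‖ ≤ 1 / 2 := by
        by_contra hcon
        push Not at hcon
        have h3 : (1 / 2 : ℝ) ^ D < ‖x ^ ((D : ℂ)⁻¹)‖ ^ D :=
          pow_lt_pow_left₀ hcon (by norm_num) hD0.ne'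
        rw [← norm_pow, rt_pow hD0, one_div] at h3
        linarith
      have hz0 : 0 < ‖x ^ ((D : ℂ)⁻¹)‖ := norm_pos_iff.2 (hr0 x hxne)
      have h3 := lplP_bound (b := b) (t := t) hD0 f (z := x ^ ((D : ℂ)⁻¹))
        (B := M / ‖x ^ ((D : ℂ)⁻¹)‖ ^ K) fun j => by
          have := h2 _ (hrot j _ (hrO x hx)) (by rw [hrn]; exact hz0) (by rw [hrn]; exact hz2)
          rwa [hrn] at this
      rw [hηn, hzn, hzn] at h3
      refine h3.trans ?_
      have hx2 : ‖x‖ ≤ 1 / 2 := by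
        refine hxc.trans ?_
        rw [one_div]
        exact pow_le_of_le_one (by norm_num) (by norm_num) hD0.ne'
      have h4 : (1 / 2 : ℝ) ≤ ‖1 - x‖ ^ ((kk D b t : ℝ) / D) := by
        have h5 : (1 / 2 : ℝ) ≤ ‖1 - x‖ := by
          have h6 := norm_sub_norm_le (1 : ℂ) x
          rw [norm_one] at h6
          linarith
        calc (1 / 2 : ℝ) = (1 / 2) ^ (1 : ℝ) := (Real.rpow_one _).symm
          _ ≤ (1 / 2) ^ ((kk D b t : ℝ) / D) :=
            Real.rpow_le_rpow_of_exponent_ge (by norm_num) (by norm_num) hκ1.le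
          _ ≤ ‖1 - x‖ ^ ((kk D b t : ℝ) / D) := Real.rpow_le_rpow (by norm_num) h5 hκ0
      have h5 : ‖x‖ ^ (-(((K : ℝ) - t) / D)) = ‖x‖ ^ ((t : ℝ) / D) / ‖x‖ ^ ((K : ℝ) / D) := by
        rw [← Real.rpow_sub hx0]
        congr 1
        ring
      rw [h5]
      have h6 : 0 < ‖x‖ ^ ((K : ℝ) / D) := Real.rpow_pos_of_pos hx0 _
      have h7 : 0 < ‖x‖ ^ ((t : ℝ) / D) := Real.rpow_pos_of_pos hx0 _
      have h8 : 0 < ‖1 - x‖ ^ ((kk D b t : ℝ) / D) := by linarith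
      rw [div_mul_div_comm, mul_div_assoc', div_le_div_iff₀ (by positivity) h6]
      have h9 : 0 ≤ M * (‖x‖ ^ ((t : ℝ) / D) * ‖x‖ ^ ((K : ℝ) / D)) := by positivity
      nlinarith) (by
      intro x hx hx2
      have hx0 : 0 < ‖x‖ := by linarith
      have hxne : x ≠ 0 := norm_pos_iff.1 hx0
      rw [hkk x hx hxne]
      refine (hbd1 x hx hxne ?_).trans ?_
      · have : (2 : ℝ)⁻¹ ^ D ≤ 1 := pow_le_one₀ (by norm_num) (by norm_num)
        linarith
      · rw [Real.rpow_sub hx0, Real.rpow_neg (norm_nonneg _)]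
        have h3 : ‖x‖ / 2 ≤ ‖1 - x‖ := by
          have h6 := norm_sub_norm_le x 1
          rw [norm_one, norm_sub_rev] at h6
          linarith
        have h4 : ‖x‖ ^ ((kk D b t : ℝ) / D) / 2 ≤ ‖1 - x‖ ^ ((kk D b t : ℝ) / D) := by
          calc ‖x‖ ^ ((kk D b t : ℝ) / D) / 2 ≤
                ‖x‖ ^ ((kk D b t : ℝ) / D) / 2 ^ ((kk D b t : ℝ) / D) := by
                refine div_le_div_of_nonneg_left (Real.rpow_nonneg hx0.le _)
                  (Real.rpow_pos_of_pos (by norm_num) _) ?_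
                calc (2 : ℝ) ^ ((kk D b t : ℝ) / D) ≤ 2 ^ (1 : ℝ) :=
                      Real.rpow_le_rpow_of_exponent_le (by norm_num) hκ1.le
                  _ = 2 := Real.rpow_one 2
            _ = (‖x‖ / 2) ^ ((kk D b t : ℝ) / D) := by
                rw [Real.div_rpow hx0.le (by norm_num)]
            _ ≤ _ := Real.rpow_le_rpow (by positivity) h3 hκ0
        have h5 : 0 < ‖x‖ ^ ((kk D b t : ℝ) / D) := Real.rpow_pos_of_pos hx0 _
        have h6 : 0 < ‖1 - x‖ ^ ((kk D b t : ℝ) / D) := by linarith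
        have h7 : 0 ≤ ‖x‖ ^ ((t : ℝ) / D) := Real.rpow_nonneg hx0.le _
        have h8 : (‖1 - x‖ ^ ((kk D b t : ℝ) / D))⁻¹ ≤ 2 / ‖x‖ ^ ((kk D b t : ℝ) / D) := by
          rw [inv_eq_one_div, div_le_div_iff₀ h6 h5]
          linarith
        calc M * ‖x‖ ^ ((t : ℝ) / D) * (‖1 - x‖ ^ ((kk D b t : ℝ) / D))⁻¹ ≤
              M * ‖x‖ ^ ((t : ℝ) / D) * (2 / ‖x‖ ^ ((kk D b t : ℝ) / D)) :=
                mul_le_mul_of_nonneg_left h8 (mul_nonneg hM h7)
          _ = _ := by ring)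
  refine ⟨a, ?_, ?_⟩
  · intro i hi
    obtain ⟨e1, e2⟩ := ha i hi
    constructor
    · rw [le_div_iff₀ hDR] at e1
      have : ((D * i + t : ℕ) : ℝ) ≤ (K : ℕ) := by
        push_cast
        linarith
      exact_mod_cast this
    · have e3 : (kk D b t : ℝ) / D - (t : ℝ) / D ≤ i := by linarith
      rw [← sub_div, div_le_iff₀ hDR] at e3
      have : ((kk D b t : ℕ) : ℝ) ≤ ((D * i + t : ℕ) : ℝ) := by
        push_cast
        linarith
      exact_mod_cast this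
  · intro z hz hz0
    have hzD : z ^ D ≠ 0 := pow_ne_zero _ hz0
    rw [← hkz z hz hz0, ← hkk (z ^ D) hz hzD, hka _ hzD]
    refine Finset.sum_subset ?_ ?_
    · intro i hi
      rw [Finset.mem_range] at hi ⊢
      have e1 : ⌊((K : ℝ) - t) / D⌋₊ ≤ K := by
        refine Nat.floor_le_of_le ?_
        rw [div_le_iff₀ hDR]
        have : (1 : ℝ) ≤ D := by exact_mod_cast hD0
        have hK0 : (0 : ℝ) ≤ K := Nat.cast_nonneg _
        have ht0' : (0 : ℝ) ≤ t := Nat.cast_nonneg _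
        nlinarith
      omega
    · intro i _ hi
      rw [Finset.mem_range] at hi
      have : a i = 0 := by
        by_contra hne
        apply hi
        have := Nat.le_floor (ha i hne).1
        omega
      rw [this, zero_div]

theorem lpl {D b K : ℕ} (hD : 3 ≤ D) (hb : 0 < b) (hb2 : b + 1 < D) (hK : D ≤ K) {f : ℂ → ℂ}
    (hf : DifferentiableOn ℂ f (Om D \ {0})) (fB : ℕ → ℝ → ℝ → ℂ)
    (hl : ∀ (j : ℕ) (σ : ℝ), (σ = 1 ∨ σ = -1) → ∀ r : ℝ, 1 < r →
      Tendsto (fun z => f (ze D ^ j * z)) (𝓝[hp σ] (r : ℂ)) (𝓝 (fB j σ r)))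
    (hg : ∀ (j : ℕ) (r : ℝ), 1 < r → fB (j + b) 1 r = fB j (-1) r) {M : ℝ}
    (h1 : ∀ z ∈ Om D, 1 / 2 ≤ ‖z‖ → ‖f z‖ ≤ M)
    (h2 : ∀ z ∈ Om D, 0 < ‖z‖ → ‖z‖ ≤ 1 / 2 → ‖f z‖ ≤ M / ‖z‖ ^ K) :
    ∃ a : ℕ → ℂ, ∀ z ∈ Om D, z ≠ 0 → f z = ∑ m ∈ Val D b K, a m * psi D b m z := by
  have hD0 : 0 < D := by omega
  have hex : ∀ t : ℕ, ∃ a : ℕ → ℂ, t < D →
      (∀ i : ℕ, a i ≠ 0 → D * i + t ≤ K ∧ kk D b t ≤ D * i + t) ∧
      ∀ z ∈ Om D, z ≠ 0 → lplP D b t f z = ∑ i ∈ range (K + 1), a i / (z ^ D) ^ i := by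
    intro t
    by_cases ht : t < D
    · obtain ⟨a, ha⟩ := lpl_one (M := |M|) hD ht hK hf fB hl hg (abs_nonneg _)
        (fun z hz hz2 => (h1 z hz hz2).trans (le_abs_self _))
        (fun z hz hz0 hz2 => (h2 z hz hz0 hz2).trans
          (div_le_div_of_nonneg_right (le_abs_self _) (by positivity)))
      exact ⟨a, fun _ => ha⟩
    · exact ⟨0, fun h => absurd h ht⟩
  choose a ha using hex
  refine ⟨fun m => a (m % D) (m / D), fun z hz hz0 => ?_⟩
  have hmod : ∀ i t : ℕ, t < D → (D * i + t) % D = t ∧ (D * i + t) / D = i := by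
    intro i t ht
    constructor
    · rw [Nat.mul_add_mod, Nat.mod_eq_of_lt ht]
    · rw [Nat.mul_add_div hD0, Nat.div_eq_of_lt ht, add_zero]
  have hR : ∑ m ∈ Val D b K, a (m % D) (m / D) * psi D b m z =
      ∑ m ∈ range (D * (K + 1)), a (m % D) (m / D) * psi D b m z := by
    refine Finset.sum_subset ?_ ?_
    · intro m hm
      have hm' := Finset.mem_range.1 (Finset.mem_filter.1 hm).1
      rw [Finset.mem_range]
      nlinarith
    · intro m _ hm
      have : a (m % D) (m / D) = 0 := by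
        by_contra hne
        apply hm
        obtain ⟨e1, e2⟩ := (ha (m % D) (Nat.mod_lt _ hD0)).1 _ hne
        rw [Nat.div_add_mod] at e1 e2
        unfold Val
        rw [Finset.mem_filter, Finset.mem_range]
        refine ⟨by omega, ?_⟩
        rw [kk_mod]
        exact e2
      rw [this, zero_mul]
  rw [hR, lpl_sum, Finset.sum_comm, lpl_inv (b := b) hD0 f hz hz0]
  refine Finset.sum_congr rfl fun t ht => ?_
  have htD := Finset.mem_range.1 ht
  rw [(ha t htD).2 z hz hz0, Finset.mul_sum]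
  refine Finset.sum_congr rfl fun i _ => ?_
  obtain ⟨e1, e2⟩ := hmod i t htD
  rw [e1, e2]
  unfold psi
  rw [kk_mod (m := D * i + t), e1, pow_add, pow_mul]
  have hzt : z ^ t ≠ 0 := pow_ne_zero _ hz0
  have hzD : (z ^ D) ^ i ≠ 0 := pow_ne_zero _ (pow_ne_zero _ hz0)
  field_simp

end Pool.Agent.RHU
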