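import Pool.Agent.RHU.CLim

/-!
# RHU-Wb: lower bound for `z^g e^W` at infinity

PLAN. `t ∈ Ph`, `a = t + rr - D ≥ 1` (an integer, `= D (s_t - 1)`). Let `P(y) = y F_{D-t}(y) / a`. On `Om D`:
`P' = F_{D-t} (1 + ((D - rr)/a)/(1 - y^D))` (`y F'/F = (t - 1) - (D - rr) + (D-rr)/(1-y^D)` by
`hasDerivAt_eta`, and `t - (D - rr) = a`; check: `1 + t - 1 - (D-rr) = a`), so
`(C_{D-t} - P)' = -F_{D-t} ((D - rr)/a)/(1 - y^D) = O(|y|^(a - 1 - D))`, `a < D`: hence `C_{D-t} - P` is bounded for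
`|y| ≥ 2` (integrate along the ray from `2 y/|y|`). Then
`((s_t-1)/D) C_{D-t} F_t = (a/D²) P F_t + O(|y|^(-1-a)) = y F_{D-t} F_t/D² + ...`, and by `Ft_mul`
`y F_{D-t} F_t/D² = y^(D-1)/(1-y^D) = -1/y + O(|y|^(-1-D))`. Sum over `t ∈ Ph`: `wd + g/y = O(|y|^(-2))`.
`W_lower`: `prim_log`.
-/

set_option autoImplicit false

namespace Pool.Agent.RHU

open Complex Finset Filter Topology MeasureTheory

private theorem Wb_mem {D b t : ℕ} (ht : t ∈ Ph D b) :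
    t < D ∧ rr D b t < D ∧ D < t + rr D b t ∧ 0 < t ∧ 0 < rr D b t ∧ 0 < D := by
  rw [Ph, Finset.mem_filter, Finset.mem_range] at ht
  obtain ⟨h1, h2⟩ := ht
  have hD : 0 < D := by omega
  have h3 : rr D b t < D := Nat.mod_lt _ hD
  refine ⟨h1, h3, h2, by omega, by omega, hD⟩

private theorem Wb_rr {D b t : ℕ} (ht : t ∈ Ph D b) : rr D b (D - t) = D - rr D b t := by
  obtain ⟨h1, h2, h3, h4, h5, h6⟩ := Wb_mem ht
  have h : ((D - t) * b + t * b) % D = 0 := by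
    rw [← add_mul, Nat.sub_add_cancel h1.le]
    exact Nat.mul_mod_right D b
  rw [Nat.add_mod] at h
  have h7 : rr D b (D - t) < D := Nat.mod_lt _ h6
  change (rr D b (D - t) + rr D b t) % D = 0 at h
  obtain ⟨k, hk⟩ := Nat.dvd_of_mod_eq_zero h
  have hk1 : k = 1 := by
    rcases Nat.lt_or_ge k 1 with h8 | h8
    · have : k = 0 := by omega
      subst this
      omega
    · rcases Nat.lt_or_ge 1 k with h9 | h9
      · have : D * 2 ≤ D * k := Nat.mul_le_mul_left D h9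
        omega
      · omega
  subst hk1
  omega

private theorem Wb_inv {D : ℕ} (hD : 0 < D) {z : ℂ} (hz : 2 ≤ ‖z‖) : ‖z‖ ^ D / 2 ≤ ‖1 - z ^ D‖ := by
  have h1 := abs_one_sub_le D z
  have h2 : (2 : ℝ) ≤ ‖z‖ ^ D := by
    calc (2 : ℝ) ≤ ‖z‖ := hz
      _ = ‖z‖ ^ 1 := (pow_one _).symm
      _ ≤ ‖z‖ ^ D := pow_le_pow_right₀ (by linarith) hD
  have h3 : ‖z‖ ^ D - 1 ≤ |1 - ‖z‖ ^ D| := by
    rw [abs_sub_comm]
    exact le_abs_self _
  linarith

private theorem Wb_inv2 {D : ℕ} (hD : 0 < D) {z : ℂ} (hz : 2 ≤ ‖z‖) :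
    ‖1 - z ^ D‖⁻¹ ≤ 2 * (‖z‖ ^ D)⁻¹ := by
  have h := Wb_inv hD hz
  have h0 : 0 < ‖z‖ ^ D := pow_pos (by linarith) _
  calc ‖1 - z ^ D‖⁻¹ ≤ (‖z‖ ^ D / 2)⁻¹ := inv_anti₀ (by positivity) h
    _ = 2 * (‖z‖ ^ D)⁻¹ := by rw [inv_div]; ring

private theorem Wb_deriv {D b t : ℕ} (ht : t ∈ Ph D b) {z : ℂ} (hz : z ∈ Om D) :
    HasDerivAt (fun z => Cc D b (D - t) z - z * Ft D b (D - t) z / ((t : ℂ) + rr D b t - D))
      (-(Ft D b (D - t) z * (((D : ℂ) - rr D b t) / ((t : ℂ) + rr D b t - D)) / (1 - z ^ D))) z := by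
  obtain ⟨h1, h2, h3, h4, h5, h6⟩ := Wb_mem ht
  have hr := Wb_rr ht
  obtain ⟨s, rfl⟩ : ∃ s, t = s + 1 := ⟨t - 1, by omega⟩
  obtain ⟨k, hk⟩ : ∃ k, D - rr D b (s + 1) = k + 1 := ⟨D - rr D b (s + 1) - 1, by omega⟩
  obtain ⟨E, hE⟩ : ∃ E, D = E + 1 := ⟨D - 1, by omega⟩
  have hkc : (D : ℂ) - rr D b (s + 1) = (k : ℂ) + 1 := by
    have : (D : ℂ) = ((k + 1 + rr D b (s + 1) : ℕ) : ℂ) := by
      congr 1
      omega
    rw [this]
    push_cast
    ring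
  have hFt : ∀ y : ℂ, Ft D b (D - (s + 1)) y = (D : ℂ) * y ^ s / eta D y ^ (k + 1) := by
    intro y
    unfold Ft Fe
    rw [hr, hk]
    congr 3
    omega
  have hne := eta_ne hz
  have hpw := eta_pow h6 z
  have hde := hasDerivAt_eta h6 hz
  have hne2 : (1 : ℂ) - z ^ D ≠ 0 := by
    rw [← hpw]
    exact pow_ne_zero _ hne
  have ha : ((s + 1 : ℕ) : ℂ) + rr D b (s + 1) - D ≠ 0 := by
    intro h
    have h' : (((s + 1) + rr D b (s + 1) : ℕ) : ℂ) = (D : ℂ) := by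
      push_cast
      push_cast at h
      linear_combination h
    have := Nat.cast_injective h'
    omega
  have haa : (((s + 1 : ℕ) : ℂ) + rr D b (s + 1) - D) = ((s : ℂ) + 1) - ((k : ℂ) + 1) := by
    rw [← hkc]
    push_cast
    ring
  have hd1 : HasDerivAt (fun y : ℂ => y * Ft D b (D - (s + 1)) y)
      (Ft D b (D - (s + 1)) z * ((((s + 1 : ℕ) : ℂ) + rr D b (s + 1) - D) +
        ((D : ℂ) - rr D b (s + 1)) / (1 - z ^ D))) z := by
    have e1 : (fun y : ℂ => y * Ft D b (D - (s + 1)) y) =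
        fun y : ℂ => (D : ℂ) * y ^ (s + 1) / eta D y ^ (k + 1) := by
      funext y
      rw [hFt y]
      ring
    rw [e1]
    have h7 := ((hasDerivAt_pow (s + 1) z).const_mul (D : ℂ)).div (hde.pow (k + 1))
      (pow_ne_zero _ hne)
    refine h7.congr_deriv ?_
    rw [hFt z, hkc, haa, ← hpw, Pi.pow_apply]
    have h8 : z ^ (D - 1) * z = 1 - eta D z ^ D := by
      rw [hpw, ← pow_succ, Nat.sub_add_cancel h6]
      ring
    have h9 : eta D z ^ D = eta D z ^ (D - 1) * eta D z := by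
      rw [← pow_succ, Nat.sub_add_cancel h6]
    have h10 : eta D z ^ D ≠ 0 := pow_ne_zero _ hne
    have h11 : eta D z ^ (D - 1) ≠ 0 := pow_ne_zero _ hne
    have h12 : eta D z ^ k ≠ 0 := pow_ne_zero _ hne
    rw [h9] at h8 ⊢
    generalize eta D z ^ (D - 1) = X at *
    generalize z ^ (D - 1) = Z at *
    simp only [Nat.add_sub_cancel, pow_succ]
    generalize eta D z ^ k = Y at *
    generalize eta D z = e at *
    push_cast
    field_simp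
    have hz1 : z * Z = 1 - X * e := by rw [mul_comm]; exact h8
    linear_combination (D : ℂ) * z ^ s * ((k : ℂ) + 1) * hz1
  have hd := (hasDerivAt_Cc (b := b) (t := D - (s + 1)) h6 hz).sub
    (hd1.div_const (((s + 1 : ℕ) : ℂ) + rr D b (s + 1) - D))
  refine hd.congr_deriv ?_
  field_simp
  ring

/-- integration along the ray -/
private theorem Wb_ray {D : ℕ} (hD : 0 < D) {h h' : ℂ → ℂ} {M K : ℝ}
    (hd : ∀ z ∈ Om D, HasDerivAt h (h' z) z)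
    (hb : ∀ z ∈ Om D, 2 ≤ ‖z‖ → ‖h' z‖ ≤ M * (‖z‖ ^ 2)⁻¹)
    (hK : ∀ z ∈ Om D, ‖z‖ = 2 → ‖h z‖ ≤ K) (z : ℂ) (hz : z ∈ Om D) (h2 : 2 ≤ ‖z‖) :
    ‖h z‖ ≤ K + |M| := by
  have hr0 : (0 : ℝ) < ‖z‖ := by linarith
  set e : ℂ := ((‖z‖⁻¹ : ℝ) : ℂ) * z with he
  have hze : ((‖z‖ : ℝ) : ℂ) * e = z := by
    rw [he, ← mul_assoc, ← Complex.ofReal_mul, mul_inv_cancel₀ hr0.ne', Complex.ofReal_one, one_mul]
  have hne : ‖e‖ = 1 := by
    rw [he, norm_mul, Complex.norm_real, Real.norm_of_nonneg (inv_nonneg.2 hr0.le),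
      inv_mul_cancel₀ hr0.ne']
  have hseg : ∀ s : ℝ, 0 ≤ s → s ≤ ‖z‖ → (s : ℂ) * e ∈ Om D := by
    intro s hs0 hs1
    have h3 : (s : ℂ) * e = ((s * ‖z‖⁻¹ : ℝ) : ℂ) * z := by
      rw [he]
      push_cast
      ring
    rw [h3]
    refine star_Om hD z hz _ (mul_nonneg hs0 (inv_nonneg.2 hr0.le)) ?_
    rw [← div_eq_mul_inv, div_le_one hr0]
    exact hs1
  have hder : ∀ s : ℝ, 0 ≤ s → s ≤ ‖z‖ →
      HasDerivAt (fun s : ℝ => h ((s : ℂ) * e)) (h' ((s : ℂ) * e) * e) s := by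
    intro s hs0 hs1
    have h4 := hd _ (hseg s hs0 hs1)
    have h5 : HasDerivAt (fun s : ℝ => (s : ℂ) * e) e s := by
      have := (Complex.ofRealCLM.hasDerivAt (x := s)).mul_const e
      simpa using this
    exact h4.comp s h5
  have hnorm : ∀ s : ℝ, 0 ≤ s → ‖(s : ℂ) * e‖ = s := by
    intro s hs
    rw [norm_mul, hne, mul_one, Complex.norm_real, Real.norm_of_nonneg hs]
  have key := image_norm_le_of_norm_deriv_right_le_deriv_boundary'
    (f := fun s : ℝ => h ((s : ℂ) * e)) (f' := fun s : ℝ => h' ((s : ℂ) * e) * e)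
    (a := 2) (b := ‖z‖)
    (B := fun s : ℝ => K + |M| * (1 / 2 - s⁻¹)) (B' := fun s : ℝ => |M| * (s ^ 2)⁻¹)
    (fun s hs => (hder s (by linarith [hs.1]) hs.2).continuousAt.continuousWithinAt)
    (fun s hs => (hder s (by linarith [hs.1]) hs.2.le).hasDerivWithinAt)
    (by
      have h6 := hK (((2 : ℝ) : ℂ) * e) (hseg 2 (by norm_num) h2) (hnorm 2 (by norm_num))
      refine h6.trans (le_of_eq ?_)
      norm_num)
    (fun s hs => by
      have hs0 : s ≠ 0 := by linarith [hs.1]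
      refine ContinuousAt.continuousWithinAt ?_
      exact continuousAt_const.add (continuousAt_const.mul (continuousAt_const.sub
        (continuousAt_inv₀ hs0))))
    (fun s hs => by
      have hs0 : s ≠ 0 := by
        have := hs.1
        intro h7
        rw [h7] at this
        norm_num at this
      have h8 := (((hasDerivAt_inv hs0).const_sub (1 / 2)).const_mul (|M|)).const_add K
      refine HasDerivAt.hasDerivWithinAt ?_
      refine h8.congr_deriv ?_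
      rw [neg_neg])
    (fun s hs => by
      have hs0 : (0 : ℝ) ≤ s := by linarith [hs.1]
      have h9 := hb _ (hseg s hs0 hs.2.le) (by rw [hnorm s hs0]; exact hs.1)
      rw [hnorm s hs0] at h9
      rw [norm_mul, hne, mul_one]
      exact h9.trans (mul_le_mul_of_nonneg_right (le_abs_self M) (by positivity)))
    (x := ‖z‖) ⟨h2, le_refl _⟩
  simp only [hze] at key
  refine key.trans ?_
  have h10 : |M| * (1 / 2 - ‖z‖⁻¹) ≤ |M| * 1 := by
    refine mul_le_mul_of_nonneg_left ?_ (abs_nonneg M)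
    have : 0 ≤ ‖z‖⁻¹ := inv_nonneg.2 hr0.le
    linarith
  linarith

private theorem Wb_pow {z : ℂ} (h2 : 2 ≤ ‖z‖) {p : ℝ} (hp : p ≤ -2) :
    ‖z‖ ^ p ≤ (‖z‖ ^ 2)⁻¹ := by
  have h1 : (1 : ℝ) ≤ ‖z‖ := by linarith
  calc ‖z‖ ^ p ≤ ‖z‖ ^ (-2 : ℝ) := Real.rpow_le_rpow_of_exponent_le h1 hp
    _ = (‖z‖ ^ 2)⁻¹ := by
      rw [Real.rpow_neg (by linarith)]
      norm_num

theorem Cc_asymp {D b t : ℕ} (ht : t ∈ Ph D b) : ∃ M : ℝ, ∀ z ∈ Om D, 2 ≤ ‖z‖ →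
    ‖Cc D b (D - t) z - z * Ft D b (D - t) z / ((t : ℂ) + rr D b t - D)‖ ≤ M := by
  obtain ⟨h1, h2, h3, h4, h5, h6⟩ := Wb_mem ht
  obtain ⟨M1, hM1⟩ := norm_Ft_inf (b := b) (t := D - t) h6 (by omega)
  obtain ⟨M2, hM2⟩ := Cc_bdd_loc (b := b) (t := D - t) h6 (by omega) 2
  have hr := Wb_rr ht
  set c1 : ℂ := ((D : ℂ) - rr D b t) / ((t : ℂ) + rr D b t - D) with hc1
  set A : ℂ := (t : ℂ) + rr D b t - D with hA
  have hex : (-1 - (((D - t : ℕ) : ℝ) + ((rr D b (D - t) : ℕ) : ℝ) - D)) =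
      (t : ℝ) + rr D b t - D - 1 := by
    rw [hr, Nat.cast_sub h1.le, Nat.cast_sub h2.le]
    ring
  rw [hex] at hM1
  have hM1' : ∀ z : ℂ, 2 ≤ ‖z‖ → ‖Ft D b (D - t) z‖ ≤ |M1| * ‖z‖ ^ ((t : ℝ) + rr D b t - D - 1) :=
    fun z hz => (hM1 z hz).trans (mul_le_mul_of_nonneg_right (le_abs_self _)
      (Real.rpow_nonneg (norm_nonneg _) _))
  refine ⟨(M2 + 2 * (|M1| * 2 ^ ((t : ℝ) + rr D b t - D - 1)) * ‖A⁻¹‖) + |2 * (|M1| * ‖c1‖)|,
    fun z hz h2z => ?_⟩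
  refine Wb_ray h6 (fun y hy => Wb_deriv ht hy) (M := 2 * (|M1| * ‖c1‖)) ?_ ?_ z hz h2z
  · intro y hy hy2
    rw [norm_neg, norm_div, norm_mul, div_eq_mul_inv]
    have hy0 : (0 : ℝ) < ‖y‖ := by linarith
    have e1 := hM1' y hy2
    have e2 := Wb_inv2 h6 hy2
    have e3 : ‖y‖ ^ ((t : ℝ) + rr D b t - D - 1) * (‖y‖ ^ D)⁻¹ ≤ (‖y‖ ^ 2)⁻¹ := by
      rw [← Real.rpow_natCast ‖y‖ D, ← Real.rpow_neg hy0.le, ← Real.rpow_add hy0]
      refine Wb_pow hy2 ?_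
      have h7 : (t : ℝ) + 1 ≤ D := by exact_mod_cast h1
      have h8 : (rr D b t : ℝ) + 1 ≤ D := by exact_mod_cast h2
      have h9 : (0 : ℝ) < D := by exact_mod_cast h6
      linarith
    calc ‖Ft D b (D - t) y‖ * ‖c1‖ * ‖1 - y ^ D‖⁻¹
        ≤ (|M1| * ‖y‖ ^ ((t : ℝ) + rr D b t - D - 1)) * ‖c1‖ * (2 * (‖y‖ ^ D)⁻¹) := by
          gcongr
      _ = (2 * (|M1| * ‖c1‖)) * (‖y‖ ^ ((t : ℝ) + rr D b t - D - 1) * (‖y‖ ^ D)⁻¹) := by ring
      _ ≤ (2 * (|M1| * ‖c1‖)) * (‖y‖ ^ 2)⁻¹ := mul_le_mul_of_nonneg_left e3 (by positivity)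
  · intro y hy hy2
    refine (norm_sub_le _ _).trans (add_le_add (hM2 y hy hy2.le) ?_)
    rw [div_eq_mul_inv, norm_mul, norm_mul, hy2]
    refine mul_le_mul_of_nonneg_right (mul_le_mul_of_nonneg_left ?_ (by norm_num)) (norm_nonneg _)
    have := hM1' y hy2.ge
    rwa [hy2] at this

private theorem Wb_term {D b t : ℕ} (ht : t ∈ Ph D b) : ∃ M : ℝ, ∀ z ∈ Om D, 2 ≤ ‖z‖ →
    ‖(((t : ℂ) / D + (rr D b t : ℂ) / D - 1) / D) * Cc D b (D - t) z * Ft D b t z + 1 / z‖ ≤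
      M * ‖z‖ ^ (-1 - (1 : ℝ)) := by
  obtain ⟨h1, h2, h3, h4, h5, h6⟩ := Wb_mem ht
  obtain ⟨M1, hM1⟩ := Cc_asymp ht
  obtain ⟨M2, hM2⟩ := norm_Ft_inf (b := b) (t := t) h6 h1
  have hDc : (D : ℂ) ≠ 0 := by exact_mod_cast h6.ne'
  set A : ℂ := (t : ℂ) + rr D b t - D with hA
  have hA0 : A ≠ 0 := by
    intro h
    have h' : ((t + rr D b t : ℕ) : ℂ) = (D : ℂ) := by
      push_cast
      rw [hA] at h
      linear_combination h
    have := Nat.cast_injective h'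
    omega
  refine ⟨‖A / D ^ 2‖ * |M1| * |M2| + 2, fun z hz hz2 => ?_⟩
  have hz0 : (0 : ℝ) < ‖z‖ := by linarith
  have hzc : z ≠ 0 := norm_pos_iff.1 hz0
  have hne : (1 : ℂ) - z ^ D ≠ 0 := Complex.slitPlane_ne_zero hz
  have hmul := Ft_mul ht hz
  have hpow : z * (z * z ^ (D - 2)) = z ^ D := by
    rw [← pow_succ', ← pow_succ']
    congr 1
    omega
  have e1 : (((t : ℂ) / D + (rr D b t : ℂ) / D - 1) / D) * Cc D b (D - t) z * Ft D b t z + 1 / z =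
      A / D ^ 2 * (Cc D b (D - t) z - z * Ft D b (D - t) z / A) * Ft D b t z +
        z⁻¹ * (1 - z ^ D)⁻¹ := by
    have e2 : (((t : ℂ) / D + (rr D b t : ℂ) / D - 1) / D) = A / D ^ 2 := by
      rw [hA]
      field_simp
    rw [e2]
    have e3 : A / D ^ 2 * (Cc D b (D - t) z - z * Ft D b (D - t) z / A) * Ft D b t z =
        A / D ^ 2 * Cc D b (D - t) z * Ft D b t z -
          z * (Ft D b (D - t) z * Ft D b t z) / D ^ 2 := by
      field_simp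
    rw [e3, hmul]
    have e4 : z * ((D : ℂ) ^ 2 * z ^ (D - 2) / (1 - z ^ D)) / D ^ 2 = z⁻¹ * (1 - z ^ D)⁻¹ - 1 / z := by
      field_simp
      linear_combination hpow
    rw [e4]
    ring
  rw [e1]
  have e5 : ‖z‖ ^ (-1 - (1 : ℝ)) = (‖z‖ ^ 2)⁻¹ := by
    rw [show (-1 - (1 : ℝ)) = -2 by norm_num, Real.rpow_neg hz0.le]
    norm_num
  rw [e5, add_mul]
  refine (norm_add_le _ _).trans (add_le_add ?_ ?_)
  · rw [norm_mul, norm_mul, mul_assoc (‖A / (D : ℂ) ^ 2‖ * |M1|)]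
    have e6 : ‖Ft D b t z‖ ≤ |M2| * (‖z‖ ^ 2)⁻¹ := by
      refine (hM2 z hz2).trans ?_
      refine mul_le_mul (le_abs_self _) (Wb_pow hz2 ?_) (Real.rpow_nonneg hz0.le _) (abs_nonneg _)
      have : (D : ℝ) + 1 ≤ t + rr D b t := by exact_mod_cast h3
      linarith
    exact mul_le_mul (mul_le_mul_of_nonneg_left ((hM1 z hz hz2).trans (le_abs_self _))
      (norm_nonneg _)) e6 (norm_nonneg _) (by positivity)
  · rw [norm_mul, norm_inv, norm_inv]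
    calc ‖z‖⁻¹ * ‖1 - z ^ D‖⁻¹ ≤ ‖z‖⁻¹ * (2 * (‖z‖ ^ D)⁻¹) :=
          mul_le_mul_of_nonneg_left (Wb_inv2 h6 hz2) (inv_nonneg.2 hz0.le)
      _ ≤ ‖z‖⁻¹ * (2 * (‖z‖ ^ 1)⁻¹) := by
          refine mul_le_mul_of_nonneg_left (mul_le_mul_of_nonneg_left ?_ (by norm_num))
            (inv_nonneg.2 hz0.le)
          exact inv_anti₀ (pow_pos hz0 1) (pow_le_pow_right₀ (by linarith) h6)
      _ = 2 * (‖z‖ ^ 2)⁻¹ := by
          rw [pow_one, pow_two, mul_inv]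
          ring

theorem wd_asymp {D b : ℕ} (hD : 3 ≤ D) : ∃ M : ℝ, ∀ z ∈ Om D, 2 ≤ ‖z‖ →
    ‖wd D b z + (gg D b : ℝ) / z‖ ≤ M * ‖z‖ ^ (-1 - (1 : ℝ)) := by
  have h : ∀ t : ℕ, ∃ M : ℝ, t ∈ Ph D b → ∀ z ∈ Om D, 2 ≤ ‖z‖ →
    ‖(((t : ℂ) / D + (rr D b t : ℂ) / D - 1) / D) * Cc D b (D - t) z * Ft D b t z + 1 / z‖ ≤
      M * ‖z‖ ^ (-1 - (1 : ℝ)) := by
    intro t
    by_cases ht : t ∈ Ph D b
    · obtain ⟨M, hM⟩ := Wb_term ht
      exact ⟨M, fun _ => hM⟩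
    · exact ⟨0, fun h => absurd h ht⟩
  choose M hM using h
  refine ⟨∑ t ∈ Ph D b, M t, fun z hz hz2 => ?_⟩
  have e1 : wd D b z + (gg D b : ℝ) / z = ∑ t ∈ Ph D b,
      ((((t : ℂ) / D + (rr D b t : ℂ) / D - 1) / D) * Cc D b (D - t) z * Ft D b t z + 1 / z) := by
    rw [Finset.sum_add_distrib, Finset.sum_const, wd, gg]
    congr 1
    rw [nsmul_eq_mul]
    push_cast
    ring
  rw [e1, Finset.sum_mul]
  exact (norm_sum_le _ _).trans (Finset.sum_le_sum (fun t ht => hM t ht z hz hz2))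

private theorem Wb_loc {D b : ℕ} (hD : 3 ≤ D) : ∃ M : ℝ, 0 ≤ M ∧ ∀ z ∈ Om D, ‖z‖ ≤ 2 → ‖z‖ ≠ 1 →
    ‖wd D b z‖ ≤ M * |1 - ‖z‖ ^ D| ^ (-(((D : ℝ) - 1) / D)) := by
  have hD0 : 0 < D := by omega
  have h : ∀ t : ℕ, ∃ M : ℝ, 0 ≤ M ∧ (t ∈ Ph D b → ∀ z ∈ Om D, ‖z‖ ≤ 2 → ‖z‖ ≠ 1 →
    ‖(((t : ℂ) / D + (rr D b t : ℂ) / D - 1) / D) * Cc D b (D - t) z * Ft D b t z‖ ≤
      M * |1 - ‖z‖ ^ D| ^ (-(((D : ℝ) - 1) / D))) := by
    intro t
    by_cases ht : t ∈ Ph D b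
    · obtain ⟨h1, h2, h3, h4, h5, h6⟩ := Wb_mem ht
      obtain ⟨M1, hM1⟩ := Cc_bdd_loc (b := b) (t := D - t) h6 (by omega) 2
      obtain ⟨M2, hM2⟩ := norm_Ft_loc (b := b) (t := t) h6 2
      refine ⟨‖(((t : ℂ) / D + (rr D b t : ℂ) / D - 1) / D)‖ * |M1| * (|M2| * 2 ^ D),
        by positivity, fun _ z hz hz2 hz1 => ?_⟩
      rw [norm_mul, norm_mul, mul_assoc _ (|M2| * 2 ^ D)]
      have hx0 : 0 < |1 - ‖z‖ ^ D| := by
        rw [abs_pos]
        intro h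
        refine hz1 ((pow_eq_one_iff_of_nonneg (norm_nonneg z) hD0.ne').1 ?_)
        linarith
      have hx1 : |1 - ‖z‖ ^ D| ≤ 2 ^ D := by
        have h7 : ‖z‖ ^ D ≤ 2 ^ D := pow_le_pow_left₀ (norm_nonneg z) hz2 D
        have h8 : (1 : ℝ) ≤ 2 ^ D := one_le_pow₀ (by norm_num)
        have h9 : 0 ≤ ‖z‖ ^ D := by positivity
        rw [abs_le]
        constructor <;> linarith
      have hDr : (0 : ℝ) < D := by exact_mod_cast hD0
      have e6 : |1 - ‖z‖ ^ D| ^ (-((rr D b t : ℝ) / D)) ≤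
          2 ^ D * |1 - ‖z‖ ^ D| ^ (-(((D : ℝ) - 1) / D)) := by
        have h8 : (rr D b t : ℝ) + 1 ≤ D := by exact_mod_cast h2
        have h9 : (0 : ℝ) ≤ rr D b t := Nat.cast_nonneg _
        have e7 : -((rr D b t : ℝ) / D) = (((D : ℝ) - 1 - rr D b t) / D) + -(((D : ℝ) - 1) / D) := by
          field_simp
          ring
        rw [e7, Real.rpow_add hx0]
        refine mul_le_mul_of_nonneg_right ?_ (Real.rpow_nonneg hx0.le _)
        have e8 : 0 ≤ ((D : ℝ) - 1 - rr D b t) / D := div_nonneg (by linarith) hDr.le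
        have e9 : ((D : ℝ) - 1 - rr D b t) / D ≤ 1 := by
          rw [div_le_one hDr]
          linarith
        calc |1 - ‖z‖ ^ D| ^ (((D : ℝ) - 1 - rr D b t) / D)
            ≤ (2 ^ D : ℝ) ^ (((D : ℝ) - 1 - rr D b t) / D) := Real.rpow_le_rpow hx0.le hx1 e8
          _ ≤ (2 ^ D : ℝ) ^ (1 : ℝ) :=
            Real.rpow_le_rpow_of_exponent_le (one_le_pow₀ (by norm_num)) e9
          _ = 2 ^ D := Real.rpow_one _
      have e10 : ‖Ft D b t z‖ ≤ (|M2| * 2 ^ D) * |1 - ‖z‖ ^ D| ^ (-(((D : ℝ) - 1) / D)) := by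
        refine (hM2 z hz2 hz1).trans ?_
        rw [mul_assoc]
        exact mul_le_mul (le_abs_self _) e6 (Real.rpow_nonneg hx0.le _) (abs_nonneg _)
      exact mul_le_mul (mul_le_mul_of_nonneg_left ((hM1 z hz hz2).trans (le_abs_self _))
        (norm_nonneg _)) e10 (norm_nonneg _) (by positivity)
    · exact ⟨0, le_refl _, fun h => absurd h ht⟩
  choose M hM0 hM using h
  refine ⟨∑ t ∈ Ph D b, M t, Finset.sum_nonneg (fun t _ => hM0 t), fun z hz hz2 hz1 => ?_⟩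
  rw [wd, Finset.sum_mul]
  exact (norm_sum_le _ _).trans (Finset.sum_le_sum (fun t ht => hM t ht z hz hz2 hz1))

private theorem Wb_cont {D b : ℕ} (hD : 3 ≤ D) : ContinuousOn (wd D b) (Om D) := by
  have hD0 : 0 < D := by omega
  unfold wd
  refine continuousOn_finsetSum _ (fun t _ => ?_)
  refine ContinuousOn.mul (ContinuousOn.mul continuousOn_const ?_)
    (differentiableOn_Ft hD0).continuousOn
  exact fun z hz => (hasDerivAt_Cc hD0 hz).continuousAt.continuousWithinAt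

theorem W_lower {D b : ℕ} (hD : 3 ≤ D) : ∃ M : ℝ, 0 < M ∧
    (∀ z ∈ Om D, ‖z‖ ≤ 1 / 2 → ‖(cexp (Ww D b z))⁻¹‖ ≤ M) ∧
    ∀ z ∈ Om D, 1 / 2 ≤ ‖z‖ → ‖(z ^ gg D b * cexp (Ww D b z))⁻¹‖ ≤ M := by
  have hD0 : 0 < D := by omega
  have hDr : (3 : ℝ) ≤ D := by exact_mod_cast hD
  obtain ⟨M1, h10, hM1⟩ := Wb_loc (b := b) hD
  obtain ⟨M2, hM2⟩ := wd_asymp (b := b) hD
  obtain ⟨K, hK1, hK2⟩ := prim_log (D := D) hD0 (φ := wd D b) (β := ((D : ℝ) - 1) / D)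
    (M := max M1 M2) (ε := 1) (g := (gg D b : ℝ)) (div_nonneg (by linarith) (by linarith))
    (by rw [div_lt_one (by linarith)]; linarith) one_pos (Wb_cont hD)
    (fun z hz hz2 hz1 => (hM1 z hz hz2 hz1).trans (mul_le_mul_of_nonneg_right (le_max_left _ _)
      (Real.rpow_nonneg (abs_nonneg _) _)))
    (fun z hz hz2 => (hM2 z hz hz2).trans (mul_le_mul_of_nonneg_right (le_max_right _ _)
      (Real.rpow_nonneg (norm_nonneg _) _)))
  refine ⟨2 ^ gg D b * Real.exp K, by positivity, ?_, ?_⟩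
  · intro z hz hz2
    have h1 := hK1 z hz (by linarith)
    rw [norm_inv, Complex.norm_exp, ← Real.exp_neg]
    have h2 : -(Ww D b z).re ≤ K := by
      have := (Complex.abs_re_le_norm (Ww D b z))
      have h3 := neg_abs_le (Ww D b z).re
      have h4 : ‖Ww D b z‖ ≤ K := h1
      linarith
    calc Real.exp (-(Ww D b z).re) ≤ Real.exp K := Real.exp_le_exp.2 h2
      _ = 1 * Real.exp K := (one_mul _).symm
      _ ≤ 2 ^ gg D b * Real.exp K :=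
        mul_le_mul_of_nonneg_right (one_le_pow₀ (by norm_num)) (Real.exp_pos _).le
  · intro z hz hz2
    rw [norm_inv, norm_mul, norm_pow, Complex.norm_exp, mul_inv, ← Real.exp_neg]
    have hz0 : (0 : ℝ) < ‖z‖ := by linarith
    rcases le_total ‖z‖ 2 with h5 | h5
    · have h1 := hK1 z hz h5
      have h2 : -(Ww D b z).re ≤ K := by
        have := (Complex.abs_re_le_norm (Ww D b z))
        have h3 := neg_abs_le (Ww D b z).re
        have h4 : ‖Ww D b z‖ ≤ K := h1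
        linarith
      refine mul_le_mul ?_ (Real.exp_le_exp.2 h2) (Real.exp_pos _).le (by positivity)
      rw [← inv_pow]
      refine pow_le_pow_left₀ (inv_nonneg.2 hz0.le) ?_ _
      rw [inv_le_comm₀ hz0 (by norm_num)]
      linarith
    · have h1 := hK2 z hz h5
      have h6 : ‖z‖ ^ gg D b = Real.exp ((gg D b : ℝ) * Real.log ‖z‖) := by
        rw [mul_comm, ← Real.rpow_def_of_pos hz0, Real.rpow_natCast]
      rw [h6, ← Real.exp_neg, ← Real.exp_add]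
      have h7 : -((gg D b : ℝ) * Real.log ‖z‖) + -(Ww D b z).re ≤ K := by
        have h8 := neg_abs_le ((Prim (wd D b) z).re + (gg D b : ℝ) * Real.log ‖z‖)
        have h9 : (Ww D b z).re = (Prim (wd D b) z).re := rfl
        rw [h9]
        linarith
      calc Real.exp (-((gg D b : ℝ) * Real.log ‖z‖) + -(Ww D b z).re) ≤ Real.exp K :=
            Real.exp_le_exp.2 h7
        _ = 1 * Real.exp K := (one_mul _).symm
        _ ≤ 2 ^ gg D b * Real.exp K :=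
          mul_le_mul_of_nonneg_right (one_le_pow₀ (by norm_num)) (Real.exp_pos _).le

end Pool.Agent.RHU
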