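import Pool.Agent.RHU.Fgl
import Pool.Agent.RHU.Lpl
import Pool.Agent.RHU.Wb

/-!
# RHU-Fsp: `fw` is a combination of the functions `psi`, determinant formula

PLAN. `fw_span`: `lpl` with `K = KK D b`. Bounds: `Cc_bdd` (so `T` is bounded: continuous on a compact set),
`norm_Ee` (at most `M/‖z‖` for each of the `card (Pt) - 1` points), `W_lower`; `card (Pt) - 1 + gg = KK`
(`card_Val`). `z ∈ Om D`, `im (z^D) ≠ 0` implies `z ≠ 0`, `z ∈ Om D`.
`fw_det`: `fw (w_k) = 0` for `k ≠ i` (`Ee_self`). Let `A = (psi m (w k))_{k,m}`, `det A = Del w ≠ 0`, `a` the coefficient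
vector: `A a = fw(w_i) e_i`; Cramer: `a = fw(w_i) A⁻¹ e_i`, and `∑_m a_m psi m z = fw(w_i) det(A with row i
replaced by psi · z)/det A` (`Matrix.cramer`, or: both sides are linear in the row...).
-/

set_option autoImplicit false

namespace Pool.Agent.RHU

open Complex Filter Topology Finset

variable {D b : ℕ}

private theorem fsp_im_ne {D : ℕ} (hD : 3 ≤ D) {z : ℂ} (h : (z ^ D).im ≠ 0) : z ≠ 0 := by
  intro h0
  rw [h0, zero_pow (by omega)] at h
  exact h rfl

/-- continuous functions of the bounded vector are bounded -/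
private theorem fsp_T (T : (↥(Ph D b) → ℂ) → ℂ) (hT : Continuous T) (R : ℝ) (hR : 0 ≤ R) :
    ∃ M : ℝ, 0 ≤ M ∧ ∀ u : ↥(Ph D b) → ℂ, (∀ t, ‖u t‖ ≤ R) → ‖T u‖ ≤ M := by
  obtain ⟨M, hM⟩ := (isCompact_closedBall (0 : ↥(Ph D b) → ℂ) R).exists_bound_of_continuousOn
    hT.continuousOn
  refine ⟨max M 0, le_max_right _ _, fun u hu => (hM u ?_).trans (le_max_left _ _)⟩
  rw [mem_closedBall_zero_iff]
  exact (pi_norm_le_iff_of_nonneg hR).2 hu

private theorem fsp_bound (hD : 3 ≤ D) {T : (↥(Ph D b) → ℂ) → ℂ} (hT : Continuous T)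
    {w : Pt D b → ℂ} (i : Pt D b) : ∃ M : ℝ, 0 ≤ M ∧ ∀ z ∈ Om D,
      ‖T (fun t => Cc D b t z + ∑ k ∈ univ.erase i, Cc D b t (w k))‖ ≤ M := by
  have h : ∀ t : ↥(Ph D b), ∃ M : ℝ, ∀ z ∈ Om D, ‖Cc D b t z‖ ≤ M := fun t => Cc_bdd t.2
  choose M hM using h
  set N : ↥(Ph D b) → ℝ := fun t => |M t| + ‖∑ k ∈ univ.erase i, Cc D b t (w k)‖ with hN
  have hN0 : ∀ t, 0 ≤ N t := fun t => by positivity
  obtain ⟨M', hM'0, hM'⟩ := fsp_T T hT (∑ t, N t) (Finset.sum_nonneg fun t _ => hN0 t)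
  refine ⟨M', hM'0, fun z hz => hM' _ fun t => ?_⟩
  refine le_trans ?_ (Finset.single_le_sum (fun t _ => hN0 t) (Finset.mem_univ t))
  exact (norm_add_le _ _).trans (add_le_add ((hM t z hz).trans (le_abs_self _)) le_rfl)

private theorem fsp_diff (hD : 3 ≤ D) {T : (↥(Ph D b) → ℂ) → ℂ} (hT : Differentiable ℂ T)
    {w : Pt D b → ℂ} (hw : ∀ k, w k ∈ Om D) (i : Pt D b) :
    DifferentiableOn ℂ (fw D b T w i) (Om D \ {0}) := by
  have hD0 : 0 < D := by omega
  intro z hz
  have hz0 : z ≠ 0 := hz.2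
  refine DifferentiableWithinAt.div (DifferentiableWithinAt.mul ?_ ?_)
    (DifferentiableWithinAt.mul ?_ ?_) ?_
  · refine (hT _).comp_differentiableWithinAt z ?_
    rw [differentiableWithinAt_pi]
    intro t
    exact (((hasDerivAt_Cc hD0 hz.1).differentiableAt).add_const _).differentiableWithinAt
  · refine DifferentiableWithinAt.fun_finset_prod fun k _ => ?_
    exact differentiableOn_Ee hD0 (hw k) z hz
  · exact (differentiableAt_id.pow _).differentiableWithinAt
  · exact ((hasDerivAt_Ww hD0 hz.1).differentiableAt.cexp).differentiableWithinAt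
  · exact mul_ne_zero (pow_ne_zero _ hz0) (Complex.exp_ne_zero _)

private theorem fsp_card (hD : 3 ≤ D) (hb : 0 < b) (hb2 : b + 1 < D) (i : Pt D b) :
    (univ.erase i).card + gg D b = KK D b := by
  have h := card_Val (K := KK D b) hD hb hb2 (by unfold KK; omega)
  have h2 : (univ : Finset (Pt D b)).card = (Val D b (KK D b)).card := by
    rw [Finset.card_univ, Fintype.card_coe]
  have h3 := Finset.card_erase_of_mem (Finset.mem_univ i)
  have h4 : 0 < (univ : Finset (Pt D b)).card := Finset.card_pos.2 ⟨i, Finset.mem_univ i⟩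
  omega

theorem fw_span (hD : 3 ≤ D) (hb : 0 < b) (hb2 : b + 1 < D) {T : (↥(Ph D b) → ℂ) → ℂ}
    (hT : IsT D b T) {w : Pt D b → ℂ} (hw : ∀ k, ((w k) ^ D).im ≠ 0) (i : Pt D b) :
    ∃ a : ℕ → ℂ, ∀ z ∈ Om D, z ≠ 0 →
      fw D b T w i z = ∑ m ∈ Val D b (KK D b), a m * psi D b m z := by
  have hD0 : 0 < D := by omega
  have hwO : ∀ k, w k ∈ Om D := fun k => mem_Om_of_im (hw k)
  obtain ⟨M1, hM1, hT1⟩ := fsp_bound hD hT.1.continuous (w := w) i
  have hE : ∀ k, ∃ M : ℝ, 0 < M ∧ (∀ z ∈ Om D, 1 / 2 ≤ ‖z‖ → ‖Ee D b (w k) z‖ ≤ M) ∧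
    ∀ z ∈ Om D, 0 < ‖z‖ → ‖z‖ ≤ 1 / 2 → ‖Ee D b (w k) z‖ ≤ M / ‖z‖ := fun k => norm_Ee hD (hwO k)
  choose E hE0 hE1 hE2 using hE
  obtain ⟨M2, hM2, hW1, hW2⟩ := W_lower (b := b) hD
  refine lpl (K := KK D b) hD hb hb2 (by unfold KK; omega) (f := fw D b T w i)
    (fsp_diff hD hT.1 hwO i) (fB D b T w i)
    (fun j σ hσ r hr => fw_lim hD hT.1.continuous hwO i j hσ hr)
    (fun j r hr => fB_rel hD hb hb2 hT hw i j hr)
    (M := M1 * (∏ k ∈ univ.erase i, E k) * M2) ?_ ?_
  · intro z hz hz2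
    unfold fw
    rw [div_eq_mul_inv, norm_mul, norm_mul, norm_prod]
    refine mul_le_mul (mul_le_mul (hT1 z hz) ?_ ?_ hM1) (hW2 z hz hz2) (norm_nonneg _) ?_
    · exact Finset.prod_le_prod (fun k _ => norm_nonneg _) fun k _ => hE1 k z hz hz2
    · exact Finset.prod_nonneg fun k _ => norm_nonneg _
    · exact mul_nonneg hM1 (Finset.prod_nonneg fun k _ => (hE0 k).le)
  · intro z hz hz0 hz2
    unfold fw
    rw [div_eq_mul_inv, norm_mul, norm_mul, norm_prod, mul_inv, norm_mul, norm_inv, norm_pow]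
    have hP : ∏ k ∈ univ.erase i, ‖Ee D b (w k) z‖ ≤
        (∏ k ∈ univ.erase i, E k) / ‖z‖ ^ (univ.erase i).card := by
      calc ∏ k ∈ univ.erase i, ‖Ee D b (w k) z‖ ≤ ∏ k ∈ univ.erase i, (E k / ‖z‖) :=
            Finset.prod_le_prod (fun k _ => norm_nonneg _) fun k _ => hE2 k z hz hz0 hz2
        _ = _ := by rw [Finset.prod_div_distrib, Finset.prod_const]
    have hEn : 0 ≤ ∏ k ∈ univ.erase i, E k := Finset.prod_nonneg fun k _ => (hE0 k).le
    have hc := fsp_card hD hb hb2 i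
    calc ‖T (fun t => Cc D b t z + ∑ k ∈ univ.erase i, Cc D b t (w k))‖ *
          (∏ k ∈ univ.erase i, ‖Ee D b (w k) z‖) * ((‖z‖ ^ gg D b)⁻¹ * ‖(cexp (Ww D b z))⁻¹‖)
        ≤ M1 * ((∏ k ∈ univ.erase i, E k) / ‖z‖ ^ (univ.erase i).card) *
          ((‖z‖ ^ gg D b)⁻¹ * M2) := by
          refine mul_le_mul (mul_le_mul (hT1 z hz) hP ?_ hM1)
            (mul_le_mul_of_nonneg_left (hW1 z hz hz2) (by positivity)) (by positivity) ?_
          · exact Finset.prod_nonneg fun k _ => norm_nonneg _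
          · exact mul_nonneg hM1 (div_nonneg hEn (by positivity))
      _ = M1 * (∏ k ∈ univ.erase i, E k) * M2 / ‖z‖ ^ KK D b := by
          have hpk : ‖z‖ ^ KK D b = ‖z‖ ^ (univ.erase i).card * ‖z‖ ^ gg D b := by
            rw [← pow_add]
            exact congrArg (fun n => ‖z‖ ^ n) hc.symm
          rw [hpk]
          field_simp

theorem fw_det (hD : 3 ≤ D) (hb : 0 < b) (hb2 : b + 1 < D) {T : (↥(Ph D b) → ℂ) → ℂ}
    (hT : IsT D b T) {w : Pt D b → ℂ} (hw : ∀ k, ((w k) ^ D).im ≠ 0) (i : Pt D b)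
    (hdel : Del D b w ≠ 0) {z : ℂ} (hz : z ∈ Om D) (hz0 : z ≠ 0) :
    fw D b T w i z * Del D b w = fw D b T w i (w i) * Del D b (Function.update w i z) := by
  obtain ⟨a, ha⟩ := fw_span hD hb hb2 hT hw i
  have ha' : ∀ z ∈ Om D, z ≠ 0 → fw D b T w i z = ∑ m : Pt D b, a m * psi D b m z := by
    intro z hz hz0
    rw [ha z hz hz0]
    exact (Finset.sum_coe_sort (Val D b (KK D b)) (fun m => a m * psi D b m z)).symm
  set A : Matrix (Pt D b) (Pt D b) ℂ := Matrix.of (fun k m : Pt D b => psi D b m (w k)) with hA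
  set v : Pt D b → ℂ := fun m => a m with hv
  have hAv : A.mulVec v = fun k => if k = i then fw D b T w i (w i) else 0 := by
    funext k
    have h1 : A.mulVec v k = fw D b T w i (w k) := by
      rw [ha' (w k) (mem_Om_of_im (hw k)) (fsp_im_ne hD (hw k))]
      simp only [Matrix.mulVec, dotProduct, hA, hv, Matrix.of_apply]
      exact Finset.sum_congr rfl fun m _ => mul_comm _ _
    rw [h1]
    by_cases hk : k = i
    · rw [if_pos hk, hk]
    · rw [if_neg hk]
      unfold fw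
      rw [Finset.prod_eq_zero (Finset.mem_erase.2 ⟨hk, Finset.mem_univ k⟩) (Ee_self D b (w k)),
        mul_zero, zero_div]
  have hdetv : ∀ m, A.det * v m = fw D b T w i (w i) * A.adjugate m i := by
    intro m
    have h1 : A.adjugate.mulVec (A.mulVec v) = A.det • v := by
      rw [Matrix.mulVec_mulVec, Matrix.adjugate_mul, Matrix.smul_mulVec, Matrix.one_mulVec]
    have h2 := congrFun h1 m
    rw [Pi.smul_apply, smul_eq_mul] at h2
    rw [← h2, hAv]
    simp only [Matrix.mulVec, dotProduct, mul_ite, mul_zero, Finset.sum_ite_eq',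
      Finset.mem_univ, if_true]
    ring
  have hup : Matrix.of (fun k m : Pt D b => psi D b m (Function.update w i z k)) =
      A.updateRow i (fun m => psi D b m z) := by
    ext k m
    by_cases hk : k = i
    · subst hk
      simp
    · simp [hA, hk]
  have hdet2 : Del D b (Function.update w i z) =
      ∑ m : Pt D b, psi D b m z * A.adjugate m i := by
    unfold Del
    rw [hup, Matrix.det_eq_sum_mul_adjugate_row _ i]
    refine Finset.sum_congr rfl fun m _ => ?_
    rw [Matrix.updateRow_self, Matrix.adjugate_apply, Matrix.adjugate_apply,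
      Matrix.updateRow_idem]
  have hdet1 : Del D b w = A.det := rfl
  rw [hdet1, hdet2, ha' z hz hz0, Finset.sum_mul, Finset.mul_sum]
  refine Finset.sum_congr rfl fun m _ => ?_
  have := hdetv m
  simp only [hv] at this
  linear_combination psi D b m z * this

end Pool.Agent.RHU
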