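import Pool.Agent.RHU.KOpen

/-!
# RHU-Fst: the first order identity

PLAN. `w ∈ Gs`; `u = Sc D b w` is the argument of `T` in `fw w i (w i)`. Differentiate `fw_det` (in `z` at
`z = w i`): `fw' Del = fw(w i) dDel i`; `fw (w i) ≠ 0` (`T u ≠ 0`, `Ee_ne` for the other points: `w i ≠ w k` as the
`D`-th powers differ), so `fw'/fw = dDel/Del`; and `fw'/fw = ∑_t LT t u F_t(w i) + ∑_{k≠i} (Ee'/Ee) - g/w_i - wd(w_i)`
(chain rule for `T`: `fderiv T u (F_t)_t = ∑_t F_t fderiv T u e_t`; `hasDerivAt_Ee`, `hasDerivAt_Ww`).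
-/

set_option autoImplicit false

namespace Pool.Agent.RHU

open Complex Finset Filter Topology

variable {D b : ℕ}

private theorem fst_chain {ι : Type} [Fintype ι] [DecidableEq ι] {T : (ι → ℂ) → ℂ}
    (hT : Differentiable ℂ T) {a : ℂ → ι → ℂ} {a' : ι → ℂ} {z : ℂ} (h : HasDerivAt a a' z) :
    HasDerivAt (fun z => T (a z)) (∑ t, a' t * fderiv ℂ T (a z) (Pi.single t 1)) z := by
  have e1 : HasFDerivAt T (fderiv ℂ T (a z)) (a z) := (hT (a z)).hasFDerivAt
  have e2 := e1.comp_hasDerivAt z h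
  refine e2.congr_deriv ?_
  have e3 := LinearMap.pi_apply_eq_sum_univ
    (fderiv ℂ T (a z) : (ι → ℂ) →L[ℂ] ℂ).toLinearMap a'
  refine e3.trans (Finset.sum_congr rfl fun s _ => ?_)
  rw [smul_eq_mul]
  congr 1
  have e4 : (fun l : ι => if s = l then (1 : ℂ) else 0) = Pi.single s 1 := by
    funext l
    rw [Pi.single_apply]
    simp only [eq_comm]
  rw [e4]
  rfl

private theorem fst_prod {ι : Type} [DecidableEq ι] (u : Finset ι) {f : ι → ℂ → ℂ} {q : ι → ℂ}
    {z : ℂ} (h : ∀ k ∈ u, HasDerivAt (f k) (f k z * q k) z) :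
    HasDerivAt (fun z => ∏ k ∈ u, f k z) ((∏ k ∈ u, f k z) * ∑ k ∈ u, q k) z := by
  induction u using Finset.induction_on with
  | empty =>
    simp only [Finset.prod_empty, Finset.sum_empty, mul_zero]
    exact hasDerivAt_const _ _
  | insert k s hk ih =>
    have h1 := h k (Finset.mem_insert_self k s)
    have h2 := ih fun l hl => h l (Finset.mem_insert_of_mem hl)
    have h3 := h1.fun_mul h2
    simp only [Finset.prod_insert hk, Finset.sum_insert hk]
    exact h3.congr_deriv (by ring)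

theorem first_order (hD : 3 ≤ D) (hb : 0 < b) (hb2 : b + 1 < D) {T : (↥(Ph D b) → ℂ) → ℂ}
    (hT : IsT D b T) {w : Pt D b → ℂ} (hw : w ∈ Gs D b T) (i : Pt D b) :
    ∑ t : ↥(Ph D b), LT T t (Sc D b w) * Ft D b t (w i) = dDel D b w i / Del D b w -
      ∑ k ∈ univ.erase i, (Qz D b (w k) (w i) + 1 / (w i - w k) - 1 / w i) +
        gg D b / w i + wd D b (w i) := by
  classical
  have hD0 : 0 < D := by omega
  obtain ⟨h1, h2, h3, h4⟩ := id hw
  have hO : ∀ k, w k ∈ Om D := fun k => mem_Om_of_im (h1 k)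
  have h0 : ∀ k, w k ≠ 0 := fun k hk => by
    apply h1 k
    rw [hk, zero_pow hD0.ne', Complex.zero_im]
  have hne : ∀ k ∈ univ.erase i, w i ≠ w k := fun k hk h =>
    h2 i k (Finset.ne_of_mem_erase hk).symm (by rw [h])
  set a : ℂ → (↥(Ph D b) → ℂ) :=
    fun z t => Cc D b t z + ∑ k ∈ univ.erase i, Cc D b t (w k) with hadef
  have ha : a (w i) = Sc D b w := by
    funext t
    exact Finset.add_sum_erase univ (fun k => Cc D b t (w k)) (mem_univ i)
  have hda : HasDerivAt a (fun t : ↥(Ph D b) => Ft D b t (w i)) (w i) :=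
    hasDerivAt_pi.2 fun t => (hasDerivAt_Cc hD0 (hO i)).add_const _
  have hT1 := fst_chain hT.1 hda
  have hP := fst_prod (univ.erase i) (f := fun k => Ee D b (w k))
    (q := fun k => Qz D b (w k) (w i) + 1 / (w i - w k) - 1 / w i) (z := w i)
    (fun k hk => hasDerivAt_Ee hD0 (hO k) (hO i) (h0 i) (hne k hk))
  have hW := (hasDerivAt_Ww (b := b) hD0 (hO i)).cexp
  have hG : HasDerivAt (fun z => z ^ gg D b * cexp (Ww D b z))
      ((w i ^ gg D b * cexp (Ww D b (w i))) * (gg D b / w i + wd D b (w i))) (w i) := by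
    have h5 := (hasDerivAt_pow (gg D b) (w i)).fun_mul hW
    refine h5.congr_deriv ?_
    have h6 : (gg D b : ℂ) * w i ^ (gg D b - 1) = w i ^ gg D b * (gg D b / w i) := by
      rcases Nat.eq_zero_or_pos (gg D b) with h | h
      · rw [h]; simp
      · have h7 : w i ^ gg D b = w i ^ (gg D b - 1) * w i := by
          rw [← pow_succ, Nat.sub_add_cancel h]
        rw [h7]
        field_simp [h0 i]
    rw [h6]
    ring
  have hGne : w i ^ gg D b * cexp (Ww D b (w i)) ≠ 0 :=
    mul_ne_zero (pow_ne_zero _ (h0 i)) (Complex.exp_ne_zero _)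
  have hPne : (∏ k ∈ univ.erase i, Ee D b (w k) (w i)) ≠ 0 :=
    Finset.prod_ne_zero_iff.2 fun k hk => Ee_ne (h0 i) (hne k hk)
  have hTne : T (a (w i)) ≠ 0 := by
    rw [ha]
    exact h3
  have hF := (hT1.fun_mul hP).fun_div hG hGne
  have hDel := (hasDerivAt_Del (b := b) hD0 hO h0 i).const_mul (fw D b T w i (w i))
  have hev : (fun z => fw D b T w i z * Del D b w) =ᶠ[𝓝 (w i)]
      fun z => fw D b T w i (w i) * Del D b (Function.update w i z) := by
    have e1 : ∀ᶠ z in 𝓝 (w i), z ∈ Om D := (isOpen_Om D).mem_nhds (hO i)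
    have e2 : ∀ᶠ z in 𝓝 (w i), z ≠ 0 := continuousAt_id.eventually_ne (h0 i)
    filter_upwards [e1, e2] with z hz hz0
    exact fw_det hD hb hb2 hT h1 i h4 hz hz0
  have hu := (hF.mul_const (Del D b w)).unique (hDel.congr_of_eventuallyEq hev)
  have hS : ∑ t : ↥(Ph D b), LT T t (Sc D b w) * Ft D b t (w i) =
      (∑ t : ↥(Ph D b), Ft D b t (w i) * fderiv ℂ T (a (w i)) (Pi.single t 1)) /
        T (a (w i)) := by
    rw [Finset.sum_div]
    refine Finset.sum_congr rfl fun t _ => ?_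
    rw [ha]
    unfold LT
    ring
  rw [hS]
  have hfw : fw D b T w i (w i) = T (a (w i)) * (∏ k ∈ univ.erase i, Ee D b (w k) (w i)) /
      (w i ^ gg D b * cexp (Ww D b (w i))) := rfl
  rw [hfw] at hu
  clear_value a
  generalize (∑ t : ↥(Ph D b), Ft D b t (w i) * fderiv ℂ T (a (w i)) (Pi.single t 1)) = S at hu ⊢
  generalize (∑ k ∈ univ.erase i, (Qz D b (w k) (w i) + 1 / (w i - w k) - 1 / w i)) = Q at hu ⊢
  generalize (∏ k ∈ univ.erase i, Ee D b (w k) (w i)) = P at hu hPne
  generalize T (a (w i)) = t at hu hTne ⊢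
  generalize w i ^ gg D b * cexp (Ww D b (w i)) = G at hu hGne
  have h5 : (S / t + Q - (gg D b / w i + wd D b (w i))) * (t * P * G * Del D b w) =
      t * P * G * dDel D b w i := by
    have h6 : (S * P + t * (P * Q)) * G - t * P * (G * (gg D b / w i + wd D b (w i))) =
        (S / t + Q - (gg D b / w i + wd D b (w i))) * (t * P * G) := by
      field_simp
    rw [h6] at hu
    have h7 : (S / t + Q - (gg D b / w i + wd D b (w i))) * (t * P * G) / G ^ 2 * Del D b w *
        G ^ 2 = t * P / G * dDel D b w i * G ^ 2 := by rw [hu]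
    have h8 : (S / t + Q - (gg D b / w i + wd D b (w i))) * (t * P * G) / G ^ 2 * Del D b w *
        G ^ 2 = (S / t + Q - (gg D b / w i + wd D b (w i))) * (t * P * G * Del D b w) := by
      rw [div_mul_eq_mul_div, div_mul_cancel₀ _ (pow_ne_zero 2 hGne)]
      ring
    have h9 : t * P / G * dDel D b w i * G ^ 2 = t * P * G * dDel D b w i := by
      field_simp
    rw [← h8, h7, h9]
  have h6 : t * P * G ≠ 0 := mul_ne_zero (mul_ne_zero hTne hPne) hGne
  have h7 : (S / t + Q - (gg D b / w i + wd D b (w i))) * Del D b w = dDel D b w i := by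
    apply mul_left_cancel₀ h6
    rw [← h5]
    ring
  rw [← h7, mul_div_cancel_right₀ _ h4]
  ring

end Pool.Agent.RHU
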