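import Pool.Agent.RHU.KDefs
import Pool.Agent.RHU.Cnt

/-!
# RHU: good configurations
-/

set_option autoImplicit false

namespace Pool.Agent.RHU

open Complex Finset

noncomputable section

/-- the matrix of the differentials at the points `e a` -/
def Fm (D b : ℕ) (e : ↥(Ph D b) → Pt D b) (w : Pt D b → ℂ) : Matrix ↥(Ph D b) ↥(Ph D b) ℂ :=
  Matrix.of (fun a t => Ft D b t (w (e a)))

/-- a good configuration: `T`, two disjoint systems of `gg` points, a point of `Gs` with algebraic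
coordinates and invertible matrices -/
structure GP (D b : ℕ) where
  T : (↥(Ph D b) → ℂ) → ℂ
  hT : IsT D b T
  e₁ : ↥(Ph D b) → Pt D b
  e₂ : ↥(Ph D b) → Pt D b
  i₁ : Function.Injective e₁
  i₂ : Function.Injective e₂
  hne : ∀ i j, e₁ i ≠ e₂ j
  w : Pt D b → ℂ
  alg : ∀ k, IsAlgebraic ℚ (w k)
  hw : w ∈ Gs D b T
  h₁ : (Fm D b e₁ w).det ≠ 0
  h₂ : (Fm D b e₂ w).det ≠ 0

/-- the configuration in which the points `e₁ a` are replaced by `x a` -/
def GP.wx {D b : ℕ} (G : GP D b) (x : ↥(Ph D b) → ℂ) : Pt D b → ℂ := by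
  classical
  exact fun k => if h : ∃ a, G.e₁ a = k then x h.choose else G.w k

/-- the coordinates of the base point -/
def GP.x0 {D b : ℕ} (G : GP D b) : ↥(Ph D b) → ℂ := fun a => G.w (G.e₁ a)

/-- the second logarithmic derivatives as functions of the points -/
def GP.Pw {D b : ℕ} (G : GP D b) (s t : ↥(Ph D b)) (w : Pt D b → ℂ) : ℂ :=
  ∑ c, ∑ a, (Fm D b G.e₂ w)⁻¹ s c * Rij D b w (G.e₁ a) (G.e₂ c) * (Fm D b G.e₁ w)⁻¹ t a

end

end Pool.Agent.RHU
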