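import Pool.Agent.RHU.GDefs
import Pool.Agent.RHU.OmB

/-!
# RHU-GoodA: linear independence and determinants

PLAN. `exists_det_ne`: the vectors `(φ_m(z))_m`, `z ∈ B`, span `M → ℂ` (otherwise a nonzero linear form
`∑ a_m φ_m` vanishes on `B`), so some of them form a basis (`exists_linearIndependent`...; or induction over
the size of `M` by expansion along a row); index the basis by `M`. `indep_exp`: `∑ a_m z^(n m) h_m(z) = 0` on a
nonempty open subset of `Om D` (star-shaped, hence preconnected) gives `0` on `Om D`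
(`AnalyticOnNhd.eqOn_zero_of_preconnected_of_eventuallyEq_zero`); if some `a_m ≠ 0` take the one with the least
`n m`, divide by `z^(n m)` and let `z → 0`. Apply to `psi` (multiply by `z^K`: exponents `K - m`,
`h = eta^(kk)`) and `Ft` (exponents `D - 1 - t`).
-/

set_option autoImplicit false

namespace Pool.Agent.RHU

open Complex Finset Filter Topology

theorem exists_det_ne {M : Type} [Fintype M] [DecidableEq M] (B : Set ℂ) (φ : M → ℂ → ℂ)
    (h : ∀ a : M → ℂ, (∀ z ∈ B, ∑ m, a m * φ m z = 0) → a = 0) :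
    ∃ z : M → ℂ, (∀ i, z i ∈ B) ∧ (Matrix.of (fun i m : M => φ m (z i))).det ≠ 0 := by
  sorry

theorem indep_exp {D : ℕ} (hD : 0 < D) {M : Type} [Fintype M] [DecidableEq M] (n : M → ℕ)
    (hn : Function.Injective n) (h : M → ℂ → ℂ) (hd : ∀ m, DifferentiableOn ℂ (h m) (Om D))
    (h0 : ∀ m, h m 0 ≠ 0) {B : Set ℂ} (hB : IsOpen B) (hB0 : B.Nonempty) (hBO : B ⊆ Om D)
    (a : M → ℂ) (ha : ∀ z ∈ B, ∑ m, a m * (z ^ n m * h m z) = 0) : a = 0 := by
  sorry

theorem exists_Del_ne {D b : ℕ} (hD : 0 < D) {B : Set ℂ} (hB : IsOpen B) (hB0 : B.Nonempty)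
    (hBO : B ⊆ Om D) : ∃ w : Pt D b → ℂ, (∀ i, w i ∈ B) ∧ Del D b w ≠ 0 := by
  sorry

theorem exists_Fm_ne {D b : ℕ} (hD : 0 < D) {B : Set ℂ} (hB : IsOpen B) (hB0 : B.Nonempty)
    (hBO : B ⊆ Om D) {e : ↥(Ph D b) → Pt D b} (he : Function.Injective e) :
    ∃ w : Pt D b → ℂ, (∀ i, w i ∈ B) ∧ (Fm D b e w).det ≠ 0 := by
  sorry

end Pool.Agent.RHU
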