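import Mathlib

/-!
# RHU-GoodB: generic points (Mathlib only)

Restriction to complex lines; induction over the functions; density of `ℚ + ℚ i`.
-/

set_option autoImplicit false

namespace Pool.Agent.RHU

open Complex Finset Filter Topology

private lemma goodB_I : IsAlgebraic ℚ Complex.I := by
  refine ⟨Polynomial.X ^ 2 + 1, ?_, ?_⟩
  · intro h
    have h1 := congrArg (fun p : Polynomial ℚ => p.eval 0) h
    simp at h1
  · simp

private lemma goodB_dense : Dense {z : ℂ | IsAlgebraic ℚ z} := by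
  have h1 : DenseRange (fun p : ℚ × ℚ => Complex.equivRealProdCLM.symm
      (Prod.map (Rat.cast : ℚ → ℝ) (Rat.cast : ℚ → ℝ) p)) :=
    (Complex.equivRealProdCLM.symm.surjective.denseRange).comp
      ((Rat.denseRange_cast (𝕜 := ℝ)).prodMap (Rat.denseRange_cast (𝕜 := ℝ)))
      Complex.equivRealProdCLM.symm.continuous
  refine Dense.mono ?_ h1
  rintro _ ⟨p, rfl⟩
  have h2 : Complex.equivRealProdCLM.symm
      (Prod.map (Rat.cast : ℚ → ℝ) (Rat.cast : ℚ → ℝ) p) =
      algebraMap ℚ ℂ p.1 + algebraMap ℚ ℂ p.2 * Complex.I := by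
    apply Complex.ext
    · simp [Complex.equivRealProdCLM_symm_apply]
    · simp [Complex.equivRealProdCLM_symm_apply]
  show IsAlgebraic ℚ (Complex.equivRealProdCLM.symm
      (Prod.map (Rat.cast : ℚ → ℝ) (Rat.cast : ℚ → ℝ) p))
  rw [h2]
  exact (isAlgebraic_algebraMap _).add ((isAlgebraic_algebraMap _).mul goodB_I)

theorem id_thm {X : Type} [NormedAddCommGroup X] [NormedSpace ℂ X] {S V : Set X} (hS : IsOpen S)
    (hc : Convex ℝ S) {f : X → ℂ} (hf : DifferentiableOn ℂ f S) (hV : IsOpen V) (hVn : V.Nonempty)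
    (hVS : V ⊆ S) (h0 : ∀ x ∈ V, f x = 0) : ∀ x ∈ S, f x = 0 := by
  intro q hq
  obtain ⟨p, hp⟩ := hVn
  let L : ℂ → X := fun s => p + s • (q - p)
  have hL : Continuous L := by fun_prop
  have hLd : Differentiable ℂ L := by fun_prop
  let U : Set ℂ := L ⁻¹' S
  have hU : IsOpen U := hS.preimage hL
  have hUc : Convex ℝ U := by
    intro s hs s' hs' a b ha hb hab
    have h1 := hc hs hs' ha hb hab
    have h2 : a • L s + b • L s' = L (a • s + b • s') := by
      show a • (p + s • (q - p)) + b • (p + s' • (q - p)) = p + (a • s + b • s') • (q - p)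
      rw [add_smul, smul_assoc, smul_assoc, smul_add, smul_add]
      have h3 : a • p + b • p = p := by rw [← add_smul, hab, one_smul]
      calc a • p + a • s • (q - p) + (b • p + b • s' • (q - p))
          = (a • p + b • p) + (a • s • (q - p) + b • s' • (q - p)) := by abel
        _ = _ := by rw [h3]
    show L (a • s + b • s') ∈ S
    rw [← h2]
    exact h1
  have h0U : (0 : ℂ) ∈ U := by
    show p + (0 : ℂ) • (q - p) ∈ S
    rw [zero_smul, add_zero]
    exact hVS hp
  have h1U : (1 : ℂ) ∈ U := by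
    show p + (1 : ℂ) • (q - p) ∈ S
    rw [one_smul, add_sub_cancel]
    exact hq
  have hg : DifferentiableOn ℂ (fun s => f (L s)) U :=
    hf.comp hLd.differentiableOn fun s hs => hs
  have hz : (fun s => f (L s)) =ᶠ[𝓝 0] 0 := by
    have h3 : L 0 ∈ V := by
      show p + (0 : ℂ) • (q - p) ∈ V
      rw [zero_smul, add_zero]
      exact hp
    have h4 : L ⁻¹' V ∈ 𝓝 (0 : ℂ) := (hV.preimage hL).mem_nhds h3
    filter_upwards [h4] with s hs
    exact h0 _ hs
  have h5 := (hg.analyticOnNhd hU).eqOn_zero_of_preconnected_of_eventuallyEq_zero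
    hUc.isPreconnected h0U hz h1U
  have h6 : L 1 = q := by
    show p + (1 : ℂ) • (q - p) = q
    rw [one_smul, add_sub_cancel]
  have h7 : f (L 1) = 0 := h5
  rwa [h6] at h7

theorem exists_common {X : Type} [NormedAddCommGroup X] [NormedSpace ℂ X] {S : Set X}
    (hS : IsOpen S) (hc : Convex ℝ S) (hS0 : S.Nonempty) {n : ℕ} (f : Fin n → X → ℂ)
    (hf : ∀ i, DifferentiableOn ℂ (f i) S) (h0 : ∀ i, ∃ x ∈ S, f i x ≠ 0) :
    ∃ V : Set X, IsOpen V ∧ V.Nonempty ∧ V ⊆ S ∧ ∀ x ∈ V, ∀ i, f i x ≠ 0 := by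
  induction n with
  | zero => exact ⟨S, hS, hS0, le_rfl, fun x _ i => i.elim0⟩
  | succ n ih =>
    obtain ⟨V, hV, hVn, hVS, hVf⟩ := ih (fun i => f i.castSucc) (fun i => hf _) (fun i => h0 _)
    have h1 : ∃ x ∈ V, f (Fin.last n) x ≠ 0 := by
      by_contra hcon
      push Not at hcon
      obtain ⟨x, hx, hx0⟩ := h0 (Fin.last n)
      exact hx0 (id_thm hS hc (hf _) hV hVn hVS hcon x hx)
    obtain ⟨x, hx, hx0⟩ := h1
    refine ⟨V ∩ f (Fin.last n) ⁻¹' {0}ᶜ, ?_, ⟨x, hx, hx0⟩, fun y hy => hVS hy.1, ?_⟩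
    · exact ((hf _).continuousOn.mono hVS).isOpen_inter_preimage hV isOpen_compl_singleton
    · intro y hy i
      refine Fin.lastCases hy.2 (fun j => hVf y hy.1 j) i

theorem exists_alg {κ : Type} [Fintype κ] {V : Set (κ → ℂ)} (hV : IsOpen V) (h0 : V.Nonempty) :
    ∃ x ∈ V, ∀ k, IsAlgebraic ℚ (x k) := by
  have h1 : Dense (Set.univ.pi fun _ : κ => {z : ℂ | IsAlgebraic ℚ z}) :=
    dense_pi Set.univ fun _ _ => goodB_dense
  obtain ⟨x, hx, hxV⟩ := h1.exists_mem_open hV h0
  exact ⟨x, hxV, fun k => hx k (Set.mem_univ k)⟩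

end Pool.Agent.RHU
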