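import Pool.Agent.RHU.KDefs

/-!
# RHU-KOpen: derivatives of `psi`, `Del`; the good set is open

PLAN. `hasDerivAt_psi`: `hasDerivAt_eta`, `eta^D = 1 - z^D`. The determinants are polynomials (sums over
permutations) in the entries, each row depends on one point only.
-/

set_option autoImplicit false

namespace Pool.Agent.RHU

open Complex Finset Filter Topology

variable {D b : ℕ}

private theorem ko_det_upd {n : Type} [Fintype n] [DecidableEq n] (M : Matrix n n ℂ) (i : n)
    (v : n → ℂ) :
    (M.updateRow i v).det = ∑ j, v j * (M.updateRow i (Pi.single j 1)).det := by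
  rw [Matrix.det_eq_sum_mul_adjugate_row (M.updateRow i v) i]
  refine Finset.sum_congr rfl fun j _ => ?_
  rw [Matrix.updateRow_self, Matrix.adjugate_apply, Matrix.updateRow_idem]

private theorem ko_det_row {n : Type} [Fintype n] [DecidableEq n] (M : Matrix n n ℂ) (i : n)
    (f : n → ℂ → ℂ) (f' : n → ℂ) (z : ℂ) (h : ∀ m, HasDerivAt (f m) (f' m) z) :
    HasDerivAt (fun z => (M.updateRow i (fun m => f m z)).det) (M.updateRow i f').det z := by
  have h1 : (fun z => (M.updateRow i (fun m => f m z)).det) =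
      fun z => ∑ j, f j z * (M.updateRow i (Pi.single j 1)).det := by
    funext z
    exact ko_det_upd M i _
  rw [h1, ko_det_upd M i f']
  exact HasDerivAt.fun_sum fun j _ => (h j).mul_const _

theorem hasDerivAt_psi (hD : 0 < D) (m : ℕ) {z : ℂ} (hz : z ∈ Om D) (hz0 : z ≠ 0) :
    HasDerivAt (psi D b m) (dpsi D b m z) z := by
  have he := hasDerivAt_eta hD hz
  have hne : eta D z ≠ 0 := eta_ne hz
  have h1 := (he.pow (kk D b m)).div (hasDerivAt_pow m z) (pow_ne_zero m hz0)
  have h2 : 1 - z ^ D = eta D z ^ (D - 1) * eta D z := by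
    rw [← pow_succ, Nat.sub_add_cancel hD, eta_pow hD]
  have hP : (kk D b m : ℂ) * eta D z ^ (kk D b m - 1) = kk D b m * eta D z ^ kk D b m / eta D z := by
    rcases Nat.eq_zero_or_pos (kk D b m) with h | h
    · rw [h]; simp
    · rw [eq_div_iff hne, mul_assoc, ← pow_succ, Nat.sub_add_cancel h]
  have hZ : (m : ℂ) * z ^ (m - 1) = m * z ^ m / z := by
    rcases Nat.eq_zero_or_pos m with h | h
    · rw [h]; simp
    · rw [eq_div_iff hz0, mul_assoc, ← pow_succ, Nat.sub_add_cancel h]
  have hE : eta D z ^ (D - 1) ≠ 0 := pow_ne_zero _ hne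
  have hZ0 : z ^ m ≠ 0 := pow_ne_zero _ hz0
  have h3 : dpsi D b m z = ((kk D b m : ℂ) * eta D z ^ (kk D b m - 1) *
      (-z ^ (D - 1) / eta D z ^ (D - 1)) * z ^ m - eta D z ^ kk D b m * ((m : ℂ) * z ^ (m - 1))) /
      (z ^ m) ^ 2 := by
    unfold dpsi psi
    rw [hP, hZ, h2]
    field_simp
    ring
  rw [h3]
  exact h1

theorem differentiableAt_dpsi (hD : 0 < D) (m : ℕ) {z : ℂ} (hz : z ∈ Om D) (hz0 : z ≠ 0) :
    DifferentiableAt ℂ (dpsi D b m) z := by
  have h1 : DifferentiableAt ℂ (psi D b m) z := (hasDerivAt_psi hD m hz hz0).differentiableAt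
  have h2 : 1 - z ^ D ≠ 0 := Complex.slitPlane_ne_zero hz
  unfold dpsi
  refine h1.neg.mul (DifferentiableAt.add ?_ ?_)
  · exact (differentiableAt_const _).div differentiableAt_id hz0
  · exact ((differentiableAt_const _).mul (differentiableAt_id.pow _)).div
      ((differentiableAt_const _).sub (differentiableAt_id.pow _)) h2

theorem hasDerivAt_Del (hD : 0 < D) {w : Pt D b → ℂ} (hw : ∀ k, w k ∈ Om D) (hw0 : ∀ k, w k ≠ 0)
    (i : Pt D b) : HasDerivAt (fun z => Del D b (Function.update w i z)) (dDel D b w i) (w i) := by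
  have h0 : (fun z => Del D b (Function.update w i z)) =
      fun z => ((Matrix.of (fun k m : Pt D b => psi D b m (w k))).updateRow i
        (fun m => psi D b m z)).det := by
    funext z
    unfold Del
    congr 1
    ext k m
    rw [Matrix.updateRow_apply, Matrix.of_apply, Matrix.of_apply]
    by_cases hk : k = i
    · subst hk
      rw [if_pos rfl, Function.update_self]
    · rw [if_neg hk, Function.update_of_ne hk]
  have h1 : dDel D b w i = ((Matrix.of (fun k m : Pt D b => psi D b m (w k))).updateRow i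
        (fun m => dpsi D b m (w i))).det := by
    unfold dDel
    congr 1
    ext k m
    rw [Matrix.updateRow_apply, Matrix.of_apply, Matrix.of_apply]
    by_cases hk : k = i
    · subst hk
      simp
    · rw [if_neg hk, if_neg hk]
  rw [h0, h1]
  exact ko_det_row _ i (fun m z => psi D b m z) _ _ fun m => hasDerivAt_psi hD m (hw i) (hw0 i)

theorem hasDerivAt_dDel (hD : 0 < D) {w : Pt D b → ℂ} (hw : ∀ k, w k ∈ Om D)
    (hw0 : ∀ k, w k ≠ 0) {i j : Pt D b} (hij : i ≠ j) :
    HasDerivAt (fun z => dDel D b (Function.update w j z) i) (ddDel D b w i j) (w j) := by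
  have h0 : (fun z => dDel D b (Function.update w j z) i) =
      fun z => ((Matrix.of (fun k m : Pt D b =>
        if k = i then dpsi D b m (w k) else psi D b m (w k))).updateRow j
        (fun m => psi D b m z)).det := by
    funext z
    unfold dDel
    congr 1
    ext k m
    rw [Matrix.updateRow_apply, Matrix.of_apply, Matrix.of_apply]
    by_cases hk : k = j
    · subst hk
      rw [if_neg (fun h => hij h.symm), if_pos rfl, Function.update_self]
    · rw [if_neg hk, Function.update_of_ne hk]
  have h1 : ddDel D b w i j = ((Matrix.of (fun k m : Pt D b =>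
        if k = i then dpsi D b m (w k) else psi D b m (w k))).updateRow j
        (fun m => dpsi D b m (w j))).det := by
    unfold ddDel
    congr 1
    ext k m
    rw [Matrix.updateRow_apply, Matrix.of_apply, Matrix.of_apply]
    by_cases hk : k = j
    · subst hk
      rw [if_pos (Or.inr rfl), if_pos rfl]
    · rw [if_neg hk]
      by_cases hk2 : k = i
      · rw [if_pos (Or.inl hk2), if_pos hk2]
      · rw [if_neg (by tauto), if_neg hk2]
  rw [h0, h1]
  exact ko_det_row _ j (fun m z => psi D b m z) _ _ fun m => hasDerivAt_psi hD m (hw j) (hw0 j)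

theorem continuousAt_Del (hD : 0 < D) {w : Pt D b → ℂ} (hw : ∀ k, w k ∈ Om D)
    (hw0 : ∀ k, w k ≠ 0) : ContinuousAt (Del D b) w := by
  have h1 : ContinuousAt (fun w : Pt D b → ℂ => (Matrix.of (fun i m : Pt D b => psi D b m (w i)) :
      Matrix (Pt D b) (Pt D b) ℂ)) w := by
    refine continuousAt_pi.2 fun i => continuousAt_pi.2 fun m => ?_
    have h2 : ContinuousAt (psi D b m) (w i) := (hasDerivAt_psi hD m (hw i) (hw0 i)).continuousAt
    exact ContinuousAt.comp (f := fun w : Pt D b → ℂ => w i) h2 (continuous_apply i).continuousAt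
  have h3 : Continuous (fun M : Matrix (Pt D b) (Pt D b) ℂ => M.det) := continuous_id.matrix_det
  exact ContinuousAt.comp (g := fun M : Matrix (Pt D b) (Pt D b) ℂ => M.det) h3.continuousAt h1

theorem hasDerivAt_Sc (hD : 0 < D) {w : Pt D b → ℂ} (hw : ∀ k, w k ∈ Om D) (i : Pt D b)
    (t : ↥(Ph D b)) :
    HasDerivAt (fun z => Sc D b (Function.update w i z) t) (Ft D b t (w i)) (w i) := by
  have h1 : ∀ k ∈ (univ : Finset (Pt D b)),
      HasDerivAt (fun z => Cc D b t (Function.update w i z k)) (if k = i then Ft D b t (w i) else 0)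
        (w i) := by
    intro k _
    by_cases hk : k = i
    · subst hk
      rw [if_pos rfl]
      simp only [Function.update_self]
      exact hasDerivAt_Cc hD (hw k)
    · rw [if_neg hk]
      simp only [Function.update_of_ne hk]
      exact hasDerivAt_const _ _
  have h2 := HasDerivAt.fun_sum h1
  rw [Finset.sum_ite_eq' univ i, if_pos (mem_univ i)] at h2
  exact h2

theorem isOpen_Gs (hD : 0 < D) {T : (↥(Ph D b) → ℂ) → ℂ} (hT : Continuous T) :
    IsOpen (Gs D b T) := by
  rw [isOpen_iff_eventually]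
  rintro w ⟨h1, h2, h3, h4⟩
  have hO : ∀ k, w k ∈ Om D := fun k => mem_Om_of_im (h1 k)
  have h0 : ∀ k, w k ≠ 0 := by
    intro k hk
    apply h1 k
    rw [hk, zero_pow hD.ne']
    rfl
  have hc : ∀ k, Continuous (fun w : Pt D b → ℂ => (w k) ^ D) := fun k => (continuous_apply k).pow D
  have e1 : ∀ᶠ w' in 𝓝 w, ∀ k, ((w' k) ^ D).im ≠ 0 := by
    rw [Filter.eventually_all]
    intro k
    exact (Complex.continuous_im.comp (hc k)).continuousAt.eventually_ne (h1 k)
  have e2 : ∀ᶠ w' in 𝓝 w, ∀ k l, k ≠ l → (w' k) ^ D ≠ (w' l) ^ D := by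
    rw [Filter.eventually_all]
    intro k
    rw [Filter.eventually_all]
    intro l
    by_cases hkl : k = l
    · exact Filter.Eventually.of_forall fun _ h => absurd hkl h
    · have h5 : ∀ᶠ w' in 𝓝 w, (w' k) ^ D - (w' l) ^ D ≠ 0 :=
        ((hc k).sub (hc l)).continuousAt.eventually_ne (sub_ne_zero.2 (h2 k l hkl))
      exact h5.mono fun w' h _ => sub_ne_zero.1 h
  have e3 : ∀ᶠ w' in 𝓝 w, T (Sc D b w') ≠ 0 := by
    have h5 : ContinuousAt (Sc D b) w := by
      refine continuousAt_pi.2 fun t => ?_
      have h6 : ∀ k ∈ (univ : Finset (Pt D b)),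
          ContinuousAt (fun w : Pt D b → ℂ => Cc D b t (w k)) w := fun k _ =>
        ContinuousAt.comp (f := fun w : Pt D b → ℂ => w k)
          (hasDerivAt_Cc hD (hO k)).continuousAt (continuous_apply k).continuousAt
      exact tendsto_finsetSum _ h6
    exact (hT.continuousAt.comp h5).eventually_ne h3
  have e4 : ∀ᶠ w' in 𝓝 w, Del D b w' ≠ 0 := (continuousAt_Del hD hO h0).eventually_ne h4
  filter_upwards [e1, e2, e3, e4] with w' a1 a2 a3 a4
  exact ⟨a1, a2, a3, a4⟩

end Pool.Agent.RHU
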