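import Pool.Agent.RHU.Leg

/-!
# RHU-Nondeg: the lattice vectors span the space over `ℝ`

Orthogonality of the characters `j ↦ ζ^(tj)`: the residues `t` and `D - t` (`t ∈ Ph`) are different.
-/

set_option autoImplicit false

namespace Pool.Agent.RHU

open Complex ComplexConjugate Finset

private lemma nondeg_geom {D : ℕ} {x : ℂ} (h : x ^ D = 1) (h1 : x ≠ 1) :
    ∑ j ∈ range D, x ^ j = 0 := by
  have h2 := geom_sum_mul x D
  rw [h, sub_self] at h2
  rcases mul_eq_zero.1 h2 with h3 | h3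
  · exact h3
  · exact absurd (sub_eq_zero.1 h3) h1

private lemma nondeg_om (D : ℕ) : om D = (ze D)⁻¹ := Complex.exp_neg _

private lemma nondeg_conj (D : ℕ) : conj (om D) = ze D := by
  unfold om ze
  rw [← Complex.exp_conj]
  congr 1
  rw [map_neg, map_div₀, map_mul, map_mul, Complex.conj_I, Complex.conj_ofReal, map_natCast,
    Complex.conj_ofNat]
  ring

private lemma nondeg_conj' (D : ℕ) : conj (ze D) = om D := by
  rw [← nondeg_conj, Complex.conj_conj]

theorem Ph_sub {D b t : ℕ} (ht : t ∈ Ph D b) : D - t ∉ Ph D b := by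
  rw [mem_Ph, rr_sub ht]
  have h1 := Ph_pos ht
  have h2 := (mem_Ph.1 ht).2
  omega

theorem nondeg {D b : ℕ} (hD : 3 ≤ D) (hb : 0 < b) (hb2 : b + 1 < D) (u : ↥(Ph D b) → ℂ)
    (h : ∀ j : ℕ, (Hh (cv D b) u (lav D b j)).im = 0) : u = 0 := by
  classical
  have hD0 : D ≠ 0 := by omega
  have hDC : (D : ℂ) ≠ 0 := Nat.cast_ne_zero.2 hD0
  have hZ : IsPrimitiveRoot (ze D) D := Complex.isPrimitiveRoot_exp D hD0
  have hZ0 : ze D ≠ 0 := Complex.exp_ne_zero _
  have hZD : ze D ^ D = 1 := hZ.pow_eq_one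
  have hWD : om D ^ D = 1 := by rw [nondeg_om, inv_pow, hZD, inv_one]
  let A : ↥(Ph D b) → ℂ := fun t =>
    (ct D b t : ℂ) * u t * (Bt D b t : ℂ) * (ze D ^ ((t : ℕ) * b) - 1)
  have hH : ∀ j : ℕ, Hh (cv D b) u (lav D b j) = ∑ t, A t * ze D ^ ((t : ℕ) * j) := by
    intro j
    unfold Hh
    refine Finset.sum_congr rfl fun t _ => ?_
    have e1 : conj (lav D b j t) =
        (Bt D b t : ℂ) * (ze D ^ ((t : ℕ) * j) * (ze D ^ ((t : ℕ) * b) - 1)) := by
      unfold lav la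
      rw [map_mul, map_mul, map_sub, map_pow, map_pow, map_one, nondeg_conj, Complex.conj_ofReal]
    rw [e1]
    show (ct D b t : ℂ) * (u t * _) = (ct D b t : ℂ) * u t * (Bt D b t : ℂ) *
      (ze D ^ ((t : ℕ) * b) - 1) * ze D ^ ((t : ℕ) * j)
    ring
  have hrel : ∀ j : ℕ, ∑ t, (A t * ze D ^ ((t : ℕ) * j) - conj (A t) * om D ^ ((t : ℕ) * j)) = 0 := by
    intro j
    have h1 := Complex.conj_eq_iff_im.2 (h j)
    rw [hH j, map_sum] at h1
    rw [Finset.sum_sub_distrib, sub_eq_zero, ← h1]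
    refine Finset.sum_congr rfl fun t _ => ?_
    rw [map_mul, map_pow, nondeg_conj']
  have hG1 : ∀ t t0 : ↥(Ph D b), ∑ j ∈ range D, (om D ^ (t0 : ℕ) * ze D ^ (t : ℕ)) ^ j =
      if t = t0 then (D : ℂ) else 0 := by
    intro t t0
    by_cases ht : t = t0
    · rw [if_pos ht, ht]
      have e1 : om D ^ (t0 : ℕ) * ze D ^ (t0 : ℕ) = 1 := by
        rw [nondeg_om, ← mul_pow, inv_mul_cancel₀ hZ0, one_pow]
      rw [e1]
      simp
    · rw [if_neg ht]
      refine nondeg_geom ?_ fun h1 => ht ?_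
      · rw [mul_pow, ← pow_mul, ← pow_mul, mul_comm (t0 : ℕ) D, mul_comm (t : ℕ) D, pow_mul, pow_mul,
          hZD, hWD, one_pow, one_pow, one_mul]
      · rw [nondeg_om, inv_pow] at h1
        have h2 : ze D ^ (t : ℕ) = ze D ^ (t0 : ℕ) := by
          have h3 : ze D ^ (t0 : ℕ) ≠ 0 := pow_ne_zero _ hZ0
          calc ze D ^ (t : ℕ) = ze D ^ (t0 : ℕ) * ((ze D ^ (t0 : ℕ))⁻¹ * ze D ^ (t : ℕ)) := by
                rw [← mul_assoc, mul_inv_cancel₀ h3, one_mul]
            _ = ze D ^ (t0 : ℕ) := by rw [h1, mul_one]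
        exact Subtype.ext (hZ.pow_inj (Ph_pos t.2).2.1 (Ph_pos t0.2).2.1 h2)
  have hG2 : ∀ t t0 : ↥(Ph D b), ∑ j ∈ range D, (om D ^ (t0 : ℕ) * om D ^ (t : ℕ)) ^ j = 0 := by
    intro t t0
    refine nondeg_geom ?_ fun h1 => ?_
    · rw [mul_pow, ← pow_mul, ← pow_mul, mul_comm (t0 : ℕ) D, mul_comm (t : ℕ) D, pow_mul, pow_mul,
        hWD, one_pow, one_pow, one_mul]
    · rw [nondeg_om, ← pow_add, inv_pow, inv_eq_one] at h1
      have h2 := (hZ.pow_eq_one_iff_dvd _).1 h1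
      obtain ⟨p1, p2, -, -⟩ := Ph_pos t.2
      obtain ⟨q1, q2, -, -⟩ := Ph_pos t0.2
      obtain ⟨k, hk⟩ := h2
      have hk1 : k = 1 := by
        rcases Nat.lt_or_ge k 1 with h3 | h3
        · have h4 : k = 0 := by omega
          rw [h4] at hk
          omega
        · rcases Nat.lt_or_ge k 2 with h5 | h5
          · omega
          · have h6 : D * 2 ≤ D * k := Nat.mul_le_mul_left D h5
            omega
      have h7 : (t0 : ℕ) = D - (t : ℕ) := by
        rw [hk1] at hk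
        omega
      have h8 := Ph_sub t.2
      rw [← h7] at h8
      exact h8 t0.2
  have hA : ∀ t0 : ↥(Ph D b), A t0 = 0 := by
    intro t0
    have h1 : ∑ j ∈ range D, om D ^ ((t0 : ℕ) * j) *
        ∑ t, (A t * ze D ^ ((t : ℕ) * j) - conj (A t) * om D ^ ((t : ℕ) * j)) = 0 :=
      Finset.sum_eq_zero fun j _ => by rw [hrel j, mul_zero]
    have h2 : ∑ j ∈ range D, om D ^ ((t0 : ℕ) * j) *
        ∑ t, (A t * ze D ^ ((t : ℕ) * j) - conj (A t) * om D ^ ((t : ℕ) * j)) =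
        ∑ t, (A t * (if t = t0 then (D : ℂ) else 0) - conj (A t) * 0) := by
      simp only [Finset.mul_sum]
      rw [Finset.sum_comm]
      refine Finset.sum_congr rfl fun t _ => ?_
      rw [← hG1 t t0, ← hG2 t t0, Finset.mul_sum, Finset.mul_sum, ← Finset.sum_sub_distrib]
      refine Finset.sum_congr rfl fun j _ => ?_
      rw [mul_pow, mul_pow, ← pow_mul, ← pow_mul, ← pow_mul]
      ring
    rw [h2] at h1
    simp only [mul_zero, sub_zero, mul_ite, Finset.sum_ite_eq', Finset.mem_univ, if_true] at h1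
    exact (mul_eq_zero.1 h1).resolve_right hDC
  funext t
  have h1 : (ct D b t : ℂ) * u t * (Bt D b t : ℂ) * (ze D ^ ((t : ℕ) * b) - 1) = 0 := hA t
  have h2 : (ct D b t : ℂ) ≠ 0 := by
    have := (ct_pos t.2).ne'
    exact_mod_cast this
  have h3 : (Bt D b t : ℂ) ≠ 0 := by
    have := (Bt_pos t.2).ne'
    exact_mod_cast this
  have h4 : ze D ^ ((t : ℕ) * b) - 1 ≠ 0 := by
    intro h5
    have h6 := (hZ.pow_eq_one_iff_dvd _).1 (sub_eq_zero.1 h5)
    have h7 := (Ph_pos t.2).2.2.1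
    unfold rr at h7
    rw [Nat.mod_eq_zero_of_dvd h6] at h7
    exact lt_irrefl _ h7
  have h5 := (mul_eq_zero.1 h1).resolve_right h4
  have h6 := (mul_eq_zero.1 h5).resolve_right h3
  exact (mul_eq_zero.1 h6).resolve_left h2

end Pool.Agent.RHU
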