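import Pool.Agent.RHU.PoiSum

/-!
# RHU-PoiEnt: the Poincaré series is entire

PLAN. On the ball of radius `R`: the terms are differentiable, `fderiv` of the term is the term times the
continuous linear map `x ↦ -π H(x,l) + π H(x,y)`, of norm `≤ C(1 + ∑|l_i|)`, so there is a summable majorant of
the derivatives (`major`, `gauss`): `hasFDerivAt_tsum_of_isPreconnected` (ball is convex).
-/

set_option autoImplicit false

namespace Pool.Agent.RHU

open Complex ComplexConjugate Finset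

variable {ι κ : Type} [Fintype ι] [Fintype κ] [DecidableEq ι] [DecidableEq κ]

/-- the linear form in the exponent -/
noncomputable def PD.Lf (d : PD ι κ) (y l : ι → ℂ) : (ι → ℂ) →L[ℂ] ℂ :=
  ∑ t, (((d.c t : ℂ) * (conj (y t) - conj (l t)) * (Real.pi : ℂ))) •
    (ContinuousLinearMap.proj t : (ι → ℂ) →L[ℂ] ℂ)

theorem poiEnt_nsl {ι : Type} [Fintype ι] (c : ℂ) (f : (ι → ℂ) →L[ℂ] ℂ) : ‖c • f‖ ≤ ‖c‖ * ‖f‖ := by
  have h : ‖c • f‖ = ‖c‖ * ‖f‖ := norm_smul c f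
  exact h.le

theorem PD.Lf_apply (d : PD ι κ) (y l u : ι → ℂ) :
    d.Lf y l u = ∑ t, ((d.c t : ℂ) * (conj (y t) - conj (l t)) * (Real.pi : ℂ)) * u t := by
  simp [PD.Lf]

theorem PD.Lf_norm (d : PD ι κ) (y l : ι → ℂ) :
    ‖d.Lf y l‖ ≤ (∑ t, d.c t * Real.pi) * ((‖y‖ + 1) + ∑ i, ‖l i‖ ^ 2) := by
  rw [PD.Lf, Finset.sum_mul]
  refine (norm_sum_le _ _).trans (Finset.sum_le_sum fun t _ => ?_)
  have hc := d.hc t
  have hpi := Real.pi_pos
  have h1 : ‖(ContinuousLinearMap.proj t : (ι → ℂ) →L[ℂ] ℂ)‖ ≤ 1 := by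
    refine ContinuousLinearMap.opNorm_le_bound _ zero_le_one fun x => ?_
    rw [one_mul]
    exact norm_le_pi_norm x t
  have h2 : ‖conj (y t) - conj (l t)‖ ≤ ‖y t‖ + ‖l t‖ := by
    refine (norm_sub_le _ _).trans ?_
    rw [RCLike.norm_conj, RCLike.norm_conj]
  have h3 : ‖y t‖ ≤ ‖y‖ := norm_le_pi_norm y t
  have h4 : ‖l t‖ ≤ 1 + ‖l t‖ ^ 2 := by nlinarith [sq_nonneg (‖l t‖ - 1), sq_nonneg (‖l t‖), norm_nonneg (l t)]
  have h5 : ‖l t‖ ^ 2 ≤ ∑ i, ‖l i‖ ^ 2 :=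
    Finset.single_le_sum (f := fun i => ‖l i‖ ^ 2) (fun i _ => sq_nonneg _) (Finset.mem_univ t)
  calc ‖((d.c t : ℂ) * (conj (y t) - conj (l t)) * (Real.pi : ℂ)) •
        (ContinuousLinearMap.proj t : (ι → ℂ) →L[ℂ] ℂ)‖
      ≤ ‖(d.c t : ℂ) * (conj (y t) - conj (l t)) * (Real.pi : ℂ)‖ *
        ‖(ContinuousLinearMap.proj t : (ι → ℂ) →L[ℂ] ℂ)‖ := poiEnt_nsl _ _
    _ ≤ ‖(d.c t : ℂ) * (conj (y t) - conj (l t)) * (Real.pi : ℂ)‖ * 1 :=
        mul_le_mul_of_nonneg_left h1 (norm_nonneg _)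
    _ = d.c t * Real.pi * ‖conj (y t) - conj (l t)‖ := by
        rw [mul_one, norm_mul, norm_mul, Complex.norm_real, Complex.norm_real,
          Real.norm_of_nonneg hc.le, Real.norm_of_nonneg hpi.le]
        ring
    _ ≤ d.c t * Real.pi * ((‖y‖ + 1) + ∑ i, ‖l i‖ ^ 2) := by
        refine mul_le_mul_of_nonneg_left ?_ (mul_pos hc hpi).le
        linarith

theorem PD.poiEnt_tm_eq (d : PD ι κ) (y u : ι → ℂ) (l : Lt d.v) :
    d.tm y u l = conj (d.e l) * cexp ((-(Real.pi / 2 * Hh d.c l l) + Real.pi * Hh d.c l y) +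
      d.Lf y l u) := by
  rw [PD.tm, PD.Lf_apply]
  congr 2
  have h : -(Real.pi * Hh d.c u l) + Real.pi * Hh d.c (u + l) y =
      (Real.pi : ℂ) * Hh d.c l y +
        ∑ t, ((d.c t : ℂ) * (conj (y t) - conj ((l : ι → ℂ) t)) * (Real.pi : ℂ)) * u t := by
    simp only [Hh, Finset.mul_sum, ← Finset.sum_neg_distrib, ← Finset.sum_add_distrib]
    refine Finset.sum_congr rfl fun t _ => ?_
    simp only [Pi.add_apply]
    ring
  linear_combination h

theorem PD.poiEnt_tm_deriv (d : PD ι κ) (y u : ι → ℂ) (l : Lt d.v) :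
    HasFDerivAt (fun u => d.tm y u l) (d.tm y u l • d.Lf y l) u := by
  have h1 : HasFDerivAt (fun u : ι → ℂ =>
      (-(Real.pi / 2 * Hh d.c l l) + Real.pi * Hh d.c l y) + d.Lf y l u) (d.Lf y l) u :=
    (d.Lf y l).hasFDerivAt.const_add _
  have h2 := (h1.cexp).const_mul (conj (d.e l))
  have e1 : (fun u => d.tm y u l) = fun u => conj (d.e l) *
      cexp ((-(Real.pi / 2 * Hh d.c l l) + Real.pi * Hh d.c l y) + d.Lf y l u) := by
    funext u
    exact d.poiEnt_tm_eq y u l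
  rw [e1, d.poiEnt_tm_eq y u l, mul_smul]
  exact h2

theorem PD.differentiable_PS (d : PD ι κ) (y : ι → ℂ) : Differentiable ℂ (d.PS y) := by
  intro u0
  set R : ℝ := max ‖y‖ (‖u0‖ + 1) with hR
  obtain ⟨A, a, ha, hA⟩ := d.major R
  set C0 : ℝ := ∑ t, d.c t * Real.pi with hC0
  have hC0n : 0 ≤ C0 := Finset.sum_nonneg fun t _ => (mul_pos (d.hc t) Real.pi_pos).le
  set K : ℝ := ‖y‖ + 1 with hK
  have hKn : 0 ≤ K := by positivity
  have hsum : Summable (fun l : Lt d.v => (|A| * C0 * (K + 2 / a)) *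
      Real.exp (-(a / 2 * ∑ i, ‖(l : ι → ℂ) i‖ ^ 2))) :=
    (d.gauss (half_pos ha)).mul_left _
  have hu0 : u0 ∈ Metric.ball (0 : ι → ℂ) (‖u0‖ + 1) := by
    simp
  have hpc : IsPreconnected (Metric.ball (0 : ι → ℂ) (‖u0‖ + 1)) :=
    (convex_ball (0 : ι → ℂ) (‖u0‖ + 1)).isPreconnected
  have key := hasFDerivAt_tsum_of_isPreconnected (𝕜 := ℂ) (f := fun (l : Lt d.v) u => d.tm y u l)
    (f' := fun (l : Lt d.v) u => d.tm y u l • d.Lf y l) (x₀ := u0) (x := u0)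
    hsum Metric.isOpen_ball hpc
    (fun l u _ => d.poiEnt_tm_deriv y u l) ?_ hu0 (d.summable_tm y u0) hu0
  · exact key.differentiableAt
  · intro l u hu
    have hu' : ‖u‖ ≤ R := by
      have : ‖u‖ < ‖u0‖ + 1 := by simpa using hu
      exact this.le.trans (le_max_right _ _)
    have h1 := hA y u l (le_max_left _ _) hu'
    have h2 := d.Lf_norm y l
    set s : ℝ := ∑ i, ‖(l : ι → ℂ) i‖ ^ 2 with hs
    have hsn : 0 ≤ s := Finset.sum_nonneg fun i _ => sq_nonneg _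
    have h3 : K + s ≤ (K + 2 / a) * Real.exp (a / 2 * s) := by
      have e1 : a / 2 * s + 1 ≤ Real.exp (a / 2 * s) := Real.add_one_le_exp _
      have e2 : 0 ≤ K + 2 / a := by positivity
      have e3 : (K + 2 / a) * (a / 2 * s + 1) = K + s + 2 / a + K * (a / 2) * s := by
        field_simp
        ring
      have e4 : 0 ≤ K * (a / 2) * s := by positivity
      have e5 : 0 ≤ 2 / a := by positivity
      calc K + s ≤ (K + 2 / a) * (a / 2 * s + 1) := by rw [e3]; linarith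
        _ ≤ _ := mul_le_mul_of_nonneg_left e1 e2
    have h4 : Real.exp (-(a * s)) * Real.exp (a / 2 * s) = Real.exp (-(a / 2 * s)) := by
      rw [← Real.exp_add]
      congr 1
      ring
    calc ‖d.tm y u l • d.Lf y l‖ ≤ ‖d.tm y u l‖ * ‖d.Lf y l‖ := poiEnt_nsl _ _
      _ ≤ (|A| * Real.exp (-(a * s))) * (C0 * ((K + 2 / a) * Real.exp (a / 2 * s))) := by
          refine mul_le_mul (h1.trans ?_) (h2.trans ?_) (norm_nonneg _) (by positivity)
          · exact mul_le_mul_of_nonneg_right (le_abs_self A) (Real.exp_pos _).le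
          · exact mul_le_mul_of_nonneg_left h3 hC0n
      _ = (|A| * C0 * (K + 2 / a)) * (Real.exp (-(a * s)) * Real.exp (a / 2 * s)) := by ring
      _ = _ := by rw [h4]

end Pool.Agent.RHU
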