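import Pool.Agent.RHU.PoiSum

/-!
# RHU-PoiNe: some Poincaré series is not zero

PLAN. `exp(-πH(u,u)) PS u u = ∑_l a_l exp(2πi Im H(l,u))` with `a_l = conj e(l) exp(-(π/2)H(l,l))`, `a_0 = 1`
(`-πH(u,l) + πH(u+l,u) = πH(u,u) + π(H(l,u) - H(u,l)) = πH(u,u) + 2πi Im H(l,u)`), `∑|a_l| < ∞`.
Suppose it is `0` for all `u`. Choose `w` with `Im H(l,w) ∉ ℤ` for all `l ≠ 0` (Baire: countably many
real hyperplanes), take `u = j w`, `j < N`, and average: the term `l = 0` gives `a_0`, the averages of the other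
terms tend to `0`; dominated convergence: `a_0 = 0`, contradiction.
-/

set_option autoImplicit false

namespace Pool.Agent.RHU

open Complex ComplexConjugate Finset Filter Topology

variable {ι κ : Type} [Fintype ι] [Fintype κ] [DecidableEq ι] [DecidableEq κ]

omit [DecidableEq ι] in
private lemma poine_self (c : ι → ℝ) (w : ι → ℂ) :
    Hh c w w = ((∑ i, c i * ‖w i‖ ^ 2 : ℝ) : ℂ) := by
  unfold Hh
  push_cast
  refine Finset.sum_congr rfl (fun i _ => ?_)
  rw [Complex.mul_conj, Complex.normSq_eq_norm_sq]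
  push_cast
  ring

omit [DecidableEq ι] in
private lemma poine_lower (c : ι → ℝ) (hc : ∀ i, 0 < c i) :
    ∃ ε : ℝ, 0 < ε ∧ ∀ i, ε ≤ c i := by
  rcases isEmpty_or_nonempty ι with h | h
  · exact ⟨1, one_pos, fun i => (IsEmpty.false i).elim⟩
  · obtain ⟨i0, -, hi0⟩ := Finset.exists_min_image univ c ⟨Classical.arbitrary ι, mem_univ _⟩
    exact ⟨c i0, hc i0, fun i => hi0 i (mem_univ _)⟩

omit [DecidableEq ι] in
private lemma poine_conj (c : ι → ℝ) (u v : ι → ℂ) : Hh c u v = conj (Hh c v u) := by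
  unfold Hh
  rw [map_sum]
  refine Finset.sum_congr rfl (fun i _ => ?_)
  rw [map_mul, map_mul, Complex.conj_conj, Complex.conj_ofReal]
  ring

omit [DecidableEq ι] in
private lemma poine_sub (c : ι → ℝ) (u v : ι → ℂ) :
    Hh c u v - Hh c v u = 2 * I * ((Hh c u v).im : ℝ) := by
  rw [poine_conj c v u]
  apply Complex.ext
  · simp
  · simp
    ring

omit [DecidableEq ι] in
private lemma poine_add (c : ι → ℝ) (u v w : ι → ℂ) : Hh c (u + v) w = Hh c u w + Hh c v w := by
  unfold Hh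
  rw [← Finset.sum_add_distrib]
  refine Finset.sum_congr rfl (fun i _ => ?_)
  rw [Pi.add_apply]
  ring

omit [DecidableEq ι] in
/-- the term at `v = u` -/
private lemma poine_term (c : ι → ℝ) (u l : ι → ℂ) :
    cexp (-(Real.pi * Hh c u l) - Real.pi / 2 * Hh c l l + Real.pi * Hh c (u + l) u) =
    cexp (Real.pi * Hh c u u) * (cexp (-(Real.pi / 2 * Hh c l l)) *
      cexp (2 * Real.pi * I * ((Hh c l u).im : ℝ))) := by
  rw [← Complex.exp_add, ← Complex.exp_add]
  congr 1
  have h := poine_sub c l u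
  rw [poine_add]
  linear_combination (Real.pi : ℂ) * h

/-- the real linear functional -/
private noncomputable def poineF (c : ι → ℝ) (l : ι → ℂ) : (ι → ℂ) →ₗ[ℝ] ℝ where
  toFun w := (Hh c l w).im
  map_add' x y := by
    have h : Hh c l (x + y) = Hh c l x + Hh c l y := by
      unfold Hh
      rw [← Finset.sum_add_distrib]
      refine Finset.sum_congr rfl (fun i _ => ?_)
      rw [Pi.add_apply, map_add]
      ring
    rw [h, Complex.add_im]
  map_smul' r x := by
    have h : Hh c l (r • x) = (r : ℂ) * Hh c l x := by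
      unfold Hh
      rw [Finset.mul_sum]
      refine Finset.sum_congr rfl (fun i _ => ?_)
      rw [Pi.smul_apply, Complex.real_smul, map_mul, Complex.conj_ofReal]
      ring
    rw [h, Complex.im_ofReal_mul]
    rfl

omit [DecidableEq ι] in
/-- the functional is not zero -/
private lemma poineF_ne (c : ι → ℝ) (hc : ∀ i, 0 < c i) (l : ι → ℂ) (hl : l ≠ 0) :
    ∃ w, poineF c l w ≠ 0 := by
  refine ⟨fun i => -I * l i, ?_⟩
  have h1 : Hh c l (fun i => -I * l i) = I * Hh c l l := by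
    unfold Hh
    rw [Finset.mul_sum]
    refine Finset.sum_congr rfl (fun i _ => ?_)
    rw [map_mul, map_neg, Complex.conj_I]
    ring
  have h2 : poineF c l (fun i => -I * l i) = ∑ i, c i * ‖l i‖ ^ 2 := by
    change (Hh c l (fun i => -I * l i)).im = _
    rw [h1, poine_self, Complex.I_mul_im, Complex.ofReal_re]
  rw [h2]
  obtain ⟨j, hj⟩ : ∃ j, l j ≠ 0 := by
    by_contra hcon
    push Not at hcon
    exact hl (funext hcon)
  have h3 : 0 < c j * ‖l j‖ ^ 2 := mul_pos (hc j) (pow_pos (norm_pos_iff.2 hj) 2)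
  have h4 : c j * ‖l j‖ ^ 2 ≤ ∑ i, c i * ‖l i‖ ^ 2 :=
    Finset.single_le_sum (f := fun i => c i * ‖l i‖ ^ 2)
      (fun i _ => mul_nonneg (hc i).le (sq_nonneg _)) (mem_univ j)
  exact (lt_of_lt_of_le h3 h4).ne'

omit [DecidableEq ι] in
/-- a generic vector -/
private lemma poine_gen (c : ι → ℝ) (hc : ∀ i, 0 < c i) (L : Set (ι → ℂ)) [Countable L] :
    ∃ w : ι → ℂ, ∀ l : L, (l : ι → ℂ) ≠ 0 → ∀ n : ℤ, poineF c l w ≠ n := by
  by_contra hcon
  push Not at hcon
  have hun : (⋃ q : {l : L // (l : ι → ℂ) ≠ 0} × ℤ, {w | poineF c (q.1 : L) w = q.2}) =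
      (Set.univ : Set (ι → ℂ)) := by
    rw [Set.eq_univ_iff_forall]
    intro w
    obtain ⟨l, hl, n, hn⟩ := hcon w
    exact Set.mem_iUnion.2 ⟨(⟨l, hl⟩, n), hn⟩
  have hcl : ∀ q : {l : L // (l : ι → ℂ) ≠ 0} × ℤ,
      IsClosed {w : ι → ℂ | poineF c (q.1 : L) w = q.2} := by
    intro q
    exact isClosed_eq (LinearMap.continuous_of_finiteDimensional _) continuous_const
  obtain ⟨⟨⟨l, hl⟩, n⟩, hq⟩ := nonempty_interior_of_iUnion_of_closed hcl hun
  obtain ⟨w0, hw0⟩ := hq
  obtain ⟨x, hx⟩ := poineF_ne c hc l hl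
  have hnh : ∀ᶠ w in 𝓝 w0, poineF c l w = n := mem_interior_iff_mem_nhds.1 hw0
  have hcont : Tendsto (fun t : ℝ => w0 + t • x) (𝓝 0) (𝓝 w0) := by
    have : Continuous (fun t : ℝ => w0 + t • x) := by fun_prop
    have h := this.tendsto 0
    simpa using h
  have hev := hcont.eventually hnh
  have hev0 : poineF c l w0 = n := hnh.self_of_nhds
  have hev2 : ∀ᶠ t : ℝ in 𝓝 0, t = 0 := by
    filter_upwards [hev] with t ht
    rw [map_add, map_smul, hev0] at ht
    have : t * poineF c l x = 0 := by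
      have h := ht
      rw [smul_eq_mul] at h
      linarith
    exact (mul_eq_zero.1 this).resolve_right hx
  obtain ⟨δ, hδ, hball⟩ := Metric.eventually_nhds_iff.1 hev2
  have h0 : δ / 2 = 0 := hball (by
    rw [Real.dist_eq, sub_zero, abs_of_pos (by positivity)]
    linarith)
  linarith

/-- averages of powers -/
private lemma poine_avg (z : ℂ) (hz : ‖z‖ = 1) (h1 : z ≠ 1) :
    Tendsto (fun N : ℕ => (∑ j ∈ range N, z ^ j) / (N : ℂ)) atTop (𝓝 0) := by
  have hz1 : 0 < ‖z - 1‖ := norm_pos_iff.2 (sub_ne_zero.2 h1)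
  have hb : ∀ N : ℕ, ‖(∑ j ∈ range N, z ^ j) / (N : ℂ)‖ ≤ (2 / ‖z - 1‖) / (N : ℝ) := by
    intro N
    rw [norm_div, Complex.norm_natCast]
    apply div_le_div_of_nonneg_right _ (Nat.cast_nonneg _)
    rw [geom_sum_eq h1, norm_div]
    apply div_le_div_of_nonneg_right _ hz1.le
    calc ‖z ^ N - 1‖ ≤ ‖z ^ N‖ + ‖(1 : ℂ)‖ := norm_sub_le _ _
      _ = 2 := by rw [norm_pow, hz, one_pow, norm_one]; norm_num
  exact squeeze_zero_norm hb (tendsto_const_div_atTop_nhds_zero_nat _)

theorem PD.exists_PS_ne (d : PD ι κ) : ∃ y u : ι → ℂ, d.PS y u ≠ 0 := by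
  by_contra hcon
  push Not at hcon
  have he1 : ∀ l, ‖d.e l‖ = 1 := fun l => d.nχ _
  have : Countable (Lt d.v) := (Set.countable_range _).to_subtype
  obtain ⟨w, hw⟩ := poine_gen d.c d.hc (Lt d.v)
  obtain ⟨ε, hε, hlow⟩ := poine_lower d.c d.hc
  -- the origin
  have hmem0 : (0 : ι → ℂ) ∈ Lt d.v := ⟨0, by funext i; simp [vec]⟩
  set o : Lt d.v := ⟨0, hmem0⟩ with ho
  -- the coefficients
  set a : Lt d.v → ℂ := fun l => conj (d.e l) * cexp (-(Real.pi / 2 * Hh d.c l l)) with ha
  set z : Lt d.v → ℂ := fun l => cexp (2 * Real.pi * I * ((Hh d.c l w).im : ℝ)) with hzdef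
  have hz1 : ∀ l, ‖z l‖ = 1 := by
    intro l
    simp only [hzdef]
    have : 2 * (Real.pi : ℂ) * I * ((Hh d.c l w).im : ℝ) =
        ((2 * Real.pi * (Hh d.c l w).im : ℝ) : ℂ) * I := by
      push_cast; ring
    rw [this, Complex.norm_exp_ofReal_mul_I]
  have hsum : Summable fun l : Lt d.v =>
      Real.exp (-((Real.pi / 2 * ε) * ∑ i, ‖(l : ι → ℂ) i‖ ^ 2)) :=
    d.gauss (by positivity)
  have hab : ∀ l : Lt d.v, ‖a l‖ ≤
      Real.exp (-((Real.pi / 2 * ε) * ∑ i, ‖(l : ι → ℂ) i‖ ^ 2)) := by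
    intro l
    simp only [ha]
    rw [norm_mul, RCLike.norm_conj, he1 l, one_mul, Complex.norm_exp, Real.exp_le_exp]
    have h1 : ((-(Real.pi / 2 * Hh d.c l l) : ℂ)).re =
        -(Real.pi / 2 * ∑ i, d.c i * ‖(l : ι → ℂ) i‖ ^ 2) := by
      rw [poine_self]
      have : (-((Real.pi : ℂ) / 2 * ((∑ i, d.c i * ‖(l : ι → ℂ) i‖ ^ 2 : ℝ) : ℂ))) =
        ((-(Real.pi / 2 * ∑ i, d.c i * ‖(l : ι → ℂ) i‖ ^ 2) : ℝ) : ℂ) := by push_cast; ring
      rw [this, Complex.ofReal_re]
    rw [h1]
    have h2 : ε * ∑ i, ‖(l : ι → ℂ) i‖ ^ 2 ≤ ∑ i, d.c i * ‖(l : ι → ℂ) i‖ ^ 2 := by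
      rw [Finset.mul_sum]
      exact Finset.sum_le_sum (fun i _ => mul_le_mul_of_nonneg_right (hlow i) (sq_nonneg _))
    have h3 : Real.pi / 2 * (ε * ∑ i, ‖(l : ι → ℂ) i‖ ^ 2) ≤
        Real.pi / 2 * ∑ i, d.c i * ‖(l : ι → ℂ) i‖ ^ 2 :=
      mul_le_mul_of_nonneg_left h2 (by positivity)
    linarith [h3]
  -- the vanishing sums
  have hzero : ∀ j : ℕ, ∑' l : Lt d.v, a l * z l ^ j = 0 := by
    intro j
    have h1 := hcon ((j : ℂ) • w) ((j : ℂ) • w)
    unfold PD.PS at h1
    have h2 : ∀ l : Lt d.v, d.tm ((j : ℂ) • w) ((j : ℂ) • w) l =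
        cexp (Real.pi * Hh d.c ((j : ℂ) • w) ((j : ℂ) • w)) * (a l * z l ^ j) := by
      intro l
      unfold PD.tm
      rw [poine_term]
      have h3 : Hh d.c l ((j : ℂ) • w) = (j : ℂ) * Hh d.c l w := by
        unfold Hh
        rw [Finset.mul_sum]
        refine Finset.sum_congr rfl (fun i _ => ?_)
        rw [Pi.smul_apply, smul_eq_mul, map_mul, Complex.conj_natCast]
        ring
      have h4 : cexp (2 * Real.pi * I * ((Hh d.c l ((j : ℂ) • w)).im : ℝ)) = z l ^ j := by
        simp only [hzdef]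
        rw [← Complex.exp_nat_mul, h3]
        congr 1
        have h5 : ((j : ℂ) * Hh d.c l w).im = (j : ℝ) * (Hh d.c l w).im := by
          rw [← Complex.ofReal_natCast, Complex.im_ofReal_mul]
        rw [h5]
        push_cast
        ring
      rw [h4]
      simp only [ha]
      ring
    rw [tsum_congr h2, tsum_mul_left] at h1
    exact (mul_eq_zero.1 h1).resolve_left (Complex.exp_ne_zero _)
  have hsj : ∀ j : ℕ, Summable fun l : Lt d.v => a l * z l ^ j := by
    intro j
    refine Summable.of_norm_bounded hsum (fun l => ?_)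
    rw [norm_mul, norm_pow, hz1, one_pow, mul_one]
    exact hab l
  -- averages
  have havg : ∀ N : ℕ, ∑' l : Lt d.v, a l * ((∑ j ∈ range N, z l ^ j) / (N : ℂ)) = 0 := by
    intro N
    have h1 : ∀ l : Lt d.v, a l * ((∑ j ∈ range N, z l ^ j) / (N : ℂ)) =
        (∑ j ∈ range N, a l * z l ^ j) * (N : ℂ)⁻¹ := by
      intro l
      rw [← Finset.mul_sum, div_eq_mul_inv]
      exact (mul_assoc _ _ _).symm
    rw [tsum_congr h1, tsum_mul_right, Summable.tsum_finsetSum (fun j _ => hsj j)]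
    simp [hzero]
  classical
  have htan := tendsto_tsum_of_dominated_convergence (𝓕 := atTop)
    (f := fun (N : ℕ) (l : Lt d.v) => a l * ((∑ j ∈ range N, z l ^ j) / (N : ℂ)))
    (g := fun l : Lt d.v => if l = o then a o else 0) hsum
    (by
      intro l
      by_cases hl : l = o
      · subst hl
        rw [if_pos rfl]
        have hz0 : z o = 1 := by
          simp only [hzdef]
          have : Hh d.c (o : ι → ℂ) w = 0 := by
            unfold Hh
            simp [ho]
          rw [this]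
          simp
        apply tendsto_const_nhds.congr'
        filter_upwards [eventually_ge_atTop 1] with N hN
        have hN0 : (N : ℂ) ≠ 0 := by
          exact_mod_cast (by omega : N ≠ 0)
        simp only [hz0, one_pow, Finset.sum_const, Finset.card_range, nsmul_eq_mul, mul_one]
        rw [div_self hN0, mul_one]
      · rw [if_neg hl]
        have hne : z l ≠ 1 := by
          intro h1
          simp only [hzdef] at h1
          obtain ⟨m, hm⟩ := Complex.exp_eq_one_iff.1 h1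
          have hl0 : (l : ι → ℂ) ≠ 0 := fun h => hl (Subtype.ext h)
          apply hw l hl0 m
          change (Hh d.c l w).im = m
          have h2 : (((Hh d.c l w).im : ℝ) : ℂ) = (m : ℂ) := by
            have h3 : 2 * (Real.pi : ℂ) * I ≠ 0 := Complex.two_pi_I_ne_zero
            apply mul_left_cancel₀ h3
            rw [hm]
            ring
          exact_mod_cast h2
        have := (poine_avg (z l) (hz1 l) hne).const_mul (a l)
        simpa using this)
    (by
      refine Eventually.of_forall (fun N l => ?_)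
      rw [norm_mul]
      refine (mul_le_of_le_one_right (norm_nonneg _) ?_).trans (hab l)
      rw [norm_div, Complex.norm_natCast]
      apply div_le_one_of_le₀ _ (Nat.cast_nonneg _)
      calc ‖∑ j ∈ range N, z l ^ j‖ ≤ ∑ j ∈ range N, ‖z l ^ j‖ := norm_sum_le _ _
        _ = N := by
          rw [Finset.sum_congr rfl (fun j _ => by rw [norm_pow, hz1, one_pow])]
          simp)
  simp only [havg] at htan
  have h0 := tendsto_nhds_unique htan tendsto_const_nhds
  rw [tsum_ite_eq] at h0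
  have ha0 : a o = conj (d.e o) := by
    simp only [ha]
    have : Hh d.c (o : ι → ℂ) (o : ι → ℂ) = 0 := by
      unfold Hh
      simp [ho]
    rw [this]
    simp
  have h9 := he1 o
  rw [← RCLike.norm_conj, ← ha0, h0, norm_zero] at h9
  exact zero_ne_one h9

end Pool.Agent.RHU
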