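import Pool.Agent.RHU.PoiSum

/-!
# RHU-PoiQp: quasi-periodicity of the Poincaré series

PLAN. `m = vec p`. The substitution `l' = l + m` is a bijection of the lattice (`Equiv` built from
`vec (p+q) = vec p + vec q`). `e(l' - m) = e(l') e(-m) exp(πi Im H(l',-m))`, `e(-m) = conj e(m)` (from `hχ p (-p)`:
`1 = χ p χ(-p) exp(-πi Im H(m,m))`, `H(m,m)` real). The exponent of the term `l = l' - m` at `u + m`:
`-πH(u+m,l'-m) - (π/2)H(l'-m,l'-m) + πH(u+l',y)`
`= [-πH(u,l') - (π/2)H(l',l') + πH(u+l',y)] + πH(u,m) + (π/2)H(m,m) + (π/2)(H(l',m) - H(m,l'))`,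
`H(l',m) - H(m,l') = 2i Im H(l',m)`, and the two signs `exp(πi Im H(l',m))` cancel because `Im H` is an integer.
-/

set_option autoImplicit false

namespace Pool.Agent.RHU

open Complex ComplexConjugate Finset

variable {ι κ : Type} [Fintype ι] [Fintype κ] [DecidableEq ι] [DecidableEq κ]


omit [Fintype ι] [DecidableEq ι] [DecidableEq κ] in
private theorem qp_vec_add (v : κ → ι → ℂ) (p q : κ → ℤ) :
    vec v (p + q) = vec v p + vec v q := by
  funext i
  simp only [vec, Pi.add_apply, Int.cast_add, add_mul, Finset.sum_add_distrib]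

omit [Fintype ι] [DecidableEq ι] [DecidableEq κ] in
private theorem qp_vec_sub (v : κ → ι → ℂ) (p q : κ → ℤ) :
    vec v (p - q) = vec v p - vec v q := by
  funext i
  simp only [vec, Pi.sub_apply, Int.cast_sub, sub_mul, Finset.sum_sub_distrib]

omit [DecidableEq ι] in
private theorem qp_addl (c : ι → ℝ) (a b w : ι → ℂ) : Hh c (a + b) w = Hh c a w + Hh c b w := by
  unfold Hh
  rw [← Finset.sum_add_distrib]
  refine Finset.sum_congr rfl fun t _ => ?_
  rw [Pi.add_apply]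
  ring

omit [DecidableEq ι] in
private theorem qp_subl (c : ι → ℝ) (a b w : ι → ℂ) : Hh c (a - b) w = Hh c a w - Hh c b w := by
  unfold Hh
  rw [← Finset.sum_sub_distrib]
  refine Finset.sum_congr rfl fun t _ => ?_
  rw [Pi.sub_apply]
  ring

omit [DecidableEq ι] in
private theorem qp_subr (c : ι → ℝ) (a b w : ι → ℂ) : Hh c w (a - b) = Hh c w a - Hh c w b := by
  unfold Hh
  rw [← Finset.sum_sub_distrib]
  refine Finset.sum_congr rfl fun t _ => ?_
  rw [Pi.sub_apply, map_sub]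
  ring

omit [DecidableEq ι] in
private theorem qp_conj (c : ι → ℝ) (a b : ι → ℂ) : Hh c a b = conj (Hh c b a) := by
  unfold Hh
  rw [map_sum]
  refine Finset.sum_congr rfl fun t _ => ?_
  rw [map_mul, map_mul, Complex.conj_conj, Complex.conj_ofReal]
  ring

/-- the translation of the lattice -/
private def qpE (v : κ → ι → ℂ) (p : κ → ℤ) : Lt v ≃ Lt v where
  toFun l := ⟨l.1 - vec v p, by
    obtain ⟨q, hq⟩ := l.2
    exact ⟨q - p, by rw [qp_vec_sub, hq]⟩⟩
  invFun l := ⟨l.1 + vec v p, by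
    obtain ⟨q, hq⟩ := l.2
    exact ⟨q + p, by rw [qp_vec_add, hq]⟩⟩
  left_inv l := Subtype.ext (sub_add_cancel _ _)
  right_inv l := Subtype.ext (add_sub_cancel_right _ _)

private theorem qp_term (d : PD ι κ) (y u : ι → ℂ) (p : κ → ℤ) (l : Lt d.v) :
    d.tm y (u + vec d.v p) (qpE d.v p l) = d.χ p *
      cexp (Real.pi * Hh d.c u (vec d.v p) + Real.pi / 2 * Hh d.c (vec d.v p) (vec d.v p)) *
        d.tm y u l := by
  obtain ⟨q, hq⟩ := l.2
  have e1 : d.e l = d.χ q := d.e_eq l q hq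
  have e2 : d.e (qpE d.v p l) = d.χ (q - p) := by
    refine d.e_eq _ _ ?_
    rw [qp_vec_sub, hq]
    rfl
  have e3 := d.hχ (q - p) p
  rw [sub_add_cancel, qp_vec_sub, hq, qp_subl] at e3
  obtain ⟨n, hn⟩ := d.hE q p
  rw [hq] at hn
  have h4 : (Hh d.c (vec d.v p) (vec d.v p)).im = 0 := by
    have := congrArg Complex.im (qp_conj d.c (vec d.v p) (vec d.v p))
    rw [Complex.conj_im] at this
    linarith
  rw [Complex.sub_im, hn, h4, sub_zero] at e3
  obtain ⟨ε, hε⟩ : ∃ ε : ℂ, ε = cexp (Real.pi * I * ((n : ℝ) : ℂ)) := ⟨_, rfl⟩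
  rw [← hε] at e3
  have hεε : ε * ε = 1 := by
    rw [hε, ← Complex.exp_add]
    have : (Real.pi : ℂ) * I * ((n : ℝ) : ℂ) + Real.pi * I * ((n : ℝ) : ℂ) =
        (n : ℂ) * (2 * Real.pi * I) := by
      push_cast
      ring
    rw [this, Complex.exp_int_mul_two_pi_mul_I]
  have hεc : conj ε = ε := by
    have h1 : conj ε * ε = 1 := by
      rw [hε, ← Complex.exp_conj, ← Complex.exp_add, map_mul, map_mul, Complex.conj_I,
        Complex.conj_ofReal, Complex.conj_ofReal]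
      have : (Real.pi : ℂ) * -I * ((n : ℝ) : ℂ) + Real.pi * I * ((n : ℝ) : ℂ) = 0 := by ring
      rw [this, Complex.exp_zero]
    have h2 : conj ε * (ε * ε) = ε := by
      rw [← mul_assoc, h1, one_mul]
    rwa [hεε, mul_one] at h2
  have hB : d.χ p * conj (d.χ p) = 1 := by
    rw [Complex.mul_conj, Complex.normSq_eq_norm_sq, d.nχ p, one_pow, Complex.ofReal_one]
  have hA : conj (d.χ (q - p)) = d.χ p * conj (d.χ q) * ε := by
    rw [e3, map_mul, map_mul, hεc]
    calc conj (d.χ (q - p)) = conj (d.χ (q - p)) * 1 * 1 := by ring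
      _ = conj (d.χ (q - p)) * (d.χ p * conj (d.χ p)) * (ε * ε) := by rw [hB, hεε]
      _ = _ := by ring
  unfold PD.tm
  rw [e1, e2, hA]
  have e4 : ((qpE d.v p l : Lt d.v) : ι → ℂ) = (l : ι → ℂ) - vec d.v p := rfl
  have e5 : u + vec d.v p + ((l : ι → ℂ) - vec d.v p) = u + l := by abel
  rw [e4, e5, qp_subr, qp_subr, qp_subl, qp_subl, qp_addl, qp_addl]
  have e6 : Hh d.c l (vec d.v p) - Hh d.c (vec d.v p) l = 2 * I * ((n : ℝ) : ℂ) := by
    rw [qp_conj d.c (vec d.v p) l, ← hn]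
    apply Complex.ext
    · simp
    · simp
      ring
  have e7 : -(Real.pi * (Hh d.c u l + Hh d.c (vec d.v p) l -
      (Hh d.c u (vec d.v p) + Hh d.c (vec d.v p) (vec d.v p)))) -
      Real.pi / 2 * (Hh d.c l l - Hh d.c (vec d.v p) l -
        (Hh d.c l (vec d.v p) - Hh d.c (vec d.v p) (vec d.v p))) + Real.pi * Hh d.c (u + l) y =
      (Real.pi * Hh d.c u (vec d.v p) + Real.pi / 2 * Hh d.c (vec d.v p) (vec d.v p)) +
      (-(Real.pi * Hh d.c u l) - Real.pi / 2 * Hh d.c l l + Real.pi * Hh d.c (u + l) y) +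
      Real.pi * I * ((n : ℝ) : ℂ) := by
    linear_combination (Real.pi / 2 : ℂ) * e6
  rw [e7, Complex.exp_add, Complex.exp_add _ (-(Real.pi * Hh d.c u l) - Real.pi / 2 * Hh d.c l l +
    Real.pi * Hh d.c (u + l) y), ← hε]
  linear_combination (d.χ p * conj (d.χ q) *
    cexp (Real.pi * Hh d.c u (vec d.v p) + Real.pi / 2 * Hh d.c (vec d.v p) (vec d.v p)) *
    cexp (-(Real.pi * Hh d.c u l) - Real.pi / 2 * Hh d.c l l + Real.pi * Hh d.c (u + l) y)) * hεε

theorem PD.PS_add (d : PD ι κ) (y u : ι → ℂ) (p : κ → ℤ) :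
    d.PS y (u + vec d.v p) = d.χ p *
      cexp (Real.pi * Hh d.c u (vec d.v p) + Real.pi / 2 * Hh d.c (vec d.v p) (vec d.v p)) *
        d.PS y u := by
  unfold PD.PS
  rw [← tsum_mul_left, ← (qpE d.v p).tsum_eq]
  exact tsum_congr fun l => qp_term d y u p l

end Pool.Agent.RHU
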