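import Pool.Agent.RHU.Ker
import Pool.Agent.RHU.Chi
import Pool.Agent.RHU.Nondeg
import Pool.Agent.RHU.PoiEnt
import Pool.Agent.RHU.PoiQp
import Pool.Agent.RHU.PoiNe

/-!
# RHU-TEx: the theta function of the curve

It is a Poincaré series for the data `c = cv D b`, `v j = lav D b j.val`, `χ = chi D b`, `j ∈ ZMod D`.
-/

set_option autoImplicit false

namespace Pool.Agent.RHU

open Complex ComplexConjugate Finset

private theorem om_pow_D {D : ℕ} (hD : D ≠ 0) : om D ^ D = 1 := by
  have h0 : (D : ℂ) ≠ 0 := by exact_mod_cast hD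
  unfold om
  rw [← Complex.exp_nat_mul, mul_neg, mul_div_cancel₀ _ h0, Complex.exp_neg, Complex.exp_two_pi_mul_I,
    inv_one]

private theorem lav_mod {D b : ℕ} (hD : D ≠ 0) (j : ℕ) : lav D b (j % D) = lav D b j := by
  funext t
  have h1 : om D ^ ((t : ℕ) * (j % D)) = om D ^ ((t : ℕ) * j) := by
    have h2 : (t : ℕ) * j = (t : ℕ) * (j % D) + D * ((t : ℕ) * (j / D)) := by
      conv_lhs => rw [← Nat.mod_add_div j D]
      ring
    rw [h2, pow_add, pow_mul (om D) D, om_pow_D hD, one_pow, mul_one]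
  simp only [lav, la, h1]

private theorem Hh_vec {ι κ : Type} [Fintype ι] [Fintype κ] (c : ι → ℝ) (v : κ → ι → ℂ)
    (p q : κ → ℤ) : Hh c (vec v p) (vec v q) =
      ∑ i, ∑ j, (p i : ℂ) * (q j : ℂ) * Hh c (v i) (v j) := by
  have h1 : ∀ t, (vec v p) t * conj ((vec v q) t) =
      ∑ i, ∑ j, (p i : ℂ) * (q j : ℂ) * (v i t * conj (v j t)) := by
    intro t
    simp only [vec, map_sum, map_mul, map_intCast]
    rw [Finset.sum_mul_sum]
    refine Finset.sum_congr rfl fun i _ => Finset.sum_congr rfl fun j _ => ?_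
    ring
  unfold Hh
  simp only [h1, Finset.mul_sum]
  rw [Finset.sum_comm]
  refine Finset.sum_congr rfl fun i _ => ?_
  rw [Finset.sum_comm]
  refine Finset.sum_congr rfl fun j _ => Finset.sum_congr rfl fun t _ => ?_
  ring

private theorem im_vec {D b : ℕ} [NeZero D] (hD : 3 ≤ D) (hb : 0 < b) (hb2 : b + 1 < D)
    (p q : ZMod D → ℤ) :
    (Hh (cv D b) (vec (fun j : ZMod D => lav D b j.val) p)
      (vec (fun j : ZMod D => lav D b j.val) q)).im =
      ((∑ i : ZMod D, ∑ j : ZMod D, (Nr D b (i - j) - Nr D b (j - i)) * (p i * q j) : ℤ) : ℝ) := by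
  rw [Hh_vec, Complex.im_sum, Int.cast_sum]
  refine Finset.sum_congr rfl fun i _ => ?_
  rw [Complex.im_sum, Int.cast_sum]
  refine Finset.sum_congr rfl fun j _ => ?_
  have h1 := im_Hh_lav (b := b) hD hb hb2 i.val j.val
  rw [ZMod.natCast_zmod_val, ZMod.natCast_zmod_val] at h1
  have h2 : ((p i : ℂ) * (q j : ℂ)) = (((p i * q j : ℤ) : ℝ) : ℂ) := by push_cast; ring
  rw [h2, Complex.im_ofReal_mul, h1]
  push_cast
  ring

theorem exists_T {D b : ℕ} (hD : 3 ≤ D) (hb : 0 < b) (hb2 : b + 1 < D) :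
    ∃ T : (↥(Ph D b) → ℂ) → ℂ, IsT D b T := by
  have : NeZero D := ⟨by omega⟩
  have hD0 : D ≠ 0 := by omega
  let d : PD ↥(Ph D b) (ZMod D) :=
    { c := cv D b
      hc := fun t => ct_pos t.2
      v := fun j => lav D b j.val
      χ := chi D b
      nχ := fun p => norm_chi p
      hχ := by
        intro p q
        rw [chi_add, im_vec hD hb hb2]
        congr 1
        rw [Complex.ofReal_intCast, mul_comm, Complex.exp_int_mul, Complex.exp_pi_mul_I]
      hE := fun p q => ⟨_, im_vec hD hb hb2 p q⟩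
      hk := by
        intro p hp
        obtain ⟨u, v, huv⟩ := ker_la hD hb hb2 p fun t ht => congrFun hp ⟨t, ht⟩
        exact chi_ker hD hb hb2 p u v huv
      nd := by
        intro u hu
        refine nondeg hD hb hb2 u fun j => ?_
        have h1 := hu (j : ZMod D)
        rw [ZMod.val_natCast, lav_mod hD0] at h1
        exact h1 }
  obtain ⟨y, u0, hu0⟩ := d.exists_PS_ne
  refine ⟨d.PS y, d.differentiable_PS y, ⟨u0, hu0⟩, ?_⟩
  intro j u
  have hvec : vec d.v (Pi.single (j : ZMod D) 1) = lav D b j := by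
    have h1 : d.v (j : ZMod D) = lav D b j := by
      show lav D b ((j : ZMod D)).val = lav D b j
      rw [ZMod.val_natCast, lav_mod hD0]
    rw [← h1]
    funext i
    unfold vec
    rw [Finset.sum_eq_single (j : ZMod D)]
    · rw [Pi.single_eq_same, Int.cast_one, one_mul]
    · intro k _ hk
      rw [Pi.single_eq_of_ne hk, Int.cast_zero, zero_mul]
    · intro h; exact absurd (Finset.mem_univ _) h
  have h2 := d.PS_add y u (Pi.single (j : ZMod D) 1)
  rw [hvec] at h2
  have h3 : d.χ (Pi.single (j : ZMod D) 1) = chi0 D b := chi_single hD hb hb2 _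
  rw [h3] at h2
  exact h2

end Pool.Agent.RHU
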