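import Pool.Agent.RHU.GoodA
import Pool.Agent.RHU.GoodB
import Pool.Agent.RHU.KOpen
import Pool.Agent.RHU.TEx
import Pool.Agent.RHT.NFi

/-!
# RHU-GoodC: a good configuration with algebraic coordinates exists

PLAN. `T` from `exists_T`, `e₁`, `e₂` from `exists_emb`. `z0 = (1/2) exp(iπ/(2D))`, `z0^D = 2^(-D) i`; a ball
`B = ball z0 ε` on which `im (z^D) ≠ 0`; `S = {w : ∀ k, w k ∈ B}` (open, convex). Functions on `S`, all
differentiable: `∏_{k ≠ l} (w k ^ D - w l ^ D)`, `T (Sc w)`, `Del w`, `det (Fm e₁ w)`, `det (Fm e₂ w)`. None vanishes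
identically: the first: choose points of `B` with different `D`-th powers (`z ↦ z^D` has finite fibres, `B` is
infinite); `Del`, `Fm`: `exists_Del_ne`, `exists_Fm_ne`. `T (Sc w)`: suppose it vanishes on `S`; take `w¹ ∈ S` with
`det (Fm e₁ w¹) ≠ 0`; the map `Ψ(x) = Sc (w¹ with the points e₁ a replaced by x a)` has the partial derivatives
`F_t(x_a)` (`hasDerivAt_Sc`-like), so `Pool.Agent.RHT.exists_locInv` gives a right inverse `Θ` near `Ψ(x¹)`, continuous,
so `T = 0` near `Ψ(x¹)`, and `T = 0` everywhere (`id_thm`), contradiction. Then `exists_common`, `exists_alg`.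
-/

set_option autoImplicit false

namespace Pool.Agent.RHU

open Complex Finset Filter Topology

private theorem goodC_z0 {D : ℕ} (hD : 0 < D) : ∃ z : ℂ, (z ^ D).im ≠ 0 := by
  have hD' : (D : ℂ) ≠ 0 := Nat.cast_ne_zero.2 hD.ne'
  refine ⟨cexp (Real.pi / 2 / D * I), ?_⟩
  have h1 : (D : ℂ) * (Real.pi / 2 / D * I) = Real.pi / 2 * I := by
    field_simp
  rw [← Complex.exp_nat_mul, h1, Complex.exp_mul_I, Complex.cos_pi_div_two, Complex.sin_pi_div_two]
  simp

private theorem goodC_ball {D : ℕ} (hD : 0 < D) : ∃ (z0 : ℂ) (ε : ℝ), 0 < ε ∧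
    ∀ z ∈ Metric.ball z0 ε, (z ^ D).im ≠ 0 := by
  obtain ⟨z0, hz0⟩ := goodC_z0 hD
  have ho : IsOpen {z : ℂ | (z ^ D).im ≠ 0} := by
    have hc : Continuous fun z : ℂ => (z ^ D).im := by fun_prop
    exact isOpen_ne.preimage hc
  obtain ⟨ε, hε, h⟩ := Metric.isOpen_iff.1 ho z0 hz0
  exact ⟨z0, ε, hε, fun z hz => h hz⟩

private theorem goodC_ne0 {D : ℕ} (hD : 0 < D) {z : ℂ} (h : (z ^ D).im ≠ 0) : z ≠ 0 := by
  rintro rfl
  rw [zero_pow hD.ne'] at h
  exact h rfl

private theorem goodC_prod {X κ : Type} [NormedAddCommGroup X] [NormedSpace ℂ X] {S : Set X}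
    (s : Finset κ) (f : κ → X → ℂ) (h : ∀ i ∈ s, DifferentiableOn ℂ (f i) S) :
    DifferentiableOn ℂ (fun x => ∏ i ∈ s, f i x) S := by
  classical
  induction s using Finset.induction_on with
  | empty =>
    simp only [Finset.prod_empty]
    exact differentiableOn_const _
  | insert a s ha ih =>
    simp only [Finset.prod_insert ha]
    exact (h a (Finset.mem_insert_self a s)).fun_mul
      (ih fun i hi => h i (Finset.mem_insert_of_mem hi))

private theorem goodC_det {X : Type} [NormedAddCommGroup X] [NormedSpace ℂ X] {S : Set X}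
    {M : Type} [Fintype M] [DecidableEq M] (A : X → Matrix M M ℂ)
    (h : ∀ i j, DifferentiableOn ℂ (fun x => A x i j) S) :
    DifferentiableOn ℂ (fun x => (A x).det) S := by
  simp only [Matrix.det_apply']
  refine DifferentiableOn.fun_sum fun σ _ => ?_
  exact (goodC_prod _ (fun i x => A x (σ i) i) fun i _ => h _ _).const_mul _

/-- points with different powers -/
private theorem goodC_pow {D b : ℕ} (hD : 0 < D) {z0 : ℂ} {ε : ℝ} (hε : 0 < ε) (hz0 : z0 ≠ 0) :
    ∃ w : Pt D b → ℂ, (∀ k, w k ∈ Metric.ball z0 ε) ∧ ∀ k l, k ≠ l → w k ^ D ≠ w l ^ D := by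
  have hn : 0 < ‖z0‖ := norm_pos_iff.2 hz0
  set δ : ℝ := ε / ((KK D b + 1) * (‖z0‖ + 1)) with hδ
  have hden : (0 : ℝ) < (KK D b + 1) * (‖z0‖ + 1) := by positivity
  have hδ0 : 0 < δ := div_pos hε hden
  refine ⟨fun k => ((1 + δ * ((k : ℕ) : ℝ) : ℝ) : ℂ) * z0, fun k => ?_, fun k l hkl h => ?_⟩
  · rw [Metric.mem_ball, dist_eq_norm]
    have h1 : ((1 + δ * ((k : ℕ) : ℝ) : ℝ) : ℂ) * z0 - z0 = ((δ * ((k : ℕ) : ℝ) : ℝ) : ℂ) * z0 := by
      push_cast
      ring
    rw [h1, norm_mul, Complex.norm_real, Real.norm_of_nonneg (by positivity)]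
    have hk : ((k : ℕ) : ℝ) ≤ KK D b := by
      have h2 := (Finset.mem_filter.1 k.2).1
      rw [Finset.mem_range] at h2
      exact_mod_cast Nat.lt_succ_iff.1 h2
    calc δ * ((k : ℕ) : ℝ) * ‖z0‖ ≤ δ * (KK D b : ℝ) * ‖z0‖ := by gcongr
      _ < δ * ((KK D b + 1) * (‖z0‖ + 1)) := by
          have h3 : (0 : ℝ) ≤ KK D b := Nat.cast_nonneg _
          nlinarith
      _ = ε := div_mul_cancel₀ _ hden.ne'
  · have h1 := congrArg norm h
    simp only [norm_pow, norm_mul, Complex.norm_real] at h1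
    have hp : ∀ k : Pt D b, 0 ≤ ‖(1 + δ * ((k : ℕ) : ℝ) : ℝ)‖ * ‖z0‖ := fun k => by positivity
    have h2 := (pow_left_inj₀ (hp k) (hp l) hD.ne').1 h1
    have h3 := mul_right_cancel₀ hn.ne' h2
    rw [Real.norm_of_nonneg (by positivity), Real.norm_of_nonneg (by positivity)] at h3
    have h4 : ((k : ℕ) : ℝ) = ((l : ℕ) : ℝ) := by
      have h5 : δ * ((k : ℕ) : ℝ) = δ * ((l : ℕ) : ℝ) := by linarith
      exact mul_left_cancel₀ hδ0.ne' h5
    exact hkl (Subtype.ext (by exact_mod_cast h4))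

private theorem goodC_T {D b : ℕ} (hD : 0 < D) {T : (↥(Ph D b) → ℂ) → ℂ} (hT : Differentiable ℂ T)
    (hT0 : ∃ u, T u ≠ 0) {B : Set ℂ} (hB : IsOpen B) (hB0 : B.Nonempty) (hBO : B ⊆ Om D)
    {e : ↥(Ph D b) → Pt D b} (he : Function.Injective e) :
    ∃ w : Pt D b → ℂ, (∀ k, w k ∈ B) ∧ T (Sc D b w) ≠ 0 := by
  classical
  by_contra hcon
  push Not at hcon
  obtain ⟨w1, hw1, hdet⟩ := exists_Fm_ne hD hB hB0 hBO he
  set x0 : ↥(Ph D b) → ℂ := fun a => w1 (e a) with hx0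
  set W : (↥(Ph D b) → ℂ) → Pt D b → ℂ := fun x k =>
    if h : ∃ a, e a = k then x h.choose else w1 k with hW
  have hWe : ∀ x a, W x (e a) = x a := by
    intro x a
    have h : ∃ a', e a' = e a := ⟨a, rfl⟩
    have h1 : W x (e a) = x h.choose := dif_pos h
    rw [h1]
    exact congrArg x (he h.choose_spec)
  have hWn : ∀ x k, (¬ ∃ a, e a = k) → W x k = w1 k := fun x k h => dif_neg h
  have hWB : ∀ x : ↥(Ph D b) → ℂ, (∀ a, x a ∈ B) → ∀ k, W x k ∈ B := by
    intro x hx k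
    by_cases h : ∃ a, e a = k
    · obtain ⟨a, rfl⟩ := h
      rw [hWe]
      exact hx a
    · rw [hWn x k h]
      exact hw1 k
  set c : ↥(Ph D b) → ℂ := fun t => ∑ k ∈ univ.filter (fun k => ¬ ∃ a, e a = k), Cc D b t (w1 k)
    with hc
  have hsum : ∀ x t, Sc D b (W x) t = (∑ a, Cc D b t (x a)) + c t := by
    intro x t
    show ∑ k, Cc D b t (W x k) = _
    rw [← Finset.sum_filter_add_sum_filter_not univ (fun k => ∃ a, e a = k)]
    congr 1
    · have h1 : univ.filter (fun k => ∃ a, e a = k) = univ.image e := by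
        ext k
        simp
      rw [h1, Finset.sum_image (fun a _ a' _ h => he h)]
      exact Finset.sum_congr rfl fun a _ => by rw [hWe]
    · refine Finset.sum_congr rfl fun k hk => ?_
      rw [hWn x k (Finset.mem_filter.1 hk).2]
  have hder : ∀ x : ↥(Ph D b) → ℂ, (∀ a, x a ∈ B) → ∀ t, HasFDerivAt
      (fun x => Sc D b (W x) t) (∑ a, Ft D b t (x a) •
        (ContinuousLinearMap.proj a : (↥(Ph D b) → ℂ) →L[ℂ] ℂ)) x := by
    intro x hx t
    have h1 : (fun x => Sc D b (W x) t) = fun x => (∑ a, Cc D b t (x a)) + c t :=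
      funext fun x => hsum x t
    rw [h1]
    refine HasFDerivAt.add_const (c t) ?_
    refine HasFDerivAt.fun_sum fun a _ => ?_
    have h2 := hasDerivAt_Cc (D := D) (b := b) (t := t) hD (hBO (hx a))
    exact h2.comp_hasFDerivAt x (ContinuousLinearMap.hasFDerivAt
      (ContinuousLinearMap.proj a : (↥(Ph D b) → ℂ) →L[ℂ] ℂ))
  have hx0B : ∀ a, x0 a ∈ B := fun a => hw1 (e a)
  have hopen : IsOpen {x : ↥(Ph D b) → ℂ | ∀ a, x a ∈ B} := by
    have h1 : {x : ↥(Ph D b) → ℂ | ∀ a, x a ∈ B} = Set.pi Set.univ fun _ => B := by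
      ext x
      simp [Set.mem_pi]
    rw [h1]
    exact isOpen_set_pi Set.finite_univ fun _ _ => hB
  have hdiff : ∀ᶠ x in 𝓝 x0, DifferentiableAt ℂ (fun x => Sc D b (W x)) x := by
    filter_upwards [hopen.mem_nhds hx0B] with x hx
    exact differentiableAt_pi.2 fun t => (hder x hx t).differentiableAt
  have hpd : (Matrix.of fun i j => RHT.pd j (fun x => (fun x => Sc D b (W x)) x i) x0) =
      (Fm D b e w1).transpose := by
    ext i j
    rw [Matrix.of_apply, Matrix.transpose_apply]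
    unfold RHT.pd
    rw [(hder x0 hx0B i).fderiv]
    unfold Fm
    rw [Matrix.of_apply]
    simp only [ContinuousLinearMap.sum_apply, ContinuousLinearMap.smul_apply,
      ContinuousLinearMap.proj_apply, smul_eq_mul]
    rw [Finset.sum_eq_single j]
    · rw [Pi.single_eq_same, mul_one]
    · intro a _ ha
      rw [Pi.single_eq_of_ne ha, mul_zero]
    · intro h
      exact absurd (Finset.mem_univ _) h
  obtain ⟨Θ, hΘ0, hΘ⟩ := RHT.exists_locInv (x0 := x0) (fun x => Sc D b (W x)) hdiff (by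
    rw [hpd, Matrix.det_transpose]
    exact hdet)
  have hcont : Tendsto Θ (𝓝 (Sc D b (W x0))) (𝓝 x0) := by
    have h1 := (hΘ.self_of_nhds).2.1.continuousAt
    have h2 : Tendsto Θ (𝓝 (Sc D b (W x0))) (𝓝 (Θ (Sc D b (W x0)))) := h1
    rwa [hΘ0] at h2
  have hzero : ∀ᶠ v in 𝓝 (Sc D b (W x0)), T v = 0 := by
    filter_upwards [hΘ, hcont.eventually (hopen.mem_nhds hx0B)] with v hv1 hv2
    have h1 : Sc D b (W (Θ v)) = v := hv1.1
    rw [← h1]
    exact hcon _ (hWB _ hv2)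
  obtain ⟨V, hV, hVo, hVx⟩ := eventually_nhds_iff.1 hzero
  obtain ⟨u, hu⟩ := hT0
  exact hu (id_thm isOpen_univ convex_univ hT.differentiableOn hVo ⟨_, hVx⟩ (Set.subset_univ _) hV u
    (Set.mem_univ _))

theorem exists_GP {D b : ℕ} (hD : 3 ≤ D) (hb : 0 < b) (hb2 : b + 1 < D) : Nonempty (GP D b) := by
  classical
  have hD0 : 0 < D := by omega
  obtain ⟨T, hT⟩ := exists_T hD hb hb2
  obtain ⟨e₁, e₂, i₁, i₂, hne⟩ := exists_emb hD hb hb2
  obtain ⟨z0, ε, hε, hball⟩ := goodC_ball hD0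
  have hz0 : z0 ≠ 0 := goodC_ne0 hD0 (hball z0 (Metric.mem_ball_self hε))
  have hBO : Metric.ball z0 ε ⊆ Om D := fun z hz => mem_Om_of_im (hball z hz)
  have hB0 : (Metric.ball z0 ε).Nonempty := ⟨z0, Metric.mem_ball_self hε⟩
  set S : Set (Pt D b → ℂ) := Set.pi Set.univ fun _ => Metric.ball z0 ε with hS
  have hSm : ∀ w, w ∈ S ↔ ∀ k, w k ∈ Metric.ball z0 ε := fun w => by simp [hS, Set.mem_pi]
  have hSo : IsOpen S := isOpen_set_pi Set.finite_univ fun _ _ => Metric.isOpen_ball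
  have hSc : Convex ℝ S := convex_pi fun _ _ => convex_ball z0 ε
  have hS0 : S.Nonempty := ⟨fun _ => z0, (hSm _).2 fun _ => Metric.mem_ball_self hε⟩
  have hproj : ∀ k : Pt D b, DifferentiableOn ℂ (fun w : Pt D b → ℂ => w k) S := fun k =>
    (differentiable_apply k).differentiableOn
  have hcomp : ∀ (g : ℂ → ℂ), DifferentiableOn ℂ g (Metric.ball z0 ε) → ∀ k : Pt D b,
      DifferentiableOn ℂ (fun w : Pt D b → ℂ => g (w k)) S := fun g hg k =>
    hg.comp (hproj k) fun w hw => (hSm w).1 hw k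
  let f : Fin 5 → (Pt D b → ℂ) → ℂ := ![
    fun w => ∏ k, ∏ l ∈ univ.erase k, (w k ^ D - w l ^ D),
    fun w => T (Sc D b w),
    fun w => Del D b w,
    fun w => (Fm D b e₁ w).det,
    fun w => (Fm D b e₂ w).det]
  have hf0 : DifferentiableOn ℂ (f 0) S := by
    show DifferentiableOn ℂ (fun w : Pt D b → ℂ => ∏ k, ∏ l ∈ univ.erase k, (w k ^ D - w l ^ D)) S
    refine goodC_prod _ (fun (k : Pt D b) (w : Pt D b → ℂ) => ∏ l ∈ univ.erase k, (w k ^ D - w l ^ D))
      fun k _ => goodC_prod _ (fun (l : Pt D b) (w : Pt D b → ℂ) => w k ^ D - w l ^ D) fun l _ => ?_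
    exact ((hproj k).fun_pow D).fun_sub ((hproj l).fun_pow D)
  have hf1 : DifferentiableOn ℂ (f 1) S := by
    refine hT.1.comp_differentiableOn (differentiableOn_pi.2 fun t => ?_)
    refine DifferentiableOn.fun_sum fun k _ => hcomp _ ?_ k
    exact fun z hz => (hasDerivAt_Cc hD0 (hBO hz)).differentiableAt.differentiableWithinAt
  have hf2 : DifferentiableOn ℂ (f 2) S := by
    refine goodC_det _ fun i m => ?_
    refine hcomp (psi D b m) ?_ i
    exact fun z hz => (hasDerivAt_psi hD0 m (hBO hz)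
      (goodC_ne0 hD0 (hball z hz))).differentiableAt.differentiableWithinAt
  have hFm : ∀ e : ↥(Ph D b) → Pt D b, DifferentiableOn ℂ (fun w => (Fm D b e w).det) S := by
    intro e
    refine goodC_det _ fun a t => ?_
    exact hcomp (Ft D b t) ((differentiableOn_Ft hD0).mono hBO) (e a)
  have hf : ∀ i, DifferentiableOn ℂ (f i) S := by
    intro i
    fin_cases i
    · exact hf0
    · exact hf1
    · exact hf2
    · exact hFm e₁
    · exact hFm e₂
  have h0 : ∀ i, ∃ x ∈ S, f i x ≠ 0 := by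
    intro i
    fin_cases i
    · obtain ⟨w, hw, hne'⟩ := goodC_pow (D := D) (b := b) hD0 hε hz0
      refine ⟨w, (hSm w).2 hw, ?_⟩
      show ∏ k, ∏ l ∈ univ.erase k, (w k ^ D - w l ^ D) ≠ 0
      refine Finset.prod_ne_zero_iff.2 fun k _ => Finset.prod_ne_zero_iff.2 fun l hl => ?_
      exact sub_ne_zero.2 (hne' k l (Finset.ne_of_mem_erase hl).symm)
    · obtain ⟨w, hw, h⟩ := goodC_T hD0 hT.1 hT.2.1 Metric.isOpen_ball hB0 hBO i₁
      exact ⟨w, (hSm w).2 hw, h⟩
    · obtain ⟨w, hw, h⟩ := exists_Del_ne (D := D) (b := b) hD0 Metric.isOpen_ball hB0 hBO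
      exact ⟨w, (hSm w).2 hw, h⟩
    · obtain ⟨w, hw, h⟩ := exists_Fm_ne hD0 Metric.isOpen_ball hB0 hBO i₁
      exact ⟨w, (hSm w).2 hw, h⟩
    · obtain ⟨w, hw, h⟩ := exists_Fm_ne hD0 Metric.isOpen_ball hB0 hBO i₂
      exact ⟨w, (hSm w).2 hw, h⟩
  obtain ⟨V, hV, hV0, hVS, hVf⟩ := exists_common hSo hSc hS0 f hf h0
  obtain ⟨w, hw, halg⟩ := exists_alg hV hV0
  have hwB := (hSm w).1 (hVS hw)
  have g0 : ∏ k, ∏ l ∈ univ.erase k, (w k ^ D - w l ^ D) ≠ 0 := hVf w hw 0
  exact ⟨{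
    T := T
    hT := hT
    e₁ := e₁
    e₂ := e₂
    i₁ := i₁
    i₂ := i₂
    hne := hne
    w := w
    alg := halg
    hw := by
      refine ⟨fun k => hball _ (hwB k), fun k l hkl => ?_, hVf w hw 1, hVf w hw 2⟩
      have h1 := Finset.prod_ne_zero_iff.1 (Finset.prod_ne_zero_iff.1 g0 k (Finset.mem_univ k)) l
        (Finset.mem_erase.2 ⟨hkl.symm, Finset.mem_univ l⟩)
      exact sub_ne_zero.1 h1
    h₁ := hVf w hw 3
    h₂ := hVf w hw 4 }⟩

end Pool.Agent.RHU
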