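import Pool.Agent.RHU.Qsym
import Pool.Agent.RHU.Fsp

/-!
# RHU: definitions for the Klein formula
-/

set_option autoImplicit false

namespace Pool.Agent.RHU

open Complex Finset

noncomputable section

/-- the derivative of `psi` -/
def dpsi (D b m : ℕ) (z : ℂ) : ℂ :=
  -(psi D b m z) * ((m : ℂ) / z + kk D b m * z ^ (D - 1) / (1 - z ^ D))

/-- the derivative of `Del` in the point `i` -/
def dDel (D b : ℕ) (w : Pt D b → ℂ) (i : Pt D b) : ℂ :=
  Matrix.det (Matrix.of (fun k m : Pt D b => if k = i then dpsi D b m (w k) else psi D b m (w k)))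

/-- the mixed second derivative of `Del` in the points `i`, `j` -/
def ddDel (D b : ℕ) (w : Pt D b → ℂ) (i j : Pt D b) : ℂ :=
  Matrix.det (Matrix.of (fun k m : Pt D b =>
    if k = i ∨ k = j then dpsi D b m (w k) else psi D b m (w k)))

/-- the logarithmic derivatives of `T` -/
def LT {ι : Type} [Fintype ι] [DecidableEq ι] (T : (ι → ℂ) → ℂ) (t : ι) (u : ι → ℂ) : ℂ :=
  fderiv ℂ T u (Pi.single t 1) / T u

/-- the second logarithmic derivatives of `T` -/
def PT {ι : Type} [Fintype ι] [DecidableEq ι] (T : (ι → ℂ) → ℂ) (s t : ι) (u : ι → ℂ) : ℂ :=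
  fderiv ℂ (LT T t) u (Pi.single s 1)

/-- the good configurations of points -/
def Gs (D b : ℕ) (T : (↥(Ph D b) → ℂ) → ℂ) : Set (Pt D b → ℂ) :=
  {w | (∀ k, ((w k) ^ D).im ≠ 0) ∧ (∀ k l, k ≠ l → (w k) ^ D ≠ (w l) ^ D) ∧
    T (Sc D b w) ≠ 0 ∧ Del D b w ≠ 0}

/-- the right side of the Klein formula -/
def Rij (D b : ℕ) (w : Pt D b → ℂ) (i j : Pt D b) : ℂ :=
  (ddDel D b w i j * Del D b w - dDel D b w i * dDel D b w j) / Del D b w ^ 2 -
    (Qd D b (w j) (w i) + 1 / (w i - w j) ^ 2)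

end

end Pool.Agent.RHU
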