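import Pool.Agent.RHU.Leg

/-!
# RHU-Ker: the relations between the lattice vectors

PLAN. (`p : ZMod D → ℤ`, polynomial `P = ∑ p_j X^j`, `j = j.val`.) The hypothesis says
`P(ω^t) (ω^(tb) - 1) = 0` for `t ∈ Ph`, and `ω^(tb) ≠ 1`: `P(ω^t) = 0`, and (complex conjugation)
`P(ω^(D-t)) = 0`: so `P(ω^t) = 0` for all `t ∈ J` (`D ∤ tb`, `D ∤ t(b+1)`). Let `d = gcd b D`,
`e = gcd (b+1) D` (coprime, both divide `D`), `[m] = ∑_{i<m} X^i`. `A = (X^D-1)(X-1)/((X^d-1)(X^e-1))`:
`(X^D - 1) = (X^d-1) S_d`, `S_d = ∑_{k<D/d} X^(kd)`, and `[e] ∣ S_d` because the roots of `[e]` are the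
`e`-th roots of unity `≠ 1`, which are not `d`-th roots of unity: `S_d = A [e]`, same for `S_e = A [d]`
(define `A` by `S_d = A * [e]` in `ℤ[X]`, `[e]` monic; from `(X^d-1) S_d = (X^e-1) S_e` get
`S_e = A [d]`). `A` is monic, separable over `ℂ`, its roots are the `ω^t`, `t ∈ J`: `A ∣ P` in `ℂ[X]`, hence
in `ℤ[X]` (`Polynomial.map_dvd_map`). `[d]`, `[e]` are comaximal in `ℤ[X]` (Euclid:
`[m+n] = [m] + X^m [n]`), so `A = A(u[e] + v[d]) = u S_d + v S_e` and `P = U S_d + V S_e`. Reduce the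
exponents modulo `D`: `(U S_d)_i = ∑_k U_{i - kd}`; `k ↦ -k` gives the form below.
-/

set_option autoImplicit false

namespace Pool.Agent.RHU

open Complex Finset

private theorem ker_geom {R : Type*} [CommRing R] (Y : R) (m n : ℕ) :
    ∑ i ∈ range (m * n), Y ^ i = (∑ i ∈ range m, Y ^ i) * ∑ i ∈ range n, (Y ^ m) ^ i := by
  induction n with
  | zero => simp
  | succ n ih =>
    rw [Nat.mul_succ, Finset.sum_range_add, ih, Finset.sum_range_succ, mul_add]
    congr 1
    rw [Finset.sum_mul]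
    refine Finset.sum_congr rfl fun x _ => ?_
    rw [← pow_mul, ← pow_add, add_comm]

private theorem ker_coprime {R : Type*} [CommRing R] (Y : R) {d e : ℕ} (hd : 0 < d) (he : 0 < e)
    (h : Nat.Coprime d e) :
    ∃ u v : R, u * (∑ i ∈ range e, Y ^ i) + v * (∑ i ∈ range d, Y ^ i) = 1 := by
  obtain ⟨a, c, hac⟩ : ∃ a c : ℕ, e * a = d * c + 1 := by
    rcases Nat.lt_or_ge 1 d with h1 | h1
    · obtain ⟨m, hm⟩ := Nat.exists_mul_mod_eq_one_of_coprime h.symm h1
      refine ⟨m, e * m / d, ?_⟩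
      have := Nat.div_add_mod (e * m) d
      omega
    · have : d = 1 := by omega
      subst this
      exact ⟨1, e - 1, by omega⟩
  refine ⟨∑ i ∈ range a, (Y ^ e) ^ i, -(Y * ∑ i ∈ range c, (Y ^ d) ^ i), ?_⟩
  have h1 := ker_geom Y e a
  have h2 := ker_geom Y d c
  have h3 : ∑ i ∈ range (e * a), Y ^ i = 1 + Y * ∑ i ∈ range (d * c), Y ^ i := by
    rw [hac, Finset.sum_range_succ', Finset.mul_sum, pow_zero, add_comm]
    congr 1
    refine Finset.sum_congr rfl fun x _ => ?_
    rw [pow_succ']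
  rw [h1, h2] at h3
  linear_combination h3

private theorem ker_A {R : Type*} [CommRing R] (Y : R) {d e : ℕ} (m : ℕ) (hd : 0 < d) (he : 0 < e)
    (h : Nat.Coprime d e) :
    ∃ A u v : R, (∑ i ∈ range (e * m), (Y ^ d) ^ i) = A * ∑ i ∈ range e, Y ^ i ∧
      A = u * (∑ i ∈ range (e * m), (Y ^ d) ^ i) + v * ∑ i ∈ range (d * m), (Y ^ e) ^ i := by
  obtain ⟨u, v, huv⟩ := ker_coprime Y hd he h
  have h1 := ker_geom Y d e
  have h2 := ker_geom Y e d
  have h3 := ker_geom (Y ^ d) e m
  have h4 := ker_geom (Y ^ e) d m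
  have h5 : (Y ^ e) ^ d = (Y ^ d) ^ e := by rw [← pow_mul, ← pow_mul, mul_comm]
  rw [mul_comm e d, h1] at h2
  rw [h5] at h4
  rw [h3, h4]
  refine ⟨(u * (∑ i ∈ range e, (Y ^ d) ^ i) + v * (∑ i ∈ range d, (Y ^ e) ^ i)) *
    (∑ i ∈ range m, ((Y ^ d) ^ e) ^ i), u, v, ?_, by ring⟩
  linear_combination (-((∑ i ∈ range e, (Y ^ d) ^ i) * (∑ i ∈ range m, ((Y ^ d) ^ e) ^ i))) * huv +
    v * (∑ i ∈ range m, ((Y ^ d) ^ e) ^ i) * h2

private theorem ker_prim {D : ℕ} (hD : D ≠ 0) : IsPrimitiveRoot (om D) D := by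
  have h := (Complex.isPrimitiveRoot_exp D hD).inv
  have e : (cexp (2 * Real.pi * I / D))⁻¹ = om D := by
    rw [om, Complex.exp_neg]
  rwa [e] at h

private theorem ker_dvd {D : ℕ} (hD : D ≠ 0) (Q : Polynomial ℤ)
    (h : ∀ t < D, Polynomial.aeval (om D ^ t) Q = 0) :
    (Polynomial.X ^ D - 1 : Polynomial ℤ) ∣ Q := by
  classical
  have hp := ker_prim hD
  have hm : (Polynomial.X ^ D - 1 : Polynomial ℤ).Monic := Polynomial.monic_X_pow_sub_C 1 hD
  have hdeg : (Polynomial.X ^ D - 1 : Polynomial ℤ).natDegree = D := Polynomial.natDegree_X_pow_sub_C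
  rw [← Polynomial.modByMonic_eq_zero_iff_dvd hm]
  set r := Q %ₘ (Polynomial.X ^ D - 1 : Polynomial ℤ) with hr
  have hne : (Polynomial.X ^ D - 1 : Polynomial ℤ) ≠ 1 := by
    intro h1
    rw [h1] at hdeg
    simp at hdeg
    omega
  have hrd : r.natDegree < D := by
    have := Polynomial.natDegree_modByMonic_lt Q hm hne
    rwa [hdeg] at this
  have hmap : r.map (Int.castRingHom ℂ) = 0 := by
    refine Polynomial.eq_zero_of_natDegree_lt_card_of_eval_eq_zero' _
      ((range D).image fun t => om D ^ t) ?_ ?_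
    · intro z hz
      obtain ⟨t, ht, rfl⟩ := Finset.mem_image.1 hz
      have h1 : Polynomial.aeval (om D ^ t) r = 0 := by
        have h2 := Polynomial.modByMonic_add_div Q (Polynomial.X ^ D - 1 : Polynomial ℤ)
        have h3 := h t (Finset.mem_range.1 ht)
        rw [← h2] at h3
        simp only [map_add, map_mul, map_sub, map_one, map_pow, Polynomial.aeval_X] at h3
        rw [← pow_mul, mul_comm t D, pow_mul, hp.pow_eq_one, one_pow, sub_self, zero_mul,
          add_zero] at h3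
        exact h3
      rw [Polynomial.eval_map]
      exact h1
    · rw [Finset.card_image_of_injOn, Finset.card_range]
      · exact lt_of_le_of_lt Polynomial.natDegree_map_le hrd
      · intro s hs t ht hst
        exact hp.pow_inj (Finset.mem_range.1 hs) (Finset.mem_range.1 ht) hst
  exact (Polynomial.map_eq_zero_iff (RingHom.injective_int _)).1 hmap

private theorem ker_root {D b : ℕ} [NeZero D] (p : ZMod D → ℤ)
    (h : ∀ t ∈ Ph D b, ∑ j : ZMod D, (p j : ℂ) * la D b j.val t = 0) (t : ℕ) (ht : t ∈ Ph D b) :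
    ∑ j : ZMod D, (p j : ℂ) * (om D ^ t) ^ j.val = 0 := by
  have hD : D ≠ 0 := NeZero.ne D
  have hp := ker_prim hD
  have h1 := h t ht
  have h2 : (Bt D b t : ℂ) ≠ 0 := by exact_mod_cast (Bt_pos ht).ne'
  have h3 : om D ^ (t * b) - 1 ≠ 0 := by
    intro h4
    have h5 := (hp.pow_eq_one_iff_dvd _).1 (sub_eq_zero.1 h4)
    have h6 := (Ph_pos ht).2.2.1
    unfold rr at h6
    rw [Nat.mod_eq_zero_of_dvd h5] at h6
    exact lt_irrefl _ h6
  have h4 : ∑ j : ZMod D, (p j : ℂ) * la D b j.val t =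
      ((Bt D b t : ℂ) * (om D ^ (t * b) - 1)) * ∑ j : ZMod D, (p j : ℂ) * (om D ^ t) ^ j.val := by
    rw [Finset.mul_sum]
    refine Finset.sum_congr rfl fun j _ => ?_
    unfold la
    rw [← pow_mul]
    ring
  rw [h4] at h1
  rcases mul_eq_zero.1 h1 with h5 | h5
  · exact absurd h5 (mul_ne_zero h2 h3)
  · exact h5

private theorem ker_root2 {D b : ℕ} [NeZero D] (p : ZMod D → ℤ)
    (h : ∀ t ∈ Ph D b, ∑ j : ZMod D, (p j : ℂ) * la D b j.val t = 0) (t : ℕ) (ht : t < D)
    (h1 : ¬ D ∣ t * b) (h2 : ¬ D ∣ t * (b + 1)) :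
    ∑ j : ZMod D, (p j : ℂ) * (om D ^ t) ^ j.val = 0 := by
  have hD : D ≠ 0 := NeZero.ne D
  have hp := ker_prim hD
  have ht0 : 0 < t := by
    rcases Nat.eq_zero_or_pos t with h3 | h3
    · subst h3
      simp at h1
    · exact h3
  have hr0 : 0 < rr D b t := by
    unfold rr
    exact Nat.pos_of_ne_zero fun h3 => h1 (Nat.dvd_of_mod_eq_zero h3)
  have hr1 : rr D b t < D := Nat.mod_lt _ (Nat.pos_of_ne_zero hD)
  have hne : t + rr D b t ≠ D := by
    intro h3
    apply h2
    have h4 : t * (b + 1) = t + t * b := by ring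
    have h5 : t * b = D * (t * b / D) + rr D b t := (Nat.div_add_mod _ _).symm
    refine ⟨t * b / D + 1, ?_⟩
    rw [h4, h5, Nat.mul_add, Nat.mul_one]
    have h6 : D * ((D * (t * b / D) + rr D b t) / D) = D * (t * b / D) := by
      rw [← h5]
    rw [h6]
    omega
  rcases Nat.lt_or_ge D (t + rr D b t) with h3 | h3
  · exact ker_root p h t (mem_Ph.2 ⟨ht, h3⟩)
  · have h4 : rr D b (D - t) = D - rr D b t := by
      have h5 : (D - t) * b + t * b = D * b := by
        rw [← Nat.add_mul, Nat.sub_add_cancel ht.le]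
      have h6 : rr D b (D - t) < D := Nat.mod_lt _ (Nat.pos_of_ne_zero hD)
      have h7 : (rr D b (D - t) + rr D b t) % D = 0 := by
        unfold rr
        rw [← Nat.add_mod, h5, Nat.mul_mod_right]
      obtain ⟨k, hk⟩ := Nat.dvd_of_mod_eq_zero h7
      have hk1 : k = 1 := by
        rcases Nat.lt_or_ge k 1 with h | h
        · have : k = 0 := by omega
          subst this
          omega
        · rcases Nat.lt_or_ge k 2 with h' | h'
          · omega
          · have : D * 2 ≤ D * k := Nat.mul_le_mul_left D h'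
            omega
      subst hk1
      omega
    have h5 : D - t ∈ Ph D b := by
      rw [mem_Ph, h4]
      constructor
      · omega
      · omega
    have h6 := ker_root p h (D - t) h5
    have h7 := congrArg (starRingEnd ℂ) h6
    rw [map_sum, map_zero] at h7
    have hn : ‖om D‖ = 1 := Complex.norm_eq_one_of_pow_eq_one hp.pow_eq_one hD
    have hc : (starRingEnd ℂ) (om D ^ (D - t)) = om D ^ t := by
      rw [map_pow, ← Complex.inv_eq_conj hn, inv_pow]
      refine inv_eq_of_mul_eq_one_left ?_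
      rw [← pow_add, show t + (D - t) = D by omega]
      exact hp.pow_eq_one
    rw [← h7]
    refine Finset.sum_congr rfl fun j _ => ?_
    rw [map_mul, map_pow, hc, map_intCast]

/-- coefficients modulo `D` -/
private noncomputable def ker_phi (D : ℕ) : Polynomial ℤ →ₗ[ℤ] (ZMod D → ℤ) :=
  Polynomial.lsum fun n => LinearMap.toSpanSingleton ℤ (ZMod D → ℤ) (Pi.single (n : ZMod D) 1)

private theorem ker_phi_mono (D n : ℕ) (a : ℤ) :
    ker_phi D (Polynomial.monomial n a) = Pi.single (n : ZMod D) a := by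
  unfold ker_phi
  rw [Polynomial.lsum_apply, Polynomial.sum_monomial_index]
  · rw [LinearMap.toSpanSingleton_apply]
    funext i
    by_cases hi : i = (n : ZMod D)
    · subst hi
      simp
    · simp [hi]
  · simp

private theorem ker_phi_mul (D s : ℕ) (F : Polynomial ℤ) (i : ZMod D) :
    ker_phi D (F * Polynomial.X ^ s) i = ker_phi D F (i - (s : ZMod D)) := by
  induction F using Polynomial.induction_on' with
  | add f g hf hg =>
    rw [add_mul, map_add, map_add, Pi.add_apply, Pi.add_apply, hf, hg]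
  | monomial n a =>
    rw [Polynomial.monomial_mul_X_pow, ker_phi_mono, ker_phi_mono]
    by_cases hi : i = ((n + s : ℕ) : ZMod D)
    · have h2 : i - (s : ZMod D) = (n : ZMod D) := by
        rw [hi, Nat.cast_add, add_sub_cancel_right]
      rw [h2, hi, Pi.single_eq_same, Pi.single_eq_same]
    · have h2 : i - (s : ZMod D) ≠ (n : ZMod D) := by
        intro h3
        apply hi
        rw [Nat.cast_add, ← h3, sub_add_cancel]
      rw [Pi.single_eq_of_ne hi, Pi.single_eq_of_ne h2]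

private theorem ker_phi_geom (D d n : ℕ) (hdn : d * n = D) (F : Polynomial ℤ) (i : ZMod D) :
    ker_phi D (F * ∑ k ∈ range n, (Polynomial.X ^ d) ^ k) i =
      ∑ k ∈ range n, ker_phi D F (i + (k * d : ℕ) + (d : ZMod D)) := by
  rw [Finset.mul_sum, map_sum, Finset.sum_apply, ← Finset.sum_range_reflect]
  refine Finset.sum_congr rfl fun k hk => ?_
  have hk' := Finset.mem_range.1 hk
  rw [← pow_mul, ker_phi_mul]
  have h1 : d * (n - 1 - k) + (k * d + d) = D := by
    rw [← hdn]
    obtain ⟨c, rfl⟩ : ∃ c, n = k + 1 + c := ⟨n - (k + 1), by omega⟩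
    have : k + 1 + c - 1 - k = c := by omega
    rw [this]
    ring
  have h2 : ((d * (n - 1 - k) : ℕ) : ZMod D) + ((k * d : ℕ) + (d : ZMod D)) = 0 := by
    have h3 := congrArg (Nat.cast : ℕ → ZMod D) h1
    rw [ZMod.natCast_self, Nat.cast_add, Nat.cast_add] at h3
    exact h3
  have h4 : i - ((d * (n - 1 - k) : ℕ) : ZMod D) = i + ((k * d : ℕ) : ZMod D) + (d : ZMod D) := by
    rw [eq_neg_of_add_eq_zero_left h2]
    ring
  rw [h4]

theorem ker_la {D b : ℕ} [NeZero D] (hD : 3 ≤ D) (hb : 0 < b) (hb2 : b + 1 < D) (p : ZMod D → ℤ)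
    (h : ∀ t ∈ Ph D b, ∑ j : ZMod D, (p j : ℂ) * la D b j.val t = 0) :
    ∃ u v : ZMod D → ℤ, ∀ i : ZMod D,
      p i = ∑ k ∈ range (D / Nat.gcd b D), u (i + (k * Nat.gcd b D : ℕ)) +
        ∑ k ∈ range (D / Nat.gcd (b + 1) D), v (i + (k * Nat.gcd (b + 1) D : ℕ)) := by
  classical
  have _h2 := hb2
  have hD0 : D ≠ 0 := by omega
  set d := Nat.gcd b D with hd
  set e := Nat.gcd (b + 1) D with he
  have hdpos : 0 < d := Nat.gcd_pos_of_pos_left _ hb
  have hepos : 0 < e := Nat.gcd_pos_of_pos_left _ (Nat.succ_pos b)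
  have hdD : d ∣ D := Nat.gcd_dvd_right _ _
  have heD : e ∣ D := Nat.gcd_dvd_right _ _
  have hco : Nat.Coprime d e := by
    have h1 : Nat.Coprime b (b + 1) := by simp
    exact Nat.Coprime.coprime_dvd_left (Nat.gcd_dvd_left _ _)
      (Nat.Coprime.coprime_dvd_right (Nat.gcd_dvd_left _ _) h1)
  obtain ⟨m, hm⟩ : d * e ∣ D := hco.mul_dvd_of_dvd_of_dvd hdD heD
  have hDd : D / d = e * m := by
    rw [hm, mul_assoc, Nat.mul_div_cancel_left _ hdpos]
  have hDe : D / e = d * m := by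
    rw [hm, mul_comm d e, mul_assoc, Nat.mul_div_cancel_left _ hepos]
  have hmpos : 0 < m := by
    rcases Nat.eq_zero_or_pos m with h1 | h1
    · rw [h1, mul_zero] at hm
      omega
    · exact h1
  obtain ⟨A, u0, v0, hA1, hA2⟩ := ker_A (Polynomial.X : Polynomial ℤ) m hdpos hepos hco
  set P : Polynomial ℤ := ∑ j : ZMod D, Polynomial.monomial j.val (p j) with hP
  have hPev : ∀ z : ℂ, Polynomial.aeval z P = ∑ j : ZMod D, (p j : ℂ) * z ^ j.val := by
    intro z
    rw [hP, map_sum]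
    refine Finset.sum_congr rfl fun j _ => ?_
    rw [Polynomial.aeval_monomial]
    simp
  have hQ : (Polynomial.X ^ D - 1 : Polynomial ℤ) ∣
      P * (Polynomial.X ^ d - 1) * (Polynomial.X ^ e - 1) := by
    refine ker_dvd hD0 _ fun t ht => ?_
    have hp := ker_prim hD0
    rw [map_mul, map_mul, hPev]
    simp only [map_sub, map_one, map_pow, Polynomial.aeval_X]
    by_cases h1 : D ∣ t * b
    · have h2 : D ∣ t * d := by
        rw [hd, ← Nat.gcd_mul_left]
        exact Nat.dvd_gcd h1 (Dvd.intro_left _ rfl)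
      rw [← pow_mul, (hp.pow_eq_one_iff_dvd _).2 h2]
      ring
    · by_cases h3 : D ∣ t * (b + 1)
      · have h2 : D ∣ t * e := by
          rw [he, ← Nat.gcd_mul_left]
          exact Nat.dvd_gcd h3 (Dvd.intro_left _ rfl)
        rw [← pow_mul (om D) t e, (hp.pow_eq_one_iff_dvd _).2 h2]
        ring
      · rw [ker_root2 p h t ht h1 h3]
        ring
  obtain ⟨Q, hQ⟩ := hQ
  have hXD : (Polynomial.X ^ D - 1 : Polynomial ℤ) =
      A * (∑ i ∈ range e, Polynomial.X ^ i) * (Polynomial.X ^ d - 1) := by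
    rw [← hA1, geom_sum_mul, ← pow_mul, ← mul_assoc, ← hm]
  have hXe : (Polynomial.X ^ e - 1 : Polynomial ℤ) =
      (∑ i ∈ range e, Polynomial.X ^ i) * (Polynomial.X - 1) := (geom_sum_mul _ _).symm
  have hn1 : (Polynomial.X ^ d - 1 : Polynomial ℤ) ≠ 0 :=
    (Polynomial.monic_X_pow_sub_C (1 : ℤ) hdpos.ne').ne_zero
  have hn2 : (∑ i ∈ range e, Polynomial.X ^ i : Polynomial ℤ) ≠ 0 := by
    intro h1
    rw [h1, zero_mul] at hXe
    exact (Polynomial.monic_X_pow_sub_C (1 : ℤ) hepos.ne').ne_zero hXe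
  have hPA : P * (Polynomial.X - 1) = A * Q := by
    rw [hXD, hXe] at hQ
    refine mul_right_cancel₀ (mul_ne_zero hn1 hn2) ?_
    linear_combination hQ
  have hAe : Polynomial.eval 1 A ≠ 0 := by
    intro h1
    have h2 := congrArg (Polynomial.eval 1) hA1
    rw [Polynomial.eval_mul, h1, zero_mul, Polynomial.eval_finsetSum] at h2
    simp only [Polynomial.eval_pow, Polynomial.eval_X, one_pow, Finset.sum_const, Finset.card_range,
      nsmul_eq_mul, mul_one] at h2
    have h3 : e * m = 0 := by exact_mod_cast h2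
    exact (Nat.mul_pos hepos hmpos).ne' h3
  have hQ1 : Polynomial.eval 1 Q = 0 := by
    have h2 := congrArg (Polynomial.eval 1) hPA
    rw [Polynomial.eval_mul, Polynomial.eval_mul, Polynomial.eval_sub, Polynomial.eval_X,
      Polynomial.eval_one, sub_self, mul_zero] at h2
    rcases mul_eq_zero.1 h2.symm with h3 | h3
    · exact absurd h3 hAe
    · exact h3
  obtain ⟨Q', hQ'⟩ := Polynomial.dvd_iff_isRoot.2 hQ1
  have hPf : P = A * Q' := by
    have h1 : (Polynomial.X - 1 : Polynomial ℤ) ≠ 0 := Polynomial.X_sub_C_ne_zero 1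
    refine mul_right_cancel₀ h1 ?_
    rw [hPA, hQ', Polynomial.C_1]
    ring
  have hPf2 : P = (u0 * Q') * (∑ i ∈ range (e * m), (Polynomial.X ^ d) ^ i) +
      (v0 * Q') * ∑ i ∈ range (d * m), (Polynomial.X ^ e) ^ i := by
    calc P = A * Q' := hPf
      _ = _ := by
        conv_lhs => rw [hA2]
        ring
  refine ⟨fun i => ker_phi D (u0 * Q') (i + (d : ZMod D)),
    fun i => ker_phi D (v0 * Q') (i + (e : ZMod D)), fun i => ?_⟩
  have h1 : ker_phi D P i = p i := by
    rw [hP, map_sum, Finset.sum_apply, Finset.sum_eq_single i]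
    · rw [ker_phi_mono, ZMod.natCast_val, ZMod.cast_id', id, Pi.single_eq_same]
    · intro j _ hj
      rw [ker_phi_mono, ZMod.natCast_val, ZMod.cast_id', id, Pi.single_eq_of_ne hj.symm]
    · intro h2
      exact absurd (Finset.mem_univ i) h2
  have h2 := ker_phi_geom D d (e * m) (by rw [hm]; ring) (u0 * Q') i
  have h3 := ker_phi_geom D e (d * m) (by rw [hm]; ring) (v0 * Q') i
  rw [← h1, hPf2, map_add, Pi.add_apply, h2, h3, hDd, hDe]

end Pool.Agent.RHU
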