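import Pool.Agent.RHU.Fst
import Pool.Agent.RHT.NFd

/-!
# RHU-Kle: the Klein formula

PLAN. Differentiate `first_order` in `w j`, `j ≠ i` (it holds at all points near `w`, `isOpen_Gs`; use
`Function.update w j z`, `z` near `w j`). Left side: `LT T t` is differentiable where `T ≠ 0`
(`Pool.Agent.RHT.dir_diff` or `Pool.Agent.RHK.ent_fderiv`: directional derivatives of an entire function are
entire), chain rule: `∑_s PT s t (Sc w) F_s(w j)` (linear map evaluated on `∑_s F_s e_s`). Right side:
`hasDerivAt_Del`, `hasDerivAt_dDel`, quotient rule; in the sum only `k = j` depends on `w j`: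
`hasDerivAt_Qq_left` and `d/dw_j (1/(w_i - w_j)) = 1/(w_i - w_j)²`.
-/

set_option autoImplicit false

namespace Pool.Agent.RHU

open Complex Finset Filter Topology

variable {D b : ℕ}

theorem differentiableAt_LT {ι : Type} [Fintype ι] [DecidableEq ι] {T : (ι → ℂ) → ℂ}
    (hT : Differentiable ℂ T) (t : ι) {u : ι → ℂ} (hu : T u ≠ 0) :
    DifferentiableAt ℂ (LT T t) u := by
  have h1 : DifferentiableAt ℂ (fun x => fderiv ℂ T x (Pi.single t 1)) u :=
    (Pool.Agent.RHT.dir_diff (x0 := u) (Eventually.of_forall fun x => hT x) _).self_of_nhds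
  have h2 := h1.mul ((hT u).inv hu)
  refine h2.congr_of_eventuallyEq (Eventually.of_forall fun w => ?_)
  show fderiv ℂ T w (Pi.single t 1) / T w = _
  rw [div_eq_mul_inv]
  rfl

theorem klein (hD : 3 ≤ D) (hb : 0 < b) (hb2 : b + 1 < D) {T : (↥(Ph D b) → ℂ) → ℂ}
    (hT : IsT D b T) {w : Pt D b → ℂ} (hw : w ∈ Gs D b T) {i j : Pt D b} (hij : i ≠ j) :
    ∑ s : ↥(Ph D b), ∑ t : ↥(Ph D b), PT T s t (Sc D b w) * (Ft D b s (w j) * Ft D b t (w i)) =
      Rij D b w i j := by
  classical
  have hD0 : 0 < D := by omega
  obtain ⟨h1, h2, h3, h4⟩ := id hw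
  have hO : ∀ k, w k ∈ Om D := fun k => by
    show 1 - (w k) ^ D ∈ slitPlane
    rw [Complex.mem_slitPlane_iff]
    right
    rw [Complex.sub_im, Complex.one_im, zero_sub, neg_ne_zero]
    exact h1 k
  have h0 : ∀ k, w k ≠ 0 := fun k hk => by
    apply h1 k
    rw [hk, zero_pow hD0.ne', Complex.zero_im]
  have hjD : (w j) ^ D ≠ (w i) ^ D := h2 j i hij.symm
  have hji : w i - w j ≠ 0 := sub_ne_zero.2 fun h => hjD (by rw [h])
  have hev : ∀ᶠ z in 𝓝 (w j), Function.update w j z ∈ Gs D b T := by
    have hc : Continuous (fun z => Function.update w j z) := continuous_const.update j continuous_id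
    have h5 : Function.update w j (w j) ∈ Gs D b T := by
      rw [Function.update_eq_self]
      exact hw
    exact hc.continuousAt.eventually ((isOpen_Gs hD0 hT.1.continuous).mem_nhds h5)
  have hSc : HasDerivAt (fun z => Sc D b (Function.update w j z))
      (fun s : ↥(Ph D b) => Ft D b s (w j)) (w j) :=
    hasDerivAt_pi.2 fun s => hasDerivAt_Sc hD0 hO j s
  have hL : ∀ t : ↥(Ph D b), HasDerivAt (fun z => LT T t (Sc D b (Function.update w j z)))
      (∑ s : ↥(Ph D b), Ft D b s (w j) * PT T s t (Sc D b w)) (w j) := by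
    intro t
    have e1 : HasFDerivAt (LT T t) (fderiv ℂ (LT T t) (Sc D b w))
        (Sc D b (Function.update w j (w j))) := by
      rw [Function.update_eq_self]
      exact (differentiableAt_LT hT.1 t h3).hasFDerivAt
    have e2 := e1.comp_hasDerivAt (w j) hSc
    refine e2.congr_deriv ?_
    have e3 := LinearMap.pi_apply_eq_sum_univ
      (fderiv ℂ (LT T t) (Sc D b w) : (↥(Ph D b) → ℂ) →L[ℂ] ℂ).toLinearMap
      (fun s : ↥(Ph D b) => Ft D b s (w j))
    refine e3.trans (Finset.sum_congr rfl fun s _ => ?_)
    rw [smul_eq_mul]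
    congr 1
    unfold PT
    have e4 : (fun l : ↥(Ph D b) => if s = l then (1 : ℂ) else 0) = Pi.single s 1 := by
      funext l
      rw [Pi.single_apply]
      simp only [eq_comm]
    rw [e4]
    rfl
  have hDel := hasDerivAt_Del (b := b) hD0 hO h0 j
  have hdDel := hasDerivAt_dDel (b := b) hD0 hO h0 hij
  have hq : HasDerivAt (fun z => dDel D b (Function.update w j z) i /
      Del D b (Function.update w j z))
      ((ddDel D b w i j * Del D b w - dDel D b w i * dDel D b w j) / Del D b w ^ 2) (w j) := by
    have h5 := hdDel.fun_div hDel (by rw [Function.update_eq_self]; exact h4)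
    rw [Function.update_eq_self] at h5
    exact h5
  have hs : HasDerivAt (fun z => ∑ k ∈ univ.erase i, (Qz D b (Function.update w j z k) (w i) +
      1 / (w i - Function.update w j z k) - 1 / w i))
      (Qd D b (w j) (w i) + 1 / (w i - w j) ^ 2) (w j) := by
    have e1 : ∀ k ∈ univ.erase i, HasDerivAt (fun z => Qz D b (Function.update w j z k) (w i) +
        1 / (w i - Function.update w j z k) - 1 / w i)
        (if k = j then Qd D b (w j) (w i) + 1 / (w i - w j) ^ 2 else 0) (w j) := by
      intro k _
      by_cases hkj : k = j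
      · rw [if_pos hkj, hkj]
        have f1 := hasDerivAt_Qq_left (b := b) hD0 (hO j) (hO i) hjD
        have f2 : HasDerivAt (fun z => 1 / (w i - z)) (1 / (w i - w j) ^ 2) (w j) := by
          have f3 := ((hasDerivAt_id (w j)).const_sub (w i)).fun_inv hji
          refine (f3.congr_deriv ?_).congr_of_eventuallyEq (Eventually.of_forall fun z => ?_)
          · rw [neg_neg]
            rfl
          · show 1 / (w i - z) = (w i - z)⁻¹
            rw [one_div]
        have f3 := (f1.fun_add f2).sub_const (1 / w i)
        refine f3.congr_of_eventuallyEq (Eventually.of_forall fun z => ?_)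
        simp only [Function.update_self]
      · rw [if_neg hkj]
        simp only [Function.update_of_ne hkj]
        exact hasDerivAt_const _ _
    have e2 := HasDerivAt.fun_sum e1
    rw [Finset.sum_ite_eq' (univ.erase i) j, if_pos (Finset.mem_erase.2 ⟨hij.symm, mem_univ _⟩)]
      at e2
    exact e2
  have hLs := HasDerivAt.fun_sum (fun (t : ↥(Ph D b)) (_ : t ∈ univ) =>
    (hL t).mul_const (Ft D b t (w i)))
  have hR := ((hq.fun_sub hs).add_const ((gg D b : ℂ) / w i)).add_const (wd D b (w i))
  have he : (fun z => ∑ t : ↥(Ph D b), LT T t (Sc D b (Function.update w j z)) * Ft D b t (w i))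
      =ᶠ[𝓝 (w j)] fun z => dDel D b (Function.update w j z) i / Del D b (Function.update w j z) -
        (∑ k ∈ univ.erase i, (Qz D b (Function.update w j z k) (w i) +
          1 / (w i - Function.update w j z k) - 1 / w i)) + (gg D b : ℂ) / w i +
            wd D b (w i) := by
    filter_upwards [hev] with z hz
    have h5 := first_order hD hb hb2 hT hz i
    simp only [Function.update_of_ne hij] at h5
    exact h5
  have hu := hLs.unique (hR.congr_of_eventuallyEq he)
  unfold Rij
  rw [← hu, Finset.sum_comm]
  refine Finset.sum_congr rfl fun t _ => ?_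
  rw [Finset.sum_mul]
  refine Finset.sum_congr rfl fun s _ => ?_
  ring

end Pool.Agent.RHU
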