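import Pool.Agent.RHU.Defs
import Pool.Agent.RHU.OmB
import Pool.Agent.RHK.Ifc

/-!
# RHU-Lat: a multiple of the conjugates of `ℤ[ζ]` lies in the lattice
-/

set_option autoImplicit false

namespace Pool.Agent.RHU

open Complex Finset Pool.Agent.RHK

private theorem lat_prim {D : ℕ} (hD : 0 < D) : IsPrimitiveRoot (om D) D := by
  have h := (Complex.isPrimitiveRoot_exp D hD.ne').inv
  have e : om D = (cexp (2 * Real.pi * I / D))⁻¹ := by
    unfold om
    rw [Complex.exp_neg]
  rw [e]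
  exact h

/-- functions `t ↦ ∑ p_j ω^(tj)` with integers `p_j` -/
private def IsE (D : ℕ) (F : ℕ → ℂ) : Prop :=
  ∃ p : ℕ → ℤ, ∀ t, F t = ∑ j ∈ range D, (p j : ℂ) * om D ^ (t * j)

private theorem isE_zero (D : ℕ) : IsE D (fun _ => 0) := ⟨fun _ => 0, fun t => by simp⟩

private theorem isE_add {D : ℕ} {F G : ℕ → ℂ} (hF : IsE D F) (hG : IsE D G) :
    IsE D (fun t => F t + G t) := by
  obtain ⟨p, hp⟩ := hF
  obtain ⟨q, hq⟩ := hG
  refine ⟨fun j => p j + q j, fun t => ?_⟩
  show F t + G t = _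
  rw [hp, hq, ← Finset.sum_add_distrib]
  refine Finset.sum_congr rfl fun j _ => ?_
  push_cast
  ring

private theorem isE_smul {D : ℕ} {F : ℕ → ℂ} (z : ℤ) (hF : IsE D F) :
    IsE D (fun t => (z : ℂ) * F t) := by
  obtain ⟨p, hp⟩ := hF
  refine ⟨fun j => z * p j, fun t => ?_⟩
  show (z : ℂ) * F t = _
  rw [hp, Finset.mul_sum]
  refine Finset.sum_congr rfl fun j _ => ?_
  push_cast
  ring

private theorem om_mod {D : ℕ} (hD : 0 < D) (t a : ℕ) :
    om D ^ (t * a) = om D ^ (t * (a % D)) := by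
  conv_lhs => rw [← Nat.div_add_mod a D]
  rw [mul_add, pow_add]
  have h : om D ^ (t * (D * (a / D))) = 1 := by
    have e : t * (D * (a / D)) = D * (t * (a / D)) := by ring
    rw [e, pow_mul, om_pow D hD, one_pow]
  rw [h, one_mul]

private theorem isE_mono {D : ℕ} (hD : 0 < D) (a : ℕ) : IsE D (fun t => om D ^ (t * a)) := by
  refine ⟨fun j => if j = a % D then 1 else 0, fun t => ?_⟩
  show om D ^ (t * a) = _
  rw [Finset.sum_eq_single (a % D)]
  · show om D ^ (t * a) = ((if a % D = a % D then 1 else 0 : ℤ) : ℂ) * om D ^ (t * (a % D))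
    rw [if_pos rfl, Int.cast_one, one_mul, om_mod hD]
  · intro j _ hj
    show ((if j = a % D then 1 else 0 : ℤ) : ℂ) * om D ^ (t * j) = 0
    rw [if_neg hj, Int.cast_zero, zero_mul]
  · intro h
    exact absurd (Finset.mem_range.2 (Nat.mod_lt a hD)) h

private theorem isE_sum {D : ℕ} {ι : Type*} (s : Finset ι) (F : ι → ℕ → ℂ)
    (h : ∀ i ∈ s, IsE D (F i)) : IsE D (fun t => ∑ i ∈ s, F i t) := by
  classical
  induction s using Finset.induction_on with
  | empty => simpa using isE_zero D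
  | insert a s ha ih =>
    have h1 := isE_add (h a (Finset.mem_insert_self a s))
      (ih fun i hi => h i (Finset.mem_insert_of_mem hi))
    have e : (fun t => ∑ i ∈ insert a s, F i t) = fun t => F a t + ∑ i ∈ s, F i t := by
      funext t
      rw [Finset.sum_insert ha]
    rw [e]
    exact h1

private theorem isE_mul {D : ℕ} (hD : 0 < D) {F G : ℕ → ℂ} (hF : IsE D F) (hG : IsE D G) :
    IsE D (fun t => F t * G t) := by
  obtain ⟨p, hp⟩ := hF
  obtain ⟨q, hq⟩ := hG
  have e : (fun t => F t * G t) = fun t => ∑ i ∈ range D, ∑ j ∈ range D,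
      ((p i * q j : ℤ) : ℂ) * om D ^ (t * (i + j)) := by
    funext t
    rw [hp, hq, Finset.sum_mul_sum]
    refine Finset.sum_congr rfl fun i _ => Finset.sum_congr rfl fun j _ => ?_
    rw [mul_add, pow_add]
    push_cast
    ring
  rw [e]
  exact isE_sum _ _ fun i _ => isE_sum _ _ fun j _ => isE_smul _ (isE_mono hD _)

private theorem lat_geom {x : ℂ} {n : ℕ} (h : x ^ n = 1) (h1 : x ≠ 1) :
    ∑ k ∈ range n, x ^ k = 0 := by
  have h2 : (x - 1) * ∑ k ∈ range n, x ^ k = x ^ n - 1 := mul_geom_sum _ _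
  rw [h, sub_self] at h2
  exact (mul_eq_zero.1 h2).resolve_left (sub_ne_zero.2 h1)

private theorem lat_kgeom (x : ℂ) (n : ℕ) :
    (∑ k ∈ range n, (k : ℂ) * x ^ k) * (x - 1) = n * x ^ n - x * ∑ k ∈ range n, x ^ k := by
  induction n with
  | zero => simp
  | succ n ih =>
    rw [Finset.sum_range_succ, Finset.sum_range_succ, add_mul, ih]
    push_cast
    ring

/-- `D` times the projection to the primitive characters -/
private theorem lat_E {D : ℕ} (hD : 0 < D) (t : ℕ) :
    ∑ d ∈ D.divisors, ((ArithmeticFunction.moebius d * ((D / d : ℕ) : ℤ) : ℤ) : ℂ) *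
      ∑ k ∈ range d, om D ^ (t * (D / d * k)) = if Nat.Coprime t D then (D : ℂ) else 0 := by
  have hp := lat_prim hD
  have h1 : ∀ d ∈ D.divisors, ((ArithmeticFunction.moebius d * ((D / d : ℕ) : ℤ) : ℤ) : ℂ) *
      ∑ k ∈ range d, om D ^ (t * (D / d * k)) =
      if d ∣ t then (D : ℂ) * (ArithmeticFunction.moebius d : ℂ) else 0 := by
    intro d hd
    have hdD := Nat.dvd_of_mem_divisors hd
    have hd0 : 0 < d := Nat.pos_of_mem_divisors hd
    have hdd : D / d * d = D := Nat.div_mul_cancel hdD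
    have e : ∀ k ∈ range d, om D ^ (t * (D / d * k)) = (om D ^ (t * (D / d))) ^ k := by
      intro k _
      rw [← pow_mul, mul_assoc]
    rw [Finset.sum_congr rfl e]
    have hx : (om D ^ (t * (D / d))) ^ d = 1 := by
      rw [← pow_mul, mul_assoc, hdd, mul_comm, pow_mul, om_pow D hD, one_pow]
    have hiff : om D ^ (t * (D / d)) = 1 ↔ d ∣ t := by
      rw [hp.pow_eq_one_iff_dvd]
      have h2 : D ∣ t * (D / d) ↔ (D / d) * d ∣ (D / d) * t := by
        rw [hdd, mul_comm t]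
      rw [h2]
      have h3 : 0 < D / d := Nat.div_pos (Nat.le_of_dvd hD hdD) hd0
      exact Nat.mul_dvd_mul_iff_left h3
    by_cases hdt : d ∣ t
    · rw [if_pos hdt, hiff.2 hdt]
      simp only [one_pow, Finset.sum_const, Finset.card_range, nsmul_eq_mul, mul_one]
      have h4 : ((D / d : ℕ) : ℂ) * (d : ℂ) = D := by
        rw [← Nat.cast_mul, hdd]
      rw [Int.cast_mul, Int.cast_natCast, mul_assoc, h4, mul_comm]
    · rw [if_neg hdt, lat_geom hx (fun h => hdt (hiff.1 h)), mul_zero]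
  rw [Finset.sum_congr rfl h1, ← Finset.sum_filter, ← Finset.mul_sum]
  have h5 : D.divisors.filter (fun d => d ∣ t) = (Nat.gcd t D).divisors := by
    ext d
    rw [Finset.mem_filter, Nat.mem_divisors, Nat.mem_divisors, Nat.dvd_gcd_iff]
    have hg : Nat.gcd t D ≠ 0 := Nat.gcd_ne_zero_right hD.ne'
    constructor
    · rintro ⟨⟨h, _⟩, h'⟩
      exact ⟨⟨h', h⟩, hg⟩
    · rintro ⟨⟨h', h⟩, _⟩
      exact ⟨⟨h, hD.ne'⟩, h'⟩
  rw [h5]
  have h6 : ∑ i ∈ (Nat.gcd t D).divisors, ArithmeticFunction.moebius i =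
      (1 : ArithmeticFunction ℤ) (Nat.gcd t D) := by
    rw [← ArithmeticFunction.moebius_mul_coe_zeta, ArithmeticFunction.coe_mul_zeta_apply]
  rw [← Int.cast_sum, h6, ArithmeticFunction.one_apply]
  by_cases hc : Nat.Coprime t D
  · rw [if_pos hc, if_pos hc, Int.cast_one, mul_one]
  · rw [if_neg hc, if_neg hc, Int.cast_zero, mul_zero]

theorem lattice_emb {D b : ℕ} (hD : 3 ≤ D) (hb : 0 < b) (hb2 : b < D) :
    ∃ N : ℕ, 0 < N ∧ ∀ c : ℕ → ℤ, ∃ p : ℕ → ℤ, ∀ t : ℕ, t < D →
      (∑ j ∈ range D, (p j : ℂ) * om D ^ (t * j)) * (om D ^ (t * b) - 1) =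
        if Nat.Coprime t D then (N : ℂ) * emb D c t else 0 := by
  have hD0 : 0 < D := by omega
  have hp := lat_prim hD0
  refine ⟨D * D, Nat.mul_pos hD0 hD0, fun c => ?_⟩
  -- the three factors
  have hE : IsE D (fun t => ∑ d ∈ D.divisors,
      ((ArithmeticFunction.moebius d * ((D / d : ℕ) : ℤ) : ℤ) : ℂ) *
      ∑ k ∈ range d, om D ^ (t * (D / d * k))) :=
    isE_sum _ _ fun d _ => isE_smul _ (isE_sum _ _ fun k _ => isE_mono hD0 _)
  have hQ : IsE D (fun t => ∑ k ∈ range D, ((k : ℤ) : ℂ) * om D ^ (t * (b * k))) :=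
    isE_sum _ _ fun k _ => isE_smul _ (isE_mono hD0 _)
  have hC : IsE D (fun t => ∑ j ∈ range D, ((c j : ℤ) : ℂ) * om D ^ (t * (D - j))) :=
    isE_sum _ _ fun j _ => isE_smul _ (isE_mono hD0 _)
  obtain ⟨p, hpp⟩ := isE_mul hD0 (isE_mul hD0 hE hQ) hC
  refine ⟨p, fun t ht => ?_⟩
  rw [← hpp t]
  show (∑ d ∈ D.divisors, ((ArithmeticFunction.moebius d * ((D / d : ℕ) : ℤ) : ℤ) : ℂ) *
      ∑ k ∈ range d, om D ^ (t * (D / d * k))) *
      (∑ k ∈ range D, ((k : ℤ) : ℂ) * om D ^ (t * (b * k))) *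
      (∑ j ∈ range D, ((c j : ℤ) : ℂ) * om D ^ (t * (D - j))) * (om D ^ (t * b) - 1) = _
  rw [lat_E hD0]
  by_cases hc : Nat.Coprime t D
  · rw [if_pos hc, if_pos hc]
    have hx1 : om D ^ (t * b) ≠ 1 := by
      intro h
      rw [hp.pow_eq_one_iff_dvd] at h
      have h2 : D ∣ b := (Nat.Coprime.symm hc).dvd_of_dvd_mul_left h
      exact absurd (Nat.le_of_dvd hb h2) (not_le.2 hb2)
    have hxD : (om D ^ (t * b)) ^ D = 1 := by
      rw [← pow_mul, mul_comm, pow_mul, om_pow D hD0, one_pow]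
    have hQ2 : (∑ k ∈ range D, ((k : ℤ) : ℂ) * om D ^ (t * (b * k))) *
        (om D ^ (t * b) - 1) = D := by
      have e : ∀ k ∈ range D, ((k : ℤ) : ℂ) * om D ^ (t * (b * k)) =
          (k : ℂ) * (om D ^ (t * b)) ^ k := by
        intro k _
        rw [← pow_mul, mul_assoc, Int.cast_natCast]
      rw [Finset.sum_congr rfl e, lat_kgeom, hxD, lat_geom hxD hx1]
      ring
    have hC2 : ∑ j ∈ range D, ((c j : ℤ) : ℂ) * om D ^ (t * (D - j)) = emb D c t := by
      unfold emb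
      refine Finset.sum_congr rfl fun j hj => ?_
      have hj' : j < D := Finset.mem_range.1 hj
      congr 1
      have h1 : om D ^ (t * (D - j)) * om D ^ (t * j) = 1 := by
        rw [← pow_add, ← mul_add, Nat.sub_add_cancel hj'.le, mul_comm, pow_mul, om_pow D hD0,
          one_pow]
      have h2 : cexp (2 * Real.pi * I * (t * j : ℕ) / D) * om D ^ (t * j) = 1 := by
        have h3 : cexp (2 * Real.pi * I * (t * j : ℕ) / D) = ze D ^ (t * j) := by
          unfold ze
          rw [← Complex.exp_nat_mul]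
          congr 1
          ring
        rw [h3, ← mul_pow, mul_comm (ze D), om_mul_ze, one_pow]
      have h4 : om D ^ (t * j) ≠ 0 := fun h => by
        rw [h, mul_zero] at h1
        exact zero_ne_one h1
      exact mul_right_cancel₀ h4 (h1.trans h2.symm)
    rw [hC2]
    calc (D : ℂ) * (∑ k ∈ range D, ((k : ℤ) : ℂ) * om D ^ (t * (b * k))) * emb D c t *
          (om D ^ (t * b) - 1) = (D : ℂ) * ((∑ k ∈ range D, ((k : ℤ) : ℂ) *
          om D ^ (t * (b * k))) * (om D ^ (t * b) - 1)) * emb D c t := by ring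
      _ = ((D * D : ℕ) : ℂ) * emb D c t := by
        rw [hQ2]
        push_cast
        ring
  · rw [if_neg hc, if_neg hc]
    ring

end Pool.Agent.RHU
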