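import Pool.Agent.RHU.GDefs
import Pool.Agent.RHU.KOpen
import Pool.Agent.RHT.NFm

/-!
# RHU-NWa: the functions of the points are in the differential rings `NF`

`Pool/Agent/RHT/NFa, NFb, NFc, NFm`: `NF x0 f` is closed under ring operations, inverses (`NF_inv`), solutions
of `pd h = A h + B h² + C` (`NF_ode`), determinants.
PLAN. `wx_e₁`, `wx_x0`: injectivity of `e₁`. Every coordinate `x ↦ G.wx x k` is a coordinate function or an
algebraic constant: `NF_coord`, `NF_const`. `NF_eta`: `h(x) = eta D (φ x)` with `φ` in `NF`, `φ x0 ∈ Om D`: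
`pd j h = -(φ^(D-1)/(1 - φ^D)) (pd j φ) h` (`hasDerivAt_eta`, `eta^D = 1 - z^D`), `h(x0)` algebraic as its `D`-th power
is; `NF_ode` (`NF.der` for `pd j φ`). `Ft`, `psi`, `dpsi`, `Qd` are rational functions of `z`, `eta`, with nonvanishing
denominators (`eta ≠ 0`, `z ≠ 0`, `1 - z^D ≠ 0`, `w^D ≠ z^D`, `w ≠ z`).
-/

set_option autoImplicit false

namespace Pool.Agent.RHU

open Complex Finset Filter Topology Pool.Agent.RHT

variable {D b : ℕ}

private theorem nwa_not (G : GP D b) (x : ↥(Ph D b) → ℂ) {k : Pt D b}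
    (h : ¬ ∃ a, G.e₁ a = k) : G.wx x k = G.w k := by
  unfold GP.wx
  exact dif_neg h

theorem GP.wx_e₁ (G : GP D b) (x : ↥(Ph D b) → ℂ) (a : ↥(Ph D b)) : G.wx x (G.e₁ a) = x a := by
  have h : ∃ c, G.e₁ c = G.e₁ a := ⟨a, rfl⟩
  have h1 : G.wx x (G.e₁ a) = x h.choose := by
    unfold GP.wx
    exact dif_pos h
  rw [h1, G.i₁ h.choose_spec]

theorem GP.wx_e₂ (G : GP D b) (x : ↥(Ph D b) → ℂ) (c : ↥(Ph D b)) :
    G.wx x (G.e₂ c) = G.w (G.e₂ c) :=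
  nwa_not G x fun ⟨a, ha⟩ => G.hne a c ha

theorem GP.wx_x0 (G : GP D b) : G.wx G.x0 = G.w := by
  funext k
  by_cases h : ∃ a, G.e₁ a = k
  · obtain ⟨a, rfl⟩ := h
    rw [G.wx_e₁]
    rfl
  · exact nwa_not G _ h

theorem GP.NF_wx (G : GP D b) (k : Pt D b) : NF G.x0 (fun x => G.wx x k) := by
  by_cases h : ∃ a, G.e₁ a = k
  · obtain ⟨a, rfl⟩ := h
    have h1 : (fun x => G.wx x (G.e₁ a)) = fun x => x a := funext fun x => G.wx_e₁ x a
    rw [h1]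
    exact NF_coord a (G.alg (G.e₁ a))
  · have h1 : (fun x => G.wx x k) = fun _ => G.w k := funext fun x => nwa_not G x h
    rw [h1]
    exact NF_const (G.alg k)

private theorem nwa_nat (n : ℕ) : IsAlgebraic ℚ (n : ℂ) := by
  have h := isAlgebraic_algebraMap (R := ℚ) (A := ℂ) (n : ℚ)
  rwa [map_natCast] at h

private theorem nwa_co (D b t : ℕ) :
    IsAlgebraic ℚ ((1 - (t : ℂ) / D - (rr D b t : ℂ) / D) / D) := by
  have h := isAlgebraic_algebraMap (R := ℚ) (A := ℂ) ((1 - (t : ℚ) / D - (rr D b t : ℚ) / D) / D)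
  rwa [map_div₀, map_sub, map_sub, map_div₀, map_div₀, map_one, map_natCast, map_natCast,
    map_natCast] at h

theorem NF_eta (hD : 0 < D) {ι : Type} [Fintype ι] [DecidableEq ι] {x0 : ι → ℂ}
    {φ : (ι → ℂ) → ℂ} (h : NF x0 φ) (h0 : φ x0 ∈ Om D) : NF x0 (fun x => eta D (φ x)) := by
  have hd := h.hol
  have hOm : ∀ᶠ x in 𝓝 x0, φ x ∈ Om D :=
    hd.self_of_nhds.continuousAt.eventually_mem ((isOpen_Om D).mem_nhds h0)
  have key : ∀ x, DifferentiableAt ℂ φ x → φ x ∈ Om D → HasFDerivAt (fun x => eta D (φ x))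
      ((-(φ x) ^ (D - 1) / eta D (φ x) ^ (D - 1)) • fderiv ℂ φ x) x := fun x h1 h2 =>
    (hasDerivAt_eta hD h2).comp_hasFDerivAt x h1.hasFDerivAt
  have hden : NF x0 (fun x => 1 - φ x ^ D) := (NF_const isAlgebraic_one).sub (h.pow D)
  refine NF_ode _ ?_ ?_ (fun j x => -(φ x ^ (D - 1) / (1 - φ x ^ D)) * pd j φ x) (fun _ _ => 0)
    (fun _ _ => 0) (fun j => ?_) (fun _ => NF_const isAlgebraic_zero)
    (fun _ => NF_const isAlgebraic_zero) ?_
  · filter_upwards [hd, hOm] with x h1 h2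
    exact (key x h1 h2).differentiableAt
  · refine IsAlgebraic.of_pow hD ?_
    rw [eta_pow hD]
    exact hden.alg
  · exact (NF_div (h.pow _) hden (Complex.slitPlane_ne_zero h0)).neg.mul (h.der j)
  · intro j
    filter_upwards [hd, hOm] with x h1 h2
    unfold pd
    rw [(key x h1 h2).fderiv]
    simp only [ContinuousLinearMap.smul_apply, smul_eq_mul]
    have h3 : eta D (φ x) ≠ 0 := eta_ne h2
    have h4 : eta D (φ x) ^ (D - 1) ≠ 0 := pow_ne_zero _ h3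
    have h5 : 1 - φ x ^ D = eta D (φ x) * eta D (φ x) ^ (D - 1) := by
      rw [← eta_pow hD, ← pow_succ', Nat.sub_add_cancel hD]
    rw [h5]
    field_simp
    ring

theorem NF_Ft (hD : 0 < D) (t : ℕ) {ι : Type} [Fintype ι] [DecidableEq ι] {x0 : ι → ℂ}
    {φ : (ι → ℂ) → ℂ} (h : NF x0 φ) (h0 : φ x0 ∈ Om D) : NF x0 (fun x => Ft D b t (φ x)) :=
  NF_div ((NF_const (nwa_nat D)).mul (h.pow (D - 1 - t))) ((NF_eta hD h h0).pow (rr D b t))
    (pow_ne_zero _ (eta_ne h0))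

theorem NF_psi (hD : 0 < D) (m : ℕ) {ι : Type} [Fintype ι] [DecidableEq ι] {x0 : ι → ℂ}
    {φ : (ι → ℂ) → ℂ} (h : NF x0 φ) (h0 : φ x0 ∈ Om D) (h1 : φ x0 ≠ 0) :
    NF x0 (fun x => psi D b m (φ x)) ∧ NF x0 (fun x => dpsi D b m (φ x)) := by
  have h2 : NF x0 (fun x => psi D b m (φ x)) :=
    NF_div ((NF_eta hD h h0).pow (kk D b m)) (h.pow m) (pow_ne_zero _ h1)
  have hden : NF x0 (fun x => 1 - φ x ^ D) := (NF_const isAlgebraic_one).sub (h.pow D)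
  refine ⟨h2, ?_⟩
  exact h2.neg.mul ((NF_div (NF_const (nwa_nat m)) h h1).add
    (NF_div ((NF_const (nwa_nat (kk D b m))).mul (h.pow (D - 1))) hden
      (Complex.slitPlane_ne_zero h0)))

theorem NF_Qd (hD : 0 < D) {ι : Type} [Fintype ι] [DecidableEq ι] {x0 : ι → ℂ}
    {φ χ : (ι → ℂ) → ℂ} (h : NF x0 φ) (h' : NF x0 χ) (h0 : φ x0 ∈ Om D) (h0' : χ x0 ∈ Om D)
    (h2 : (φ x0) ^ D ≠ (χ x0) ^ D) : NF x0 (fun x => Qd D b (φ x) (χ x)) := by
  have hne : φ x0 - χ x0 ≠ 0 := sub_ne_zero.2 fun h3 => h2 (by rw [h3])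
  have hne2 : φ x0 ^ D - χ x0 ^ D ≠ 0 := sub_ne_zero.2 h2
  have hd : NF x0 (fun x => φ x ^ D - χ x ^ D) := (h.pow D).sub (h'.pow D)
  have hden : NF x0 (fun x => 1 - φ x ^ D) := (NF_const isAlgebraic_one).sub (h.pow D)
  have hη := NF_eta hD h h0
  have hη' := NF_eta hD h' h0'
  have hη0' : eta D (χ x0) ≠ 0 := eta_ne h0'
  have hden0 : 1 - φ x0 ^ D ≠ 0 := Complex.slitPlane_ne_zero h0
  have a1 : NF x0 (fun x => -1 / (φ x - χ x) ^ 2) :=
    NF_div (NF_const isAlgebraic_one.neg) ((h.sub h').pow 2) (pow_ne_zero 2 hne)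
  have a2 : NF x0 (fun x => D * φ x ^ (D - 1) * χ x ^ (D - 1) / (φ x ^ D - χ x ^ D) ^ 2) :=
    NF_div (((NF_const (nwa_nat D)).mul (h.pow _)).mul (h'.pow _)) (hd.pow 2) (pow_ne_zero 2 hne2)
  have a3 : ∀ t : ℕ, NF x0 (fun x => χ x ^ (t - 1) * φ x ^ (D - t - 1) * eta D (φ x) ^ kk D b t /
      eta D (χ x) ^ kk D b t *
      ((((D : ℂ) - t) - kk D b t * φ x ^ D / (1 - φ x ^ D)) / (φ x ^ D - χ x ^ D) -
        D * φ x ^ D / (φ x ^ D - χ x ^ D) ^ 2)) := by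
    intro t
    have b1 : NF x0 (fun x => χ x ^ (t - 1) * φ x ^ (D - t - 1) * eta D (φ x) ^ kk D b t /
        eta D (χ x) ^ kk D b t) :=
      NF_div (((h'.pow _).mul (h.pow _)).mul (hη.pow _)) (hη'.pow _) (pow_ne_zero _ hη0')
    have b2 : NF x0 (fun x => kk D b t * φ x ^ D / (1 - φ x ^ D)) :=
      NF_div ((NF_const (nwa_nat _)).mul (h.pow D)) hden hden0
    have b3 : NF x0 (fun x => (((D : ℂ) - t) - kk D b t * φ x ^ D / (1 - φ x ^ D)) /
        (φ x ^ D - χ x ^ D)) :=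
      NF_div (((NF_const (nwa_nat D)).sub (NF_const (nwa_nat t))).sub b2) hd hne2
    have b4 : NF x0 (fun x => D * φ x ^ D / (φ x ^ D - χ x ^ D) ^ 2) :=
      NF_div ((NF_const (nwa_nat D)).mul (h.pow D)) (hd.pow 2) (pow_ne_zero 2 hne2)
    exact b1.mul (b3.sub b4)
  have a4 : ∀ t : ℕ, NF x0 (fun x => ((1 - (t : ℂ) / D - (rr D b t : ℂ) / D) / D) *
      Ft D b (D - t) (φ x) * Ft D b t (χ x)) := fun t =>
    ((NF_const (nwa_co D b t)).mul (NF_Ft hD _ h h0)).mul (NF_Ft hD _ h' h0')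
  exact ((a1.add a2).sub (NF_sum (Finset.Ico 1 D) _ fun t _ => a3 t)).add
    (NF_sum (Ph D b) _ fun t _ => a4 t)

end Pool.Agent.RHU
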