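import Pool.Agent.RHU.NWa
import Pool.Agent.RHU.Kle

/-!
# RHU-NWb: the second logarithmic derivatives as functions of the points

`NF_Rij`, `NF_Pw`: determinants, quotients and inverse matrices of functions in `NF x0`.
`PT_eq`: by `klein`, with `A = Fm e₂ w`, `B = Fm e₁ w`, `P = (PT s t)`: `A P Bᵀ = R`,
`R c a = Rij (e₁ a) (e₂ c)`, so `P = A⁻¹ R (B⁻¹)ᵀ`.
-/

set_option autoImplicit false

namespace Pool.Agent.RHU

open Complex Finset Filter Topology Pool.Agent.RHT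

variable {D b : ℕ}

private theorem NWb_Om {z : ℂ} (h : (z ^ D).im ≠ 0) : z ∈ Om D := by
  show 1 - z ^ D ∈ slitPlane
  rw [Complex.mem_slitPlane_iff]
  right
  rw [Complex.sub_im, Complex.one_im, zero_sub]
  exact neg_ne_zero.2 h

private theorem NWb_ne (hD : 0 < D) {z : ℂ} (h : (z ^ D).im ≠ 0) : z ≠ 0 := by
  rintro rfl
  rw [zero_pow hD.ne'] at h
  exact h Complex.zero_im

private theorem NWb_wOm (G : GP D b) (k : Pt D b) : G.wx G.x0 k ∈ Om D := by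
  rw [G.wx_x0]
  exact NWb_Om (G.hw.1 k)

private theorem NWb_w0 (hD : 0 < D) (G : GP D b) (k : Pt D b) : G.wx G.x0 k ≠ 0 := by
  rw [G.wx_x0]
  exact NWb_ne hD (G.hw.1 k)

private theorem NWb_Del (hD : 0 < D) (G : GP D b) : NF G.x0 (fun x => Del D b (G.wx x)) := by
  unfold Del
  refine NF_det _ fun i m => ?_
  exact (NF_psi hD m (G.NF_wx i) (NWb_wOm G i) (NWb_w0 hD G i)).1

private theorem NWb_dDel (hD : 0 < D) (G : GP D b) (i : Pt D b) :
    NF G.x0 (fun x => dDel D b (G.wx x) i) := by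
  unfold dDel
  refine NF_det _ fun k m => ?_
  have h := NF_psi (b := b) hD m (G.NF_wx k) (NWb_wOm G k) (NWb_w0 hD G k)
  by_cases hk : k = i
  · simp only [Matrix.of_apply, if_pos hk]
    exact h.2
  · simp only [Matrix.of_apply, if_neg hk]
    exact h.1

private theorem NWb_ddDel (hD : 0 < D) (G : GP D b) (i j : Pt D b) :
    NF G.x0 (fun x => ddDel D b (G.wx x) i j) := by
  unfold ddDel
  refine NF_det _ fun k m => ?_
  have h := NF_psi (b := b) hD m (G.NF_wx k) (NWb_wOm G k) (NWb_w0 hD G k)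
  by_cases hk : k = i ∨ k = j
  · simp only [Matrix.of_apply, if_pos hk]
    exact h.2
  · simp only [Matrix.of_apply, if_neg hk]
    exact h.1

theorem GP.NF_Rij (hD : 3 ≤ D) (G : GP D b) (a c : ↥(Ph D b)) :
    NF G.x0 (fun x => Rij D b (G.wx x) (G.e₁ a) (G.e₂ c)) := by
  have hD0 : 0 < D := by omega
  have hdet : Del D b (G.wx G.x0) ≠ 0 := by
    rw [G.wx_x0]
    exact G.hw.2.2.2
  have hpow : (G.wx G.x0 (G.e₂ c)) ^ D ≠ (G.wx G.x0 (G.e₁ a)) ^ D := by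
    rw [G.wx_x0]
    exact G.hw.2.1 _ _ (Ne.symm (G.hne a c))
  have hne : G.wx G.x0 (G.e₁ a) - G.wx G.x0 (G.e₂ c) ≠ 0 := by
    intro h0
    exact hpow (by rw [sub_eq_zero.1 h0])
  have h1 := NF_div (((NWb_ddDel hD0 G (G.e₁ a) (G.e₂ c)).mul (NWb_Del hD0 G)).sub
    ((NWb_dDel hD0 G (G.e₁ a)).mul (NWb_dDel hD0 G (G.e₂ c)))) ((NWb_Del hD0 G).pow 2)
    (pow_ne_zero 2 hdet)
  have h2 := NF_Qd (b := b) hD0 (G.NF_wx (G.e₂ c)) (G.NF_wx (G.e₁ a)) (NWb_wOm G _) (NWb_wOm G _)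
    hpow
  have h3 := NF_div (NF_const isAlgebraic_one)
    (((G.NF_wx (G.e₁ a)).sub (G.NF_wx (G.e₂ c))).pow 2) (pow_ne_zero 2 hne)
  exact h1.sub (h2.add h3)

private theorem NWb_Fm (hD : 0 < D) (G : GP D b) (e : ↥(Ph D b) → Pt D b) (a t : ↥(Ph D b)) :
    NF G.x0 (fun x => Fm D b e (G.wx x) a t) :=
  NF_Ft hD t (G.NF_wx (e a)) (NWb_wOm G _)

theorem GP.NF_Pw (hD : 3 ≤ D) (G : GP D b) (s t : ↥(Ph D b)) :
    NF G.x0 (fun x => G.Pw s t (G.wx x)) := by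
  have hD0 : 0 < D := by omega
  have h₁ : (Fm D b G.e₁ (G.wx G.x0)).det ≠ 0 := by
    rw [G.wx_x0]
    exact G.h₁
  have h₂ : (Fm D b G.e₂ (G.wx G.x0)).det ≠ 0 := by
    rw [G.wx_x0]
    exact G.h₂
  unfold GP.Pw
  refine NF_sum _ _ fun c _ => NF_sum _ _ fun a _ => ?_
  exact ((NF_inv_matrix (fun x => Fm D b G.e₂ (G.wx x)) (fun i j => NWb_Fm hD0 G G.e₂ i j) h₂
    s c).mul (G.NF_Rij hD a c)).mul
    (NF_inv_matrix (fun x => Fm D b G.e₁ (G.wx x)) (fun i j => NWb_Fm hD0 G G.e₁ i j) h₁ t a)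

theorem GP.PT_eq (hD : 3 ≤ D) (hb : 0 < b) (hb2 : b + 1 < D) (G : GP D b) {w : Pt D b → ℂ}
    (hw : w ∈ Gs D b G.T) (h₁ : (Fm D b G.e₁ w).det ≠ 0) (h₂ : (Fm D b G.e₂ w).det ≠ 0)
    (s t : ↥(Ph D b)) : PT G.T s t (Sc D b w) = G.Pw s t w := by
  set A := Fm D b G.e₂ w with hA
  set B := Fm D b G.e₁ w with hB
  set P : Matrix ↥(Ph D b) ↥(Ph D b) ℂ := Matrix.of fun s t => PT G.T s t (Sc D b w) with hP
  set R : Matrix ↥(Ph D b) ↥(Ph D b) ℂ :=
    Matrix.of fun c a => Rij D b w (G.e₁ a) (G.e₂ c) with hR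
  have key : A * P * B.transpose = R := by
    ext c a
    have h := klein hD hb hb2 G.hT hw (G.hne a c)
    show _ = Rij D b w (G.e₁ a) (G.e₂ c)
    rw [← h, Matrix.mul_apply]
    simp only [Matrix.mul_apply, Matrix.transpose_apply, Finset.sum_mul]
    rw [Finset.sum_comm]
    refine Finset.sum_congr rfl fun s _ => Finset.sum_congr rfl fun t _ => ?_
    show Ft D b s (w (G.e₂ c)) * PT G.T s t (Sc D b w) * Ft D b t (w (G.e₁ a)) = _
    ring
  have hPe : P = A⁻¹ * R * (B⁻¹).transpose := by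
    have hBu : B.transpose * (B⁻¹).transpose = 1 := by
      rw [← Matrix.transpose_mul, Matrix.nonsing_inv_mul _ (isUnit_iff_ne_zero.2 h₁),
        Matrix.transpose_one]
    have hAu : A⁻¹ * A = 1 := Matrix.nonsing_inv_mul _ (isUnit_iff_ne_zero.2 h₂)
    rw [← key]
    calc P = (A⁻¹ * A) * P * (B.transpose * (B⁻¹).transpose) := by
          rw [hAu, hBu, Matrix.one_mul, Matrix.mul_one]
      _ = A⁻¹ * (A * P * B.transpose) * (B⁻¹).transpose := by
          simp only [Matrix.mul_assoc]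
  have h3 : PT G.T s t (Sc D b w) = P s t := rfl
  rw [h3, hPe]
  unfold GP.Pw
  rw [Matrix.mul_apply]
  simp only [Matrix.mul_apply, Matrix.transpose_apply, Finset.sum_mul]
  rw [Finset.sum_comm]
  rfl

end Pool.Agent.RHU
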