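import Pool.Agent.RHU.NWb
import Pool.Agent.RHT.NFi

/-!
# RHU-NWc: the local inverse; second logarithmic derivatives near `v0` are in `NF`

`v0 = Sc G.w`, `Ψ(x) = Sc (G.wx x)`: differentiable near `x0`, `pd a Ψ_t (x) = F_t(x a)`.
`Pool.Agent.RHT.exists_locInv` gives the local inverse `Θ`; `φ(u) = Θ(v0 + σ u)` satisfies
`pd s φ_a (u) = σ (N (φ u))⁻¹ a s`, `N x t a = F_t(x a)`, and for `u` near `0`
`PT T s t (v0 + σ u) = Pw s t (G.wx (φ u))`.
-/

set_option autoImplicit false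

namespace Pool.Agent.RHU

open Complex Finset Filter Topology Pool.Agent.RHT

variable {D b : ℕ}

private theorem NWc_Om {z : ℂ} (h : (z ^ D).im ≠ 0) : z ∈ Om D := by
  show 1 - z ^ D ∈ slitPlane
  rw [Complex.mem_slitPlane_iff]
  right
  rw [Complex.sub_im, Complex.one_im, zero_sub]
  exact neg_ne_zero.2 h

/-- the coordinates of `wx` are coordinates or constants -/
private theorem NWc_cases (G : GP D b) (k : Pt D b) :
    (∃ a, G.e₁ a = k ∧ ∀ x, G.wx x k = x a) ∨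
      ((∀ a, G.e₁ a ≠ k) ∧ ∀ x, G.wx x k = G.w k) := by
  by_cases h : ∃ a, G.e₁ a = k
  · obtain ⟨a, rfl⟩ := h
    exact Or.inl ⟨a, rfl, fun x => G.wx_e₁ x a⟩
  · refine Or.inr ⟨fun a ha => h ⟨a, ha⟩, fun x => ?_⟩
    unfold GP.wx
    exact dif_neg h

private theorem NWc_coord (a : ↥(Ph D b)) (x : ↥(Ph D b) → ℂ) :
    DifferentiableAt ℂ (fun x : ↥(Ph D b) → ℂ => x a) x := differentiableAt_apply a x

private theorem NWc_diff (G : GP D b) (k : Pt D b) (x : ↥(Ph D b) → ℂ) :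
    DifferentiableAt ℂ (fun x => G.wx x k) x := by
  rcases NWc_cases G k with ⟨a, _, h⟩ | ⟨_, h⟩
  · have e : (fun x => G.wx x k) = fun x => x a := funext h
    rw [e]
    exact NWc_coord a x
  · have e : (fun x => G.wx x k) = fun _ => G.w k := funext h
    rw [e]
    exact differentiableAt_const _

private theorem NWc_pd (G : GP D b) (k : Pt D b) (a : ↥(Ph D b)) (x : ↥(Ph D b) → ℂ) :
    pd a (fun x => G.wx x k) x = if G.e₁ a = k then 1 else 0 := by
  rcases NWc_cases G k with ⟨a', ha', h⟩ | ⟨hn, h⟩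
  · have e : (fun x => G.wx x k) = fun x => x a' := funext h
    have e2 : HasFDerivAt (fun x : ↥(Ph D b) → ℂ => x a')
        (ContinuousLinearMap.proj (R := ℂ) (φ := fun _ : ↥(Ph D b) => ℂ) a') x :=
      hasFDerivAt_apply a' x
    rw [e]
    unfold pd
    rw [e2.fderiv]
    show (Pi.single a (1 : ℂ) : ↥(Ph D b) → ℂ) a' = _
    rw [Pi.single_apply]
    by_cases haa : a' = a
    · subst haa
      rw [if_pos rfl, if_pos ha']
    · rw [if_neg haa, if_neg]
      intro h2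
      exact haa (G.i₁ (ha'.trans h2.symm))
  · have e : (fun x => G.wx x k) = fun _ => G.w k := funext h
    rw [e, if_neg (hn a)]
    unfold pd
    rw [(hasFDerivAt_const (G.w k) x).fderiv]
    rfl

private theorem NWc_Psi (hD : 0 < D) (G : GP D b) {x : ↥(Ph D b) → ℂ}
    (hx : ∀ k, G.wx x k ∈ Om D) (t : ↥(Ph D b)) :
    DifferentiableAt ℂ (fun x => Sc D b (G.wx x) t) x ∧
      ∀ a, pd a (fun x => Sc D b (G.wx x) t) x = Ft D b t (x a) := by
  have h1 : ∀ k, HasFDerivAt (fun x => Cc D b t (G.wx x k))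
      (Ft D b t (G.wx x k) • fderiv ℂ (fun x => G.wx x k) x) x := fun k =>
    (hasDerivAt_Cc hD (hx k)).comp_hasFDerivAt x (NWc_diff G k x).hasFDerivAt
  have h2 : HasFDerivAt (fun x => Sc D b (G.wx x) t)
      (∑ k, Ft D b t (G.wx x k) • fderiv ℂ (fun x => G.wx x k) x) x :=
    HasFDerivAt.fun_sum fun k _ => h1 k
  refine ⟨h2.differentiableAt, fun a => ?_⟩
  have h3 : ∀ k, (Ft D b t (G.wx x k) • fderiv ℂ (fun x => G.wx x k) x) (Pi.single a 1) =
      if G.e₁ a = k then Ft D b t (G.wx x k) else 0 := by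
    intro k
    show Ft D b t (G.wx x k) * pd a (fun x => G.wx x k) x = _
    rw [NWc_pd]
    split_ifs
    · rw [mul_one]
    · rw [mul_zero]
  unfold pd
  rw [h2.fderiv, _root_.sum_apply, Finset.sum_congr rfl fun k _ => h3 k, Finset.sum_ite_eq,
    if_pos (Finset.mem_univ _), G.wx_e₁]

theorem GP.NF_PT (hD : 3 ≤ D) (hb : 0 < b) (hb2 : b + 1 < D) (G : GP D b) {σ : ℂ}
    (hσ : σ = 1 ∨ σ = -1) (s t : ↥(Ph D b)) :
    NF 0 (fun u : ↥(Ph D b) → ℂ => PT G.T s t (fun i => Sc D b G.w i + σ * u i)) := by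
  have hD0 : 0 < D := by omega
  have hOm0 : ∀ k, G.wx G.x0 k ∈ Om D := fun k => by
    rw [G.wx_x0]
    exact NWc_Om (G.hw.1 k)
  -- the map from the points
  set Ψ : (↥(Ph D b) → ℂ) → (↥(Ph D b) → ℂ) := fun x => Sc D b (G.wx x) with hΨ
  have hΨ0 : Ψ G.x0 = Sc D b G.w := by
    show Sc D b (G.wx G.x0) = _
    rw [G.wx_x0]
  have hwc : ContinuousAt G.wx G.x0 :=
    continuousAt_pi.2 fun k => (NWc_diff G k G.x0).continuousAt
  have hOm : ∀ᶠ x in 𝓝 G.x0, ∀ k, G.wx x k ∈ Om D := eventually_all.2 fun k =>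
    (NWc_diff G k G.x0).continuousAt.eventually ((isOpen_Om D).mem_nhds (hOm0 k))
  have hΨd : ∀ᶠ x in 𝓝 G.x0, DifferentiableAt ℂ Ψ x := by
    filter_upwards [hOm] with x hx
    exact differentiableAt_pi.2 fun t => (NWc_Psi hD0 G hx t).1
  set N : (↥(Ph D b) → ℂ) → Matrix ↥(Ph D b) ↥(Ph D b) ℂ :=
    fun x => Matrix.of fun i j => Ft D b i (x j) with hN
  have hNeq : ∀ᶠ x in 𝓝 G.x0, (Matrix.of fun i j => pd j (fun x => Ψ x i) x) = N x := by
    filter_upwards [hOm] with x hx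
    ext i j
    exact (NWc_Psi hD0 G hx i).2 j
  have hN0 : (N G.x0).det ≠ 0 := by
    have e : N G.x0 = (Fm D b G.e₁ G.w).transpose := rfl
    rw [e, Matrix.det_transpose]
    exact G.h₁
  obtain ⟨Θ, hΘ0, hΘ⟩ := exists_locInv (x0 := G.x0) Ψ hΨd (by
    rw [hNeq.self_of_nhds]
    exact hN0)
  rw [hΨ0] at hΘ0 hΘ
  -- the shift
  set sh : (↥(Ph D b) → ℂ) → (↥(Ph D b) → ℂ) := fun u i => Sc D b G.w i + σ * u i with hsh
  have hsh0 : sh 0 = Sc D b G.w := by
    funext i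
    show Sc D b G.w i + σ * 0 = _
    rw [mul_zero, add_zero]
  have hshi : ∀ (i : ↥(Ph D b)) (u : ↥(Ph D b) → ℂ), HasFDerivAt (fun u => sh u i)
      (σ • (ContinuousLinearMap.proj (R := ℂ) (φ := fun _ : ↥(Ph D b) => ℂ) i)) u := by
    intro i u
    have e2 : HasFDerivAt (fun x : ↥(Ph D b) → ℂ => x i)
        (ContinuousLinearMap.proj (R := ℂ) (φ := fun _ : ↥(Ph D b) => ℂ) i) u :=
      hasFDerivAt_apply i u
    exact (e2.const_mul σ).const_add _
  have hshd : ∀ u, DifferentiableAt ℂ sh u := fun u =>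
    differentiableAt_pi.2 fun i => (hshi i u).differentiableAt
  have hshp : ∀ (i j : ↥(Ph D b)) (u : ↥(Ph D b) → ℂ), pd j (fun u => sh u i) u =
      if i = j then σ else 0 := by
    intro i j u
    unfold pd
    rw [(hshi i u).fderiv]
    show σ * (Pi.single j (1 : ℂ) : ↥(Ph D b) → ℂ) i = _
    rw [Pi.single_apply]
    split_ifs
    · rw [mul_one]
    · rw [mul_zero]
  have hshc : Tendsto sh (𝓝 0) (𝓝 (Sc D b G.w)) := by
    have h := (hshd 0).continuousAt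
    rw [ContinuousAt, hsh0] at h
    exact h
  have hΘc : Tendsto Θ (𝓝 (Sc D b G.w)) (𝓝 G.x0) := by
    have h := (hΘ.self_of_nhds).2.1.continuousAt
    rw [ContinuousAt, hΘ0] at h
    exact h
  have hφc : Tendsto (fun u => Θ (sh u)) (𝓝 0) (𝓝 G.x0) := hΘc.comp hshc
  have hφ0 : Θ (sh 0) = G.x0 := by rw [hsh0, hΘ0]
  have hΘs := hshc.eventually hΘ
  have hφd : ∀ᶠ u in 𝓝 0, DifferentiableAt ℂ (fun u => Θ (sh u)) u := by
    filter_upwards [hΘs] with u hu
    exact DifferentiableAt.comp u hu.2.1 (hshd u)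
  have hσa : IsAlgebraic ℚ σ := by
    rcases hσ with rfl | rfl
    · exact isAlgebraic_one
    · exact isAlgebraic_one.neg
  have hNF : ∀ i j : ↥(Ph D b), NF G.x0 (fun x => N x i j) := by
    intro i j
    have h := NF_Ft (b := b) hD0 i (G.NF_wx (G.e₁ j)) (hOm0 (G.e₁ j))
    refine h.congr (Eventually.of_forall fun x => ?_)
    show Ft D b i (x j) = Ft D b i (G.wx x (G.e₁ j))
    rw [G.wx_e₁]
  have hR : ∀ a s' : ↥(Ph D b), NF (Θ (sh 0)) (fun x => σ * (N x)⁻¹ a s') := by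
    intro a s'
    rw [hφ0]
    exact (NF_const hσa).mul (NF_inv_matrix N hNF hN0 a s')
  have hder : ∀ a s' : ↥(Ph D b), ∀ᶠ u in 𝓝 0,
      pd s' (fun u => Θ (sh u) a) u = σ * (N (Θ (sh u)))⁻¹ a s' := by
    intro a s'
    filter_upwards [hΘs, hφc.eventually hNeq] with u hu hNu
    have e1 := pd_comp sh u (hshd u) (fun v => Θ v a) (differentiableAt_pi.1 hu.2.1 a) s'
    rw [e1, Finset.sum_eq_single s']
    · rw [hshp, if_pos rfl, hu.2.2.2 a s', hNu, mul_comm]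
    · intro i _ hi
      rw [hshp, if_neg hi, mul_zero]
    · intro h
      exact absurd (Finset.mem_univ _) h
  have hf : NF (Θ (sh 0)) (fun x => G.Pw s t (G.wx x)) := by
    rw [hφ0]
    exact G.NF_Pw hD s t
  have hcomp := NF_comp (x0 := (0 : ↥(Ph D b) → ℂ)) (fun u => Θ (sh u)) hφd
    (fun a s' x => σ * (N x)⁻¹ a s') hR hder hf
  refine hcomp.congr ?_
  have hGs : ∀ᶠ x in 𝓝 G.x0, G.wx x ∈ Gs D b G.T := by
    refine hwc.eventually ((isOpen_Gs hD0 G.hT.1.continuous).mem_nhds ?_)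
    rw [G.wx_x0]
    exact G.hw
  filter_upwards [hΘs, hφc.eventually hNeq, hφc.eventually hGs] with u hu hNu hGu
  have h1 : (Fm D b G.e₁ (G.wx (Θ (sh u)))).det ≠ 0 := by
    have e : Fm D b G.e₁ (G.wx (Θ (sh u))) = (N (Θ (sh u))).transpose := by
      ext a i
      show Ft D b i (G.wx (Θ (sh u)) (G.e₁ a)) = Ft D b i (Θ (sh u) a)
      rw [G.wx_e₁]
    rw [e, Matrix.det_transpose, ← hNu]
    exact hu.2.2.1
  have h2 : (Fm D b G.e₂ (G.wx (Θ (sh u)))).det ≠ 0 := by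
    have e : Fm D b G.e₂ (G.wx (Θ (sh u))) = Fm D b G.e₂ G.w := by
      ext a i
      show Ft D b i (G.wx (Θ (sh u)) (G.e₂ a)) = Ft D b i (G.w (G.e₂ a))
      rw [G.wx_e₂]
    rw [e]
    exact G.h₂
  have h3 := G.PT_eq hD hb hb2 hGu h1 h2 s t
  have h4 : Sc D b (G.wx (Θ (sh u))) = sh u := hu.1
  rw [h4] at h3
  exact h3

end Pool.Agent.RHU
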