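import Pool.Agent.RHU.EtaLim

/-!
# RHU-Nma: the denominators `Nm D θ η`

PLAN. `nm_mul`: geometric sum (`Commute.mul_geom_sum₂` or `mul_geom_sum₂`). `nm_ne`: if `θ^D = η^D` with
`θ ≠ η` then `η = c θ`, `c^D = 1`, `c ≠ 1`, so `|arg|` of `η/θ` is at least `2π/D`; but
`|arg θ| < π/D`, `|arg η| ≤ π/D`. If `θ = η` the sum is `D θ^(D-1) ≠ 0`. `nm_lower`: the set
`{η : |arg η| ≤ π/D} ∪ {0}` is closed; `Nm D θ η = ∏_{c^D=1, c ≠ 1} (η - c θ)` (or argue directly): on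
`‖η‖ ≤ R` compactness gives a positive lower bound, and for `‖η‖ ≥ R = 2‖θ‖ + 1`:
`‖Nm D θ η‖ = ‖η^D - θ^D‖/‖η - θ‖ ≥ (‖η‖^D - ‖θ‖^D)/(2‖η‖) ≥ ‖η‖^(D-1)/4`.
-/

set_option autoImplicit false

namespace Pool.Agent.RHU

open Complex Finset Filter Topology

theorem nm_mul (k : ℕ) (θ η : ℂ) : (θ - η) * Nm k θ η = θ ^ k - η ^ k := by
  rw [mul_comm]
  exact (Commute.all θ η).geom_sum₂_mul k

theorem nm_zero_left {k : ℕ} (hk : 0 < k) (η : ℂ) : Nm k 0 η = η ^ (k - 1) := by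
  unfold Nm
  rw [Finset.sum_eq_single 0]
  · simp
  · intro i _ hi
    rw [zero_pow hi, zero_mul]
  · intro h
    exact absurd (Finset.mem_range.2 hk) h

private theorem nm_self {D : ℕ} (hD : 0 < D) {θ : ℂ} (hθ : θ ≠ 0) : Nm D θ θ ≠ 0 := by
  have h : Nm D θ θ = D * θ ^ (D - 1) := by
    unfold Nm
    rw [Finset.sum_congr rfl (g := fun _ => θ ^ (D - 1))]
    · simp
    · intro i hi
      rw [Finset.mem_range] at hi
      rw [← pow_add]
      congr 1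
      omega
  rw [h]
  exact mul_ne_zero (Nat.cast_ne_zero.2 hD.ne') (pow_ne_zero _ hθ)

private theorem nm_ne' {D : ℕ} (hD : 0 < D) {θ : ℂ} (hθ : θ ≠ 0) (h1 : |arg θ| < Real.pi / D)
    {r a : ℝ} (hr : 0 ≤ r) (h2 : |a| ≤ Real.pi / D) : Nm D θ (r * cexp (a * I)) ≠ 0 := by
  have hDR : (0 : ℝ) < D := by exact_mod_cast hD
  have hpi := Real.pi_pos
  intro h0
  have h3 : θ ^ D = (r * cexp (a * I)) ^ D := by
    have := nm_mul D θ (r * cexp (a * I))
    rw [h0, mul_zero] at this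
    exact sub_eq_zero.1 this.symm
  have hnη : ‖(r : ℂ) * cexp (a * I)‖ = r := by
    rw [norm_mul, Complex.norm_exp_ofReal_mul_I, mul_one, Complex.norm_real, Real.norm_eq_abs,
      abs_of_nonneg hr]
  have h4 : ‖θ‖ = r := by
    have h5 := congrArg norm h3
    rw [norm_pow, norm_pow, hnη] at h5
    exact (pow_left_inj₀ (norm_nonneg _) hr hD.ne').1 h5
  have hr0 : 0 < r := by
    rw [← h4]
    exact norm_pos_iff.2 hθ
  have hθe : (r : ℂ) * cexp (arg θ * I) = θ := by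
    rw [← h4]
    exact Complex.norm_mul_exp_arg_mul_I θ
  have h6 : cexp (((D * arg θ : ℝ) : ℂ) * I) = cexp (((D * a : ℝ) : ℂ) * I) := by
    have hp : ∀ x : ℝ, ((r : ℂ) * cexp (x * I)) ^ D = (r : ℂ) ^ D * cexp (((D * x : ℝ) : ℂ) * I) := by
      intro x
      rw [mul_pow, ← Complex.exp_nat_mul]
      congr 2
      push_cast
      ring
    have h7 : (r : ℂ) ^ D * cexp (((D * arg θ : ℝ) : ℂ) * I) =
        (r : ℂ) ^ D * cexp (((D * a : ℝ) : ℂ) * I) := by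
      rw [← hp, ← hp, hθe]
      exact h3
    exact mul_left_cancel₀ (pow_ne_zero _ (Complex.ofReal_ne_zero.2 hr0.ne')) h7
  rw [Complex.exp_eq_exp_iff_exists_int] at h6
  obtain ⟨n, hn⟩ := h6
  have h8 : D * arg θ = D * a + n * (2 * Real.pi) := by
    have h9 := congrArg Complex.im hn
    simpa using h9
  have h9 : n = 0 := by
    have e : (n : ℝ) * (2 * Real.pi) = D * arg θ - D * a := by linarith
    have a1 : |D * arg θ| < Real.pi := by
      rw [abs_mul, abs_of_pos hDR]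
      rw [lt_div_iff₀ hDR] at h1
      linarith
    have a2 : |D * a| ≤ Real.pi := by
      rw [abs_mul, abs_of_pos hDR]
      rw [le_div_iff₀ hDR] at h2
      linarith
    have h10 : |(n : ℝ) * (2 * Real.pi)| < 2 * Real.pi := by
      rw [e]
      have := abs_sub (D * arg θ) (D * a)
      linarith
    rw [abs_mul, abs_of_pos (by positivity : (0 : ℝ) < 2 * Real.pi)] at h10
    have h11 : |(n : ℝ)| < 1 := by
      by_contra hc
      push Not at hc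
      have : 1 * (2 * Real.pi) ≤ |(n : ℝ)| * (2 * Real.pi) := by gcongr
      linarith
    have h12 : |n| < 1 := by exact_mod_cast h11
    exact Int.abs_lt_one_iff.1 h12
  have h10 : arg θ = a := by
    rw [h9] at h8
    simp only [Int.cast_zero, zero_mul, add_zero] at h8
    exact mul_left_cancel₀ hDR.ne' h8
  rw [← h10, hθe] at h0
  exact nm_self hD hθ h0

theorem nm_ne {D : ℕ} (hD : 0 < D) {θ η : ℂ} (hθ : θ ≠ 0) (h1 : |arg θ| < Real.pi / D)
    (h2 : |arg η| ≤ Real.pi / D) : Nm D θ η ≠ 0 := by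
  have h := nm_ne' hD hθ h1 (norm_nonneg η) h2
  rwa [Complex.norm_mul_exp_arg_mul_I] at h

theorem nm_lower {D : ℕ} (hD : 0 < D) {θ : ℂ} (hθ : θ ≠ 0) (h1 : |arg θ| < Real.pi / D) :
    ∃ c : ℝ, 0 < c ∧ ∀ η : ℂ, |arg η| ≤ Real.pi / D → c * max 1 ‖η‖ ^ (D - 1) ≤ ‖Nm D θ η‖ := by
  have hpi := Real.pi_pos
  set R : ℝ := 2 * ‖θ‖ + 1 with hR
  have hR1 : 1 ≤ R := by
    have := norm_nonneg θ
    linarith
  have hcomp : IsCompact (Set.Icc (0 : ℝ) R ×ˢ Set.Icc (-(Real.pi / D)) (Real.pi / D)) :=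
    isCompact_Icc.prod isCompact_Icc
  have hne : (Set.Icc (0 : ℝ) R ×ˢ Set.Icc (-(Real.pi / D)) (Real.pi / D)).Nonempty := by
    refine ⟨(0, 0), ⟨le_rfl, by linarith⟩, ?_, ?_⟩
    · show -(Real.pi / D) ≤ 0
      have : 0 ≤ Real.pi / D := by positivity
      linarith
    · show 0 ≤ Real.pi / D
      positivity
  have hcont : Continuous fun p : ℝ × ℝ => ‖Nm D θ ((p.1 : ℂ) * cexp (p.2 * I))‖ := by
    unfold Nm
    fun_prop
  obtain ⟨p, hp, hmin⟩ := hcomp.exists_isMinOn hne hcont.continuousOn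
  set m : ℝ := ‖Nm D θ ((p.1 : ℂ) * cexp (p.2 * I))‖ with hm
  have hm0 : 0 < m := by
    rw [hm]
    exact norm_pos_iff.2 (nm_ne' hD hθ h1 hp.1.1 (abs_le.2 hp.2))
  refine ⟨min (m / R ^ (D - 1)) (1 / 4), lt_min (by positivity) (by norm_num), fun η hη => ?_⟩
  rcases le_or_gt ‖η‖ R with hle | hgt
  · have h3 : m ≤ ‖Nm D θ η‖ := by
      have h4 := hmin (a := (‖η‖, arg η)) ⟨⟨norm_nonneg _, hle⟩, abs_le.1 hη⟩
      have h5 : m ≤ ‖Nm D θ ((‖η‖ : ℂ) * cexp (arg η * I))‖ := h4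
      rwa [Complex.norm_mul_exp_arg_mul_I] at h5
    calc min (m / R ^ (D - 1)) (1 / 4) * max 1 ‖η‖ ^ (D - 1) ≤ m / R ^ (D - 1) * R ^ (D - 1) := by
          gcongr
          · exact min_le_left _ _
          · exact max_le hR1 hle
      _ = m := div_mul_cancel₀ _ (by positivity)
      _ ≤ ‖Nm D θ η‖ := h3
  · have hη1 : 1 < ‖η‖ := by linarith
    have hmax : max 1 ‖η‖ = ‖η‖ := max_eq_right hη1.le
    rw [hmax]
    have hθη : ‖θ‖ ≤ ‖η‖ / 2 := by linarith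
    have e1 : ‖θ - η‖ * ‖Nm D θ η‖ = ‖θ ^ D - η ^ D‖ := by
      rw [← norm_mul, nm_mul]
    have e2 : ‖θ - η‖ ≤ 2 * ‖η‖ := by
      have := norm_sub_le θ η
      have := norm_nonneg θ
      linarith
    have e3 : ‖η‖ ^ D / 2 ≤ ‖θ ^ D - η ^ D‖ := by
      have h6 : ‖η ^ D‖ - ‖θ ^ D‖ ≤ ‖η ^ D - θ ^ D‖ := norm_sub_norm_le _ _
      rw [norm_sub_rev] at h6
      rw [norm_pow, norm_pow] at h6
      have h7 : ‖θ‖ ^ D ≤ ‖η‖ ^ D / 2 := by
        calc ‖θ‖ ^ D ≤ (‖η‖ / 2) ^ D := by gcongr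
          _ = ‖η‖ ^ D * (1 / 2) ^ D := by rw [div_pow, one_div, inv_pow, div_eq_mul_inv]
          _ ≤ ‖η‖ ^ D * (1 / 2) ^ 1 := by
            gcongr ‖η‖ ^ D * ?_
            exact pow_le_pow_of_le_one (by norm_num) (by norm_num) hD
          _ = ‖η‖ ^ D / 2 := by ring
      linarith
    have e4 : ‖η‖ ^ D = ‖η‖ ^ (D - 1) * ‖η‖ := by
      rw [← pow_succ]
      congr 1
      omega
    have hη0 : 0 < ‖η‖ := by linarith
    have e5 : ‖η‖ ^ (D - 1) / 4 ≤ ‖Nm D θ η‖ := by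
      have h8 : ‖η‖ ^ (D - 1) * ‖η‖ / 2 ≤ 2 * ‖η‖ * ‖Nm D θ η‖ := by
        calc ‖η‖ ^ (D - 1) * ‖η‖ / 2 = ‖η‖ ^ D / 2 := by rw [e4]
          _ ≤ ‖θ ^ D - η ^ D‖ := e3
          _ = ‖θ - η‖ * ‖Nm D θ η‖ := e1.symm
          _ ≤ 2 * ‖η‖ * ‖Nm D θ η‖ := by gcongr
      have h9 : ‖η‖ * (‖η‖ ^ (D - 1) / 4) ≤ ‖η‖ * ‖Nm D θ η‖ := by linarith
      exact le_of_mul_le_mul_left h9 hη0
    calc min (m / R ^ (D - 1)) (1 / 4) * ‖η‖ ^ (D - 1) ≤ 1 / 4 * ‖η‖ ^ (D - 1) := by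
          gcongr
          exact min_le_right _ _
      _ ≤ ‖Nm D θ η‖ := by linarith

theorem norm_nm_le (k : ℕ) (θ : ℂ) : ∃ M : ℝ, ∀ η : ℂ, ‖Nm k θ η‖ ≤ M * max 1 ‖η‖ ^ (k - 1) := by
  refine ⟨∑ i ∈ range k, ‖θ‖ ^ i, fun η => ?_⟩
  unfold Nm
  refine (norm_sum_le _ _).trans ?_
  rw [Finset.sum_mul]
  refine Finset.sum_le_sum fun i _ => ?_
  rw [norm_mul, norm_pow, norm_pow]
  have h1 : (1 : ℝ) ≤ max 1 ‖η‖ := le_max_left _ _
  have h2 : ‖η‖ ^ (k - 1 - i) ≤ max 1 ‖η‖ ^ (k - 1) :=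
    (pow_le_pow_left₀ (norm_nonneg _) (le_max_right _ _) _).trans
      (pow_le_pow_right₀ h1 (Nat.sub_le _ _))
  gcongr

/-- `arg` of the boundary values -/
theorem arg_etaB {D : ℕ} (hD : 0 < D) {σ ρ : ℝ} (hσ : σ = 1 ∨ σ = -1) :
    |arg (etaB D σ ρ)| ≤ Real.pi / D := by
  have hD1 : (1 : ℝ) ≤ D := by exact_mod_cast hD
  have hD0 : (0 : ℝ) < D := by linarith
  have hpi := Real.pi_pos
  have hp : Real.pi / D ≤ Real.pi := div_le_self hpi.le hD1
  unfold etaB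
  split_ifs with h
  · have hc : 0 < (ρ ^ D - 1) ^ ((D : ℝ)⁻¹) := by
      apply Real.rpow_pos_of_pos
      have := one_lt_pow₀ h hD.ne'
      linarith
    rw [Complex.arg_real_mul _ hc]
    rcases Nat.lt_or_ge 1 D with h2 | h2
    · have hD2 : (1 : ℝ) < D := by exact_mod_cast h2
      have hp' : Real.pi / D < Real.pi := div_lt_self hpi hD2
      have e : -(σ * Real.pi * I / D : ℂ) = ((-(σ * Real.pi / D) : ℝ) : ℂ) * I := by
        push_cast
        ring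
      have hab : |(-(σ * Real.pi / D) : ℝ)| = Real.pi / D := by
        rw [abs_neg]
        rcases hσ with rfl | rfl
        · rw [one_mul, abs_of_pos (by positivity)]
        · rw [neg_one_mul, neg_div, abs_neg, abs_of_pos (by positivity)]
      have hlt := abs_lt.1 (hab.le.trans_lt hp')
      rw [e, Complex.arg_exp_mul_I, toIocMod_eq_self (hp := Real.two_pi_pos) |>.2]
      · exact hab.le
      · exact ⟨hlt.1, by linarith [hlt.2]⟩
    · have h3 : D = 1 := by omega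
      rw [h3]
      simp only [Nat.cast_one, div_one]
      exact Complex.abs_arg_le_pi _
  · unfold eta
    by_cases hw : (1 - (ρ : ℂ) ^ D) = 0
    · have h0 : ((D : ℂ)⁻¹) ≠ 0 := inv_ne_zero (Nat.cast_ne_zero.2 hD.ne')
      rw [hw, Complex.zero_cpow h0, Complex.arg_zero, abs_zero]
      positivity
    · have him : (Complex.log (1 - (ρ : ℂ) ^ D) * (D : ℂ)⁻¹).im = arg (1 - (ρ : ℂ) ^ D) / D := by
        have : (D : ℂ)⁻¹ = (((D : ℝ)⁻¹ : ℝ) : ℂ) := by push_cast; rfl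
        rw [this, mul_comm, Complex.im_ofReal_mul, Complex.log_im]
        ring
      have h3 : -Real.pi < arg (1 - (ρ : ℂ) ^ D) / D := by
        have h4 := Complex.neg_pi_lt_arg (1 - (ρ : ℂ) ^ D)
        rw [lt_div_iff₀ hD0]
        nlinarith
      have h5 : arg (1 - (ρ : ℂ) ^ D) / D ≤ Real.pi := by
        have h4 := Complex.arg_le_pi (1 - (ρ : ℂ) ^ D)
        rw [div_le_iff₀ hD0]
        nlinarith
      rw [Complex.cpow_def_of_ne_zero hw, Complex.arg_exp, him,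
        toIocMod_eq_self (hp := Real.two_pi_pos) |>.2]
      · rw [abs_div, abs_of_pos hD0]
        exact div_le_div_of_nonneg_right (Complex.abs_arg_le_pi _) hD0.le
      · exact ⟨h3, by linarith⟩

end Pool.Agent.RHU
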