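import Pool.Agent.RHU.Defs

/-!
# RHU: the Poincaré series (definitions)

`κ` a finite type, `v : κ → ι → ℂ` generators of a lattice, `χ` a unitary semicharacter on `κ → ℤ` which
is trivial on the relations. `vec v p = ∑ p_j v_j`. `Lt v` the lattice. `PS` the Poincaré series.
-/

set_option autoImplicit false

namespace Pool.Agent.RHU

open Complex ComplexConjugate Finset

noncomputable section

/-- `∑ p_j v_j` -/
def vec {ι κ : Type} [Fintype κ] (v : κ → ι → ℂ) (p : κ → ℤ) : ι → ℂ :=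
  fun i => ∑ j, (p j : ℂ) * v j i

/-- the lattice -/
def Lt {ι κ : Type} [Fintype κ] (v : κ → ι → ℂ) : Set (ι → ℂ) := Set.range (vec v)

/-- the data -/
structure PD (ι κ : Type) [Fintype ι] [Fintype κ] [DecidableEq ι] [DecidableEq κ] where
  c : ι → ℝ
  hc : ∀ i, 0 < c i
  v : κ → ι → ℂ
  χ : (κ → ℤ) → ℂ
  nχ : ∀ p, ‖χ p‖ = 1
  hχ : ∀ p q, χ (p + q) = χ p * χ q * cexp (Real.pi * I * ((Hh c (vec v p) (vec v q)).im : ℝ))
  hE : ∀ p q, ∃ n : ℤ, (Hh c (vec v p) (vec v q)).im = n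
  hk : ∀ p, vec v p = 0 → χ p = 1
  nd : ∀ u : ι → ℂ, (∀ j, (Hh c u (v j)).im = 0) → u = 0

variable {ι κ : Type} [Fintype ι] [Fintype κ] [DecidableEq ι] [DecidableEq κ]

/-- the semicharacter on the lattice -/
def PD.e (d : PD ι κ) (l : Lt d.v) : ℂ := d.χ (Classical.choose l.2)

/-- the terms of the Poincaré series -/
def PD.tm (d : PD ι κ) (y u : ι → ℂ) (l : Lt d.v) : ℂ :=
  conj (d.e l) * cexp (-(Real.pi * Hh d.c u l) - Real.pi / 2 * Hh d.c l l +
    Real.pi * Hh d.c (u + l) y)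

/-- the Poincaré series -/
def PD.PS (d : PD ι κ) (y u : ι → ℂ) : ℂ := ∑' l : Lt d.v, d.tm y u l

end

end Pool.Agent.RHU
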