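import Pool.Agent.RHU.PoiDefs

/-!
# RHU-PoiSum: convergence of the Poincaré series
-/

set_option autoImplicit false

namespace Pool.Agent.RHU

open Complex ComplexConjugate Finset

variable {ι κ : Type} [Fintype ι] [Fintype κ] [DecidableEq ι] [DecidableEq κ]

omit [Fintype ι] [DecidableEq ι] [DecidableEq κ] in
private theorem ps_vec_sub (v : κ → ι → ℂ) (p q : κ → ℤ) :
    vec v (p - q) = vec v p - vec v q := by
  funext i
  simp only [vec, Pi.sub_apply, Int.cast_sub, sub_mul, Finset.sum_sub_distrib]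

omit [Fintype ι] [DecidableEq ι] in
private theorem ps_vec_single (v : κ → ι → ℂ) (j : κ) : vec v (Pi.single j 1) = v j := by
  funext i
  unfold vec
  rw [Finset.sum_eq_single j]
  · simp
  · intro k _ hk
    rw [Pi.single_eq_of_ne hk]
    simp
  · intro h
    exact absurd (Finset.mem_univ j) h

theorem PD.e_eq (d : PD ι κ) (l : Lt d.v) (p : κ → ℤ) (h : vec d.v p = l) : d.e l = d.χ p := by
  have hq : vec d.v (Classical.choose l.2) = l := Classical.choose_spec l.2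
  unfold PD.e
  set q := Classical.choose l.2 with hqd
  have h0 : vec d.v (p - q) = 0 := by rw [ps_vec_sub, h, hq, sub_self]
  have h1 := d.hχ q (p - q)
  rw [d.hk _ h0, h0] at h1
  have h2 : Hh d.c (vec d.v q) 0 = 0 := by
    unfold Hh
    simp
  rw [h2] at h1
  have h3 : q + (p - q) = p := by abel
  rw [h3] at h1
  rw [h1]
  simp

omit [DecidableEq ι] in
private theorem ps_im_bound (c : ι → ℝ) (l v : ι → ℂ) :
    (Hh c l v).im ^ 2 ≤ (∑ i, (c i * ‖v i‖) ^ 2) * ∑ i, ‖l i‖ ^ 2 := by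
  have h1 : |(Hh c l v).im| ≤ ∑ i, |c i * ‖v i‖| * ‖l i‖ := by
    calc |(Hh c l v).im| ≤ ‖Hh c l v‖ := Complex.abs_im_le_norm _
      _ ≤ ∑ i, ‖(c i : ℂ) * (l i * conj (v i))‖ := norm_sum_le _ _
      _ = ∑ i, |c i * ‖v i‖| * ‖l i‖ := by
          refine Finset.sum_congr rfl fun i _ => ?_
          rw [norm_mul, norm_mul, Complex.norm_real, Complex.norm_conj, Real.norm_eq_abs, abs_mul,
            abs_of_nonneg (norm_nonneg (v i))]
          ring
  have h2 := Finset.sum_mul_sq_le_sq_mul_sq Finset.univ (fun i => |c i * ‖v i‖|) (fun i => ‖l i‖)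
  have h3 : (Hh c l v).im ^ 2 ≤ (∑ i, |c i * ‖v i‖| * ‖l i‖) ^ 2 := by
    rw [← sq_abs]
    exact pow_le_pow_left₀ (abs_nonneg _) h1 2
  refine h3.trans (h2.trans (le_of_eq ?_))
  congr 1
  refine Finset.sum_congr rfl fun i _ => ?_
  rw [sq_abs]

private theorem ps_pi (g : ℤ → ℝ) (hg : Summable g) (h0 : ∀ m, 0 ≤ g m) :
    ∀ n : ℕ, Summable fun m : Fin n → ℤ => ∏ i, g (m i) := by
  intro n
  induction n with
  | zero => exact (hasSum_fintype _).summable
  | succ n ih =>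
    rw [← (Fin.consEquiv (fun _ : Fin (n + 1) => ℤ)).summable_iff]
    have h1 : ((fun m : Fin (n + 1) → ℤ => ∏ i, g (m i)) ∘
        (Fin.consEquiv (fun _ : Fin (n + 1) => ℤ))) =
        fun x : ℤ × (Fin n → ℤ) => g x.1 * ∏ i, g (x.2 i) := by
      funext x
      simp only [Function.comp_apply, Fin.consEquiv, Equiv.coe_fn_mk]
      rw [Fin.prod_univ_succ]
      rfl
    rw [h1]
    have hf' : (0 : ℤ → ℝ) ≤ g := fun m => h0 m
    have hg' : (0 : (Fin n → ℤ) → ℝ) ≤ fun m : Fin n → ℤ => ∏ i, g (m i) :=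
      fun m => Finset.prod_nonneg fun i _ => h0 _
    exact Summable.mul_of_nonneg (f := g) (g := fun m : Fin n → ℤ => ∏ i, g (m i)) hg ih hf' hg'

private theorem ps_exp (a : ℝ) (ha : 0 < a) : Summable fun m : ℤ => Real.exp (-(a * |(m : ℝ)|)) := by
  have h1 : Summable fun n : ℕ => Real.exp (-(a * n)) := by
    have h2 : (fun n : ℕ => Real.exp (-(a * n))) = fun n : ℕ => (Real.exp (-a)) ^ n := by
      funext n
      rw [← Real.exp_nat_mul]
      congr 1
      ring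
    rw [h2]
    exact summable_geometric_of_lt_one (Real.exp_pos _).le (by rw [Real.exp_lt_one_iff]; linarith)
  refine summable_int_iff_summable_nat_and_neg.2 ⟨?_, ?_⟩
  · refine h1.congr fun n => ?_
    rw [Int.cast_natCast, abs_of_nonneg (Nat.cast_nonneg n)]
  · refine h1.congr fun n => ?_
    rw [Int.cast_neg, Int.cast_natCast, abs_neg, abs_of_nonneg (Nat.cast_nonneg n)]

omit [DecidableEq κ] in
private theorem ps_kappa (g : ℤ → ℝ) (hg : Summable g) (h0 : ∀ m, 0 ≤ g m) :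
    Summable fun m : κ → ℤ => ∏ i, g (m i) := by
  have e := Fintype.equivFin κ
  have h1 := ps_pi g hg h0 (Fintype.card κ)
  rw [← (Equiv.arrowCongr e (Equiv.refl ℤ)).summable_iff] at h1
  refine h1.congr fun m => ?_
  simp only [Function.comp_apply, Equiv.arrowCongr_apply, Equiv.coe_refl, id]
  exact Equiv.prod_comp e.symm (fun i => g (m i))

private theorem ps_sq (n : ℤ) : |(n : ℝ)| ≤ (n : ℝ) ^ 2 := by
  have h : |n| ≤ n ^ 2 := by
    rw [← sq_abs]
    rcases eq_or_ne n 0 with rfl | hn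
    · simp
    · have h1 : 1 ≤ |n| := Int.one_le_abs hn
      nlinarith
  have h2 : ((|n| : ℤ) : ℝ) ≤ ((n ^ 2 : ℤ) : ℝ) := by exact_mod_cast h
  rw [Int.cast_abs, Int.cast_pow] at h2
  exact h2

theorem PD.gauss (d : PD ι κ) {a : ℝ} (ha : 0 < a) :
    Summable (fun l : Lt d.v => Real.exp (-(a * ∑ i, ‖(l : ι → ℂ) i‖ ^ 2))) := by
  have hex : ∀ (l : Lt d.v) (j : κ), ∃ n : ℤ, (Hh d.c (l : ι → ℂ) (d.v j)).im = n := by
    rintro ⟨l, p, rfl⟩ j
    have h := d.hE p (Pi.single j 1)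
    rw [ps_vec_single] at h
    exact h
  choose nn hnn using hex
  have hinj : Function.Injective nn := by
    intro l l' h
    have h1 : (l : ι → ℂ) - (l' : ι → ℂ) = 0 := by
      refine d.nd _ fun j => ?_
      have h2 : Hh d.c ((l : ι → ℂ) - (l' : ι → ℂ)) (d.v j) =
          Hh d.c (l : ι → ℂ) (d.v j) - Hh d.c (l' : ι → ℂ) (d.v j) := by
        unfold Hh
        rw [← Finset.sum_sub_distrib]
        refine Finset.sum_congr rfl fun i _ => ?_
        rw [Pi.sub_apply]; ring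
      rw [h2, Complex.sub_im, hnn, hnn, h, sub_self]
    exact Subtype.ext (sub_eq_zero.1 h1)
  set C : ℝ := 1 + ∑ j, ∑ i, (d.c i * ‖d.v j i‖) ^ 2 with hC
  have hC0 : 0 ≤ ∑ j, ∑ i, (d.c i * ‖d.v j i‖) ^ 2 :=
    Finset.sum_nonneg fun j _ => Finset.sum_nonneg fun i _ => sq_nonneg _
  have hCp : 0 < C := by linarith
  have hsum : ∀ l : Lt d.v, ∑ j, ((nn l j : ℤ) : ℝ) ^ 2 ≤ C * ∑ i, ‖(l : ι → ℂ) i‖ ^ 2 := by
    intro l
    have hs0 : 0 ≤ ∑ i, ‖(l : ι → ℂ) i‖ ^ 2 := Finset.sum_nonneg fun i _ => sq_nonneg _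
    calc ∑ j, ((nn l j : ℤ) : ℝ) ^ 2
        ≤ ∑ j, (∑ i, (d.c i * ‖d.v j i‖) ^ 2) * ∑ i, ‖(l : ι → ℂ) i‖ ^ 2 := by
          refine Finset.sum_le_sum fun j _ => ?_
          rw [← hnn l j]
          exact ps_im_bound d.c l (d.v j)
      _ = (∑ j, ∑ i, (d.c i * ‖d.v j i‖) ^ 2) * ∑ i, ‖(l : ι → ℂ) i‖ ^ 2 := by
          rw [← Finset.sum_mul]
      _ ≤ C * ∑ i, ‖(l : ι → ℂ) i‖ ^ 2 := by
          refine mul_le_mul_of_nonneg_right ?_ hs0
          linarith
  have hg := ps_kappa (κ := κ) (fun m : ℤ => Real.exp (-(a / C * |(m : ℝ)|)))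
    (ps_exp (a / C) (div_pos ha hCp)) (fun m => (Real.exp_pos _).le)
  refine Summable.of_nonneg_of_le (fun l => (Real.exp_pos _).le) (fun l => ?_)
    (hg.comp_injective hinj)
  simp only [Function.comp_apply]
  rw [← Real.exp_sum]
  refine Real.exp_le_exp.2 ?_
  rw [Finset.sum_neg_distrib, neg_le_neg_iff, ← Finset.mul_sum]
  have h1 : ∑ j, |((nn l j : ℤ) : ℝ)| ≤ ∑ j, ((nn l j : ℤ) : ℝ) ^ 2 :=
    Finset.sum_le_sum fun j _ => ps_sq _
  calc a / C * ∑ j, |((nn l j : ℤ) : ℝ)| ≤ a / C * (C * ∑ i, ‖(l : ι → ℂ) i‖ ^ 2) :=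
        mul_le_mul_of_nonneg_left (h1.trans (hsum l)) (div_pos ha hCp).le
    _ = a * ∑ i, ‖(l : ι → ℂ) i‖ ^ 2 := by
        field_simp

omit [DecidableEq ι] in
private theorem ps_re_self (c : ι → ℝ) (l : ι → ℂ) : (Hh c l l).re = ∑ i, c i * ‖l i‖ ^ 2 := by
  unfold Hh
  rw [Complex.re_sum]
  refine Finset.sum_congr rfl fun i _ => ?_
  rw [Complex.re_ofReal_mul, Complex.mul_conj, Complex.ofReal_re, Complex.normSq_eq_norm_sq]

/-- a summable majorant, uniform for bounded `u`, `y` -/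
theorem PD.major (d : PD ι κ) (R : ℝ) : ∃ (A a : ℝ), 0 < a ∧ ∀ (y u : ι → ℂ) (l : Lt d.v),
    ‖y‖ ≤ R → ‖u‖ ≤ R → ‖d.tm y u l‖ ≤ A * Real.exp (-(a * ∑ i, ‖(l : ι → ℂ) i‖ ^ 2)) := by
  set S : ℝ := 1 + ∑ i, 1 / d.c i with hS
  have hS0 : 0 ≤ ∑ i, 1 / d.c i := Finset.sum_nonneg fun i _ => (one_div_pos.2 (d.hc i)).le
  have hSp : 0 < S := by linarith
  have hSi : ∀ i, 1 / S ≤ d.c i := by
    intro i
    have h1 : 1 / d.c i ≤ ∑ i, 1 / d.c i :=
      Finset.single_le_sum (f := fun i => 1 / d.c i) (fun j _ => (one_div_pos.2 (d.hc j)).le)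
        (Finset.mem_univ i)
    have h2 : 1 / d.c i ≤ S := by linarith
    rw [div_le_iff₀ (d.hc i)] at h2
    rw [div_le_iff₀ hSp]
    linarith
  set B : ℝ := 2 * Real.pi * |R| with hB
  refine ⟨Real.exp (∑ i, (d.c i * B ^ 2 / Real.pi + Real.pi * d.c i * |R| ^ 2)),
    Real.pi / 4 / S, by positivity, fun y u l hy hu => ?_⟩
  have hR : ∀ i, ‖y i‖ ≤ |R| := fun i => (norm_le_pi_norm y i).trans (hy.trans (le_abs_self R))
  have hRu : ∀ i, ‖u i‖ ≤ |R| := fun i => (norm_le_pi_norm u i).trans (hu.trans (le_abs_self R))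
  have he : ‖conj (d.e l)‖ = 1 := by
    rw [Complex.norm_conj]
    exact d.nχ _
  unfold PD.tm
  rw [norm_mul, he, one_mul, Complex.norm_exp, ← Real.exp_add]
  refine Real.exp_le_exp.2 ?_
  have h1 : (-(Real.pi * Hh d.c u l) - Real.pi / 2 * Hh d.c l l + Real.pi * Hh d.c (u + l) y).re =
      ∑ i, d.c i * (-(Real.pi * (u i * conj ((l : ι → ℂ) i)).re) - Real.pi / 2 * ‖(l : ι → ℂ) i‖ ^ 2 +
        Real.pi * ((u i + (l : ι → ℂ) i) * conj (y i)).re) := by
    have e1 : (Real.pi / 2 * Hh d.c (l : ι → ℂ) l : ℂ).re = Real.pi / 2 * (Hh d.c (l : ι → ℂ) l).re := by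
      have : (Real.pi / 2 * Hh d.c (l : ι → ℂ) l : ℂ) = ((Real.pi / 2 : ℝ) : ℂ) * Hh d.c (l : ι → ℂ) l := by
        push_cast; ring
      rw [this, Complex.re_ofReal_mul]
    rw [Complex.add_re, Complex.sub_re, Complex.neg_re, e1, Complex.re_ofReal_mul,
      Complex.re_ofReal_mul, ps_re_self]
    unfold Hh
    rw [Complex.re_sum, Complex.re_sum, Finset.mul_sum, Finset.mul_sum, Finset.mul_sum,
      ← Finset.sum_neg_distrib, ← Finset.sum_sub_distrib, ← Finset.sum_add_distrib]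
    refine Finset.sum_congr rfl fun i _ => ?_
    rw [Complex.re_ofReal_mul, Complex.re_ofReal_mul, Pi.add_apply]
    ring
  rw [h1, Finset.mul_sum, ← Finset.sum_neg_distrib, ← Finset.sum_add_distrib]
  refine Finset.sum_le_sum fun i _ => ?_
  have hc := d.hc i
  set x := ‖(l : ι → ℂ) i‖ with hx
  have hx0 : 0 ≤ x := norm_nonneg _
  have hR0 := abs_nonneg R
  have hpi := Real.pi_pos
  have k1 : -((u i * conj ((l : ι → ℂ) i)).re) ≤ |R| * x := by
    calc -((u i * conj ((l : ι → ℂ) i)).re) ≤ |(u i * conj ((l : ι → ℂ) i)).re| := neg_le_abs _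
      _ ≤ ‖u i * conj ((l : ι → ℂ) i)‖ := Complex.abs_re_le_norm _
      _ = ‖u i‖ * x := by rw [norm_mul, Complex.norm_conj]
      _ ≤ |R| * x := mul_le_mul_of_nonneg_right (hRu i) hx0
  have k2 : ((u i + (l : ι → ℂ) i) * conj (y i)).re ≤ (|R| + x) * |R| := by
    calc ((u i + (l : ι → ℂ) i) * conj (y i)).re ≤ |((u i + (l : ι → ℂ) i) * conj (y i)).re| :=
          le_abs_self _
      _ ≤ ‖(u i + (l : ι → ℂ) i) * conj (y i)‖ := Complex.abs_re_le_norm _
      _ = ‖u i + (l : ι → ℂ) i‖ * ‖y i‖ := by rw [norm_mul, Complex.norm_conj]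
      _ ≤ (|R| + x) * |R| := by
          refine mul_le_mul ((norm_add_le _ _).trans ?_) (hR i) (norm_nonneg _) (by positivity)
          have := hRu i
          linarith
  have k3 : -(Real.pi * (u i * conj ((l : ι → ℂ) i)).re) - Real.pi / 2 * x ^ 2 +
        Real.pi * ((u i + (l : ι → ℂ) i) * conj (y i)).re ≤
      (B ^ 2 / Real.pi + Real.pi * |R| ^ 2) - Real.pi / 4 * x ^ 2 := by
    have k4 : B * x ≤ Real.pi / 4 * x ^ 2 + B ^ 2 / Real.pi := by
      have e : Real.pi / 4 * x ^ 2 + B ^ 2 / Real.pi - B * x =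
          (Real.pi * x / 2 - B) ^ 2 / Real.pi := by
        field_simp
        ring
      have : 0 ≤ (Real.pi * x / 2 - B) ^ 2 / Real.pi := by positivity
      linarith
    have k5 := mul_le_mul_of_nonneg_left k1 hpi.le
    have k6 := mul_le_mul_of_nonneg_left k2 hpi.le
    rw [hB] at k4 ⊢
    nlinarith
  have k7 := mul_le_mul_of_nonneg_left k3 hc.le
  have k8 : Real.pi / 4 / S * x ^ 2 ≤ d.c i * (Real.pi / 4 * x ^ 2) := by
    have h9 := hSi i
    have h10 : 0 ≤ Real.pi / 4 * x ^ 2 := by positivity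
    calc Real.pi / 4 / S * x ^ 2 = 1 / S * (Real.pi / 4 * x ^ 2) := by ring
      _ ≤ d.c i * (Real.pi / 4 * x ^ 2) := mul_le_mul_of_nonneg_right h9 h10
  calc _ ≤ d.c i * ((B ^ 2 / Real.pi + Real.pi * |R| ^ 2) - Real.pi / 4 * x ^ 2) := k7
    _ = (d.c i * B ^ 2 / Real.pi + Real.pi * d.c i * |R| ^ 2) - d.c i * (Real.pi / 4 * x ^ 2) := by
        ring
    _ ≤ _ := by linarith

theorem PD.summable_tm (d : PD ι κ) (y u : ι → ℂ) : Summable (d.tm y u) := by
  obtain ⟨A, a, ha, h⟩ := d.major (max ‖y‖ ‖u‖)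
  exact Summable.of_norm_bounded ((d.gauss ha).mul_left A)
    (fun l => h y u l (le_max_left _ _) (le_max_right _ _))

end Pool.Agent.RHU
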