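import Pool.Agent.RHU.Nma
import Pool.Agent.RHU.CLim

/-!
# RHU-Qan: the kernel `Q(w,z)`: holomorphy, closed form, rotation

PLAN. `η ≠ 0` and `Nm D (eta w) (eta z) ≠ 0` for `w, z ∈ Om D` (`nm_ne`, `arg_eta`).
`Qe_eq` (`θ = eta D w`, `η^D = 1 - z^D`, `X = w^D ≠ Y = z^D`, so `θ ≠ η`):
`Nm k θ η/(η^k Nm D θ η) = (θ^k - η^k)/(η^k (θ^D - η^D)) = ((θ/η)^k - 1)/(Y - X)`, and
`∑_{1≤t<D} z^(t-1) w^(D-t)/(X - Y) = 1/(w-z) - z^(D-1)/(X-Y)`.
`Qe_rot`: `Qe D b (c w) (c z) η c = Qe D b w z η` for `c^D = 1`: `c^(t-1) c^(D-t) c = 1`, `Cc_rot` with `D - t`: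
`c^t`, `Fe`: `c^(D-1-t)`.
`Qe_cross`: by `Qe_eq` for both sides; `G(w,z,η) = Qe + 1/(z-w) - 1/z
= -X/(z(X-Y)) - ∑_{1≤t<D} z^(t-1) w^(D-t) θ^k η^(-k)/(X-Y) + ∑ ...`; the replacement `w → om^b w`,
`η → om η` multiplies the `t`-th term by `om^(b(D-t)) om^(-k) = om^(-bt-k) = 1` since
`k = kk D b t = -bt mod D`; `Cc(D-t)(om^b w) = (om^b)^t Cc(D-t)(w)` (`D - (D-t) = t`) and
`Fe z (om η) = om^(-rr) Fe z η`, `om^(bt - rr) = 1`. (`eta D (om^b w) = eta D w`.)
-/

set_option autoImplicit false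

namespace Pool.Agent.RHU

open Complex Finset Filter Topology

private theorem qan_ph {D b t : ℕ} (hD : 0 < D) (ht : t ∈ Ph D b) : 0 < t ∧ t < D := by
  unfold Ph at ht
  rw [Finset.mem_filter, Finset.mem_range] at ht
  have h1 : rr D b t < D := Nat.mod_lt _ hD
  omega

private theorem qan_om (D b t : ℕ) (hD : 0 < D) : om D ^ kk D b t * om D ^ (t * b) = 1 := by
  have h0 := om_pow D hD
  have h1 : om D ^ kk D b t = om D ^ (D - (t * b) % D) := by
    unfold kk
    exact (pow_eq_pow_mod _ h0).symm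
  have h2 : om D ^ (t * b) = om D ^ ((t * b) % D) := pow_eq_pow_mod _ h0
  have h3 : (t * b) % D < D := Nat.mod_lt _ hD
  rw [h1, h2, ← pow_add, Nat.sub_add_cancel h3.le, h0]

private theorem qan_rr (D b t : ℕ) (hD : 0 < D) : (om D ^ b) ^ t = om D ^ rr D b t := by
  have h2 : om D ^ (t * b) = om D ^ ((t * b) % D) := pow_eq_pow_mod _ (om_pow D hD)
  rw [← pow_mul, mul_comm b t, h2]
  rfl

private theorem qan_kk (D b t : ℕ) (hD : 0 < D) (ht : t ≤ D) :
    (om D ^ b) ^ (D - t) = om D ^ kk D b t := by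
  have h0 := om_pow D hD
  have h1 := qan_om D b t hD
  have h2 : (om D ^ b) ^ (D - t) * om D ^ (t * b) = 1 := by
    rw [← pow_mul, ← pow_add]
    have e : b * (D - t) + t * b = D * b := by
      obtain ⟨m, rfl⟩ := Nat.exists_eq_add_of_le ht
      rw [Nat.add_sub_cancel_left]
      ring
    rw [e, pow_mul, h0, one_pow]
  have h3 : om D ^ (t * b) ≠ 0 := by
    intro h
    rw [h, mul_zero] at h1
    exact zero_ne_one h1
  exact mul_right_cancel₀ h3 (h2.trans h1.symm)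

private theorem qan_omne (D : ℕ) (hD : 0 < D) : om D ≠ 0 := by
  intro h
  have h0 := om_pow D hD
  rw [h, zero_pow hD.ne'] at h0
  exact zero_ne_one h0

theorem differentiableOn_Qq {D b : ℕ} (hD : 0 < D) {w : ℂ} (hw : w ∈ Om D) :
    DifferentiableOn ℂ (Qz D b w) (Om D) := by
  have hη := differentiableOn_eta (D := D) hD
  have hN : ∀ k : ℕ, DifferentiableOn ℂ (fun z => Nm k (eta D w) (eta D z)) (Om D) := by
    intro k
    unfold Nm
    refine DifferentiableOn.fun_sum fun i _ => ?_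
    exact (differentiableOn_const _).mul (hη.pow _)
  show DifferentiableOn ℂ (fun z => Qe D b w z (eta D z)) (Om D)
  unfold Qe Qa
  refine DifferentiableOn.add ?_ ?_
  · refine DifferentiableOn.fun_sum fun t _ => ?_
    refine DifferentiableOn.div ?_ ?_ ?_
    · refine DifferentiableOn.mul ?_ (hN _)
      exact (differentiableOn_id.pow _).mul (differentiableOn_const _)
    · exact (hη.pow _).mul (hN _)
    · intro z hz
      exact mul_ne_zero (pow_ne_zero _ (eta_ne hz))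
        (nm_ne hD (eta_ne hw) (arg_eta hD hw) (arg_eta hD hz).le)
  · refine DifferentiableOn.fun_sum fun t _ => ?_
    exact (differentiableOn_const _).mul (differentiableOn_Ft (D := D) (b := b) (t := t) hD)

/-- the kernel `G` of the third kind -/
theorem Qe_eq {D b : ℕ} (hD : 0 < D) {w z η : ℂ} (hw : w ∈ Om D) (hz : z ≠ 0) (hη : η ≠ 0)
    (hη2 : η ^ D = 1 - z ^ D) (hne : w ^ D ≠ z ^ D) :
    Qe D b w z η + 1 / (z - w) - 1 / z = -(w ^ D) / (z * (w ^ D - z ^ D)) -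
      ∑ t ∈ Finset.Ico 1 D, z ^ (t - 1) * w ^ (D - t) * eta D w ^ kk D b t /
        (η ^ kk D b t * (w ^ D - z ^ D)) +
      ∑ t ∈ Ph D b, ((1 - (t : ℂ) / D - (rr D b t : ℂ) / D) / D) * Cc D b (D - t) w *
        Fe D b t z η := by
  have hθ2 : eta D w ^ D = 1 - w ^ D := eta_pow hD w
  have hXY : w ^ D - z ^ D ≠ 0 := sub_ne_zero.2 hne
  have hzw : z ≠ w := fun h => hne (by rw [h])
  have hzw1 : z - w ≠ 0 := sub_ne_zero.2 hzw
  have hwz : w - z ≠ 0 := sub_ne_zero.2 hzw.symm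
  have hd : eta D w ^ D - η ^ D = -(w ^ D - z ^ D) := by
    rw [hθ2, hη2]
    ring
  have hND := nm_mul D (eta D w) η
  rw [hd] at hND
  have hND0 : Nm D (eta D w) η ≠ 0 := by
    intro h
    rw [h, mul_zero] at hND
    exact neg_ne_zero.2 hXY hND.symm
  have hth : eta D w - η ≠ 0 := by
    intro h
    rw [h, zero_mul] at hND
    exact neg_ne_zero.2 hXY hND.symm
  have hterm : ∀ t : ℕ, z ^ (t - 1) * w ^ (D - t) * Nm (kk D b t) (eta D w) η /
      (η ^ kk D b t * Nm D (eta D w) η) =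
      z ^ (t - 1) * w ^ (D - t) / (w ^ D - z ^ D) -
        z ^ (t - 1) * w ^ (D - t) * eta D w ^ kk D b t / (η ^ kk D b t * (w ^ D - z ^ D)) := by
    intro t
    have hk := nm_mul (kk D b t) (eta D w) η
    have hηk : η ^ kk D b t ≠ 0 := pow_ne_zero _ hη
    have e1 : Nm (kk D b t) (eta D w) η = (eta D w ^ kk D b t - η ^ kk D b t) / (eta D w - η) := by
      rw [← hk]
      field_simp
    have e2 : Nm D (eta D w) η = -(w ^ D - z ^ D) / (eta D w - η) := by
      rw [← hND]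
      field_simp
    rw [e1, e2]
    field_simp
    ring
  have hgeo : ∑ t ∈ Finset.Ico 1 D, z ^ (t - 1) * w ^ (D - t) =
      (w ^ D - z ^ D) / (w - z) - z ^ (D - 1) := by
    have h1 : ∑ t ∈ Finset.Ico 1 (D + 1), z ^ (t - 1) * w ^ (D - t) =
        ∑ i ∈ Finset.range D, z ^ i * w ^ (D - 1 - i) := by
      rw [Finset.sum_Ico_eq_sum_range, Nat.add_sub_cancel]
      refine Finset.sum_congr rfl fun i _ => ?_
      have a1 : 1 + i - 1 = i := by omega
      have a2 : D - (1 + i) = D - 1 - i := by omega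
      rw [a1, a2]
    have h2 : ∑ t ∈ Finset.Ico 1 (D + 1), z ^ (t - 1) * w ^ (D - t) =
        ∑ t ∈ Finset.Ico 1 D, z ^ (t - 1) * w ^ (D - t) + z ^ (D - 1) * w ^ (D - D) :=
      Finset.sum_Ico_succ_top hD _
    have h3 := nm_mul D z w
    unfold Nm at h3
    have h4 : ∑ i ∈ Finset.range D, z ^ i * w ^ (D - 1 - i) = (w ^ D - z ^ D) / (w - z) := by
      rw [eq_div_iff hwz]
      linear_combination -h3
    rw [h2, h4, Nat.sub_self, pow_zero, mul_one] at h1
    rw [← h1]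
    ring
  unfold Qe Qa
  rw [Finset.sum_congr rfl fun t _ => hterm t, Finset.sum_sub_distrib, ← Finset.sum_div, hgeo]
  have hpow : z ^ D = z * z ^ (D - 1) := by
    rw [← pow_succ', Nat.sub_add_cancel hD]
  have hfin : ((w ^ D - z ^ D) / (w - z) - z ^ (D - 1)) / (w ^ D - z ^ D) + 1 / (z - w) - 1 / z =
      -(w ^ D) / (z * (w ^ D - z ^ D)) := by
    have hs : 1 / (z - w) = -(1 / (w - z)) := by
      rw [← neg_sub w z, one_div, one_div, inv_neg]
    have h5 : ((w ^ D - z ^ D) / (w - z) - z ^ (D - 1)) / (w ^ D - z ^ D) =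
        1 / (w - z) - z ^ (D - 1) / (w ^ D - z ^ D) := by
      field_simp
    rw [h5, hs]
    have h6 : z ^ (D - 1) / (w ^ D - z ^ D) = z ^ D / (z * (w ^ D - z ^ D)) := by
      rw [hpow, mul_div_mul_left _ _ hz]
    have h7 : 1 / z = (w ^ D - z ^ D) / (z * (w ^ D - z ^ D)) := by
      rw [mul_comm z, div_mul_cancel_left₀ hXY, one_div]
    rw [h6, h7]
    ring
  rw [← hfin]
  ring

theorem Qe_rot {D b : ℕ} (hD : 0 < D) {c : ℂ} (hc : c ^ D = 1) (w z η : ℂ) :
    Qe D b (c * w) (c * z) η * c = Qe D b w z η := by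
  unfold Qe Qa
  rw [eta_rot hc, add_mul, Finset.sum_mul, Finset.sum_mul]
  congr 1
  · refine Finset.sum_congr rfl fun t ht => ?_
    rw [Finset.mem_Ico] at ht
    have e : c ^ (t - 1) * c ^ (D - t) * c = 1 := by
      rw [← pow_add, ← pow_succ, ← hc]
      congr 1
      omega
    rw [mul_pow, mul_pow, div_mul_eq_mul_div]
    congr 1
    linear_combination (z ^ (t - 1) * w ^ (D - t) * Nm (kk D b t) (eta D w) η) * e
  · refine Finset.sum_congr rfl fun t ht => ?_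
    obtain ⟨h0, h1⟩ := qan_ph hD ht
    have e1 : Cc D b (D - t) (c * w) = c ^ t * Cc D b (D - t) w := by
      rw [Cc_rot (by omega) hc]
      congr 2
      omega
    have e2 : Fe D b t (c * z) η = c ^ (D - 1 - t) * Fe D b t z η := by
      unfold Fe
      rw [mul_pow]
      ring
    have e : c ^ t * c ^ (D - 1 - t) * c = 1 := by
      rw [← pow_add, ← pow_succ, ← hc]
      congr 1
      omega
    rw [e1, e2]
    linear_combination (((1 - (t : ℂ) / D - (rr D b t : ℂ) / D) / D) * Cc D b (D - t) w *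
      Fe D b t z η) * e

theorem Qq_rot {D b : ℕ} (hD : 0 < D) {c : ℂ} (hc : c ^ D = 1) (w z : ℂ) :
    Qz D b (c * w) (c * z) * c = Qz D b w z := by
  unfold Qz
  rw [eta_rot hc]
  exact Qe_rot hD hc w z _

/-- the differential `G(w,·)` continues across the cut -/
theorem Qe_cross {D b : ℕ} (hD : 0 < D) {w z η : ℂ} (hw : w ∈ Om D) (hz : z ≠ 0) (hη : η ≠ 0)
    (hη2 : η ^ D = 1 - z ^ D) (hne : w ^ D ≠ z ^ D) :
    Qe D b (om D ^ b * w) z (om D * η) + 1 / (z - om D ^ b * w) =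
      Qe D b w z η + 1 / (z - w) := by
  have hom := om_pow D hD
  have homb : (om D ^ b) ^ D = 1 := by rw [← pow_mul, mul_comm, pow_mul, hom, one_pow]
  have hom0 := qan_omne D hD
  have hX : (om D ^ b * w) ^ D = w ^ D := by rw [mul_pow, homb, one_mul]
  have h1 := Qe_eq (b := b) hD hw hz hη hη2 hne
  have h2 := Qe_eq (b := b) hD (w := om D ^ b * w) (z := z) (η := om D * η)
    ((rot_Om homb).2 hw) hz (mul_ne_zero hom0 hη) (by rw [mul_pow, hom, one_mul, hη2])
    (by rw [hX]; exact hne)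
  rw [hX, eta_rot homb] at h2
  have hA : ∑ t ∈ Finset.Ico 1 D, z ^ (t - 1) * (om D ^ b * w) ^ (D - t) * eta D w ^ kk D b t /
      ((om D * η) ^ kk D b t * (w ^ D - z ^ D)) =
      ∑ t ∈ Finset.Ico 1 D, z ^ (t - 1) * w ^ (D - t) * eta D w ^ kk D b t /
        (η ^ kk D b t * (w ^ D - z ^ D)) := by
    refine Finset.sum_congr rfl fun t ht => ?_
    rw [Finset.mem_Ico] at ht
    have e := qan_kk D b t hD ht.2.le
    have e0 : om D ^ kk D b t ≠ 0 := pow_ne_zero _ hom0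
    rw [mul_pow, mul_pow, e]
    have e1 : z ^ (t - 1) * (om D ^ kk D b t * w ^ (D - t)) * eta D w ^ kk D b t =
        om D ^ kk D b t * (z ^ (t - 1) * w ^ (D - t) * eta D w ^ kk D b t) := by ring
    have e2 : om D ^ kk D b t * η ^ kk D b t * (w ^ D - z ^ D) =
        om D ^ kk D b t * (η ^ kk D b t * (w ^ D - z ^ D)) := by ring
    rw [e1, e2, mul_div_mul_left _ _ e0]
  have hB : ∑ t ∈ Ph D b, ((1 - (t : ℂ) / D - (rr D b t : ℂ) / D) / D) *
      Cc D b (D - t) (om D ^ b * w) * Fe D b t z (om D * η) =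
      ∑ t ∈ Ph D b, ((1 - (t : ℂ) / D - (rr D b t : ℂ) / D) / D) * Cc D b (D - t) w *
        Fe D b t z η := by
    refine Finset.sum_congr rfl fun t ht => ?_
    obtain ⟨h0, h3⟩ := qan_ph hD ht
    have e1 : Cc D b (D - t) (om D ^ b * w) = (om D ^ b) ^ t * Cc D b (D - t) w := by
      rw [Cc_rot (by omega) homb]
      congr 2
      omega
    have e0 : om D ^ rr D b t ≠ 0 := pow_ne_zero _ hom0
    have e2 : om D ^ rr D b t * Fe D b t z (om D * η) = Fe D b t z η := by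
      unfold Fe
      rw [mul_pow, ← mul_div_assoc, mul_div_mul_left _ _ e0]
    rw [e1, qan_rr D b t hD]
    linear_combination (((1 - (t : ℂ) / D - (rr D b t : ℂ) / D) / D) * Cc D b (D - t) w) * e2
  rw [hA, hB] at h2
  linear_combination h2 - h1

theorem QB_lim {D b : ℕ} (hD : 0 < D) {w : ℂ} (hw : w ∈ Om D) {σ ρ : ℝ} (hσ : σ = 1 ∨ σ = -1)
    (hρ : 0 < ρ) (h1 : ρ ≠ 1) :
    Tendsto (Qz D b w) (𝓝[hp σ] (ρ : ℂ)) (𝓝 (QB D b w σ ρ)) := by
  have hz : Tendsto (fun z : ℂ => z) (𝓝[hp σ] (ρ : ℂ)) (𝓝 (ρ : ℂ)) :=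
    tendsto_id.mono_left nhdsWithin_le_nhds
  have hη := eta_lim hD hσ hρ h1
  have hne : etaB D σ ρ ≠ 0 := etaB_ne hD hρ h1
  have hN : ∀ k : ℕ, Tendsto (fun z => Nm k (eta D w) (eta D z)) (𝓝[hp σ] (ρ : ℂ))
      (𝓝 (Nm k (eta D w) (etaB D σ ρ))) := by
    intro k
    unfold Nm
    refine tendsto_finset_sum _ fun i _ => ?_
    exact tendsto_const_nhds.mul (hη.pow _)
  show Tendsto (fun z => Qe D b w z (eta D z)) (𝓝[hp σ] (ρ : ℂ)) (𝓝 (Qe D b w ρ (etaB D σ ρ)))
  unfold Qe Qa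
  refine Tendsto.add ?_ ?_
  · refine tendsto_finset_sum _ fun t _ => ?_
    refine Tendsto.div ?_ ?_ ?_
    · exact ((hz.pow _).mul tendsto_const_nhds).mul (hN _)
    · exact (hη.pow _).mul (hN _)
    · exact mul_ne_zero (pow_ne_zero _ hne)
        (nm_ne hD (eta_ne hw) (arg_eta hD hw) (arg_etaB hD hσ))
  · refine tendsto_finset_sum _ fun t _ => ?_
    refine Tendsto.mul tendsto_const_nhds ?_
    unfold Fe
    exact (tendsto_const_nhds.mul (hz.pow _)).div (hη.pow _) (pow_ne_zero _ hne)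

end Pool.Agent.RHU
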