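import Pool.Agent.RHU.Qan

/-!
# RHU-Qbd: bounds for the kernel

PLAN. Fix `w ∈ Om D`. `arg_eta`, `nm_lower`, `norm_nm_le`: the `t`-th term of `Qa` is at most
`M |z|^(t-1) |η|^(-k) max(1,|η|)^(k-1) / max(1,|η|)^(D-1)` (it is `0` if `k = 0`: `Nm 0 = 0`). For `|z| ≤ R`:
`≤ M |η|^(-k) ≤ M' |1 - |z|^D|^(-k/D)`, `k ≤ D - 1`. For `|z| ≥ 2`: `|η| ≥ |z|/2`, `≥ 1`, so
`≤ M |z|^(t-1) |η|^(-D) ≤ M' |z|^(t-1-D) ≤ M'|z|^(-2)`. The second sum: `norm_Ft_loc`, `norm_Ft_inf` (`t ∈ Ph`: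
exponent `-1 - (t + rr - D) ≤ -2`).
-/

set_option autoImplicit false

namespace Pool.Agent.RHU

open Complex Finset Filter Topology

private theorem qbd_pow {a β u U : ℝ} (ha : a ≤ β) (hb : β - a ≤ 1) (hu : 0 < u) (huU : u ≤ U)
    (hU : 1 ≤ U) : u ^ (-a) ≤ U * u ^ (-β) := by
  have h1 : u ^ (-a) = u ^ (β - a) * u ^ (-β) := by
    rw [← Real.rpow_add hu]
    congr 1
    ring
  rw [h1]
  refine mul_le_mul_of_nonneg_right ?_ (Real.rpow_nonneg hu.le _)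
  calc u ^ (β - a) ≤ U ^ (β - a) := Real.rpow_le_rpow hu.le huU (by linarith)
    _ ≤ U ^ (1 : ℝ) := Real.rpow_le_rpow_of_exponent_le hU hb
    _ = U := Real.rpow_one U

private theorem qbd_sum {α : Type*} (S : Finset ℕ) (f : ℕ → α → ℂ) (P : α → Prop) (X : α → ℝ)
    (h : ∀ t ∈ S, ∃ M : ℝ, ∀ z, P z → ‖f t z‖ ≤ M * X z) :
    ∃ M : ℝ, ∀ z, P z → ‖∑ t ∈ S, f t z‖ ≤ M * X z := by
  classical
  induction S using Finset.induction_on with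
  | empty => exact ⟨0, fun z _ => by simp⟩
  | insert a S ha ih =>
    obtain ⟨M1, h1⟩ := h a (Finset.mem_insert_self a S)
    obtain ⟨M2, h2⟩ := ih fun t ht => h t (Finset.mem_insert_of_mem ht)
    refine ⟨M1 + M2, fun z hz => ?_⟩
    rw [Finset.sum_insert ha, add_mul]
    exact (norm_add_le _ _).trans (add_le_add (h1 z hz) (h2 z hz))

private theorem qbd_term {D b : ℕ} (hD : 0 < D) {w : ℂ} (hw : w ∈ Om D) (t : ℕ) :
    ∃ M : ℝ, 0 ≤ M ∧ ∀ z ∈ Om D,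
      ‖z ^ (t - 1) * w ^ (D - t) * Nm (kk D b t) (eta D w) (eta D z) /
        (eta D z ^ kk D b t * Nm D (eta D w) (eta D z))‖ ≤
      M * ‖z‖ ^ (t - 1) * (max 1 ‖eta D z‖ ^ (kk D b t - 1) /
        (‖eta D z‖ ^ kk D b t * max 1 ‖eta D z‖ ^ (D - 1))) := by
  obtain ⟨c, hc, hlow⟩ := nm_lower hD (eta_ne hw) (arg_eta hD hw)
  obtain ⟨M, hM⟩ := norm_nm_le (kk D b t) (eta D w)
  refine ⟨‖w‖ ^ (D - t) * |M| / c, by positivity, ?_⟩
  intro z hz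
  have hη : 0 < ‖eta D z‖ := norm_pos_iff.2 (eta_ne hz)
  obtain ⟨m, hm⟩ : ∃ m : ℝ, m = max 1 ‖eta D z‖ := ⟨_, rfl⟩
  have hm1 : 1 ≤ m := hm ▸ le_max_left _ _
  have hm0 : 0 < m := lt_of_lt_of_le one_pos hm1
  have h1 : ‖Nm (kk D b t) (eta D w) (eta D z)‖ ≤ |M| * m ^ (kk D b t - 1) := by
    have h := hM (eta D z)
    rw [← hm] at h
    exact h.trans (mul_le_mul_of_nonneg_right (le_abs_self M) (by positivity))
  have h2 : c * m ^ (D - 1) ≤ ‖Nm D (eta D w) (eta D z)‖ := by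
    have h := hlow (eta D z) (arg_eta hD hz).le
    rw [← hm] at h
    exact h
  rw [norm_div, norm_mul, norm_mul, norm_mul, norm_pow, norm_pow, norm_pow, ← hm]
  calc ‖z‖ ^ (t - 1) * ‖w‖ ^ (D - t) * ‖Nm (kk D b t) (eta D w) (eta D z)‖ /
        (‖eta D z‖ ^ kk D b t * ‖Nm D (eta D w) (eta D z)‖)
      ≤ ‖z‖ ^ (t - 1) * ‖w‖ ^ (D - t) * (|M| * m ^ (kk D b t - 1)) /
        (‖eta D z‖ ^ kk D b t * (c * m ^ (D - 1))) := by
        refine div_le_div₀ (by positivity) ?_ (by positivity) ?_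
        · exact mul_le_mul_of_nonneg_left h1 (by positivity)
        · exact mul_le_mul_of_nonneg_left h2 (by positivity)
    _ = ‖w‖ ^ (D - t) * |M| / c * ‖z‖ ^ (t - 1) * (m ^ (kk D b t - 1) /
        (‖eta D z‖ ^ kk D b t * m ^ (D - 1))) := by
        field_simp

private theorem qbd_kk {D b t : ℕ} (hD : 0 < D) : kk D b t < D := Nat.mod_lt _ hD

private theorem qbd_eta {D : ℕ} (hD : 0 < D) (z : ℂ) (h1 : ‖z‖ ≠ 1) (k : ℕ) :
    1 / ‖eta D z‖ ^ k ≤ |1 - ‖z‖ ^ D| ^ (-((k : ℝ) / D)) := by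
  have hu : 0 < |1 - ‖z‖ ^ D| := by
    rw [abs_pos, sub_ne_zero]
    intro h
    exact h1 ((pow_eq_one_iff_of_nonneg (norm_nonneg z) hD.ne').1 h.symm)
  have h2 : |1 - ‖z‖ ^ D| ^ ((D : ℝ)⁻¹) ≤ ‖eta D z‖ := by
    rw [norm_eta hD]
    exact Real.rpow_le_rpow hu.le (abs_one_sub_le D z) (by positivity)
  have h3 : 0 < |1 - ‖z‖ ^ D| ^ ((D : ℝ)⁻¹) := Real.rpow_pos_of_pos hu _
  have h4 : |1 - ‖z‖ ^ D| ^ (-((k : ℝ) / D)) = 1 / (|1 - ‖z‖ ^ D| ^ ((D : ℝ)⁻¹)) ^ k := by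
    clear h2 h3
    generalize |1 - ‖z‖ ^ D| = u at hu ⊢
    rw [← Real.rpow_natCast (u ^ ((D : ℝ)⁻¹)) k, ← Real.rpow_mul hu.le, Real.rpow_neg hu.le, one_div]
    congr 2
    ring
  rw [h4]
  exact one_div_le_one_div_of_le (by positivity) (pow_le_pow_left₀ h3.le h2 k)

private theorem qbd_Qq (D b : ℕ) (w z : ℂ) : Qz D b w z =
    (∑ t ∈ Finset.Ico 1 D, z ^ (t - 1) * w ^ (D - t) * Nm (kk D b t) (eta D w) (eta D z) /
      (eta D z ^ kk D b t * Nm D (eta D w) (eta D z))) +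
    ∑ t ∈ Ph D b, ((1 - (t : ℂ) / D - (rr D b t : ℂ) / D) / D) * Cc D b (D - t) w *
      Ft D b t z := rfl

theorem norm_Qq_loc {D b : ℕ} (hD : 0 < D) {w : ℂ} (hw : w ∈ Om D) (R : ℝ) : ∃ M β : ℝ,
    0 ≤ β ∧ β < 1 ∧ ∀ z ∈ Om D, ‖z‖ ≤ R → ‖z‖ ≠ 1 →
      ‖Qz D b w z‖ ≤ M * |1 - ‖z‖ ^ D| ^ (-β) := by
  have hD0 : (0 : ℝ) < D := by exact_mod_cast hD
  obtain ⟨β, hβ⟩ : ∃ β : ℝ, β = ((D : ℝ) - 1) / D := ⟨_, rfl⟩
  have hβ0 : 0 ≤ β := by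
    rw [hβ]
    have : (1 : ℝ) ≤ D := by exact_mod_cast hD
    exact div_nonneg (by linarith) hD0.le
  have hβ1 : β < 1 := by
    rw [hβ, div_lt_one hD0]
    linarith
  have hexp : ∀ k : ℕ, k < D → (k : ℝ) / D ≤ β ∧ β - (k : ℝ) / D ≤ 1 := by
    intro k hk
    have h1 : (k : ℝ) + 1 ≤ D := by exact_mod_cast hk
    refine ⟨?_, ?_⟩
    · rw [hβ]
      exact div_le_div_of_nonneg_right (by linarith) hD0.le
    · have h2 : 0 ≤ (k : ℝ) / D := by positivity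
      linarith
  have hU : ∀ z : ℂ, ‖z‖ ≤ R → |1 - ‖z‖ ^ D| ≤ 1 + |R| ^ D := by
    intro z hz
    have h1 : ‖z‖ ^ D ≤ |R| ^ D := pow_le_pow_left₀ (norm_nonneg z) (hz.trans (le_abs_self R)) D
    have h2 : 0 ≤ ‖z‖ ^ D := by positivity
    rw [abs_le]
    constructor <;> linarith
  have hU1 : 1 ≤ 1 + |R| ^ D := by
    have : 0 ≤ |R| ^ D := by positivity
    linarith
  have hpos : ∀ z : ℂ, ‖z‖ ≠ 1 → 0 < |1 - ‖z‖ ^ D| := by
    intro z h1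
    rw [abs_pos, sub_ne_zero]
    intro h
    exact h1 ((pow_eq_one_iff_of_nonneg (norm_nonneg z) hD.ne').1 h.symm)
  obtain ⟨M1, h1⟩ := qbd_sum (Finset.Ico 1 D) (fun t z => z ^ (t - 1) * w ^ (D - t) *
    Nm (kk D b t) (eta D w) (eta D z) / (eta D z ^ kk D b t * Nm D (eta D w) (eta D z)))
    (fun z => z ∈ Om D ∧ ‖z‖ ≤ R ∧ ‖z‖ ≠ 1) (fun z => |1 - ‖z‖ ^ D| ^ (-β)) (by
      intro t _
      obtain ⟨M, hM0, hM⟩ := qbd_term (b := b) hD hw t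
      refine ⟨M * |R| ^ (t - 1) * (1 + |R| ^ D), ?_⟩
      rintro z ⟨hz, hzR, hz1⟩
      have hη : 0 < ‖eta D z‖ := norm_pos_iff.2 (eta_ne hz)
      have hm1 : 1 ≤ max 1 ‖eta D z‖ := le_max_left _ _
      have hm0 : 0 < max 1 ‖eta D z‖ := lt_of_lt_of_le one_pos hm1
      have hk := qbd_kk (b := b) (t := t) hD
      have e1 : max 1 ‖eta D z‖ ^ (kk D b t - 1) /
          (‖eta D z‖ ^ kk D b t * max 1 ‖eta D z‖ ^ (D - 1)) ≤ 1 / ‖eta D z‖ ^ kk D b t := by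
        rw [div_le_div_iff₀ (by positivity) (by positivity), one_mul]
        have e2 : max 1 ‖eta D z‖ ^ (kk D b t - 1) ≤ max 1 ‖eta D z‖ ^ (D - 1) :=
          pow_le_pow_right₀ hm1 (by omega)
        calc _ ≤ max 1 ‖eta D z‖ ^ (D - 1) * ‖eta D z‖ ^ kk D b t :=
              mul_le_mul_of_nonneg_right e2 (by positivity)
          _ = _ := mul_comm _ _
      have e3 : 1 / ‖eta D z‖ ^ kk D b t ≤ (1 + |R| ^ D) * |1 - ‖z‖ ^ D| ^ (-β) :=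
        (qbd_eta hD z hz1 _).trans
          (qbd_pow (hexp _ hk).1 (hexp _ hk).2 (hpos z hz1) (hU z hzR) hU1)
      have e4 : ‖z‖ ^ (t - 1) ≤ |R| ^ (t - 1) :=
        pow_le_pow_left₀ (norm_nonneg z) (hzR.trans (le_abs_self R)) _
      calc _ ≤ M * ‖z‖ ^ (t - 1) * (max 1 ‖eta D z‖ ^ (kk D b t - 1) /
            (‖eta D z‖ ^ kk D b t * max 1 ‖eta D z‖ ^ (D - 1))) := hM z hz
        _ ≤ M * |R| ^ (t - 1) * ((1 + |R| ^ D) * |1 - ‖z‖ ^ D| ^ (-β)) :=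
          mul_le_mul (mul_le_mul_of_nonneg_left e4 hM0) (e1.trans e3) (by positivity)
            (by positivity)
        _ = _ := by ring)
  obtain ⟨M2, h2⟩ := qbd_sum (Ph D b) (fun t z => ((1 - (t : ℂ) / D - (rr D b t : ℂ) / D) / D) *
    Cc D b (D - t) w * Ft D b t z)
    (fun z => z ∈ Om D ∧ ‖z‖ ≤ R ∧ ‖z‖ ≠ 1) (fun z => |1 - ‖z‖ ^ D| ^ (-β)) (by
      intro t _
      obtain ⟨M, hM⟩ := norm_Ft_loc (b := b) (t := t) hD R
      refine ⟨‖((1 - (t : ℂ) / D - (rr D b t : ℂ) / D) / D) * Cc D b (D - t) w‖ *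
        (|M| * (1 + |R| ^ D)), ?_⟩
      rintro z ⟨hz, hzR, hz1⟩
      have hk : rr D b t < D := Nat.mod_lt _ hD
      have e3 : |1 - ‖z‖ ^ D| ^ (-((rr D b t : ℝ) / D)) ≤
          (1 + |R| ^ D) * |1 - ‖z‖ ^ D| ^ (-β) :=
        qbd_pow (hexp _ hk).1 (hexp _ hk).2 (hpos z hz1) (hU z hzR) hU1
      rw [norm_mul, mul_assoc]
      refine mul_le_mul_of_nonneg_left ?_ (norm_nonneg _)
      calc ‖Ft D b t z‖ ≤ M * |1 - ‖z‖ ^ D| ^ (-((rr D b t : ℝ) / D)) := hM z hzR hz1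
        _ ≤ |M| * ((1 + |R| ^ D) * |1 - ‖z‖ ^ D| ^ (-β)) :=
          mul_le_mul (le_abs_self M) e3 (Real.rpow_nonneg (abs_nonneg _) _) (abs_nonneg M)
        _ = _ := by ring)
  refine ⟨M1 + M2, β, hβ0, hβ1, ?_⟩
  intro z hz hzR hz1
  rw [qbd_Qq, add_mul]
  exact (norm_add_le _ _).trans (add_le_add (h1 z ⟨hz, hzR, hz1⟩) (h2 z ⟨hz, hzR, hz1⟩))

private theorem qbd_big {D : ℕ} (hD : 0 < D) {z : ℂ} (hz : 2 ≤ ‖z‖) :
    ‖z‖ / 2 ≤ ‖eta D z‖ := by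
  have h1 : (‖z‖ / 2) ^ D ≤ ‖eta D z‖ ^ D := by
    rw [← norm_pow, eta_pow hD]
    have h2 : ‖z‖ ^ D - 1 ≤ ‖1 - z ^ D‖ := by
      have h := norm_sub_norm_le (z ^ D) 1
      rw [norm_pow, norm_one, norm_sub_rev] at h
      exact h
    have h3 : (2 : ℝ) ≤ ‖z‖ ^ D := by
      calc (2 : ℝ) ≤ ‖z‖ ^ 1 := by rw [pow_one]; exact hz
        _ ≤ ‖z‖ ^ D := pow_le_pow_right₀ (by linarith) hD
    have h4 : (‖z‖ / 2) ^ D ≤ ‖z‖ ^ D / 2 := by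
      rw [div_pow]
      have h5 : (2 : ℝ) ≤ 2 ^ D := by
        calc (2 : ℝ) = 2 ^ 1 := (pow_one _).symm
          _ ≤ 2 ^ D := pow_le_pow_right₀ (by norm_num) hD
      exact div_le_div_of_nonneg_left (by positivity) (by norm_num) h5
    linarith
  exact le_of_pow_le_pow_left₀ hD.ne' (norm_nonneg _) h1

theorem norm_Qq_inf {D b : ℕ} (hD : 3 ≤ D) {w : ℂ} (hw : w ∈ Om D) : ∃ M : ℝ,
    ∀ z ∈ Om D, 2 ≤ ‖z‖ → ‖Qz D b w z‖ ≤ M * ‖z‖ ^ (-1 - (1 : ℝ)) := by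
  have hD' : 0 < D := by omega
  have hsq : ∀ z : ℂ, 2 ≤ ‖z‖ → ‖z‖ ^ (-1 - (1 : ℝ)) = 1 / ‖z‖ ^ 2 := by
    intro z hz
    have h0 : 0 < ‖z‖ := by linarith
    rw [show (-1 - (1 : ℝ)) = -((2 : ℕ) : ℝ) by norm_num, Real.rpow_neg h0.le, Real.rpow_natCast,
      one_div]
  obtain ⟨M1, h1⟩ := qbd_sum (Finset.Ico 1 D) (fun t z => z ^ (t - 1) * w ^ (D - t) *
    Nm (kk D b t) (eta D w) (eta D z) / (eta D z ^ kk D b t * Nm D (eta D w) (eta D z)))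
    (fun z => z ∈ Om D ∧ 2 ≤ ‖z‖) (fun z => ‖z‖ ^ (-1 - (1 : ℝ))) (by
      intro t ht
      obtain ⟨M, hM0, hM⟩ := qbd_term (b := b) hD' hw t
      refine ⟨M * 2 ^ D, ?_⟩
      rintro z ⟨hz, hz2⟩
      rw [Finset.mem_Ico] at ht
      have h0 : 0 < ‖z‖ := by linarith
      have hη : 0 < ‖eta D z‖ := norm_pos_iff.2 (eta_ne hz)
      have hbig := qbd_big hD' hz2
      rw [hsq z hz2]
      rcases Nat.eq_zero_or_pos (kk D b t) with hk | hk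
      · have e0 : Nm (kk D b t) (eta D w) (eta D z) = 0 := by
          rw [hk]
          simp [Nm]
        show ‖z ^ (t - 1) * w ^ (D - t) * Nm (kk D b t) (eta D w) (eta D z) /
          (eta D z ^ kk D b t * Nm D (eta D w) (eta D z))‖ ≤ _
        rw [e0, mul_zero, zero_div, norm_zero]
        positivity
      · have hmax : max 1 ‖eta D z‖ = ‖eta D z‖ := max_eq_right (by linarith)
        have h2 := hM z hz
        rw [hmax] at h2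
        have e1 : ‖eta D z‖ ^ (kk D b t - 1) / (‖eta D z‖ ^ kk D b t * ‖eta D z‖ ^ (D - 1)) =
            1 / ‖eta D z‖ ^ D := by
          rw [div_eq_div_iff (by positivity) (by positivity), ← pow_add, ← pow_add, one_mul]
          congr 1
          omega
        rw [e1] at h2
        have e2 : 1 / ‖eta D z‖ ^ D ≤ 2 ^ D / ‖z‖ ^ D := by
          have e3 : (‖z‖ / 2) ^ D ≤ ‖eta D z‖ ^ D := pow_le_pow_left₀ (by positivity) hbig D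
          calc 1 / ‖eta D z‖ ^ D ≤ 1 / (‖z‖ / 2) ^ D :=
                one_div_le_one_div_of_le (by positivity) e3
            _ = 2 ^ D / ‖z‖ ^ D := by rw [div_pow, one_div_div]
        have e4 : ‖z‖ ^ (t - 1) / ‖z‖ ^ D ≤ 1 / ‖z‖ ^ 2 := by
          rw [div_le_div_iff₀ (by positivity) (by positivity), one_mul, ← pow_add]
          exact pow_le_pow_right₀ (by linarith) (by omega)
        calc _ ≤ M * ‖z‖ ^ (t - 1) * (1 / ‖eta D z‖ ^ D) := h2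
          _ ≤ M * ‖z‖ ^ (t - 1) * (2 ^ D / ‖z‖ ^ D) :=
            mul_le_mul_of_nonneg_left e2 (by positivity)
          _ = M * 2 ^ D * (‖z‖ ^ (t - 1) / ‖z‖ ^ D) := by ring
          _ ≤ M * 2 ^ D * (1 / ‖z‖ ^ 2) := mul_le_mul_of_nonneg_left e4 (by positivity))
  obtain ⟨M2, h2⟩ := qbd_sum (Ph D b) (fun t z => ((1 - (t : ℂ) / D - (rr D b t : ℂ) / D) / D) *
    Cc D b (D - t) w * Ft D b t z)
    (fun z => z ∈ Om D ∧ 2 ≤ ‖z‖) (fun z => ‖z‖ ^ (-1 - (1 : ℝ))) (by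
      intro t ht
      obtain ⟨ht1, ht2⟩ := mem_Ph.1 ht
      obtain ⟨M, hM⟩ := norm_Ft_inf (b := b) (t := t) hD' ht1
      refine ⟨‖((1 - (t : ℂ) / D - (rr D b t : ℂ) / D) / D) * Cc D b (D - t) w‖ * |M|, ?_⟩
      rintro z ⟨hz, hz2⟩
      rw [norm_mul, mul_assoc]
      refine mul_le_mul_of_nonneg_left ?_ (norm_nonneg _)
      have e1 : (D : ℝ) + 1 ≤ (t : ℝ) + rr D b t := by exact_mod_cast ht2
      calc ‖Ft D b t z‖ ≤ M * ‖z‖ ^ (-1 - ((t : ℝ) + rr D b t - D)) := hM z hz2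
        _ ≤ |M| * ‖z‖ ^ (-1 - (1 : ℝ)) := by
          refine mul_le_mul (le_abs_self M) ?_ (Real.rpow_nonneg (norm_nonneg _) _) (abs_nonneg M)
          exact Real.rpow_le_rpow_of_exponent_le (by linarith) (by linarith))
  refine ⟨M1 + M2, ?_⟩
  intro z hz hz2
  rw [qbd_Qq, add_mul]
  exact (norm_add_le _ _).trans (add_le_add (h1 z ⟨hz, hz2⟩) (h2 z ⟨hz, hz2⟩))

/-- the primitive of the kernel is bounded -/
theorem prim_Qq_bdd {D b : ℕ} (hD : 3 ≤ D) {w : ℂ} (hw : w ∈ Om D) : ∃ M : ℝ,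
    ∀ z ∈ Om D, ‖Prim (Qz D b w) z‖ ≤ M := by
  have hD' : 0 < D := by omega
  obtain ⟨M1, β, hβ0, hβ1, h1⟩ := norm_Qq_loc (b := b) hD' hw 2
  obtain ⟨M2, h2⟩ := norm_Qq_inf (b := b) hD hw
  refine prim_bdd (M := |M1| + |M2|) (ε := 1) hD' hβ0 hβ1 one_pos
    (differentiableOn_Qq hD' hw).continuousOn ?_ ?_
  · intro z hz hz2 hz1
    refine (h1 z hz hz2 hz1).trans (mul_le_mul_of_nonneg_right ?_
      (Real.rpow_nonneg (abs_nonneg _) _))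
    have := le_abs_self M1
    have := abs_nonneg M2
    linarith
  · intro z hz hz2
    refine (h2 z hz hz2).trans (mul_le_mul_of_nonneg_right ?_
      (Real.rpow_nonneg (norm_nonneg _) _))
    have := le_abs_self M2
    have := abs_nonneg M1
    linarith

end Pool.Agent.RHU
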