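import Pool.Agent.RHU.Star
import Pool.Agent.RHU.EtaLim

/-!
# RHU-RadLim: boundary values of radial primitives

PLAN. `intervalIntegrable_mod`: near `1`, `|1 - ρ^D| ≥ |1 - ρ|` (`D ≥ 1`), `|1-ρ|^(-β)` is integrable
(`intervalIntegral.intervalIntegrable_rpow'`), elsewhere continuous; measurability is clear.
`rad_lim`: for `z ∈ hp σ` near `r` (`z ∈ Om D`) write `z = |z| e`: `Prim φ z = ∫_0^{|z|} φ(s e) e ds`
(`prim_ray`) `= ∫_0^{R'} 1_{s < |z|} φ(s e) e ds`, `r < R' < R`; the integrand is dominated by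
`M |1 - s^D|^(-β)` and tends to `1_{s < r} ψ(s)` for all `s ≠ 1, r` (the point `s e` tends to `s` inside
`hp σ`): dominated convergence (`MeasureTheory.tendsto_integral_filter_of_dominated_convergence`; the filter
`𝓝[hp σ] r` is countably generated; measurability: `s ↦ φ(s e) e` is continuous on `[0, |z|]` as `s e ∈ Om D`).
-/

set_option autoImplicit false

namespace Pool.Agent.RHU

open Complex Finset Filter Topology MeasureTheory

theorem rl_ii_abs {β : ℝ} (hβ : β < 1) (c : ℝ) :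
    IntervalIntegrable (fun x : ℝ => |x| ^ (-β)) volume 0 c := by
  have h1 : ∀ c : ℝ, 0 ≤ c → IntervalIntegrable (fun x : ℝ => |x| ^ (-β)) volume 0 c := by
    intro c hc
    have h := intervalIntegral.intervalIntegrable_rpow' (a := 0) (b := c) (r := -β) (by linarith)
    refine h.congr ?_
    intro x hx
    rw [Set.uIoc_of_le hc] at hx
    show x ^ (-β) = |x| ^ (-β)
    rw [abs_of_pos hx.1]
  rcases le_total 0 c with hc | hc
  · exact h1 c hc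
  · have h2 := h1 (-c) (by linarith)
    have h3 := h2.comp_sub_left 0
    simp only [zero_sub, neg_neg, sub_zero, abs_neg] at h3
    exact h3

theorem rl_abs_le {D : ℕ} (hD : 0 < D) {ρ : ℝ} (hρ : 0 ≤ ρ) : |1 - ρ| ≤ |1 - ρ ^ D| := by
  rcases le_total ρ 1 with h | h
  · have h1 : ρ ^ D ≤ ρ := by
      calc ρ ^ D ≤ ρ ^ 1 := pow_le_pow_of_le_one hρ h hD
        _ = ρ := pow_one ρ
    rw [abs_of_nonneg (by linarith), abs_of_nonneg (by linarith)]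
    linarith
  · have h1 : ρ ≤ ρ ^ D := by
      calc ρ = ρ ^ 1 := (pow_one ρ).symm
        _ ≤ ρ ^ D := pow_le_pow_right₀ h hD
    rw [abs_of_nonpos (by linarith), abs_of_nonpos (by linarith)]
    linarith

theorem rl_meas (D : ℕ) (β : ℝ) : Measurable (fun ρ : ℝ => |1 - ρ ^ D| ^ (-β)) := by
  have h : Measurable (fun ρ : ℝ => |1 - ρ ^ D|) := by
    have : Continuous (fun ρ : ℝ => |1 - ρ ^ D|) := by fun_prop
    exact this.measurable
  exact h.pow_const _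

theorem intervalIntegrable_mod {D : ℕ} (hD : 0 < D) {β : ℝ} (hβ0 : 0 ≤ β) (hβ : β < 1) (a b : ℝ)
    (ha : 0 ≤ a) (hb : 0 ≤ b) :
    IntervalIntegrable (fun ρ : ℝ => |1 - ρ ^ D| ^ (-β)) volume a b := by
  have h0 : IntervalIntegrable (fun x : ℝ => |x| ^ (-β)) volume (1 - a) (1 - b) :=
    (rl_ii_abs hβ (1 - a)).symm.trans (rl_ii_abs hβ (1 - b))
  have h1 := h0.comp_sub_left 1
  rw [sub_sub_cancel, sub_sub_cancel] at h1
  refine h1.mono_fun (rl_meas D β).aestronglyMeasurable ?_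
  rw [Filter.EventuallyLE, MeasureTheory.ae_restrict_iff' measurableSet_uIoc]
  refine Filter.Eventually.of_forall fun ρ hρ => ?_
  have hρ0 : 0 ≤ ρ := by
    rw [Set.mem_uIoc] at hρ
    rcases hρ with h | h
    · exact ha.trans h.1.le
    · exact hb.trans h.1.le
  show ‖|1 - ρ ^ D| ^ (-β)‖ ≤ ‖|1 - ρ| ^ (-β)‖
  rw [Real.norm_of_nonneg (Real.rpow_nonneg (abs_nonneg _) _),
    Real.norm_of_nonneg (Real.rpow_nonneg (abs_nonneg _) _)]
  rcases eq_or_ne ρ 1 with h | h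
  · rw [h, one_pow]
  · exact Real.rpow_le_rpow_of_nonpos (abs_pos.2 (sub_ne_zero.2 (Ne.symm h))) (rl_abs_le hD hρ0)
      (by linarith)

open Classical in
/-- the integrand on the ray through `z`, cut at `‖z‖`, and zero if `z` is not in `Om D` -/
noncomputable def rlG (D : ℕ) (φ : ℂ → ℂ) (z : ℂ) (s : ℝ) : ℂ :=
  Set.indicator {x : ℝ | x ≤ ‖z‖} (fun s : ℝ => if z ∈ Om D then φ (s * (z / ‖z‖)) * (z / ‖z‖) else 0) s

theorem rl_mem {D : ℕ} (hD : 0 < D) {z : ℂ} (hz : z ∈ Om D) (hz0 : z ≠ 0) {s : ℝ} (hs : 0 ≤ s)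
    (hsz : s ≤ ‖z‖) : (s : ℂ) * (z / ‖z‖) ∈ Om D := by
  have hn : 0 < ‖z‖ := norm_pos_iff.2 hz0
  have h1 : (s : ℂ) * (z / ‖z‖) = ((s / ‖z‖ : ℝ) : ℂ) * z := by
    push_cast
    ring
  rw [h1]
  exact star_Om hD z hz _ (div_nonneg hs hn.le) ((div_le_one hn).2 hsz)

theorem rl_norm {z : ℂ} (hz0 : z ≠ 0) {s : ℝ} (hs : 0 ≤ s) : ‖(s : ℂ) * (z / ‖z‖)‖ = s := by
  have hn : ‖z‖ ≠ 0 := norm_ne_zero_iff.2 hz0
  rw [norm_mul, norm_div, Complex.norm_real, Complex.norm_real, norm_norm, div_self hn, mul_one,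
    Real.norm_of_nonneg hs]

theorem rl_norm_e {z : ℂ} (hz0 : z ≠ 0) : ‖z / ‖z‖‖ = 1 := by
  have hn : ‖z‖ ≠ 0 := norm_ne_zero_iff.2 hz0
  rw [norm_div, Complex.norm_real, norm_norm, div_self hn]

theorem rlG_meas {D : ℕ} (hD : 0 < D) {φ : ℂ → ℂ} (hc : ContinuousOn φ (Om D)) (z : ℂ) (R' : ℝ)
    (hR' : 0 ≤ R') :
    AEStronglyMeasurable (rlG D φ z) (volume.restrict (Set.uIoc 0 R')) := by
  rcases eq_or_ne z 0 with h0 | h0
  · subst h0
    have h1 : rlG D φ 0 = fun _ => 0 := by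
      funext s
      unfold rlG
      simp
    rw [h1]
    exact aestronglyMeasurable_const
  · unfold rlG
    by_cases hz : z ∈ Om D
    · simp only [hz, if_true]
      change AEStronglyMeasurable (Set.indicator (Set.Iic ‖z‖)
        (fun s : ℝ => φ (s * (z / ‖z‖)) * (z / ‖z‖))) _
      rw [aestronglyMeasurable_indicator_iff measurableSet_Iic, Set.uIoc_of_le hR',
        Measure.restrict_restrict measurableSet_Iic]
      refine ContinuousOn.aestronglyMeasurable ?_ (measurableSet_Iic.inter measurableSet_Ioc)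
      refine ContinuousOn.mul (hc.comp (by fun_prop) ?_) continuousOn_const
      intro s hs
      exact rl_mem hD hz h0 hs.2.1.le hs.1
    · simp only [hz, if_false]
      have h1 : (fun s : ℝ => Set.indicator {x : ℝ | x ≤ ‖z‖} (fun _ : ℝ => (0:ℂ)) s) =
        fun _ => 0 := by
        funext s
        simp
      rw [h1]
      exact aestronglyMeasurable_const

theorem rlG_bound {D : ℕ} (hD : 0 < D) {φ : ℂ → ℂ} {β M R : ℝ}
    (hM : ∀ z ∈ Om D, ‖z‖ ≤ R → ‖z‖ ≠ 1 → ‖φ z‖ ≤ M * |1 - ‖z‖ ^ D| ^ (-β)) {z : ℂ} {s : ℝ}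
    (hs : 0 < s) (hs1 : s ≠ 1) (hsR : s ≤ R) :
    ‖rlG D φ z s‖ ≤ |M| * |1 - s ^ D| ^ (-β) := by
  have hpos : 0 ≤ |M| * |1 - s ^ D| ^ (-β) :=
    mul_nonneg (abs_nonneg _) (Real.rpow_nonneg (abs_nonneg _) _)
  unfold rlG
  by_cases h1 : s ≤ ‖z‖
  · rw [Set.indicator_of_mem (show s ∈ {x : ℝ | x ≤ ‖z‖} from h1)]
    by_cases hz : z ∈ Om D
    · have h0 : z ≠ 0 := by
        intro h
        rw [h, norm_zero] at h1
        linarith
      simp only [hz, if_true]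
      rw [norm_mul, rl_norm_e h0, mul_one]
      have h2 := hM _ (rl_mem hD hz h0 hs.le h1)
      rw [rl_norm h0 hs.le] at h2
      refine (h2 hsR hs1).trans ?_
      exact mul_le_mul_of_nonneg_right (le_abs_self M) (Real.rpow_nonneg (abs_nonneg _) _)
    · simp only [hz, if_false, norm_zero]
      exact hpos
  · rw [Set.indicator_of_notMem (show s ∉ {x : ℝ | x ≤ ‖z‖} from h1), norm_zero]
    exact hpos

theorem rl_tendsto_e {r σ : ℝ} (hr : 0 < r) :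
    Tendsto (fun z : ℂ => z / (‖z‖ : ℂ)) (𝓝[hp σ] (r : ℂ)) (𝓝 1) := by
  have hn : ((‖(r : ℂ)‖ : ℝ) : ℂ) ≠ 0 := by
    rw [Complex.norm_real, Real.norm_of_nonneg hr.le]
    exact_mod_cast hr.ne'
  have h1 : ContinuousAt (fun z : ℂ => z / (‖z‖ : ℂ)) (r : ℂ) := by
    refine ContinuousAt.div continuousAt_id ?_ hn
    exact (Complex.continuous_ofReal.comp continuous_norm).continuousAt
  have h2 : (r : ℂ) / (‖(r : ℂ)‖ : ℂ) = 1 := by
    rw [Complex.norm_real, Real.norm_of_nonneg hr.le]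
    exact div_self (by exact_mod_cast hr.ne')
  have h3 := h1.tendsto
  rw [h2] at h3
  exact h3.mono_left nhdsWithin_le_nhds

theorem rl_tendsto_n {r σ : ℝ} (hr : 0 < r) :
    Tendsto (fun z : ℂ => ‖z‖) (𝓝[hp σ] (r : ℂ)) (𝓝 r) := by
  have h1 : Tendsto (fun z : ℂ => ‖z‖) (𝓝 (r : ℂ)) (𝓝 ‖(r : ℂ)‖) := continuous_norm.tendsto _
  rw [Complex.norm_real, Real.norm_of_nonneg hr.le] at h1
  exact h1.mono_left nhdsWithin_le_nhds

theorem rlG_tendsto {D : ℕ} (hD : 0 < D) {σ : ℝ} (hσ : σ = 1 ∨ σ = -1) {φ : ℂ → ℂ} {R : ℝ}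
    {ψ : ℝ → ℂ}
    (hl : ∀ ρ : ℝ, 0 < ρ → ρ < R → ρ ≠ 1 → Tendsto φ (𝓝[hp σ] (ρ : ℂ)) (𝓝 (ψ ρ))) {r : ℝ}
    (hr : 0 < r) {s : ℝ} (hs : 0 < s) (hs1 : s ≠ 1) (hsr : s ≠ r) (hsR : s < R) :
    Tendsto (fun z => rlG D φ z s) (𝓝[hp σ] (r : ℂ)) (𝓝 (Set.indicator {x : ℝ | x ≤ r} ψ s)) := by
  rcases lt_or_gt_of_ne hsr with h | h
  · rw [Set.indicator_of_mem (show s ∈ {x : ℝ | x ≤ r} from h.le)]
    have hev : ∀ᶠ z in 𝓝[hp σ] (r : ℂ), s < ‖z‖ := (rl_tendsto_n hr).eventually (lt_mem_nhds h)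
    have h1 : Tendsto (fun z : ℂ => (s : ℂ) * (z / (‖z‖ : ℂ))) (𝓝[hp σ] (r : ℂ))
        (𝓝[hp σ] (s : ℂ)) := by
      refine tendsto_nhdsWithin_iff.2 ⟨?_, ?_⟩
      · have h2 := (rl_tendsto_e (σ := σ) hr).const_mul (s : ℂ)
        rw [mul_one] at h2
        exact h2
      · filter_upwards [hev, self_mem_nhdsWithin] with z hz hzs
        have hn : 0 < ‖z‖ := hs.trans hz
        have h3 : (s : ℂ) * (z / ‖z‖) = ((s / ‖z‖ : ℝ) : ℂ) * z := by
          push_cast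
          ring
        have hzs' : 0 < σ * z.im := hzs
        show 0 < σ * ((s : ℂ) * (z / ‖z‖)).im
        rw [h3, Complex.im_ofReal_mul]
        have h4 : σ * (s / ‖z‖ * z.im) = s / ‖z‖ * (σ * z.im) := by ring
        rw [h4]
        exact mul_pos (div_pos hs hn) hzs'
    have h5 := ((hl s hs hsR hs1).comp h1).mul (rl_tendsto_e (σ := σ) hr)
    rw [mul_one] at h5
    refine h5.congr' ?_
    filter_upwards [hev, eventually_Om hD hσ hr] with z hz hzO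
    unfold rlG
    rw [Set.indicator_of_mem (show s ∈ {x : ℝ | x ≤ ‖z‖} from hz.le)]
    simp only [hzO, if_true]
    rfl
  · rw [Set.indicator_of_notMem (show s ∉ {x : ℝ | x ≤ r} from not_le.2 h)]
    have hev : ∀ᶠ z in 𝓝[hp σ] (r : ℂ), ‖z‖ < s := (rl_tendsto_n hr).eventually (gt_mem_nhds h)
    refine (tendsto_const_nhds (x := (0 : ℂ))).congr' ?_
    filter_upwards [hev] with z hz
    unfold rlG
    rw [Set.indicator_of_notMem (show s ∉ {x : ℝ | x ≤ ‖z‖} from not_le.2 hz)]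

theorem rlG_int {D : ℕ} {φ : ℂ → ℂ} {z : ℂ} (hz : z ∈ Om D) (hz0 : z ≠ 0) {R' : ℝ}
    (hR : ‖z‖ ≤ R') : ∫ s in (0 : ℝ)..R', rlG D φ z s = Prim φ z := by
  have hn : 0 < ‖z‖ := norm_pos_iff.2 hz0
  have h1 : (∫ s in (0 : ℝ)..R', rlG D φ z s) =
      ∫ s in (0 : ℝ)..‖z‖, (fun s : ℝ => φ (s * (z / ‖z‖)) * (z / ‖z‖)) s := by
    rw [← intervalIntegral.integral_indicator (a₂ := ‖z‖) ⟨hn.le, hR⟩]
    unfold rlG
    simp only [hz, if_true]
  rw [h1]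
  rw [← prim_ray φ ‖z‖ hn (z / ‖z‖)]
  congr 1
  have hn' : ((‖z‖ : ℝ) : ℂ) ≠ 0 := by exact_mod_cast hn.ne'
  field_simp

theorem rad_lim {D : ℕ} (hD : 0 < D) {σ : ℝ} (hσ : σ = 1 ∨ σ = -1) {φ : ℂ → ℂ} {β M R : ℝ}
    (hβ0 : 0 ≤ β) (hβ : β < 1) (hc : ContinuousOn φ (Om D))
    (hM : ∀ z ∈ Om D, ‖z‖ ≤ R → ‖z‖ ≠ 1 → ‖φ z‖ ≤ M * |1 - ‖z‖ ^ D| ^ (-β)) {ψ : ℝ → ℂ}
    (hl : ∀ ρ : ℝ, 0 < ρ → ρ < R → ρ ≠ 1 → Tendsto φ (𝓝[hp σ] (ρ : ℂ)) (𝓝 (ψ ρ))) {r : ℝ}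
    (hr : 0 < r) (hR : r < R) :
    Tendsto (Prim φ) (𝓝[hp σ] (r : ℂ)) (𝓝 (∫ ρ in (0 : ℝ)..r, ψ ρ)) := by
  obtain ⟨R', hR'1, hR'2⟩ := exists_between hR
  have hR'0 : 0 ≤ R' := hr.le.trans hR'1.le
  have hlim : Tendsto (fun z => ∫ s in (0 : ℝ)..R', rlG D φ z s) (𝓝[hp σ] (r : ℂ))
      (𝓝 (∫ s in (0 : ℝ)..R', Set.indicator {x : ℝ | x ≤ r} ψ s)) := by
    refine intervalIntegral.tendsto_integral_filter_of_dominated_convergence
      (fun s => |M| * |1 - s ^ D| ^ (-β)) ?_ ?_ ?_ ?_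
    · exact Filter.Eventually.of_forall fun z => rlG_meas hD hc z R' hR'0
    · refine Filter.Eventually.of_forall fun z => ?_
      have hae : ∀ᵐ s : ℝ, s ≠ 1 := by
        rw [ae_iff]
        simp
      filter_upwards [hae] with s hs hsI
      rw [Set.uIoc_of_le hR'0] at hsI
      exact rlG_bound hD hM hsI.1 hs (hsI.2.trans hR'2.le)
    · exact (intervalIntegrable_mod hD hβ0 hβ 0 R' le_rfl hR'0).const_mul _
    · have hae : ∀ᵐ s : ℝ, s ≠ 1 := by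
        rw [ae_iff]
        simp
      have hae2 : ∀ᵐ s : ℝ, s ≠ r := by
        rw [ae_iff]
        simp
      filter_upwards [hae, hae2] with s hs hs2 hsI
      rw [Set.uIoc_of_le hR'0] at hsI
      exact rlG_tendsto hD hσ hl hr hsI.1 hs hs2 (hsI.2.trans_lt hR'2)
  rw [intervalIntegral.integral_indicator (a₂ := r) ⟨hr.le, hR'1.le⟩] at hlim
  refine hlim.congr' ?_
  filter_upwards [eventually_Om hD hσ hr, (rl_tendsto_n (σ := σ) hr).eventually (gt_mem_nhds hR'1),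
    (rl_tendsto_n (σ := σ) hr).eventually (lt_mem_nhds hr)] with z hz h1 h2
  exact rlG_int hz (norm_pos_iff.1 h2) h1.le

/-- the limit function is dominated and integrable -/
theorem rad_int {D : ℕ} (hD : 0 < D) {σ : ℝ} (hσ : σ = 1 ∨ σ = -1) {φ : ℂ → ℂ} {β M R : ℝ}
    (hβ0 : 0 ≤ β) (hβ : β < 1) (hc : ContinuousOn φ (Om D))
    (hM : ∀ z ∈ Om D, ‖z‖ ≤ R → ‖z‖ ≠ 1 → ‖φ z‖ ≤ M * |1 - ‖z‖ ^ D| ^ (-β)) {ψ : ℝ → ℂ}
    (hl : ∀ ρ : ℝ, 0 < ρ → ρ < R → ρ ≠ 1 → Tendsto φ (𝓝[hp σ] (ρ : ℂ)) (𝓝 (ψ ρ))) {r : ℝ}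
    (hr : 0 < r) (hR : r < R) : IntervalIntegrable ψ volume 0 r := by
  have : (𝓝[hp σ] (r : ℂ)).NeBot := neBot_hp hσ
  have hae : ∀ᵐ s : ℝ, s ≠ 1 := by
    rw [ae_iff]
    simp
  have hae2 : ∀ᵐ s : ℝ, s ≠ r := by
    rw [ae_iff]
    simp
  have hlim : ∀ᵐ s ∂(volume.restrict (Set.uIoc 0 r)),
      Tendsto (fun z => rlG D φ z s) (𝓝[hp σ] (r : ℂ)) (𝓝 (ψ s)) := by
    rw [MeasureTheory.ae_restrict_iff' measurableSet_uIoc]
    filter_upwards [hae, hae2] with s hs hs2 hsI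
    rw [Set.uIoc_of_le hr.le] at hsI
    have h := rlG_tendsto hD hσ hl hr hsI.1 hs hs2 (hsI.2.trans_lt hR)
    rw [Set.indicator_of_mem (show s ∈ {x : ℝ | x ≤ r} from hsI.2)] at h
    exact h
  have hmeas : AEStronglyMeasurable ψ (volume.restrict (Set.uIoc 0 r)) :=
    aestronglyMeasurable_of_tendsto_ae (𝓝[hp σ] (r : ℂ)) (fun z => rlG_meas hD hc z r hr.le) hlim
  refine ((intervalIntegrable_mod hD hβ0 hβ 0 r le_rfl hr.le).const_mul |M|).mono_fun' hmeas ?_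
  have hall : ∀ᵐ s ∂(volume.restrict (Set.uIoc 0 r)), s ≠ 1 ∧ s ∈ Set.uIoc 0 r := by
    rw [MeasureTheory.ae_restrict_iff' measurableSet_uIoc]
    filter_upwards [hae] with s hs hsI
    exact ⟨hs, hsI⟩
  filter_upwards [hlim, hall] with s hs h1
  obtain ⟨h1, h2⟩ := h1
  rw [Set.uIoc_of_le hr.le] at h2
  refine le_of_tendsto hs.norm (Filter.Eventually.of_forall fun z => ?_)
  exact rlG_bound hD hM h2.1 h1 (h2.2.trans hR.le)

end Pool.Agent.RHU
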