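import Pool.Agent.RHU.Sqp
import Pool.Agent.RHU.Lat
import Pool.Agent.RHU.AlgG
import Pool.Agent.RHU.GoodC

/-!
# RHU-RedA: the normalised theorem

PLAN. `G` from `exists_GP`, `s(z) = G.Sg (fun t => ∑ i, if τ i = t then z i else 0)`, `κ i = 2π ga (τ i)`, `N` from
`lattice_emb`. `AlgTay`: `algTay_Sg`. QPn with `e = 1`: given `c` take `p` from `lattice_emb`. Claim: for `t ∈ Ph`,
`(∑ p_j lav_j)_t = Bt t * (N emb D c t)` if `t = τ i` for some `i`, `0` otherwise: the `τ i` are ALL elements of `Ph`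
coprime to `D`: exactly one of `t`, `D - t` of every pair of units lies in `Ph` (`t + rr t ≠ D` for units since
`D ∤ b + 1`; `rr (D-t) = D - rr t`), so there are `φ(D)/2 = g` of them. So with `z' = (Bt (τ i) z_i)`:
the argument of `G.Sg` for `z + N emb` is the argument for `z` plus `∑ p_j lav_j`; `Sg_qp`:
`2π H(u,λ) + π H(λ,λ) = ∑_i 2π ct Bt² (z_i conj μ_i + |μ_i|²/2)`, `ct Bt² = ga`.
-/

set_option autoImplicit false

namespace Pool.Agent.RHU

open Complex ComplexConjugate Finset Pool.Agent.RHK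

/-- the element of the type with index `i` -/
private def ra_t {D b g : ℕ} (τ : Fin g → ℕ) (hτ : ∀ i, τ i ∈ Ph D b) (i : Fin g) : ↥(Ph D b) :=
  ⟨τ i, hτ i⟩

/-- extension by zero -/
private noncomputable def ra_E {D b g : ℕ} (τ : Fin g → ↥(Ph D b)) (x : Fin g → ℂ) :
    ↥(Ph D b) → ℂ := fun t => ∑ i, if τ i = t then x i else 0

private theorem ra_E_add {D b g : ℕ} (τ : Fin g → ↥(Ph D b)) (x y : Fin g → ℂ) :
    ra_E τ (x + y) = ra_E τ x + ra_E τ y := by
  funext t
  unfold ra_E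
  rw [Pi.add_apply, ← Finset.sum_add_distrib]
  refine Finset.sum_congr rfl fun i _ => ?_
  split_ifs
  · rfl
  · rw [add_zero]

private theorem ra_E_at {D b g : ℕ} (τ : Fin g → ↥(Ph D b)) (hinj : Function.Injective τ)
    (x : Fin g → ℂ) (i : Fin g) : ra_E τ x (τ i) = x i := by
  unfold ra_E
  rw [Finset.sum_eq_single i]
  · rw [if_pos rfl]
  · intro j _ hj
    rw [if_neg (fun h => hj (hinj h))]
  · intro h
    exact absurd (Finset.mem_univ i) h

private theorem ra_E_not {D b g : ℕ} (τ : Fin g → ↥(Ph D b)) (x : Fin g → ℂ) (t : ↥(Ph D b))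
    (h : ∀ i, τ i ≠ t) : ra_E τ x t = 0 :=
  Finset.sum_eq_zero fun i _ => if_neg (h i)

private theorem ra_H {D b g : ℕ} (τ : Fin g → ↥(Ph D b)) (hinj : Function.Injective τ)
    (c : ↥(Ph D b) → ℝ) (x y : Fin g → ℂ) :
    Hh c (ra_E τ x) (ra_E τ y) = ∑ i, (c (τ i) : ℂ) * (x i * conj (y i)) := by
  unfold Hh
  have h1 : ∀ t, (c t : ℂ) * (ra_E τ x t * conj (ra_E τ y t)) =
      ∑ i, if τ i = t then (c t : ℂ) * (x i * conj (ra_E τ y t)) else 0 := by
    intro t
    have h2 : ra_E τ x t = ∑ i, if τ i = t then x i else 0 := rfl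
    rw [h2, Finset.sum_mul, Finset.mul_sum]
    refine Finset.sum_congr rfl fun i _ => ?_
    split_ifs
    · rfl
    · rw [zero_mul, mul_zero]
  rw [Finset.sum_congr rfl fun t _ => h1 t, Finset.sum_comm]
  refine Finset.sum_congr rfl fun i _ => ?_
  rw [Finset.sum_ite_eq, if_pos (Finset.mem_univ _), ra_E_at τ hinj]

private theorem ra_card {D b : ℕ} (hD : 3 ≤ D) (hb : 0 < b) (hb2 : b + 1 < D) :
    2 * ((Ph D b).filter (fun t => Nat.Coprime t D)).card = Nat.totient D := by
  have h1 := sum_Ph_real hD hb hb2 (fun t => if Nat.Coprime t D then 1 else 0)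
  have h2 : ∀ t ∈ Ph D b, ((if Nat.Coprime t D then (1 : ℝ) else 0) +
      if Nat.Coprime (D - t) D then 1 else 0) = 2 * if Nat.Coprime t D then 1 else 0 := by
    intro t ht
    have ht1 := Ph_pos ht
    have h3 : Nat.Coprime (D - t) D ↔ Nat.Coprime t D := Nat.coprime_self_sub_left ht1.2.1.le
    by_cases h : Nat.Coprime t D
    · rw [if_pos h, if_pos (h3.2 h)]
      norm_num
    · rw [if_neg h, if_neg (fun h4 => h (h3.1 h4))]
      norm_num
  rw [Finset.sum_congr rfl h2, ← Finset.mul_sum, Finset.sum_boole, Finset.sum_boole,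
    Finset.filter_filter] at h1
  have h4 : ((Finset.Ico 1 D).filter (fun t => (¬ D ∣ t * b ∧ ¬ D ∣ t * (b + 1)) ∧
      Nat.Coprime t D)).card = Nat.totient D := by
    rw [Nat.totient_eq_card_coprime]
    congr 1
    ext t
    simp only [Finset.mem_filter, Finset.mem_Ico, Finset.mem_range]
    constructor
    · rintro ⟨⟨h5, h6⟩, _, h7⟩
      exact ⟨h6, h7.symm⟩
    · rintro ⟨h5, h6⟩
      have h7 : t ≠ 0 := by
        rintro rfl
        rw [Nat.coprime_zero_right] at h6
        omega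
      refine ⟨⟨by omega, h5⟩, ⟨?_, ?_⟩, h6.symm⟩
      · intro h8
        have h9 := h6.dvd_of_dvd_mul_left h8
        have := Nat.le_of_dvd hb h9
        omega
      · intro h8
        have h9 := h6.dvd_of_dvd_mul_left h8
        have := Nat.le_of_dvd (by omega) h9
        omega
  rw [h4] at h1
  exact_mod_cast h1

theorem theta_norm {D b : ℕ} (hD : 3 ≤ D) (hb : 0 < b) (hb2 : b + 1 < D) {g : ℕ} (τ : Fin g → ℕ)
    (hτ : ∀ i, τ i ∈ Ph D b) (hco : ∀ i, Nat.Coprime (τ i) D) (hinj : Function.Injective τ)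
    (hg : 2 * g = Nat.totient D) :
    ∃ (s : (Fin g → ℂ) → ℂ) (N : ℕ), 0 < N ∧ Differentiable ℂ s ∧ (∃ z, s z ≠ 0) ∧ AlgTay s ∧
      ∀ c : ℕ → ℤ, QPn (fun z => s (fun i => Bt D b (τ i) * z i))
        (fun i => 2 * Real.pi * ga D b (τ i)) (fun i => (N : ℂ) * emb D c (τ i)) := by
  obtain ⟨G⟩ := exists_GP hD hb hb2
  obtain ⟨N, hN, hlat⟩ := lattice_emb hD hb (by omega : b < D)
  have hinj' : Function.Injective (ra_t τ hτ) := fun i j h => hinj (congrArg Subtype.val h)
  -- the image of `τ` is the set of units of the type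
  have himg : ∀ t ∈ Ph D b, Nat.Coprime t D → ∃ i, τ i = t := by
    intro t ht hc
    have h1 : (Finset.univ : Finset (Fin g)).image τ ⊆
        (Ph D b).filter (fun t => Nat.Coprime t D) := by
      intro x hx
      rw [Finset.mem_image] at hx
      obtain ⟨i, _, rfl⟩ := hx
      exact Finset.mem_filter.2 ⟨hτ i, hco i⟩
    have h2 : ((Finset.univ : Finset (Fin g)).image τ).card = g := by
      rw [Finset.card_image_of_injective _ hinj, Finset.card_univ, Fintype.card_fin]
    have h3 := Finset.eq_of_subset_of_card_le h1 (by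
      have := ra_card hD hb hb2
      omega)
    have h4 : t ∈ (Finset.univ : Finset (Fin g)).image τ := by
      rw [h3]
      exact Finset.mem_filter.2 ⟨ht, hc⟩
    rw [Finset.mem_image] at h4
    obtain ⟨i, _, hi⟩ := h4
    exact ⟨i, hi⟩
  refine ⟨fun z => G.Sg (ra_E (ra_t τ hτ) z), N, hN, ?_, ⟨0, ?_⟩, ?_, ?_⟩
  · refine G.Sg_diff.comp (g := G.Sg) ?_
    unfold ra_E
    rw [differentiable_pi]
    intro t
    refine Differentiable.fun_sum fun i _ => ?_
    split_ifs
    · fun_prop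
    · fun_prop
  · have h1 : ra_E (ra_t τ hτ) 0 = 0 := by
      funext t
      unfold ra_E
      simp
    show G.Sg (ra_E (ra_t τ hτ) 0) ≠ 0
    rw [h1, G.Sg_zero]
    exact one_ne_zero
  · exact G.algTay_Sg hD hb hb2 (ra_t τ hτ)
  · intro c
    obtain ⟨p, hp⟩ := hlat c
    obtain ⟨u, hu⟩ : ∃ u : Fin g → ℂ, ∀ i, u i = (N : ℂ) * emb D c (τ i) := ⟨_, fun _ => rfl⟩
    have hu' : (fun i => (N : ℂ) * emb D c (τ i)) = u := by
      funext i
      rw [hu]
    rw [hu']
    have hΛ : ∑ j ∈ range D, p j • lav D b j = ra_E (ra_t τ hτ) (fun i => Bt D b (τ i) * u i) := by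
      funext t
      have h1 : (∑ j ∈ range D, p j • lav D b j) t = Bt D b t *
          ((∑ j ∈ range D, (p j : ℂ) * om D ^ ((t : ℕ) * j)) * (om D ^ ((t : ℕ) * b) - 1)) := by
        rw [Finset.sum_apply, Finset.sum_mul, Finset.mul_sum]
        refine Finset.sum_congr rfl fun j _ => ?_
        rw [Pi.smul_apply, zsmul_eq_mul]
        show (p j : ℂ) * (Bt D b t * (om D ^ ((t : ℕ) * j) * (om D ^ ((t : ℕ) * b) - 1))) = _
        ring
      rw [h1, hp t (mem_Ph.1 t.2).1]
      by_cases hc : Nat.Coprime (t : ℕ) D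
      · rw [if_pos hc]
        obtain ⟨i, hi⟩ := himg t t.2 hc
        have h2 : t = ra_t τ hτ i := Subtype.ext hi.symm
        rw [h2, ra_E_at _ hinj', hu]
        rfl
      · rw [if_neg hc, mul_zero, ra_E_not]
        intro i h2
        apply hc
        rw [← h2]
        exact hco i
    refine ⟨1, norm_one, fun z => ?_⟩
    have hz : ra_E (ra_t τ hτ) (fun i => Bt D b (τ i) * (z + u) i) =
        ra_E (ra_t τ hτ) (fun i => Bt D b (τ i) * z i) +
          ra_E (ra_t τ hτ) (fun i => Bt D b (τ i) * u i) := by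
      rw [← ra_E_add]
      congr 1
      funext i
      rw [Pi.add_apply, Pi.add_apply, mul_add]
    show G.Sg (ra_E (ra_t τ hτ) (fun i => Bt D b (τ i) * (z + u) i)) = _
    rw [hz, ← hΛ, G.Sg_qp hD hb hb2 p, hΛ, one_mul]
    congr 2
    rw [ra_H _ hinj', ra_H _ hinj', Finset.mul_sum, Finset.mul_sum, ← Finset.sum_add_distrib]
    refine Finset.sum_congr rfl fun i _ => ?_
    have hB : (Bt D b (τ i) : ℂ) ≠ 0 := by
      exact_mod_cast (Bt_pos (hτ i)).ne'
    have hct : ((cv D b (ra_t τ hτ i) : ℝ) : ℂ) = ga D b (τ i) / (Bt D b (τ i) : ℂ) ^ 2 := by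
      show ((ct D b (τ i) : ℝ) : ℂ) = _
      unfold ct
      push_cast
      rfl
    have hn : ((‖u i‖ ^ 2 / 2 : ℝ) : ℂ) = u i * conj (u i) / 2 := by
      rw [Complex.mul_conj, Complex.normSq_eq_norm_sq]
      push_cast
      rfl
    rw [hct, hn, map_mul, Complex.conj_ofReal]
    show _ = ((2 * Real.pi * ga D b (τ i) : ℝ) : ℂ) * _
    push_cast
    field_simp

end Pool.Agent.RHU
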