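import Pool.Agent.RHU.RedA

/-!
# RHU-RedB: the case `a` prime to `D`

PLAN. `a a' = 1 mod D`, `b' = (a' b) % D`; `0 < b'` (`D ∤ b`), `b' + 1 < D` (`D ∤ a + b`: `a'(a+b) = 1 + b'`).
`τ i = (t i * a) % D`: `(τ b') % D = (t b) % D`, so `τ i ∈ Ph D b'` is `InType`; coprime to `D`; injective.
`Bt D b' (τ i)` is the Gamma quotient. `emb D c (t i) = emb D c' (τ i)` with `c' k = c ((a k) % D)` for `k < D`
(`t j = τ a' j mod D`, substitute `j = a k`).
-/

set_option autoImplicit false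

namespace Pool.Agent.RHU

open Complex ComplexConjugate Finset Pool.Agent.RHK

private theorem rb_exp {D : ℕ} (m : ℕ) :
    cexp (2 * Real.pi * I * (m : ℕ) / D) = ze D ^ m := by
  unfold ze
  rw [← Complex.exp_nat_mul]
  congr 1
  ring

private theorem rb_mod {D : ℕ} (hD : 0 < D) (m : ℕ) : ze D ^ (m % D) = ze D ^ m := by
  conv_rhs => rw [← Nat.div_add_mod m D, pow_add, pow_mul, ze_pow D hD, one_pow, one_mul]

private theorem rb_emb {D a a' : ℕ} (hD : 0 < D) (h1 : a * a' % D = 1 % D) (c : ℕ → ℤ) (t : ℕ) :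
    emb D (fun k => c ((a * k) % D)) ((t * a) % D) = emb D c t := by
  unfold emb
  have h1' : a * a' ≡ 1 [MOD D] := h1
  have h2' : a' * a ≡ 1 [MOD D] := by rw [mul_comm]; exact h1
  refine Finset.sum_nbij' (fun k => (a * k) % D) (fun j => (a' * j) % D) ?_ ?_ ?_ ?_ ?_
  · intro k _
    exact Finset.mem_range.2 (Nat.mod_lt _ hD)
  · intro k _
    exact Finset.mem_range.2 (Nat.mod_lt _ hD)
  · intro k hk
    have h3 : a' * (a * k % D) ≡ k [MOD D] := by
      calc a' * (a * k % D) ≡ a' * (a * k) [MOD D] := (Nat.mod_modEq _ _).mul_left _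
        _ = (a' * a) * k := by ring
        _ ≡ 1 * k [MOD D] := h2'.mul_right _
        _ = k := one_mul k
    show a' * (a * k % D) % D = k
    rw [h3, Nat.mod_eq_of_lt (Finset.mem_range.1 hk)]
  · intro k hk
    have h3 : a * (a' * k % D) ≡ k [MOD D] := by
      calc a * (a' * k % D) ≡ a * (a' * k) [MOD D] := (Nat.mod_modEq _ _).mul_left _
        _ = (a * a') * k := by ring
        _ ≡ 1 * k [MOD D] := h1'.mul_right _
        _ = k := one_mul k
    show a * (a' * k % D) % D = k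
    rw [h3, Nat.mod_eq_of_lt (Finset.mem_range.1 hk)]
  · intro k _
    congr 1
    rw [rb_exp, rb_exp, ← rb_mod hD (t * a % D * k), ← rb_mod hD (t * (a * k % D))]
    congr 1
    have h3 : t * a % D * k ≡ t * (a * k % D) [MOD D] := by
      calc t * a % D * k ≡ t * a * k [MOD D] := (Nat.mod_modEq _ _).mul_right _
        _ = t * (a * k) := by ring
        _ ≡ t * (a * k % D) [MOD D] := (Nat.mod_modEq _ _).symm.mul_left _
    exact h3

theorem theta_unit (D a b g : ℕ) (t : Fin g → ℕ) (hD : 2 < D) (ha : ¬ D ∣ a) (hb : ¬ D ∣ b)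
    (hab : ¬ D ∣ a + b) (hco : Nat.Coprime a D) (hinj : Function.Injective (fun i => t i % D))
    (ht : ∀ i, InType D a b (t i)) (hg : 2 * g = Nat.totient D) :
    ∃ (s : (Fin g → ℂ) → ℂ) (κ v : Fin g → ℝ) (N : ℕ), 0 < N ∧ (∀ i, 0 < κ i) ∧ (∀ i, 0 < v i) ∧
    (∀ i, IsAlgebraic ℚ (κ i / Real.pi)) ∧
    (∀ i, v i = Real.Gamma (1 - ((t i * a) % D : ℕ) / (D : ℝ)) *
      Real.Gamma (1 - ((t i * b) % D : ℕ) / (D : ℝ)) /
      Real.Gamma (2 - ((t i * a) % D : ℕ) / (D : ℝ) - ((t i * b) % D : ℕ) / (D : ℝ))) ∧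
    Differentiable ℂ s ∧ (∃ z, s z ≠ 0) ∧ AlgTay s ∧
    ∀ c : ℕ → ℤ, QPn (fun z => s (fun i => v i * z i)) κ (fun i => (N : ℂ) * emb D c (t i)) := by
  have hD0 : 0 < D := by omega
  obtain ⟨a', ha'⟩ := Nat.exists_mul_mod_eq_one_of_coprime hco (by omega : 1 < D)
  have h1 : a * a' % D = 1 % D := by rw [ha'.2, Nat.mod_eq_of_lt (by omega : 1 < D)]
  have h1' : a * a' ≡ 1 [MOD D] := h1
  have hbb : a * (a' * b % D) ≡ b [MOD D] := by
    calc a * (a' * b % D) ≡ a * (a' * b) [MOD D] := (Nat.mod_modEq _ _).mul_left _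
      _ = (a * a') * b := by ring
      _ ≡ 1 * b [MOD D] := h1'.mul_right _
      _ = b := one_mul b
  obtain ⟨b', hb'⟩ : ∃ b', b' = a' * b % D := ⟨_, rfl⟩
  rw [← hb'] at hbb
  have hb0 : 0 < b' := by
    rcases Nat.eq_zero_or_pos b' with h | h
    · exfalso
      rw [h, mul_zero] at hbb
      exact hb ((Nat.modEq_zero_iff_dvd).1 hbb.symm)
    · exact h
  have hbD : b' < D := by rw [hb']; exact Nat.mod_lt _ hD0
  have hb1 : b' + 1 < D := by
    rcases Nat.lt_or_ge (b' + 1) D with h | h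
    · exact h
    · exfalso
      have h2 : b' + 1 = D := by omega
      apply hab
      have h3 : a * (b' + 1) ≡ a + b [MOD D] := by
        calc a * (b' + 1) = a + a * b' := by ring
          _ ≡ a + b [MOD D] := hbb.add_left a
      rw [h2] at h3
      refine (Nat.modEq_zero_iff_dvd).1 (h3.symm.trans ?_)
      exact (Nat.modEq_zero_iff_dvd).2 (Dvd.intro_left a rfl)
  obtain ⟨τ, hτ⟩ : ∃ τ : Fin g → ℕ, ∀ i, τ i = (t i * a) % D := ⟨_, fun _ => rfl⟩
  have hrr : ∀ i, rr D b' (τ i) = (t i * b) % D := by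
    intro i
    unfold rr
    have h3 : τ i * b' ≡ t i * b [MOD D] := by
      rw [hτ i]
      calc t i * a % D * b' ≡ t i * a * b' [MOD D] := (Nat.mod_modEq _ _).mul_right _
        _ = t i * (a * b') := by ring
        _ ≡ t i * b [MOD D] := hbb.mul_left _
    exact h3
  have hτPh : ∀ i, τ i ∈ Ph D b' := by
    intro i
    rw [mem_Ph, hrr i, hτ i]
    exact ⟨Nat.mod_lt _ hD0, (ht i).2⟩
  have hτco : ∀ i, Nat.Coprime (τ i) D := by
    intro i
    rw [hτ i]
    have h3 : Nat.Coprime (t i * a) D := (ht i).1.mul_left hco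
    have h4 : t i * a % D ≡ t i * a [MOD D] := Nat.mod_modEq _ _
    unfold Nat.Coprime at h3 ⊢
    rw [h4.gcd_eq, h3]
  have hτinj : Function.Injective τ := by
    intro i j hij
    rw [hτ i, hτ j] at hij
    have h3 : t i * a ≡ t j * a [MOD D] := hij
    have h4 : t i ≡ t j [MOD D] := Nat.ModEq.cancel_right_of_coprime
      (by rw [Nat.gcd_comm]; exact hco) h3
    exact hinj h4
  obtain ⟨s, N, hN, hs1, hs2, hs3, hs4⟩ := theta_norm (by omega : 3 ≤ D) hb0 hb1 τ hτPh hτco hτinj hg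
  refine ⟨s, fun i => 2 * Real.pi * ga D b' (τ i), fun i => Bt D b' (τ i), N, hN, fun i => ?_,
    fun i => Bt_pos (hτPh i), fun i => ?_, fun i => ?_, hs1, hs2, hs3, fun c => ?_⟩
  · have := ga_pos (hτPh i)
    have := Real.pi_pos
    positivity
  · have h3 : 2 * Real.pi * ga D b' (τ i) / Real.pi = (2 : ℝ) * ga D b' (τ i) := by
      have := Real.pi_ne_zero
      field_simp
    rw [h3]
    refine IsAlgebraic.mul ?_ (isAlgebraic_ga hD0)
    exact isAlgebraic_algebraMap (2 : ℚ)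
  · show Bt D b' (τ i) = _
    unfold Bt
    rw [hrr i, hτ i]
  · have h3 := hs4 (fun k => c ((a * k) % D))
    have h4 : (fun i => (N : ℂ) * emb D (fun k => c ((a * k) % D)) (τ i)) =
        fun i => (N : ℂ) * emb D c (t i) := by
      funext i
      rw [hτ i, rb_emb hD0 h1]
    rw [h4] at h3
    exact h3

end Pool.Agent.RHU
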