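import Pool.Agent.RHU.RedB

/-!
# RHU-RedC: the final theorem of block III

PLAN. If `a` is prime to `D`: `theta_unit`, `α = 1`. If `b` is: exchange `a`, `b` (everything is symmetric).
If `a + b` is: `e = D - (a+b) % D` is prime to `D`, `e + a + b = 0 mod D`; `D ∤ e + b`. For `t` coprime to `D` the
three residues `ta, tb, te mod D` are nonzero and their sum is `D` or `2D`; it is `2D` iff `InType D a b t` iff
`InType D e b t`. `theta_unit` for `(e, b)`: `v = Γ(1-{te})Γ(1-{tb})/Γ(2-{te}-{tb})`, `2 - {te} - {tb} = {ta}`,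
`2 - {ta} - {tb} = {te}`; `α = Γ(1-{te})Γ({te})/(Γ(1-{ta})Γ({ta})) = sin(π{ta})/sin(π{te})`
(`Real.Gamma_mul_Gamma_one_sub`), algebraic and nonzero (`isAlgebraic_sin`).
-/

set_option autoImplicit false

namespace Pool.Agent.RHU

open Complex ComplexConjugate Finset Pool.Agent.RHK

private theorem redc_intype {D a b t : ℕ} (h : InType D a b t) : InType D b a t :=
  ⟨h.1, by have := h.2; omega⟩

private theorem redc_pos {D a t : ℕ} (ha : ¬ D ∣ a) (ht : Nat.Coprime t D) : 0 < (t * a) % D := by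
  rcases Nat.eq_zero_or_pos ((t * a) % D) with h | h
  · exact absurd (ht.symm.dvd_of_dvd_mul_left (Nat.dvd_of_mod_eq_zero h)) ha
  · exact h

/-- the third residue -/
private theorem redc_sum {D a b t : ℕ} (hD : 2 < D) (ha : ¬ D ∣ a) (hb : ¬ D ∣ b)
    (hab : ¬ D ∣ a + b) (he : ¬ D ∣ D - (a + b) % D) (ht : InType D a b t) :
    (t * a) % D + (t * b) % D + (t * (D - (a + b) % D)) % D = 2 * D := by
  have hD0 : 0 < D := by omega
  have h1 := redc_pos ha ht.1
  have h2 := redc_pos hb ht.1
  have h3 := redc_pos he ht.1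
  have h4 := Nat.mod_lt (t * a) hD0
  have h5 := Nat.mod_lt (t * b) hD0
  have h6 := Nat.mod_lt (t * (D - (a + b) % D)) hD0
  have h7 : D ∣ (t * a) % D + (t * b) % D + (t * (D - (a + b) % D)) % D := by
    have h8 : D ∣ t * a + t * b + t * (D - (a + b) % D) := by
      have h9 : t * a + t * b + t * (D - (a + b) % D) = t * (a + b + (D - (a + b) % D)) := by ring
      rw [h9]
      refine Dvd.dvd.mul_left ?_ t
      have h10 := Nat.mod_lt (a + b) hD0
      have h11 := Nat.div_add_mod (a + b) D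
      refine ⟨(a + b) / D + 1, ?_⟩
      rw [mul_add, mul_one]
      omega
    rw [Nat.dvd_iff_mod_eq_zero] at h8 ⊢
    rw [← h8]
    exact ((Nat.mod_modEq _ _).add (Nat.mod_modEq _ _)).add (Nat.mod_modEq _ _)
  obtain ⟨k, hk⟩ := h7
  have h8 := ht.2
  have h9 : k = 2 := by
    have h10 : k < 3 := by
      by_contra hc
      have : D * 3 ≤ D * k := Nat.mul_le_mul_left D (by omega)
      omega
    have h11 : 1 < k := by
      by_contra hc
      have : D * k ≤ D * 1 := Nat.mul_le_mul_left D (by omega)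
      omega
    omega
  rw [hk, h9, mul_comm]

private theorem redc_sin_pos {D k : ℕ} (hk : 0 < k) (hkD : k < D) :
    0 < Real.sin (Real.pi * ((k : ℝ) / D)) := by
  have hD : (0 : ℝ) < D := by exact_mod_cast (by omega : 0 < D)
  have hk1 : (0 : ℝ) < k := by exact_mod_cast hk
  have hk2 : (k : ℝ) < D := by exact_mod_cast hkD
  refine Real.sin_pos_of_pos_of_lt_pi (mul_pos Real.pi_pos (div_pos hk1 hD)) ?_
  have h1 : (k : ℝ) / D < 1 := (div_lt_one hD).2 hk2
  nlinarith [Real.pi_pos]

private theorem redc_alg {D : ℕ} (hD : 0 < D) (k : ℕ) :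
    IsAlgebraic ℚ (Real.sin (Real.pi * ((k : ℝ) / D))) := by
  have h1 := isAlgebraic_sin hD (k : ℤ)
  have h2 : Real.pi * ((k : ℤ) : ℝ) / D = Real.pi * ((k : ℝ) / D) := by
    push_cast
    ring
  rwa [h2] at h1

private theorem redc_gamma {x y z : ℝ} (hx : 0 < x) (hz : 0 < z)
    (hxyz : x + y + z = 2) (hsx : Real.sin (Real.pi * x) ≠ 0) (hsz : Real.sin (Real.pi * z) ≠ 0) :
    Real.Gamma (1 - z) * Real.Gamma (1 - y) / Real.Gamma (2 - z - y) =
      Real.sin (Real.pi * x) / Real.sin (Real.pi * z) *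
        (Real.Gamma (1 - x) * Real.Gamma (1 - y) / Real.Gamma (2 - x - y)) := by
  have e1 : 2 - z - y = x := by linarith
  have e2 : 2 - x - y = z := by linarith
  rw [e1, e2]
  have gx := Real.Gamma_mul_Gamma_one_sub x
  have gz := Real.Gamma_mul_Gamma_one_sub z
  have px := Real.Gamma_pos_of_pos hx
  have pz := Real.Gamma_pos_of_pos hz
  have gx2 : Real.Gamma (1 - x) = Real.pi / (Real.sin (Real.pi * x) * Real.Gamma x) := by
    rw [eq_div_iff (mul_ne_zero hsx px.ne')]
    rw [eq_div_iff hsx] at gx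
    linear_combination gx
  have gz2 : Real.Gamma (1 - z) = Real.pi / (Real.sin (Real.pi * z) * Real.Gamma z) := by
    rw [eq_div_iff (mul_ne_zero hsz pz.ne')]
    rw [eq_div_iff hsz] at gz
    linear_combination gz
  rw [gx2, gz2]
  have px' := px.ne'
  have pz' := pz.ne'
  field_simp

theorem thetaForm : ThetaForm := by
  intro D a b g t hD hg0 ha hb hab hco hinj ht hg
  have hD0 : 0 < D := by omega
  rcases hco with hco | hco | hco
  · obtain ⟨s, κ, v, N, h1, h2, h3, h4, h5, h6⟩ :=
      theta_unit D a b g t hD ha hb hab hco hinj ht hg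
    refine ⟨s, κ, v, fun _ => 1, N, h1, h2, h3, h4, fun _ => isAlgebraic_one,
      fun _ => one_ne_zero, fun i => ?_, h6⟩
    rw [one_mul]
    exact h5 i
  · obtain ⟨s, κ, v, N, h1, h2, h3, h4, h5, h6⟩ :=
      theta_unit D b a g t hD hb ha (by rwa [add_comm]) hco hinj (fun i => redc_intype (ht i)) hg
    refine ⟨s, κ, v, fun _ => 1, N, h1, h2, h3, h4, fun _ => isAlgebraic_one,
      fun _ => one_ne_zero, fun i => ?_, h6⟩
    rw [one_mul, h5 i, mul_comm (Real.Gamma (1 - ((t i * b) % D : ℕ) / (D : ℝ))), sub_right_comm]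
  · have hm := Nat.mod_lt (a + b) hD0
    have hm2 := Nat.div_add_mod (a + b) D
    have hce : Nat.Coprime (D - (a + b) % D) D := by
      rw [Nat.coprime_comm, Nat.coprime_self_sub_right hm.le, Nat.coprime_comm]
      rw [Nat.Coprime, Nat.gcd_comm] at hco ⊢
      rw [Nat.gcd_comm D, ← Nat.gcd_rec]
      exact hco
    have he : ¬ D ∣ D - (a + b) % D := by
      intro h
      have h1 := Nat.eq_one_of_dvd_coprimes hce h dvd_rfl
      omega
    have heb : ¬ D ∣ (D - (a + b) % D) + b := by
      intro h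
      apply ha
      have h1 : D ∣ ((D - (a + b) % D) + b) + a := by
        refine ⟨(a + b) / D + 1, ?_⟩
        rw [mul_add, mul_one]
        omega
      exact (Nat.dvd_add_right h).1 h1
    have hsum := fun i => redc_sum hD ha hb hab he (ht i)
    obtain ⟨s, κ, v, N, h1, h2, h3, h4, h5, h6⟩ :=
      theta_unit D (D - (a + b) % D) b g t hD he hb heb hce hinj (fun i => ⟨(ht i).1, by
        have h7 := hsum i
        have h8 := Nat.mod_lt (t i * a) hD0
        omega⟩) hg
    have hA := fun i => redc_pos ha (ht i).1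
    have hE := fun i => redc_pos he (ht i).1
    have hA2 := fun i => Nat.mod_lt (t i * a) hD0
    have hE2 := fun i => Nat.mod_lt (t i * (D - (a + b) % D)) hD0
    have sA := fun i => redc_sin_pos (hA i) (hA2 i)
    have sE := fun i => redc_sin_pos (hE i) (hE2 i)
    refine ⟨s, κ, v, fun i => Real.sin (Real.pi * (((t i * a) % D : ℕ) / (D : ℝ))) /
      Real.sin (Real.pi * (((t i * (D - (a + b) % D)) % D : ℕ) / (D : ℝ))), N, h1, h2, h3, h4,
      fun i => ?_, fun i => (div_pos (sA i) (sE i)).ne', fun i => ?_, h6⟩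
    · show IsAlgebraic ℚ (Real.sin (Real.pi * (((t i * a) % D : ℕ) / (D : ℝ))) /
        Real.sin (Real.pi * (((t i * (D - (a + b) % D)) % D : ℕ) / (D : ℝ))))
      rw [div_eq_mul_inv]
      exact (redc_alg hD0 _).mul (redc_alg hD0 _).inv
    · have hDr : (0 : ℝ) < D := by exact_mod_cast hD0
      rw [h5 i]
      refine redc_gamma ?_ ?_ ?_ (sA i).ne' (sE i).ne'
      · exact div_pos (by exact_mod_cast hA i) hDr
      · exact div_pos (by exact_mod_cast hE i) hDr
      · have h7 : (((t i * a) % D : ℕ) : ℝ) + ((t i * b) % D : ℕ) +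
            ((t i * (D - (a + b) % D)) % D : ℕ) = 2 * D := by exact_mod_cast hsum i
        rw [← add_div, ← add_div, h7, mul_div_assoc, div_self hDr.ne', mul_one]

end Pool.Agent.RHU
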