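import Pool.Agent.RHU.NWc
import Pool.Agent.RHT.NFt

/-!
# RHU-Sfn: the function `S`

`S(u) = T(v0+u) T(v0-u)/T(v0)²`, `v0 = Sc G.w`; it satisfies `pd s S = U_s S`,
`U_r(u) = LT r (v0+u) - LT r (v0-u)`.
-/

set_option autoImplicit false

namespace Pool.Agent.RHU

open Complex ComplexConjugate Finset Filter Topology Pool.Agent.RHT Pool.Agent.RHK

noncomputable section

variable {D b : ℕ}

/-- the function `S` -/
def GP.Sg (G : GP D b) (u : ↥(Ph D b) → ℂ) : ℂ :=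
  G.T (fun i => Sc D b G.w i + u i) * G.T (fun i => Sc D b G.w i - u i) / G.T (Sc D b G.w) ^ 2

/-- the affine map `u ↦ v0 + σ u` -/
private def sfnA (G : GP D b) (σ : ℂ) (u : ↥(Ph D b) → ℂ) : ↥(Ph D b) → ℂ :=
  fun i => Sc D b G.w i + σ * u i

private theorem sfnA_zero (G : GP D b) (σ : ℂ) : sfnA G σ 0 = Sc D b G.w := by
  funext i
  simp [sfnA]

private theorem sfnA_deriv (G : GP D b) (σ : ℂ) (u : ↥(Ph D b) → ℂ) :
    HasFDerivAt (sfnA G σ) (σ • ContinuousLinearMap.id ℂ (↥(Ph D b) → ℂ)) u := by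
  rw [hasFDerivAt_pi']
  intro i
  have h1 : HasFDerivAt (fun u : ↥(Ph D b) → ℂ => u i)
      (ContinuousLinearMap.proj (R := ℂ) (φ := fun _ : ↥(Ph D b) => ℂ) i) u :=
    (ContinuousLinearMap.proj (R := ℂ) (φ := fun _ : ↥(Ph D b) => ℂ) i).hasFDerivAt
  exact (h1.const_mul σ).const_add (Sc D b G.w i)

private theorem sfn_T0 (G : GP D b) : G.T (Sc D b G.w) ≠ 0 := G.hw.2.2.1

private theorem sfn_Sg (G : GP D b) (u : ↥(Ph D b) → ℂ) :
    G.Sg u = G.T (sfnA G 1 u) * G.T (sfnA G (-1) u) / G.T (Sc D b G.w) ^ 2 := by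
  have h1 : sfnA G 1 u = fun i => Sc D b G.w i + u i := by
    funext i
    simp [sfnA]
  have h2 : sfnA G (-1) u = fun i => Sc D b G.w i - u i := by
    funext i
    simp [sfnA, sub_eq_add_neg]
  rw [h1, h2]
  rfl

/-- derivative of `f (v0 + σ u)` in the direction `s` -/
private theorem sfn_comp (G : GP D b) (σ : ℂ) {f : (↥(Ph D b) → ℂ) → ℂ} {u : ↥(Ph D b) → ℂ}
    (hf : DifferentiableAt ℂ f (sfnA G σ u)) :
    ∃ L : (↥(Ph D b) → ℂ) →L[ℂ] ℂ, HasFDerivAt (fun u => f (sfnA G σ u)) L u ∧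
      ∀ s : ↥(Ph D b), L (Pi.single s 1) = σ * fderiv ℂ f (sfnA G σ u) (Pi.single s 1) := by
  refine ⟨_, hf.hasFDerivAt.comp u (sfnA_deriv G σ u), fun s => ?_⟩
  simp

private theorem sfn_ev (G : GP D b) (σ : ℂ) : ∀ᶠ u in 𝓝 0, G.T (sfnA G σ u) ≠ 0 := by
  have h1 : ContinuousAt (fun u => G.T (sfnA G σ u)) 0 :=
    ((G.hT.1 _).comp _ (sfnA_deriv G σ 0).differentiableAt).continuousAt
  refine h1.eventually_ne ?_
  show G.T (sfnA G σ 0) ≠ 0
  rw [sfnA_zero]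
  exact sfn_T0 G

theorem GP.Sg_diff (G : GP D b) : Differentiable ℂ G.Sg := by
  intro u
  have h : G.Sg = fun u => (G.T (Sc D b G.w) ^ 2)⁻¹ *
      (G.T (sfnA G 1 u) * G.T (sfnA G (-1) u)) := by
    funext u
    rw [sfn_Sg, div_eq_inv_mul]
  rw [h]
  have h1 : ∀ σ, DifferentiableAt ℂ (fun u => G.T (sfnA G σ u)) u := fun σ =>
    (G.hT.1 _).comp _ (sfnA_deriv G σ u).differentiableAt
  exact ((h1 1).fun_mul (h1 (-1))).const_mul _

theorem GP.Sg_zero (G : GP D b) : G.Sg 0 = 1 := by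
  rw [sfn_Sg, sfnA_zero, sfnA_zero, ← pow_two]
  exact div_self (pow_ne_zero 2 (sfn_T0 G))

private def sfnU (G : GP D b) (r : ↥(Ph D b)) (u : ↥(Ph D b) → ℂ) : ℂ :=
  LT G.T r (sfnA G 1 u) - LT G.T r (sfnA G (-1) u)

private theorem sfn_NFU (hD : 3 ≤ D) (hb : 0 < b) (hb2 : b + 1 < D) (G : GP D b)
    (r : ↥(Ph D b)) : NF 0 (sfnU G r) := by
  have key : ∀ᶠ u in 𝓝 (0 : ↥(Ph D b) → ℂ), ∃ L : (↥(Ph D b) → ℂ) →L[ℂ] ℂ,
      HasFDerivAt (sfnU G r) L u ∧ ∀ s : ↥(Ph D b), L (Pi.single s 1) =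
        PT G.T s r (sfnA G 1 u) + PT G.T s r (sfnA G (-1) u) := by
    filter_upwards [sfn_ev G 1, sfn_ev G (-1)] with u h1 h2
    obtain ⟨L1, a1, a2⟩ := sfn_comp G 1 (differentiableAt_LT G.hT.1 r h1)
    obtain ⟨L2, b1, b2⟩ := sfn_comp G (-1) (differentiableAt_LT G.hT.1 r h2)
    refine ⟨L1 - L2, a1.sub b1, fun s => ?_⟩
    rw [sub_apply, a2, b2]
    unfold PT
    ring
  refine NF_ode _ ?_ ?_ (fun _ _ => 0) (fun _ _ => 0)
    (fun s u => PT G.T s r (sfnA G 1 u) + PT G.T s r (sfnA G (-1) u))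
    (fun _ => NF_const isAlgebraic_zero) (fun _ => NF_const isAlgebraic_zero) (fun s => ?_)
    (fun s => ?_)
  · filter_upwards [key] with u hu
    obtain ⟨L, h1, -⟩ := hu
    exact h1.differentiableAt
  · have h0 : sfnU G r 0 = 0 := by
      unfold sfnU
      rw [sfnA_zero, sfnA_zero, sub_self]
    rw [h0]
    exact isAlgebraic_zero
  · exact (G.NF_PT hD hb hb2 (Or.inl rfl) s r).add (G.NF_PT hD hb hb2 (Or.inr rfl) s r)
  · filter_upwards [key] with u hu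
    obtain ⟨L, h1, h2⟩ := hu
    have h3 : pd s (sfnU G r) u = L (Pi.single s 1) := by
      unfold pd
      rw [h1.fderiv]
    rw [h3, h2]
    ring

theorem GP.NF_Sg (hD : 3 ≤ D) (hb : 0 < b) (hb2 : b + 1 < D) (G : GP D b) : NF 0 G.Sg := by
  refine NF_ode _ (Eventually.of_forall G.Sg_diff) ?_ (fun s => sfnU G s) (fun _ _ => 0)
    (fun _ _ => 0) (fun s => sfn_NFU hD hb hb2 G s) (fun _ => NF_const isAlgebraic_zero)
    (fun _ => NF_const isAlgebraic_zero) (fun s => ?_)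
  · rw [G.Sg_zero]
    exact isAlgebraic_one
  · filter_upwards [sfn_ev G 1, sfn_ev G (-1)] with u h1 h2
    obtain ⟨L1, a1, a2⟩ := sfn_comp G 1 (G.hT.1 (sfnA G 1 u))
    obtain ⟨L2, b1, b2⟩ := sfn_comp G (-1) (G.hT.1 (sfnA G (-1) u))
    have h3 : HasFDerivAt G.Sg ((G.T (Sc D b G.w) ^ 2)⁻¹ •
        (G.T (sfnA G 1 u) • L2 + G.T (sfnA G (-1) u) • L1)) u := by
      have h4 : G.Sg = fun u => (G.T (Sc D b G.w) ^ 2)⁻¹ *
          (G.T (sfnA G 1 u) * G.T (sfnA G (-1) u)) := by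
        funext u
        rw [sfn_Sg, div_eq_inv_mul]
      rw [h4]
      exact (a1.mul b1).const_mul _
    have h4 : pd s G.Sg u = (G.T (Sc D b G.w) ^ 2)⁻¹ *
        (G.T (sfnA G 1 u) * L2 (Pi.single s 1) + G.T (sfnA G (-1) u) * L1 (Pi.single s 1)) := by
      unfold pd
      rw [h3.fderiv]
      rfl
    rw [h4, a2, b2, sfn_Sg]
    unfold sfnU LT
    have h0 := sfn_T0 G
    field_simp
    ring

/-- restriction to a coordinate subspace -/
theorem GP.algTay_Sg (hD : 3 ≤ D) (hb : 0 < b) (hb2 : b + 1 < D) (G : GP D b) {m : ℕ}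
    (τ : Fin m → ↥(Ph D b)) :
    AlgTay (fun z : Fin m → ℂ => G.Sg (fun t => ∑ i, if τ i = t then z i else 0)) := by
  set φ : (Fin m → ℂ) → (↥(Ph D b) → ℂ) := fun z t => ∑ i, if τ i = t then z i else 0 with hφ
  have hd : ∀ (t : ↥(Ph D b)) (z : Fin m → ℂ), HasFDerivAt (fun z => φ z t)
      (∑ i, (if τ i = t then (1 : ℂ) else 0) •
        ContinuousLinearMap.proj (R := ℂ) (φ := fun _ : Fin m => ℂ) i) z := by
    intro t z
    refine HasFDerivAt.fun_sum fun i _ => ?_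
    have h1 : HasFDerivAt (fun z : Fin m → ℂ => z i)
        (ContinuousLinearMap.proj (R := ℂ) (φ := fun _ : Fin m => ℂ) i) z :=
      (ContinuousLinearMap.proj (R := ℂ) (φ := fun _ : Fin m => ℂ) i).hasFDerivAt
    have h2 : (fun z : Fin m → ℂ => if τ i = t then z i else 0) =
        fun z => (if τ i = t then (1 : ℂ) else 0) * z i := by
      funext z
      split_ifs <;> simp
    rw [h2]
    exact h1.const_mul _
  have hφd : Differentiable ℂ φ := fun z =>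
    differentiableAt_pi.2 fun t => (hd t z).differentiableAt
  have hφ0 : φ 0 = 0 := by
    funext t
    simp [hφ]
  refine NF_algTay (G.Sg_diff.comp hφd) ?_
  refine NF_comp φ (Eventually.of_forall hφd) (fun t i _ => if τ i = t then 1 else 0)
    (fun t i => ?_) (fun t i => ?_) ?_
  · refine NF_const ?_
    split_ifs
    · exact isAlgebraic_one
    · exact isAlgebraic_zero
  · refine Eventually.of_forall fun z => ?_
    unfold pd
    rw [(hd t z).fderiv, _root_.sum_apply, Finset.sum_eq_single i]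
    · show (if τ i = t then (1 : ℂ) else 0) * (Pi.single i (1 : ℂ) : Fin m → ℂ) i = _
      rw [Pi.single_eq_same, mul_one]
    · intro j _ hj
      show (if τ j = t then (1 : ℂ) else 0) * (Pi.single i (1 : ℂ) : Fin m → ℂ) j = _
      rw [Pi.single_eq_of_ne hj, mul_zero]
    · intro h
      exact absurd (Finset.mem_univ i) h
  · rw [hφ0]
    exact G.NF_Sg hD hb hb2

end

end Pool.Agent.RHU
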