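import Pool.Agent.RHU.Sfn
import Pool.Agent.RHU.ESum

/-!
# RHU-Sqp: quasi-periodicity of `S`

PLAN. `Sg_qp`: `IsT` for `v0 + u` and for `v0 - u` (write `v0 - (u + λ) + λ = v0 - u`): with `m(x) = chi0 exp(π H(x,λ) + (π/2)H(λ,λ))`:
`T(v0+u+λ) = m(v0+u) T(v0+u)`, `T(v0-u) = m(v0-u-λ) T(v0-u-λ)`, quotient
`m(v0+u)/m(v0-u-λ) = exp(π H(2u+λ,λ)) = exp(2πH(u,λ) + πH(λ,λ))`. For sums of generators: induction
(`p ↦ p + 1`, `p ↦ p - 1` at one place), using that `Im H(λ,λ') ∈ ℤ`?: NOT needed if the set of `λ` with the property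
`∀ u, S(u+λ) = exp(2πH(u,λ)+πH(λ,λ)) S(u)` is shown to be closed under `+` and `-`: for `λ + λ'`:
`exp(2πH(u+λ',λ)+πH(λ,λ)) exp(2πH(u,λ')+πH(λ',λ')) = exp(2πH(u,λ+λ') + πH(λ+λ',λ+λ')) exp(π(H(λ',λ) - H(λ,λ')))` and
`H(λ',λ) - H(λ,λ') = 2i Im H(λ',λ)`, `exp(2πi Im H(λ',λ)) = 1` because `Im H(λ',λ)` is an integer (`im_Hh_lav`,
bilinearity): carry `Im H(λ, λ_j) ∈ ℤ` for all `j` in the induction.
-/

set_option autoImplicit false

namespace Pool.Agent.RHU

open Complex ComplexConjugate Finset Filter Topology Pool.Agent.RHT Pool.Agent.RHK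

noncomputable section

variable {D b : ℕ}

private theorem hh_al {ι : Type} [Fintype ι] (c : ι → ℝ) (u v w : ι → ℂ) :
    Hh c (u + v) w = Hh c u w + Hh c v w := by
  unfold Hh
  rw [← Finset.sum_add_distrib]
  refine Finset.sum_congr rfl fun t _ => ?_
  rw [Pi.add_apply]
  ring

private theorem hh_ar {ι : Type} [Fintype ι] (c : ι → ℝ) (u v w : ι → ℂ) :
    Hh c u (v + w) = Hh c u v + Hh c u w := by
  unfold Hh
  rw [← Finset.sum_add_distrib]
  refine Finset.sum_congr rfl fun t _ => ?_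
  rw [Pi.add_apply, map_add]
  ring

private theorem hh_nl {ι : Type} [Fintype ι] (c : ι → ℝ) (u v : ι → ℂ) :
    Hh c (-u) v = -Hh c u v := by
  unfold Hh
  rw [← Finset.sum_neg_distrib]
  refine Finset.sum_congr rfl fun t _ => ?_
  rw [Pi.neg_apply]
  ring

private theorem hh_nr {ι : Type} [Fintype ι] (c : ι → ℝ) (u v : ι → ℂ) :
    Hh c u (-v) = -Hh c u v := by
  unfold Hh
  rw [← Finset.sum_neg_distrib]
  refine Finset.sum_congr rfl fun t _ => ?_
  rw [Pi.neg_apply, map_neg]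
  ring

private theorem hh_cj {ι : Type} [Fintype ι] (c : ι → ℝ) (u v : ι → ℂ) :
    Hh c v u = conj (Hh c u v) := by
  unfold Hh
  rw [map_sum]
  refine Finset.sum_congr rfl fun t _ => ?_
  rw [map_mul, map_mul, Complex.conj_conj, Complex.conj_ofReal]
  ring

private theorem hh_zr {ι : Type} [Fintype ι] (c : ι → ℝ) (u : ι → ℂ) : Hh c u 0 = 0 := by
  unfold Hh
  simp

private theorem hh_zl {ι : Type} [Fintype ι] (c : ι → ℝ) (u : ι → ℂ) : Hh c 0 u = 0 := by
  unfold Hh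
  simp

/-- the lattice -/
private def LL (D b : ℕ) : AddSubgroup (↥(Ph D b) → ℂ) := AddSubgroup.closure (Set.range (lav D b))

private theorem ll_int (hD : 3 ≤ D) (hb : 0 < b) (hb2 : b + 1 < D) (x y : ↥(Ph D b) → ℂ)
    (hx : x ∈ LL D b) (hy : y ∈ LL D b) : ∃ n : ℤ, (Hh (cv D b) x y).im = n := by
  induction hx using AddSubgroup.closure_induction with
  | mem x hx =>
    obtain ⟨i, rfl⟩ := hx
    induction hy using AddSubgroup.closure_induction with
    | mem y hy =>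
      obtain ⟨j, rfl⟩ := hy
      exact ⟨_, im_Hh_lav hD hb hb2 i j⟩
    | zero => exact ⟨0, by rw [hh_zr]; simp⟩
    | add y z _ _ h1 h2 =>
      obtain ⟨n1, h1⟩ := h1
      obtain ⟨n2, h2⟩ := h2
      exact ⟨n1 + n2, by rw [hh_ar, Complex.add_im, h1, h2]; push_cast; ring⟩
    | neg y _ h1 =>
      obtain ⟨n1, h1⟩ := h1
      exact ⟨-n1, by rw [hh_nr, Complex.neg_im, h1]; push_cast; ring⟩
  | zero => exact ⟨0, by rw [hh_zl]; simp⟩
  | add x z _ _ h1 h2 =>
    obtain ⟨n1, h1⟩ := h1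
    obtain ⟨n2, h2⟩ := h2
    exact ⟨n1 + n2, by rw [hh_al, Complex.add_im, h1, h2]; push_cast; ring⟩
  | neg x _ h1 =>
    obtain ⟨n1, h1⟩ := h1
    exact ⟨-n1, by rw [hh_nl, Complex.neg_im, h1]; push_cast; ring⟩

/-- the factor -/
private def ff (D b : ℕ) (u l : ↥(Ph D b) → ℂ) : ℂ :=
  cexp (2 * Real.pi * Hh (cv D b) u l + Real.pi * Hh (cv D b) l l)

private theorem qq_base (G : GP D b) (j : ℕ) (u : ↥(Ph D b) → ℂ) :
    G.Sg (u + lav D b j) = ff D b u (lav D b j) * G.Sg u := by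
  obtain ⟨_, _, hT⟩ := G.hT
  set v : ↥(Ph D b) → ℂ := Sc D b G.w with hv
  set l : ↥(Ph D b) → ℂ := lav D b j with hl
  have hS : ∀ x, G.Sg x = G.T (v + x) * G.T (v - x) / G.T v ^ 2 := fun x => rfl
  have h1 := hT j (v + u)
  have h2 := hT j (v - (u + l))
  rw [← hl] at h1 h2
  have e1 : v + (u + l) = v + u + l := by abel
  have e2 : v - (u + l) + l = v - u := by abel
  rw [e2] at h2
  rw [hS, hS, e1, h1, h2]
  have e3 : Hh (cv D b) (v + u) l = Hh (cv D b) (v - (u + l)) l + (2 * Hh (cv D b) u l +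
      Hh (cv D b) l l) := by
    have e4 : v + u = (v - (u + l)) + ((u + u) + l) := by abel
    rw [e4, hh_al, hh_al, hh_al]
    ring
  rw [e3]
  unfold ff
  have e5 : cexp (Real.pi * (Hh (cv D b) (v - (u + l)) l + (2 * Hh (cv D b) u l +
      Hh (cv D b) l l)) + Real.pi / 2 * Hh (cv D b) l l) =
      cexp (Real.pi * Hh (cv D b) (v - (u + l)) l + Real.pi / 2 * Hh (cv D b) l l) *
        cexp (2 * Real.pi * Hh (cv D b) u l + Real.pi * Hh (cv D b) l l) := by
    rw [← Complex.exp_add]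
    congr 1
    ring
  rw [e5]
  ring

private theorem qq_all (hD : 3 ≤ D) (hb : 0 < b) (hb2 : b + 1 < D) (G : GP D b)
    (l : ↥(Ph D b) → ℂ) (hl : l ∈ LL D b) :
    ∀ u : ↥(Ph D b) → ℂ, G.Sg (u + l) = ff D b u l * G.Sg u := by
  induction hl using AddSubgroup.closure_induction with
  | mem x hx =>
    obtain ⟨j, rfl⟩ := hx
    exact fun u => qq_base G j u
  | zero =>
    intro u
    unfold ff
    rw [hh_zr, hh_zr]
    simp
  | add x y hx hy h1 h2 =>
    intro u
    obtain ⟨n, hn⟩ := ll_int hD hb hb2 x y hx hy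
    rw [← add_assoc, h2, h1]
    have e1 : ff D b (u + x) y * ff D b u x = ff D b u (x + y) := by
      unfold ff
      rw [← Complex.exp_add, Complex.exp_eq_exp_iff_exists_int]
      refine ⟨n, ?_⟩
      have e2 : Hh (cv D b) x y - Hh (cv D b) y x = 2 * n * I := by
        rw [hh_cj _ x y, Complex.sub_conj, hn]
        push_cast
        ring
      have e3 : Hh (cv D b) x y = Hh (cv D b) y x + 2 * n * I := by
        rw [← e2]
        ring
      rw [hh_al, hh_ar, hh_ar, hh_al, hh_al, e3]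
      ring
    rw [← e1]
    ring
  | neg x hx h1 =>
    intro u
    have h3 := h1 (u + -x)
    rw [neg_add_cancel_right] at h3
    rw [h3, ← mul_assoc]
    have e1 : ff D b u (-x) * ff D b (u + -x) x = 1 := by
      unfold ff
      rw [← Complex.exp_add]
      rw [hh_nr, hh_nr, hh_nl, hh_al, hh_nl]
      have : (2 * Real.pi * -Hh (cv D b) u x + Real.pi * -(-Hh (cv D b) x x) +
          (2 * Real.pi * (Hh (cv D b) u x + -Hh (cv D b) x x) + Real.pi * Hh (cv D b) x x) : ℂ) =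
          0 := by ring
      rw [this, Complex.exp_zero]
    rw [e1, one_mul]

theorem GP.Sg_qp (hD : 3 ≤ D) (hb : 0 < b) (hb2 : b + 1 < D) (G : GP D b) (p : ℕ → ℤ)
    (u : ↥(Ph D b) → ℂ) :
    G.Sg (u + ∑ j ∈ range D, p j • lav D b j) =
      cexp (2 * Real.pi * Hh (cv D b) u (∑ j ∈ range D, p j • lav D b j) +
        Real.pi * Hh (cv D b) (∑ j ∈ range D, p j • lav D b j)
          (∑ j ∈ range D, p j • lav D b j)) * G.Sg u := by
  have hm : (∑ j ∈ range D, p j • lav D b j) ∈ LL D b := by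
    refine sum_mem fun j _ => ?_
    exact (LL D b).zsmul_mem (AddSubgroup.subset_closure (Set.mem_range_self j)) _
  exact qq_all hD hb hb2 G _ hm u

end

end Pool.Agent.RHU
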