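import Pool.Agent.RHU.Defs

/-!
# RHU-Star: radial primitives

PLAN. `hasDerivAt_prim`: near `z` all `r z'` (`0 ≤ r ≤ 1`) stay in a compact subset of `U`; derivative under the
integral sign (`intervalIntegral.hasDerivAt_integral_of_dominated_loc_of_deriv_le`):
`d/dz [φ(rz) z] = φ'(rz) r z + φ(rz) = d/dr [r φ(rz)]`, so the integral over `[0,1]` is `φ(z)`.
`prim_ray`: substitution `s = ρ r`.
-/

set_option autoImplicit false

namespace Pool.Agent.RHU

open Complex Finset Filter Topology MeasureTheory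

theorem hasDerivAt_prim {U : Set ℂ} (hU : IsOpen U)
    (hs : ∀ z ∈ U, ∀ r : ℝ, 0 ≤ r → r ≤ 1 → (r : ℂ) * z ∈ U) {φ : ℂ → ℂ}
    (hφ : DifferentiableOn ℂ φ U) {z : ℂ} (hz : z ∈ U) : HasDerivAt (Prim φ) (φ z) z := by
  classical
  -- the compact neighbourhood of the segment
  have hK0 : IsCompact ((fun r : ℝ => (r : ℂ) * z) '' Set.Icc (0 : ℝ) 1) :=
    isCompact_Icc.image (by fun_prop)
  have hK0U : ((fun r : ℝ => (r : ℂ) * z) '' Set.Icc (0 : ℝ) 1) ⊆ U := by
    rintro _ ⟨r, hr, rfl⟩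
    exact hs z hz r hr.1 hr.2
  obtain ⟨δ, hδ, hδU⟩ := hK0.exists_cthickening_subset_open hU hK0U
  set K : Set ℂ := Metric.cthickening δ ((fun r : ℝ => (r : ℂ) * z) '' Set.Icc (0 : ℝ) 1) with hKdef
  have hK : IsCompact K := hK0.cthickening
  have hmem : ∀ z' ∈ Metric.ball z δ, ∀ r : ℝ, 0 ≤ r → r ≤ 1 → (r : ℂ) * z' ∈ K := by
    intro z' hz' r h0 h1
    refine Metric.mem_cthickening_of_dist_le _ ((r : ℂ) * z) δ _ ⟨r, ⟨h0, h1⟩, rfl⟩ ?_
    rw [dist_eq_norm, ← mul_sub, norm_mul, Complex.norm_real, Real.norm_of_nonneg h0]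
    have h2 : ‖z' - z‖ ≤ δ := (mem_ball_iff_norm.1 hz').le
    calc r * ‖z' - z‖ ≤ 1 * δ := mul_le_mul h1 h2 (norm_nonneg _) zero_le_one
      _ = δ := one_mul δ
  have hφ' : DifferentiableOn ℂ (deriv φ) U := hφ.deriv hU
  have hc1 : ContinuousOn φ K := hφ.continuousOn.mono hδU
  have hc2 : ContinuousOn (deriv φ) K := hφ'.continuousOn.mono hδU
  obtain ⟨A, hA⟩ := hK.exists_bound_of_continuousOn hc1
  obtain ⟨B, hB⟩ := hK.exists_bound_of_continuousOn hc2
  have hzK : ∀ r : ℝ, 0 ≤ r → r ≤ 1 → (r : ℂ) * z ∈ K := hmem z (Metric.mem_ball_self hδ)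
  have hcF : ∀ z' ∈ Metric.ball z δ, ContinuousOn (fun r : ℝ => φ (r * z') * z') (Set.Icc 0 1) := by
    intro z' hz'
    refine ContinuousOn.mul (hc1.comp (by fun_prop) ?_) continuousOn_const
    intro r hr
    exact hmem z' hz' r hr.1 hr.2
  have hcF' : ContinuousOn (fun r : ℝ => deriv φ (r * z) * r * z + φ (r * z)) (Set.Icc 0 1) := by
    refine ContinuousOn.add (ContinuousOn.mul (ContinuousOn.mul (hc2.comp (by fun_prop) ?_)
      (by fun_prop)) continuousOn_const) (hc1.comp (by fun_prop) ?_)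
    · intro r hr
      exact hzK r hr.1 hr.2
    · intro r hr
      exact hzK r hr.1 hr.2
  have hmeas : ∀ g : ℝ → ℂ, ContinuousOn g (Set.Icc 0 1) →
      AEStronglyMeasurable g (volume.restrict (Set.uIoc 0 1)) := by
    intro g hg
    rw [Set.uIoc_of_le zero_le_one]
    exact (hg.mono Set.Ioc_subset_Icc_self).aestronglyMeasurable measurableSet_Ioc
  have hdiff : ∀ z' ∈ Metric.ball z δ, ∀ r : ℝ, 0 ≤ r → r ≤ 1 →
      HasDerivAt (fun w : ℂ => φ (r * w) * w) (deriv φ (r * z') * r * z' + φ (r * z')) z' := by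
    intro z' hz' r h0 h1
    have h2 : HasDerivAt φ (deriv φ (r * z')) (r * z') :=
      (hφ.differentiableAt (hU.mem_nhds (hδU (hmem z' hz' r h0 h1)))).hasDerivAt
    have h3 : HasDerivAt (fun w : ℂ => (r : ℂ) * w) (r : ℂ) z' := by
      simpa using (hasDerivAt_id z').const_mul (r : ℂ)
    have h4 : HasDerivAt (fun w : ℂ => φ (r * w) * w)
        (deriv φ (r * z') * r * z' + φ (r * z') * 1) z' := (h2.comp z' h3).mul (hasDerivAt_id z')
    rw [mul_one] at h4
    exact h4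
  have key := intervalIntegral.hasDerivAt_integral_of_dominated_loc_of_deriv_le
    (μ := volume) (a := (0 : ℝ)) (b := 1) (F := fun (w : ℂ) (r : ℝ) => φ (r * w) * w)
    (F' := fun (w : ℂ) (r : ℝ) => deriv φ (r * w) * r * w + φ (r * w)) (x₀ := z)
    (bound := fun _ => B * 1 * (‖z‖ + δ) + A)
    (Metric.ball_mem_nhds z hδ)
    (Filter.eventually_of_mem (Metric.ball_mem_nhds z hδ) fun w hw => hmeas _ (hcF w hw))
    (ContinuousOn.intervalIntegrable (by
      rw [Set.uIcc_of_le zero_le_one]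
      exact hcF z (Metric.mem_ball_self hδ)))
    (hmeas _ hcF')
    (Filter.Eventually.of_forall fun r hr w hw => by
      rw [Set.uIoc_of_le zero_le_one] at hr
      have h1 := hmem w hw r hr.1.le hr.2
      have h2 : ‖w‖ ≤ ‖z‖ + δ := by
        have : ‖w - z‖ ≤ δ := (mem_ball_iff_norm.1 hw).le
        calc ‖w‖ = ‖z + (w - z)‖ := by ring_nf
          _ ≤ ‖z‖ + ‖w - z‖ := norm_add_le _ _
          _ ≤ ‖z‖ + δ := by linarith
      have h3 : ‖(r : ℂ)‖ ≤ 1 := by
        rw [Complex.norm_real, Real.norm_of_nonneg hr.1.le]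
        exact hr.2
      have hB0 : 0 ≤ B := (norm_nonneg _).trans (hB _ h1)
      calc ‖deriv φ (r * w) * r * w + φ (r * w)‖
          ≤ ‖deriv φ (r * w) * r * w‖ + ‖φ (r * w)‖ := norm_add_le _ _
        _ = ‖deriv φ (r * w)‖ * ‖(r : ℂ)‖ * ‖w‖ + ‖φ (r * w)‖ := by rw [norm_mul, norm_mul]
        _ ≤ B * 1 * (‖z‖ + δ) + A := by
            refine add_le_add ?_ (hA _ h1)
            refine mul_le_mul ?_ h2 (norm_nonneg _) (by positivity)
            exact mul_le_mul (hB _ h1) h3 (norm_nonneg _) hB0)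
    intervalIntegrable_const
    (Filter.Eventually.of_forall fun r hr w hw => by
      rw [Set.uIoc_of_le zero_le_one] at hr
      exact hdiff w hw r hr.1.le hr.2)
  have hint : ∫ r in (0 : ℝ)..1, (deriv φ (r * z) * r * z + φ (r * z)) = φ z := by
    have h1 : ∀ r ∈ Set.uIcc (0 : ℝ) 1, HasDerivAt (fun r : ℝ => (r : ℂ) * φ (r * z))
        (deriv φ (r * z) * r * z + φ (r * z)) r := by
      intro r hr
      rw [Set.uIcc_of_le zero_le_one] at hr
      have h2 : HasDerivAt φ (deriv φ (r * z)) (r * z) :=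
        (hφ.differentiableAt (hU.mem_nhds (hδU (hzK r hr.1 hr.2)))).hasDerivAt
      have h5 : HasDerivAt (fun r : ℝ => (r : ℂ)) 1 r := Complex.ofRealCLM.hasDerivAt
      have h3 : HasDerivAt (fun r : ℝ => (r : ℂ) * z) z r := by
        simpa using h5.mul_const z
      have h4 : HasDerivAt (fun r : ℝ => φ ((r : ℂ) * z)) (deriv φ (r * z) * z) r :=
        h2.comp_of_eq r h3 rfl
      have h6 : HasDerivAt (fun r : ℝ => (r : ℂ) * φ (r * z))
        (1 * φ (r * z) + r * (deriv φ (r * z) * z)) r := h5.mul h4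
      have h7 : deriv φ (r * z) * r * z + φ (r * z) =
        1 * φ (r * z) + r * (deriv φ (r * z) * z) := by ring
      rw [h7]
      exact h6
    rw [intervalIntegral.integral_eq_sub_of_hasDerivAt h1]
    · simp
    · refine ContinuousOn.intervalIntegrable ?_
      rw [Set.uIcc_of_le zero_le_one]
      exact hcF'
  have h2 := key.2
  rw [hint] at h2
  exact h2

theorem prim_zero (φ : ℂ → ℂ) : Prim φ 0 = 0 := by
  simp [Prim]

theorem prim_rot (φ ψ : ℂ → ℂ) (c k : ℂ) (h : ∀ z, φ (c * z) * c = k * ψ z) (z : ℂ) :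
    Prim φ (c * z) = k * Prim ψ z := by
  unfold Prim
  rw [← intervalIntegral.integral_const_mul]
  refine intervalIntegral.integral_congr fun r _ => ?_
  have h1 := h (r * z)
  have h2 : (r : ℂ) * (c * z) = c * (r * z) := by ring
  change φ (r * (c * z)) * (c * z) = k * (ψ (r * z) * z)
  rw [h2, ← mul_assoc, h1, mul_assoc]

theorem prim_congr (φ ψ : ℂ → ℂ) (z : ℂ) (h : ∀ r : ℝ, 0 < r → r ≤ 1 → φ (r * z) = ψ (r * z)) :
    Prim φ z = Prim ψ z := by
  unfold Prim
  refine intervalIntegral.integral_congr_ae (Filter.Eventually.of_forall fun r hr => ?_)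
  rw [Set.uIoc_of_le zero_le_one] at hr
  rw [h r hr.1 hr.2]

/-- the primitive as an integral over the length -/
theorem prim_ray (φ : ℂ → ℂ) (ρ : ℝ) (hρ : 0 < ρ) (e : ℂ) :
    Prim φ (ρ * e) = ∫ s in (0 : ℝ)..ρ, φ (s * e) * e := by
  have h1 := intervalIntegral.smul_integral_comp_mul_left (a := (0 : ℝ)) (b := 1)
    (fun s : ℝ => φ (s * e) * e) ρ
  rw [mul_zero, mul_one] at h1
  rw [← h1, ← intervalIntegral.integral_smul]
  unfold Prim
  refine intervalIntegral.integral_congr fun r _ => ?_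
  simp only [Complex.ofReal_mul, Complex.real_smul]
  have h2 : (r : ℂ) * (ρ * e) = (ρ : ℂ) * r * e := by ring
  rw [h2]
  ring

theorem prim_one (φ : ℂ → ℂ) : Prim φ 1 = ∫ s in (0 : ℝ)..1, φ s := by
  simp [Prim]

end Pool.Agent.RHU
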