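import Pool.Agent.RHU.CLim

/-!
# RHU-Wa: boundary values of `W`

PLAN. `wd` is holomorphic on `Om D`, bounded by `M |1 - |z|^D|^(-β)` on bounded sets, `β = max rr/D < 1`
(`Cc_bdd_loc` for `D - t`, `norm_Ft_loc`); `rad_lim`. `WB_rel`: for `ρ ≤ 1` both sides have the same integrand
(`CB D b (D-t) 1 ρ = CB D b (D-t) (-1) ρ` for `ρ ≤ 1`); for `ρ > 1`:
`CB (D-t) 1 = B' + ze^((D-t)b) (CB (D-t) (-1) - B')`, `B' = Bt (D-t)`, `ze^((D-t)b) ze^(tb) = 1`, so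
`wdB 1 ρ - wdB (-1) ρ = ∑ ((s_t - 1)/D) B' (ze^(tb) - 1) FB t (-1) ρ` and by `leg`
`((s_t-1)/D) B' = π ga/Bt`; integrate from `1` to `r` (`CB_eq`).
-/

set_option autoImplicit false

namespace Pool.Agent.RHU

open Complex Finset Filter Topology MeasureTheory

theorem differentiableOn_wd {D b : ℕ} (hD : 0 < D) : DifferentiableOn ℂ (wd D b) (Om D) := by
  intro z hz
  show DifferentiableWithinAt ℂ (fun z => ∑ t ∈ Ph D b,
    (((t : ℂ) / D + (rr D b t : ℂ) / D - 1) / D) * Cc D b (D - t) z * Ft D b t z) (Om D) z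
  refine DifferentiableWithinAt.fun_sum fun t _ => ?_
  refine DifferentiableWithinAt.mul ?_ (differentiableOn_Ft hD z hz)
  exact ((hasDerivAt_Cc hD hz).differentiableAt.differentiableWithinAt).const_mul _

private theorem Wa_sub_lt {D b t : ℕ} (ht : t ∈ Ph D b) : D - t < D := by
  have h := Ph_pos ht
  omega

theorem norm_wd_loc {D b : ℕ} (hD : 0 < D) (R : ℝ) : ∃ M β : ℝ, 0 ≤ β ∧ β < 1 ∧
    ∀ z ∈ Om D, ‖z‖ ≤ R → ‖z‖ ≠ 1 → ‖wd D b z‖ ≤ M * |1 - ‖z‖ ^ D| ^ (-β) := by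
  have hD' : (0 : ℝ) < D := by exact_mod_cast hD
  have h1 : ∀ t, ∃ M : ℝ, ∀ z : ℂ, ‖z‖ ≤ R → ‖z‖ ≠ 1 →
      ‖Ft D b t z‖ ≤ M * |1 - ‖z‖ ^ D| ^ (-((rr D b t : ℝ) / D)) := fun t => norm_Ft_loc hD R
  have h2 : ∀ t, ∃ M : ℝ, t ∈ Ph D b → ∀ z ∈ Om D, ‖z‖ ≤ R → ‖Cc D b (D - t) z‖ ≤ M := by
    intro t
    by_cases ht : t ∈ Ph D b
    · obtain ⟨M, hM⟩ := Cc_bdd_loc (b := b) hD (Wa_sub_lt ht) R
      exact ⟨M, fun _ => hM⟩
    · exact ⟨0, fun h => absurd h ht⟩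
  choose A hA using h1
  choose B hB using h2
  obtain ⟨Y, hY⟩ : ∃ Y : ℝ, Y = 1 + |R| ^ D := ⟨_, rfl⟩
  have hY1 : 1 ≤ Y := by
    have : 0 ≤ |R| ^ D := by positivity
    linarith
  refine ⟨∑ t ∈ Ph D b, ‖(((t : ℂ) / D + (rr D b t : ℂ) / D - 1) / D)‖ * |B t| * (|A t| * Y),
    ((D : ℝ) - 1) / D, ?_, ?_, ?_⟩
  · have h3 : (1 : ℝ) ≤ D := by exact_mod_cast hD
    exact div_nonneg (by linarith) hD'.le
  · rw [div_lt_one hD']
    linarith
  · intro z hz hzR hz1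
    obtain ⟨x, hx⟩ : ∃ x : ℝ, x = |1 - ‖z‖ ^ D| := ⟨_, rfl⟩
    rw [← hx]
    have hx0 : 0 < x := by
      rw [hx, abs_pos]
      intro h
      apply hz1
      have h4 : ‖z‖ ^ D = 1 := by linarith
      exact (pow_eq_one_iff_of_nonneg (norm_nonneg z) hD.ne').1 h4
    have hxY : x ≤ Y := by
      rw [hx, hY]
      refine (abs_sub _ _).trans ?_
      rw [abs_one, abs_of_nonneg (by positivity : 0 ≤ ‖z‖ ^ D)]
      have h5 : ‖z‖ ^ D ≤ |R| ^ D := pow_le_pow_left₀ (norm_nonneg z) (hzR.trans (le_abs_self R)) D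
      linarith
    have hkey : ∀ t ∈ Ph D b, ‖(((t : ℂ) / D + (rr D b t : ℂ) / D - 1) / D) * Cc D b (D - t) z *
        Ft D b t z‖ ≤ ‖(((t : ℂ) / D + (rr D b t : ℂ) / D - 1) / D)‖ * |B t| * (|A t| * Y) *
          x ^ (-(((D : ℝ) - 1) / D)) := by
      intro t ht
      have hp := Ph_pos ht
      rw [norm_mul, norm_mul]
      have e1 : ‖Cc D b (D - t) z‖ ≤ |B t| := (hB t ht z hz hzR).trans (le_abs_self _)
      have e2 : ‖Ft D b t z‖ ≤ |A t| * Y * x ^ (-(((D : ℝ) - 1) / D)) := by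
        have e3 := hA t z hzR hz1
        rw [← hx] at e3
        have e4 : x ^ (-((rr D b t : ℝ) / D)) ≤ Y * x ^ (-(((D : ℝ) - 1) / D)) := by
          have e5 : -((rr D b t : ℝ) / D) = (((D : ℝ) - 1) / D - (rr D b t : ℝ) / D) +
              (-(((D : ℝ) - 1) / D)) := by ring
          rw [e5, Real.rpow_add hx0]
          refine mul_le_mul_of_nonneg_right ?_ (Real.rpow_nonneg hx0.le _)
          have e6 : ((rr D b t : ℕ) : ℝ) + 1 ≤ D := by exact_mod_cast hp.2.2.2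
          have e7 : 0 ≤ ((D : ℝ) - 1) / D - (rr D b t : ℝ) / D := by
            rw [← sub_div]
            exact div_nonneg (by linarith) hD'.le
          have e8 : ((D : ℝ) - 1) / D - (rr D b t : ℝ) / D ≤ 1 := by
            rw [← sub_div, div_le_one hD']
            have : (0 : ℝ) ≤ (rr D b t : ℝ) := Nat.cast_nonneg _
            linarith
          calc x ^ (((D : ℝ) - 1) / D - (rr D b t : ℝ) / D)
              ≤ Y ^ (((D : ℝ) - 1) / D - (rr D b t : ℝ) / D) :=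
                Real.rpow_le_rpow hx0.le hxY e7
            _ ≤ Y ^ (1 : ℝ) := Real.rpow_le_rpow_of_exponent_le hY1 e8
            _ = Y := Real.rpow_one Y
        calc ‖Ft D b t z‖ ≤ A t * x ^ (-((rr D b t : ℝ) / D)) := e3
          _ ≤ |A t| * x ^ (-((rr D b t : ℝ) / D)) :=
            mul_le_mul_of_nonneg_right (le_abs_self _) (Real.rpow_nonneg hx0.le _)
          _ ≤ |A t| * (Y * x ^ (-(((D : ℝ) - 1) / D))) :=
            mul_le_mul_of_nonneg_left e4 (abs_nonneg _)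
          _ = |A t| * Y * x ^ (-(((D : ℝ) - 1) / D)) := by ring
      calc ‖(((t : ℂ) / D + (rr D b t : ℂ) / D - 1) / D)‖ * ‖Cc D b (D - t) z‖ * ‖Ft D b t z‖
          ≤ ‖(((t : ℂ) / D + (rr D b t : ℂ) / D - 1) / D)‖ * |B t| *
            (|A t| * Y * x ^ (-(((D : ℝ) - 1) / D))) :=
            mul_le_mul (mul_le_mul_of_nonneg_left e1 (norm_nonneg _)) e2 (norm_nonneg _)
              (by positivity)
        _ = _ := by ring
    calc ‖wd D b z‖ ≤ ∑ t ∈ Ph D b, ‖(((t : ℂ) / D + (rr D b t : ℂ) / D - 1) / D) *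
          Cc D b (D - t) z * Ft D b t z‖ := norm_sum_le _ _
      _ ≤ _ := by
          rw [Finset.sum_mul]
          exact Finset.sum_le_sum hkey

theorem hasDerivAt_Ww {D b : ℕ} (hD : 0 < D) {z : ℂ} (hz : z ∈ Om D) :
    HasDerivAt (Ww D b) (wd D b z) z :=
  hasDerivAt_prim (isOpen_Om D) (fun z hz r h0 h1 => star_Om hD z hz r h0 h1)
    (differentiableOn_wd hD) hz

theorem Ww_rot {D b : ℕ} (hD : 0 < D) {c : ℂ} (hc : c ^ D = 1) (z : ℂ) :
    Ww D b (c * z) = Ww D b z := by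
  have _ := hD
  have h := prim_rot (wd D b) (wd D b) c 1 (by
    intro z
    unfold wd
    rw [Finset.sum_mul, one_mul]
    refine Finset.sum_congr rfl fun t ht => ?_
    have hp := Ph_pos ht
    rw [mul_assoc, Ft_rot hp.2.1 hc, Cc_rot (Wa_sub_lt ht) hc]
    have e1 : D - (D - t) = t := by omega
    have e2 : c ^ t * c ^ (D - t) = 1 := by
      rw [← pow_add, ← hc]
      congr 1
      omega
    rw [e1]
    calc (((t : ℂ) / D + (rr D b t : ℂ) / D - 1) / D) * (c ^ t * Cc D b (D - t) z) *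
          (c ^ (D - t) * Ft D b t z)
        = (c ^ t * c ^ (D - t)) * ((((t : ℂ) / D + (rr D b t : ℂ) / D - 1) / D) *
          Cc D b (D - t) z * Ft D b t z) := by ring
      _ = _ := by rw [e2, one_mul]) z
  rw [one_mul] at h
  exact h

private theorem Wa_lim {D b : ℕ} (hD : 0 < D) {σ ρ : ℝ} (hσ : σ = 1 ∨ σ = -1) (hρ : 0 < ρ)
    (h1 : ρ ≠ 1) : Tendsto (wd D b) (𝓝[hp σ] (ρ : ℂ)) (𝓝 (wdB D b σ ρ)) := by
  show Tendsto (fun z => ∑ t ∈ Ph D b,
    (((t : ℂ) / D + (rr D b t : ℂ) / D - 1) / D) * Cc D b (D - t) z * Ft D b t z) _ _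
  refine tendsto_finsetSum _ fun t _ => ?_
  exact ((Cc_lim hD hσ hρ).const_mul _).mul (FB_lim hD hσ hρ h1)

theorem Ww_lim {D b : ℕ} (hD : 0 < D) {σ r : ℝ} (hσ : σ = 1 ∨ σ = -1) (hr : 0 < r) :
    Tendsto (Ww D b) (𝓝[hp σ] (r : ℂ)) (𝓝 (WB D b σ r)) := by
  obtain ⟨M, β, hβ0, hβ, hM⟩ := norm_wd_loc (b := b) hD (r + 1)
  exact rad_lim hD hσ hβ0 hβ (differentiableOn_wd hD).continuousOn hM
    (fun ρ hρ _ h1 => Wa_lim hD hσ hρ h1) hr (by linarith)

private theorem Wa_int {D b : ℕ} (hD : 0 < D) {σ r : ℝ} (hσ : σ = 1 ∨ σ = -1) (hr : 0 < r) :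
    IntervalIntegrable (wdB D b σ) volume 0 r := by
  obtain ⟨M, β, hβ0, hβ, hM⟩ := norm_wd_loc (b := b) hD (r + 1)
  exact rad_int hD hσ hβ0 hβ (differentiableOn_wd hD).continuousOn hM
    (fun ρ hρ _ h1 => Wa_lim hD hσ hρ h1) hr (by linarith)

private theorem Wa_FB_le {D b t : ℕ} {ρ : ℝ} (h1 : ρ ≤ 1) : FB D b t 1 ρ = FB D b t (-1) ρ := by
  unfold FB
  rw [etaB_of_le h1, etaB_of_le h1]

private theorem Wa_CB_le {D b t : ℕ} {ρ : ℝ} (h0 : 0 ≤ ρ) (h1 : ρ ≤ 1) :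
    CB D b t 1 ρ = CB D b t (-1) ρ := by
  unfold CB
  refine intervalIntegral.integral_congr fun x hx => ?_
  rw [Set.uIcc_of_le h0] at hx
  exact Wa_FB_le (hx.2.trans h1)

private theorem Wa_diff {D b : ℕ} (hD : 0 < D) {ρ : ℝ} (h1 : 1 < ρ) :
    wdB D b 1 ρ - wdB D b (-1) ρ = ∑ t ∈ Ph D b, (Real.pi * (((ga D b t / Bt D b t : ℝ) : ℂ) *
      (ze D ^ (t * b) - 1))) * FB D b t (-1) ρ := by
  unfold wdB
  rw [← Finset.sum_sub_distrib]
  refine Finset.sum_congr rfl fun t ht => ?_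
  have hp := Ph_pos ht
  have e1 := CB_rel (b := b) (t := D - t) hD (by omega) (by omega) h1.le
  have e2 := FB_one (b := b) (t := t) hD h1
  have e3 : ze D ^ ((D - t) * b) * ze D ^ (t * b) = 1 := by
    rw [← pow_add, ← add_mul]
    have e4 : D - t + t = D := by omega
    rw [e4, pow_mul, ze_pow D hD, one_pow]
  have e5 := congrArg (fun x : ℝ => (x : ℂ)) (leg ht)
  push_cast at e5
  have e6 : CB D b (D - t) 1 ρ = Bt D b (D - t) +
      ze D ^ ((D - t) * b) * (CB D b (D - t) (-1) ρ - Bt D b (D - t)) := by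
    rw [← e1]
    ring
  rw [e6, e2]
  push_cast
  have e7 : ∀ (x C' B' F' u v : ℂ), u * v = 1 →
      x * (B' + u * (C' - B')) * (v * F') - x * C' * F' = (x * B') * (v - 1) * F' := by
    intro x C' B' F' u v huv
    have : x * (B' + u * (C' - B')) * (v * F') =
        x * B' * v * F' + (u * v) * (x * (C' - B') * F') := by ring
    rw [this, huv]
    ring
  rw [e7 _ _ _ _ _ _ e3, ← e5]
  ring

theorem WB_rel {D b : ℕ} (hD : 0 < D) {r : ℝ} (hr : 1 ≤ r) :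
    WB D b 1 r - WB D b (-1) r = Real.pi * ∑ t ∈ Ph D b, ((ga D b t / Bt D b t : ℝ) : ℂ) *
      (ze D ^ (t * b) - 1) * (CB D b t (-1) r - Bt D b t) := by
  have hr0 : 0 < r := by linarith
  have hi1 := Wa_int (b := b) hD (Or.inl rfl : (1 : ℝ) = 1 ∨ (1 : ℝ) = -1) hr0
  have hi2 := Wa_int (b := b) hD (Or.inr rfl : (-1 : ℝ) = 1 ∨ (-1 : ℝ) = -1) hr0
  have hi := hi1.sub hi2
  have hsub1 : Set.uIcc (0 : ℝ) 1 ⊆ Set.uIcc 0 r := by
    rw [Set.uIcc_of_le zero_le_one, Set.uIcc_of_le hr0.le]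
    exact Set.Icc_subset_Icc le_rfl hr
  have hsub2 : Set.uIcc (1 : ℝ) r ⊆ Set.uIcc 0 r := by
    rw [Set.uIcc_of_le hr, Set.uIcc_of_le hr0.le]
    exact Set.Icc_subset_Icc zero_le_one le_rfl
  unfold WB
  rw [← intervalIntegral.integral_sub hi1 hi2,
    ← intervalIntegral.integral_add_adjacent_intervals (hi.mono_set hsub1) (hi.mono_set hsub2)]
  have hz : ∫ ρ in (0 : ℝ)..1, (wdB D b 1 ρ - wdB D b (-1) ρ) = 0 := by
    rw [intervalIntegral.integral_congr (g := fun _ => (0 : ℂ))]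
    · simp
    · intro ρ hρ
      rw [Set.uIcc_of_le zero_le_one] at hρ
      show wdB D b 1 ρ - wdB D b (-1) ρ = 0
      unfold wdB
      rw [sub_eq_zero]
      refine Finset.sum_congr rfl fun t _ => ?_
      rw [Wa_FB_le hρ.2, Wa_CB_le hρ.1 hρ.2]
  have hone : ∫ ρ in (1 : ℝ)..r, (wdB D b 1 ρ - wdB D b (-1) ρ) =
      ∫ ρ in (1 : ℝ)..r, ∑ t ∈ Ph D b, (Real.pi * (((ga D b t / Bt D b t : ℝ) : ℂ) *
      (ze D ^ (t * b) - 1))) * FB D b t (-1) ρ := by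
    refine intervalIntegral.integral_congr_ae (Filter.Eventually.of_forall fun ρ hρ => ?_)
    rw [Set.uIoc_of_le hr] at hρ
    exact Wa_diff hD hρ.1
  rw [hz, hone, zero_add, intervalIntegral.integral_finsetSum]
  · rw [Finset.mul_sum]
    refine Finset.sum_congr rfl fun t ht => ?_
    have hp := Ph_pos ht
    rw [intervalIntegral.integral_const_mul,
      CB_eq (b := b) hD hp.1 hp.2.1 (Or.inr rfl : (-1 : ℝ) = 1 ∨ (-1 : ℝ) = -1) hr0.le]
    ring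
  · intro t _
    exact (intervalIntegrable_FB hD (Or.inr rfl) 1 r zero_le_one hr0.le).const_mul _

end Pool.Agent.RHU
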